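import Pool.Agent.HSP.Targets1

set_option autoImplicit false

/-!
# HSP: injectivity for absolutely convergent series of characters (INJ)

Instead of integral means we use discrete means over `x = k h`, `k < n`, and then `h → 0`: only
finite sums are exchanged with the series.
-/

open scoped Classical ENNReal Topology
open Filter

noncomputable section

namespace Pool.Agent.HSP

theorem INJ_norm (t x : ℝ) : ‖ex t x‖ = 1 := by
  unfold ex
  exact Complex.norm_exp_ofReal_mul_I _

theorem INJ_sub (t s x : ℝ) : ex (t - s) x = ex (-s) x * ex t x := by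
  unfold ex
  rw [← Complex.exp_add]
  congr 1
  push_cast
  ring

theorem INJ_pow (t h : ℝ) (k : ℕ) : ex t (k * h) = ex t h ^ k := by
  unfold ex
  rw [← Complex.exp_nat_mul]
  congr 1
  push_cast
  ring

/-- Mean of the first powers. -/
def INJ_D (n : ℕ) (z : ℂ) : ℂ := (∑ k ∈ Finset.range (n + 1), z ^ k) / ((n + 1 : ℕ) : ℂ)

theorem INJ_D_norm (n : ℕ) (z : ℂ) (hz : ‖z‖ = 1) : ‖INJ_D n z‖ ≤ 1 := by
  unfold INJ_D
  rw [norm_div, Complex.norm_natCast, div_le_one (by positivity)]
  calc ‖∑ k ∈ Finset.range (n + 1), z ^ k‖ ≤ ∑ k ∈ Finset.range (n + 1), ‖z ^ k‖ :=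
        norm_sum_le _ _
    _ = ((n + 1 : ℕ) : ℝ) := by simp [hz]

theorem INJ_D_lim (z : ℂ) (hz : ‖z‖ = 1) :
    Tendsto (fun n : ℕ => INJ_D n z) atTop (𝓝 (if z = 1 then 1 else 0)) := by
  by_cases h1 : z = 1
  · rw [if_pos h1]
    have : (fun n : ℕ => INJ_D n z) = fun _ => (1 : ℂ) := by
      funext n
      unfold INJ_D
      have h0 : ((n + 1 : ℕ) : ℂ) ≠ 0 := by exact_mod_cast Nat.succ_ne_zero n
      rw [h1]
      simp only [one_pow, Finset.sum_const, Finset.card_range, nsmul_eq_mul, mul_one]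
      exact div_self h0
    rw [this]
    exact tendsto_const_nhds
  · rw [if_neg h1]
    have hne : z - 1 ≠ 0 := sub_ne_zero.2 h1
    have hpos : 0 < ‖z - 1‖ := norm_pos_iff.2 hne
    have hlim : Tendsto (fun n : ℕ => (2 / ‖z - 1‖) * (1 / ((n : ℝ) + 1))) atTop (𝓝 0) := by
      have := tendsto_one_div_add_atTop_nhds_zero_nat (𝕜 := ℝ)
      simpa using this.const_mul (2 / ‖z - 1‖)
    refine squeeze_zero_norm (fun n => ?_) hlim
    unfold INJ_D
    rw [geom_sum_eq h1, norm_div, norm_div, Complex.norm_natCast]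
    have h2 : ‖z ^ (n + 1) - 1‖ ≤ 2 := by
      calc ‖z ^ (n + 1) - 1‖ ≤ ‖z ^ (n + 1)‖ + ‖(1 : ℂ)‖ := norm_sub_le _ _
        _ = 2 := by rw [norm_pow, hz]; norm_num
    have h3 : (0 : ℝ) < ((n + 1 : ℕ) : ℝ) := by positivity
    rw [div_div, div_mul_div_comm, mul_one]
    push_cast at h3 ⊢
    gcongr

theorem INJ_alias (c : ℝ → ℂ) (hc : Summable fun t => ‖c t‖)
    (h0 : ∀ x : ℝ, ∑' t, c t * ex t x = 0) (s h : ℝ) :
    ∑' t, c t * (if ex (t - s) h = 1 then 1 else 0) = 0 := by
  have hsum : ∀ x : ℝ, Summable fun t => c t * ex t x := fun x =>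
    Summable.of_norm (by simpa [norm_mul, INJ_norm] using hc)
  have hz : ∀ k : ℕ, HasSum (fun t => c t * ex (t - s) h ^ k) 0 := by
    intro k
    have h1 := (hsum (k * h)).hasSum
    rw [h0] at h1
    have h2 := h1.mul_left (ex (-s) (k * h))
    rw [mul_zero] at h2
    refine h2.congr_fun ?_ |> fun h => h
    intro t
    rw [← INJ_pow, INJ_sub]
    ring
  have hD : ∀ n : ℕ, ∑' t, c t * INJ_D n (ex (t - s) h) = 0 := by
    intro n
    have h1 : HasSum (fun t => ∑ k ∈ Finset.range (n + 1), c t * ex (t - s) h ^ k)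
        (∑ k ∈ Finset.range (n + 1), (0 : ℂ)) := hasSum_sum fun k _ => hz k
    rw [Finset.sum_const_zero] at h1
    have h2 := h1.div_const ((n + 1 : ℕ) : ℂ)
    rw [zero_div] at h2
    rw [← h2.tsum_eq]
    congr 1
    funext t
    unfold INJ_D
    rw [← Finset.mul_sum, mul_div_assoc]
  have hlim : Tendsto (fun n : ℕ => ∑' t, c t * INJ_D n (ex (t - s) h)) atTop
      (𝓝 (∑' t, c t * (if ex (t - s) h = 1 then 1 else 0))) := by
    refine tendsto_tsum_of_dominated_convergence hc (fun t => ?_) (Eventually.of_forall ?_)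
    · exact (INJ_D_lim _ (INJ_norm _ _)).const_mul (c t)
    · intro n t
      rw [norm_mul]
      calc ‖c t‖ * ‖INJ_D n (ex (t - s) h)‖ ≤ ‖c t‖ * 1 := by
            gcongr
            exact INJ_D_norm n _ (INJ_norm _ _)
        _ = ‖c t‖ := mul_one _
  simp only [hD] at hlim
  exact (tendsto_nhds_unique hlim tendsto_const_nhds)

theorem INJ_ex_ne (u h : ℝ) (h1 : u * h ≠ 0) (h2 : |u * h| < 2 * Real.pi) : ex u h ≠ 1 := by
  unfold ex
  intro h3
  rw [Complex.exp_eq_one_iff] at h3
  obtain ⟨n, hn⟩ := h3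
  have h4 : ((u * h : ℝ) : ℂ) = ((n * (2 * Real.pi) : ℝ) : ℂ) := by
    have h5 : ((u * h : ℝ) : ℂ) * Complex.I = ((n * (2 * Real.pi) : ℝ) : ℂ) * Complex.I := by
      rw [hn]; push_cast; ring
    exact mul_right_cancel₀ Complex.I_ne_zero h5
  have h5 : u * h = n * (2 * Real.pi) := by exact_mod_cast h4
  have h6 : n ≠ 0 := by
    rintro rfl
    apply h1
    rw [h5]; simp
  have h7 : (1 : ℝ) ≤ |(n : ℝ)| := by
    rw [← Int.cast_abs]
    exact_mod_cast Int.one_le_abs h6
  rw [h5, abs_mul, abs_of_pos (by positivity : (0 : ℝ) < 2 * Real.pi)] at h2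
  nlinarith [Real.pi_pos]

theorem p_INJ : T_INJ := by
  intro c hc h0 s
  have hlim : Tendsto (fun m : ℕ => ∑' t, c t * (if ex (t - s) (1 / ((m : ℝ) + 1)) = 1 then 1 else 0))
      atTop (𝓝 (∑' t, c t * (if t = s then 1 else 0))) := by
    refine tendsto_tsum_of_dominated_convergence hc (fun t => ?_) (Eventually.of_forall ?_)
    · refine Tendsto.const_mul (c t) ?_
      by_cases ht : t = s
      · subst ht
        have : ∀ m : ℕ, ex (t - t) (1 / ((m : ℝ) + 1)) = 1 := by
          intro m; unfold ex; simp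
        simp only [this, if_true]
        exact tendsto_const_nhds
      · rw [if_neg ht]
        refine tendsto_const_nhds.congr' ?_
        have h1 : Tendsto (fun m : ℕ => |t - s| * (1 / ((m : ℝ) + 1))) atTop (𝓝 0) := by
          simpa using (tendsto_one_div_add_atTop_nhds_zero_nat (𝕜 := ℝ)).const_mul |t - s|
        have h2 : ∀ᶠ m : ℕ in atTop, |t - s| * (1 / ((m : ℝ) + 1)) < 2 * Real.pi :=
          h1.eventually (gt_mem_nhds (by positivity))
        filter_upwards [h2] with m hm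
        have h3 : (0 : ℝ) < 1 / ((m : ℝ) + 1) := by positivity
        rw [if_neg]
        refine INJ_ex_ne _ _ (mul_ne_zero (sub_ne_zero.2 ht) h3.ne') ?_
        rw [abs_mul, abs_of_pos h3]
        exact hm
    · intro n t
      split_ifs <;> simp
  simp only [INJ_alias c hc h0 s] at hlim
  have h1 := tendsto_nhds_unique hlim tendsto_const_nhds
  rw [tsum_eq_single s (fun t ht => by rw [if_neg ht, mul_zero])] at h1
  simpa using h1

end Pool.Agent.HSP
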