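import Pool.Agent.HSP.Base

set_option autoImplicit false

/-!
# HSP: the algebra of families of modes as a normed ring, the normed module of vectors
-/

open scoped Classical ENNReal

noncomputable section

namespace Pool.Agent.HSP

/-- The algebra of admissible families. -/
structure Al : Type where
  val : Fam
  adm : Adm val

namespace Al

/-- Evaluation. -/
def e (a : Al) (x : ℝ) (y : ℂ) : ℂ := ev a.1 x y

theorem ext {a b : Al} (h : ∀ t y, a.1 t y = b.1 t y) : a = b := by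
  cases a; cases b
  simp only [Al.mk.injEq]
  exact funext fun t => funext fun y => h t y

theorem ext_e {a b : Al} (h : ∀ x : ℝ, ∀ y ∈ S, e a x y = e b x y) : a = b := by
  obtain ⟨hadd, hmul, -, -, -, hinj⟩ := q_LIN
  have h1 := hmul b.1 (-1) b.2
  have h2 := hadd a.1 _ a.2 h1.1
  have h3 := hinj _ h2.1 (fun x y hy => by
    rw [h2.2.2 x y hy, h1.2.2 x y hy]
    have := h x y hy
    unfold e at this
    rw [this]; ring) q_INJ
  refine ext fun t y => ?_
  have := h3 t y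
  linear_combination this

instance : Zero Al := ⟨⟨fun _ _ => 0, q_LIN.2.2.2.1⟩⟩
instance : One Al := ⟨⟨un, q_UNA.1⟩⟩
instance : Add Al := ⟨fun a b => ⟨fun t y => a.1 t y + b.1 t y, (q_LIN.1 a.1 b.1 a.2 b.2).1⟩⟩
instance : Neg Al := ⟨fun a => ⟨fun t y => (-1 : ℂ) * a.1 t y, (q_LIN.2.1 a.1 (-1) a.2).1⟩⟩
instance : Mul Al := ⟨fun a b => ⟨cv a.1 b.1, (q_CVA a.1 b.1 a.2 b.2).1⟩⟩
instance : Star Al := ⟨fun a => ⟨st a.1, (q_STA a.1 a.2).1⟩⟩

/-- The constant `c`. -/
def cst (c : ℂ) : Al := ⟨fun t y => c * un t y, (q_LIN.2.1 un c q_UNA.1).1⟩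

theorem zero_val (t : ℝ) (y : ℂ) : (0 : Al).1 t y = 0 := rfl
theorem add_val (a b : Al) (t : ℝ) (y : ℂ) : (a + b).1 t y = a.1 t y + b.1 t y := rfl
theorem neg_val (a : Al) (t : ℝ) (y : ℂ) : (-a).1 t y = -1 * a.1 t y := rfl
theorem star_val (a : Al) : (star a).1 = st a.1 := rfl
theorem mul_val (a b : Al) : (a * b).1 = cv a.1 b.1 := rfl

theorem e_zero (x : ℝ) (y : ℂ) : e 0 x y = 0 := by
  unfold e ev
  simp [zero_val]

theorem e_one (x : ℝ) {y : ℂ} (hy : y ∈ S) : e 1 x y = 1 := q_UNA.2.2.2 x y hy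

theorem e_add (a b : Al) (x : ℝ) {y : ℂ} (hy : y ∈ S) : e (a + b) x y = e a x y + e b x y := (q_LIN.1 a.1 b.1 a.2 b.2).2.2 x y hy

theorem e_neg (a : Al) (x : ℝ) {y : ℂ} (hy : y ∈ S) : e (-a) x y = -e a x y := by
  have := (q_LIN.2.1 a.1 (-1) a.2).2.2 x y hy
  unfold e
  rw [show (-a).1 = fun t y => (-1 : ℂ) * a.1 t y from rfl, this]; ring

theorem e_mul (a b : Al) (x : ℝ) {y : ℂ} (hy : y ∈ S) : e (a * b) x y = e a x y * e b x y := (q_CVA a.1 b.1 a.2 b.2).2.2 x y hy

theorem e_star (a : Al) (x : ℝ) (y : ℂ) : e (star a) x y = (starRingEnd ℂ) (e a x ((starRingEnd ℂ) y)) := (q_STA a.1 a.2).2.2 x y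

theorem e_cst (c : ℂ) (x : ℝ) {y : ℂ} (hy : y ∈ S) : e (cst c) x y = c := by
  have := (q_LIN.2.1 un c q_UNA.1).2.2 x y hy
  unfold e cst
  rw [this, q_UNA.2.2.2 x y hy, mul_one]

instance : CommRing Al where
  add_assoc a b c := ext_e fun x y hy => by simp only [e_add _ _ x hy]; ring
  zero_add a := ext_e fun x y hy => by simp only [e_add _ _ x hy, e_zero]; ring
  add_zero a := ext_e fun x y hy => by simp only [e_add _ _ x hy, e_zero]; ring
  nsmul := nsmulRec
  zsmul := zsmulRec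
  neg_add_cancel a := ext_e fun x y hy => by simp only [e_add _ _ x hy, e_neg _ x hy, e_zero]; ring
  add_comm a b := ext_e fun x y hy => by simp only [e_add _ _ x hy]; ring
  left_distrib a b c := ext_e fun x y hy => by simp only [e_add _ _ x hy, e_mul _ _ x hy]; ring
  right_distrib a b c := ext_e fun x y hy => by simp only [e_add _ _ x hy, e_mul _ _ x hy]; ring
  zero_mul a := ext_e fun x y hy => by simp only [e_mul _ _ x hy, e_zero]; ring
  mul_zero a := ext_e fun x y hy => by simp only [e_mul _ _ x hy, e_zero]; ring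
  mul_assoc a b c := ext_e fun x y hy => by simp only [e_mul _ _ x hy]; ring
  one_mul a := ext_e fun x y hy => by simp only [e_mul _ _ x hy, e_one x hy]; ring
  mul_one a := ext_e fun x y hy => by simp only [e_mul _ _ x hy, e_one x hy]; ring
  mul_comm a b := ext_e fun x y hy => by simp only [e_mul _ _ x hy]; ring

theorem e_sub (a b : Al) (x : ℝ) {y : ℂ} (hy : y ∈ S) : e (a - b) x y = e a x y - e b x y := by
  rw [sub_eq_add_neg, e_add _ _ x hy, e_neg _ x hy]; ring

instance : StarRing Al where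
  star_involutive a := ext_e fun x y hy => by simp [e_star]
  star_mul a b := ext_e fun x y hy => by
    have hy' := (q_PTW.2.1 y hy).2.2
    rw [e_star, e_mul _ _ x hy', e_mul _ _ x hy, e_star, e_star, map_mul, mul_comm]
  star_add a b := ext_e fun x y hy => by
    have hy' := (q_PTW.2.1 y hy).2.2
    rw [e_star, e_add _ _ x hy', e_add _ _ x hy, e_star, e_star, map_add]


/-- The group norm. -/
def gnorm : AddGroupNorm Al where
  toFun a := (NN a.1).toReal
  map_zero' := by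
    change (NN (fun _ _ => 0)).toReal = 0
    rw [q_LIN.2.2.2.2.1]; rfl
  add_le' a b := by
    rw [← ENNReal.toReal_add a.2.fin.ne b.2.fin.ne]
    exact ENNReal.toReal_mono (ENNReal.add_ne_top.2 ⟨a.2.fin.ne, b.2.fin.ne⟩) (q_LIN.1 a.1 b.1 a.2 b.2).2.1
  neg' a := by
    change (NN (fun t y => (-1 : ℂ) * a.1 t y)).toReal = (NN a.1).toReal
    rw [(q_LIN.2.1 a.1 (-1) a.2).2.1]; simp
  eq_zero_of_map_eq_zero' a h := by
    have h' : NN a.1 = 0 := by
      rcases (ENNReal.toReal_eq_zero_iff _).1 (show (NN a.1).toReal = 0 from h) with h | h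
      · exact h
      · exact absurd h a.2.fin.ne
    exact ext fun t y => q_LIN.2.2.1 a.1 a.2 h' t y

instance : NormedCommRing Al :=
  { (inferInstance : CommRing Al), gnorm.toNormedAddCommGroup with
    norm_mul_le := fun a b => by
      change (NN (cv a.1 b.1)).toReal ≤ (NN a.1).toReal * (NN b.1).toReal
      rw [← ENNReal.toReal_mul]
      refine ENNReal.toReal_mono (ENNReal.mul_ne_top a.2.fin.ne b.2.fin.ne) ?_
      refine iSup_le fun l => ?_
      refine ((q_CVA a.1 b.1 a.2 b.2).2.1 l).trans ?_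
      exact mul_le_mul' (le_iSup (fun l => N l a.1) l) (le_iSup (fun l => N l b.1) l) }

theorem norm_eq (a : Al) : ‖a‖ = (NN a.1).toReal := rfl

theorem ofReal_norm (a : Al) : ENNReal.ofReal ‖a‖ = NN a.1 := ENNReal.ofReal_toReal a.2.fin.ne

theorem norm_le_iff (a : Al) {c : ℝ} (hc : 0 ≤ c) : ‖a‖ ≤ c ↔ NN a.1 ≤ ENNReal.ofReal c := by
  rw [← ofReal_norm, ENNReal.ofReal_le_ofReal_iff hc]

theorem norm_star' (a : Al) : ‖star a‖ = ‖a‖ := by
  rw [norm_eq, norm_eq]
  congr 1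
  change NN (st a.1) = NN a.1
  unfold NN
  exact iSup_congr fun l => (q_STA a.1 a.2).2.1 l

theorem norm_one' : ‖(1 : Al)‖ ≤ 1 := by
  rw [norm_le_iff _ zero_le_one]
  change NN un ≤ _
  rw [q_UNA.2.2.1]; simp

theorem norm_cst (c : ℂ) : ‖cst c‖ ≤ ‖c‖ := by
  rw [norm_le_iff _ (norm_nonneg c)]
  change NN (fun t y => c * un t y) ≤ _
  rw [(q_LIN.2.1 un c q_UNA.1).2.1, q_UNA.2.2.1]; simp

theorem norm_e_le (a : Al) (x : ℝ) {y : ℂ} (hy : y ∈ S) : ‖e a x y‖ ≤ ‖a‖ := by
  obtain ⟨h1, -⟩ := q_PTW.2.2.2.2.2.2 a.1 a.2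
  obtain ⟨h2, h3, h4⟩ := h1 y hy
  unfold e ev
  have hex : ∀ t, ‖a.1 t y * ex t x‖ = ‖a.1 t y‖ := by
    intro t
    rw [norm_mul]
    unfold ex
    rw [Complex.norm_exp_ofReal_mul_I, mul_one]
  refine (norm_tsum_le_tsum_norm (by simpa only [hex] using h3)).trans ?_
  simp only [hex]
  refine (Summable.tsum_le_tsum (fun t => ?_) h3 h4).trans ?_
  · exact le_mul_of_one_le_right (norm_nonneg _) (Real.one_le_exp (by positivity))
  · rw [← ENNReal.ofReal_tsum_of_nonneg (fun t => by positivity) h4] at h2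
    rw [norm_eq]
    exact (ENNReal.ofReal_le_iff_le_toReal a.2.fin.ne).1 h2

theorem sub_eq (a b : Al) : (a - b).1 = fun t y => a.1 t y - b.1 t y := by
  funext t y
  rw [sub_eq_add_neg, add_val, neg_val]; ring

instance : CompleteSpace Al := by
  refine Metric.complete_of_cauchySeq_tendsto fun u hu => ?_
  rw [Metric.cauchySeq_iff] at hu
  obtain ⟨a, ha, h⟩ := q_CPL (fun n => (u n).1) (fun n => (u n).2) (fun ε hε => by
    obtain ⟨N, hN⟩ := hu ε hε
    refine ⟨N, fun m hm n hn => ?_⟩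
    have h1 := hN m hm n hn
    rw [dist_eq_norm] at h1
    have h2 := (norm_le_iff _ hε.le).1 h1.le
    rwa [sub_eq] at h2)
  refine ⟨⟨a, ha⟩, ?_⟩
  rw [Metric.tendsto_atTop]
  intro ε hε
  obtain ⟨n₀, hn⟩ := h (ε / 2) (half_pos hε)
  refine ⟨n₀, fun n hn' => ?_⟩
  have h1 := hn n hn'
  rw [dist_eq_norm]
  have h2 : ‖u n - ⟨a, ha⟩‖ ≤ ε / 2 := by
    rw [norm_le_iff _ (half_pos hε).le, sub_eq]
    exact h1
  linarith

end Al

/-! ## Vectors -/

/-- Vectors of admissible families. -/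
def Ve (ι : Type) : Type := ι → Al

namespace Ve

variable {ι : Type}

instance : AddCommGroup (Ve ι) := Pi.addCommGroup
instance : Module Al (Ve ι) := Pi.Function.module ι Al Al

theorem ext {u v : Ve ι} (h : ∀ r, u r = v r) : u = v := funext h
theorem add_val (u v : Ve ι) (r : ι) : (u + v) r = u r + v r := rfl
theorem sub_val (u v : Ve ι) (r : ι) : (u - v) r = u r - v r := rfl
theorem neg_val (u : Ve ι) (r : ι) : (-u) r = -u r := rfl
theorem zero_val (r : ι) : (0 : Ve ι) r = 0 := rfl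
theorem smul_val (a : Al) (u : Ve ι) (r : ι) : (a • u) r = a * u r := rfl

/-- The families. -/
def fam (u : Ve ι) : ι → Fam := fun r => (u r).1

variable [Fintype ι]

theorem fin (u : Ve ι) : NV (fam u) < ⊤ := by
  refine ((q_NVB ι).2.2.1 (fam u)).trans_lt ?_
  exact ENNReal.sum_lt_top.2 fun r _ => (u r).2.fin

/-- The group norm. -/
def gnorm : AddGroupNorm (Ve ι) where
  toFun u := (NV (fam u)).toReal
  map_zero' := by
    have h := (q_NVB ι).2.2.1 (fam (0 : Ve ι))
    have h0 : ∀ r, NN (fam (0 : Ve ι) r) = 0 := fun r => q_LIN.2.2.2.2.1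
    simp only [h0, Finset.sum_const_zero, nonpos_iff_eq_zero] at h
    rw [h]; rfl
  add_le' u v := by
    rw [← ENNReal.toReal_add (fin u).ne (fin v).ne]
    exact ENNReal.toReal_mono (ENNReal.add_ne_top.2 ⟨(fin u).ne, (fin v).ne⟩) ((q_NVB ι).1 (fam u) (fam v))
  neg' u := by
    refine congrArg ENNReal.toReal ?_
    have h : ∀ l r, N l (fam (-u) r) = N l (fam u r) := by
      intro l r
      change N l (fun t y => (-1 : ℂ) * (u r).1 t y) = _
      rw [(q_NRM l (u r).1 (u r).1 (-1) 0).2.2.2]; simp [fam]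
    unfold NV
    simp only [h]
  eq_zero_of_map_eq_zero' u h := by
    have h' : NV (fam u) = 0 := by
      rcases (ENNReal.toReal_eq_zero_iff _).1 h with h | h
      · exact h
      · exact absurd h (fin u).ne
    refine ext fun r => Al.ext fun t y => ?_
    have h1 : NN (u r).1 = 0 := le_antisymm (h' ▸ (q_NVB ι).2.1 (fam u) r) bot_le
    exact q_LIN.2.2.1 (u r).1 (u r).2 h1 t y

instance : NormedAddCommGroup (Ve ι) :=
  { (inferInstance : AddCommGroup (Ve ι)), gnorm.toNormedAddCommGroup with }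

theorem norm_eq (u : Ve ι) : ‖u‖ = (NV (fam u)).toReal := rfl

theorem ofReal_norm (u : Ve ι) : ENNReal.ofReal ‖u‖ = NV (fam u) := ENNReal.ofReal_toReal (fin u).ne

theorem norm_le_iff (u : Ve ι) {c : ℝ} (hc : 0 ≤ c) : ‖u‖ ≤ c ↔ NV (fam u) ≤ ENNReal.ofReal c := by
  rw [← ofReal_norm, ENNReal.ofReal_le_ofReal_iff hc]

theorem norm_comp_le (u : Ve ι) (r : ι) : ‖u r‖ ≤ ‖u‖ := by
  rw [Al.norm_le_iff _ (norm_nonneg _), ofReal_norm]
  exact (q_NVB ι).2.1 (fam u) r

theorem norm_le_sum (u : Ve ι) : ‖u‖ ≤ ∑ r, ‖u r‖ := by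
  rw [norm_le_iff _ (Finset.sum_nonneg fun r _ => norm_nonneg _), ENNReal.ofReal_sum_of_nonneg fun r _ => norm_nonneg _]
  simp only [Al.ofReal_norm]
  exact (q_NVB ι).2.2.1 (fam u)

instance : CompleteSpace (Ve ι) := by
  refine Metric.complete_of_cauchySeq_tendsto fun u hu => ?_
  have hc : ∀ r, CauchySeq fun n => u n r := by
    intro r
    rw [Metric.cauchySeq_iff] at hu ⊢
    intro ε hε
    obtain ⟨N, hN⟩ := hu ε hε
    refine ⟨N, fun m hm n hn => ?_⟩
    have h1 := hN m hm n hn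
    rw [dist_eq_norm] at h1 ⊢
    exact (norm_comp_le (u m - u n) r).trans_lt h1
  obtain ⟨a, ha⟩ : ∃ a : Ve ι, ∀ r, Filter.Tendsto (fun n => u n r) Filter.atTop (nhds (a r)) := by
    choose a ha using fun r => cauchySeq_tendsto_of_complete (hc r)
    exact ⟨a, ha⟩
  refine ⟨a, ?_⟩
  rw [tendsto_iff_norm_sub_tendsto_zero]
  have h2 : Filter.Tendsto (fun n => ∑ r, ‖u n r - a r‖) Filter.atTop (nhds (∑ _r : ι, (0 : ℝ))) :=
    tendsto_finsetSum _ fun r _ => tendsto_iff_norm_sub_tendsto_zero.1 (ha r)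
  rw [Finset.sum_const_zero] at h2
  exact squeeze_zero (fun n => norm_nonneg _) (fun n => norm_le_sum (u n - a)) h2

end Ve

end Pool.Agent.HSP
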