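import Pool.Agent.HSP.Targets4

set_option autoImplicit false

noncomputable section

namespace Pool.Agent.HSP

theorem my_LOW (hPSI : T_PSI) : T_LOW := by
  intro ι _ P V y hy hP hV
  have hin := (hPSI ι).1
  have hself : ∀ u : ι → ℂ, (hp u u).re = ∑ r, ‖u r‖ ^ 2 := by
    intro u
    unfold hp
    rw [Complex.re_sum]
    refine Finset.sum_congr rfl fun r _ => ?_
    rw [Complex.star_def, Complex.mul_conj, Complex.ofReal_re, Complex.normSq_eq_norm_sq]
  have hn : ∀ u : ι → ℂ, ‖cr u‖ ^ 2 = ∑ r, ‖u r‖ ^ 2 := by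
    intro u
    rw [← real_inner_self_eq_norm_sq, hin, hself]
  have hadd : ∀ u v : ι → ℂ, cr (fun r => u r + v r) = cr u + cr v := by
    intro u v
    ext i
    cases i <;> simp [cr]
  have hsm : ∀ (a : ℝ) (u : ι → ℂ), cr (fun r => (a : ℂ) * u r) = a • cr u := by
    intro a u
    ext i
    cases i <;> simp [cr]
  have hmul : ∀ (u : ι → ℂ) (h : ℂ), ‖cr fun r => u r * h‖ = ‖cr u‖ * ‖h‖ := by
    intro u h
    have : ‖cr fun r => u r * h‖ ^ 2 = (‖cr u‖ * ‖h‖) ^ 2 := by
      rw [hn, mul_pow, hn, Finset.sum_mul]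
      exact Finset.sum_congr rfl fun r _ => by rw [norm_mul, mul_pow]
    exact (sq_eq_sq₀ (norm_nonneg _) (by positivity)).1 this
  have h1 : 1 / 2 ≤ y * ‖cr P‖ := by
    refine le_of_sq_le_sq ?_ (by positivity)
    rw [mul_pow, hn]
    linarith
  have h2 : y * ‖cr V‖ ≤ 1 / 8 := by
    refine le_of_sq_le_sq ?_ (by norm_num)
    rw [mul_pow, hn]
    linarith
  have low : ∀ h : ℂ, 1 / 4 * (‖h‖ / y) ≤ ‖cr fun r => P r * h + V r * (starRingEnd ℂ) h‖ := by
    intro h
    rw [hadd (fun r => P r * h) (fun r => V r * (starRingEnd ℂ) h)]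
    have e1 := hmul P h
    have e2 := hmul V ((starRingEnd ℂ) h)
    rw [Complex.norm_conj] at e2
    have e3 := norm_sub_norm_le (cr fun r => P r * h) (-(cr fun r => V r * (starRingEnd ℂ) h))
    rw [norm_neg, sub_neg_eq_add, e1, e2] at e3
    refine le_trans ?_ e3
    rw [mul_div_assoc', div_le_iff₀ hy]
    nlinarith [norm_nonneg h]
  have e1 : (fun r => P r * 1 + V r * (starRingEnd ℂ) 1) = fun r => P r + V r := by
    funext r; simp
  have pos : 0 < ‖cr fun r => P r + V r‖ := by
    have := low 1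
    rw [e1] at this
    refine lt_of_lt_of_le ?_ this
    simp [hy]
  refine ⟨low, ?_, ?_⟩
  · rw [real_inner_self_eq_norm_sq]; positivity
  · set u := cr fun r => P r + V r with hu
    set v := cr fun r => Complex.I * (P r - V r) with hv
    have hE : 0 < inner ℝ u u := by rw [real_inner_self_eq_norm_sq]; positivity
    have key : ∀ a b : ℝ, (cr fun r => P r * ((a : ℂ) + b * Complex.I) + V r * (starRingEnd ℂ) ((a : ℂ) + b * Complex.I)) = a • u + b • v := by
      intro a b
      rw [hu, hv, ← hsm, ← hsm, ← hadd]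
      congr 1
      funext r
      simp only [map_add, map_mul, Complex.conj_ofReal, Complex.conj_I]
      ring
    have h3 := low ((-(inner ℝ u v : ℝ) : ℝ) + (inner ℝ u u : ℝ) * Complex.I)
    rw [key] at h3
    have h4 : 0 < ‖((-(inner ℝ u v : ℝ) : ℝ) : ℂ) + (inner ℝ u u : ℝ) * Complex.I‖ := by
      rw [norm_pos_iff]
      intro h
      have := congrArg Complex.im h
      rw [Complex.add_im, Complex.ofReal_im, Complex.im_ofReal_mul, Complex.I_im, Complex.zero_im] at this
      linarith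
    have h5 : 0 < ‖(-(inner ℝ u v : ℝ)) • u + (inner ℝ u u : ℝ) • v‖ := lt_of_lt_of_le (by positivity) h3
    have h6 : ‖(-(inner ℝ u v : ℝ)) • u + (inner ℝ u u : ℝ) • v‖ ^ 2 = inner ℝ u u * (inner ℝ u u * inner ℝ v v - inner ℝ u v ^ 2) := by
      rw [← real_inner_self_eq_norm_sq]
      simp only [inner_add_left, inner_add_right, real_inner_smul_left, real_inner_smul_right]
      rw [real_inner_comm u v]
      ring
    have h7 : 0 < inner ℝ u u * (inner ℝ u u * inner ℝ v v - inner ℝ u v ^ 2) := by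
      rw [← h6]; positivity
    exact (mul_pos_iff_of_pos_left hE).1 h7

end Pool.Agent.HSP
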