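import Pool.Agent.HSP.Targets3

set_option autoImplicit false

noncomputable section

namespace Pool.Agent.HSP

theorem my_NXT : T_NXT := by
  intro C hC
  have hC0 : 0 ≤ C := by linarith
  refine ⟨20 * C ^ 4, by nlinarith [one_le_pow₀ hC (n := 4)], ?_⟩
  intro R E _ _ _ _ s ρ hρ hρ1 k k' ψ ψ' hk hk' hψ hψ'
  -- the additive maps
  have hA : ∀ (a : R) (u : E), ‖s.kp a • s.F2 + s.bq a • s.F3 + s.u2 u‖ ≤ 2 * C ^ 2 * (‖a‖ + ‖u‖) := by
    intro a u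
    have h1 : ‖s.kp a • s.F2‖ ≤ C * ‖a‖ * C := (s.norm_smul _ _).trans (mul_le_mul (s.norm_kp a) s.norm_F2 (norm_nonneg _) (by positivity))
    have h2 : ‖s.bq a • s.F3‖ ≤ C * ‖a‖ * C := (s.norm_smul _ _).trans (mul_le_mul (s.norm_bq a) s.norm_F3 (norm_nonneg _) (by positivity))
    have h3 := s.norm_u2 u
    have h4 : C * ‖u‖ ≤ 2 * C ^ 2 * ‖u‖ := mul_le_mul_of_nonneg_right (by nlinarith) (norm_nonneg _)
    calc _ ≤ ‖s.kp a • s.F2‖ + ‖s.bq a • s.F3‖ + ‖s.u2 u‖ := norm_add₃_le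
      _ ≤ _ := by nlinarith [norm_nonneg a]
  have hB : ∀ (a : R) (u : E), ‖s.t2 (u + s.mq a • s.F2)‖ ≤ C ^ 3 * (‖a‖ + ‖u‖) := by
    intro a u
    have h1 : ‖s.mq a • s.F2‖ ≤ C * ‖a‖ * C := (s.norm_smul _ _).trans (mul_le_mul (s.norm_mq a) s.norm_F2 (norm_nonneg _) (by positivity))
    have h2 := s.norm_t2 (u + s.mq a • s.F2)
    have h3 := norm_add_le u (s.mq a • s.F2)
    have h4 : C * (‖u‖ + C * ‖a‖ * C) ≤ C ^ 3 * (‖a‖ + ‖u‖) := by
      have : C * ‖u‖ ≤ C ^ 3 * ‖u‖ := mul_le_mul_of_nonneg_right (by nlinarith [mul_nonneg hC0 (sub_nonneg.2 hC), pow_nonneg hC0 2]) (norm_nonneg _)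
      nlinarith
    exact h2.trans ((mul_le_mul_of_nonneg_left (h3.trans (add_le_add le_rfl h1)) hC0).trans h4)
  have hM : ∀ a : R, ‖s.mq a‖ ≤ C * ‖a‖ := s.norm_mq
  have key : ∀ (a a' : R) (u u' : E), s.nx a u - s.nx a' u' =
      (s.mq a • (s.kp (a - a') • s.F2 + s.bq (a - a') • s.F3 + s.u2 (u - u')) + s.mq (a - a') • (s.kp a' • s.F2 + s.bq a' • s.F3 + s.u2 u')) +
      (star (s.mq a) • s.t2 ((u - u') + s.mq (a - a') • s.F2) + star (s.mq (a - a')) • s.t2 (u' + s.mq a' • s.F2)) := by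
    intro a a' u u'
    have e1 : ∀ (a : R) (u : E), s.p2 a u - s.F2 = s.kp a • s.F2 + s.bq a • s.F3 + s.u2 u := by
      intro a u
      unfold Sys.p2
      abel
    unfold Sys.nx
    rw [e1, e1]
    unfold Sys.w2 Sys.z2
    simp only [map_sub, map_add, star_sub, sub_smul, smul_sub, smul_add]
    abel
  have hk0 : s.nx 0 0 = 0 := by
    unfold Sys.nx Sys.w2 Sys.z2
    simp
  have main : ∀ (a a' : R) (u u' : E), ‖a‖ ≤ ρ → ‖a'‖ ≤ ρ → ‖u‖ ≤ ρ → ‖u'‖ ≤ ρ → ‖s.nx a u - s.nx a' u'‖ ≤ 10 * C ^ 4 * ρ * (‖a - a'‖ + ‖u - u'‖) := by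
    intro a a' u u' ha ha' hu hu'
    rw [key]
    set d := ‖a - a'‖ + ‖u - u'‖ with hd
    have hd0 : 0 ≤ d := by positivity
    have had : ‖a - a'‖ ≤ d := by rw [hd]; linarith [norm_nonneg (u - u')]
    have m1 : ‖s.mq a‖ ≤ C * ρ := (hM a).trans (mul_le_mul_of_nonneg_left ha hC0)
    have m2 : ‖s.mq (a - a')‖ ≤ C * d := (hM _).trans (mul_le_mul_of_nonneg_left had hC0)
    have a1 : ‖s.kp (a - a') • s.F2 + s.bq (a - a') • s.F3 + s.u2 (u - u')‖ ≤ 2 * C ^ 2 * d := hA _ _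
    have a2 : ‖s.kp a' • s.F2 + s.bq a' • s.F3 + s.u2 u'‖ ≤ 2 * C ^ 2 * (2 * ρ) := (hA _ _).trans (mul_le_mul_of_nonneg_left (by linarith) (by positivity))
    have b1 : ‖s.t2 ((u - u') + s.mq (a - a') • s.F2)‖ ≤ C ^ 3 * d := hB _ _
    have b2 : ‖s.t2 (u' + s.mq a' • s.F2)‖ ≤ C ^ 3 * (2 * ρ) := (hB _ _).trans (mul_le_mul_of_nonneg_left (by linarith) (by positivity))
    have t1 := (s.norm_smul (s.mq a) _).trans (mul_le_mul m1 a1 (norm_nonneg _) (by positivity))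
    have t2 := (s.norm_smul (s.mq (a - a')) _).trans (mul_le_mul m2 a2 (norm_nonneg _) (by positivity))
    have t3 := (s.norm_smul (star (s.mq a)) _).trans (mul_le_mul ((s.norm_star _).le.trans m1) b1 (norm_nonneg _) (by positivity))
    have t4 := (s.norm_smul (star (s.mq (a - a'))) _).trans (mul_le_mul ((s.norm_star _).le.trans m2) b2 (norm_nonneg _) (by positivity))
    refine (norm_add_le _ _).trans ((add_le_add ((norm_add_le _ _).trans (add_le_add t1 t2)) ((norm_add_le _ _).trans (add_le_add t3 t4))).trans ?_)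
    have hC3 : C ^ 3 ≤ C ^ 4 := pow_le_pow_right₀ hC (by norm_num)
    have hρd : 0 ≤ ρ * d := by positivity
    have h34 := mul_le_mul_of_nonneg_right hC3 hρd
    have h4 : 0 ≤ C ^ 4 * (ρ * d) := by positivity
    have e : C * ρ * (2 * C ^ 2 * d) + C * d * (2 * C ^ 2 * (2 * ρ)) + (C * ρ * (C ^ 3 * d) + C * d * (C ^ 3 * (2 * ρ))) = 6 * (C ^ 3 * (ρ * d)) + 3 * (C ^ 4 * (ρ * d)) := by ring
    have e2 : 10 * C ^ 4 * ρ * d = 10 * (C ^ 4 * (ρ * d)) := by ring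
    rw [e, e2]
    linarith
  constructor
  · have h := main k 0 ψ 0 hk (by simpa using hρ) hψ (by simpa using hρ)
    rw [hk0, sub_zero, sub_zero, sub_zero] at h
    refine h.trans ?_
    have : 0 ≤ C ^ 4 * ρ := by positivity
    nlinarith
  · refine (main k k' ψ ψ' hk hk' hψ hψ').trans ?_
    have : 0 ≤ C ^ 4 * ρ * (‖k - k'‖ + ‖ψ - ψ'‖) := by positivity
    nlinarith

end Pool.Agent.HSP
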