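import Pool.Agent.HSP.Targets4

set_option autoImplicit false

/-!
# HSP: the target T_BRI
-/

open scoped Classical ENNReal

noncomputable section

namespace Pool.Agent.HSP

namespace BRI_

variable {X : Type} [NormedAddCommGroup X] [NormedSpace ℝ X]

lemma isOpen_Hp : IsOpen Hp := isOpen_lt continuous_const Complex.continuous_im

/-- smooth functions on the half plane with values in `X` -/
def Sm (u : ℂ → X) : Prop := ContDiffOn ℝ ((⊤ : ℕ∞) : WithTop ℕ∞) u Hp

/-- directional derivative -/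
def D (w : ℂ) (u : ℂ → X) (z : ℂ) : X := fderiv ℝ u z w

lemma sm_D {u : ℂ → X} (hu : Sm u) (w : ℂ) : Sm (D w u) := by
  have h : ContDiffOn ℝ ((⊤ : ℕ∞) : WithTop ℕ∞) (fderiv ℝ u) Hp :=
    ContDiffOn.fderiv_of_isOpen hu isOpen_Hp (by simp)
  exact h.clm_apply contDiffOn_const

lemma sm_at {u : ℂ → X} (hu : Sm u) {z : ℂ} (hz : z ∈ Hp) :
    ContDiffAt ℝ ((⊤ : ℕ∞) : WithTop ℕ∞) u z :=
  ContDiffOn.contDiffAt hu (isOpen_Hp.mem_nhds hz)

lemma sm_diff {u : ℂ → X} (hu : Sm u) {z : ℂ} (hz : z ∈ Hp) : DifferentiableAt ℝ u z :=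
  (sm_at hu hz).differentiableAt (by simp)

lemma D_comm {u : ℂ → X} (hu : Sm u) (v w : ℂ) {z : ℂ} (hz : z ∈ Hp) :
    D v (D w u) z = D w (D v u) z := by
  have hf : ContDiffOn ℝ ((⊤ : ℕ∞) : WithTop ℕ∞) (fderiv ℝ u) Hp :=
    ContDiffOn.fderiv_of_isOpen hu isOpen_Hp (by simp)
  have hd : DifferentiableAt ℝ (fderiv ℝ u) z := sm_diff hf hz
  have key : ∀ a b : ℂ, D a (D b u) z = fderiv ℝ (fderiv ℝ u) z a b := by
    intro a b
    have h1 : HasFDerivAt (fun y => fderiv ℝ u y b)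
        ((ContinuousLinearMap.apply ℝ X b).comp (fderiv ℝ (fderiv ℝ u) z)) z :=
      (ContinuousLinearMap.apply ℝ X b).hasFDerivAt.comp z hd.hasFDerivAt
    have h2 : fderiv ℝ (D b u) z =
        (ContinuousLinearMap.apply ℝ X b).comp (fderiv ℝ (fderiv ℝ u) z) := h1.fderiv
    show fderiv ℝ (D b u) z a = _
    rw [h2]
    rfl
  rw [key, key]
  have hsym : IsSymmSndFDerivAt ℝ u z := by
    apply ContDiffAt.isSymmSndFDerivAt (sm_at hu hz)
    simp only [minSmoothness_of_isRCLikeNormedField]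
    exact WithTop.coe_le_coe.2 (le_top : (2 : ℕ∞) ≤ ⊤)
  exact hsym.eq v w

lemma D_congr {u v : ℂ → X} (h : ∀ z ∈ Hp, u z = v z) (w : ℂ) {z : ℂ} (hz : z ∈ Hp) :
    D w u z = D w v z := by
  have : u =ᶠ[nhds z] v := by
    filter_upwards [isOpen_Hp.mem_nhds hz] with y hy using h y hy
  show fderiv ℝ u z w = fderiv ℝ v z w
  rw [this.fderiv_eq]

variable {n : ℕ}

lemma D_inner {u v : ℂ → EuclideanSpace ℝ (Fin n)} (hu : Sm u) (hv : Sm v) (w : ℂ) {z : ℂ}
    (hz : z ∈ Hp) :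
    D w (fun y => (inner ℝ (u y) (v y) : ℝ)) z = inner ℝ (u z) (D w v z) + inner ℝ (D w u z) (v z) := by
  show fderiv ℝ (fun y => (inner ℝ (u y) (v y) : ℝ)) z w = _
  rw [fderiv_inner_apply ℝ (sm_diff hu hz) (sm_diff hv hz)]
  rfl

lemma D_add {u v : ℂ → ℝ} {z : ℂ} (hu : DifferentiableAt ℝ u z) (hv : DifferentiableAt ℝ v z)
    (w : ℂ) : D w (fun y => u y + v y) z = D w u z + D w v z := by
  show fderiv ℝ (fun y => u y + v y) z w = _
  rw [fderiv_fun_add hu hv]
  rfl

lemma sm_inner {u v : ℂ → EuclideanSpace ℝ (Fin n)} (hu : Sm u) (hv : Sm v) :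
    Sm (fun y => (inner ℝ (u y) (v y) : ℝ)) := ContDiffOn.inner ℝ hu hv

/-- second derivative of an inner product -/
lemma DD_inner {u v : ℂ → EuclideanSpace ℝ (Fin n)} (hu : Sm u) (hv : Sm v) (a b : ℂ) {z : ℂ}
    (hz : z ∈ Hp) :
    D a (D b (fun y => (inner ℝ (u y) (v y) : ℝ))) z =
      (inner ℝ (u z) (D a (D b v) z) + inner ℝ (D a u z) (D b v z)) +
      (inner ℝ (D b u z) (D a v z) + inner ℝ (D a (D b u) z) (v z)) := by
  rw [D_congr (v := fun y => (inner ℝ (u y) (D b v y) : ℝ) + inner ℝ (D b u y) (v y))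
    (fun y hy => D_inner hu hv b hy) a hz,
    D_add (sm_diff (sm_inner hu (sm_D hv b)) hz) (sm_diff (sm_inner (sm_D hu b) hv) hz),
    D_inner hu (sm_D hv b) a hz, D_inner (sm_D hu b) hv a hz]

end BRI_

open BRI_

theorem p_BRI : T_BRI := by
  intro n f hf z hz
  have hf' : Sm f := hf
  have hfx : Sm (D 1 f) := sm_D hf' 1
  have hfy : Sm (D Complex.I f) := sm_D hf' Complex.I
  have hcomm : ∀ y ∈ Hp, D 1 (D Complex.I f) y = D Complex.I (D 1 f) y :=
    fun y hy => D_comm hf' 1 Complex.I hy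
  refine ⟨hcomm z hz, ?_⟩
  -- first derivatives
  have hEx : dx (mE f) z = 2 * inner ℝ (D 1 (D 1 f) z) (D 1 f z) := by
    have := D_inner hfx hfx 1 hz
    rw [real_inner_comm (D 1 (D 1 f) z)] at this
    have h2 : dx (mE f) z = D 1 (fun y => (inner ℝ (D 1 f y) (D 1 f y) : ℝ)) z := rfl
    rw [h2, this]; ring
  have hEy : dy (mE f) z = 2 * inner ℝ (D Complex.I (D 1 f) z) (D 1 f z) := by
    have := D_inner hfx hfx Complex.I hz
    rw [real_inner_comm (D Complex.I (D 1 f) z)] at this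
    have h2 : dy (mE f) z = D Complex.I (fun y => (inner ℝ (D 1 f y) (D 1 f y) : ℝ)) z := rfl
    rw [h2, this]; ring
  have hGx : dx (mG f) z = 2 * inner ℝ (D Complex.I (D 1 f) z) (D Complex.I f z) := by
    have := D_inner hfy hfy 1 hz
    rw [real_inner_comm (D 1 (D Complex.I f) z), hcomm z hz] at this
    have h2 : dx (mG f) z = D 1 (fun y => (inner ℝ (D Complex.I f y) (D Complex.I f y) : ℝ)) z := rfl
    rw [h2, this]; ring
  have hGy : dy (mG f) z = 2 * inner ℝ (D Complex.I f z) (D Complex.I (D Complex.I f) z) := by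
    have := D_inner hfy hfy Complex.I hz
    rw [real_inner_comm (D Complex.I f z) (D Complex.I (D Complex.I f) z)] at this
    have h2 : dy (mG f) z =
      D Complex.I (fun y => (inner ℝ (D Complex.I f y) (D Complex.I f y) : ℝ)) z := rfl
    rw [h2, this]; ring
  have hFx : dx (mF f) z = inner ℝ (D 1 f z) (D Complex.I (D 1 f) z) +
      inner ℝ (D 1 (D 1 f) z) (D Complex.I f z) := by
    have := D_inner hfx hfy 1 hz
    rw [hcomm z hz] at this
    exact this
  have hFy : dy (mF f) z = inner ℝ (D 1 f z) (D Complex.I (D Complex.I f) z) +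
      inner ℝ (D Complex.I (D 1 f) z) (D Complex.I f z) := D_inner hfx hfy Complex.I hz
  -- third derivatives
  have hthird : D 1 (D Complex.I (D Complex.I f)) z = D Complex.I (D Complex.I (D 1 f)) z := by
    rw [D_comm hfy 1 Complex.I hz, D_congr hcomm Complex.I hz]
  have hthird2 : D 1 (D 1 (D Complex.I f)) z = D 1 (D Complex.I (D 1 f)) z :=
    D_congr hcomm 1 hz
  have hEyy : dy (dy (mE f)) z = 2 * inner ℝ (D Complex.I (D Complex.I (D 1 f)) z) (D 1 f z) +
      2 * inner ℝ (D Complex.I (D 1 f) z) (D Complex.I (D 1 f) z) := by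
    have := DD_inner hfx hfx Complex.I Complex.I hz
    rw [real_inner_comm (D Complex.I (D Complex.I (D 1 f)) z) (D 1 f z)] at this
    have h2 : dy (dy (mE f)) z =
      D Complex.I (D Complex.I (fun y => (inner ℝ (D 1 f y) (D 1 f y) : ℝ))) z := rfl
    rw [h2, this]; ring
  have hFxy : dx (dy (mF f)) z = (inner ℝ (D 1 f z) (D Complex.I (D Complex.I (D 1 f)) z) +
      inner ℝ (D 1 (D 1 f) z) (D Complex.I (D Complex.I f) z)) +
      (inner ℝ (D Complex.I (D 1 f) z) (D Complex.I (D 1 f) z) +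
      inner ℝ (D 1 (D Complex.I (D 1 f)) z) (D Complex.I f z)) := by
    have := DD_inner hfx hfy 1 Complex.I hz
    rw [hthird, hcomm z hz] at this
    exact this
  have hGxx : dx (dx (mG f)) z = 2 * inner ℝ (D 1 (D Complex.I (D 1 f)) z) (D Complex.I f z) +
      2 * inner ℝ (D Complex.I (D 1 f) z) (D Complex.I (D 1 f) z) := by
    have := DD_inner hfy hfy 1 1 hz
    rw [hthird2, hcomm z hz, real_inner_comm (D 1 (D Complex.I (D 1 f)) z) (D Complex.I f z)] at this
    have h2 : dx (dx (mG f)) z =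
      D 1 (D 1 (fun y => (inner ℝ (D Complex.I f y) (D Complex.I f y) : ℝ))) z := rfl
    rw [h2, this]; ring
  have c1 := real_inner_comm (D 1 f z) (D Complex.I (D Complex.I (D 1 f)) z)
  have c2 := real_inner_comm (D 1 f z) (D Complex.I (D 1 f) z)
  have c3 := real_inner_comm (D Complex.I f z) (D Complex.I (D 1 f) z)
  have eE : mE f z = inner ℝ (D 1 f z) (D 1 f z) := rfl
  have eF : mF f z = inner ℝ (D 1 f z) (D Complex.I f z) := rfl
  have eG : mG f z = inner ℝ (D Complex.I f z) (D Complex.I f z) := rfl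
  have d1 : dx f z = D 1 f z := rfl
  have d2 : dy f z = D Complex.I f z := rfl
  have d3 : dx (dx f) z = D 1 (D 1 f) z := rfl
  have d4 : dy (dx f) z = D Complex.I (D 1 f) z := rfl
  have d5 : dy (dy f) z = D Complex.I (D Complex.I f) z := rfl
  unfold bnum
  rw [hEx, hEy, hGx, hGy, hFx, hFy, hEyy, hFxy, hGxx, eE, eF, eG, d1, d2, d3, d4, d5]
  simp only [Matrix.det_fin_three, Matrix.of_apply, Matrix.cons_val', Matrix.cons_val_zero,
    Matrix.cons_val_one, Matrix.cons_val_two, Matrix.cons_val_fin_one, Matrix.head_cons,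
    Matrix.tail_cons, Matrix.head_fin_const]
  rw [c1, c2, c3]
  ring

end Pool.Agent.HSP
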