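import Pool.Agent.HSP.Targets2

set_option autoImplicit false

/-!
# HSP: CLA and CLD, locally summable families
-/

open scoped Classical ENNReal

noncomputable section

namespace Pool.Agent.HSP

namespace CLD_

/-- A compact subset of the sector is covered by finitely many windows. -/
theorem cover (h_PTW : T_PTW) (K : Set ℂ) (hKS : K ⊆ S) (hK : IsCompact K) :
    ∃ (m : ℝ) (L : Finset ℤ), 0 < m ∧ ∀ y ∈ K, m ≤ ‖y‖ ∧ ∃ l ∈ L, y ∈ W l := by
  obtain ⟨hcov, hre, -⟩ := h_PTW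
  rcases K.eq_empty_or_nonempty with h0 | hne
  · exact ⟨1, ∅, one_pos, fun y hy => by rw [h0] at hy; exact absurd hy (Set.notMem_empty y)⟩
  obtain ⟨u, huK, hu⟩ := hK.exists_isMinOn hne continuous_norm.continuousOn
  obtain ⟨v, hvK, hv⟩ := hK.exists_isMaxOn hne continuous_norm.continuousOn
  have hu0 : 0 < ‖u‖ := by
    rw [norm_pos_iff]
    rintro rfl
    have := (hre 0 (hKS huK)).1
    simp at this
  obtain ⟨l0, hl0, hl0'⟩ := exists_mem_Ico_zpow (y := (2 : ℝ)) hu0 one_lt_two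
  have hv0 : 0 < ‖v‖ := lt_of_lt_of_le hu0 (hu hvK)
  obtain ⟨l1, hl1, hl1'⟩ := exists_mem_Ico_zpow (y := (2 : ℝ)) hv0 one_lt_two
  refine ⟨‖u‖, Finset.Icc (l0 - 1) (l1 + 1), hu0, fun y hy => ⟨hu hy, ?_⟩⟩
  obtain ⟨l, hl⟩ := hcov y (hKS hy)
  refine ⟨l, Finset.mem_Icc.mpr ⟨?_, ?_⟩, hl⟩
  · have h1 : (2 : ℝ) ^ l0 ≤ (2 : ℝ) ^ (l + 1) := hl0.trans ((hu hy).trans hl.2.2)
    have h2 := (zpow_le_zpow_iff_right₀ (one_lt_two : (1 : ℝ) < 2)).mp h1
    omega
  · have h1 : (2 : ℝ) ^ l < (2 : ℝ) ^ (l1 + 1) :=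
      lt_of_le_of_lt (hl.2.1.trans (hv hy)) hl1'
    have h2 := (zpow_lt_zpow_iff_right₀ (one_lt_two : (1 : ℝ) < 2)).mp h1
    omega

end CLD_

/-- CLA -/
theorem p_CLA (h_PTW : T_PTW) : T_CLA := by
  intro a ha
  refine ⟨ha.hol, fun K hKS hK => ?_⟩
  obtain ⟨m, L, hm, hL⟩ := CLD_.cover h_PTW K hKS hK
  refine ⟨m / 2, by positivity, ?_⟩
  have hle : ∀ t : ℝ, (⨆ y ∈ K, ENNReal.ofReal (‖a t y‖ * Real.exp (m / 2 * |t|)))
      ≤ ∑ l ∈ L, A l a t := by
    intro t
    refine iSup₂_le fun y hy => ?_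
    obtain ⟨hmy, l, hl, hyl⟩ := hL y hy
    refine le_trans ?_ (Finset.single_le_sum (f := fun l => A l a t) (fun _ _ => bot_le) hl)
    refine le_trans ?_ (le_iSup₂ (f := fun y (_ : y ∈ W l) =>
      ENNReal.ofReal (‖a t y‖ * Real.exp (|t| * ‖y‖ / 2))) y hyl)
    refine ENNReal.ofReal_le_ofReal (mul_le_mul_of_nonneg_left ?_ (norm_nonneg _))
    refine Real.exp_le_exp.mpr ?_
    have h1 : |t| * m ≤ |t| * ‖y‖ := mul_le_mul_of_nonneg_left hmy (abs_nonneg t)
    linarith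
  refine lt_of_le_of_lt (ENNReal.tsum_le_tsum hle) ?_
  rw [Summable.tsum_finsetSum (fun i _ => ENNReal.summable)]
  refine ENNReal.sum_lt_top.mpr fun l _ => ?_
  exact lt_of_le_of_lt (le_iSup (fun l => N l a) l) ha.fin

/-- CLD -/
theorem p_CLD (h_PTW : T_PTW) : T_CLD := by
  intro a ha
  have hS : IsOpen S := h_PTW.2.2.2.1
  refine ⟨⟨fun t => (ha.hol t).const_mul _, fun K hKS hK => ?_⟩,
    ⟨fun t => (ha.hol t).deriv hS, fun K hKS hK => ?_⟩⟩
  · obtain ⟨r, hr, hsum⟩ := ha.sum K hKS hK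
    refine ⟨r / 2, by positivity, ?_⟩
    have hle : ∀ t : ℝ, (⨆ y ∈ K, ENNReal.ofReal
        (‖Complex.I * t * a t y‖ * Real.exp (r / 2 * |t|)))
        ≤ ENNReal.ofReal (2 / r) * (⨆ y ∈ K, ENNReal.ofReal (‖a t y‖ * Real.exp (r * |t|))) := by
      intro t
      refine iSup₂_le fun y hy => ?_
      refine le_trans ?_ (mul_le_mul_right (le_iSup₂ (f := fun y (_ : y ∈ K) =>
        ENNReal.ofReal (‖a t y‖ * Real.exp (r * |t|))) y hy) _)
      rw [← ENNReal.ofReal_mul (by positivity)]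
      refine ENNReal.ofReal_le_ofReal ?_
      have h1 : ‖Complex.I * (t : ℂ) * a t y‖ = |t| * ‖a t y‖ := by
        rw [norm_mul, norm_mul, Complex.norm_I, one_mul, Complex.norm_real, Real.norm_eq_abs]
      rw [h1]
      have h2 : r / 2 * |t| ≤ Real.exp (r / 2 * |t|) :=
        (Real.add_one_le_exp (r / 2 * |t|)).trans' (by linarith)
      have h3 : Real.exp (r * |t|) = Real.exp (r / 2 * |t|) * Real.exp (r / 2 * |t|) := by
        rw [← Real.exp_add]; congr 1; ring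
      have h4 : |t| ≤ 2 / r * Real.exp (r / 2 * |t|) := by
        have h5 : 2 / r * (r / 2 * |t|) ≤ 2 / r * Real.exp (r / 2 * |t|) :=
          mul_le_mul_of_nonneg_left h2 (by positivity)
        have h6 : 2 / r * (r / 2 * |t|) = |t| := by field_simp
        linarith
      rw [h3]
      have h7 : 0 ≤ ‖a t y‖ * Real.exp (r / 2 * |t|) := by positivity
      calc |t| * ‖a t y‖ * Real.exp (r / 2 * |t|)
          = |t| * (‖a t y‖ * Real.exp (r / 2 * |t|)) := by ring
        _ ≤ 2 / r * Real.exp (r / 2 * |t|) * (‖a t y‖ * Real.exp (r / 2 * |t|)) :=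
            mul_le_mul_of_nonneg_right h4 h7
        _ = _ := by ring
    refine lt_of_le_of_lt (ENNReal.tsum_le_tsum hle) ?_
    rw [ENNReal.tsum_mul_left]
    exact ENNReal.mul_lt_top ENNReal.ofReal_lt_top hsum
  · obtain ⟨ρ, hρ, hρS⟩ := hK.exists_cthickening_subset_open hS hKS
    obtain ⟨r, hr, hsum⟩ := ha.sum _ hρS hK.cthickening
    refine ⟨r, hr, ?_⟩
    have hle : ∀ t : ℝ, (⨆ y ∈ K, ENNReal.ofReal (‖deriv (a t) y‖ * Real.exp (r * |t|)))
        ≤ ENNReal.ofReal (1 / ρ) * (⨆ y ∈ Metric.cthickening ρ K,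
          ENNReal.ofReal (‖a t y‖ * Real.exp (r * |t|))) := by
      intro t
      have hfin := ENNReal.ne_top_of_tsum_ne_top hsum.ne t
      refine iSup₂_le fun y hy => ?_
      have hball : Metric.closedBall y ρ ⊆ Metric.cthickening ρ K :=
        Metric.closedBall_subset_cthickening hy ρ
      have hC : ∀ z ∈ Metric.sphere y ρ, ‖a t z‖ ≤ (⨆ y ∈ Metric.cthickening ρ K,
          ENNReal.ofReal (‖a t y‖ * Real.exp (r * |t|))).toReal * Real.exp (-(r * |t|)) := by
        intro z hz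
        have hz' := hball (Metric.sphere_subset_closedBall hz)
        have h1 : ENNReal.ofReal (‖a t z‖ * Real.exp (r * |t|)) ≤
            ⨆ y ∈ Metric.cthickening ρ K, ENNReal.ofReal (‖a t y‖ * Real.exp (r * |t|)) :=
          le_iSup₂ (f := fun y (_ : y ∈ Metric.cthickening ρ K) =>
            ENNReal.ofReal (‖a t y‖ * Real.exp (r * |t|))) z hz'
        have h2 := (ENNReal.ofReal_le_iff_le_toReal hfin).mp h1
        have h3 := mul_le_mul_of_nonneg_right h2 (Real.exp_pos (-(r * |t|))).le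
        rw [mul_assoc, ← Real.exp_add, add_neg_cancel, Real.exp_zero, mul_one] at h3
        exact h3
      have hd : DiffContOnCl ℂ (a t) (Metric.ball y ρ) := by
        refine DifferentiableOn.diffContOnCl ?_
        refine (ha.hol t).mono ?_
        exact (Metric.closure_ball_subset_closedBall.trans hball).trans hρS
      have h4 := Complex.norm_deriv_le_of_forall_mem_sphere_norm_le hρ hd hC
      have h5 := mul_le_mul_of_nonneg_right h4 (Real.exp_pos (r * |t|)).le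
      have h6 : ∀ X : ℝ, X * Real.exp (-(r * |t|)) / ρ * Real.exp (r * |t|) = 1 / ρ * X := by
        intro X
        rw [Real.exp_neg]
        field_simp
      rw [h6] at h5
      refine (ENNReal.ofReal_le_ofReal h5).trans ?_
      rw [ENNReal.ofReal_mul (by positivity), ENNReal.ofReal_toReal hfin]
    refine lt_of_le_of_lt (ENNReal.tsum_le_tsum hle) ?_
    rw [ENNReal.tsum_mul_left]
    exact ENNReal.mul_lt_top ENNReal.ofReal_lt_top hsum

end Pool.Agent.HSP
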