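import Pool.Agent.HSP.Targets4

set_option autoImplicit false

/-!
# HSP: derivatives of the surface
-/

open scoped Classical ENNReal

noncomputable section

namespace Pool.Agent.HSP

namespace DER_

/-- `cr` as a real linear map. -/
def crL (ι : Type) [Fintype ι] : (ι → ℂ) →ₗ[ℝ] EuclideanSpace ℝ (ι ⊕ ι) where
  toFun v := cr v
  map_add' u v := by
    ext i
    rcases i with i | i <;> simp [cr]
  map_smul' c v := by
    ext i
    rcases i with i | i <;> simp [cr]

/-- `e (cr v)` as a continuous real linear map. -/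
def LL (ι : Type) [Fintype ι] (n : ℕ)
    (e : EuclideanSpace ℝ (ι ⊕ ι) ≃ₗᵢ[ℝ] EuclideanSpace ℝ (Fin n)) :
    (ι → ℂ) →L[ℝ] EuclideanSpace ℝ (Fin n) :=
  LinearMap.toContinuousLinearMap ((e.toLinearEquiv.toLinearMap).comp (crL ι))

theorem LL_apply (ι : Type) [Fintype ι] (n : ℕ)
    (e : EuclideanSpace ℝ (ι ⊕ ι) ≃ₗᵢ[ℝ] EuclideanSpace ℝ (Fin n)) (v : ι → ℂ) :
    LL ι n e v = e (cr v) := rfl

theorem isOpen_Hp : IsOpen Hp := isOpen_lt continuous_const Complex.continuous_im

/-- The derivative of a map given by its two complex derivatives. -/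
theorem hasF (ι : Type) [Fintype ι] (n : ℕ)
    (e : EuclideanSpace ℝ (ι ⊕ ι) ≃ₗᵢ[ℝ] EuclideanSpace ℝ (Fin n)) (G U W : ι → ℂ → ℂ) (z : ℂ)
    (h : ∀ r, HasW (G r) (U r z) (W r z) z) :
    ∀ k, fderiv ℝ (fun z => e (cr fun r => G r z)) z k =
      e (cr fun r => U r z * k + W r z * (starRingEnd ℂ) k) := by
  intro k
  have h1 : HasFDerivAt (fun z => fun r => G r z)
      (ContinuousLinearMap.pi fun r =>
        (((U r z) • (ContinuousLinearMap.id ℝ ℂ) : ℂ →L[ℝ] ℂ) +
          ((W r z) • (Complex.conjCLE : ℂ →L[ℝ] ℂ)))) z := by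
    rw [hasFDerivAt_pi]
    exact h
  have h2 := (LL ι n e).hasFDerivAt.comp z h1
  have h3 : (fun z => e (cr fun r => G r z)) = (LL ι n e) ∘ (fun z => fun r => G r z) := rfl
  rw [h3, h2.fderiv]
  rw [ContinuousLinearMap.comp_apply, LL_apply]
  congr 2

theorem dxF (ι : Type) [Fintype ι] (n : ℕ)
    (e : EuclideanSpace ℝ (ι ⊕ ι) ≃ₗᵢ[ℝ] EuclideanSpace ℝ (Fin n)) (G U W : ι → ℂ → ℂ) (z : ℂ)
    (h : ∀ r, HasW (G r) (U r z) (W r z) z) :
    dx (fun z => e (cr fun r => G r z)) z = e (cr fun r => U r z + W r z) := by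
  unfold dx
  rw [hasF ι n e G U W z h]
  simp

theorem dyF (ι : Type) [Fintype ι] (n : ℕ)
    (e : EuclideanSpace ℝ (ι ⊕ ι) ≃ₗᵢ[ℝ] EuclideanSpace ℝ (Fin n)) (G U W : ι → ℂ → ℂ) (z : ℂ)
    (h : ∀ r, HasW (G r) (U r z) (W r z) z) :
    dy (fun z => e (cr fun r => G r z)) z = e (cr fun r => Complex.I * (U r z - W r z)) := by
  unfold dy
  rw [hasF ι n e G U W z h]
  congr 2
  funext r
  simp
  ring

theorem dx_congr {X : Type} [NormedAddCommGroup X] [NormedSpace ℝ X] (f g : ℂ → X)
    (h : ∀ z ∈ Hp, f z = g z) (z : ℂ) (hz : z ∈ Hp) : dx f z = dx g z := by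
  unfold dx
  have : f =ᶠ[nhds z] g := by
    filter_upwards [isOpen_Hp.mem_nhds hz] with w hw using h w hw
  rw [this.fderiv_eq]

theorem dy_congr {X : Type} [NormedAddCommGroup X] [NormedSpace ℝ X] (f g : ℂ → X)
    (h : ∀ z ∈ Hp, f z = g z) (z : ℂ) (hz : z ∈ Hp) : dy f z = dy g z := by
  unfold dy
  have : f =ᶠ[nhds z] g := by
    filter_upwards [isOpen_Hp.mem_nhds hz] with w hw using h w hw
  rw [this.fderiv_eq]

theorem hasW_add {f g : ℂ → ℂ} {a b c d z : ℂ} (hf : HasW f a b z) (hg : HasW g c d z) :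
    HasW (fun w => f w + g w) (a + c) (b + d) z := by
  unfold HasW at *
  have h := HasFDerivAt.add hf hg
  refine (h.congr_fderiv ?_)
  ext k
  simp
  try ring

theorem hasW_sub {f g : ℂ → ℂ} {a b c d z : ℂ} (hf : HasW f a b z) (hg : HasW g c d z) :
    HasW (fun w => Complex.I * (f w - g w)) (Complex.I * (a - c)) (Complex.I * (b - d)) z := by
  unfold HasW at *
  have h := (HasFDerivAt.sub hf hg).const_mul Complex.I
  refine (h.congr_fderiv ?_)
  ext k
  simp
  try ring

end DER_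

open DER_ in
/-- The derivatives of the surface. -/
theorem p_DER : T_DER := by
  intro ι _ n e Φ P V A B Z μ hD hS hW
  refine ⟨?_, ?_⟩
  · have h1 : ContDiffOn ℝ ((⊤ : ℕ∞) : WithTop ℕ∞) (fun z => fun r => Φ r z) Hp := by
      rw [contDiffOn_pi]
      exact hS
    exact (LL ι n e).contDiff.comp_contDiffOn h1
  · intro z hz
    have hx : ∀ w ∈ Hp, dx (fun z => e (cr fun r => Φ r z)) w = e (cr fun r => P r w + V r w) :=
      fun w hw => dxF ι n e Φ P V w (fun r => hW r w hw)
    have hy : ∀ w ∈ Hp, dy (fun z => e (cr fun r => Φ r z)) w =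
        e (cr fun r => Complex.I * (P r w - V r w)) :=
      fun w hw => dyF ι n e Φ P V w (fun r => hW r w hw)
    have hPV : ∀ r, HasW (fun w => P r w + V r w) (A r z + Z r z) (Z r z + B r z) z :=
      fun r => hasW_add (hD.dP r z hz) (hD.dV r z hz)
    have hIV : ∀ r, HasW (fun w => Complex.I * (P r w - V r w)) (Complex.I * (A r z - Z r z))
        (Complex.I * (Z r z - B r z)) z :=
      fun r => hasW_sub (hD.dP r z hz) (hD.dV r z hz)
    refine ⟨hasF ι n e Φ P V z (fun r => hW r z hz), hx z hz, hy z hz, ?_, ?_, ?_⟩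
    · rw [dx_congr _ _ hx z hz]
      rw [dxF ι n e (fun r w => P r w + V r w) (fun r w => A r w + Z r w)
        (fun r w => Z r w + B r w) z hPV]
      congr 2
      funext r
      ring
    · rw [dy_congr _ _ hx z hz]
      rw [dyF ι n e (fun r w => P r w + V r w) (fun r w => A r w + Z r w)
        (fun r w => Z r w + B r w) z hPV]
      congr 2
      funext r
      ring
    · rw [dy_congr _ _ hy z hz]
      rw [dyF ι n e (fun r w => Complex.I * (P r w - V r w))
        (fun r w => Complex.I * (A r w - Z r w)) (fun r w => Complex.I * (Z r w - B r w)) z hIV]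
      congr 2
      funext r
      have hI : Complex.I * Complex.I = -1 := Complex.I_mul_I
      calc Complex.I * (Complex.I * (A r z - Z r z) - Complex.I * (Z r z - B r z))
          = (Complex.I * Complex.I) * (A r z - 2 * Z r z + B r z) := by ring
        _ = -A r z + 2 * Z r z - B r z := by rw [hI]; ring

end Pool.Agent.HSP
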