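import Pool.Agent.HSP.Targets2

set_option autoImplicit false

/-!
# HSP: the diagonal part of the Gram products (target T_DIA)
-/

open scoped Classical ENNReal

noncomputable section

namespace Pool.Agent.HSP

namespace DIA_

theorem summ_abs : Summable (fun n : ℤ => (2 : ℝ) ^ (-|n|)) := by
  have h : Summable (fun n : ℕ => (1 / 2 : ℝ) ^ n) := summable_geometric_of_lt_one (by norm_num) (by norm_num)
  refine Summable.of_nat_of_neg ?_ ?_
  · refine h.congr fun n => ?_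
    rw [abs_of_nonneg (by positivity), zpow_neg, zpow_natCast, one_div, inv_pow]
  · refine h.congr fun n => ?_
    rw [abs_neg, abs_of_nonneg (by positivity), zpow_neg, zpow_natCast, one_div, inv_pow]

theorem summ_shift (l : ℤ) : Summable (fun n : ℤ => (2 : ℝ) ^ (-|n + l|)) :=
  summ_abs.comp_injective (add_left_injective l)

theorem tsum_shift (l : ℤ) : ∑' n : ℤ, (2 : ℝ) ^ (-|n + l|) = ∑' n : ℤ, (2 : ℝ) ^ (-|n|) :=
  (Equiv.addRight l).tsum_eq (fun n => (2 : ℝ) ^ (-|n|))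

/-- left Riemann sums on `[1,2]` -/
theorem riem (φ φ' : ℝ → ℂ) (B : ℝ) (hd : ∀ u ∈ Set.Icc (1 : ℝ) 2, HasDerivAt φ (φ' u) u)
    (hB : ∀ u ∈ Set.Icc (1 : ℝ) 2, ‖φ' u‖ ≤ B) (M : ℕ) (hM : 1 ≤ M) :
    ‖(∑ i : Fin M, (1 / (M : ℂ)) * φ (1 + (i : ℝ) / M)) - ∫ u in (1 : ℝ)..2, φ u‖ ≤ B / M := by
  have hM0 : (0 : ℝ) < M := by exact_mod_cast hM
  have hB0 : 0 ≤ B := (norm_nonneg _).trans (hB 1 ⟨le_refl _, by norm_num⟩)
  set a : ℕ → ℝ := fun k => 1 + (k : ℝ) / M with ha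
  have ha0 : a 0 = 1 := by simp [ha]
  have haM : a M = 2 := by simp only [ha]; rw [div_self hM0.ne']; norm_num
  have hmono : Monotone a := by
    intro i j hij
    simp only [ha]
    have : (i : ℝ) ≤ j := by exact_mod_cast hij
    gcongr
  have hmem : ∀ k ≤ M, a k ∈ Set.Icc (1 : ℝ) 2 := fun k hk => ⟨ha0 ▸ hmono (Nat.zero_le k), haM ▸ hmono hk⟩
  have hcont : ContinuousOn φ (Set.Icc 1 2) := fun u hu => (hd u hu).continuousAt.continuousWithinAt
  have hint : ∀ k < M, IntervalIntegrable φ MeasureTheory.volume (a k) (a (k + 1)) := fun k hk => by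
    refine (hcont.mono ?_).intervalIntegrable
    rw [Set.uIcc_of_le (hmono (Nat.le_succ k))]
    exact Set.Icc_subset_Icc (hmem k hk.le).1 (hmem (k + 1) hk).2
  have hsum := intervalIntegral.sum_integral_adjacent_intervals hint
  rw [ha0, haM] at hsum
  rw [Fin.sum_univ_eq_sum_range (fun i => (1 / (M : ℂ)) * φ (1 + (i : ℝ) / M)) M, ← hsum, ← Finset.sum_sub_distrib]
  have key : ∀ k ∈ Finset.range M, ‖(1 / (M : ℂ)) * φ (1 + (k : ℝ) / M) - ∫ u in (a k)..(a (k + 1)), φ u‖ ≤ B / M * (1 / M) := by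
    intro k hk
    have hk' : k < M := Finset.mem_range.1 hk
    have hd1 : a (k + 1) - a k = 1 / M := by simp only [ha]; push_cast; ring
    have h1 : (1 / (M : ℂ)) * φ (1 + (k : ℝ) / M) = ∫ _u in (a k)..(a (k + 1)), φ (a k) := by
      rw [intervalIntegral.integral_const, hd1, Complex.real_smul]
      push_cast
      rfl
    rw [h1, ← intervalIntegral.integral_sub intervalIntegrable_const (hint k hk')]
    have h2 : ∀ u ∈ Set.uIoc (a k) (a (k + 1)), ‖φ (a k) - φ u‖ ≤ B / M := by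
      intro u hu
      rw [Set.uIoc_of_le (hmono (Nat.le_succ k))] at hu
      have hu1 : u ∈ Set.Icc (1 : ℝ) 2 := ⟨(hmem k hk'.le).1.trans hu.1.le, hu.2.trans (hmem (k + 1) hk').2⟩
      have h3 := (convex_Icc (1 : ℝ) 2).norm_image_sub_le_of_norm_hasDerivWithin_le
        (fun x hx => (hd x hx).hasDerivWithinAt) hB hu1 (hmem k hk'.le)
      refine h3.trans ?_
      rw [div_eq_mul_one_div B (M : ℝ)]
      refine mul_le_mul_of_nonneg_left ?_ hB0
      rw [Real.norm_eq_abs, abs_sub_comm, abs_of_nonneg (by linarith [hu.1.le])]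
      linarith [hu.2]
    refine (intervalIntegral.norm_integral_le_of_norm_le_const h2).trans ?_
    rw [hd1, abs_of_nonneg (by positivity)]
  refine (norm_sum_le _ _).trans ((Finset.sum_le_sum key).trans ?_)
  rw [Finset.sum_const, Finset.card_range, nsmul_eq_mul]
  apply le_of_eq
  field_simp

/-- the one-scale function -/
def ph (k : ℕ) (c : ℝ) (y : ℂ) (u : ℝ) : ℂ := 4 * ((c : ℂ) * y) ^ (k + 1) * (u : ℂ) ^ k * Complex.exp (-(2 * (c * u) * y))

def ph' (k : ℕ) (c : ℝ) (y : ℂ) (u : ℝ) : ℂ :=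
  4 * ((c : ℂ) * y) ^ (k + 1) * (k * (u : ℂ) ^ (k - 1) - 2 * c * y * (u : ℂ) ^ k) * Complex.exp (-(2 * (c * u) * y))

theorem ph_deriv (k : ℕ) (c : ℝ) (y : ℂ) (u : ℝ) : HasDerivAt (ph k c y) (ph' k c y u) u := by
  have h1 : HasDerivAt (fun z : ℂ => 4 * ((c : ℂ) * y) ^ (k + 1) * z ^ k * Complex.exp (-(2 * (c * z) * y))) (ph' k c y u) (u : ℂ) := by
    have h2 : HasDerivAt (fun z : ℂ => 4 * ((c : ℂ) * y) ^ (k + 1) * z ^ k) (4 * ((c : ℂ) * y) ^ (k + 1) * (k * (u : ℂ) ^ (k - 1))) (u : ℂ) :=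
      (hasDerivAt_pow k (u : ℂ)).const_mul _
    have h3 : HasDerivAt (fun z : ℂ => -(2 * (c * z) * y)) (-(2 * c * y)) (u : ℂ) := by
      have h4 : HasDerivAt (fun z : ℂ => z * (-(2 * c * y))) (1 * (-(2 * c * y))) (u : ℂ) :=
        (hasDerivAt_id (u : ℂ)).mul_const _
      rw [one_mul] at h4
      refine h4.congr_of_eventuallyEq (Filter.Eventually.of_forall fun z => ?_)
      show -(2 * (c * z) * y) = z * (-(2 * c * y))
      ring
    have h5 := h2.mul h3.cexp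
    refine h5.congr_deriv ?_
    unfold ph'
    ring
  exact h1.comp_ofReal

theorem ph_bound (h_WIN : T_WIN) (h_PTW : T_PTW) (k : ℕ) : ∃ C : ℝ, 0 < C ∧ ∀ (n l : ℤ), ∀ y ∈ W l, ∀ u ∈ Set.Icc (1 : ℝ) 2,
    ‖ph' k ((2 : ℝ) ^ n) y u‖ ≤ C * (2 : ℝ) ^ (-|n + l|) := by
  obtain ⟨C1, hC1, hw1⟩ := h_WIN (k + 1) (by omega)
  obtain ⟨C2, hC2, hw2⟩ := h_WIN (k + 2) (by omega)
  refine ⟨4 * 2 ^ k * (k * C1 + 2 * C2), by positivity, ?_⟩
  intro n l y hy u hu
  have hyS : y ∈ S := hy.1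
  have hre := (h_PTW.2.1 y hyS).1
  set c : ℝ := (2 : ℝ) ^ n with hc
  have hc0 : 0 < c := by positivity
  have hfq : fq 1 0 n = c := by simp [fq, hc]
  have hu0 : 0 < u := by linarith [hu.1]
  have hun : ‖(u : ℂ)‖ = u := by rw [Complex.norm_real, Real.norm_eq_abs, abs_of_pos hu0]
  have hcn : ‖(c : ℂ)‖ = c := by rw [Complex.norm_real, Real.norm_eq_abs, abs_of_pos hc0]
  -- the exponential
  have he : ‖Complex.exp (-(2 * (c * u) * y))‖ ≤ Real.exp (-(c * y.re)) := by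
    rw [Complex.norm_exp]
    apply Real.exp_le_exp.2
    have : (-(2 * ((c : ℂ) * u) * y)).re = -(2 * (c * u) * y.re) := by
      have h0 : (2 * ((c : ℂ) * u)) = ((2 * (c * u) : ℝ) : ℂ) := by push_cast; ring
      rw [h0, Complex.neg_re, Complex.re_ofReal_mul]
    rw [this]
    have h1 : c * y.re ≤ 2 * (c * u) * y.re := by
      have h2 : 0 < c * y.re := mul_pos hc0 hre
      nlinarith [hu.1]
    linarith
  have hwn : ∀ p : ℕ, ∀ C : ℝ, ‖(((fq 1 0 n : ℝ) : ℂ) * y) ^ p * Complex.exp (-(((fq 1 0 n : ℝ) : ℂ) * y))‖ * Real.exp (fq 1 0 n * ‖y‖ / 2) ≤ C * (2 : ℝ) ^ (-|n + l|) →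
      (c * ‖y‖) ^ p * Real.exp (-(c * y.re)) ≤ C * (2 : ℝ) ^ (-|n + l|) := by
    intro p C h
    rw [hfq, norm_mul, norm_pow, norm_mul, hcn, Complex.norm_exp] at h
    have h1 : (-((c : ℂ) * y)).re = -(c * y.re) := by rw [Complex.neg_re, Complex.re_ofReal_mul]
    rw [h1] at h
    refine le_trans ?_ h
    refine le_mul_of_one_le_right (by positivity) ?_
    exact Real.one_le_exp (by positivity)
  have b1 := hwn (k + 1) C1 (hw1 1 0 n l y hy)
  have b2 := hwn (k + 2) C2 (hw2 1 0 n l y hy)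
  have hu2 : u ^ k ≤ 2 ^ k := pow_le_pow_left₀ hu0.le hu.2 k
  have hu3 : u ^ (k - 1) ≤ 2 ^ k := by
    calc u ^ (k - 1) ≤ 2 ^ (k - 1) := pow_le_pow_left₀ hu0.le hu.2 _
      _ ≤ 2 ^ k := pow_le_pow_right₀ (by norm_num) (Nat.sub_le _ _)
  have h6 : ‖(k * (u : ℂ) ^ (k - 1) - 2 * c * y * (u : ℂ) ^ k)‖ ≤ k * 2 ^ k + 2 * (c * ‖y‖) * 2 ^ k := by
    refine (norm_sub_le _ _).trans ?_
    rw [norm_mul, norm_mul, norm_mul, norm_mul, norm_pow, norm_pow, hun, hcn, Complex.norm_natCast, Complex.norm_two]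
    have : 2 * c * ‖y‖ * u ^ k = 2 * (c * ‖y‖) * u ^ k := by ring
    rw [this]
    gcongr
  have h7 : ‖4 * ((c : ℂ) * y) ^ (k + 1)‖ = 4 * (c * ‖y‖) ^ (k + 1) := by
    rw [norm_mul, norm_pow, norm_mul, hcn]
    norm_num
  unfold ph'
  rw [norm_mul, norm_mul, h7]
  calc 4 * (c * ‖y‖) ^ (k + 1) * ‖(k * (u : ℂ) ^ (k - 1) - 2 * c * y * (u : ℂ) ^ k)‖ * ‖Complex.exp (-(2 * (c * u) * y))‖
      ≤ 4 * (c * ‖y‖) ^ (k + 1) * (k * 2 ^ k + 2 * (c * ‖y‖) * 2 ^ k) * Real.exp (-(c * y.re)) := by gcongr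
    _ = 4 * 2 ^ k * (k * ((c * ‖y‖) ^ (k + 1) * Real.exp (-(c * y.re))) + 2 * ((c * ‖y‖) ^ (k + 2) * Real.exp (-(c * y.re)))) := by ring
    _ ≤ 4 * 2 ^ k * (k * (C1 * (2 : ℝ) ^ (-|n + l|)) + 2 * (C2 * (2 : ℝ) ^ (-|n + l|))) := by gcongr
    _ = 4 * 2 ^ k * (k * C1 + 2 * C2) * (2 : ℝ) ^ (-|n + l|) := by ring

/-- the density -/
def fd (k : ℕ) (y : ℂ) (s : ℝ) : ℂ := 4 * y ^ (k + 1) * ((s : ℂ) ^ k * Complex.exp (-(2 * y * s)))

theorem lap_int (k : ℕ) (z : ℂ) (hz : 0 < z.re) :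
    MeasureTheory.IntegrableOn (fun s : ℝ => (s : ℂ) ^ k * Complex.exp (-(z * s))) (Set.Ioi (0 : ℝ)) := by
  have hk : (-1 : ℝ) < (k : ℝ) := by
    have : (0 : ℝ) ≤ k := Nat.cast_nonneg k
    linarith
  have h := integrableOn_rpow_mul_exp_neg_mul_rpow (s := (k : ℝ)) (p := 1) (b := z.re) hk zero_lt_one hz
  refine MeasureTheory.Integrable.mono' h ?_ ?_
  · exact (by fun_prop : Continuous fun s : ℝ => (s : ℂ) ^ k * Complex.exp (-(z * s))).aestronglyMeasurable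
  · refine (MeasureTheory.ae_restrict_iff' measurableSet_Ioi).2 (Filter.Eventually.of_forall fun s hs => ?_)
    have hs0 : (0 : ℝ) < s := hs
    rw [norm_mul, norm_pow, Complex.norm_real, Real.norm_eq_abs, abs_of_pos hs0, Complex.norm_exp, Real.rpow_natCast, Real.rpow_one]
    have : (-(z * (s : ℂ))).re = -z.re * s := by
      rw [Complex.neg_re, mul_comm, Complex.re_ofReal_mul]
      ring
    rw [this]

theorem lap_tendsto (k : ℕ) (z : ℂ) (hz : 0 < z.re) :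
    Filter.Tendsto (fun s : ℝ => (s : ℂ) ^ k * Complex.exp (-(z * s))) Filter.atTop (nhds 0) := by
  rw [tendsto_zero_iff_norm_tendsto_zero]
  refine (tendsto_rpow_mul_exp_neg_mul_atTop_nhds_zero (k : ℝ) z.re hz).congr' ?_
  filter_upwards [Filter.eventually_gt_atTop 0] with s hs0
  rw [norm_mul, norm_pow, Complex.norm_real, Real.norm_eq_abs, abs_of_pos hs0, Complex.norm_exp, Real.rpow_natCast]
  have : (-(z * (s : ℂ))).re = -z.re * s := by
    rw [Complex.neg_re, mul_comm, Complex.re_ofReal_mul]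
    ring
  rw [this]

theorem exp_deriv (z : ℂ) (s : ℝ) : HasDerivAt (fun s : ℝ => Complex.exp (-(z * s))) (-z * Complex.exp (-(z * s))) s := by
  have h3 : HasDerivAt (fun w : ℂ => -(z * w)) (-z) (s : ℂ) := by
    have h4 : HasDerivAt (fun w : ℂ => z * w) (z * 1) (s : ℂ) := (hasDerivAt_id (s : ℂ)).const_mul z
    rw [mul_one] at h4
    exact h4.neg
  have h5 := h3.cexp.comp_ofReal
  refine h5.congr_deriv ?_
  ring

theorem lap_val (k : ℕ) (z : ℂ) (hz : 0 < z.re) :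
    ∫ s in Set.Ioi (0 : ℝ), (s : ℂ) ^ k * Complex.exp (-(z * s)) = k.factorial / z ^ (k + 1) := by
  have hz0 : z ≠ 0 := by
    intro h
    rw [h] at hz
    simp at hz
  induction k with
  | zero =>
    have h1 := MeasureTheory.integral_Ioi_of_hasDerivAt_of_tendsto (a := (0 : ℝ)) (m := 0) (f := fun s : ℝ => -(Complex.exp (-(z * s))) / z)
      (f' := fun s : ℝ => (s : ℂ) ^ 0 * Complex.exp (-(z * s))) (by fun_prop)
      (fun s _ => by
        have := ((exp_deriv z s).neg.div_const z)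
        refine this.congr_deriv ?_
        field_simp) (lap_int 0 z hz) (by
        have := ((lap_tendsto 0 z hz).neg.div_const z)
        simpa using this)
    rw [h1]
    simp
    ring
  | succ k ih =>
    have h1 := MeasureTheory.integral_Ioi_of_hasDerivAt_of_tendsto (a := (0 : ℝ)) (m := 0) (f := fun s : ℝ => (s : ℂ) ^ (k + 1) * Complex.exp (-(z * s)))
      (f' := fun s : ℝ => ((k : ℂ) + 1) * ((s : ℂ) ^ k * Complex.exp (-(z * s))) - z * ((s : ℂ) ^ (k + 1) * Complex.exp (-(z * s)))) (by fun_prop)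
      (fun s _ => by
        have h2 : HasDerivAt (fun s : ℝ => (s : ℂ) ^ (k + 1)) ((((k + 1 : ℕ) : ℂ)) * (s : ℂ) ^ k) s := by
          have := (hasDerivAt_pow (k + 1) (s : ℂ)).comp_ofReal
          simpa using this
        have := h2.mul (exp_deriv z s)
        refine this.congr_deriv ?_
        push_cast
        ring) (((lap_int k z hz).const_mul _).sub ((lap_int (k + 1) z hz).const_mul _)) (lap_tendsto (k + 1) z hz)
    rw [MeasureTheory.integral_sub ((lap_int k z hz).const_mul _) ((lap_int (k + 1) z hz).const_mul _),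
      MeasureTheory.integral_const_mul, MeasureTheory.integral_const_mul, ih] at h1
    have h2 : z * ∫ s in Set.Ioi (0 : ℝ), (s : ℂ) ^ (k + 1) * Complex.exp (-(z * s)) = ((k : ℂ) + 1) * (k.factorial / z ^ (k + 1)) := by
      have h3 : ((0 : ℝ) : ℂ) ^ (k + 1) * Complex.exp (-(z * ((0 : ℝ) : ℂ))) = 0 := by simp
      rw [h3, sub_zero] at h1
      exact (sub_eq_zero.1 h1).symm
    have h4 : ∫ s in Set.Ioi (0 : ℝ), (s : ℂ) ^ (k + 1) * Complex.exp (-(z * s)) = (((k : ℂ) + 1) * (k.factorial / z ^ (k + 1))) / z := by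
      rw [← h2]
      field_simp
    rw [h4, Nat.factorial_succ]
    push_cast
    field_simp
    ring

theorem fd_int (k : ℕ) (y : ℂ) (hy : 0 < y.re) : ∫ s in Set.Ioi (0 : ℝ), fd k y s = 4 * k.factorial / 2 ^ (k + 1) ∧
    MeasureTheory.IntegrableOn (fd k y) (Set.Ioi (0 : ℝ)) := by
  have hy0 : y ≠ 0 := by
    intro h
    rw [h] at hy
    simp at hy
  have h2y : 0 < (2 * y).re := by simpa using hy
  refine ⟨?_, (lap_int k (2 * y) h2y).const_mul _⟩
  unfold fd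
  rw [MeasureTheory.integral_const_mul, lap_val k (2 * y) h2y, mul_pow]
  field_simp

theorem fd_sum (k : ℕ) (y : ℂ) (hy : 0 < y.re) : HasSum (fun n : ℤ => ∫ u in (1 : ℝ)..2, ph k ((2 : ℝ) ^ n) y u) (4 * k.factorial / 2 ^ (k + 1)) := by
  have h1 : (⋃ n : ℤ, Set.Ioc ((2 : ℝ) ^ n) ((2 : ℝ) ^ (n + 1))) = Set.Ioi 0 := by
    ext s
    rw [Set.mem_iUnion]
    constructor
    · rintro ⟨n, hn⟩
      exact lt_trans (by positivity : (0 : ℝ) < 2 ^ n) hn.1
    · intro hs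
      exact exists_mem_Ioc_zpow hs (by norm_num)
  have h2 : Pairwise (Function.onFun Disjoint (fun n : ℤ => Set.Ioc ((2 : ℝ) ^ n) ((2 : ℝ) ^ (n + 1)))) := by
    intro i j hij
    rw [Function.onFun, Set.disjoint_left]
    intro s hi hj
    rcases lt_or_gt_of_ne hij with h | h
    · have : (2 : ℝ) ^ (i + 1) ≤ 2 ^ j := zpow_le_zpow_right₀ (by norm_num) (by omega)
      exact absurd (hi.2.trans this) (not_le.2 hj.1)
    · have : (2 : ℝ) ^ (j + 1) ≤ 2 ^ i := zpow_le_zpow_right₀ (by norm_num) (by omega)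
      exact absurd (hj.2.trans this) (not_le.2 hi.1)
  have h3 := MeasureTheory.hasSum_integral_iUnion (f := fd k y) (μ := MeasureTheory.volume) (fun n : ℤ => measurableSet_Ioc) h2
    (by rw [h1]; exact (fd_int k y hy).2)
  rw [h1, (fd_int k y hy).1] at h3
  refine h3.congr_fun ?_ |> fun h => h
  intro n
  have hc0 : (0 : ℝ) < 2 ^ n := by positivity
  have h4 : ∀ u : ℝ, ph k ((2 : ℝ) ^ n) y u = ((2 : ℝ) ^ n) • fd k y ((2 : ℝ) ^ n * u) := by
    intro u
    unfold ph fd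
    rw [Complex.real_smul]
    have : Complex.exp (-(2 * (((2 : ℝ) ^ n : ℝ) * (u : ℂ)) * y)) = Complex.exp (-(2 * y * (((2 : ℝ) ^ n * u : ℝ) : ℂ))) := by
      congr 1
      push_cast
      ring
    rw [this]
    push_cast
    ring
  simp_rw [h4]
  rw [intervalIntegral.integral_smul, intervalIntegral.smul_integral_comp_mul_left, mul_one,
    intervalIntegral.integral_of_le (by linarith)]
  congr 2
  rw [zpow_add_one₀ (by norm_num)]

/-- the terms of `gd` -/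
def tm (M p q : ℕ) (i : Fin M) (n : ℤ) (y : ℂ) : ℂ :=
  (cf M i : ℂ) ^ 2 * (Complex.I * fq M i n * y) ^ p * (-(Complex.I * fq M i n * y)) ^ q * Complex.exp (-(2 * fq M i n * y))

theorem fq_pos (M : ℕ) (hM : 1 ≤ M) (i : Fin M) (n : ℤ) : 0 < fq M i n := by
  have hM0 : (0 : ℝ) < M := by exact_mod_cast hM
  unfold fq
  positivity

theorem tm_bound (h_WIN : T_WIN) (h_PTW : T_PTW) (p q : ℕ) (hp : 1 ≤ p) : ∃ C : ℝ, 0 < C ∧ ∀ M, 1 ≤ M → ∀ (i : Fin M) (n l : ℤ), ∀ y ∈ W l,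
    ‖tm M p q i n y‖ ≤ cf M i ^ 2 * (C * (2 : ℝ) ^ (-|n + l|)) := by
  obtain ⟨C, hC, hw⟩ := h_WIN (p + q) (by omega)
  refine ⟨C, hC, ?_⟩
  intro M hM i n l y hy
  have hre := (h_PTW.2.1 y hy.1).1
  have h1 := hw M i n l y hy
  have hx := fq_pos M hM i n
  set x : ℝ := fq M i n with hxd
  have hxn : ‖(x : ℂ)‖ = x := by rw [Complex.norm_real, Real.norm_eq_abs, abs_of_pos hx]
  have hcn : ‖(cf M i : ℂ)‖ ^ 2 = cf M i ^ 2 := by rw [Complex.norm_real, Real.norm_eq_abs, sq_abs]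
  unfold tm
  rw [← hxd, norm_mul, norm_mul, norm_mul, norm_pow, norm_pow, norm_pow, norm_neg, norm_mul, norm_mul, Complex.norm_I, one_mul, hxn, hcn,
    Complex.norm_exp]
  rw [norm_mul, norm_pow, norm_mul, hxn, Complex.norm_exp] at h1
  have e1 : (-((x : ℂ) * y)).re = -(x * y.re) := by rw [Complex.neg_re, Complex.re_ofReal_mul]
  have e2 : (-(2 * (x : ℂ) * y)).re = -(2 * (x * y.re)) := by
    have h0 : (2 * (x : ℂ)) = ((2 * x : ℝ) : ℂ) := by push_cast; ring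
    rw [h0, Complex.neg_re, Complex.re_ofReal_mul]
    ring
  rw [e1] at h1
  rw [e2]
  have h3 : Real.exp (-(2 * (x * y.re))) ≤ Real.exp (-(x * y.re)) * Real.exp (x * ‖y‖ / 2) := by
    rw [← Real.exp_add]
    apply Real.exp_le_exp.2
    have : 0 < x * y.re := mul_pos hx hre
    have : 0 ≤ x * ‖y‖ / 2 := by positivity
    linarith
  calc cf M i ^ 2 * (x * ‖y‖) ^ p * (x * ‖y‖) ^ q * Real.exp (-(2 * (x * y.re)))
      ≤ cf M i ^ 2 * (x * ‖y‖) ^ p * (x * ‖y‖) ^ q * (Real.exp (-(x * y.re)) * Real.exp (x * ‖y‖ / 2)) := by gcongr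
    _ = cf M i ^ 2 * ((x * ‖y‖) ^ (p + q) * Real.exp (-(x * y.re)) * Real.exp (x * ‖y‖ / 2)) := by ring
    _ ≤ cf M i ^ 2 * (C * (2 : ℝ) ^ (-|n + l|)) := by gcongr

theorem tm_summ (h_WIN : T_WIN) (h_PTW : T_PTW) (p q : ℕ) (hp : 1 ≤ p) (M : ℕ) (hM : 1 ≤ M) (i : Fin M) (y : ℂ) (hy : y ∈ S) :
    Summable (fun n : ℤ => tm M p q i n y) := by
  obtain ⟨C, hC, hb⟩ := tm_bound h_WIN h_PTW p q hp
  obtain ⟨l, hl⟩ := h_PTW.1 y hy
  exact Summable.of_norm_bounded (((summ_shift l).mul_left C).mul_left (cf M i ^ 2)) fun n => hb M hM i n l y hl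

theorem tm_eq (h_FQI : T_FQI) (p q k : ℕ) (hk : p + q = k + 1) (M : ℕ) (hM : 1 ≤ M) (i : Fin M) (n : ℤ) (y : ℂ) :
    tm M p q i n y = Complex.I ^ p * (-Complex.I) ^ q * ((1 / (M : ℂ)) * ph k ((2 : ℝ) ^ n) y (1 + (i : ℝ) / M)) := by
  have hM0 : (M : ℂ) ≠ 0 := by
    have : M ≠ 0 := by omega
    exact_mod_cast this
  have hc : (cf M i : ℂ) ^ 2 = 4 / ((M : ℂ) + ((i : ℕ) : ℂ)) := by
    have := ((h_FQI M hM).2.2.1 i).2
    have h2 : ((cf M i ^ 2 : ℝ) : ℂ) = ((4 / ((M : ℝ) + ((i : ℕ) : ℝ)) : ℝ) : ℂ) := by rw [this]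
    push_cast at h2
    exact h2
  set u : ℝ := 1 + ((i : ℕ) : ℝ) / M with hu
  have hf : (fq M i n : ℂ) = (((2 : ℝ) ^ n : ℝ) : ℂ) * (u : ℂ) := by
    unfold fq
    rw [← Complex.ofReal_mul]
  set c : ℝ := (2 : ℝ) ^ n with hcd
  have hu0 : (u : ℂ) ≠ 0 := by
    have hM1 : (0 : ℝ) < M := by exact_mod_cast hM
    have : 0 < u := by rw [hu]; positivity
    exact_mod_cast this.ne'
  have hMu : (M : ℂ) + ((i : ℕ) : ℂ) = M * u := by
    rw [hu]
    push_cast
    field_simp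
  have e1 : (Complex.I * (fq M i n : ℂ) * y) ^ p * (-(Complex.I * (fq M i n : ℂ) * y)) ^ q = Complex.I ^ p * (-Complex.I) ^ q * ((c : ℂ) * y) ^ (k + 1) * (u : ℂ) ^ (k + 1) := by
    rw [hf]
    have a1 : Complex.I * ((c : ℂ) * u) * y = Complex.I * ((c : ℂ) * y * u) := by ring
    have a2 : -(Complex.I * ((c : ℂ) * y * u)) = (-Complex.I) * ((c : ℂ) * y * u) := by ring
    rw [a1, a2, mul_pow Complex.I, mul_pow (-Complex.I)]
    calc Complex.I ^ p * ((c : ℂ) * y * u) ^ p * ((-Complex.I) ^ q * ((c : ℂ) * y * u) ^ q)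
        = Complex.I ^ p * (-Complex.I) ^ q * ((c : ℂ) * y * u) ^ (p + q) := by ring
      _ = Complex.I ^ p * (-Complex.I) ^ q * ((c : ℂ) * y) ^ (k + 1) * (u : ℂ) ^ (k + 1) := by rw [hk, mul_pow]; ring
  unfold tm
  rw [mul_assoc ((cf M i : ℂ) ^ 2), e1, hc, hMu]
  unfold ph
  have e2 : Complex.exp (-(2 * (fq M i n : ℂ) * y)) = Complex.exp (-(2 * ((c : ℂ) * u) * y)) := by rw [hf]
  rw [e2]
  have e3 : (u : ℂ) ^ (k + 1) = u ^ k * u := pow_succ _ _
  rw [e3]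
  field_simp

end DIA_

open DIA_ in
theorem p_DIA (h_WIN : T_WIN) (h_FQI : T_FQI) (h_PTW : T_PTW) : T_DIA := by
  intro p q hp hq
  constructor
  · -- holomorphic
    intro M hM
    have hgd : gd M p q = fun y => ∑ i : Fin M, ∑' n : ℤ, tm M p q i n y := rfl
    rw [hgd]
    obtain ⟨C, hC, hb⟩ := tm_bound h_WIN h_PTW p q hp
    refine DifferentiableOn.fun_sum fun i _ => ?_
    intro y₀ hy₀
    have hn0 : 0 < ‖y₀‖ := by
      rw [norm_pos_iff]
      intro h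
      have := (h_PTW.2.1 y₀ hy₀).1
      rw [h] at this
      simp at this
    obtain ⟨l, hl1, hl2⟩ := exists_mem_Ico_zpow hn0 (by norm_num : (1 : ℝ) < 2)
    set U : Set ℂ := S ∩ {y | (2 : ℝ) ^ (l - 1) < ‖y‖ ∧ ‖y‖ < (2 : ℝ) ^ (l + 1)} with hU
    have hUo : IsOpen U := by
      refine (h_PTW.2.2.2.1).inter ?_
      exact (isOpen_lt continuous_const continuous_norm).inter (isOpen_lt continuous_norm continuous_const)
    have hyU : y₀ ∈ U := by
      refine ⟨hy₀, lt_of_lt_of_le ?_ hl1, hl2⟩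
      exact zpow_lt_zpow_right₀ (by norm_num) (by omega)
    have hd : DifferentiableOn ℂ (fun y => ∑' n : ℤ, tm M p q i n y) U := by
      refine Complex.differentiableOn_tsum_of_summable_norm (u := fun n : ℤ => cf M i ^ 2 * (C * (2 : ℝ) ^ (-|n + (l - 1)|)) + cf M i ^ 2 * (C * (2 : ℝ) ^ (-|n + l|)))
        ?_ ?_ hUo ?_
      · exact (((summ_shift (l - 1)).mul_left C).mul_left _).add (((summ_shift l).mul_left C).mul_left _)
      · intro n
        unfold tm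
        fun_prop
      · intro n w hw
        have c1 : 0 ≤ cf M i ^ 2 * (C * (2 : ℝ) ^ (-|n + (l - 1)|)) := by positivity
        have c2 : 0 ≤ cf M i ^ 2 * (C * (2 : ℝ) ^ (-|n + l|)) := by positivity
        rcases le_total ‖w‖ ((2 : ℝ) ^ l) with h | h
        · have : w ∈ W (l - 1) := ⟨hw.1, hw.2.1.le, by rw [sub_add_cancel]; exact h⟩
          have := hb M hM i n (l - 1) w this
          linarith
        · have : w ∈ W l := ⟨hw.1, h, hw.2.2.le⟩
          have := hb M hM i n l w this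
          linarith
    exact (hd.differentiableAt (hUo.mem_nhds hyU)).differentiableWithinAt
  · obtain ⟨k, hk⟩ : ∃ k, p + q = k + 1 := ⟨p + q - 1, by omega⟩
    obtain ⟨C, hC, hb⟩ := ph_bound h_WIN h_PTW k
    refine ⟨C * ∑' n : ℤ, (2 : ℝ) ^ (-|n|) + 1, ?_, ?_⟩
    · have : 0 ≤ ∑' n : ℤ, (2 : ℝ) ^ (-|n|) := tsum_nonneg fun n => by positivity
      positivity
    intro M hM y hy
    have hM0 : (0 : ℝ) < M := by exact_mod_cast hM
    obtain ⟨l, hl⟩ := h_PTW.1 y hy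
    have hre := (h_PTW.2.1 y hy).1
    have h1 : gd M p q y = ∑' n : ℤ, ∑ i : Fin M, tm M p q i n y := by
      show ∑ i : Fin M, ∑' n : ℤ, tm M p q i n y = _
      exact (Summable.tsum_finsetSum fun i _ => tm_summ h_WIN h_PTW p q hp M hM i y hy).symm
    have hI : ‖Complex.I ^ p * (-Complex.I) ^ q‖ = 1 := by
      rw [norm_mul, norm_pow, norm_pow, norm_neg, Complex.norm_I, one_pow, one_pow, one_mul]
    have h2 := (fd_sum k y hre).mul_left (Complex.I ^ p * (-Complex.I) ^ q)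
    have h3 : gm p q = Complex.I ^ p * (-Complex.I) ^ q * (4 * k.factorial / 2 ^ (k + 1)) := by
      unfold gm
      have : p + q - 1 = k := by omega
      rw [this, hk]
    rw [← h3] at h2
    have h4 : Summable fun n : ℤ => ∑ i : Fin M, tm M p q i n y :=
      summable_sum fun i _ => tm_summ h_WIN h_PTW p q hp M hM i y hy
    have h5 : gd M p q y - gm p q = ∑' n : ℤ, (∑ i : Fin M, tm M p q i n y - Complex.I ^ p * (-Complex.I) ^ q * ∫ u in (1 : ℝ)..2, ph k ((2 : ℝ) ^ n) y u) := by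
      rw [h4.tsum_sub h2.summable, h2.tsum_eq, h1]
    rw [h5]
    have h6 : HasSum (fun n : ℤ => C * (2 : ℝ) ^ (-|n + l|) / M) ((C * ∑' n : ℤ, (2 : ℝ) ^ (-|n|)) / M) := by
      have := ((summ_shift l).hasSum.mul_left C).div_const (M : ℝ)
      rwa [tsum_shift] at this
    refine (tsum_of_norm_bounded h6 fun n => ?_).trans ?_
    · have h7 : ∑ i : Fin M, tm M p q i n y = Complex.I ^ p * (-Complex.I) ^ q * ∑ i : Fin M, (1 / (M : ℂ)) * ph k ((2 : ℝ) ^ n) y (1 + (i : ℝ) / M) := by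
        rw [Finset.mul_sum]
        exact Finset.sum_congr rfl fun i _ => tm_eq h_FQI p q k hk M hM i n y
      rw [h7, ← mul_sub, norm_mul, hI, one_mul]
      exact riem _ _ _ (fun u _ => ph_deriv k _ y u) (fun u hu => hb n l y hl u hu) M hM
    · gcongr
      linarith

end Pool.Agent.HSP
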