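import Pool.Agent.HSP.Targets2

set_option autoImplicit false

/-!
# HSP: derivatives of `V` and `b` (targets T_DTV and T_DTB)
-/

open scoped Classical ENNReal

noncomputable section

namespace Pool.Agent.HSP

namespace DTV_

theorem real_mem_S {y : ℝ} (hy : 0 < y) : (y : ℂ) ∈ S := by
  change |(y : ℂ).im| < (y : ℂ).re / 4
  rw [Complex.ofReal_im, Complex.ofReal_re, abs_zero]
  linarith

theorem norm_ex (t x : ℝ) : ‖ex t x‖ = 1 := by
  unfold ex
  rw [Complex.norm_exp_ofReal_mul_I]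

/-- Locally summable families are summable at every point. -/
theorem Cls.summable {c : Fam} (hc : Cls c) {y : ℂ} (hy : y ∈ S) (x : ℝ) :
    Summable (fun t => c t y * ex t x) := by
  obtain ⟨r, hr, hs⟩ := hc.sum {y} (by simpa using hy) isCompact_singleton
  have h1 : ∀ t, ENNReal.ofReal ‖c t y‖ ≤
      ⨆ z ∈ ({y} : Set ℂ), ENNReal.ofReal (‖c t z‖ * Real.exp (r * |t|)) := by
    intro t
    have h2 : ENNReal.ofReal (‖c t y‖ * Real.exp (r * |t|)) ≤
        ⨆ z ∈ ({y} : Set ℂ), ENNReal.ofReal (‖c t z‖ * Real.exp (r * |t|)) :=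
      le_iSup₂ (f := fun z (_ : z ∈ ({y} : Set ℂ)) =>
        ENNReal.ofReal (‖c t z‖ * Real.exp (r * |t|))) y (Set.mem_singleton y)
    refine le_trans (ENNReal.ofReal_le_ofReal ?_) h2
    have h3 : 1 ≤ Real.exp (r * |t|) := Real.one_le_exp (mul_nonneg hr.le (abs_nonneg t))
    exact le_mul_of_one_le_right (norm_nonneg _) h3
  have h4 : ∑' t, ENNReal.ofReal ‖c t y‖ < ⊤ := lt_of_le_of_lt (ENNReal.tsum_le_tsum h1) hs
  have h5 : Summable (fun t => ‖c t y‖) := by
    have := ENNReal.summable_toReal h4.ne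
    refine this.congr fun t => ?_
    rw [ENNReal.toReal_ofReal (norm_nonneg _)]
  refine Summable.of_norm ?_
  refine h5.congr fun t => ?_
  rw [norm_mul, norm_ex, mul_one]

/-- The core computation. -/
theorem core (h_CLD : T_CLD) (h_FND : T_FND) (hSo : IsOpen S) {b c : Fam} (hb : Cls b)
    (hd : ∀ (t y : ℝ), 0 < y →
      HasDerivAt (fun y : ℝ => b t y) (t * b t y + 2 * Complex.I * c t y) y)
    {z : ℂ} (hz : z ∈ Hp) (hc : Summable (fun t => c t (z.im : ℂ) * ex t z.re)) :
    HasW (fn b) (fn c z) (fn (fun t y => Complex.I * t * b t y - c t y) z) z := by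
  have hz0 : 0 < z.im := hz
  have hzS : (z.im : ℂ) ∈ S := real_mem_S hz0
  obtain ⟨L, hL, hL1, hLI⟩ := h_FND b hb z hz
  have hsb : Summable (fun t : ℝ => (t : ℂ) * b t (z.im : ℂ) * ex t z.re) := by
    have h1 := Cls.summable (h_CLD b hb).1 hzS z.re
    have h2 := h1.mul_left (-Complex.I)
    refine h2.congr fun t => ?_
    have : -Complex.I * Complex.I = 1 := by rw [neg_mul, Complex.I_mul_I, neg_neg]
    calc -Complex.I * (Complex.I * t * b t (z.im : ℂ) * ex t z.re)
        = (-Complex.I * Complex.I) * (t * b t (z.im : ℂ) * ex t z.re) := by ring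
      _ = t * b t (z.im : ℂ) * ex t z.re := by rw [this, one_mul]
  have hder : ∀ t : ℝ, deriv (b t) (z.im : ℂ) =
      t * b t (z.im : ℂ) + 2 * Complex.I * c t (z.im : ℂ) := by
    intro t
    have h1 : DifferentiableAt ℂ (b t) (z.im : ℂ) :=
      (hb.hol t).differentiableAt (hSo.mem_nhds hzS)
    have h2 := h1.hasDerivAt.comp_ofReal
    exact h2.unique (hd t z.im hz0)
  set B : ℂ := ∑' t : ℝ, (t : ℂ) * b t (z.im : ℂ) * ex t z.re with hB
  set D : ℂ := ∑' t : ℝ, c t (z.im : ℂ) * ex t z.re with hD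
  have e1 : L 1 = Complex.I * B := by
    rw [hL1, hB, ← tsum_mul_left]
    unfold fn ev
    exact tsum_congr fun t => by ring
  have e2 : L Complex.I = B + 2 * Complex.I * D := by
    rw [hLI, hB, hD, ← tsum_mul_left, ← hsb.tsum_add (hc.mul_left _)]
    unfold fn ev
    refine tsum_congr fun t => ?_
    change deriv (b t) (z.im : ℂ) * ex t z.re = _
    rw [hder t]; ring
  have e3 : fn c z = D := rfl
  have e4 : fn (fun t y => Complex.I * t * b t y - c t y) z = Complex.I * B - D := by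
    rw [hB, hD, ← tsum_mul_left, ← (hsb.mul_left _).tsum_sub hc]
    unfold fn ev
    exact tsum_congr fun t => by ring
  unfold HasW
  have hLL : L = ((fn c z) • (ContinuousLinearMap.id ℝ ℂ) : ℂ →L[ℝ] ℂ) +
      ((fn (fun t y => Complex.I * t * b t y - c t y) z) •
        (Complex.conjCLE : ℂ →L[ℝ] ℂ)) := by
    refine ContinuousLinearMap.ext fun h => ?_
    have h1 : h = h.re • (1 : ℂ) + h.im • Complex.I := by
      rw [Complex.real_smul, Complex.real_smul, mul_one, Complex.re_add_im]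
    have h2 : L h = h.re * L 1 + h.im * L Complex.I := by
      conv_lhs => rw [h1]
      rw [map_add, map_smul, map_smul, Complex.real_smul, Complex.real_smul]
    have h3 : (starRingEnd ℂ) h = h.re - h.im * Complex.I := by
      apply Complex.ext <;> simp
    have h4 : h = h.re + h.im * Complex.I := (Complex.re_add_im h).symm
    have h5 : (((fn c z) • (ContinuousLinearMap.id ℝ ℂ) : ℂ →L[ℝ] ℂ) +
        ((fn (fun t y => Complex.I * t * b t y - c t y) z) •
          (Complex.conjCLE : ℂ →L[ℝ] ℂ))) h =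
        fn c z * h + fn (fun t y => Complex.I * t * b t y - c t y) z * (starRingEnd ℂ) h := by
      simp
    rw [h5, h2, e1, e2, e3, e4, h3]
    conv_rhs => rw [h4]
    simp only [Complex.add_re, Complex.ofReal_re, Complex.mul_re, Complex.I_re, mul_zero,
      Complex.ofReal_im, Complex.I_im, mul_one, sub_self, add_zero, Complex.add_im,
      Complex.mul_im, zero_add]
    linear_combination (B * (h.im : ℂ)) * Complex.I_sq
  rw [← hLL]
  exact hL

/-- Multiplying a locally summable family by a function of the height. -/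
theorem cls_mul {c : Fam} (hc : Cls c) (g : ℂ → ℂ) (hg : DifferentiableOn ℂ g S) :
    Cls (fun t y => g y * c t y) := by
  refine ⟨fun t => hg.mul (hc.hol t), fun K hK hKc => ?_⟩
  obtain ⟨r, hr, hs⟩ := hc.sum K hK hKc
  obtain ⟨m, hm⟩ := (hKc.image_of_continuousOn (hg.continuousOn.mono hK)).isBounded.exists_norm_le
  refine ⟨r, hr, ?_⟩
  have h1 : ∀ t : ℝ, (⨆ y ∈ K, ENNReal.ofReal (‖g y * c t y‖ * Real.exp (r * |t|))) ≤
      ENNReal.ofReal (max m 0) *
        (⨆ y ∈ K, ENNReal.ofReal (‖c t y‖ * Real.exp (r * |t|))) := by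
    intro t
    refine iSup₂_le fun y hy => ?_
    have h2 : ‖g y * c t y‖ * Real.exp (r * |t|) ≤
        max m 0 * (‖c t y‖ * Real.exp (r * |t|)) := by
      rw [norm_mul, mul_assoc]
      refine mul_le_mul_of_nonneg_right ?_ (mul_nonneg (norm_nonneg _) (Real.exp_pos _).le)
      exact (hm _ (Set.mem_image_of_mem g hy)).trans (le_max_left _ _)
    refine (ENNReal.ofReal_le_ofReal h2).trans ?_
    rw [ENNReal.ofReal_mul (le_max_right _ _)]
    refine mul_le_mul_right ?_ _
    exact le_iSup₂ (f := fun y (_ : y ∈ K) =>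
      ENNReal.ofReal (‖c t y‖ * Real.exp (r * |t|))) y hy
  refine lt_of_le_of_lt (ENNReal.tsum_le_tsum h1) ?_
  rw [ENNReal.tsum_mul_left]
  exact ENNReal.mul_lt_top ENNReal.ofReal_lt_top hs

end DTV_

open DTV_

theorem p_DTV (h_OPS : T_OPS) (h_CLA : T_CLA) (h_CLD : T_CLD) (h_FND : T_FND) (h_ODV : T_ODV)
    (h_PTW : T_PTW) : T_DTV := by
  intro a ha z hz
  obtain ⟨C, -, hC⟩ := h_OPS
  have hT1 : Cls (T1 a) := h_CLA _ (hC a ha).1
  have hSo : IsOpen S := h_PTW.2.2.2.1
  have hne : ∀ y ∈ S, y ≠ 0 := by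
    intro y hy h0
    have := (h_PTW.2.1 y hy).1
    rw [h0, Complex.zero_re] at this
    exact lt_irrefl _ this
  have hinv : DifferentiableOn ℂ (fun y : ℂ => y⁻¹) S := fun y hy =>
    (differentiableAt_inv (hne y hy)).differentiableWithinAt
  have hb : Cls (fun t y => y⁻¹ * T1 a t y) := cls_mul hT1 _ hinv
  have hz0 : 0 < z.im := hz
  have hzS : (z.im : ℂ) ∈ S := real_mem_S hz0
  have hca : Summable (fun t => a t (z.im : ℂ) * ex t z.re) :=
    Cls.summable (h_CLA a ha) hzS z.re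
  have hc : Summable (fun t => (fun (t : ℝ) (y : ℂ) => y⁻¹ ^ 2 * a t y) t (z.im : ℂ) *
      ex t z.re) := by
    refine (hca.mul_left ((z.im : ℂ)⁻¹ ^ 2)).congr fun t => ?_
    ring
  have key := core (b := fun t y => y⁻¹ * T1 a t y) (c := fun t y => y⁻¹ ^ 2 * a t y)
    h_CLD h_FND hSo hb (fun t y hy => h_ODV a ha t y hy) hz hc
  have f1 : (fun z : ℂ => (z.im : ℂ)⁻¹ * fn (T1 a) z) = fn (fun t y => y⁻¹ * T1 a t y) := by
    funext w
    unfold fn ev
    rw [← tsum_mul_left]
    exact tsum_congr fun t => by ring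
  have f2 : (z.im : ℂ)⁻¹ ^ 2 * fn a z = fn (fun t y => y⁻¹ ^ 2 * a t y) z := by
    unfold fn ev
    rw [← tsum_mul_left]
    exact tsum_congr fun t => by ring
  have f3 : (z.im : ℂ)⁻¹ ^ 2 * fn (T2 a) z =
      fn (fun t y => Complex.I * t * (y⁻¹ * T1 a t y) - y⁻¹ ^ 2 * a t y) z := by
    unfold fn ev
    rw [← tsum_mul_left]
    refine tsum_congr fun t => ?_
    have h0 : (z.im : ℂ) ≠ 0 := hne _ hzS
    have h1 : (z.im : ℂ)⁻¹ * (z.im : ℂ) = 1 := inv_mul_cancel₀ h0
    unfold T2
    linear_combination (Complex.I * t * T1 a t (z.im : ℂ) * (z.im : ℂ)⁻¹ * ex t z.re) * h1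
  rw [f1, f2, f3]
  exact key

theorem p_DTB (h_OPS : T_OPS) (h_CLA : T_CLA) (h_CLD : T_CLD) (h_FND : T_FND) (h_ODB : T_ODB)
    (h_PTW : T_PTW) : T_DTB := by
  intro k hk z hz
  obtain ⟨C, -, hC⟩ := h_OPS
  have hB : Cls (Bq k) := h_CLA _ (hC k hk).2.2.2.1
  have hSo : IsOpen S := h_PTW.2.2.2.1
  have hb : Cls (fun t y => y * Bq k t y) := cls_mul hB (fun y => y) differentiableOn_id
  have hz0 : 0 < z.im := hz
  have hzS : (z.im : ℂ) ∈ S := real_mem_S hz0
  have hc : Summable (fun t => kap k t (z.im : ℂ) * ex t z.re) :=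
    Cls.summable (h_CLA _ (hC k hk).2.2.1) hzS z.re
  have key := core (b := fun t y => y * Bq k t y) (c := kap k)
    h_CLD h_FND hSo hb (fun t y hy => h_ODB k hk t y hy) hz hc
  have f1 : (fun z : ℂ => (z.im : ℂ) * fn (Bq k) z) = fn (fun t y => y * Bq k t y) := by
    funext w
    unfold fn ev
    rw [← tsum_mul_left]
    exact tsum_congr fun t => by ring
  have f3 : fn (Mq k) z = fn (fun t y => Complex.I * t * (y * Bq k t y) - kap k t y) z := by
    unfold fn ev
    refine tsum_congr fun t => ?_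
    unfold Mq
    ring
  rw [f1, f3]
  exact key

end Pool.Agent.HSP
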