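import Pool.Agent.HSP.Targets2
import Pool.Agent.HSP.P_DTV

set_option autoImplicit false

/-!
# HSP: derivatives of the base curve (target T_DTF)
-/

open scoped Classical ENNReal

noncomputable section

namespace Pool.Agent.HSP

namespace DTF_

/-- The mode of the base curve, divided by `y ^ p`. -/
theorem base_eq {J M p : ℕ} (r : Fin J × Fin M) (t : ℝ) {y : ℂ} (hy : y ∈ S) (hy0 : y ≠ 0) :
    y⁻¹ ^ p * Fb J M p r t y =
      if ∃ n : ℤ, t = fq M r.2 (r.1 + J * n) then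
        cf M r.2 * (Complex.I * t) ^ p * Complex.exp (-(t * y)) else 0 := by
  unfold Fb
  by_cases h : ∃ n : ℤ, t = fq M r.2 (r.1 + J * n)
  · rw [if_pos ⟨hy, h⟩, if_pos h]
    have h1 : y⁻¹ ^ p * y ^ p = 1 := by
      rw [← mul_pow, inv_mul_cancel₀ hy0, one_pow]
    rw [mul_pow (Complex.I * t) y p]
    linear_combination (cf M r.2 * (Complex.I * t) ^ p * Complex.exp (-(t * y))) * h1
  · rw [if_neg (fun h' => h h'.2), if_neg h, mul_zero]

/-- The next mode. -/
theorem base_succ {J M p : ℕ} (r : Fin J × Fin M) (t : ℝ) {y : ℂ} (hy0 : y ≠ 0) :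
    Complex.I * t * (y⁻¹ ^ p * Fb J M p r t y) = y⁻¹ ^ (p + 1) * Fb J M (p + 1) r t y := by
  unfold Fb
  by_cases h : y ∈ S ∧ ∃ n : ℤ, t = fq M r.2 (r.1 + J * n)
  · rw [if_pos h, if_pos h]
    have h1 : y⁻¹ * y = 1 := inv_mul_cancel₀ hy0
    rw [pow_succ y⁻¹ p, pow_succ (Complex.I * t * y) p]
    linear_combination (-(y⁻¹ ^ p * (cf M r.2 * (Complex.I * t * y) ^ p *
      Complex.exp (-(t * y))) * (Complex.I * t))) * h1
  · rw [if_neg h, if_neg h, mul_zero, mul_zero, mul_zero]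

end DTF_

open DTV_ DTF_

theorem p_DTF (h_FBA : T_FBA) (h_CLA : T_CLA) (h_CLD : T_CLD) (h_FND : T_FND) (h_PTW : T_PTW) :
    T_DTF := by
  intro J M p hJ hM hp hp2 r z hz
  obtain ⟨⟨C, -, hC⟩, -⟩ := h_FBA
  have hF : Cls (Fb J M p r) := h_CLA _ ((hC J M p hJ hM hp (by omega)).1 r)
  have hSo : IsOpen S := h_PTW.2.2.2.1
  have hne : ∀ y ∈ S, y ≠ 0 := by
    intro y hy h0
    have := (h_PTW.2.1 y hy).1
    rw [h0, Complex.zero_re] at this
    exact lt_irrefl _ this
  have hinv : DifferentiableOn ℂ (fun y : ℂ => y⁻¹ ^ p) S := fun y hy =>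
    ((differentiableAt_inv (hne y hy)).pow p).differentiableWithinAt
  have hb : Cls (fun t y => y⁻¹ ^ p * Fb J M p r t y) := cls_mul hF _ hinv
  have hz0 : 0 < z.im := hz
  have hzS : (z.im : ℂ) ∈ S := real_mem_S hz0
  have hzne : (z.im : ℂ) ≠ 0 := hne _ hzS
  have hc : Summable (fun t => (fun (t : ℝ) (y : ℂ) =>
      Complex.I * t * (y⁻¹ ^ p * Fb J M p r t y)) t (z.im : ℂ) * ex t z.re) :=
    Cls.summable (h_CLD _ hb).1 hzS z.re
  have hd : ∀ (t y : ℝ), 0 < y → HasDerivAt (fun y : ℝ => (y : ℂ)⁻¹ ^ p * Fb J M p r t y)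
      (t * ((y : ℂ)⁻¹ ^ p * Fb J M p r t y) +
        2 * Complex.I * (Complex.I * t * ((y : ℂ)⁻¹ ^ p * Fb J M p r t y))) y := by
    intro t y hy
    have e1 : ∀ᶠ s : ℝ in nhds y, (s : ℂ)⁻¹ ^ p * Fb J M p r t s =
        if ∃ n : ℤ, t = fq M r.2 (r.1 + J * n) then
          cf M r.2 * (Complex.I * t) ^ p * Complex.exp (-(t * s)) else 0 := by
      filter_upwards [lt_mem_nhds hy] with s hs
      exact base_eq r t (real_mem_S hs) (hne _ (real_mem_S hs))
    rw [base_eq r t (real_mem_S hy) (hne _ (real_mem_S hy))]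
    refine HasDerivAt.congr_of_eventuallyEq ?_ e1
    by_cases h : ∃ n : ℤ, t = fq M r.2 (r.1 + J * n)
    · simp only [if_pos h]
      have h1 : HasDerivAt (fun s : ℝ => ((t * s : ℝ) : ℂ)) (t : ℂ) y := by
        have h2 : HasDerivAt (fun s : ℝ => t * s) t y := by
          simpa using (hasDerivAt_id y).const_mul t
        exact h2.ofReal_comp
      have h3 : HasDerivAt (fun s : ℝ => -((t : ℂ) * (s : ℂ))) (-(t : ℂ)) y := by
        have h4 := h1.neg
        refine h4.congr_of_eventuallyEq (Filter.Eventually.of_forall fun s => ?_)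
        simp
      have h5 := (h3.cexp).const_mul (cf M r.2 * (Complex.I * t) ^ p : ℂ)
      refine h5.congr_deriv ?_
      linear_combination (-(2 * (cf M r.2 * (Complex.I * t) ^ p *
        Complex.exp (-(t * y))) * t)) * Complex.I_sq
    · simp only [if_neg h, mul_zero, add_zero]
      exact hasDerivAt_const y (0 : ℂ)
  have key := core (b := fun t y => y⁻¹ ^ p * Fb J M p r t y)
    (c := fun t y => Complex.I * t * (y⁻¹ ^ p * Fb J M p r t y))
    h_CLD h_FND hSo hb hd hz hc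
  have f1 : (fun z : ℂ => (z.im : ℂ)⁻¹ ^ p * fn (Fb J M p r) z) =
      fn (fun t y => y⁻¹ ^ p * Fb J M p r t y) := by
    funext w
    unfold fn ev
    rw [← tsum_mul_left]
    exact tsum_congr fun t => by ring
  have f2 : (z.im : ℂ)⁻¹ ^ (p + 1) * fn (Fb J M (p + 1) r) z =
      fn (fun t y => Complex.I * t * (y⁻¹ ^ p * Fb J M p r t y)) z := by
    unfold fn ev
    rw [← tsum_mul_left]
    refine tsum_congr fun t => ?_
    change _ = (Complex.I * t * ((z.im : ℂ)⁻¹ ^ p * Fb J M p r t z.im)) * ex t z.re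
    rw [base_succ r t hzne]
    ring
  have f3 : fn (fun t y => Complex.I * t * (y⁻¹ ^ p * Fb J M p r t y) -
      Complex.I * t * (y⁻¹ ^ p * Fb J M p r t y)) z = 0 := by
    unfold fn ev
    simp
  rw [f1, f2]
  have key2 : HasW (fn fun t y => y⁻¹ ^ p * Fb J M p r t y)
      (fn (fun t y => Complex.I * t * (y⁻¹ ^ p * Fb J M p r t y)) z)
      (fn (fun t y => Complex.I * t * (y⁻¹ ^ p * Fb J M p r t y) -
        Complex.I * t * (y⁻¹ ^ p * Fb J M p r t y)) z) z := key
  rw [f3] at key2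
  exact key2

end Pool.Agent.HSP
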