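import Pool.Agent.HSP.Targets2

/-!
# HSP: the base vectors (FBA)
-/

set_option autoImplicit false

open scoped Classical ENNReal

noncomputable section

namespace Pool.Agent.HSP

/-- The weight `2^(-|a|)`. -/
def FBA_G (a : ℤ) : ℝ≥0∞ := ENNReal.ofReal ((2 : ℝ) ^ (-|a|))

theorem FBA_zpow (a : ℤ) : (2 : ℝ) ^ (-|a|) = (1 / 2 : ℝ) ^ a.natAbs := by
  rw [Int.abs_eq_natAbs, zpow_neg, zpow_natCast, one_div, inv_pow]

theorem FBA_K : ∃ K : ℝ, 0 < K ∧ ∑' a, FBA_G a ≤ ENNReal.ofReal K := by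
  have hs : Summable (fun a : ℤ => (1 / 2 : ℝ) ^ a.natAbs) := by
    apply Summable.of_nat_of_neg
    · simpa using summable_geometric_of_lt_one (by norm_num : (0 : ℝ) ≤ 1 / 2) (by norm_num)
    · simpa using summable_geometric_of_lt_one (by norm_num : (0 : ℝ) ≤ 1 / 2) (by norm_num)
  refine ⟨∑' a : ℤ, (1 / 2 : ℝ) ^ a.natAbs, ?_, ?_⟩
  · exact hs.tsum_pos (fun a => by positivity) 0 (by positivity)
  · unfold FBA_G
    simp only [FBA_zpow]
    rw [ENNReal.ofReal_tsum_of_nonneg (fun a => by positivity) hs]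

theorem FBA_inj (J : ℕ) (hJ : 1 ≤ J) (l : ℤ) :
    Function.Injective (fun z : Fin J × ℤ => ((z.1 : ℕ) : ℤ) + (J : ℤ) * z.2 + l) := by
  rintro ⟨j, n⟩ ⟨j', n'⟩ h
  simp only at h
  have hJ' : (0 : ℤ) < (J : ℤ) := by exact_mod_cast hJ
  have h0 : ((j : ℕ) : ℤ) + (J : ℤ) * n = ((j' : ℕ) : ℤ) + (J : ℤ) * n' := by linarith
  have h1 : (((j : ℕ) : ℤ) + (J : ℤ) * n) % (J : ℤ) = ((j : ℕ) : ℤ) := by
    rw [Int.add_mul_emod_self_left]
    exact Int.emod_eq_of_lt (by positivity) (by exact_mod_cast j.isLt)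
  have h2 : (((j' : ℕ) : ℤ) + (J : ℤ) * n') % (J : ℤ) = ((j' : ℕ) : ℤ) := by
    rw [Int.add_mul_emod_self_left]
    exact Int.emod_eq_of_lt (by positivity) (by exact_mod_cast j'.isLt)
  have h3 : ((j : ℕ) : ℤ) = ((j' : ℕ) : ℤ) := by rw [← h1, ← h2, h0]
  have h4 : (j : ℕ) = (j' : ℕ) := by exact_mod_cast h3
  have h5 : (J : ℤ) * n = (J : ℤ) * n' := by linarith
  have h6 : n = n' := mul_left_cancel₀ hJ'.ne' h5
  rw [Fin.ext h4, h6]

theorem FBA_sum (J : ℕ) (hJ : 1 ≤ J) (l : ℤ) :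
    ∑ j : Fin J, ∑' n : ℤ, FBA_G (((j : ℕ) : ℤ) + (J : ℤ) * n + l) ≤ ∑' a, FBA_G a := by
  have h := ENNReal.tsum_comp_le_tsum_of_injective (FBA_inj J hJ l) FBA_G
  rw [ENNReal.tsum_prod', tsum_fintype] at h
  exact h

theorem FBA_sum1 (J : ℕ) (hJ : 1 ≤ J) (l : ℤ) (j : Fin J) :
    ∑' n : ℤ, FBA_G (((j : ℕ) : ℤ) + (J : ℤ) * n + l) ≤ ∑' a, FBA_G a :=
  (Finset.single_le_sum (f := fun j : Fin J =>
    ∑' n : ℤ, FBA_G (((j : ℕ) : ℤ) + (J : ℤ) * n + l)) (fun _ _ => zero_le)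
    (Finset.mem_univ j)).trans (FBA_sum J hJ l)

theorem FBA_sq {ι : Type} (s : Finset ι) (x : ι → ℝ≥0∞) :
    ∑ j ∈ s, x j ^ 2 ≤ (∑ j ∈ s, x j) ^ 2 := by
  rw [sq (∑ j ∈ s, x j), Finset.sum_mul]
  refine Finset.sum_le_sum fun j hj => ?_
  rw [sq]
  exact mul_le_mul_right (Finset.single_le_sum (fun _ _ => zero_le) hj) _

/-- The frequencies. -/
def FBA_al (J M : ℕ) (r : Fin J × Fin M) : ℤ → ℝ := fun n => fq M r.2 (r.1 + J * n)

/-- The modes. -/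
def FBA_f (J M p : ℕ) (r : Fin J × Fin M) : ℤ → ℂ → ℂ := fun n y =>
  (cf M r.2 : ℂ) * (Complex.I * fq M r.2 (r.1 + J * n) * y) ^ p *
    Complex.exp (-(fq M r.2 (r.1 + J * n) * y))

theorem FBA_al_inj (hF : T_FQI) (J M : ℕ) (hJ : 1 ≤ J) (hM : 1 ≤ M) (r : Fin J × Fin M) :
    Function.Injective (FBA_al J M r) := by
  intro n n' h
  have h1 := (hF M hM).2.1 r.2 h
  have hJ' : (0 : ℤ) < (J : ℤ) := by exact_mod_cast hJ
  have h5 : (J : ℤ) * n = (J : ℤ) * n' := by linarith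
  exact mul_left_cancel₀ hJ'.ne' h5

theorem FBA_val (J M p : ℕ) (r : Fin J × Fin M) (n : ℤ) {y : ℂ} (hy : y ∈ S) :
    Fb J M p r (FBA_al J M r n) y = FBA_f J M p r n y := by
  unfold Fb
  rw [if_pos ⟨hy, n, rfl⟩]
  rfl

theorem FBA_ser (hF : T_FQI) (J M p : ℕ) (hJ : 1 ≤ J) (hM : 1 ≤ M) (r : Fin J × Fin M) :
    Fb J M p r = ser (FBA_al J M r) (FBA_f J M p r) := by
  funext t y
  unfold ser
  by_cases hy : y ∈ S
  · rw [if_pos hy]
    by_cases ht : ∃ n : ℤ, t = fq M r.2 (r.1 + J * n)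
    · obtain ⟨n, hn⟩ := ht
      have hn' : t = FBA_al J M r n := hn
      rw [tsum_eq_single n]
      · rw [if_pos hn', hn', FBA_val J M p r n hy]
      · intro n' hne
        rw [if_neg]
        intro h
        exact hne (FBA_al_inj hF J M hJ hM r (h.symm.trans hn'))
    · have h0 : ∀ n, (if t = FBA_al J M r n then FBA_f J M p r n y else 0) = 0 := by
        intro n
        rw [if_neg]
        intro h
        exact ht ⟨n, h⟩
      simp only [h0, tsum_zero]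
      unfold Fb
      rw [if_neg]
      rintro ⟨-, h⟩
      exact ht h
  · rw [if_neg hy]
    unfold Fb
    rw [if_neg]
    rintro ⟨h, -⟩
    exact hy h

theorem FBA_term (hF : T_FQI) (p : ℕ) (C : ℝ) (hC : ∀ (M : ℕ) (i : Fin M) (n l : ℤ), ∀ y ∈ W l,
    ‖((fq M i n : ℂ) * y) ^ p * Complex.exp (-(fq M i n * y))‖ *
    Real.exp (fq M i n * ‖y‖ / 2) ≤ C * (2 : ℝ) ^ (-|n + l|)) (J M : ℕ) (hM : 1 ≤ M)
    (r : Fin J × Fin M) (n l : ℤ) {y : ℂ} (hy : y ∈ W l) :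
    ‖FBA_f J M p r n y‖ * Real.exp (|FBA_al J M r n| * ‖y‖ / 2) ≤
      cf M r.2 * C * (2 : ℝ) ^ (-|((r.1 : ℕ) : ℤ) + (J : ℤ) * n + l|) := by
  have hpos : 0 < fq M r.2 (r.1 + J * n) :=
    lt_of_lt_of_le (by positivity) ((hF M hM).1 r.2 (r.1 + J * n)).1
  have hcf := ((hF M hM).2.2.1 r.2).1
  have h1 := hC M r.2 (r.1 + J * n) l y hy
  have e1 : ‖FBA_f J M p r n y‖ = cf M r.2 * ‖((fq M r.2 (r.1 + J * n) : ℂ) * y) ^ p *
      Complex.exp (-(fq M r.2 (r.1 + J * n) * y))‖ := by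
    unfold FBA_f
    simp only [norm_mul, norm_pow, Complex.norm_I, Complex.norm_real, one_mul]
    rw [Real.norm_of_nonneg hcf.le]
    ring
  unfold FBA_al
  rw [e1, abs_of_pos hpos, mul_assoc, mul_assoc]
  exact mul_le_mul_of_nonneg_left h1 hcf.le

theorem FBA_sup (hF : T_FQI) (p : ℕ) (C : ℝ) (hC0 : 0 < C) (hC : ∀ (M : ℕ) (i : Fin M) (n l : ℤ),
    ∀ y ∈ W l, ‖((fq M i n : ℂ) * y) ^ p * Complex.exp (-(fq M i n * y))‖ *
    Real.exp (fq M i n * ‖y‖ / 2) ≤ C * (2 : ℝ) ^ (-|n + l|)) (J M : ℕ) (hM : 1 ≤ M)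
    (r : Fin J × Fin M) (n l : ℤ) :
    (⨆ y ∈ W l, ENNReal.ofReal (‖FBA_f J M p r n y‖ *
      Real.exp (|FBA_al J M r n| * ‖y‖ / 2))) ≤
      ENNReal.ofReal (cf M r.2 * C) * FBA_G (((r.1 : ℕ) : ℤ) + (J : ℤ) * n + l) := by
  have hcf := ((hF M hM).2.2.1 r.2).1
  apply iSup₂_le
  intro y hy
  unfold FBA_G
  rw [← ENNReal.ofReal_mul (by positivity)]
  exact ENNReal.ofReal_le_ofReal (FBA_term hF p C hC J M hM r n l hy)

theorem FBA_main (hS : T_SER) (hW : T_WIN) (hF : T_FQI) (J M p : ℕ) (hJ : 1 ≤ J) (hM : 1 ≤ M)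
    (hp : 1 ≤ p) (r : Fin J × Fin M) :
    Adm (Fb J M p r) ∧ (∀ y ∈ S, Summable (fun n => ‖FBA_f J M p r n y‖)) ∧
    ∀ x : ℝ, ∀ y ∈ S, ev (Fb J M p r) x y =
      ∑' n, FBA_f J M p r n y * ex (FBA_al J M r n) x := by
  obtain ⟨C, hC0, hC⟩ := hW p hp
  obtain ⟨K, hK, hKs⟩ := FBA_K
  have hcf := ((hF M hM).2.2.1 r.2).1
  have hd : ∀ n, DifferentiableOn ℂ (FBA_f J M p r n) S := by
    intro n
    apply Differentiable.differentiableOn
    unfold FBA_f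
    fun_prop
  have hb : ∀ l, ∑' n, (⨆ y ∈ W l, ENNReal.ofReal (‖FBA_f J M p r n y‖ *
      Real.exp (|FBA_al J M r n| * ‖y‖ / 2))) ≤ ENNReal.ofReal (cf M r.2 * C * K) := by
    intro l
    calc _ ≤ ∑' n, ENNReal.ofReal (cf M r.2 * C) *
          FBA_G (((r.1 : ℕ) : ℤ) + (J : ℤ) * n + l) :=
          ENNReal.tsum_le_tsum fun n => FBA_sup hF p C hC0 hC J M hM r n l
      _ = ENNReal.ofReal (cf M r.2 * C) *
          ∑' n, FBA_G (((r.1 : ℕ) : ℤ) + (J : ℤ) * n + l) := ENNReal.tsum_mul_left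
      _ ≤ ENNReal.ofReal (cf M r.2 * C) * ENNReal.ofReal K := by
          gcongr
          exact (FBA_sum1 J hJ l r.1).trans hKs
      _ = ENNReal.ofReal (cf M r.2 * C * K) := by
          rw [← ENNReal.ofReal_mul (by positivity)]
  obtain ⟨k1, -, k3, k4⟩ := hS ℤ (FBA_al J M r) (FBA_f J M p r) _ hd hb
  rw [FBA_ser hF J M p hJ hM r]
  exact ⟨k1, k3, k4⟩

theorem FBA_N (hF : T_FQI) (p : ℕ) (C : ℝ) (hC0 : 0 < C) (hC : ∀ (M : ℕ) (i : Fin M) (n l : ℤ),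
    ∀ y ∈ W l, ‖((fq M i n : ℂ) * y) ^ p * Complex.exp (-(fq M i n * y))‖ *
    Real.exp (fq M i n * ‖y‖ / 2) ≤ C * (2 : ℝ) ^ (-|n + l|)) (J M : ℕ) (hJ : 1 ≤ J) (hM : 1 ≤ M)
    (r : Fin J × Fin M) (l : ℤ) :
    N l (Fb J M p r) ≤ ENNReal.ofReal (cf M r.2 * C) *
      ∑' n : ℤ, FBA_G (((r.1 : ℕ) : ℤ) + (J : ℤ) * n + l) := by
  unfold N
  have hsupp : Function.support (fun t => A l (Fb J M p r) t) ⊆ Set.range (FBA_al J M r) := by
    intro t ht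
    by_contra hcon
    apply ht
    show A l (Fb J M p r) t = 0
    unfold A
    have h0 : ∀ y, Fb J M p r t y = 0 := by
      intro y
      unfold Fb
      rw [if_neg]
      rintro ⟨-, n, hn⟩
      exact hcon ⟨n, hn.symm⟩
    simp [h0]
  rw [← (FBA_al_inj hF J M hJ hM r).tsum_eq hsupp, ← ENNReal.tsum_mul_left]
  refine ENNReal.tsum_le_tsum fun n => ?_
  refine le_trans (le_of_eq ?_) (FBA_sup hF p C hC0 hC J M hM r n l)
  unfold A
  refine iSup_congr fun y => iSup_congr fun hy => ?_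
  rw [FBA_val J M p r n hy.1]

theorem FBA_NV (hF : T_FQI) (p : ℕ) (C K : ℝ) (hC0 : 0 < C) (hK : 0 < K)
    (hKs : ∑' a, FBA_G a ≤ ENNReal.ofReal K) (hC : ∀ (M : ℕ) (i : Fin M) (n l : ℤ),
    ∀ y ∈ W l, ‖((fq M i n : ℂ) * y) ^ p * Complex.exp (-(fq M i n * y))‖ *
    Real.exp (fq M i n * ‖y‖ / 2) ≤ C * (2 : ℝ) ^ (-|n + l|)) (J M : ℕ) (hJ : 1 ≤ J)
    (hM : 1 ≤ M) : NV (Fb J M p) ≤ ENNReal.ofReal (2 * C * K) := by
  unfold NV
  apply iSup_le
  intro l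
  have h1 : ∑ r : Fin J × Fin M, (N l (Fb J M p r)) ^ 2 ≤ (ENNReal.ofReal (2 * C * K)) ^ 2 := by
    calc ∑ r : Fin J × Fin M, (N l (Fb J M p r)) ^ 2
        ≤ ∑ r : Fin J × Fin M, (ENNReal.ofReal (cf M r.2 * C) *
          ∑' n : ℤ, FBA_G (((r.1 : ℕ) : ℤ) + (J : ℤ) * n + l)) ^ 2 := by
          refine Finset.sum_le_sum fun r _ => ?_
          gcongr
          exact FBA_N hF p C hC0 hC J M hJ hM r l
      _ = ∑ r : Fin J × Fin M, (∑' n : ℤ, FBA_G (((r.1 : ℕ) : ℤ) + (J : ℤ) * n + l)) ^ 2 *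
          (ENNReal.ofReal (cf M r.2 * C)) ^ 2 := by
          refine Finset.sum_congr rfl fun r _ => ?_
          ring
      _ = (∑ j : Fin J, (∑' n : ℤ, FBA_G (((j : ℕ) : ℤ) + (J : ℤ) * n + l)) ^ 2) *
          (∑ i : Fin M, (ENNReal.ofReal (cf M i * C)) ^ 2) := by
          rw [Finset.sum_mul_sum, Fintype.sum_prod_type]
      _ ≤ (ENNReal.ofReal K) ^ 2 * ENNReal.ofReal (4 * C ^ 2) := by
          gcongr
          · refine (FBA_sq _ _).trans ?_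
            gcongr
            exact (FBA_sum J hJ l).trans hKs
          · have e1 : ∀ i : Fin M, (ENNReal.ofReal (cf M i * C)) ^ 2 =
                ENNReal.ofReal (cf M i ^ 2 * C ^ 2) := by
              intro i
              have := ((hF M hM).2.2.1 i).1
              rw [← ENNReal.ofReal_pow (by positivity), mul_pow]
            simp only [e1]
            rw [← ENNReal.ofReal_sum_of_nonneg (fun m _ => by positivity), ← Finset.sum_mul]
            apply ENNReal.ofReal_le_ofReal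
            exact mul_le_mul_of_nonneg_right (hF M hM).2.2.2 (by positivity)
      _ = (ENNReal.ofReal (2 * C * K)) ^ 2 := by
          rw [← ENNReal.ofReal_pow hK.le, ← ENNReal.ofReal_mul (by positivity),
            ← ENNReal.ofReal_pow (by positivity)]
          congr 1
          ring
  calc (∑ r : Fin J × Fin M, (N l (Fb J M p r)) ^ 2) ^ (1 / 2 : ℝ)
      ≤ ((ENNReal.ofReal (2 * C * K)) ^ 2) ^ (1 / 2 : ℝ) := by gcongr
    _ = ENNReal.ofReal (2 * C * K) := by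
        rw [← ENNReal.rpow_natCast, ← ENNReal.rpow_mul]
        norm_num

theorem p_FBA (hS : T_SER) (hW : T_WIN) (hF : T_FQI) : T_FBA := by
  constructor
  · obtain ⟨C1, h10, h1⟩ := hW 1 (by norm_num)
    obtain ⟨C2, h20, h2⟩ := hW 2 (by norm_num)
    obtain ⟨C3, h30, h3⟩ := hW 3 (by norm_num)
    obtain ⟨K, hK, hKs⟩ := FBA_K
    refine ⟨2 * (C1 + C2 + C3) * K + 1, ?_, ?_⟩
    · have : 0 < 2 * (C1 + C2 + C3) * K := by positivity
      linarith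
    · intro J M p hJ hM hp hp3
      refine ⟨fun r => (FBA_main hS hW hF J M p hJ hM hp r).1, ?_⟩
      have hle : ∀ C, 0 < C → C ≤ C1 + C2 + C3 →
          ENNReal.ofReal (2 * C * K) ≤ ENNReal.ofReal (2 * (C1 + C2 + C3) * K + 1) := by
        intro C hC hC'
        apply ENNReal.ofReal_le_ofReal
        have : 2 * C * K ≤ 2 * (C1 + C2 + C3) * K := by gcongr
        linarith
      interval_cases p
      · exact (FBA_NV hF 1 C1 K h10 hK hKs h1 J M hJ hM).trans (hle C1 h10 (by linarith))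
      · exact (FBA_NV hF 2 C2 K h20 hK hKs h2 J M hJ hM).trans (hle C2 h20 (by linarith))
      · exact (FBA_NV hF 3 C3 K h30 hK hKs h3 J M hJ hM).trans (hle C3 h30 (by linarith))
  · intro J M p hJ hM hp r x y hy
    obtain ⟨-, h2, h3⟩ := FBA_main hS hW hF J M p hJ hM hp r
    exact ⟨h2 y hy, h3 x y hy⟩

end Pool.Agent.HSP
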