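import Pool.Agent.HSP.Targets3

set_option autoImplicit false

/-!
# HSP: the fixed point
-/

open scoped Classical ENNReal

noncomputable section

namespace Pool.Agent.HSP

namespace FIX_

section
variable {C : ℝ} {R E : Type} [NormedCommRing R] [StarRing R] [NormedAddCommGroup E] [Module R E]

/-- The map of the contraction. -/
def Fm (s : Sys C R E) (p : R × E) : R × E :=
  (p.1 - 16 * s.ps p.1 (s.nx p.1 p.2), s.nx p.1 p.2)

/-- The domain of the contraction. -/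
def Dm (R E : Type) [NormedCommRing R] [StarRing R] [NormedAddCommGroup E] (ρ : ℝ) :
    Set (R × E) := {p | star p.1 = p.1 ∧ ‖p.1‖ ≤ ρ ∧ ‖p.2‖ ≤ ρ}

lemma star_cont (s : Sys C R E) : Continuous (fun a : R => star a) := by
  apply LipschitzWith.continuous (K := 1)
  apply LipschitzWith.of_dist_le_mul
  intro a b
  rw [dist_eq_norm, dist_eq_norm, ← star_sub, s.norm_star]
  simp

lemma closed_Dm (s : Sys C R E) (ρ : ℝ) : IsClosed (Dm R E ρ) := by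
  unfold Dm
  have h1 : IsClosed {p : R × E | star p.1 = p.1} :=
    isClosed_eq ((star_cont s).comp continuous_fst) continuous_fst
  have h2 : IsClosed {p : R × E | ‖p.1‖ ≤ ρ} :=
    isClosed_le (continuous_norm.comp continuous_fst) continuous_const
  have h3 : IsClosed {p : R × E | ‖p.2‖ ≤ ρ} :=
    isClosed_le (continuous_norm.comp continuous_snd) continuous_const
  exact h1.inter (h2.inter h3)

lemma star_ps (hREA : T_REA) (s : Sys C R E) (k : R) (ψ : E) : star (s.ps k ψ) = s.ps k ψ := by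
  unfold Sys.ps
  exact hREA R E s.hf s.ip _ _ _ _ _ s.two_hf s.star_ip

lemma of16 (s : Sys C R E) (x : R) (h : 16 * x = 0) : x = 0 := by
  have h1 : (16 : R) * s.hf ^ 4 = 1 := by
    have : (16 : R) * s.hf ^ 4 = (2 * s.hf) ^ 4 := by ring
    rw [this, s.two_hf, one_pow]
  calc x = ((16 : R) * s.hf ^ 4) * x := by rw [h1, one_mul]
    _ = s.hf ^ 4 * (16 * x) := by ring
    _ = 0 := by rw [h, mul_zero]

end

end FIX_

open FIX_ in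
theorem p_FIX (hREA : T_REA) (hNXT : T_NXT) (hLIP : T_LIP) : T_FIX := by
  intro C hC η hη
  obtain ⟨K1, hK1, hN⟩ := hNXT C hC
  obtain ⟨K2, hK2, hL⟩ := hLIP C hC
  obtain ⟨K, hK, hKK1, hKK2⟩ : ∃ K : ℝ, 1 ≤ K ∧ K1 ≤ K ∧ K2 ≤ K :=
    ⟨max K1 K2, le_max_of_le_left hK1, le_max_left _ _, le_max_right _ _⟩
  have hKpos : 0 < K := by linarith
  obtain ⟨ρ, hρ0, hρ1, hρη, hKρ⟩ : ∃ ρ : ℝ, 0 < ρ ∧ ρ ≤ 1 ∧ ρ ≤ η ∧ K * ρ ≤ 1 / 16 := by
    refine ⟨min η (1 / (16 * K)), by positivity, ?_, min_le_left _ _, ?_⟩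
    · refine (min_le_right _ _).trans ?_
      rw [div_le_one (by positivity)]
      linarith
    · calc K * min η (1 / (16 * K)) ≤ K * (1 / (16 * K)) :=
            mul_le_mul_of_nonneg_left (min_le_right _ _) hKpos.le
        _ = 1 / 16 := by field_simp
  obtain ⟨ε, hε0, hε1, hKε⟩ : ∃ ε : ℝ, 0 < ε ∧ ε ≤ 1 ∧ K * ε ≤ ρ / 16 := by
    refine ⟨min 1 (ρ / (16 * K)), by positivity, min_le_left _ _, ?_⟩
    calc K * min 1 (ρ / (16 * K)) ≤ K * (ρ / (16 * K)) :=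
          mul_le_mul_of_nonneg_left (min_le_right _ _) hKpos.le
      _ = ρ / 16 := by field_simp
  refine ⟨ε, hε0, ?_⟩
  intro R E _ _ _ _ _ _ s hG
  -- the estimates with the common constant
  have hN1 : ∀ (k : R) (ψ : E), ‖k‖ ≤ ρ → ‖ψ‖ ≤ ρ → ‖s.nx k ψ‖ ≤ ρ := by
    intro k ψ hk hψ
    have h := (hN R E s ρ hρ0.le hρ1 k k ψ ψ hk hk hψ hψ).1
    calc ‖s.nx k ψ‖ ≤ K1 * ρ * ρ := h
      _ ≤ K * ρ * ρ := by gcongr
      _ ≤ 1 / 16 * ρ := by gcongr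
      _ ≤ ρ := by linarith
  have hN2 : ∀ (k k' : R) (ψ ψ' : E), ‖k‖ ≤ ρ → ‖k'‖ ≤ ρ → ‖ψ‖ ≤ ρ → ‖ψ'‖ ≤ ρ →
      ‖s.nx k ψ - s.nx k' ψ'‖ ≤ 1 / 16 * (‖k - k'‖ + ‖ψ - ψ'‖) := by
    intro k k' ψ ψ' hk hk' hψ hψ'
    have h := (hN R E s ρ hρ0.le hρ1 k k' ψ ψ' hk hk' hψ hψ').2
    calc ‖s.nx k ψ - s.nx k' ψ'‖ ≤ K1 * ρ * (‖k - k'‖ + ‖ψ - ψ'‖) := h
      _ ≤ K * ρ * (‖k - k'‖ + ‖ψ - ψ'‖) := by gcongr
      _ ≤ 1 / 16 * (‖k - k'‖ + ‖ψ - ψ'‖) := by gcongr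
  have hL2 : ∀ (k k' : R) (ψ ψ' : E), star k = k → star k' = k' → ‖k‖ ≤ ρ → ‖k'‖ ≤ ρ →
      ‖ψ‖ ≤ ρ → ‖ψ'‖ ≤ ρ →
      ‖(k - 16 * s.ps k (s.nx k ψ)) - (k' - 16 * s.ps k' (s.nx k' ψ'))‖ ≤
        1 / 8 * (‖k - k'‖ + ‖ψ - ψ'‖) := by
    intro k k' ψ ψ' hs hs' hk hk' hψ hψ'
    have h := (hL R E s ρ ε hρ0.le hρ1 hε0.le hε1 hG k k' ψ ψ' hs hs' hk hk' hψ hψ').2
    refine h.trans ?_
    have h2 : K2 * (ρ + ε) ≤ 1 / 8 := by
      calc K2 * (ρ + ε) ≤ K * (ρ + ε) := by gcongr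
        _ = K * ρ + K * ε := by ring
        _ ≤ 1 / 16 + ρ / 16 := add_le_add hKρ hKε
        _ ≤ 1 / 8 := by linarith
    gcongr
  have hL0 : ‖(0 : R) - 16 * s.ps 0 (s.nx 0 0)‖ ≤ ρ / 16 := by
    have h := (hL R E s 0 ε le_rfl zero_le_one hε0.le hε1 hG 0 0 0 0 (star_zero R) (star_zero R)
      (by simp) (by simp) (by simp) (by simp)).1
    refine h.trans ?_
    calc K2 * (0 + ε) = K2 * ε := by ring
      _ ≤ K * ε := by gcongr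
      _ ≤ ρ / 16 := hKε
  have h00 : ((0 : R), (0 : E)) ∈ Dm R E ρ := by
    refine ⟨star_zero R, ?_, ?_⟩
    · show ‖(0 : R)‖ ≤ ρ
      rw [norm_zero]; exact hρ0.le
    · show ‖(0 : E)‖ ≤ ρ
      rw [norm_zero]; exact hρ0.le
  have hmaps : Set.MapsTo (Fm s) (Dm R E ρ) (Dm R E ρ) := by
    rintro ⟨k, ψ⟩ ⟨h1, h2, h3⟩
    change star k = k at h1
    change ‖k‖ ≤ ρ at h2
    change ‖ψ‖ ≤ ρ at h3
    refine ⟨?_, ?_, ?_⟩
    · show star (k - 16 * s.ps k (s.nx k ψ)) = k - 16 * s.ps k (s.nx k ψ)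
      rw [star_sub, star_mul', star_ps hREA, h1]
      congr 2
      exact star_ofNat 16
    · show ‖k - 16 * s.ps k (s.nx k ψ)‖ ≤ ρ
      have h4 := hL2 k 0 ψ 0 h1 (star_zero R) h2 (by simpa using hρ0.le) h3
        (by simpa using hρ0.le)
      rw [sub_zero, sub_zero] at h4
      calc ‖k - 16 * s.ps k (s.nx k ψ)‖ =
          ‖((k - 16 * s.ps k (s.nx k ψ)) - (0 - 16 * s.ps 0 (s.nx 0 0))) +
            (0 - 16 * s.ps 0 (s.nx 0 0))‖ := by rw [sub_add_cancel]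
        _ ≤ ‖(k - 16 * s.ps k (s.nx k ψ)) - (0 - 16 * s.ps 0 (s.nx 0 0))‖ +
            ‖(0 : R) - 16 * s.ps 0 (s.nx 0 0)‖ := norm_add_le _ _
        _ ≤ 1 / 8 * (‖k‖ + ‖ψ‖) + ρ / 16 := add_le_add h4 hL0
        _ ≤ ρ := by linarith
    · exact hN1 k ψ h2 h3
  have hcontr : ContractingWith (1 / 4) (hmaps.restrict (Fm s) (Dm R E ρ) (Dm R E ρ)) := by
    refine ⟨by rw [← NNReal.coe_lt_coe]; norm_num, ?_⟩
    apply LipschitzWith.of_dist_le_mul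
    rintro ⟨⟨k, ψ⟩, h1, h2, h3⟩ ⟨⟨k', ψ'⟩, h1', h2', h3'⟩
    change star k = k at h1
    change ‖k‖ ≤ ρ at h2
    change ‖ψ‖ ≤ ρ at h3
    change star k' = k' at h1'
    change ‖k'‖ ≤ ρ at h2'
    change ‖ψ'‖ ≤ ρ at h3'
    show dist (Fm s (k, ψ)) (Fm s (k', ψ')) ≤ ((1 / 4 : NNReal) : ℝ) * dist (k, ψ) (k', ψ')
    have hd1 : ‖k - k'‖ ≤ dist (k, ψ) (k', ψ') := by
      rw [Prod.dist_eq, ← dist_eq_norm]; exact le_max_left _ _
    have hd2 : ‖ψ - ψ'‖ ≤ dist (k, ψ) (k', ψ') := by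
      rw [Prod.dist_eq, ← dist_eq_norm]; exact le_max_right _ _
    have hc : ((1 / 4 : NNReal) : ℝ) = 1 / 4 := by norm_num
    rw [hc, Prod.dist_eq]
    have hdn : 0 ≤ dist (k, ψ) (k', ψ') := dist_nonneg
    apply max_le
    · rw [dist_eq_norm]
      refine (hL2 k k' ψ ψ' h1 h1' h2 h2' h3 h3').trans ?_
      linarith
    · rw [dist_eq_norm]
      refine (hN2 k k' ψ ψ' h2 h2' h3 h3').trans ?_
      linarith
  obtain ⟨⟨k, ψ⟩, hmem, hfix, -⟩ := ContractingWith.exists_fixedPoint'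
    (closed_Dm s ρ).isComplete hmaps hcontr h00 (edist_ne_top _ _)
  obtain ⟨h1, h2, h3⟩ := hmem
  change star k = k at h1
  change ‖k‖ ≤ ρ at h2
  change ‖ψ‖ ≤ ρ at h3
  have hf : Fm s (k, ψ) = (k, ψ) := hfix
  have hf1 : k - 16 * s.ps k (s.nx k ψ) = k := congrArg Prod.fst hf
  have hf2 : s.nx k ψ = ψ := congrArg Prod.snd hf
  refine ⟨k, ψ, h1, h2.trans hρη, h3.trans hρη, hf2.symm, ?_⟩
  rw [hf2] at hf1
  apply of16 s
  have : 16 * s.ps k ψ = k - (k - 16 * s.ps k ψ) := by ring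
  rw [this, hf1, sub_self]

end Pool.Agent.HSP
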