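import Pool.Agent.HSP.Targets2

set_option autoImplicit false

open scoped Classical ENNReal

noncomputable section

namespace Pool.Agent.HSP

namespace FND_

/-- The norm of `ex` is one. -/
lemma norm_ex (t x : ℝ) : ‖ex t x‖ = 1 := by
  unfold ex
  rw [Complex.norm_exp_ofReal_mul_I]

/-- A uniform summable bound on a compact subset of the sector. -/
lemma bound (b : Fam) (hb : Cls b) (K : Set ℂ) (hK : K ⊆ S) (hc : IsCompact K) :
    ∃ u : ℝ → ℝ, Summable u ∧ ∀ t, ∀ y ∈ K, ‖b t y‖ ≤ u t := by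
  obtain ⟨r, hr, hs⟩ := hb.sum K hK hc
  refine ⟨fun t => (⨆ y ∈ K, ENNReal.ofReal (‖b t y‖ * Real.exp (r * |t|))).toReal,
    ENNReal.summable_toReal hs.ne, ?_⟩
  intro t y hy
  have h1 : ENNReal.ofReal (‖b t y‖ * Real.exp (r * |t|)) ≤
      ⨆ y ∈ K, ENNReal.ofReal (‖b t y‖ * Real.exp (r * |t|)) :=
    le_iSup₂ (f := fun y (_ : y ∈ K) => ENNReal.ofReal (‖b t y‖ * Real.exp (r * |t|))) y hy
  have hfin : (⨆ y ∈ K, ENNReal.ofReal (‖b t y‖ * Real.exp (r * |t|))) ≠ ⊤ :=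
    ENNReal.ne_top_of_tsum_ne_top hs.ne t
  have h2 : ‖b t y‖ * Real.exp (r * |t|) ≤
      (⨆ y ∈ K, ENNReal.ofReal (‖b t y‖ * Real.exp (r * |t|))).toReal :=
    (ENNReal.ofReal_le_iff_le_toReal hfin).1 h1
  have h3 : 1 ≤ Real.exp (r * |t|) :=
    Real.one_le_exp (mul_nonneg hr.le (abs_nonneg t))
  calc ‖b t y‖ = ‖b t y‖ * 1 := (mul_one _).symm
    _ ≤ ‖b t y‖ * Real.exp (r * |t|) := mul_le_mul_of_nonneg_left h3 (norm_nonneg _)
    _ ≤ _ := h2

/-- The derivative of a single term. -/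
def fd (a : Fam) (t : ℝ) (w : ℂ) : ℂ →L[ℝ] ℂ :=
  Complex.reCLM.smulRight (Complex.I * t * a t (w.im : ℂ) * ex t w.re) +
    Complex.imCLM.smulRight (deriv (a t) (w.im : ℂ) * ex t w.re)

lemma fd_one (a : Fam) (t : ℝ) (w : ℂ) :
    fd a t w 1 = Complex.I * t * a t (w.im : ℂ) * ex t w.re := by
  simp [fd]

lemma fd_I (a : Fam) (t : ℝ) (w : ℂ) :
    fd a t w Complex.I = deriv (a t) (w.im : ℂ) * ex t w.re := by
  simp [fd]

lemma fd_norm (a : Fam) (t : ℝ) (w : ℂ) (u v : ℝ)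
    (hu : ‖Complex.I * t * a t (w.im : ℂ)‖ ≤ u) (hv : ‖deriv (a t) (w.im : ℂ)‖ ≤ v) :
    ‖fd a t w‖ ≤ u + v := by
  have hu0 : 0 ≤ u := le_trans (norm_nonneg _) hu
  have hv0 : 0 ≤ v := le_trans (norm_nonneg _) hv
  refine ContinuousLinearMap.opNorm_le_bound _ (add_nonneg hu0 hv0) ?_
  intro h
  have e : fd a t w h = (h.re : ℂ) * (Complex.I * t * a t (w.im : ℂ) * ex t w.re) +
      (h.im : ℂ) * (deriv (a t) (w.im : ℂ) * ex t w.re) := by
    simp [fd]
  rw [e]
  have h1 : ‖(h.re : ℂ) * (Complex.I * t * a t (w.im : ℂ) * ex t w.re)‖ ≤ u * ‖h‖ := by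
    rw [norm_mul, norm_mul (Complex.I * t * a t (w.im : ℂ)), norm_ex, mul_one, mul_comm]
    refine mul_le_mul hu ?_ (norm_nonneg _) hu0
    rw [Complex.norm_real, Real.norm_eq_abs]
    exact Complex.abs_re_le_norm h
  have h2 : ‖(h.im : ℂ) * (deriv (a t) (w.im : ℂ) * ex t w.re)‖ ≤ v * ‖h‖ := by
    rw [norm_mul, norm_mul (deriv (a t) (w.im : ℂ)), norm_ex, mul_one, mul_comm]
    refine mul_le_mul hv ?_ (norm_nonneg _) hv0
    rw [Complex.norm_real, Real.norm_eq_abs]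
    exact Complex.abs_im_le_norm h
  calc _ ≤ u * ‖h‖ + v * ‖h‖ := le_trans (norm_add_le _ _) (add_le_add h1 h2)
    _ = (u + v) * ‖h‖ := by ring

/-- The sector is open. -/
lemma isOpen_S : IsOpen S := by
  unfold S
  exact isOpen_lt (continuous_abs.comp Complex.continuous_im)
    (Complex.continuous_re.div_const 4)

lemma real_mem_S (y : ℝ) (hy : 0 < y) : (y : ℂ) ∈ S := by
  unfold S
  show |((y : ℂ)).im| < ((y : ℂ)).re / 4
  rw [Complex.ofReal_im, Complex.ofReal_re, abs_zero]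
  positivity

/-- A single term is differentiable. -/
lemma term (a : Fam) (t : ℝ) (ha : DifferentiableOn ℂ (a t) S) (w : ℂ) (hw : 0 < w.im) :
    HasFDerivAt (fun z : ℂ => a t (z.im : ℂ) * ex t z.re) (fd a t w) w := by
  have hS : (w.im : ℂ) ∈ S := real_mem_S _ hw
  have hd : HasDerivAt (a t) (deriv (a t) (w.im : ℂ)) (w.im : ℂ) :=
    ((ha _ hS).differentiableAt (isOpen_S.mem_nhds hS)).hasDerivAt
  have h0 : HasFDerivAt (a t) ((ContinuousLinearMap.toSpanSingleton ℂ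
      (deriv (a t) (w.im : ℂ))).restrictScalars ℝ) (w.im : ℂ) :=
    hd.hasFDerivAt.restrictScalars ℝ
  have him : HasFDerivAt (fun z : ℂ => (z.im : ℂ)) (Complex.ofRealCLM.comp Complex.imCLM) w :=
    (Complex.ofRealCLM.comp Complex.imCLM).hasFDerivAt
  have h1 := h0.comp w him
  have hre : HasFDerivAt (fun z : ℂ => z.re) Complex.reCLM w := Complex.reCLM.hasFDerivAt
  have hex : HasDerivAt (fun x : ℝ => ex t x) (Complex.I * t * ex t w.re) w.re := by
    have e1 : HasDerivAt (fun x : ℝ => (((t * x : ℝ) : ℂ) * Complex.I)) ((t : ℂ) * Complex.I)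
        w.re := by
      have e2 : HasDerivAt (fun x : ℝ => t * x) t w.re := by
        simpa using (hasDerivAt_id w.re).const_mul t
      simpa using (e2.ofReal_comp).mul_const Complex.I
    have e3 := e1.cexp
    unfold ex
    convert e3 using 1
    ring
  have h2 := hex.hasFDerivAt.comp w hre
  have h3 := h1.mul h2
  have e : fd a t w = ((a t ∘ fun z : ℂ => (z.im : ℂ)) w •
      ContinuousLinearMap.toSpanSingleton ℝ (Complex.I * ↑t * ex t w.re) ∘SL Complex.reCLM +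
      ((fun x => ex t x) ∘ Complex.re) w •
        ContinuousLinearMap.restrictScalars ℝ
          (ContinuousLinearMap.toSpanSingleton ℂ (deriv (a t) (w.im : ℂ))) ∘SL
          Complex.ofRealCLM ∘SL Complex.imCLM) := by
    refine ContinuousLinearMap.ext (fun h => ?_)
    simp [fd]
    ring
  rw [e]
  exact h3

end FND_

open FND_ in
/-- Termwise differentiation. -/
theorem p_FND (h_CLD : T_CLD) : T_FND := by
  intro a ha z hz
  obtain ⟨hc1, hc2⟩ := h_CLD a ha
  have hz' : 0 < z.im := hz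
  set K : Set ℂ := (fun x : ℝ => (x : ℂ)) '' Set.Icc (z.im / 2) (3 * z.im / 2) with hKdef
  have hKc : IsCompact K := isCompact_Icc.image Complex.continuous_ofReal
  have hKS : K ⊆ S := by
    rintro _ ⟨x, hx, rfl⟩
    exact real_mem_S x (lt_of_lt_of_le (by linarith) hx.1)
  obtain ⟨u, hu, hub⟩ := bound _ hc1 K hKS hKc
  obtain ⟨v, hv, hvb⟩ := bound _ hc2 K hKS hKc
  obtain ⟨u0, hu0, hub0⟩ := bound _ ha K hKS hKc
  set s : Set ℂ := Metric.ball z (z.im / 2) with hsdef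
  have hs_im : ∀ w ∈ s, 0 < w.im ∧ (w.im : ℂ) ∈ K := by
    intro w hw
    have h1 : |w.im - z.im| < z.im / 2 := by
      have h2 : ‖w - z‖ < z.im / 2 := by
        have := Metric.mem_ball.1 hw
        rwa [dist_eq_norm] at this
      have h3 := Complex.abs_im_le_norm (w - z)
      rw [Complex.sub_im] at h3
      exact lt_of_le_of_lt h3 h2
    have h4 := abs_lt.1 h1
    refine ⟨by linarith [h4.1], ⟨w.im, ⟨by linarith [h4.1], by linarith [h4.2]⟩, rfl⟩⟩
  have hzs : z ∈ s := Metric.mem_ball_self (by linarith)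
  have hder : ∀ t : ℝ, ∀ w ∈ s,
      HasFDerivAt (fun z : ℂ => a t (z.im : ℂ) * ex t z.re) (fd a t w) w :=
    fun t w hw => term a t (ha.hol t) w (hs_im w hw).1
  have hnb : ∀ t : ℝ, ∀ w ∈ s, ‖fd a t w‖ ≤ u t + v t := by
    intro t w hw
    exact fd_norm a t w _ _ (hub t _ (hs_im w hw).2) (hvb t _ (hs_im w hw).2)
  have hsum0 : Summable (fun t : ℝ => a t (z.im : ℂ) * ex t z.re) := by
    refine Summable.of_norm_bounded hu0 ?_
    intro t
    rw [norm_mul, norm_ex, mul_one]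
    exact hub0 t _ (hs_im z hzs).2
  have hmain : HasFDerivAt (fun w : ℂ => ∑' t : ℝ, a t (w.im : ℂ) * ex t w.re)
      (∑' t : ℝ, fd a t z) z :=
    hasFDerivAt_tsum_of_isPreconnected (hu.add hv) Metric.isOpen_ball
      (convex_ball z _).isPreconnected hder hnb hzs hsum0 hzs
  have hfs : Summable (fun t : ℝ => fd a t z) :=
    Summable.of_norm_bounded (hu.add hv) (fun t => hnb t z hzs)
  refine ⟨∑' t : ℝ, fd a t z, hmain, ?_, ?_⟩
  · have h := (ContinuousLinearMap.apply ℝ ℂ (1 : ℂ)).map_tsum hfs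
    simp only [ContinuousLinearMap.apply_apply] at h
    rw [h]
    unfold fn ev
    refine tsum_congr (fun t => ?_)
    rw [fd_one]
  · have h := (ContinuousLinearMap.apply ℝ ℂ (Complex.I : ℂ)).map_tsum hfs
    simp only [ContinuousLinearMap.apply_apply] at h
    rw [h]
    unfold fn ev
    refine tsum_congr (fun t => ?_)
    rw [fd_I]

end Pool.Agent.HSP
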