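import Pool.Agent.HSP.Targets4

set_option autoImplicit false

/-!
# HSP: GEO, the surface
-/

open scoped Classical ENNReal

noncomputable section

namespace Pool.Agent.HSP

namespace GEO_

/-- `‖h‖ / y` is bounded by four times the length of the image. -/
lemma len_le (a b : ℝ) (h : 1 / 4 * a ≤ b) :
    ENNReal.ofReal a ≤ ENNReal.ofReal 4 * ENNReal.ofReal b := by
  rw [← ENNReal.ofReal_mul (by norm_num)]
  exact ENNReal.ofReal_le_ofReal (by linarith)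

/-- Pull out the factor four. -/
lemma lint_top (s : Set ℝ) (hs : MeasurableSet s) (f g : ℝ → ℝ≥0∞)
    (h : ∀ t ∈ s, f t ≤ ENNReal.ofReal 4 * g t) (hf : ∫⁻ t in s, f t = ⊤) :
    ∫⁻ t in s, g t = ⊤ := by
  by_contra hne
  have h1 : ∫⁻ t in s, f t ≤ ∫⁻ t in s, ENNReal.ofReal 4 * g t :=
    MeasureTheory.setLIntegral_mono' hs h
  rw [MeasureTheory.lintegral_const_mul' _ _ ENNReal.ofReal_ne_top, hf] at h1
  exact ENNReal.mul_ne_top ENNReal.ofReal_ne_top hne (top_le_iff.mp h1)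

end GEO_

open GEO_ in
/-- GEO. The surface. -/
theorem p_GEO (h_POI : T_POI) (h_BRI : T_BRI) (h_PSI : T_PSI) (h_SAD : T_SAD) (h_HYC : T_HYC)
    (h_DER : T_DER) (h_LOW : T_LOW) : T_GEO := by
  intro ι _ P V A B Z μ D
  have hΦ : ∀ r, ∃ Φ : ℂ → ℂ, Smo Φ ∧ ∀ z ∈ Hp, HasW Φ (P r z) (V r z) z := fun r =>
    h_POI (P r) (V r) (A r) (B r) (Z r) (D.smP r) (D.smV r) (D.dP r) (D.dV r)
  choose Φ hS hW using hΦ
  obtain ⟨n, ⟨e⟩⟩ : ∃ n : ℕ, Nonempty
      (EuclideanSpace ℝ (ι ⊕ ι) ≃ₗᵢ[ℝ] EuclideanSpace ℝ (Fin n)) :=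
    ⟨Fintype.card (ι ⊕ ι), ⟨LinearIsometryEquiv.piLpCongrLeft 2 ℝ ℝ (Fintype.equivFin (ι ⊕ ι))⟩⟩
  obtain ⟨hf, hd⟩ := h_DER ι n e Φ P V A B Z μ D hS hW
  refine ⟨n, fun z => e (cr fun r => Φ r z), hf, ?_, ?_, ?_, ?_⟩
  · intro z hz
    obtain ⟨-, h1, h2, -, -, -⟩ := hd z hz
    obtain ⟨-, l1, l2⟩ := h_LOW ι (fun r => P r z) (fun r => V r z) z.im hz (D.big z hz)
      (D.sml z hz)
    simp only [mE, mG, mF, h1, h2, LinearIsometryEquiv.inner_map_map]
    exact ⟨l1, l2⟩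
  · intro z hz
    obtain ⟨-, h1, h2, h3, h4, h5⟩ := hd z hz
    obtain ⟨-, l1, l2⟩ := h_LOW ι (fun r => P r z) (fun r => V r z) z.im hz (D.big z hz)
      (D.sml z hz)
    obtain ⟨-, hb⟩ := h_BRI n _ hf z hz
    obtain ⟨q1, q2⟩ := h_PSI ι
    have key := q2 (fun r => P r z) (fun r => V r z) (fun r => A r z) (fun r => B r z)
      (fun r => Z r z) (fun r => P r z + V r z) (fun r => Complex.I * (P r z - V r z))
      (fun r => A r z + 2 * Z r z + B r z) (fun r => Complex.I * (A r z - B r z))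
      (fun r => -A r z + 2 * Z r z - B r z) (fun _ => rfl) (fun _ => rfl) (fun _ => rfl)
      (fun _ => rfl) (fun _ => rfl)
    rw [D.crv z hz, mul_zero] at key
    have key' := Complex.ofReal_eq_zero.mp key
    rw [gaussK, hb]
    simp only [mE, mG, mF, h1, h2, h3, h4, h5, LinearIsometryEquiv.inner_map_map, q1] at l2 ⊢
    rw [div_eq_iff (pow_ne_zero 2 l2.ne')]
    linarith
  · intro γ hγ hH hK
    have hz := h_HYC γ hγ hH hK
    refine lint_top _ measurableSet_Ioo _ _ ?_ hz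
    intro t ht
    have hzt := hH t ⟨ht.1.le, ht.2⟩
    obtain ⟨h0, -⟩ := hd _ hzt
    obtain ⟨l0, -, -⟩ := h_LOW ι (fun r => P r (γ t)) (fun r => V r (γ t)) (γ t).im hzt
      (D.big _ hzt) (D.sml _ hzt)
    refine len_le _ _ ?_
    rw [h0, LinearIsometryEquiv.norm_map]
    exact l0 _
  · intro z hz ν _ _
    obtain ⟨-, h1, h2, h3, h4, h5⟩ := hd z hz
    have key := h_SAD ι (μ z) (fun r => A r z) (fun r => B r z) (fun r => Z r z) (e.symm ν)
      (D.mu z hz) (fun r => D.rel r z hz)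
    have hfl : ∀ u : EuclideanSpace ℝ (ι ⊕ ι), inner ℝ (e u) ν = inner ℝ u (e.symm ν) := by
      intro u
      have h := LinearIsometryEquiv.inner_map_map e u (e.symm ν)
      rwa [LinearIsometryEquiv.apply_symm_apply] at h
    rw [h3, h4, h5, hfl, hfl, hfl]
    exact key

end Pool.Agent.HSP
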