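import Pool.Agent.HSP.Targets2

set_option autoImplicit false

/-!
# HSP: proof of GRM (Gram products of the base vectors)
-/

open scoped Classical ENNReal

noncomputable section

namespace Pool.Agent.HSP

namespace GRM_

/-- Splitting a sum over the integers into residue classes. -/
theorem sum_classes (J : ℕ) (hJ : 1 ≤ J) (G : ℤ → ℂ)
    (hs : ∀ j : Fin J, Summable fun n : ℤ => ‖G (((j : ℕ) : ℤ) + (J : ℤ) * n)‖) :
    ∑ j : Fin J, ∑' n : ℤ, G (((j : ℕ) : ℤ) + (J : ℤ) * n) = ∑' k : ℤ, G k := by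
  have : NeZero J := ⟨by omega⟩
  have e1 : ∀ z : Fin J × ℤ, (((Equiv.prodComm (Fin J) ℤ).trans (Int.divModEquiv J).symm) z) =
      (((z.1 : ℕ) : ℤ) + (J : ℤ) * z.2) := by
    intro z
    simp only [Equiv.trans_apply, Equiv.prodComm_apply, Int.divModEquiv_symm_apply, Prod.fst_swap,
      Prod.snd_swap]
    ring
  have h1 : Summable fun z : Fin J × ℤ => ‖G (((z.1 : ℕ) : ℤ) + (J : ℤ) * z.2)‖ := by
    rw [summable_prod_of_nonneg (fun z => norm_nonneg _)]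
    exact ⟨fun j => hs j, Summable.of_finite⟩
  have h2 : Summable fun z : Fin J × ℤ => G (((z.1 : ℕ) : ℤ) + (J : ℤ) * z.2) := h1.of_norm
  calc ∑ j : Fin J, ∑' n : ℤ, G (((j : ℕ) : ℤ) + (J : ℤ) * n)
      = ∑' j : Fin J, ∑' n : ℤ, G (((j : ℕ) : ℤ) + (J : ℤ) * n) := (tsum_fintype _).symm
    _ = ∑' z : Fin J × ℤ, G (((z.1 : ℕ) : ℤ) + (J : ℤ) * z.2) := (h2.tsum_prod).symm
    _ = ∑' z : Fin J × ℤ, G (((Equiv.prodComm (Fin J) ℤ).trans (Int.divModEquiv J).symm) z) := by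
        refine tsum_congr fun z => ?_
        rw [e1]
    _ = ∑' k : ℤ, G k := Equiv.tsum_eq _ G

/-- Splitting the product of two series into the diagonal and the rest. -/
theorem mul_split (a b : ℤ → ℂ) (ha : Summable fun n => ‖a n‖) (hb : Summable fun n => ‖b n‖) :
    (∑' n, a n) * (∑' n, b n) = (∑' n, a n * b n) +
      ∑' z : {n : ℤ × ℤ // n.1 ≠ n.2}, a z.1.1 * b z.1.2 := by
  rw [tsum_mul_tsum_of_summable_norm ha hb]
  have hs : Summable fun z : ℤ × ℤ => a z.1 * b z.2 := summable_mul_of_summable_norm ha hb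
  rw [← hs.tsum_subtype_add_tsum_subtype_compl {z : ℤ × ℤ | z.1 = z.2}]
  congr 1
  · let e : ℤ ≃ ({z : ℤ × ℤ | z.1 = z.2} : Set (ℤ × ℤ)) :=
      { toFun := fun n => ⟨(n, n), rfl⟩
        invFun := fun z => z.1.1
        left_inv := fun n => rfl
        right_inv := fun z => by
          rcases z with ⟨⟨u, v⟩, h⟩
          have h' : u = v := h
          subst h'
          rfl }
    rw [← e.tsum_eq]
    rfl

theorem conj_S {y : ℂ} (hy : y ∈ S) : (starRingEnd ℂ) y ∈ S := by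
  unfold S at hy ⊢
  simp only [Set.mem_ofPred_eq, Complex.conj_im, Complex.conj_re, abs_neg] at hy ⊢
  exact hy

theorem ex_norm (t x : ℝ) : ‖ex t x‖ = 1 := by
  unfold ex
  exact Complex.norm_exp_ofReal_mul_I _

theorem ex_conj (t x : ℝ) : (starRingEnd ℂ) (ex t x) = ex (-t) x := by
  unfold ex
  rw [← Complex.exp_conj]
  congr 1
  simp only [map_mul, Complex.conj_ofReal, Complex.conj_I]
  push_cast
  ring

theorem ex_add (s t x : ℝ) : ex s x * ex t x = ex (s + t) x := by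
  unfold ex
  rw [← Complex.exp_add]
  congr 1
  push_cast
  ring

theorem ex_zero (x : ℝ) : ex 0 x = 1 := by
  unfold ex
  simp

/-- The conjugate of a term. -/
theorem term_conj (c : ℝ) (ξ : ℝ) (y : ℂ) (q : ℕ) (x : ℝ) :
    (starRingEnd ℂ) ((c : ℂ) * (Complex.I * ξ * (starRingEnd ℂ) y) ^ q *
      Complex.exp (-(ξ * (starRingEnd ℂ) y)) * ex ξ x) =
    (c : ℂ) * (-(Complex.I * ξ * y)) ^ q * Complex.exp (-(ξ * y)) * ex (-ξ) x := by
  rw [map_mul, map_mul, map_mul, map_pow, ex_conj, ← Complex.exp_conj]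
  simp only [map_mul, map_neg, Complex.conj_ofReal, Complex.conj_I, Complex.conj_conj]
  ring_nf

/-- The term of the first factor. -/
def ta (M : ℕ) (i : Fin M) (p : ℕ) (x : ℝ) (y : ℂ) (k : ℤ) : ℂ :=
  (cf M i : ℂ) * (Complex.I * fq M i k * y) ^ p * Complex.exp (-(fq M i k * y)) * ex (fq M i k) x

/-- The term of the second factor. -/
def tb (M : ℕ) (i : Fin M) (q : ℕ) (x : ℝ) (y : ℂ) (k : ℤ) : ℂ :=
  (cf M i : ℂ) * (-(Complex.I * fq M i k * y)) ^ q * Complex.exp (-(fq M i k * y)) *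
    ex (-fq M i k) x

theorem ta_norm (M : ℕ) (i : Fin M) (p : ℕ) (x : ℝ) (y : ℂ) (k : ℤ) :
    ‖ta M i p x y k‖ =
      ‖(cf M i : ℂ) * (Complex.I * fq M i k * y) ^ p * Complex.exp (-(fq M i k * y))‖ := by
  unfold ta
  rw [norm_mul, ex_norm, mul_one]

theorem tb_norm (M : ℕ) (i : Fin M) (p : ℕ) (x : ℝ) (y : ℂ) (k : ℤ) :
    ‖tb M i p x y k‖ =
      ‖(cf M i : ℂ) * (Complex.I * fq M i k * y) ^ p * Complex.exp (-(fq M i k * y))‖ := by
  unfold tb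
  rw [norm_mul, ex_norm, mul_one, norm_mul, norm_mul, norm_mul, norm_mul, norm_pow, norm_pow,
    norm_neg]

theorem tab (M : ℕ) (i : Fin M) (p q : ℕ) (x : ℝ) (y : ℂ) (k l : ℤ) :
    ta M i p x y k * tb M i q x y l =
      (cf M i : ℂ) ^ 2 * (Complex.I * fq M i k * y) ^ p * (-(Complex.I * fq M i l * y)) ^ q *
        Complex.exp (-((fq M i k + fq M i l) * y)) * ex (fq M i k - fq M i l) x := by
  unfold ta tb
  rw [sub_eq_add_neg (fq M i k) (fq M i l), ← ex_add]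
  have h : Complex.exp (-((fq M i k + fq M i l) * y)) =
      Complex.exp (-(fq M i k * y)) * Complex.exp (-(fq M i l * y)) := by
    rw [← Complex.exp_add]
    congr 1
    ring
  rw [h]
  ring

theorem tab_diag (M : ℕ) (i : Fin M) (p q : ℕ) (x : ℝ) (y : ℂ) (k : ℤ) :
    ta M i p x y k * tb M i q x y k =
      (cf M i : ℂ) ^ 2 * (Complex.I * fq M i k * y) ^ p * (-(Complex.I * fq M i k * y)) ^ q *
        Complex.exp (-(2 * fq M i k * y)) := by
  rw [tab, sub_self, ex_zero, mul_one]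
  congr 3
  ring

theorem gram (h_FBA : T_FBA) (J M p q : ℕ) (hJ : 1 ≤ J) (hM : 1 ≤ M) (hp : 1 ≤ p) (hq : 1 ≤ q)
    (x : ℝ) (y : ℂ) (hy : y ∈ S)
    (hs : Summable (fun i : (Fin J × Fin M) × {n : ℤ × ℤ // n.1 ≠ n.2} =>
      ‖ta M i.1.2 p x y (i.1.1 + J * i.2.1.1) * tb M i.1.2 q x y (i.1.1 + J * i.2.1.2)‖)) :
    ∑ r, ev (Fb J M p r) x y * (starRingEnd ℂ) (ev (Fb J M q r) x ((starRingEnd ℂ) y)) =
      gd M p q y + ∑' i : (Fin J × Fin M) × {n : ℤ × ℤ // n.1 ≠ n.2},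
        ta M i.1.2 p x y (i.1.1 + J * i.2.1.1) * tb M i.1.2 q x y (i.1.1 + J * i.2.1.2) := by
  have hA : ∀ r : Fin J × Fin M, (Summable fun n : ℤ => ‖ta M r.2 p x y (r.1 + J * n)‖) ∧
      ev (Fb J M p r) x y = ∑' n : ℤ, ta M r.2 p x y (r.1 + J * n) := by
    intro r
    obtain ⟨h1, h2⟩ := h_FBA.2 J M p hJ hM hp r x y hy
    refine ⟨?_, h2⟩
    simp only [ta_norm]
    exact h1
  have hB : ∀ r : Fin J × Fin M, (Summable fun n : ℤ => ‖tb M r.2 q x y (r.1 + J * n)‖) ∧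
      (starRingEnd ℂ) (ev (Fb J M q r) x ((starRingEnd ℂ) y)) =
        ∑' n : ℤ, tb M r.2 q x y (r.1 + J * n) := by
    intro r
    obtain ⟨h1, -⟩ := h_FBA.2 J M q hJ hM hq r x y hy
    obtain ⟨-, h2⟩ := h_FBA.2 J M q hJ hM hq r x _ (conj_S hy)
    refine ⟨?_, ?_⟩
    · simp only [tb_norm]
      exact h1
    · rw [h2, Complex.conj_tsum]
      refine tsum_congr fun n => ?_
      exact term_conj _ _ _ _ _
  have h1 : ∀ r : Fin J × Fin M,
      ev (Fb J M p r) x y * (starRingEnd ℂ) (ev (Fb J M q r) x ((starRingEnd ℂ) y)) =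
      (∑' n : ℤ, ta M r.2 p x y (r.1 + J * n) * tb M r.2 q x y (r.1 + J * n)) +
        ∑' z : {n : ℤ × ℤ // n.1 ≠ n.2},
          ta M r.2 p x y (r.1 + J * z.1.1) * tb M r.2 q x y (r.1 + J * z.1.2) := by
    intro r
    rw [(hA r).2, (hB r).2]
    exact mul_split _ _ (hA r).1 (hB r).1
  rw [Finset.sum_congr rfl fun r _ => h1 r, Finset.sum_add_distrib]
  congr 1
  · rw [Fintype.sum_prod_type_right]
    unfold gd
    refine Finset.sum_congr rfl fun i _ => ?_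
    have h2 := sum_classes J hJ (fun k => ta M i p x y k * tb M i q x y k) (by
      intro j
      exact (summable_mul_of_summable_norm (hA (j, i)).1 (hB (j, i)).1).norm.comp_injective
        (i := fun n : ℤ => (n, n)) (fun a b h => (Prod.ext_iff.1 h).1))
    rw [h2]
    exact tsum_congr fun k => tab_diag M i p q x y k
  · rw [hs.of_norm.tsum_prod, tsum_fintype]

end GRM_

open GRM_ in
/-- Target GRM. -/
theorem p_GRM (h_DIA : T_DIA) (h_OFF : T_OFF) (h_FBA : T_FBA) (h_SER : T_SER) (h_LIN : T_LIN) :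
    T_GRM := by
  intro ε hε
  have hD : ∀ p q : ℕ, ∃ C : ℝ, 0 < C ∧ (1 ≤ p → 1 ≤ q → ∀ M, 1 ≤ M → ∀ y ∈ S,
      ‖gd M p q y - gm p q‖ ≤ C / M) := by
    intro p q
    by_cases h : 1 ≤ p ∧ 1 ≤ q
    · obtain ⟨-, C, hC, h1⟩ := h_DIA p q h.1 h.2
      exact ⟨C, hC, fun _ _ => h1⟩
    · exact ⟨1, one_pos, fun h1 h2 => absurd ⟨h1, h2⟩ h⟩
  have hO : ∀ p q : ℕ, ∃ C : ℝ, 0 < C ∧ (1 ≤ p → 1 ≤ q → ∀ J M : ℕ, 1 ≤ J → 1 ≤ M →
      ∃ R : Fam, Adm R ∧ NN R ≤ ENNReal.ofReal (C * (2 : ℝ) ^ (-(J : ℝ) / 2)) ∧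
        ∀ x : ℝ, ∀ y ∈ S,
        Summable (fun i : (Fin J × Fin M) × {n : ℤ × ℤ // n.1 ≠ n.2} =>
      ‖ta M i.1.2 p x y (i.1.1 + J * i.2.1.1) * tb M i.1.2 q x y (i.1.1 + J * i.2.1.2)‖) ∧
        ev R x y = ∑' i : (Fin J × Fin M) × {n : ℤ × ℤ // n.1 ≠ n.2},
        ta M i.1.2 p x y (i.1.1 + J * i.2.1.1) * tb M i.1.2 q x y (i.1.1 + J * i.2.1.2)) := by
    intro p q
    by_cases h : 1 ≤ p ∧ 1 ≤ q
    · obtain ⟨C, hC, h1⟩ := h_OFF p q h.1 h.2
      refine ⟨C, hC, fun _ _ J M hJ hM => ?_⟩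
      obtain ⟨R, hR, hR2, hR3⟩ := h1 J M hJ hM
      refine ⟨R, hR, hR2, fun x y hy => ?_⟩
      obtain ⟨h2, h3⟩ := hR3 x y hy
      refine ⟨?_, ?_⟩
      · refine h2.congr fun i => ?_
        rw [tab, norm_mul _ (ex _ _), ex_norm, mul_one]
      · rw [h3]
        refine tsum_congr fun i => ?_
        rw [tab]
    · exact ⟨1, one_pos, fun h1 h2 => absurd ⟨h1, h2⟩ h⟩
  choose C1 hC1 hD' using hD
  choose C2 hC2 hO' using hO
  obtain ⟨K, hK0, hK1, hK2⟩ : ∃ K : ℝ, 0 < K ∧ (∀ p q : ℕ, p ≤ 3 → q ≤ 3 → C1 p q ≤ K) ∧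
      (∀ p q : ℕ, p ≤ 3 → q ≤ 3 → C2 p q ≤ K) := by
    refine ⟨∑ z ∈ Finset.range 4 ×ˢ Finset.range 4, (C1 z.1 z.2 + C2 z.1 z.2), ?_, ?_, ?_⟩
    · refine Finset.sum_pos (fun z _ => add_pos (hC1 _ _) (hC2 _ _)) ⟨(0, 0), ?_⟩
      simp
    · intro p q hp hq
      have h1 : C1 p q + C2 p q ≤
          ∑ z ∈ Finset.range 4 ×ˢ Finset.range 4, (C1 z.1 z.2 + C2 z.1 z.2) :=
        Finset.single_le_sum (f := fun z : ℕ × ℕ => C1 z.1 z.2 + C2 z.1 z.2)
          (fun z _ => (add_pos (hC1 _ _) (hC2 _ _)).le) (a := (p, q))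
          (by simp only [Finset.mem_product, Finset.mem_range]; omega)
      have h2 := hC2 p q
      linarith
    · intro p q hp hq
      have h1 : C1 p q + C2 p q ≤
          ∑ z ∈ Finset.range 4 ×ˢ Finset.range 4, (C1 z.1 z.2 + C2 z.1 z.2) :=
        Finset.single_le_sum (f := fun z : ℕ × ℕ => C1 z.1 z.2 + C2 z.1 z.2)
          (fun z _ => (add_pos (hC1 _ _) (hC2 _ _)).le) (a := (p, q))
          (by simp only [Finset.mem_product, Finset.mem_range]; omega)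
      have h2 := hC1 p q
      linarith
  obtain ⟨M, hM1, hM2⟩ : ∃ M : ℕ, 1 ≤ M ∧ K / M ≤ ε / 2 := by
    obtain ⟨M, hM⟩ := exists_nat_gt (2 * K / ε)
    refine ⟨M + 1, by omega, ?_⟩
    push_cast
    rw [div_lt_iff₀ hε] at hM
    rw [div_le_iff₀ (by positivity)]
    nlinarith
  obtain ⟨J, hJ1, hJ2⟩ : ∃ J : ℕ, 1 ≤ J ∧ K * (2 : ℝ) ^ (-(J : ℝ) / 2) ≤ ε / 2 := by
    obtain ⟨n, hn⟩ := exists_pow_lt_of_lt_one (show (0 : ℝ) < ε / 2 / K by positivity)
      (show ((2 : ℝ) ^ (-(1 / 2) : ℝ)) < 1 from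
        Real.rpow_lt_one_of_one_lt_of_neg (by norm_num) (by norm_num))
    refine ⟨n + 1, by omega, ?_⟩
    have h1 : (2 : ℝ) ^ (-((n + 1 : ℕ) : ℝ) / 2) ≤ ((2 : ℝ) ^ (-(1 / 2) : ℝ)) ^ n := by
      rw [← Real.rpow_natCast, ← Real.rpow_mul (by norm_num)]
      refine Real.rpow_le_rpow_of_exponent_le (by norm_num) ?_
      push_cast
      linarith
    have h2 : K * (2 : ℝ) ^ (-((n + 1 : ℕ) : ℝ) / 2) ≤ K * (ε / 2 / K) := by
      gcongr
      exact h1.trans hn.le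
    refine h2.trans (le_of_eq ?_)
    field_simp
  refine ⟨J, M, hJ1, hM1, ?_⟩
  intro p q hp1 hp3 hq1 hq3
  obtain ⟨R, hR, hR2, hR3⟩ := hO' p q hp1 hq1 J M hJ1 hM1
  have hg := h_SER Unit (fun _ => 0) (fun _ y => gd M p q y - gm p q) (ε / 2)
    (fun _ => ((h_DIA p q hp1 hq1).1 M hM1).sub (differentiableOn_const _))
    (by
      intro l
      rw [tsum_fintype]
      simp only [Finset.univ_unique, Finset.sum_singleton]
      refine iSup₂_le fun y hy => ?_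
      refine ENNReal.ofReal_le_ofReal ?_
      have h1 := hD' p q hp1 hq1 M hM1 y hy.1
      simp only [abs_zero, zero_mul, zero_div, Real.exp_zero, mul_one]
      refine h1.trans (le_trans ?_ hM2)
      gcongr
      exact hK1 p q hp3 hq3)
  obtain ⟨hg1, hg2, -, hg3⟩ := hg
  obtain ⟨h1, h2, h3⟩ := h_LIN.1 _ _ hg1 hR
  refine ⟨_, h1, ?_, ?_⟩
  · refine h2.trans ?_
    have h4 : NN R ≤ ENNReal.ofReal (ε / 2) := by
      refine hR2.trans (ENNReal.ofReal_le_ofReal (le_trans ?_ hJ2))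
      gcongr
      exact hK2 p q hp3 hq3
    refine (add_le_add hg2 h4).trans (le_of_eq ?_)
    rw [← ENNReal.ofReal_add (by positivity) (by positivity)]
    congr 1
    ring
  · intro x y hy
    obtain ⟨h4, h5⟩ := hR3 x y hy
    have h6 : ∑' _ : Unit, (gd M p q y - gm p q) * ex 0 x = gd M p q y - gm p q := by
      rw [tsum_fintype, Finset.univ_unique, Finset.sum_singleton, ex_zero, mul_one]
    rw [h3 x y hy, hg3 x y hy, gram h_FBA J M p q hJ1 hM1 hp1 hq1 x y hy h4, h5, h6]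
    ring

end Pool.Agent.HSP
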