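import Pool.Agent.HSP.Targets4

set_option autoImplicit false

/-!
# HSP, HYC: completeness of the half plane
-/

open scoped Classical ENNReal
open MeasureTheory

noncomputable section

namespace Pool.Agent.HSP

open intervalIntegral in
theorem p_HYC : T_HYC := by
  intro γ hγ hH hK
  by_contra hne
  obtain ⟨g, hg⟩ : ∃ g : ℝ → ℝ, g = fun t => ‖deriv γ t‖ / (γ t).im := ⟨_, rfl⟩
  have hne' : ∫⁻ t in Set.Ioo (0 : ℝ) 1, ENNReal.ofReal (g t) ≠ ⊤ := by
    rw [hg]
    exact hne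
  obtain ⟨L, hL⟩ : ∃ L : ℝ, L = (∫⁻ t in Set.Ioo (0 : ℝ) 1, ENNReal.ofReal (g t)).toReal :=
    ⟨_, rfl⟩
  have hL0 : 0 ≤ L := by rw [hL]; exact ENNReal.toReal_nonneg
  have hsub : Set.Ioo (0 : ℝ) 1 ⊆ Set.Ico 0 1 := Set.Ioo_subset_Ico_self
  have hγo : ContDiffOn ℝ 1 γ (Set.Ioo 0 1) := hγ.mono hsub
  have hdc : ContinuousOn (deriv γ) (Set.Ioo 0 1) :=
    hγo.continuousOn_deriv_of_isOpen isOpen_Ioo le_rfl
  have hder : ∀ t ∈ Set.Ioo (0 : ℝ) 1, HasDerivAt γ (deriv γ t) t := fun t ht =>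
    ((hγo.differentiableOn one_ne_zero).differentiableAt (isOpen_Ioo.mem_nhds ht)).hasDerivAt
  have hpos : ∀ t ∈ Set.Ioo (0 : ℝ) 1, 0 < (γ t).im := fun t ht => hH t (hsub ht)
  have hic : ContinuousOn (fun t => (γ t).im) (Set.Ioo 0 1) :=
    Complex.continuous_im.comp_continuousOn hγo.continuousOn
  have hgc : ContinuousOn g (Set.Ioo 0 1) := by
    rw [hg]
    exact hdc.norm.div hic fun t ht => (hpos t ht).ne'
  have hg0 : ∀ t ∈ Set.Ioo (0 : ℝ) 1, 0 ≤ g t := by
    intro t ht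
    have := hpos t ht
    rw [hg]
    positivity
  have hIcc : ∀ t : ℝ, t < 1 → Set.Icc (1 / 2 : ℝ) t ⊆ Set.Ioo 0 1 := by
    intro t ht x hx
    exact ⟨by linarith [hx.1], by linarith [hx.2]⟩
  have hgi : ∀ t : ℝ, 1 / 2 ≤ t → t < 1 → IntervalIntegrable g volume (1 / 2) t := by
    intro t h1 h2
    refine ContinuousOn.intervalIntegrable ?_
    rw [Set.uIcc_of_le h1]
    exact hgc.mono (hIcc t h2)
  have hgL : ∀ t : ℝ, 1 / 2 ≤ t → t < 1 → ∫ x in (1 / 2 : ℝ)..t, g x ≤ L := by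
    intro t h1 h2
    have hs : Set.Ioc (1 / 2 : ℝ) t ⊆ Set.Ioo 0 1 := fun x hx =>
      ⟨by linarith [hx.1], by linarith [hx.2]⟩
    rw [integral_of_le h1, hL, integral_eq_lintegral_of_nonneg_ae]
    · refine ENNReal.toReal_mono hne' ?_
      exact lintegral_mono_set hs
    · refine (ae_restrict_iff' measurableSet_Ioc).2 (Filter.Eventually.of_forall fun x hx => ?_)
      exact hg0 x (hs hx)
    · exact (hgi t h1 h2).1.aestronglyMeasurable
  have h12 : (1 / 2 : ℝ) ∈ Set.Ioo (0 : ℝ) 1 := by constructor <;> norm_num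
  obtain ⟨y0, hy0⟩ : ∃ y0 : ℝ, y0 = (γ (1 / 2)).im := ⟨_, rfl⟩
  have hy0p : 0 < y0 := by rw [hy0]; exact hpos _ h12
  -- the logarithm of the height
  have hlog : ∀ t : ℝ, 1 / 2 ≤ t → t < 1 → |Real.log (γ t).im - Real.log y0| ≤ L := by
    intro t h1 h2
    have hd : ∀ x ∈ Set.uIcc (1 / 2 : ℝ) t,
        HasDerivAt (fun x => Real.log (γ x).im) ((deriv γ x).im / (γ x).im) x := by
      intro x hx
      rw [Set.uIcc_of_le h1] at hx
      have hx' := hIcc t h2 hx
      have h3 : HasDerivAt (fun x => (γ x).im) (deriv γ x).im x := by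
        exact Complex.imCLM.hasFDerivAt.comp_hasDerivAt x (hder x hx')
      exact h3.log (hpos x hx').ne'
    have hc : ContinuousOn (fun x => (deriv γ x).im / (γ x).im) (Set.Ioo 0 1) :=
      (Complex.continuous_im.comp_continuousOn hdc).div hic fun t ht => (hpos t ht).ne'
    have hi : IntervalIntegrable (fun x => (deriv γ x).im / (γ x).im) volume (1 / 2) t := by
      refine ContinuousOn.intervalIntegrable ?_
      rw [Set.uIcc_of_le h1]
      exact hc.mono (hIcc t h2)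
    have he := integral_eq_sub_of_hasDerivAt hd hi
    have h5 : ‖∫ x in (1 / 2 : ℝ)..t, (deriv γ x).im / (γ x).im‖ ≤ ∫ x in (1 / 2 : ℝ)..t, g x := by
      refine intervalIntegral.norm_integral_le_of_norm_le h1 ?_ (hgi t h1 h2)
      refine Filter.Eventually.of_forall fun x hx => ?_
      have hx' : x ∈ Set.Ioo (0 : ℝ) 1 := ⟨by linarith [hx.1], by linarith [hx.2]⟩
      have hp := hpos x hx'
      rw [norm_div, Real.norm_eq_abs, Real.norm_eq_abs, abs_of_pos hp, hg]
      exact div_le_div_of_nonneg_right (Complex.abs_im_le_norm _) hp.le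
    rw [he, ← hy0, Real.norm_eq_abs] at h5
    exact h5.trans (hgL t h1 h2)
  obtain ⟨M, hM⟩ : ∃ M : ℝ, M = Real.exp L * y0 := ⟨_, rfl⟩
  have hM0 : 0 < M := by rw [hM]; positivity
  have hup : ∀ t : ℝ, 1 / 2 ≤ t → t < 1 → (γ t).im ≤ M ∧ Real.exp (-L) * y0 ≤ (γ t).im := by
    intro t h1 h2
    have hp := hpos t ⟨by linarith, h2⟩
    have h3 := abs_le.1 (hlog t h1 h2)
    constructor
    · have h4 : Real.log (γ t).im ≤ L + Real.log y0 := by linarith [h3.2]
      have h5 := Real.exp_le_exp.2 h4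
      rw [Real.exp_log hp, Real.exp_add, Real.exp_log hy0p] at h5
      rw [hM]
      exact h5
    · have h4 : -L + Real.log y0 ≤ Real.log (γ t).im := by linarith [h3.1]
      have h5 := Real.exp_le_exp.2 h4
      rwa [Real.exp_log hp, Real.exp_add, Real.exp_log hy0p] at h5
  have hdist : ∀ t : ℝ, 1 / 2 ≤ t → t < 1 → ‖γ t - γ (1 / 2)‖ ≤ M * L := by
    intro t h1 h2
    have hd : ∀ x ∈ Set.uIcc (1 / 2 : ℝ) t, HasDerivAt γ (deriv γ x) x := by
      intro x hx
      rw [Set.uIcc_of_le h1] at hx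
      exact hder x (hIcc t h2 hx)
    have hi : IntervalIntegrable (deriv γ) volume (1 / 2) t := by
      refine ContinuousOn.intervalIntegrable ?_
      rw [Set.uIcc_of_le h1]
      exact hdc.mono (hIcc t h2)
    have he := integral_eq_sub_of_hasDerivAt hd hi
    have h5 : ‖∫ x in (1 / 2 : ℝ)..t, deriv γ x‖ ≤ ∫ x in (1 / 2 : ℝ)..t, M * g x := by
      refine intervalIntegral.norm_integral_le_of_norm_le h1 ?_ ((hgi t h1 h2).const_mul M)
      refine Filter.Eventually.of_forall fun x hx => ?_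
      have hx' : x ∈ Set.Ioo (0 : ℝ) 1 := ⟨by linarith [hx.1], by linarith [hx.2]⟩
      have hp := hpos x hx'
      have h6 : ‖deriv γ x‖ = (γ x).im * g x := by
        rw [hg]
        field_simp
      rw [h6]
      exact mul_le_mul_of_nonneg_right (hup x hx.1.le (by linarith [hx.2])).1 (hg0 x hx')
    rw [he, intervalIntegral.integral_const_mul] at h5
    exact h5.trans (mul_le_mul_of_nonneg_left (hgL t h1 h2) hM0.le)
  -- the compact set
  obtain ⟨K, hKd⟩ : ∃ K : Set ℂ, K = Metric.closedBall (γ (1 / 2)) (M * L) ∩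
      {z : ℂ | Real.exp (-L) * y0 ≤ z.im} := ⟨_, rfl⟩
  have hKc : IsCompact K := by
    rw [hKd]
    exact (isCompact_closedBall _ _).inter_right
      (isClosed_le continuous_const Complex.continuous_im)
  have hKH : K ⊆ Hp := by
    intro z hz
    rw [hKd] at hz
    have h3 : Real.exp (-L) * y0 ≤ z.im := hz.2
    have h4 : 0 < Real.exp (-L) * y0 := by positivity
    exact h4.trans_le h3
  obtain ⟨s, hs1, hs⟩ := hK K hKH hKc
  obtain ⟨t, ht⟩ : ∃ t : ℝ, t = (max s (1 / 2) + 1) / 2 := ⟨_, rfl⟩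
  have hm1 : max s (1 / 2) < 1 := max_lt hs1 (by norm_num)
  have hm2 : s ≤ max s (1 / 2) := le_max_left _ _
  have hm3 : (1 / 2 : ℝ) ≤ max s (1 / 2) := le_max_right _ _
  refine hs t ⟨by linarith, by linarith⟩ ?_
  rw [hKd]
  refine ⟨?_, (hup t (by linarith) (by linarith)).2⟩
  rw [Metric.mem_closedBall, dist_eq_norm]
  exact hdist t (by linarith) (by linarith)

end Pool.Agent.HSP
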