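import Pool.Agent.HSP.Targets3

set_option autoImplicit false

/-!
# HSP: Lipschitz estimate of the curvature expression (LIP)
-/

open scoped Classical ENNReal

noncomputable section

namespace Pool.Agent.HSP

namespace LIP_

/-- All the data: two points, indexed by `Bool`. -/
structure Cf (C : ℝ) where
  R : Type
  E : Type
  [iR : NormedCommRing R]
  [iS : StarRing R]
  [iE : NormedAddCommGroup E]
  [iM : Module R E]
  s : Sys C R E
  ρ : ℝ
  ε : ℝ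
  ρ0 : 0 ≤ ρ
  ρ1 : ρ ≤ 1
  ε0 : 0 ≤ ε
  ε1 : ε ≤ 1
  gr : s.Gram ε
  k : Bool → R
  φ : Bool → E
  sk : ∀ b, star (k b) = k b
  nk : ∀ b, ‖k b‖ ≤ ρ
  nφ : ∀ b, ‖φ b‖ ≤ ρ

attribute [instance] Cf.iR Cf.iS Cf.iE Cf.iM

variable {C : ℝ}

/-- The distance of the two points. -/
def Cf.d (c : Cf C) : ℝ := ‖c.k true - c.k false‖ + ‖c.φ true - c.φ false‖

lemma Cf.d0 (c : Cf C) : 0 ≤ c.d := by unfold Cf.d; positivity

/-- Scalar quantities. -/
abbrev QR (C : ℝ) := (c : Cf C) → Bool → c.R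

/-- Vector quantities. -/
abbrev QE (C : ℝ) := (c : Cf C) → Bool → c.E

/-- Class of scalar quantities. -/
def KR (α β : Cf C → ℝ) (f : QR C) : Prop :=
  ∃ K : ℝ, 0 ≤ K ∧ ∀ c, (∀ b, ‖f c b‖ ≤ K * α c) ∧ ‖f c true - f c false‖ ≤ K * β c * c.d

/-- Class of vector quantities. -/
def KE (α β : Cf C → ℝ) (f : QE C) : Prop :=
  ∃ K : ℝ, 0 ≤ K ∧ ∀ c, (∀ b, ‖f c b‖ ≤ K * α c) ∧ ‖f c true - f c false‖ ≤ K * β c * c.d

/-- one -/
def o1 : Cf C → ℝ := fun _ => 1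
/-- rho -/
def oρ : Cf C → ℝ := fun c => c.ρ
/-- rho squared -/
def oq : Cf C → ℝ := fun c => c.ρ * c.ρ
/-- rho plus epsilon -/
def oh : Cf C → ℝ := fun c => c.ρ + c.ε

/-- A quantity which does not depend on the point, of norm at most `K`. -/
lemma KR.const (x : (c : Cf C) → c.R) (K : ℝ) (hK : 0 ≤ K) (h : ∀ c, ‖x c‖ ≤ K) :
    KR o1 o1 (fun c _ => x c) := by
  refine ⟨K, hK, fun c => ⟨fun _ => ?_, ?_⟩⟩
  · simpa [o1] using h c
  · have := c.d0
    simp only [sub_self, norm_zero, o1, mul_one]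
    positivity

lemma KE.const (x : (c : Cf C) → c.E) (K : ℝ) (hK : 0 ≤ K) (h : ∀ c, ‖x c‖ ≤ K) :
    KE o1 o1 (fun c _ => x c) := by
  refine ⟨K, hK, fun c => ⟨fun _ => ?_, ?_⟩⟩
  · simpa [o1] using h c
  · have := c.d0
    simp only [sub_self, norm_zero, o1, mul_one]
    positivity

lemma KR.eps (x : (c : Cf C) → c.R) (h : ∀ c, ‖x c‖ ≤ c.ε) :
    KR oh oh (fun c _ => x c) := by
  refine ⟨1, by norm_num, fun c => ⟨fun _ => ?_, ?_⟩⟩
  · have h1 := h c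
    have h2 := c.ρ0
    simp only [oh, one_mul]
    linarith
  · have h0 := c.d0
    have h1 := c.ρ0
    have h2 := c.ε0
    simp only [sub_self, norm_zero, oh, one_mul]
    positivity

lemma KR.mono {α β α' β' : Cf C → ℝ} {f : QR C} (hf : KR α β f) (L : ℝ) (hL : 0 ≤ L)
    (h1 : ∀ c, α c ≤ L * α' c) (h2 : ∀ c, β c ≤ L * β' c) : KR α' β' f := by
  obtain ⟨K, hK, h⟩ := hf
  refine ⟨K * L, by positivity, fun c => ⟨fun b => ?_, ?_⟩⟩
  · calc ‖f c b‖ ≤ K * α c := (h c).1 b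
      _ ≤ K * (L * α' c) := mul_le_mul_of_nonneg_left (h1 c) hK
      _ = K * L * α' c := by ring
  · calc ‖f c true - f c false‖ ≤ K * β c * c.d := (h c).2
      _ ≤ K * (L * β' c) * c.d :=
        mul_le_mul_of_nonneg_right (mul_le_mul_of_nonneg_left (h2 c) hK) c.d0
      _ = K * L * β' c * c.d := by ring

lemma KE.mono {α β α' β' : Cf C → ℝ} {f : QE C} (hf : KE α β f) (L : ℝ) (hL : 0 ≤ L)
    (h1 : ∀ c, α c ≤ L * α' c) (h2 : ∀ c, β c ≤ L * β' c) : KE α' β' f := by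
  obtain ⟨K, hK, h⟩ := hf
  refine ⟨K * L, by positivity, fun c => ⟨fun b => ?_, ?_⟩⟩
  · calc ‖f c b‖ ≤ K * α c := (h c).1 b
      _ ≤ K * (L * α' c) := mul_le_mul_of_nonneg_left (h1 c) hK
      _ = K * L * α' c := by ring
  · calc ‖f c true - f c false‖ ≤ K * β c * c.d := (h c).2
      _ ≤ K * (L * β' c) * c.d :=
        mul_le_mul_of_nonneg_right (mul_le_mul_of_nonneg_left (h2 c) hK) c.d0
      _ = K * L * β' c * c.d := by ring

/-! ### Sums -/

lemma KR.add {α β : Cf C → ℝ} {f g : QR C} (hf : KR α β f) (hg : KR α β g) :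
    KR α β (fun c b => f c b + g c b) := by
  obtain ⟨K, hK, h⟩ := hf
  obtain ⟨L, hL, h'⟩ := hg
  refine ⟨K + L, by positivity, fun c => ⟨fun b => ?_, ?_⟩⟩
  · calc ‖f c b + g c b‖ ≤ ‖f c b‖ + ‖g c b‖ := norm_add_le _ _
      _ ≤ K * α c + L * α c := add_le_add ((h c).1 b) ((h' c).1 b)
      _ = (K + L) * α c := by ring
  · calc ‖f c true + g c true - (f c false + g c false)‖
        = ‖(f c true - f c false) + (g c true - g c false)‖ := by congr 1; abel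
      _ ≤ ‖f c true - f c false‖ + ‖g c true - g c false‖ := norm_add_le _ _
      _ ≤ K * β c * c.d + L * β c * c.d := add_le_add (h c).2 (h' c).2
      _ = (K + L) * β c * c.d := by ring

lemma KE.add {α β : Cf C → ℝ} {f g : QE C} (hf : KE α β f) (hg : KE α β g) :
    KE α β (fun c b => f c b + g c b) := by
  obtain ⟨K, hK, h⟩ := hf
  obtain ⟨L, hL, h'⟩ := hg
  refine ⟨K + L, by positivity, fun c => ⟨fun b => ?_, ?_⟩⟩
  · calc ‖f c b + g c b‖ ≤ ‖f c b‖ + ‖g c b‖ := norm_add_le _ _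
      _ ≤ K * α c + L * α c := add_le_add ((h c).1 b) ((h' c).1 b)
      _ = (K + L) * α c := by ring
  · calc ‖f c true + g c true - (f c false + g c false)‖
        = ‖(f c true - f c false) + (g c true - g c false)‖ := by congr 1; abel
      _ ≤ ‖f c true - f c false‖ + ‖g c true - g c false‖ := norm_add_le _ _
      _ ≤ K * β c * c.d + L * β c * c.d := add_le_add (h c).2 (h' c).2
      _ = (K + L) * β c * c.d := by ring

lemma KR.neg {α β : Cf C → ℝ} {f : QR C} (hf : KR α β f) :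
    KR α β (fun c b => -f c b) := by
  obtain ⟨K, hK, h⟩ := hf
  refine ⟨K, hK, fun c => ⟨fun b => ?_, ?_⟩⟩
  · rw [norm_neg]; exact (h c).1 b
  · have : -f c true - -f c false = -(f c true - f c false) := by abel
    rw [this, norm_neg]; exact (h c).2

lemma KR.sub {α β : Cf C → ℝ} {f g : QR C} (hf : KR α β f) (hg : KR α β g) :
    KR α β (fun c b => f c b - g c b) := by
  have := hf.add hg.neg
  simpa only [← sub_eq_add_neg] using this

lemma KR.star {α β : Cf C → ℝ} {f : QR C} (hf : KR α β f) :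
    KR α β (fun c b => Star.star (f c b)) := by
  obtain ⟨K, hK, h⟩ := hf
  refine ⟨K, hK, fun c => ⟨fun b => ?_, ?_⟩⟩
  · rw [c.s.norm_star]; exact (h c).1 b
  · rw [← star_sub, c.s.norm_star]; exact (h c).2

/-! ### Products -/

lemma num_mul {x y K1 K2 a1 a2 : ℝ} (hx : 0 ≤ x) (hy : 0 ≤ y)
    (h1 : x ≤ K1 * a1) (h2 : y ≤ K2 * a2) : x * y ≤ K1 * K2 * (a1 * a2) := by
  calc x * y ≤ (K1 * a1) * (K2 * a2) := mul_le_mul h1 h2 hy (le_trans hx h1)
    _ = K1 * K2 * (a1 * a2) := by ring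

lemma num_mul2 {x dy dx y K1 K2 a1 a2 b1 b2 d : ℝ} (hx : 0 ≤ x) (hdy : 0 ≤ dy) (hdx : 0 ≤ dx)
    (hy : 0 ≤ y) (h1 : x ≤ K1 * a1) (h2 : dy ≤ K2 * b2 * d) (h3 : dx ≤ K1 * b1 * d)
    (h4 : y ≤ K2 * a2) : x * dy + dx * y ≤ K1 * K2 * (a1 * b2 + b1 * a2) * d := by
  calc x * dy + dx * y ≤ (K1 * a1) * (K2 * b2 * d) + (K1 * b1 * d) * (K2 * a2) :=
        add_le_add (mul_le_mul h1 h2 hdy (le_trans hx h1)) (mul_le_mul h3 h4 hy (le_trans hdx h3))
    _ = K1 * K2 * (a1 * b2 + b1 * a2) * d := by ring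

lemma KR.mul {α β α' β' : Cf C → ℝ} {f g : QR C} (hf : KR α β f) (hg : KR α' β' g) :
    KR (fun c => α c * α' c) (fun c => α c * β' c + β c * α' c) (fun c b => f c b * g c b) := by
  obtain ⟨K, hK, h⟩ := hf
  obtain ⟨L, hL, h'⟩ := hg
  refine ⟨K * L, by positivity, fun c => ⟨fun b => ?_, ?_⟩⟩
  · exact le_trans (norm_mul_le _ _)
      (num_mul (norm_nonneg _) (norm_nonneg _) ((h c).1 b) ((h' c).1 b))
  · calc ‖f c true * g c true - f c false * g c false‖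
        = ‖f c true * (g c true - g c false) + (f c true - f c false) * g c false‖ := by
          congr 1; ring
      _ ≤ ‖f c true‖ * ‖g c true - g c false‖ + ‖f c true - f c false‖ * ‖g c false‖ :=
        le_trans (norm_add_le _ _) (add_le_add (norm_mul_le _ _) (norm_mul_le _ _))
      _ ≤ _ := num_mul2 (norm_nonneg _) (norm_nonneg _) (norm_nonneg _) (norm_nonneg _)
        ((h c).1 true) (h' c).2 (h c).2 ((h' c).1 false)

lemma KE.smul {α β α' β' : Cf C → ℝ} {f : QR C} {g : QE C} (hf : KR α β f) (hg : KE α' β' g) :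
    KE (fun c => α c * α' c) (fun c => α c * β' c + β c * α' c) (fun c b => f c b • g c b) := by
  obtain ⟨K, hK, h⟩ := hf
  obtain ⟨L, hL, h'⟩ := hg
  refine ⟨K * L, by positivity, fun c => ⟨fun b => ?_, ?_⟩⟩
  · exact le_trans (c.s.norm_smul _ _)
      (num_mul (norm_nonneg _) (norm_nonneg _) ((h c).1 b) ((h' c).1 b))
  · calc ‖f c true • g c true - f c false • g c false‖
        = ‖f c true • (g c true - g c false) + (f c true - f c false) • g c false‖ := by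
          congr 1; rw [smul_sub, sub_smul]; abel
      _ ≤ ‖f c true‖ * ‖g c true - g c false‖ + ‖f c true - f c false‖ * ‖g c false‖ :=
        le_trans (norm_add_le _ _) (add_le_add (c.s.norm_smul _ _) (c.s.norm_smul _ _))
      _ ≤ _ := num_mul2 (norm_nonneg _) (norm_nonneg _) (norm_nonneg _) (norm_nonneg _)
        ((h c).1 true) (h' c).2 (h c).2 ((h' c).1 false)

section ip
variable {R E : Type} [NormedCommRing R] [StarRing R] [NormedAddCommGroup E] [Module R E]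
  (s : Sys C R E)

lemma ip_add_right (u v w : E) : s.ip u (v + w) = s.ip u v + s.ip u w := by
  rw [← s.star_ip, s.ip_add, star_add, s.star_ip, s.star_ip]

lemma ip_smul_right (a : R) (u w : E) : s.ip u (a • w) = star a * s.ip u w := by
  rw [← s.star_ip, s.ip_smul, star_mul, s.star_ip, mul_comm]

lemma ip_sub_left (u v w : E) : s.ip (u - v) w = s.ip u w - s.ip v w := by
  have := s.ip_add (u - v) v w
  rw [sub_add_cancel] at this
  rw [this]; ring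

lemma ip_sub_right (u v w : E) : s.ip u (v - w) = s.ip u v - s.ip u w := by
  have := ip_add_right s u (v - w) w
  rw [sub_add_cancel] at this
  rw [this]; ring

end ip

lemma KR.ip {α β α' β' : Cf C → ℝ} {f g : QE C} (hf : KE α β f) (hg : KE α' β' g) :
    KR (fun c => α c * α' c) (fun c => α c * β' c + β c * α' c)
      (fun c b => c.s.ip (f c b) (g c b)) := by
  obtain ⟨K, hK, h⟩ := hf
  obtain ⟨L, hL, h'⟩ := hg
  refine ⟨K * L, by positivity, fun c => ⟨fun b => ?_, ?_⟩⟩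
  · exact le_trans (c.s.norm_ip _ _)
      (num_mul (norm_nonneg _) (norm_nonneg _) ((h c).1 b) ((h' c).1 b))
  · calc ‖c.s.ip (f c true) (g c true) - c.s.ip (f c false) (g c false)‖
        = ‖c.s.ip (f c true) (g c true - g c false) +
            c.s.ip (f c true - f c false) (g c false)‖ := by
          congr 1; rw [ip_sub_right, ip_sub_left]; ring
      _ ≤ ‖f c true‖ * ‖g c true - g c false‖ + ‖f c true - f c false‖ * ‖g c false‖ :=
        le_trans (norm_add_le _ _) (add_le_add (c.s.norm_ip _ _) (c.s.norm_ip _ _))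
      _ ≤ _ := num_mul2 (norm_nonneg _) (norm_nonneg _) (norm_nonneg _) (norm_nonneg _)
        ((h c).1 true) (h' c).2 (h c).2 ((h' c).1 false)

/-! ### Operators -/

lemma KR.op (hC : 0 ≤ C) {α β : Cf C → ℝ} {f : QR C} (hf : KR α β f) (L : (c : Cf C) → c.R →+ c.R)
    (hL : ∀ c a, ‖L c a‖ ≤ C * ‖a‖) : KR α β (fun c b => L c (f c b)) := by
  obtain ⟨K, hK, h⟩ := hf
  refine ⟨C * K, by positivity, fun c => ⟨fun b => ?_, ?_⟩⟩
  · calc ‖L c (f c b)‖ ≤ C * ‖f c b‖ := hL c _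
      _ ≤ C * (K * α c) := mul_le_mul_of_nonneg_left ((h c).1 b) hC
      _ = C * K * α c := by ring
  · rw [← map_sub]
    calc ‖L c (f c true - f c false)‖ ≤ C * ‖f c true - f c false‖ := hL c _
      _ ≤ C * (K * β c * c.d) := mul_le_mul_of_nonneg_left (h c).2 hC
      _ = C * K * β c * c.d := by ring

lemma KE.op (hC : 0 ≤ C) {α β : Cf C → ℝ} {f : QE C} (hf : KE α β f) (L : (c : Cf C) → c.E →+ c.E)
    (hL : ∀ c a, ‖L c a‖ ≤ C * ‖a‖) : KE α β (fun c b => L c (f c b)) := by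
  obtain ⟨K, hK, h⟩ := hf
  refine ⟨C * K, by positivity, fun c => ⟨fun b => ?_, ?_⟩⟩
  · calc ‖L c (f c b)‖ ≤ C * ‖f c b‖ := hL c _
      _ ≤ C * (K * α c) := mul_le_mul_of_nonneg_left ((h c).1 b) hC
      _ = C * K * α c := by ring
  · rw [← map_sub]
    calc ‖L c (f c true - f c false)‖ ≤ C * ‖f c true - f c false‖ := hL c _
      _ ≤ C * (K * β c * c.d) := mul_le_mul_of_nonneg_left (h c).2 hC
      _ = C * K * β c * c.d := by ring

/-! ### The special classes -/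

/-- bounded -/
abbrev BdR (f : QR C) : Prop := KR o1 o1 f
/-- small -/
abbrev SlR (f : QR C) : Prop := KR oρ o1 f
/-- quadratic -/
abbrev QdR (f : QR C) : Prop := KR oq oρ f
/-- error -/
abbrev ErR (f : QR C) : Prop := KR oh oh f
/-- bounded -/
abbrev BdE (f : QE C) : Prop := KE o1 o1 f
/-- small -/
abbrev SlE (f : QE C) : Prop := KE oρ o1 f
/-- quadratic -/
abbrev QdE (f : QE C) : Prop := KE oq oρ f

lemma SlR.bd {f : QR C} (h : SlR f) : BdR f :=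
  KR.mono h 1 (by norm_num) (fun c => by simpa [oρ, o1] using c.ρ1) (fun c => by simp)

lemma SlE.bd {f : QE C} (h : SlE f) : BdE f :=
  KE.mono h 1 (by norm_num) (fun c => by simpa [oρ, o1] using c.ρ1) (fun c => by simp)

lemma QdR.sl {f : QR C} (h : QdR f) : SlR f :=
  KR.mono h 1 (by norm_num)
    (fun c => by have h0 := c.ρ0; have h1 := c.ρ1; simp only [oρ, oq]; nlinarith)
    (fun c => by simpa [oρ, o1] using c.ρ1)

lemma QdE.sl {f : QE C} (h : QdE f) : SlE f :=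
  KE.mono h 1 (by norm_num)
    (fun c => by have h0 := c.ρ0; have h1 := c.ρ1; simp only [oρ, oq]; nlinarith)
    (fun c => by simpa [oρ, o1] using c.ρ1)

lemma QdR.er {f : QR C} (h : QdR f) : ErR f :=
  KR.mono h 1 (by norm_num)
    (fun c => by
      have h0 := c.ρ0; have h1 := c.ρ1; have h2 := c.ε0; simp only [oh, oq]; nlinarith)
    (fun c => by have h2 := c.ε0; simp only [oh, oρ]; linarith)

lemma ErR.bd {f : QR C} (h : ErR f) : BdR f :=
  KR.mono h 2 (by norm_num)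
    (fun c => by have h0 := c.ρ1; have h1 := c.ε1; simp only [oh, o1]; linarith)
    (fun c => by have h0 := c.ρ1; have h1 := c.ε1; simp only [oh, o1]; linarith)

lemma BdR.mul {f g : QR C} (h : BdR f) (h' : BdR g) : BdR (fun c b => f c b * g c b) :=
  KR.mono (KR.mul h h') 2 (by norm_num) (fun c => by norm_num [o1]) (fun c => by norm_num [o1])

lemma SlR.mul_bd {f g : QR C} (h : SlR f) (h' : BdR g) : SlR (fun c b => f c b * g c b) :=
  KR.mono (KR.mul h h') 2 (by norm_num)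
    (fun c => by have h0 := c.ρ0; simp only [oρ, o1]; linarith)
    (fun c => by have h1 := c.ρ1; simp only [oρ, o1]; linarith)

lemma BdR.mul_sl {f g : QR C} (h : BdR f) (h' : SlR g) : SlR (fun c b => f c b * g c b) := by
  have := SlR.mul_bd h' h
  simpa only [mul_comm] using this

lemma SlR.mul {f g : QR C} (h : SlR f) (h' : SlR g) : QdR (fun c b => f c b * g c b) :=
  KR.mono (KR.mul h h') 2 (by norm_num)
    (fun c => by have h0 := c.ρ0; simp only [oρ, oq]; nlinarith)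
    (fun c => by simp only [oρ, o1]; linarith)

lemma ErR.mul_bd {f g : QR C} (h : ErR f) (h' : BdR g) : ErR (fun c b => f c b * g c b) :=
  KR.mono (KR.mul h h') 2 (by norm_num)
    (fun c => by have h0 := c.ρ0; have h1 := c.ε0; simp only [oh, o1]; linarith)
    (fun c => by simp only [oh, o1]; linarith)

lemma BdR.mul_er {f g : QR C} (h : BdR f) (h' : ErR g) : ErR (fun c b => f c b * g c b) := by
  have := ErR.mul_bd h' h
  simpa only [mul_comm] using this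

lemma SlE.smul_bd {f : QR C} {g : QE C} (h : SlR f) (h' : BdE g) :
    SlE (fun c b => f c b • g c b) :=
  KE.mono (KE.smul h h') 2 (by norm_num)
    (fun c => by have h0 := c.ρ0; simp only [oρ, o1]; linarith)
    (fun c => by have h1 := c.ρ1; simp only [oρ, o1]; linarith)

lemma SlE.smul {f : QR C} {g : QE C} (h : SlR f) (h' : SlE g) :
    QdE (fun c b => f c b • g c b) :=
  KE.mono (KE.smul h h') 2 (by norm_num)
    (fun c => by have h0 := c.ρ0; simp only [oρ, oq]; nlinarith)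
    (fun c => by simp only [oρ, o1]; linarith)

lemma BdE.ip {f g : QE C} (h : BdE f) (h' : BdE g) : BdR (fun c b => c.s.ip (f c b) (g c b)) :=
  KR.mono (KR.ip h h') 2 (by norm_num) (fun c => by norm_num [o1]) (fun c => by norm_num [o1])

lemma SlE.ip_bd {f g : QE C} (h : SlE f) (h' : BdE g) :
    SlR (fun c b => c.s.ip (f c b) (g c b)) :=
  KR.mono (KR.ip h h') 2 (by norm_num)
    (fun c => by have h0 := c.ρ0; simp only [oρ, o1]; linarith)
    (fun c => by have h1 := c.ρ1; simp only [oρ, o1]; linarith)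

lemma BdE.ip_sl {f g : QE C} (h : BdE f) (h' : SlE g) :
    SlR (fun c b => c.s.ip (f c b) (g c b)) :=
  KR.mono (KR.ip h h') 2 (by norm_num)
    (fun c => by have h0 := c.ρ0; simp only [oρ, o1]; linarith)
    (fun c => by have h1 := c.ρ1; simp only [oρ, o1]; linarith)

lemma SlE.ip {f g : QE C} (h : SlE f) (h' : SlE g) :
    QdR (fun c b => c.s.ip (f c b) (g c b)) :=
  KR.mono (KR.ip h h') 2 (by norm_num)
    (fun c => by have h0 := c.ρ0; simp only [oρ, oq]; nlinarith)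
    (fun c => by simp only [oρ, o1]; linarith)

lemma QdE.ip_bd {f g : QE C} (h : QdE f) (h' : BdE g) :
    QdR (fun c b => c.s.ip (f c b) (g c b)) :=
  KR.mono (KR.ip h h') 2 (by norm_num)
    (fun c => by have h0 := c.ρ0; simp only [oq, o1]; nlinarith)
    (fun c => by have h0 := c.ρ0; have h1 := c.ρ1; simp only [oρ, oq, o1]; nlinarith)

lemma BdE.ip_qd {f g : QE C} (h : BdE f) (h' : QdE g) :
    QdR (fun c b => c.s.ip (f c b) (g c b)) :=
  KR.mono (KR.ip h h') 2 (by norm_num)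
    (fun c => by have h0 := c.ρ0; simp only [oq, o1]; nlinarith)
    (fun c => by have h0 := c.ρ0; have h1 := c.ρ1; simp only [oρ, oq, o1]; nlinarith)


/-! ### Congruence modulo errors -/

/-- Congruence modulo errors. -/
def Cg (f g : QR C) : Prop := ErR (fun c b => f c b - g c b)

lemma Cg.mk {f g e : QR C} (he : ErR e) (h : ∀ c b, f c b - g c b = e c b) : Cg f g := by
  have : (fun c b => f c b - g c b) = e := by funext c b; exact h c b
  unfold Cg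
  rw [this]; exact he

lemma er_zero : ErR (fun (c : Cf C) _ => (0 : c.R)) :=
  ⟨0, le_rfl, fun c => ⟨fun _ => by simp, by simp⟩⟩

lemma Cg.refl (f : QR C) : Cg f f := Cg.mk er_zero (fun _ _ => sub_self _)

lemma Cg.symm {f g : QR C} (h : Cg f g) : Cg g f :=
  Cg.mk h.neg (fun c b => by ring)

lemma Cg.trans {f g l : QR C} (h : Cg f g) (h' : Cg g l) : Cg f l :=
  Cg.mk (h.add h') (fun c b => by ring)

lemma Cg.add {f g f' g' : QR C} (h : Cg f g) (h' : Cg f' g') :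
    Cg (fun c b => f c b + f' c b) (fun c b => g c b + g' c b) :=
  Cg.mk (KR.add h h') (fun c b => by ring)

lemma Cg.sub {f g f' g' : QR C} (h : Cg f g) (h' : Cg f' g') :
    Cg (fun c b => f c b - f' c b) (fun c b => g c b - g' c b) :=
  Cg.mk (KR.sub h h') (fun c b => by ring)

lemma Cg.of_er {f : QR C} (h : ErR f) : Cg f (fun _ _ => 0) :=
  Cg.mk h (fun c b => by ring)

lemma Cg.star {f g : QR C} (h : Cg f g) :
    Cg (fun c b => Star.star (f c b)) (fun c b => Star.star (g c b)) :=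
  Cg.mk (KR.star h) (fun c b => by rw [star_sub])

lemma Cg.bd {f g : QR C} (h : Cg f g) (hf : BdR f) : BdR g := by
  have h1 := KR.sub hf (ErR.bd h)
  have h2 : (fun c b => f c b - (f c b - g c b)) = g := by funext c b; ring
  rw [h2] at h1; exact h1

lemma Cg.mul {f g f' g' : QR C} (h : Cg f g) (h' : Cg f' g') (hf : BdR f) (hg' : BdR g') :
    Cg (fun c b => f c b * f' c b) (fun c b => g c b * g' c b) :=
  Cg.mk (KR.add (BdR.mul_er hf h') (ErR.mul_bd h hg')) (fun c b => by ring)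

lemma Cg.cmul {f g l : QR C} (hl : BdR l) (h : Cg f g) :
    Cg (fun c b => l c b * f c b) (fun c b => l c b * g c b) :=
  Cg.mk (BdR.mul_er hl h) (fun c b => by ring)

lemma ErR.congr {f g : QR C} (h : ErR f) (e : ∀ c b, g c b = f c b) : ErR g := by
  have : g = f := by funext c b; exact e c b
  rw [this]; exact h

lemma star_hf {R E : Type} [NormedCommRing R] [StarRing R] [NormedAddCommGroup E] [Module R E]
    (s : Sys C R E) : star s.hf = s.hf := by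
  have h1 : star (2 * s.hf) = star 1 := by rw [s.two_hf]
  rw [star_mul, star_one, star_ofNat] at h1
  calc star s.hf = star s.hf * (2 * s.hf) := by rw [s.two_hf, mul_one]
    _ = (star s.hf * 2) * s.hf := by ring
    _ = s.hf := by rw [h1, one_mul]

/-! ### Constants -/

lemma bd_one : BdR (fun (c : Cf C) _ => (1 : c.R)) :=
  KR.const _ 1 (by norm_num) (fun c => c.s.norm_one)

lemma bd_nat (n : ℕ) : BdR (fun (c : Cf C) _ => (n : c.R)) := by
  induction n with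
  | zero => simpa using (er_zero (C := C)).bd
  | succ n ih => simpa using KR.add ih bd_one

lemma bd_ofNat (n : ℕ) [n.AtLeastTwo] : BdR (fun (c : Cf C) _ => (OfNat.ofNat n : c.R)) := by
  have h := bd_nat (C := C) (OfNat.ofNat n)
  simpa only [Nat.cast_ofNat] using h

lemma bd_hf : BdR (fun (c : Cf C) _ => c.s.hf) :=
  KR.const _ 1 (by norm_num) (fun c => c.s.norm_hf)

lemma bd_ii : BdR (fun (c : Cf C) _ => c.s.ii) :=
  KR.const _ 1 (by norm_num) (fun c => c.s.norm_ii)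

lemma bd_F1 (hC : 0 ≤ C) : BdE (fun (c : Cf C) _ => c.s.F1) :=
  KE.const _ C hC (fun c => c.s.norm_F1)

lemma bd_F2 (hC : 0 ≤ C) : BdE (fun (c : Cf C) _ => c.s.F2) :=
  KE.const _ C hC (fun c => c.s.norm_F2)

lemma bd_F3 (hC : 0 ≤ C) : BdE (fun (c : Cf C) _ => c.s.F3) :=
  KE.const _ C hC (fun c => c.s.norm_F3)

/-! ### The quantities -/

/-- k -/
def k_ : QR C := fun c x => c.k x
/-- kappa -/
def κ_ : QR C := fun c x => c.s.kp (c.k x)
/-- mu -/
def μ_ : QR C := fun c x => c.s.mq (c.k x)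
/-- b -/
def b_ : QR C := fun c x => c.s.bq (c.k x)
/-- phi -/
def φ_ : QE C := fun c x => c.φ x
/-- psi -/
def ψ_ : QE C := fun c x => c.s.nx (c.k x) (c.φ x)
/-- p1 -/
def P1_ : QE C := fun c x => c.s.p1 (c.k x) (ψ_ c x)
/-- p2 -/
def P2_ : QE C := fun c x => c.s.p2 (c.k x) (ψ_ c x)
/-- v1 -/
def V1_ : QE C := fun c x => c.s.v1 (c.k x) (ψ_ c x)
/-- w2 -/
def W2_ : QE C := fun c x => c.s.w2 (c.k x) (ψ_ c x)
/-- z2 -/
def Z2_ : QE C := fun c x => c.s.z2 (c.k x) (ψ_ c x)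
/-- u1 -/
def U1_ : QE C := fun c x => c.s.u1 (ψ_ c x)
/-- u2 -/
def U2_ : QE C := fun c x => c.s.u2 (ψ_ c x)

lemma sl_k : SlR (k_ (C := C)) := by
  refine ⟨1, by norm_num, fun c => ⟨fun x => ?_, ?_⟩⟩
  · simpa [oρ, k_] using c.nk x
  · simp only [o1, one_mul, k_]
    unfold Cf.d
    linarith [norm_nonneg (c.φ true - c.φ false)]

lemma sl_φ : SlE (φ_ (C := C)) := by
  refine ⟨1, by norm_num, fun c => ⟨fun x => ?_, ?_⟩⟩
  · simpa [oρ, φ_] using c.nφ x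
  · simp only [o1, one_mul, φ_]
    unfold Cf.d
    linarith [norm_nonneg (c.k true - c.k false)]

lemma sl_κ (hC : 0 ≤ C) : SlR (κ_ (C := C)) :=
  KR.op hC sl_k (fun c => c.s.kp) (fun c => c.s.norm_kp)

lemma sl_μ (hC : 0 ≤ C) : SlR (μ_ (C := C)) :=
  KR.op hC sl_k (fun c => c.s.mq) (fun c => c.s.norm_mq)

lemma sl_b (hC : 0 ≤ C) : SlR (b_ (C := C)) :=
  KR.op hC sl_k (fun c => c.s.bq) (fun c => c.s.norm_bq)

lemma qd_ψ (hC : 0 ≤ C) : QdE (ψ_ (C := C)) := by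
  have h1 : SlE (fun (c : Cf C) x => (κ_ c x • c.s.F2 + b_ c x • c.s.F3) + c.s.u2 (φ_ c x)) :=
    KE.add (KE.add (SlE.smul_bd (sl_κ hC) (bd_F2 hC)) (SlE.smul_bd (sl_b hC) (bd_F3 hC)))
      (KE.op hC sl_φ (fun c => c.s.u2) (fun c => c.s.norm_u2))
  have h2 : SlE (fun (c : Cf C) x => c.s.t2 (φ_ c x + μ_ c x • c.s.F2)) :=
    KE.op hC (KE.add sl_φ (SlE.smul_bd (sl_μ hC) (bd_F2 hC))) (fun c => c.s.t2)
      (fun c => c.s.norm_t2)
  have h3 := KE.add (SlE.smul (sl_μ hC) h1) (SlE.smul (KR.star (sl_μ hC)) h2)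
  have h4 : (fun (c : Cf C) (x : Bool) => μ_ c x • ((κ_ c x • c.s.F2 + b_ c x • c.s.F3) +
      c.s.u2 (φ_ c x)) + Star.star (μ_ c x) • c.s.t2 (φ_ c x + μ_ c x • c.s.F2)) = ψ_ := by
    funext c x
    simp only [ψ_, Sys.nx, Sys.p2, Sys.w2, Sys.z2, μ_, κ_, b_, φ_]
    congr 2
    abel
  rw [h4] at h3
  exact h3

lemma qd_U1 (hC : 0 ≤ C) : QdE (U1_ (C := C)) :=
  KE.op hC (qd_ψ hC) (fun c => c.s.u1) (fun c => c.s.norm_u1)

lemma qd_U2 (hC : 0 ≤ C) : QdE (U2_ (C := C)) :=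
  KE.op hC (qd_ψ hC) (fun c => c.s.u2) (fun c => c.s.norm_u2)

lemma sl_Z2 (hC : 0 ≤ C) : SlE (Z2_ (C := C)) :=
  KE.add (QdE.sl (qd_ψ hC)) (SlE.smul_bd (sl_μ hC) (bd_F2 hC))

lemma sl_V1 (hC : 0 ≤ C) : SlE (V1_ (C := C)) :=
  KE.op hC (sl_Z2 hC) (fun c => c.s.t1) (fun c => c.s.norm_t1)

lemma sl_W2 (hC : 0 ≤ C) : SlE (W2_ (C := C)) :=
  KE.op hC (sl_Z2 hC) (fun c => c.s.t2) (fun c => c.s.norm_t2)

lemma bd_P1 (hC : 0 ≤ C) : BdE (P1_ (C := C)) :=
  KE.add (KE.add (bd_F1 hC) (SlE.bd (SlE.smul_bd (sl_b hC) (bd_F2 hC))))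
    (SlE.bd (QdE.sl (qd_U1 hC)))

lemma bd_P2 (hC : 0 ≤ C) : BdE (P2_ (C := C)) :=
  KE.add (KE.add (KE.add (bd_F2 hC) (SlE.bd (SlE.smul_bd (sl_κ hC) (bd_F2 hC))))
    (SlE.bd (SlE.smul_bd (sl_b hC) (bd_F3 hC)))) (SlE.bd (QdE.sl (qd_U2 hC)))

lemma bd_P1' (hC : 0 ≤ C) : BdE (fun (c : Cf C) x => c.s.F1 + b_ c x • c.s.F2) :=
  KE.add (bd_F1 hC) (SlE.bd (SlE.smul_bd (sl_b hC) (bd_F2 hC)))

lemma bd_P2' (hC : 0 ≤ C) :
    BdE (fun (c : Cf C) x => c.s.F2 + κ_ c x • c.s.F2 + b_ c x • c.s.F3) :=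
  KE.add (KE.add (bd_F2 hC) (SlE.bd (SlE.smul_bd (sl_κ hC) (bd_F2 hC))))
    (SlE.bd (SlE.smul_bd (sl_b hC) (bd_F3 hC)))

/-! ### Gram products -/

lemma er11 : ErR (fun (c : Cf C) _ => c.s.ip c.s.F1 c.s.F1 - 1) := KR.eps _ (fun c => c.gr.g11)
lemma er21 : ErR (fun (c : Cf C) _ => c.s.ip c.s.F2 c.s.F1 - c.s.ii) :=
  KR.eps _ (fun c => c.gr.g21)
lemma er22 : ErR (fun (c : Cf C) _ => c.s.ip c.s.F2 c.s.F2 - 3 * c.s.hf) :=
  KR.eps _ (fun c => c.gr.g22)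
lemma er31 : ErR (fun (c : Cf C) _ => c.s.ip c.s.F3 c.s.F1 + 3 * c.s.hf) :=
  KR.eps _ (fun c => c.gr.g31)
lemma er32 : ErR (fun (c : Cf C) _ => c.s.ip c.s.F3 c.s.F2 - 3 * c.s.ii) :=
  KR.eps _ (fun c => c.gr.g32)

lemma er12 : ErR (fun (c : Cf C) _ => c.s.ip c.s.F1 c.s.F2 + c.s.ii) := by
  have h := KR.star (er21 (C := C))
  have : (fun (c : Cf C) (_ : Bool) => Star.star (c.s.ip c.s.F2 c.s.F1 - c.s.ii)) =
      (fun (c : Cf C) (_ : Bool) => c.s.ip c.s.F1 c.s.F2 + c.s.ii) := by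
    funext c x
    rw [star_sub, c.s.star_ip, c.s.star_ii, sub_neg_eq_add]
  rw [this] at h
  exact h

lemma er23 : ErR (fun (c : Cf C) _ => c.s.ip c.s.F2 c.s.F3 + 3 * c.s.ii) := by
  have h := KR.star (er32 (C := C))
  have : (fun (c : Cf C) (_ : Bool) => Star.star (c.s.ip c.s.F3 c.s.F2 - 3 * c.s.ii)) =
      (fun (c : Cf C) (_ : Bool) => c.s.ip c.s.F2 c.s.F3 + 3 * c.s.ii) := by
    funext c x
    rw [star_sub, c.s.star_ip, star_mul, c.s.star_ii, star_ofNat]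
    ring
  rw [this] at h
  exact h

/-- s1 -/
def s1 : QR C := fun c x => c.s.ii * b_ c x - c.s.ii * star (b_ c x)
/-- s2 -/
def s2 : QR C := fun c x =>
  c.s.ii * κ_ c x - 3 * c.s.hf * b_ c x + 3 * c.s.hf * star (b_ c x)
/-- s3 -/
def s3 : QR C := fun c x =>
  3 * c.s.hf * k_ c x + 3 * c.s.ii * b_ c x - 3 * c.s.ii * star (b_ c x)

lemma bd_3h : BdR (fun (c : Cf C) _ => 3 * c.s.hf) := BdR.mul (bd_ofNat 3) bd_hf
lemma bd_3i : BdR (fun (c : Cf C) _ => 3 * c.s.ii) := BdR.mul (bd_ofNat 3) bd_ii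

lemma sl_s1 (hC : 0 ≤ C) : SlR (s1 (C := C)) :=
  KR.sub (BdR.mul_sl bd_ii (sl_b hC)) (BdR.mul_sl bd_ii (KR.star (sl_b hC)))

lemma sl_s2 (hC : 0 ≤ C) : SlR (s2 (C := C)) :=
  KR.add (KR.sub (BdR.mul_sl bd_ii (sl_κ hC)) (BdR.mul_sl bd_3h (sl_b hC)))
    (BdR.mul_sl bd_3h (KR.star (sl_b hC)))

lemma sl_s3 (hC : 0 ≤ C) : SlR (s3 (C := C)) :=
  KR.sub (KR.add (BdR.mul_sl bd_3h sl_k) (BdR.mul_sl bd_3i (sl_b hC)))
    (BdR.mul_sl bd_3i (KR.star (sl_b hC)))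

/-- g11 -/
def g11 : QR C := fun c x => c.s.ip (P1_ c x) (P1_ c x)
/-- g21 -/
def g21 : QR C := fun c x => c.s.ip (P2_ c x) (P1_ c x)
/-- g22 -/
def g22 : QR C := fun c x => c.s.ip (P2_ c x) (P2_ c x)

lemma cg11 (hC : 0 ≤ C) : Cg (g11 (C := C)) (fun c x => 1 + s1 c x) := by
  have hb := sl_b hC
  have hsb := KR.star hb
  have e : ErR (fun (c : Cf C) x =>
      (c.s.ip c.s.F1 c.s.F1 - 1) + b_ c x * (c.s.ip c.s.F2 c.s.F1 - c.s.ii)
      + star (b_ c x) * (c.s.ip c.s.F1 c.s.F2 + c.s.ii)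
      + (b_ c x * star (b_ c x)) * c.s.ip c.s.F2 c.s.F2
      + c.s.ip (c.s.F1 + b_ c x • c.s.F2) (U1_ c x)
      + c.s.ip (U1_ c x) (P1_ c x)) :=
    KR.add (KR.add (KR.add (KR.add (KR.add er11 (BdR.mul_er hb.bd er21))
      (BdR.mul_er (SlR.bd hsb) er12))
      (ErR.mul_bd (QdR.er (SlR.mul hb hsb)) (BdE.ip (bd_F2 hC) (bd_F2 hC))))
      (QdR.er (BdE.ip_qd (bd_P1' hC) (qd_U1 hC))))
      (QdR.er (QdE.ip_bd (qd_U1 hC) (bd_P1 hC)))
  refine Cg.mk e (fun c x => ?_)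
  have h1 : P1_ c x = (c.s.F1 + b_ c x • c.s.F2) + U1_ c x := rfl
  have h2 : g11 c x = c.s.ip (c.s.F1 + b_ c x • c.s.F2) (c.s.F1 + b_ c x • c.s.F2)
      + c.s.ip (c.s.F1 + b_ c x • c.s.F2) (U1_ c x) + c.s.ip (U1_ c x) (P1_ c x) := by
    unfold g11
    conv_lhs => rw [show c.s.ip (P1_ c x) (P1_ c x)
      = c.s.ip ((c.s.F1 + b_ c x • c.s.F2) + U1_ c x) (P1_ c x) from rfl]
    rw [c.s.ip_add, h1, ip_add_right]
  rw [h2, s1]
  simp only [ip_add_right, ip_smul_right, c.s.ip_add, c.s.ip_smul]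
  ring

lemma cg21 (hC : 0 ≤ C) : Cg (g21 (C := C)) (fun c x => c.s.ii + s2 c x) := by
  have hb := sl_b hC
  have hsb := KR.star hb
  have hκ := sl_κ hC
  have e : ErR (fun (c : Cf C) x =>
      (c.s.ip c.s.F2 c.s.F1 - c.s.ii) + κ_ c x * (c.s.ip c.s.F2 c.s.F1 - c.s.ii)
      + b_ c x * (c.s.ip c.s.F3 c.s.F1 + 3 * c.s.hf)
      + star (b_ c x) * (c.s.ip c.s.F2 c.s.F2 - 3 * c.s.hf)
      + (star (b_ c x) * κ_ c x) * c.s.ip c.s.F2 c.s.F2
      + (star (b_ c x) * b_ c x) * c.s.ip c.s.F3 c.s.F2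
      + c.s.ip (c.s.F2 + κ_ c x • c.s.F2 + b_ c x • c.s.F3) (U1_ c x)
      + c.s.ip (U2_ c x) (P1_ c x)) :=
    KR.add (KR.add (KR.add (KR.add (KR.add (KR.add (KR.add er21 (BdR.mul_er hκ.bd er21))
      (BdR.mul_er hb.bd er31)) (BdR.mul_er (SlR.bd hsb) er22))
      (ErR.mul_bd (QdR.er (SlR.mul hsb hκ)) (BdE.ip (bd_F2 hC) (bd_F2 hC))))
      (ErR.mul_bd (QdR.er (SlR.mul hsb hb)) (BdE.ip (bd_F3 hC) (bd_F2 hC))))
      (QdR.er (BdE.ip_qd (bd_P2' hC) (qd_U1 hC))))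
      (QdR.er (QdE.ip_bd (qd_U2 hC) (bd_P1 hC)))
  refine Cg.mk e (fun c x => ?_)
  have h1 : P1_ c x = (c.s.F1 + b_ c x • c.s.F2) + U1_ c x := rfl
  have h2 : g21 c x = c.s.ip (c.s.F2 + κ_ c x • c.s.F2 + b_ c x • c.s.F3)
        (c.s.F1 + b_ c x • c.s.F2)
      + c.s.ip (c.s.F2 + κ_ c x • c.s.F2 + b_ c x • c.s.F3) (U1_ c x)
      + c.s.ip (U2_ c x) (P1_ c x) := by
    unfold g21
    conv_lhs => rw [show c.s.ip (P2_ c x) (P1_ c x)
      = c.s.ip ((c.s.F2 + κ_ c x • c.s.F2 + b_ c x • c.s.F3) + U2_ c x) (P1_ c x) from rfl]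
    rw [c.s.ip_add, h1, ip_add_right]
  rw [h2, s2]
  simp only [ip_add_right, ip_smul_right, c.s.ip_add, c.s.ip_smul]
  ring

lemma cg22 (hC : 0 ≤ C) : Cg (g22 (C := C)) (fun c x => 3 * c.s.hf + s3 c x) := by
  have hb := sl_b hC
  have hsb := KR.star hb
  have hκ := sl_κ hC
  have hsκ := KR.star hκ
  have e : ErR (fun (c : Cf C) x =>
      (c.s.ip c.s.F2 c.s.F2 - 3 * c.s.hf) + κ_ c x * (c.s.ip c.s.F2 c.s.F2 - 3 * c.s.hf)
      + b_ c x * (c.s.ip c.s.F3 c.s.F2 - 3 * c.s.ii)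
      + star (κ_ c x) * (c.s.ip c.s.F2 c.s.F2 - 3 * c.s.hf)
      + star (b_ c x) * (c.s.ip c.s.F2 c.s.F3 + 3 * c.s.ii)
      + (star (κ_ c x) * κ_ c x) * c.s.ip c.s.F2 c.s.F2
      + (star (κ_ c x) * b_ c x) * c.s.ip c.s.F3 c.s.F2
      + (star (b_ c x) * κ_ c x) * c.s.ip c.s.F2 c.s.F3
      + (star (b_ c x) * b_ c x) * c.s.ip c.s.F3 c.s.F3
      + c.s.ip (c.s.F2 + κ_ c x • c.s.F2 + b_ c x • c.s.F3) (U2_ c x)
      + c.s.ip (U2_ c x) (P2_ c x)) :=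
    KR.add (KR.add (KR.add (KR.add (KR.add (KR.add (KR.add (KR.add (KR.add (KR.add
      er22 (BdR.mul_er hκ.bd er22)) (BdR.mul_er hb.bd er32))
      (BdR.mul_er (SlR.bd hsκ) er22)) (BdR.mul_er (SlR.bd hsb) er23))
      (ErR.mul_bd (QdR.er (SlR.mul hsκ hκ)) (BdE.ip (bd_F2 hC) (bd_F2 hC))))
      (ErR.mul_bd (QdR.er (SlR.mul hsκ hb)) (BdE.ip (bd_F3 hC) (bd_F2 hC))))
      (ErR.mul_bd (QdR.er (SlR.mul hsb hκ)) (BdE.ip (bd_F2 hC) (bd_F3 hC))))
      (ErR.mul_bd (QdR.er (SlR.mul hsb hb)) (BdE.ip (bd_F3 hC) (bd_F3 hC))))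
      (QdR.er (BdE.ip_qd (bd_P2' hC) (qd_U2 hC))))
      (QdR.er (QdE.ip_bd (qd_U2 hC) (bd_P2 hC)))
  refine Cg.mk e (fun c x => ?_)
  have h1 : P2_ c x = (c.s.F2 + κ_ c x • c.s.F2 + b_ c x • c.s.F3) + U2_ c x := rfl
  have h2 : g22 c x = c.s.ip (c.s.F2 + κ_ c x • c.s.F2 + b_ c x • c.s.F3)
        (c.s.F2 + κ_ c x • c.s.F2 + b_ c x • c.s.F3)
      + c.s.ip (c.s.F2 + κ_ c x • c.s.F2 + b_ c x • c.s.F3) (U2_ c x)
      + c.s.ip (U2_ c x) (P2_ c x) := by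
    unfold g22
    conv_lhs => rw [show c.s.ip (P2_ c x) (P2_ c x)
      = c.s.ip ((c.s.F2 + κ_ c x • c.s.F2 + b_ c x • c.s.F3) + U2_ c x) (P2_ c x) from rfl]
    rw [c.s.ip_add, h1, ip_add_right]
  have h3 : k_ c x = κ_ c x + star (κ_ c x) := (c.s.kp_real _ (c.sk x)).symm
  rw [h2, s3, h3]
  simp only [ip_add_right, ip_smul_right, c.s.ip_add, c.s.ip_smul]
  ring

/-! ### The curvature expression -/

/-- The curvature expression. -/
def ps_ : QR C := fun c x => c.s.ps (c.k x) (ψ_ c x)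

lemma bd_g11 (hC : 0 ≤ C) : BdR (g11 (C := C)) := BdE.ip (bd_P1 hC) (bd_P1 hC)
lemma bd_g21 (hC : 0 ≤ C) : BdR (g21 (C := C)) := BdE.ip (bd_P2 hC) (bd_P1 hC)
lemma bd_g22 (hC : 0 ≤ C) : BdR (g22 (C := C)) := BdE.ip (bd_P2 hC) (bd_P2 hC)

/-- al -/
def al_ : QR C := fun c x => c.s.ip (P1_ c x) (V1_ c x)
/-- be -/
def be_ : QR C := fun c x => c.s.hf * (g11 c x + c.s.ip (V1_ c x) (V1_ c x))
/-- u1 -/
def u1_ : QR C := fun c x =>
  c.s.hf * (c.s.ip (P2_ c x) (V1_ c x) + c.s.ip (P1_ c x) (W2_ c x))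
/-- u2 -/
def u2_ : QR C := fun c x => c.s.hf * (g21 c x + c.s.ip (V1_ c x) (W2_ c x))
/-- c1 -/
def c1_ : QR C := fun c x => c.s.hf * (g22 c x + c.s.ip (W2_ c x) (W2_ c x))
/-- c2 -/
def c2_ : QR C := fun c x => c.s.ip (Z2_ c x) (Z2_ c x)
/-- t1 -/
def t1_ : QR C := fun c x =>
  c.s.hf * (c.s.ip (Z2_ c x) (V1_ c x) + c.s.ip (P1_ c x) (Z2_ c x))
/-- D -/
def D_ : QR C := fun c x => be_ c x ^ 2 - al_ c x * star (al_ c x)

lemma ps_eq (c : Cf C) (x : Bool) : ps_ c x =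
    D_ c x * (c1_ c x - c2_ c x) + (star (al_ c x) * u1_ c x * star (u2_ c x)
      - be_ c x * (u1_ c x * star (u1_ c x) + u2_ c x * star (u2_ c x))
      + al_ c x * u2_ c x * star (u1_ c x))
      - (star (al_ c x) * t1_ c x ^ 2 - 2 * (be_ c x * t1_ c x * star (t1_ c x))
      + al_ c x * star (t1_ c x) ^ 2) - D_ c x ^ 2 := rfl

lemma sl_al (hC : 0 ≤ C) : SlR (al_ (C := C)) := BdE.ip_sl (bd_P1 hC) (sl_V1 hC)

lemma sl_u1 (hC : 0 ≤ C) : SlR (u1_ (C := C)) :=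
  BdR.mul_sl bd_hf (KR.add (BdE.ip_sl (bd_P2 hC) (sl_V1 hC)) (BdE.ip_sl (bd_P1 hC) (sl_W2 hC)))

lemma sl_t1 (hC : 0 ≤ C) : SlR (t1_ (C := C)) :=
  BdR.mul_sl bd_hf (KR.add (SlE.ip_bd (sl_Z2 hC) (SlE.bd (sl_V1 hC)))
    (BdE.ip_sl (bd_P1 hC) (sl_Z2 hC)))

lemma cg_be (hC : 0 ≤ C) : Cg (be_ (C := C)) (fun c x => c.s.hf * g11 c x) :=
  Cg.mk (BdR.mul_er bd_hf (QdR.er (SlE.ip (sl_V1 hC) (sl_V1 hC))))
    (fun c x => by unfold be_; ring)

lemma cg_u2 (hC : 0 ≤ C) : Cg (u2_ (C := C)) (fun c x => c.s.hf * g21 c x) :=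
  Cg.mk (BdR.mul_er bd_hf (QdR.er (SlE.ip (sl_V1 hC) (sl_W2 hC))))
    (fun c x => by unfold u2_; ring)

lemma cg_c1 (hC : 0 ≤ C) : Cg (c1_ (C := C)) (fun c x => c.s.hf * g22 c x) :=
  Cg.mk (BdR.mul_er bd_hf (QdR.er (SlE.ip (sl_W2 hC) (sl_W2 hC))))
    (fun c x => by unfold c1_; ring)

lemma er_c2 (hC : 0 ≤ C) : ErR (c2_ (C := C)) := QdR.er (SlE.ip (sl_Z2 hC) (sl_Z2 hC))

lemma bd_hg11 (hC : 0 ≤ C) : BdR (fun (c : Cf C) x => c.s.hf * g11 c x) :=
  BdR.mul bd_hf (bd_g11 hC)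

lemma bd_hg21 (hC : 0 ≤ C) : BdR (fun (c : Cf C) x => c.s.hf * g21 c x) :=
  BdR.mul bd_hf (bd_g21 hC)

lemma bd_hg22 (hC : 0 ≤ C) : BdR (fun (c : Cf C) x => c.s.hf * g22 c x) :=
  BdR.mul bd_hf (bd_g22 hC)

lemma bd_be (hC : 0 ≤ C) : BdR (be_ (C := C)) := (cg_be hC).symm.bd (bd_hg11 hC)
lemma bd_u2 (hC : 0 ≤ C) : BdR (u2_ (C := C)) := (cg_u2 hC).symm.bd (bd_hg21 hC)
lemma bd_c1 (hC : 0 ≤ C) : BdR (c1_ (C := C)) := (cg_c1 hC).symm.bd (bd_hg22 hC)

/-- leading part of D -/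
def D0 : QR C := fun c x => (c.s.hf * g11 c x) * (c.s.hf * g11 c x)

lemma cg_D (hC : 0 ≤ C) : Cg (D_ (C := C)) D0 := by
  have h1 := Cg.mul (cg_be hC) (cg_be hC) (bd_be hC) (bd_hg11 hC)
  have h2 := Cg.of_er (QdR.er (SlR.mul (sl_al hC) (KR.star (sl_al hC))))
  refine Cg.mk (Cg.sub h1 h2) (fun c x => ?_)
  unfold D_ D0
  ring

lemma bd_D0 (hC : 0 ≤ C) : BdR (D0 (C := C)) := BdR.mul (bd_hg11 hC) (bd_hg11 hC)
lemma bd_D (hC : 0 ≤ C) : BdR (D_ (C := C)) := (cg_D hC).symm.bd (bd_D0 hC)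

lemma cg_ps (hC : 0 ≤ C) : Cg (ps_ (C := C)) (fun c x =>
    D0 c x * (c.s.hf * g22 c x) -
      (c.s.hf * g11 c x) * ((c.s.hf * g21 c x) * star (c.s.hf * g21 c x)) - D0 c x * D0 c x) := by
  have hal := sl_al hC
  have hsal := KR.star hal
  have hu1 := sl_u1 hC
  have hsu1 := KR.star hu1
  have ht1 := sl_t1 hC
  have hst1 := KR.star ht1
  have hbe := bd_be hC
  have hu2 := bd_u2 hC
  have hsu2 := KR.star hu2
  -- first term
  have a1 : Cg (fun (c : Cf C) x => D_ c x * (c1_ c x - c2_ c x))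
      (fun c x => D0 c x * (c.s.hf * g22 c x - 0)) :=
    Cg.mul (cg_D hC) (Cg.sub (cg_c1 hC) (Cg.of_er (er_c2 hC))) (bd_D hC)
      (KR.sub (bd_hg22 hC) (ErR.bd er_zero))
  have a2 : Cg (fun (c : Cf C) x => D_ c x * D_ c x) (fun c x => D0 c x * D0 c x) :=
    Cg.mul (cg_D hC) (cg_D hC) (bd_D hC) (bd_D0 hC)
  have a3 : Cg (fun (c : Cf C) x => be_ c x * (u2_ c x * star (u2_ c x)))
      (fun c x => (c.s.hf * g11 c x) * ((c.s.hf * g21 c x) * star (c.s.hf * g21 c x))) :=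
    Cg.mul (cg_be hC) (Cg.mul (cg_u2 hC) (Cg.star (cg_u2 hC)) (bd_u2 hC)
      (KR.star (bd_hg21 hC))) (bd_be hC) (BdR.mul (bd_hg21 hC) (KR.star (bd_hg21 hC)))
  have b1 : ErR (fun (c : Cf C) x => (star (al_ c x) * u1_ c x) * star (u2_ c x)) :=
    ErR.mul_bd (QdR.er (SlR.mul hsal hu1)) hsu2
  have b2 : ErR (fun (c : Cf C) x => be_ c x * (u1_ c x * star (u1_ c x))) :=
    BdR.mul_er hbe (QdR.er (SlR.mul hu1 hsu1))
  have b3 : ErR (fun (c : Cf C) x => (al_ c x * star (u1_ c x)) * u2_ c x) :=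
    ErR.mul_bd (QdR.er (SlR.mul hal hsu1)) hu2
  have b4 : ErR (fun (c : Cf C) x => (star (al_ c x) * t1_ c x) * t1_ c x) :=
    ErR.mul_bd (QdR.er (SlR.mul hsal ht1)) (SlR.bd ht1)
  have b5 : ErR (fun (c : Cf C) x => (2 * be_ c x) * (t1_ c x * star (t1_ c x))) :=
    BdR.mul_er (BdR.mul (bd_ofNat 2) hbe) (QdR.er (SlR.mul ht1 hst1))
  have b6 : ErR (fun (c : Cf C) x => (al_ c x * star (t1_ c x)) * star (t1_ c x)) :=
    ErR.mul_bd (QdR.er (SlR.mul hal hst1)) (SlR.bd hst1)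
  have tot : Cg _ _ := Cg.add (Cg.sub (Cg.sub a1 a3) a2)
    (Cg.of_er (KR.sub (KR.add (KR.sub (KR.add b1 b3) b2) b5) (KR.add b4 b6)))
  refine Cg.mk tot (fun c x => ?_)
  rw [ps_eq]
  ring

/-- The congruence `16 ps ≡ k`. -/
lemma cg_main (hC : 0 ≤ C) : ErR (fun (c : Cf C) x => k_ c x - 16 * ps_ c x) := by
  have h11 := cg11 hC
  have h21 := cg21 hC
  have h22 := cg22 hC
  have B11 : BdR (fun (c : Cf C) x => 1 + s1 c x) := h11.bd (bd_g11 hC)
  have B21 : BdR (fun (c : Cf C) x => c.s.ii + s2 c x) := h21.bd (bd_g21 hC)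
  have B22 : BdR (fun (c : Cf C) x => 3 * c.s.hf + s3 c x) := h22.bd (bd_g22 hC)
  have hs1 := sl_s1 hC
  have hs2 := sl_s2 hC
  have hs3 := sl_s3 hC
  have ht2 := KR.star hs2
  -- products
  have p1 : Cg (fun (c : Cf C) x => g11 c x * g11 c x) (fun c x => (1 + s1 c x) * (1 + s1 c x)) :=
    Cg.mul h11 h11 (bd_g11 hC) B11
  have P1 : BdR (fun (c : Cf C) x => g11 c x * g11 c x) := BdR.mul (bd_g11 hC) (bd_g11 hC)
  have P1' : BdR (fun (c : Cf C) x => (1 + s1 c x) * (1 + s1 c x)) := BdR.mul B11 B11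
  have q1 : Cg (fun (c : Cf C) x => (g11 c x * g11 c x) * g22 c x)
      (fun c x => ((1 + s1 c x) * (1 + s1 c x)) * (3 * c.s.hf + s3 c x)) :=
    Cg.mul p1 h22 P1 B22
  have q2 : Cg (fun (c : Cf C) x => g11 c x * (g21 c x * star (g21 c x)))
      (fun c x => (1 + s1 c x) * ((c.s.ii + s2 c x) * star (c.s.ii + s2 c x))) :=
    Cg.mul h11 (Cg.mul h21 (Cg.star h21) (bd_g21 hC) (KR.star B21)) (bd_g11 hC)
      (BdR.mul B21 (KR.star B21))
  have q3 : Cg (fun (c : Cf C) x => (g11 c x * g11 c x) * (g11 c x * g11 c x))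
      (fun c x => ((1 + s1 c x) * (1 + s1 c x)) * ((1 + s1 c x) * (1 + s1 c x))) :=
    Cg.mul p1 p1 P1 P1'
  have r : Cg _ _ := Cg.sub (Cg.cmul (bd_ofNat 2) (Cg.sub q1 q2)) q3
  have r16 : Cg _ _ := Cg.cmul (bd_ofNat 16) (cg_ps hC)
  -- quadratic rest
  have SA : SlR (fun (c : Cf C) x => 4 * s3 c x + 3 * s1 c x + 2 * (s1 c x * s3 c x)
      - 2 * (c.s.ii * star (s2 c x) - c.s.ii * s2 c x + s2 c x * star (s2 c x))
      - s1 c x * (6 + 4 * s1 c x + s1 c x * s1 c x)) :=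
    KR.sub (KR.sub (KR.add (KR.add (BdR.mul_sl (bd_ofNat 4) hs3) (BdR.mul_sl (bd_ofNat 3) hs1))
      (BdR.mul_sl (bd_ofNat 2) (QdR.sl (SlR.mul hs1 hs3))))
      (BdR.mul_sl (bd_ofNat 2) (KR.add (KR.sub (BdR.mul_sl bd_ii ht2) (BdR.mul_sl bd_ii hs2))
        (QdR.sl (SlR.mul hs2 ht2)))))
      (SlR.mul_bd hs1 (KR.add (KR.add (bd_ofNat 6) (SlR.bd (BdR.mul_sl (bd_ofNat 4) hs1)))
        (SlR.bd (QdR.sl (SlR.mul hs1 hs1)))))
  have rest : ErR _ := QdR.er (KR.sub (SlR.mul hs1 SA)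
    (SlR.mul hs2 (BdR.mul_sl (bd_ofNat 2) ht2)))
  have tot : ErR _ := KR.sub (KR.sub (KR.neg r16) r) rest
  refine ErR.congr tot (fun c x => ?_)
  have H : 2 * c.s.hf = 1 := c.s.two_hf
  have hh : star c.s.hf = c.s.hf := star_hf c.s
  have I2 : c.s.ii * c.s.ii = -1 := c.s.ii_ii
  have hi : star c.s.ii = -c.s.ii := c.s.star_ii
  have hk : κ_ c x + star (κ_ c x) = k_ c x := c.s.kp_real _ (c.sk x)
  have F1 : 16 * (D0 c x * (c.s.hf * g22 c x) -
      c.s.hf * g11 c x * (c.s.hf * g21 c x * star (c.s.hf * g21 c x)) - D0 c x * D0 c x) =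
      2 * (g11 c x * g11 c x * g22 c x - g11 c x * (g21 c x * star (g21 c x))) -
        g11 c x * g11 c x * (g11 c x * g11 c x) := by
    rw [star_mul, hh, D0]
    generalize c.s.hf = h at *
    generalize g11 c x = G at *
    generalize star (g21 c x) = t at *
    generalize g21 c x = g at *
    generalize g22 c x = r at *
    linear_combination ((8 * h ^ 2 + 4 * h + 2) * (G ^ 2 * r - G * g * t) -
      (8 * h ^ 3 + 4 * h ^ 2 + 2 * h + 1) * G ^ 4) * H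
  have t2 : star (s2 c x) = -(c.s.ii * star (κ_ c x)) - 3 * c.s.hf * star (b_ c x)
      + 3 * c.s.hf * b_ c x := by
    rw [s2]
    simp only [star_add, star_sub, star_mul, hi, hh, star_star, star_ofNat]
    ring
  have F3 : 2 * s3 c x + 2 * c.s.ii * (s2 c x - star (s2 c x)) = k_ c x := by
    rw [t2, s2, s3, ← hk]
    generalize c.s.hf = h at *
    generalize c.s.ii = i at *
    generalize star (κ_ c x) = κ' at *
    generalize κ_ c x = κ at *
    generalize star (b_ c x) = b' at *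
    generalize b_ c x = b at *
    linear_combination (3 * (κ + κ') - 6 * i * b + 6 * i * b') * H + 2 * (κ + κ') * I2
  have F2 : 2 * ((1 + s1 c x) * (1 + s1 c x) * (3 * c.s.hf + s3 c x) -
        (1 + s1 c x) * ((c.s.ii + s2 c x) * star (c.s.ii + s2 c x))) -
      (1 + s1 c x) * (1 + s1 c x) * ((1 + s1 c x) * (1 + s1 c x)) -
      (s1 c x * (4 * s3 c x + 3 * s1 c x + 2 * (s1 c x * s3 c x) -
            2 * (c.s.ii * star (s2 c x) - c.s.ii * s2 c x + s2 c x * star (s2 c x)) -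
          s1 c x * (6 + 4 * s1 c x + s1 c x * s1 c x)) - s2 c x * (2 * star (s2 c x))) =
      2 * s3 c x + 2 * c.s.ii * (s2 c x - star (s2 c x)) := by
    rw [star_add, hi]
    generalize c.s.hf = h at *
    generalize c.s.ii = i at *
    generalize s1 c x = S at *
    generalize star (s2 c x) = t at *
    generalize s2 c x = T at *
    generalize s3 c x = U at *
    linear_combination 3 * (1 + S) ^ 2 * H + 2 * (1 + S) * I2
  beta_reduce
  linear_combination (-1 : c.R) * F1 - F2 - F3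

end LIP_

theorem p_LIP : T_LIP := by
  intro C hC
  have hC0 : (0 : ℝ) ≤ C := by linarith
  obtain ⟨K, hK, h⟩ := LIP_.cg_main hC0
  refine ⟨max K 1, le_max_right _ _, ?_⟩
  intro R E _ _ _ _ s ρ ε h0 h1 h2 h3 hg k k' φ φ' hk hk' nk nk' nφ nφ'
  let c : LIP_.Cf C :=
    { R := R
      E := E
      s := s
      ρ := ρ
      ε := ε
      ρ0 := h0
      ρ1 := h1
      ε0 := h2
      ε1 := h3
      gr := hg
      k := fun b => cond b k k'
      φ := fun b => cond b φ φ'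
      sk := fun b => by cases b <;> assumption
      nk := fun b => by cases b <;> assumption
      nφ := fun b => by cases b <;> assumption }
  have hm : K ≤ max K 1 := le_max_left _ _
  have h5 := (h c).1 true
  have h6 := (h c).2
  constructor
  · refine le_trans h5 ?_
    exact mul_le_mul_of_nonneg_right hm (by simp only [LIP_.oh]; exact add_nonneg h0 h2)
  · refine le_trans h6 ?_
    have h7 : 0 ≤ LIP_.oh c := by simp only [LIP_.oh]; exact add_nonneg h0 h2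
    exact mul_le_mul_of_nonneg_right (mul_le_mul_of_nonneg_right hm h7) c.d0

end Pool.Agent.HSP
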