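import Pool.Agent.HSP.Targets1

set_option autoImplicit false

/-!
# HSP, target ODB: the differential equation of `Bq`
-/

open scoped Classical ENNReal

noncomputable section

namespace Pool.Agent.HSP

namespace ODB_

/-- Positive real numbers lie in the sector. -/
theorem mem_S {y : ℝ} (hy : 0 < y) : (y : ℂ) ∈ S := by
  simp only [S, Set.mem_ofPred_eq, Complex.ofReal_im, Complex.ofReal_re, abs_zero]
  linarith

/-- The integrand after the substitution `r = s y`. -/
def g (a : Fam) (t y : ℝ) (r : ℝ) : ℂ :=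
  (if r < y then Complex.exp (-((|t| : ℝ) * (y - r) : ℂ)) else 0) * a t (r : ℂ)

/-- The integrand of the primitive. -/
def f (a : Fam) (t : ℝ) (r : ℝ) : ℂ := Complex.exp ((|t| : ℝ) * r : ℂ) * a t (r : ℂ)

theorem contOn {a : Fam} (ha : Adm a) (t : ℝ) : ContinuousOn (f a t) (Set.Ioi 0) := by
  unfold f
  apply ContinuousOn.mul
  · exact Continuous.continuousOn (by fun_prop)
  · exact (ha.hol t).continuousOn.comp Complex.continuous_ofReal.continuousOn
      (fun r hr => mem_S hr)

theorem bound (h_PTW : T_PTW) {a : Fam} (ha : Adm a) (t r : ℝ) (hr : 0 < r) :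
    ‖a t (r : ℂ)‖ ≤ (NN a).toReal := by
  have h := (h_PTW.2.2.2.2.2.2 a ha).2 (r : ℂ) (mem_S hr) t
  refine le_trans ?_ h
  have h1 : (1 : ℝ) ≤ Real.exp (|t| * ‖(r : ℂ)‖ / 2) := by
    apply Real.one_le_exp
    positivity
  nlinarith [norm_nonneg (a t (r : ℂ))]

theorem intf (h_PTW : T_PTW) {a : Fam} (ha : Adm a) (t y : ℝ) (hy : 0 < y) :
    IntervalIntegrable (f a t) MeasureTheory.volume 0 y := by
  rw [intervalIntegrable_iff_integrableOn_Ioc_of_le hy.le]
  refine MeasureTheory.Integrable.mono' (g := fun _ => Real.exp (|t| * y) * (NN a).toReal)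
    (MeasureTheory.integrable_const _) ?_ ?_
  · exact ((contOn ha t).mono (fun r hr => hr.1)).aestronglyMeasurable measurableSet_Ioc
  · rw [MeasureTheory.ae_restrict_iff' measurableSet_Ioc]
    refine Filter.Eventually.of_forall (fun r hr => ?_)
    unfold f
    rw [norm_mul]
    apply mul_le_mul
    · rw [Complex.norm_exp]
      apply Real.exp_le_exp.mpr
      have : ((|t| : ℝ) * r : ℂ).re = |t| * r := by
        rw [← Complex.ofReal_mul, Complex.ofReal_re]
      rw [this]
      exact mul_le_mul_of_nonneg_left hr.2 (abs_nonneg t)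
    · exact bound h_PTW ha t r hr.1
    · exact norm_nonneg _
    · exact (Real.exp_pos _).le

/-- The primitive. -/
def P (a : Fam) (t : ℝ) (y : ℝ) : ℂ :=
  Complex.exp (-((|t| : ℝ) * y : ℂ)) * ∫ r in (0 : ℝ)..y, f a t r

theorem op_eq {a : Fam} (t y : ℝ) (hy : 0 < y) :
    (y : ℂ) * opK K0 a t (y : ℂ) = P a t y := by
  have h1 : opK K0 a t (y : ℂ) = ∫ s in Set.Ioi (0 : ℝ), g a t y (s * y) := by
    unfold opK
    rw [if_pos (mem_S hy)]
    apply MeasureTheory.setIntegral_congr_fun measurableSet_Ioi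
    intro s hs
    have hs0 : (0 : ℝ) < s := hs
    simp only [K0, g]
    by_cases h : s < 1
    · have h' : s * y < y := by nlinarith
      rw [if_pos h, if_pos h']
      push_cast
      congr 2
      ring
    · have h' : ¬ s * y < y := by
        push Not at h ⊢
        nlinarith
      rw [if_neg h, if_neg h']
      simp
  have h2 := MeasureTheory.integral_comp_mul_right_Ioi (g a t y) 0 hy
  rw [zero_mul] at h2
  rw [h1, h2]
  have h3 : ∫ r in Set.Ioi (0 : ℝ), g a t y r = P a t y := by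
    unfold P
    rw [intervalIntegral.integral_of_le hy.le, ← MeasureTheory.integral_const_mul,
      MeasureTheory.integral_Ioc_eq_integral_Ioo]
    have h4 : Set.Ioo (0 : ℝ) y ⊆ Set.Ioi 0 := fun r hr => hr.1
    have h6 : ∫ r in Set.Ioi (0 : ℝ), g a t y r = ∫ r in Set.Ioo (0 : ℝ) y, g a t y r := by
      apply MeasureTheory.setIntegral_eq_of_subset_of_forall_sdiff_eq_zero measurableSet_Ioi h4
      intro r hr
      have h5 : ¬ r < y := fun h => hr.2 ⟨hr.1, h⟩
      simp only [g]
      rw [if_neg h5, zero_mul]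
    rw [h6]
    apply MeasureTheory.setIntegral_congr_fun measurableSet_Ioo
    intro r hr
    simp only [g, f]
    rw [if_pos hr.2, ← mul_assoc, ← Complex.exp_add]
    congr 2
    ring
  rw [h3]
  have hy' : (y : ℂ) ≠ 0 := by exact_mod_cast hy.ne'
  rw [Complex.real_smul]
  push_cast
  rw [← mul_assoc, mul_inv_cancel₀ hy', one_mul]

theorem hasDeriv (h_PTW : T_PTW) {a : Fam} (ha : Adm a) (t y : ℝ) (hy : 0 < y) :
    HasDerivAt (fun y : ℝ => P a t y) (-((|t| : ℝ) : ℂ) * P a t y + a t (y : ℂ)) y := by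
  have h1 : HasDerivAt (fun y : ℝ => ∫ r in (0 : ℝ)..y, f a t r) (f a t y) y := by
    apply intervalIntegral.integral_hasDerivAt_right (intf h_PTW ha t y hy)
    · exact (contOn ha t).stronglyMeasurableAtFilter isOpen_Ioi y hy
    · exact (contOn ha t).continuousAt (Ioi_mem_nhds hy)
  have h2 : HasDerivAt (fun y : ℝ => Complex.exp (-((|t| : ℝ) * y : ℂ)))
      (Complex.exp (-((|t| : ℝ) * y : ℂ)) * (-((|t| : ℝ) : ℂ))) y := by
    have h3 : HasDerivAt (fun y : ℝ => (-((|t| : ℝ) * y : ℂ))) (-((|t| : ℝ) : ℂ)) y := by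
      have h4 : HasDerivAt (fun y : ℝ => (y : ℂ)) 1 y := Complex.ofRealCLM.hasDerivAt
      have h5 := h4.const_mul (-((|t| : ℝ) : ℂ))
      simpa [neg_mul] using h5
    exact h3.cexp
  have h6 := h2.mul h1
  refine h6.congr_deriv ?_
  unfold P f
  have h7 : Complex.exp (-((|t| : ℝ) * y : ℂ)) * (Complex.exp ((|t| : ℝ) * y : ℂ) * a t (y : ℂ))
      = a t (y : ℂ) := by
    rw [← mul_assoc, ← Complex.exp_add]
    simp
  rw [h7]
  ring

end ODB_

open ODB_ in
theorem p_ODB (h_OPS : T_OPS) (h_PTW : T_PTW) : T_ODB := by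
  intro k hk t y hy
  obtain ⟨C, hC, hops⟩ := h_OPS
  have ha : Adm (kap k) := (hops k hk).2.2.1
  have heq : ∀ z : ℝ, 0 < z → (z : ℂ) * Bq k t (z : ℂ) = 2 * Complex.I * P (kap k) t z := by
    intro z hz
    have h := op_eq (a := kap k) t z hz
    unfold Bq
    rw [← h]
    ring
  have h1 := (hasDeriv h_PTW ha t y hy).const_mul (2 * Complex.I)
  have h2 : HasDerivAt (fun y : ℝ => (y : ℂ) * Bq k t y)
      (2 * Complex.I * (-((|t| : ℝ) : ℂ) * P (kap k) t y + kap k t (y : ℂ))) y := by
    apply h1.congr_of_eventuallyEq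
    filter_upwards [Ioi_mem_nhds hy] with z hz
    exact heq z hz
  refine h2.congr_deriv ?_
  rw [heq y hy]
  rcases le_or_gt t 0 with ht | ht
  · rw [abs_of_nonpos ht]
    push_cast
    ring
  · have hk0 : ∀ z : ℂ, kap k t z = 0 := by
      intro z
      unfold kap
      rw [if_neg (not_lt.mpr ht.le), if_neg ht.ne']
    have hP : P (kap k) t y = 0 := by
      unfold P f
      simp [hk0]
    rw [hP, hk0]
    simp

end Pool.Agent.HSP
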