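import Pool.Agent.HSP.Targets1

set_option autoImplicit false

/-!
# HSP, target ODV: the differential equation of `T1`
-/

open scoped Classical ENNReal

noncomputable section

namespace Pool.Agent.HSP

namespace ODV_

/-- Positive real numbers lie in the sector. -/
theorem mem_S {y : ℝ} (hy : 0 < y) : (y : ℂ) ∈ S := by
  simp only [S, Set.mem_ofPred_eq, Complex.ofReal_im, Complex.ofReal_re, abs_zero]
  linarith

theorem bound (h_PTW : T_PTW) {a : Fam} (ha : Adm a) (t r : ℝ) (hr : 0 < r) :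
    ‖a t (r : ℂ)‖ ≤ (NN a).toReal := by
  have h := (h_PTW.2.2.2.2.2.2 a ha).2 (r : ℂ) (mem_S hr) t
  refine le_trans ?_ h
  have h1 : (1 : ℝ) ≤ Real.exp (|t| * ‖(r : ℂ)‖ / 2) := by
    apply Real.one_le_exp
    positivity
  nlinarith [norm_nonneg (a t (r : ℂ))]

/-- The integrand of the primitives. -/
def f (c : ℝ → ℂ) (a : Fam) (t : ℝ) (r : ℝ) : ℂ := c r * (a t (r : ℂ) / (r : ℂ) ^ 2)

theorem contOn {c : ℝ → ℂ} (hc : Continuous c) {a : Fam} (ha : Adm a) (t : ℝ) :
    ContinuousOn (f c a t) (Set.Ioi 0) := by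
  unfold f
  apply ContinuousOn.mul hc.continuousOn
  apply ContinuousOn.div
  · exact (ha.hol t).continuousOn.comp Complex.continuous_ofReal.continuousOn
      (fun r hr => mem_S hr)
  · exact Continuous.continuousOn (by fun_prop)
  · intro r hr
    have hr' : (0 : ℝ) < r := hr
    have : (r : ℂ) ≠ 0 := by exact_mod_cast hr'.ne'
    exact pow_ne_zero 2 this

theorem intIoi (h_PTW : T_PTW) {c : ℝ → ℂ} (hc : Continuous c) {a : Fam} (ha : Adm a) (t y B : ℝ)
    (hy : 0 < y) (hB : ∀ r, 0 < r → ‖c r‖ ≤ B) :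
    MeasureTheory.IntegrableOn (f c a t) (Set.Ioi y) := by
  have h0 : 0 ≤ B := le_trans (norm_nonneg _) (hB y hy)
  have h1 : MeasureTheory.IntegrableOn (fun r : ℝ => (B * (NN a).toReal) * r ^ (-2 : ℝ))
      (Set.Ioi y) := (integrableOn_Ioi_rpow_of_lt (by norm_num) hy).const_mul _
  refine MeasureTheory.Integrable.mono' h1 ?_ ?_
  · exact ((contOn hc ha t).mono (fun r hr => lt_trans hy hr)).aestronglyMeasurable
      measurableSet_Ioi
  · rw [MeasureTheory.ae_restrict_iff' measurableSet_Ioi]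
    refine Filter.Eventually.of_forall (fun r hr => ?_)
    have hr0 : 0 < r := lt_trans hy hr
    unfold f
    rw [norm_mul, norm_div, norm_pow, Complex.norm_real, Real.norm_eq_abs, abs_of_pos hr0,
      Real.rpow_neg hr0.le, mul_assoc, div_eq_mul_inv]
    have h2 : r ^ (2 : ℝ) = r ^ 2 := by norm_cast
    rw [h2]
    apply mul_le_mul (hB r hr0) _ (by positivity) h0
    exact mul_le_mul_of_nonneg_right (bound h_PTW ha t r hr0) (by positivity)

theorem int0 (h_PTW : T_PTW) {c : ℝ → ℂ} (hc : Continuous c) {a : Fam} (ha : Adm a) (t y B : ℝ)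
    (hy : 0 < y) (hB : ∀ r, 0 < r → r ≤ y → ‖c r‖ ≤ B * r ^ 2) :
    IntervalIntegrable (f c a t) MeasureTheory.volume 0 y := by
  rw [intervalIntegrable_iff_integrableOn_Ioc_of_le hy.le]
  refine MeasureTheory.Integrable.mono' (g := fun _ => B * (NN a).toReal)
    (MeasureTheory.integrable_const _) ?_ ?_
  · exact ((contOn hc ha t).mono (fun r hr => hr.1)).aestronglyMeasurable measurableSet_Ioc
  · rw [MeasureTheory.ae_restrict_iff' measurableSet_Ioc]
    refine Filter.Eventually.of_forall (fun r hr => ?_)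
    have hr0 : 0 < r := hr.1
    unfold f
    rw [norm_mul, norm_div, norm_pow, Complex.norm_real, Real.norm_eq_abs, abs_of_pos hr0]
    have h1 := hB r hr0 hr.2
    have h2 := bound h_PTW ha t r hr0
    have h3 : ‖c r‖ * (‖a t (r : ℂ)‖ / r ^ 2) ≤ (B * r ^ 2) * ((NN a).toReal / r ^ 2) := by
      apply mul_le_mul h1 _ (by positivity) (le_trans (norm_nonneg _) h1)
      exact div_le_div_of_nonneg_right h2 (by positivity)
    refine le_trans h3 (le_of_eq ?_)
    field_simp

theorem derivIoi (h_PTW : T_PTW) {c : ℝ → ℂ} (hc : Continuous c) {a : Fam} (ha : Adm a) (t y B : ℝ)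
    (hy : 0 < y) (hB : ∀ r, 0 < r → ‖c r‖ ≤ B) :
    HasDerivAt (fun z : ℝ => ∫ r in Set.Ioi z, f c a t r) (-f c a t y) y := by
  have hy2 : 0 < y / 2 := by positivity
  have hi := intIoi h_PTW hc ha t (y / 2) B hy2 hB
  have h1 : HasDerivAt (fun z : ℝ => ∫ r in (y / 2)..z, f c a t r) (f c a t y) y := by
    apply intervalIntegral.integral_hasDerivAt_right
    · rw [intervalIntegrable_iff_integrableOn_Ioc_of_le (by linarith)]
      exact hi.mono_set Set.Ioc_subset_Ioi_self
    · exact (contOn hc ha t).stronglyMeasurableAtFilter isOpen_Ioi y hy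
    · exact (contOn hc ha t).continuousAt (Ioi_mem_nhds hy)
  have h2 := h1.const_sub (∫ r in Set.Ioi (y / 2), f c a t r)
  refine h2.congr_of_eventuallyEq ?_
  filter_upwards [Ioi_mem_nhds (show y / 2 < y by linarith)] with z hz
  have hz' : y / 2 < z := hz
  rw [← intervalIntegral.integral_interval_add_Ioi hi (hi.mono_set (Set.Ioi_subset_Ioi hz'.le))]
  ring

theorem deriv0 (h_PTW : T_PTW) {c : ℝ → ℂ} (hc : Continuous c) {a : Fam} (ha : Adm a) (t y B : ℝ)
    (hy : 0 < y) (hB : ∀ r, 0 < r → r ≤ y → ‖c r‖ ≤ B * r ^ 2) :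
    HasDerivAt (fun z : ℝ => ∫ r in (0 : ℝ)..z, f c a t r) (f c a t y) y := by
  apply intervalIntegral.integral_hasDerivAt_right (int0 h_PTW hc ha t y B hy hB)
  · exact (contOn hc ha t).stronglyMeasurableAtFilter isOpen_Ioi y hy
  · exact (contOn hc ha t).continuousAt (Ioi_mem_nhds hy)

theorem derivExp (m y : ℝ) : HasDerivAt (fun z : ℝ => Complex.exp ((m : ℂ) * z))
    (Complex.exp ((m : ℂ) * y) * (m : ℂ)) y := by
  have h3 : HasDerivAt (fun z : ℝ => ((m : ℂ) * z)) (m : ℂ) y := by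
    have h4 : HasDerivAt (fun z : ℝ => (z : ℂ)) 1 y := Complex.ofRealCLM.hasDerivAt
    simpa using h4.const_mul (m : ℂ)
  exact h3.cexp

/-! ### nonnegative frequencies -/

/-- The first weight. -/
def c1 (m : ℝ) (r : ℝ) : ℂ := Complex.exp (-((m : ℂ) * r))

theorem c1_cont (m : ℝ) : Continuous (c1 m) := by unfold c1; fun_prop

theorem c1_bd {m : ℝ} (hm : 0 ≤ m) (r : ℝ) (hr : 0 < r) : ‖c1 m r‖ ≤ 1 := by
  unfold c1
  rw [Complex.norm_exp]
  have : (-((m : ℂ) * r)).re = -(m * r) := by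
    rw [← Complex.ofReal_mul, ← Complex.ofReal_neg, Complex.ofReal_re]
  rw [this]
  apply Real.exp_le_one_iff.mpr
  have := mul_nonneg hm hr.le
  linarith

theorem op_Ki {a : Fam} (t y : ℝ) (hy : 0 < y) :
    (y : ℂ)⁻¹ * opK Ki a t (y : ℂ) =
      Complex.exp (((|t| : ℝ) : ℂ) * y) * ∫ r in Set.Ioi y, f (c1 |t|) a t r := by
  have hy' : (y : ℂ) ≠ 0 := by exact_mod_cast hy.ne'
  let G : ℝ → ℂ := fun r => (if y < r then (y : ℂ) ^ 2 * Complex.exp (((|t| : ℝ) : ℂ) * y) else 0) *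
    f (c1 |t|) a t r
  have h1 : opK Ki a t (y : ℂ) = ∫ s in Set.Ioi (0 : ℝ), G (s * y) := by
    unfold opK
    rw [if_pos (mem_S hy)]
    apply MeasureTheory.setIntegral_congr_fun measurableSet_Ioi
    intro s hs
    have hs0 : (0 : ℝ) < s := hs
    have hs' : (s : ℂ) ≠ 0 := by exact_mod_cast hs0.ne'
    simp only [Ki, G, f, c1]
    by_cases h : 1 < s
    · have h' : y < s * y := by nlinarith
      rw [if_pos h, if_pos h']
      have h3 : Complex.exp (-(((|t| : ℝ) : ℂ) * y * ((s : ℂ) - 1))) =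
          Complex.exp (((|t| : ℝ) : ℂ) * y) * Complex.exp (-(((|t| : ℝ) : ℂ) * ((s * y : ℝ) : ℂ))) := by
        rw [← Complex.exp_add]
        congr 1
        push_cast
        ring
      rw [h3]
      push_cast
      field_simp
    · have h' : ¬ y < s * y := by
        push Not at h ⊢
        nlinarith
      rw [if_neg h, if_neg h']
      simp
  have h2 := MeasureTheory.integral_comp_mul_right_Ioi G 0 hy
  rw [zero_mul] at h2
  have h3 : ∫ r in Set.Ioi (0 : ℝ), G r =
      ((y : ℂ) ^ 2 * Complex.exp (((|t| : ℝ) : ℂ) * y)) * ∫ r in Set.Ioi y, f (c1 |t|) a t r := by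
    rw [← MeasureTheory.integral_const_mul]
    have h4 : Set.Ioi y ⊆ Set.Ioi (0 : ℝ) := Set.Ioi_subset_Ioi hy.le
    have h6 : ∫ r in Set.Ioi (0 : ℝ), G r = ∫ r in Set.Ioi y, G r := by
      apply MeasureTheory.setIntegral_eq_of_subset_of_forall_sdiff_eq_zero measurableSet_Ioi h4
      intro r hr
      have h5 : ¬ y < r := fun h => hr.2 h
      simp only [G]
      rw [if_neg h5, zero_mul]
    rw [h6]
    apply MeasureTheory.setIntegral_congr_fun measurableSet_Ioi
    intro r hr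
    have hr' : y < r := hr
    simp only [G]
    rw [if_pos hr']
  rw [h1, h2, h3, Complex.real_smul]
  push_cast
  field_simp

/-! ### negative frequencies -/

/-- The second weight. -/
def c2 (m : ℝ) (r : ℝ) : ℂ := Complex.exp ((m : ℂ) * r) * (1 - chi ((m : ℂ) * r))

/-- The third weight. -/
def c3 (m : ℝ) (r : ℝ) : ℂ := Complex.exp ((m : ℂ) * r) * chi ((m : ℂ) * r)

theorem c2_cont (m : ℝ) : Continuous (c2 m) := by unfold c2 chi; fun_prop

theorem c3_cont (m : ℝ) : Continuous (c3 m) := by unfold c3 chi; fun_prop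

theorem chi_real (x : ℝ) : chi (x : ℂ) = (((1 + 2 * x) * Real.exp (-(2 * x)) : ℝ) : ℂ) := by
  unfold chi
  push_cast
  rfl

theorem c2_bd {m : ℝ} (hm : 0 ≤ m) (y r : ℝ) (hr : 0 < r) (hry : r ≤ y) :
    ‖c2 m r‖ ≤ (Real.exp (m * y) * (4 * m ^ 2)) * r ^ 2 := by
  unfold c2
  have hx : 0 ≤ m * r := mul_nonneg hm hr.le
  rw [← Complex.ofReal_mul, chi_real, norm_mul, ← Complex.ofReal_exp, Complex.norm_real,
    Real.norm_eq_abs, abs_of_pos (Real.exp_pos _), ← Complex.ofReal_one, ← Complex.ofReal_sub,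
    Complex.norm_real, Real.norm_eq_abs]
  have h1 : Real.exp (m * r) ≤ Real.exp (m * y) :=
    Real.exp_le_exp.mpr (mul_le_mul_of_nonneg_left hry hm)
  have h2 : 1 - 2 * (m * r) ≤ Real.exp (-(2 * (m * r))) := by
    have := Real.add_one_le_exp (-(2 * (m * r)))
    linarith
  have h3 : 1 + 2 * (m * r) ≤ Real.exp (2 * (m * r)) := by
    have := Real.add_one_le_exp (2 * (m * r))
    linarith
  have h4 : Real.exp (2 * (m * r)) * Real.exp (-(2 * (m * r))) = 1 := by
    rw [← Real.exp_add]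
    simp
  have h5 : 0 < Real.exp (-(2 * (m * r))) := Real.exp_pos _
  have h6 : (1 + 2 * (m * r)) * Real.exp (-(2 * (m * r))) ≤ 1 := by nlinarith
  have h7 : 1 - (1 + 2 * (m * r)) * Real.exp (-(2 * (m * r))) ≤ 4 * m ^ 2 * r ^ 2 := by nlinarith
  rw [abs_of_nonneg (by linarith)]
  have h8 : 0 ≤ 4 * m ^ 2 * r ^ 2 := by positivity
  calc Real.exp (m * r) * (1 - (1 + 2 * (m * r)) * Real.exp (-(2 * (m * r))))
      ≤ Real.exp (m * y) * (4 * m ^ 2 * r ^ 2) :=
        mul_le_mul h1 h7 (by linarith) (Real.exp_pos _).le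
    _ = (Real.exp (m * y) * (4 * m ^ 2)) * r ^ 2 := by ring

theorem c3_bd {m : ℝ} (hm : 0 ≤ m) (r : ℝ) (hr : 0 < r) : ‖c3 m r‖ ≤ 2 := by
  unfold c3
  have hx : 0 ≤ m * r := mul_nonneg hm hr.le
  rw [← Complex.ofReal_mul, chi_real, norm_mul, ← Complex.ofReal_exp, Complex.norm_real,
    Real.norm_eq_abs, abs_of_pos (Real.exp_pos _), Complex.norm_real, Real.norm_eq_abs]
  have h5 : 0 < Real.exp (-(2 * (m * r))) := Real.exp_pos _
  rw [abs_of_nonneg (by positivity)]
  have h1 : Real.exp (m * r) * ((1 + 2 * (m * r)) * Real.exp (-(2 * (m * r)))) =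
      (1 + 2 * (m * r)) * Real.exp (-(m * r)) := by
    have : Real.exp (m * r) * Real.exp (-(2 * (m * r))) = Real.exp (-(m * r)) := by
      rw [← Real.exp_add]
      congr 1
      ring
    rw [← this]
    ring
  rw [h1]
  have h2 : 1 + m * r ≤ Real.exp (m * r) := by
    have := Real.add_one_le_exp (m * r)
    linarith
  have h4 : Real.exp (m * r) * Real.exp (-(m * r)) = 1 := by
    rw [← Real.exp_add]
    simp
  have h6 : 0 < Real.exp (-(m * r)) := Real.exp_pos _
  nlinarith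

theorem op_Kp (h_PTW : T_PTW) {a : Fam} (ha : Adm a) (t y : ℝ) (hy : 0 < y) :
    (y : ℂ)⁻¹ * opK Kp a t (y : ℂ) = Complex.exp (((-|t| : ℝ) : ℂ) * y) *
      ((∫ r in (0 : ℝ)..y, f (c2 |t|) a t r) - ∫ r in Set.Ioi y, f (c3 |t|) a t r) := by
  have hy' : (y : ℂ) ≠ 0 := by exact_mod_cast hy.ne'
  set E : ℂ := (y : ℂ) ^ 2 * Complex.exp (((-|t| : ℝ) : ℂ) * y) with hE
  let G : ℝ → ℂ := fun r => if r < y then E * f (c2 |t|) a t r else -(E * f (c3 |t|) a t r)
  have h1 : opK Kp a t (y : ℂ) = ∫ s in Set.Ioi (0 : ℝ), G (s * y) := by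
    unfold opK
    rw [if_pos (mem_S hy)]
    apply MeasureTheory.setIntegral_congr_fun measurableSet_Ioi
    intro s hs
    have hs0 : (0 : ℝ) < s := hs
    have hs' : (s : ℂ) ≠ 0 := by exact_mod_cast hs0.ne'
    have h4 : ((|t| : ℝ) : ℂ) * y * (s : ℂ) = ((|t| : ℝ) : ℂ) * ((s * y : ℝ) : ℂ) := by
      push_cast
      ring
    simp only [Kp, G, f, c2, c3, h4]
    by_cases h : s < 1
    · have h' : s * y < y := by nlinarith
      rw [if_pos h, if_pos h']
      have h3 : Complex.exp (-(((|t| : ℝ) : ℂ) * y * (1 - (s : ℂ)))) =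
          Complex.exp (((-|t| : ℝ) : ℂ) * y) * Complex.exp (((|t| : ℝ) : ℂ) * ((s * y : ℝ) : ℂ)) := by
        rw [← Complex.exp_add]
        congr 1
        push_cast
        ring
      rw [h3, hE]
      have h5 : ((s * y : ℝ) : ℂ) = (s : ℂ) * y := by push_cast; rfl
      rw [h5]
      field_simp
    · have h' : ¬ s * y < y := by
        push Not at h ⊢
        nlinarith
      rw [if_neg h, if_neg h']
      have h3 : Complex.exp (((|t| : ℝ) : ℂ) * y * ((s : ℂ) - 1)) =
          Complex.exp (((-|t| : ℝ) : ℂ) * y) * Complex.exp (((|t| : ℝ) : ℂ) * ((s * y : ℝ) : ℂ)) := by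
        rw [← Complex.exp_add]
        congr 1
        push_cast
        ring
      rw [h3, hE]
      have h5 : ((s * y : ℝ) : ℂ) = (s : ℂ) * y := by push_cast; rfl
      rw [h5]
      field_simp
  have h2 := MeasureTheory.integral_comp_mul_right_Ioi G 0 hy
  rw [zero_mul] at h2
  have i2 : MeasureTheory.IntegrableOn (f (c2 |t|) a t) (Set.Ioc 0 y) := by
    rw [← intervalIntegrable_iff_integrableOn_Ioc_of_le hy.le]
    exact int0 h_PTW (c2_cont _) ha t y _ hy (fun r hr hry => c2_bd (abs_nonneg t) y r hr hry)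
  have i3 : MeasureTheory.IntegrableOn (f (c3 |t|) a t) (Set.Ioi y) :=
    intIoi h_PTW (c3_cont _) ha t y 2 hy (fun r hr => c3_bd (abs_nonneg t) r hr)
  have e2 : Set.EqOn (fun r => E * f (c2 |t|) a t r) G (Set.Ioo 0 y) := by
    intro r hr
    simp only [G]
    rw [if_pos hr.2]
  have e3 : Set.EqOn (fun r => -(E * f (c3 |t|) a t r)) G (Set.Ioi y) := by
    intro r hr
    have hr' : ¬ r < y := not_lt.mpr (le_of_lt hr)
    simp only [G]
    rw [if_neg hr']
  have j2 : MeasureTheory.IntegrableOn G (Set.Ioc 0 y) := by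
    rw [integrableOn_Ioc_iff_integrableOn_Ioo]
    have q2 : MeasureTheory.IntegrableOn (fun r => E * f (c2 |t|) a t r) (Set.Ioo 0 y) :=
      (i2.mono_set Set.Ioo_subset_Ioc_self).const_mul E
    exact q2.congr_fun e2 measurableSet_Ioo
  have q3 : MeasureTheory.IntegrableOn (fun r => -(E * f (c3 |t|) a t r)) (Set.Ioi y) :=
    (i3.const_mul E).neg
  have j3 : MeasureTheory.IntegrableOn G (Set.Ioi y) := q3.congr_fun e3 measurableSet_Ioi
  have h3 : ∫ r in Set.Ioi (0 : ℝ), G r =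
      E * ((∫ r in (0 : ℝ)..y, f (c2 |t|) a t r) - ∫ r in Set.Ioi y, f (c3 |t|) a t r) := by
    rw [← Set.Ioc_union_Ioi_eq_Ioi hy.le, MeasureTheory.setIntegral_union
      (Set.Ioc_disjoint_Ioi le_rfl) measurableSet_Ioi j2 j3,
      MeasureTheory.integral_Ioc_eq_integral_Ioo,
      ← MeasureTheory.setIntegral_congr_fun measurableSet_Ioo e2,
      ← MeasureTheory.setIntegral_congr_fun measurableSet_Ioi e3,
      MeasureTheory.integral_neg, MeasureTheory.integral_const_mul,
      MeasureTheory.integral_const_mul, intervalIntegral.integral_of_le hy.le,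
      MeasureTheory.integral_Ioc_eq_integral_Ioo]
    ring
  rw [h1, h2, h3, Complex.real_smul, hE]
  push_cast
  field_simp

end ODV_

open ODV_ in
theorem p_ODV (h_PTW : T_PTW) : T_ODV := by
  intro a ha t y hy
  have hy' : (y : ℂ) ≠ 0 := by exact_mod_cast hy.ne'
  rcases le_or_gt 0 t with ht | ht
  · have habs : |t| = t := abs_of_nonneg ht
    have d1 := derivIoi h_PTW (c1_cont |t|) ha t y 1 hy (fun r hr => c1_bd (abs_nonneg t) r hr)
    have d2 := ((derivExp |t| y).mul d1).const_mul (-(2 * Complex.I))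
    have heq : ∀ z : ℝ, 0 < z → (z : ℂ)⁻¹ * T1 a t (z : ℂ) = -(2 * Complex.I) *
        (Complex.exp (((|t| : ℝ) : ℂ) * z) * ∫ r in Set.Ioi z, f (c1 |t|) a t r) := by
      intro z hz
      rw [← op_Ki (a := a) t z hz]
      unfold T1
      rw [if_pos ht]
      ring
    have d3 := d2.congr_of_eventuallyEq (f₁ := fun z : ℝ => (z : ℂ)⁻¹ * T1 a t (z : ℂ)) (by
      filter_upwards [Ioi_mem_nhds hy] with z hz
      exact heq z hz)
    refine d3.congr_deriv ?_
    rw [heq y hy]
    have h7 : Complex.exp (((|t| : ℝ) : ℂ) * y) * f (c1 |t|) a t y = a t (y : ℂ) / (y : ℂ) ^ 2 := by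
      unfold f c1
      rw [← mul_assoc, ← Complex.exp_add]
      simp
    have h8 : (t : ℂ) = ((|t| : ℝ) : ℂ) := by rw [habs]
    have h9 : Complex.exp (((|t| : ℝ) : ℂ) * y) * -f (c1 |t|) a t y =
        -(a t (y : ℂ) / (y : ℂ) ^ 2) := by
      rw [← h7]
      ring
    rw [h9, h8]
    field_simp
    ring
  · have habs : |t| = -t := abs_of_neg ht
    have ht' : ¬ 0 ≤ t := not_le.mpr ht
    have d1 := derivIoi h_PTW (c3_cont |t|) ha t y 2 hy (fun r hr => c3_bd (abs_nonneg t) r hr)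
    have d0 := deriv0 h_PTW (c2_cont |t|) ha t y _ hy
      (fun r hr hry => c2_bd (abs_nonneg t) y r hr hry)
    have d2 := ((derivExp (-|t|) y).mul (d0.sub d1)).const_mul (2 * Complex.I)
    have heq : ∀ z : ℝ, 0 < z → (z : ℂ)⁻¹ * T1 a t (z : ℂ) = 2 * Complex.I *
        (Complex.exp (((-|t| : ℝ) : ℂ) * z) *
          ((∫ r in (0 : ℝ)..z, f (c2 |t|) a t r) - ∫ r in Set.Ioi z, f (c3 |t|) a t r)) := by
      intro z hz
      rw [← op_Kp h_PTW ha t z hz]
      unfold T1
      rw [if_neg ht']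
      ring
    have d3 := d2.congr_of_eventuallyEq (f₁ := fun z : ℝ => (z : ℂ)⁻¹ * T1 a t (z : ℂ)) (by
      filter_upwards [Ioi_mem_nhds hy] with z hz
      exact heq z hz)
    refine d3.congr_deriv ?_
    rw [heq y hy]
    have h7 : Complex.exp (((-|t| : ℝ) : ℂ) * y) * (f (c2 |t|) a t y - -f (c3 |t|) a t y) =
        a t (y : ℂ) / (y : ℂ) ^ 2 := by
      have h10 : f (c2 |t|) a t y - -f (c3 |t|) a t y =
          Complex.exp (((|t| : ℝ) : ℂ) * y) * (a t (y : ℂ) / (y : ℂ) ^ 2) := by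
        unfold f c2 c3
        ring
      rw [h10, ← mul_assoc, ← Complex.exp_add]
      simp
    have h8 : (t : ℂ) = ((-|t| : ℝ) : ℂ) := by rw [habs, neg_neg]
    rw [h7, h8]
    simp only [Pi.sub_apply]
    field_simp

end Pool.Agent.HSP
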