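import Pool.Agent.HSP.Targets2

/-!
# HSP: off-diagonal part of the Gram products (OFF)
-/

set_option autoImplicit false

open scoped Classical ENNReal

noncomputable section

namespace Pool.Agent.HSP

/-- The ratio `2^(-1/2)`. -/
def OFF_r : ℝ := (2 : ℝ) ^ (-(1 / 2) : ℝ)

theorem OFF_r_pos : 0 < OFF_r := by
  unfold OFF_r
  positivity

theorem OFF_r_lt : OFF_r < 1 := by
  unfold OFF_r
  exact Real.rpow_lt_one_of_one_lt_of_neg (by norm_num) (by norm_num)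

theorem OFF_r_sq : OFF_r ^ 2 = 1 / 2 := by
  unfold OFF_r
  rw [← Real.rpow_natCast, ← Real.rpow_mul (by norm_num)]
  norm_num

theorem OFF_r_pow (J : ℕ) : OFF_r ^ J = (2 : ℝ) ^ (-(J : ℝ) / 2) := by
  unfold OFF_r
  rw [← Real.rpow_natCast, ← Real.rpow_mul (by norm_num)]
  congr 1
  ring

/-- The weight `2^(-|a|/2)`. -/
def OFF_H (a : ℤ) : ℝ≥0∞ := ENNReal.ofReal (OFF_r ^ a.natAbs)

theorem OFF_K : ∃ K : ℝ, 0 < K ∧ ∑' a, OFF_H a ≤ ENNReal.ofReal K := by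
  have hs : Summable (fun a : ℤ => OFF_r ^ a.natAbs) := by
    apply Summable.of_nat_of_neg
    · simpa using summable_geometric_of_lt_one OFF_r_pos.le OFF_r_lt
    · simpa using summable_geometric_of_lt_one OFF_r_pos.le OFF_r_lt
  refine ⟨∑' a : ℤ, OFF_r ^ a.natAbs, ?_, ?_⟩
  · exact hs.tsum_pos (fun a => (pow_pos OFF_r_pos _).le) 0 (pow_pos OFF_r_pos _)
  · unfold OFF_H
    rw [ENNReal.ofReal_tsum_of_nonneg (fun a => (pow_pos OFF_r_pos _).le) hs]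

theorem OFF_inj (J : ℕ) (hJ : 1 ≤ J) (l : ℤ) :
    Function.Injective (fun z : Fin J × ℤ => ((z.1 : ℕ) : ℤ) + (J : ℤ) * z.2 + l) := by
  rintro ⟨j, n⟩ ⟨j', n'⟩ h
  simp only at h
  have hJ' : (0 : ℤ) < (J : ℤ) := by exact_mod_cast hJ
  have h0 : ((j : ℕ) : ℤ) + (J : ℤ) * n = ((j' : ℕ) : ℤ) + (J : ℤ) * n' := by linarith
  have h1 : (((j : ℕ) : ℤ) + (J : ℤ) * n) % (J : ℤ) = ((j : ℕ) : ℤ) := by
    rw [Int.add_mul_emod_self_left]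
    exact Int.emod_eq_of_lt (by positivity) (by exact_mod_cast j.isLt)
  have h2 : (((j' : ℕ) : ℤ) + (J : ℤ) * n') % (J : ℤ) = ((j' : ℕ) : ℤ) := by
    rw [Int.add_mul_emod_self_left]
    exact Int.emod_eq_of_lt (by positivity) (by exact_mod_cast j'.isLt)
  have h3 : ((j : ℕ) : ℤ) = ((j' : ℕ) : ℤ) := by rw [← h1, ← h2, h0]
  have h4 : (j : ℕ) = (j' : ℕ) := by exact_mod_cast h3
  have h5 : (J : ℤ) * n = (J : ℤ) * n' := by linarith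
  have h6 : n = n' := mul_left_cancel₀ hJ'.ne' h5
  rw [Fin.ext h4, h6]

theorem OFF_sum (J : ℕ) (hJ : 1 ≤ J) (l : ℤ) :
    ∑' z : Fin J × ℤ, OFF_H (((z.1 : ℕ) : ℤ) + (J : ℤ) * z.2 + l) ≤ ∑' a, OFF_H a :=
  ENNReal.tsum_comp_le_tsum_of_injective (OFF_inj J hJ l) OFF_H

theorem OFF_zpow (a : ℤ) : (2 : ℝ) ^ (-|a|) = OFF_r ^ (2 * a.natAbs) := by
  rw [pow_mul, OFF_r_sq]
  rw [Int.abs_eq_natAbs, zpow_neg, zpow_natCast, one_div, inv_pow]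

theorem OFF_wt (J : ℕ) (j : ℕ) (n n' l : ℤ) (h : n ≠ n') :
    (2 : ℝ) ^ (-|((j : ℤ) + (J : ℤ) * n) + l|) * (2 : ℝ) ^ (-|((j : ℤ) + (J : ℤ) * n') + l|) ≤
      OFF_r ^ J * (OFF_r ^ (((j : ℤ) + (J : ℤ) * n) + l).natAbs *
        OFF_r ^ (((j : ℤ) + (J : ℤ) * n') + l).natAbs) := by
  rw [OFF_zpow, OFF_zpow]
  set a := ((j : ℤ) + (J : ℤ) * n) + l with ha
  set a' := ((j : ℤ) + (J : ℤ) * n') + l with ha'
  have h1 : J ≤ a.natAbs + a'.natAbs := by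
    have e1 : a - a' = (J : ℤ) * (n - n') := by rw [ha, ha']; ring
    have e2 : (a - a').natAbs = J * (n - n').natAbs := by
      rw [e1, Int.natAbs_mul, Int.natAbs_natCast]
    have e3 : 1 ≤ (n - n').natAbs := by
      have : n - n' ≠ 0 := sub_ne_zero.mpr h
      omega
    have e4 : J ≤ J * (n - n').natAbs := Nat.le_mul_of_pos_right _ e3
    have e5 : (a - a').natAbs ≤ a.natAbs + a'.natAbs := by omega
    omega
  have e6 : OFF_r ^ (2 * a.natAbs) * OFF_r ^ (2 * a'.natAbs) =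
      OFF_r ^ (a.natAbs + a'.natAbs) * (OFF_r ^ a.natAbs * OFF_r ^ a'.natAbs) := by
    ring
  rw [e6]
  apply mul_le_mul_of_nonneg_right
  · exact pow_le_pow_of_le_one OFF_r_pos.le OFF_r_lt.le h1
  · have := OFF_r_pos
    positivity

/-- The index set of the off-diagonal series. -/
abbrev OFF_I (J M : ℕ) : Type := (Fin J × Fin M) × {n : ℤ × ℤ // n.1 ≠ n.2}

theorem OFF_total (J M : ℕ) (hJ : 1 ≤ J) (l : ℤ) (c : Fin M → ℝ≥0∞) (D : ℝ≥0∞) :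
    ∑' i : OFF_I J M, c i.1.2 * (D * (OFF_H (((i.1.1 : ℕ) : ℤ) + (J : ℤ) * i.2.1.1 + l) *
      OFF_H (((i.1.1 : ℕ) : ℤ) + (J : ℤ) * i.2.1.2 + l))) ≤
      (∑ m, c m) * (D * ((∑' a, OFF_H a) * (∑' a, OFF_H a))) := by
  let g : Fin M × ((Fin J × ℤ) × (Fin J × ℤ)) → ℝ≥0∞ := fun z =>
    c z.1 * (D * (OFF_H (((z.2.1.1 : ℕ) : ℤ) + (J : ℤ) * z.2.1.2 + l) *
      OFF_H (((z.2.2.1 : ℕ) : ℤ) + (J : ℤ) * z.2.2.2 + l)))
  let φ : OFF_I J M → Fin M × ((Fin J × ℤ) × (Fin J × ℤ)) := fun i =>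
    (i.1.2, ((i.1.1, i.2.1.1), (i.1.1, i.2.1.2)))
  have hφ : Function.Injective φ := by
    rintro ⟨⟨j, m⟩, ⟨⟨n, n'⟩, h⟩⟩ ⟨⟨j2, m2⟩, ⟨⟨n2, n2'⟩, h2⟩⟩ he
    simp only [φ, Prod.mk.injEq] at he
    obtain ⟨e1, ⟨e2, e3⟩, -, e4⟩ := he
    subst e1
    subst e2
    subst e3
    subst e4
    rfl
  have h1 : ∑' i : OFF_I J M, g (φ i) ≤ ∑' z, g z :=
    ENNReal.tsum_comp_le_tsum_of_injective hφ g
  have h2 : ∑' z, g z = (∑ m, c m) * (D *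
      ((∑' z : Fin J × ℤ, OFF_H (((z.1 : ℕ) : ℤ) + (J : ℤ) * z.2 + l)) *
       (∑' z : Fin J × ℤ, OFF_H (((z.1 : ℕ) : ℤ) + (J : ℤ) * z.2 + l)))) := by
    simp only [g]
    rw [ENNReal.tsum_prod']
    simp only [ENNReal.tsum_mul_left]
    rw [ENNReal.tsum_mul_right, tsum_fintype]
    congr 2
    rw [ENNReal.tsum_prod']
    simp only [ENNReal.tsum_mul_left]
    rw [ENNReal.tsum_mul_right]
  calc _ = ∑' i : OFF_I J M, g (φ i) := rfl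
    _ ≤ ∑' z, g z := h1
    _ = _ := h2
    _ ≤ _ := by
        gcongr
        · exact OFF_sum J hJ l
        · exact OFF_sum J hJ l

/-- One term of the series. -/
theorem OFF_term (p q : ℕ) (C1 C2 : ℝ) (x1 x2 c A1 A2 : ℝ) (y : ℂ) (hx1 : 0 < x1) (hx2 : 0 < x2)
    (h1 : ‖((x1 : ℂ) * y) ^ p * Complex.exp (-((x1 : ℂ) * y))‖ * Real.exp (x1 * ‖y‖ / 2) ≤ C1 * A1)
    (h2 : ‖((x2 : ℂ) * y) ^ q * Complex.exp (-((x2 : ℂ) * y))‖ * Real.exp (x2 * ‖y‖ / 2) ≤ C2 * A2) :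
    ‖(c : ℂ) ^ 2 * (Complex.I * x1 * y) ^ p * (-(Complex.I * x2 * y)) ^ q *
      Complex.exp (-((x1 + x2) * y))‖ * Real.exp (|x1 - x2| * ‖y‖ / 2) ≤
      c ^ 2 * ((C1 * A1) * (C2 * A2)) := by
  have e1 : ‖(c : ℂ) ^ 2 * (Complex.I * x1 * y) ^ p * (-(Complex.I * x2 * y)) ^ q *
      Complex.exp (-((x1 + x2) * y))‖ =
      c ^ 2 * (‖((x1 : ℂ) * y) ^ p * Complex.exp (-((x1 : ℂ) * y))‖ *
        ‖((x2 : ℂ) * y) ^ q * Complex.exp (-((x2 : ℂ) * y))‖) := by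
    have e2 : Complex.exp (-(((x1 : ℂ) + x2) * y)) =
        Complex.exp (-((x1 : ℂ) * y)) * Complex.exp (-((x2 : ℂ) * y)) := by
      rw [← Complex.exp_add]
      congr 1
      ring
    rw [e2]
    simp only [norm_mul, norm_pow, norm_neg, Complex.norm_I, Complex.norm_real, one_mul]
    rw [Real.norm_eq_abs c, sq_abs]
    ring
  rw [e1]
  have e3 : Real.exp (|x1 - x2| * ‖y‖ / 2) ≤ Real.exp (x1 * ‖y‖ / 2) * Real.exp (x2 * ‖y‖ / 2) := by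
    rw [← Real.exp_add]
    apply Real.exp_le_exp.mpr
    have h3 : |x1 - x2| ≤ x1 + x2 := by
      rw [abs_le]
      constructor <;> linarith
    have h4 := norm_nonneg y
    nlinarith [mul_le_mul_of_nonneg_right h3 h4]
  have n1 : 0 ≤ ‖((x1 : ℂ) * y) ^ p * Complex.exp (-((x1 : ℂ) * y))‖ := norm_nonneg _
  have n2 : 0 ≤ ‖((x2 : ℂ) * y) ^ q * Complex.exp (-((x2 : ℂ) * y))‖ := norm_nonneg _
  calc c ^ 2 * (‖((x1 : ℂ) * y) ^ p * Complex.exp (-((x1 : ℂ) * y))‖ *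
        ‖((x2 : ℂ) * y) ^ q * Complex.exp (-((x2 : ℂ) * y))‖) * Real.exp (|x1 - x2| * ‖y‖ / 2)
      ≤ c ^ 2 * (‖((x1 : ℂ) * y) ^ p * Complex.exp (-((x1 : ℂ) * y))‖ *
        ‖((x2 : ℂ) * y) ^ q * Complex.exp (-((x2 : ℂ) * y))‖) *
        (Real.exp (x1 * ‖y‖ / 2) * Real.exp (x2 * ‖y‖ / 2)) := by
        apply mul_le_mul_of_nonneg_left e3
        positivity
    _ = c ^ 2 * ((‖((x1 : ℂ) * y) ^ p * Complex.exp (-((x1 : ℂ) * y))‖ *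
          Real.exp (x1 * ‖y‖ / 2)) *
        (‖((x2 : ℂ) * y) ^ q * Complex.exp (-((x2 : ℂ) * y))‖ * Real.exp (x2 * ‖y‖ / 2))) := by
        ring
    _ ≤ c ^ 2 * ((C1 * A1) * (C2 * A2)) := by
        apply mul_le_mul_of_nonneg_left _ (sq_nonneg c)
        apply mul_le_mul h1 h2 (by positivity)
        exact le_trans (by positivity) h1

theorem p_OFF (hS : T_SER) (hW : T_WIN) (hF : T_FQI) : T_OFF := by
  intro p q hp hq
  obtain ⟨C1, hC1, h1⟩ := hW p hp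
  obtain ⟨C2, hC2, h2⟩ := hW q hq
  obtain ⟨K, hK, hKs⟩ := OFF_K
  refine ⟨4 * (C1 * C2 * (K * K)), by positivity, ?_⟩
  intro J M hJ hM
  obtain ⟨hF1, -, -, hF4⟩ := hF M hM
  let α : OFF_I J M → ℝ := fun i =>
    fq M i.1.2 (i.1.1 + J * i.2.1.1) - fq M i.1.2 (i.1.1 + J * i.2.1.2)
  let f : OFF_I J M → ℂ → ℂ := fun i y =>
    (cf M i.1.2 : ℂ) ^ 2 * (Complex.I * fq M i.1.2 (i.1.1 + J * i.2.1.1) * y) ^ p *
      (-(Complex.I * fq M i.1.2 (i.1.1 + J * i.2.1.2) * y)) ^ q *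
      Complex.exp (-((fq M i.1.2 (i.1.1 + J * i.2.1.1) + fq M i.1.2 (i.1.1 + J * i.2.1.2)) * y))
  have hd : ∀ i, DifferentiableOn ℂ (f i) S := by
    intro i
    apply Differentiable.differentiableOn
    simp only [f]
    fun_prop
  have hpos : ∀ (i : Fin M) (n : ℤ), 0 < fq M i n := by
    intro i n
    exact lt_of_lt_of_le (by positivity) (hF1 i n).1
  have hsum : ∀ l, ∑' i, (⨆ y ∈ W l, ENNReal.ofReal (‖f i y‖ * Real.exp (|α i| * ‖y‖ / 2))) ≤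
      ENNReal.ofReal (4 * (C1 * C2 * (K * K)) * (2 : ℝ) ^ (-(J : ℝ) / 2)) := by
    intro l
    have hb : ∀ i : OFF_I J M,
        (⨆ y ∈ W l, ENNReal.ofReal (‖f i y‖ * Real.exp (|α i| * ‖y‖ / 2))) ≤
        ENNReal.ofReal (cf M i.1.2 ^ 2) * (ENNReal.ofReal (C1 * C2 * OFF_r ^ J) *
          (OFF_H (((i.1.1 : ℕ) : ℤ) + (J : ℤ) * i.2.1.1 + l) *
            OFF_H (((i.1.1 : ℕ) : ℤ) + (J : ℤ) * i.2.1.2 + l))) := by
      intro i
      apply iSup₂_le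
      intro y hy
      unfold OFF_H
      have hr := OFF_r_pos
      rw [← ENNReal.ofReal_mul (by positivity), ← ENNReal.ofReal_mul (by positivity),
        ← ENNReal.ofReal_mul (by positivity)]
      apply ENNReal.ofReal_le_ofReal
      have t1 := h1 M i.1.2 (i.1.1 + J * i.2.1.1) l y hy
      have t2 := h2 M i.1.2 (i.1.1 + J * i.2.1.2) l y hy
      have t3 := OFF_term p q C1 C2 (fq M i.1.2 (i.1.1 + J * i.2.1.1))
        (fq M i.1.2 (i.1.1 + J * i.2.1.2)) (cf M i.1.2) _ _ y (hpos _ _) (hpos _ _) t1 t2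
      refine le_trans t3 ?_
      apply mul_le_mul_of_nonneg_left _ (sq_nonneg _)
      have t4 := OFF_wt J (i.1.1 : ℕ) i.2.1.1 i.2.1.2 l i.2.2
      have t5 : C1 * C2 * ((2 : ℝ) ^ (-|(((i.1.1 : ℕ) : ℤ) + (J : ℤ) * i.2.1.1) + l|) *
          (2 : ℝ) ^ (-|(((i.1.1 : ℕ) : ℤ) + (J : ℤ) * i.2.1.2) + l|)) ≤
          C1 * C2 * (OFF_r ^ J * (OFF_r ^ ((((i.1.1 : ℕ) : ℤ) + (J : ℤ) * i.2.1.1) + l).natAbs *
            OFF_r ^ ((((i.1.1 : ℕ) : ℤ) + (J : ℤ) * i.2.1.2) + l).natAbs)) :=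
        mul_le_mul_of_nonneg_left t4 (by positivity)
      refine le_trans (le_of_eq ?_) (le_trans t5 (le_of_eq ?_))
      · ring
      · ring
    calc _ ≤ ∑' i : OFF_I J M, ENNReal.ofReal (cf M i.1.2 ^ 2) *
          (ENNReal.ofReal (C1 * C2 * OFF_r ^ J) *
          (OFF_H (((i.1.1 : ℕ) : ℤ) + (J : ℤ) * i.2.1.1 + l) *
            OFF_H (((i.1.1 : ℕ) : ℤ) + (J : ℤ) * i.2.1.2 + l))) := ENNReal.tsum_le_tsum hb
      _ ≤ (∑ m, ENNReal.ofReal (cf M m ^ 2)) * (ENNReal.ofReal (C1 * C2 * OFF_r ^ J) *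
          ((∑' a, OFF_H a) * (∑' a, OFF_H a))) :=
          OFF_total J M hJ l (fun m => ENNReal.ofReal (cf M m ^ 2)) _
      _ ≤ ENNReal.ofReal 4 * (ENNReal.ofReal (C1 * C2 * OFF_r ^ J) *
          (ENNReal.ofReal K * ENNReal.ofReal K)) := by
          gcongr
          rw [← ENNReal.ofReal_sum_of_nonneg (fun m _ => sq_nonneg _)]
          exact ENNReal.ofReal_le_ofReal hF4
      _ = ENNReal.ofReal (4 * (C1 * C2 * (K * K)) * (2 : ℝ) ^ (-(J : ℝ) / 2)) := by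
          have hr := OFF_r_pos
          rw [← ENNReal.ofReal_mul hK.le, ← ENNReal.ofReal_mul (by positivity),
            ← ENNReal.ofReal_mul (by norm_num), ← OFF_r_pow]
          congr 1
          ring
  obtain ⟨k1, k2, k3, k4⟩ := hS (OFF_I J M) α f _ hd hsum
  exact ⟨ser α f, k1, k2, fun x y hy => ⟨k3 y hy, k4 x y hy⟩⟩

end Pool.Agent.HSP
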