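import Pool.Agent.HSP.Targets4

set_option autoImplicit false

/-!
# HSP, target POI: a closed form on the half plane has a smooth primitive
-/

open scoped Classical ENNReal

noncomputable section

namespace Pool.Agent.HSP

namespace POI_

/-- The form with the coefficients `P` and `V`. -/
def om (P V : ℂ → ℂ) (z : ℂ) : ℂ →L[ℝ] ℂ :=
  (P z • (ContinuousLinearMap.id ℝ ℂ) : ℂ →L[ℝ] ℂ) + (V z • (Complex.conjCLE : ℂ →L[ℝ] ℂ))

theorem isOpen_Hp : IsOpen Hp := isOpen_lt continuous_const Complex.continuous_im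

theorem convex_Hp : Convex ℝ Hp := convex_halfSpace_im_gt 0

/-- The derivative of the form. -/
def dom (a z b : ℂ) : ℂ →L[ℝ] ℂ →L[ℝ] ℂ :=
  ((a • (ContinuousLinearMap.id ℝ ℂ) : ℂ →L[ℝ] ℂ) +
    (z • (Complex.conjCLE : ℂ →L[ℝ] ℂ))).smulRight (ContinuousLinearMap.id ℝ ℂ : ℂ →L[ℝ] ℂ) +
  ((z • (ContinuousLinearMap.id ℝ ℂ) : ℂ →L[ℝ] ℂ) +
    (b • (Complex.conjCLE : ℂ →L[ℝ] ℂ))).smulRight (Complex.conjCLE : ℂ →L[ℝ] ℂ)

theorem dom_apply (a z b h k : ℂ) : dom a z b h k =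
    (a * h + z * (starRingEnd ℂ) h) * k +
      (z * h + b * (starRingEnd ℂ) h) * (starRingEnd ℂ) k := by
  simp [dom]

theorem om_deriv (P V A B Z : ℂ → ℂ) (z : ℂ) (hP : HasW P (A z) (Z z) z)
    (hV : HasW V (Z z) (B z) z) : HasFDerivAt (om P V) (dom (A z) (Z z) (B z)) z := by
  unfold om dom
  exact (HasFDerivAt.smul_const hP (ContinuousLinearMap.id ℝ ℂ : ℂ →L[ℝ] ℂ)).add
    (HasFDerivAt.smul_const hV (Complex.conjCLE : ℂ →L[ℝ] ℂ))

theorem om_smooth (P V : ℂ → ℂ) (hP : Smo P) (hV : Smo V) :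
    ContDiffOn ℝ ((⊤ : ℕ∞) : WithTop ℕ∞) (om P V) Hp := by
  unfold om
  exact (ContDiffOn.smul hP contDiffOn_const).add (ContDiffOn.smul hV contDiffOn_const)

end POI_

open POI_ in
theorem p_POI : T_POI := by
  intro P V A B Z hP hV dP dV
  obtain ⟨Φ, hΦ⟩ := convex_Hp.exists_forall_hasFDerivWithinAt_of_hasFDerivWithinAt_symmetric
    (ω := om P V) (dω := fun z => dom (A z) (Z z) (B z))
    (fun z hz => (om_deriv P V A B Z z (dP z hz) (dV z hz)).hasFDerivWithinAt)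
    (fun z _ h _ k _ => by
      rw [dom_apply, dom_apply]
      ring)
  have h1 : ∀ z ∈ Hp, HasFDerivAt Φ (om P V z) z := fun z hz =>
    (hΦ z hz).hasFDerivAt (isOpen_Hp.mem_nhds hz)
  refine ⟨Φ, ?_, fun z hz => h1 z hz⟩
  unfold Smo
  rw [contDiffOn_infty_iff_fderiv_of_isOpen isOpen_Hp]
  refine ⟨fun z hz => (h1 z hz).differentiableAt.differentiableWithinAt, ?_⟩
  exact (om_smooth P V hP hV).congr fun z hz => (h1 z hz).fderiv

end Pool.Agent.HSP
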