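import Pool.Agent.HSP.Targets4

set_option autoImplicit false

/-!
# HSP: the algebraic curvature identity (target T_PSI)
-/

open scoped Classical ENNReal

noncomputable section

namespace Pool.Agent.HSP

namespace PSI_

variable {ι : Type} [Fintype ι]

theorem hp_star (u v : ι → ℂ) : star (hp u v) = hp v u := by
  unfold hp
  rw [star_sum]
  refine Finset.sum_congr rfl fun r _ => ?_
  rw [star_mul, star_star]

theorem hp_addl (u v w : ι → ℂ) : hp (u + v) w = hp u w + hp v w := by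
  unfold hp
  rw [← Finset.sum_add_distrib]
  refine Finset.sum_congr rfl fun r _ => ?_
  rw [Pi.add_apply, add_mul]

theorem hp_addr (u v w : ι → ℂ) : hp w (u + v) = hp w u + hp w v := by
  rw [← hp_star (u + v) w, hp_addl, star_add, hp_star, hp_star]

theorem hp_smull (c : ℂ) (u w : ι → ℂ) : hp (c • u) w = c * hp u w := by
  unfold hp
  rw [Finset.mul_sum]
  refine Finset.sum_congr rfl fun r _ => ?_
  rw [Pi.smul_apply, smul_eq_mul, mul_assoc]

theorem hp_smulr (c : ℂ) (u w : ι → ℂ) : hp w (c • u) = star c * hp w u := by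
  rw [← hp_star (c • u) w, hp_smull, star_mul', hp_star]

theorem re_eq (u v : ι → ℂ) : (((hp u v).re : ℝ) : ℂ) = (hp u v + hp v u) / 2 := by
  rw [← hp_star u v, Complex.re_eq_add_conj]
  rfl

theorem inner_cr (u v : ι → ℂ) : inner ℝ (cr u) (cr v) = (hp u v).re := by
  unfold cr hp
  rw [PiLp.inner_apply, Fintype.sum_sum_type, Complex.re_sum, ← Finset.sum_add_distrib]
  refine Finset.sum_congr rfl fun r _ => ?_
  simp only [Sum.elim_inl, Sum.elim_inr, Complex.mul_re]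
  simp
  ring

end PSI_

open PSI_ in
/-- PSI. -/
theorem p_PSI : T_PSI := by
  intro ι _
  refine ⟨inner_cr, ?_⟩
  intro P V A B Z x y xx xy yy hx hy hxx hxy hyy
  have hI : star Complex.I = -Complex.I := Complex.conj_I
  have hI2 : Complex.I ^ 2 = -1 := Complex.I_sq
  have ex : x = P + V := by funext r; rw [hx]; rfl
  have ey : y = Complex.I • (P + (-1 : ℂ) • V) := by
    funext r; rw [hy]; simp [Pi.smul_apply]; ring
  have exx : xx = A + (2 : ℂ) • Z + B := by funext r; rw [hxx]; simp [Pi.smul_apply]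
  have exy : xy = Complex.I • (A + (-1 : ℂ) • B) := by
    funext r; rw [hxy]; simp [Pi.smul_apply]; ring
  have eyy : yy = (-1 : ℂ) • A + (2 : ℂ) • Z + (-1 : ℂ) • B := by
    funext r; rw [hyy]; simp [Pi.smul_apply]; ring
  have s2 : star (2 : ℂ) = 2 := by simp
  have s1 : star (-1 : ℂ) = -1 := by simp
  have key : ∀ u v : ι → ℂ, (((hp u v).re : ℝ) : ℂ) = (hp u v + hp v u) / 2 := re_eq
  -- the abbreviations
  obtain ⟨be, hbe⟩ : ∃ be, be = (1 / 2 : ℂ) * (hp P P + hp V V) := ⟨_, rfl⟩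
  obtain ⟨al, hal⟩ : ∃ al, al = hp P V := ⟨_, rfl⟩
  obtain ⟨als, hals⟩ : ∃ als, als = hp V P := ⟨_, rfl⟩
  obtain ⟨u1, hu1⟩ : ∃ u1, u1 = (1 / 2 : ℂ) * (hp A V + hp P B) := ⟨_, rfl⟩
  obtain ⟨u1s, hu1s⟩ : ∃ u1, u1 = (1 / 2 : ℂ) * (hp V A + hp B P) := ⟨_, rfl⟩
  obtain ⟨u2, hu2⟩ : ∃ u1, u1 = (1 / 2 : ℂ) * (hp A P + hp V B) := ⟨_, rfl⟩
  obtain ⟨u2s, hu2s⟩ : ∃ u1, u1 = (1 / 2 : ℂ) * (hp P A + hp B V) := ⟨_, rfl⟩
  obtain ⟨c1, hc1⟩ : ∃ u1, u1 = (1 / 2 : ℂ) * (hp A A + hp B B) := ⟨_, rfl⟩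
  obtain ⟨c2, hc2⟩ : ∃ u1, u1 = hp Z Z := ⟨_, rfl⟩
  obtain ⟨t1, ht1⟩ : ∃ u1, u1 = (1 / 2 : ℂ) * (hp Z V + hp P Z) := ⟨_, rfl⟩
  obtain ⟨t1s, ht1s⟩ : ∃ u1, u1 = (1 / 2 : ℂ) * (hp V Z + hp Z P) := ⟨_, rfl⟩
  obtain ⟨q, hq⟩ : ∃ u1, u1 = (1 / 2 : ℂ) * (hp A B + hp B A) := ⟨_, rfl⟩
  have e1 : (((hp x x).re : ℝ) : ℂ) = 2 * be + al + als := by
    rw [key, ex, hbe, hal, hals]; simp only [hp_addl, hp_addr]; ring
  have e2 : (((hp y y).re : ℝ) : ℂ) = 2 * be - al - als := by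
    rw [key, ey, hbe, hal, hals]
    simp only [hp_addl, hp_addr, hp_smull, hp_smulr, hI, s1]
    linear_combination (-(hp P P) - hp V V + hp P V + hp V P) * hI2
  have e3 : (((hp x y).re : ℝ) : ℂ) = Complex.I * (al - als) := by
    rw [key, ex, ey, hal, hals]
    simp only [hp_addl, hp_addr, hp_smull, hp_smulr, hI, s1]; ring
  have d1 : (((hp xx yy).re : ℝ) : ℂ) = 4 * c2 - 2 * c1 - 2 * q := by
    rw [key, exx, eyy, hc1, hc2, hq]
    simp only [hp_addl, hp_addr, hp_smull, hp_smulr, s1, s2]; ring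
  have d2 : (((hp xy xy).re : ℝ) : ℂ) = 2 * c1 - 2 * q := by
    rw [key, exy, hc1, hq]
    simp only [hp_addl, hp_addr, hp_smull, hp_smulr, hI, s1]
    linear_combination (-(hp A A) - hp B B + hp A B + hp B A) * hI2
  have f1 : (((hp xx x).re : ℝ) : ℂ) = (u1 + 2 * t1 + u2s) + (u1s + 2 * t1s + u2) := by
    rw [key, exx, ex, hu1, hu1s, hu2, hu2s, ht1, ht1s]
    simp only [hp_addl, hp_addr, hp_smull, hp_smulr, s2]; ring
  have f2 : (((hp xx y).re : ℝ) : ℂ) =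
      Complex.I * ((u1 + 2 * t1 + u2s) - (u1s + 2 * t1s + u2)) := by
    rw [key, exx, ey, hu1, hu1s, hu2, hu2s, ht1, ht1s]
    simp only [hp_addl, hp_addr, hp_smull, hp_smulr, hI, s1, s2]; ring
  have f3 : (((hp x yy).re : ℝ) : ℂ) = (-u1 + 2 * t1 - u2s) + (-u1s + 2 * t1s - u2) := by
    rw [key, eyy, ex, hu1, hu1s, hu2, hu2s, ht1, ht1s]
    simp only [hp_addl, hp_addr, hp_smull, hp_smulr, s1, s2]; ring
  have f4 : (((hp y yy).re : ℝ) : ℂ) =
      Complex.I * ((-u1 + 2 * t1 - u2s) - (-u1s + 2 * t1s - u2)) := by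
    rw [key, eyy, ey, hu1, hu1s, hu2, hu2s, ht1, ht1s]
    simp only [hp_addl, hp_addr, hp_smull, hp_smulr, hI, s1, s2]; ring
  have f5 : (((hp xy x).re : ℝ) : ℂ) = Complex.I * (u1 - u2s) - Complex.I * (u1s - u2) := by
    rw [key, exy, ex, hu1, hu1s, hu2, hu2s]
    simp only [hp_addl, hp_addr, hp_smull, hp_smulr, hI, s1]; ring
  have f5' : (((hp x xy).re : ℝ) : ℂ) = Complex.I * (u1 - u2s) - Complex.I * (u1s - u2) := by
    rw [key, exy, ex, hu1, hu1s, hu2, hu2s]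
    simp only [hp_addl, hp_addr, hp_smull, hp_smulr, hI, s1]; ring
  have f6 : (((hp xy y).re : ℝ) : ℂ) = -(u1 - u2s) - (u1s - u2) := by
    rw [key, exy, ey, hu1, hu1s, hu2, hu2s]
    simp only [hp_addl, hp_addr, hp_smull, hp_smulr, hI, s1]
    ring_nf
    rw [hI2]
    ring
  have f6' : (((hp y xy).re : ℝ) : ℂ) = -(u1 - u2s) - (u1s - u2) := by
    rw [← f6, key, key, add_comm]
  have hals' : star al = als := by rw [hal, hals, hp_star]
  have hu1' : star u1 = u1s := by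
    rw [hu1, hu1s, star_mul', star_add, hp_star, hp_star]; simp
  have hu2' : star u2 = u2s := by
    rw [hu2, hu2s, star_mul', star_add, hp_star, hp_star]; simp
  have ht1' : star t1 = t1s := by
    rw [ht1, ht1s, star_mul', star_add, hp_star, hp_star]; simp
  have hPsi : Psi (1 / 2 : ℂ) hp P A V B Z = (be ^ 2 - al * als) * (c1 - c2) +
      (als * u1 * u2s - be * (u1 * u1s + u2 * u2s) + al * u2 * u1s) -
      (als * t1 ^ 2 - 2 * (be * t1 * t1s) + al * t1s ^ 2) - (be ^ 2 - al * als) ^ 2 := by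
    unfold Psi
    simp only [← hbe, ← hal, ← hu1, ← hu2, ← hc1, ← hc2, ← ht1, hals', hu1', hu2', ht1']
  rw [hPsi, Matrix.det_fin_three, Matrix.det_fin_three]
  simp only [Matrix.of_apply, Matrix.cons_val', Matrix.cons_val_zero, Matrix.cons_val_one,
    Matrix.cons_val, Matrix.head_cons, Matrix.empty_val', Matrix.cons_val_fin_one]
  push_cast
  rw [e1, e2, e3, d1, d2, f1, f2, f3, f4, f5, f5', f6, f6']
  have hI4 : Complex.I ^ 4 = 1 := by rw [show (4 : ℕ) = 2 * 2 from rfl, pow_mul, hI2]; ring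
  ring_nf
  simp only [hI2, hI4]
  ring

end Pool.Agent.HSP
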