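import Pool.Agent.HSP.Targets3

set_option autoImplicit false

/-!
# HSP (MP_1662c5_gt): the curvature expression is real (target REA)
-/

open scoped Classical ENNReal

noncomputable section

namespace Pool.Agent.HSP

namespace REA_

/-- One half is real. -/
theorem star_half {R : Type} [CommRing R] [StarRing R] (h : R) (hh : 2 * h = 1) : star h = h := by
  have h1 : 2 * star h = 1 := by
    have := congrArg star hh
    rw [star_mul', star_one] at this
    simpa using this
  calc star h = star h * (2 * h) := by rw [hh, mul_one]
    _ = (2 * star h) * h := by ring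
    _ = h := by rw [h1, one_mul]

/-- The commutative algebra. -/
theorem alg {R : Type} [CommRing R] [StarRing R] (be al u1 u2 c1 c2 t1 : R) (hb : star be = be) (h1 : star c1 = c1) (h2 : star c2 = c2) :
    star ((be ^ 2 - al * star al) * (c1 - c2) + (star al * u1 * star u2 - be * (u1 * star u1 + u2 * star u2) + al * u2 * star u1) - (star al * t1 ^ 2 - 2 * (be * t1 * star t1) + al * star t1 ^ 2) - (be ^ 2 - al * star al) ^ 2) =
    (be ^ 2 - al * star al) * (c1 - c2) + (star al * u1 * star u2 - be * (u1 * star u1 + u2 * star u2) + al * u2 * star u1) - (star al * t1 ^ 2 - 2 * (be * t1 * star t1) + al * star t1 ^ 2) - (be ^ 2 - al * star al) ^ 2 := by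
  simp only [star_add, star_sub, star_mul', star_pow, star_star, hb, h1, h2, star_ofNat]
  ring

end REA_

/-- REA. The curvature expression is real. -/
theorem p_REA : T_REA := by
  intro R E _ _ h ip P1 P2 V1 W2 Z2 hh hip
  have hs : star h = h := REA_.star_half h hh
  unfold Psi
  refine REA_.alg _ _ _ _ _ _ _ ?_ ?_ ?_
  · rw [star_mul', star_add, hs, hip, hip]
  · rw [star_mul', star_add, hs, hip, hip]
  · exact hip Z2 Z2

end Pool.Agent.HSP
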