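import Pool.Agent.HSP.Targets4

set_option autoImplicit false

open scoped Classical ENNReal

noncomputable section

namespace Pool.Agent.HSP

namespace SAD_

/-- The inner product with a real vector of a complex vector. -/
theorem inner_cr {ι : Type} [Fintype ι] (v : ι → ℂ) (ν : EuclideanSpace ℝ (ι ⊕ ι)) :
    (inner ℝ (cr v) ν : ℝ) = ∑ r, ((v r).re * ν (Sum.inl r) + (v r).im * ν (Sum.inr r)) := by
  rw [PiLp.inner_apply, Fintype.sum_sum_type, ← Finset.sum_add_distrib]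
  refine Finset.sum_congr rfl fun r _ => ?_
  simp [cr, mul_comm]

end SAD_

theorem p_SAD : T_SAD := by
  intro ι _ μ A B Z ν hμ hZ
  set L : ℝ := inner ℝ (cr (fun r => A r + 2 * Z r + B r)) ν with hL
  set N : ℝ := inner ℝ (cr (fun r => -A r + 2 * Z r - B r)) ν with hN
  set M : ℝ := inner ℝ (cr (fun r => Complex.I * (A r - B r))) ν with hM
  have key : L + N = 2 * μ.re * (L - N) + 4 * μ.im * M := by
    rw [hL, hN, hM, SAD_.inner_cr, SAD_.inner_cr, SAD_.inner_cr, ← Finset.sum_add_distrib,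
      ← Finset.sum_sub_distrib, Finset.mul_sum, Finset.mul_sum, ← Finset.sum_add_distrib]
    refine Finset.sum_congr rfl fun r _ => ?_
    rw [hZ r]
    simp
    ring
  have hn : μ.re ^ 2 + μ.im ^ 2 ≤ 1 / 16 := by
    have h1 : ‖μ‖ ^ 2 ≤ (1 / 4 : ℝ) ^ 2 := by
      have := norm_nonneg μ
      nlinarith
    rw [← Complex.normSq_eq_norm_sq, Complex.normSq_apply] at h1
    nlinarith
  have hs : (L + N) ^ 2 ≤ (1 / 4) * ((L - N) ^ 2 + 4 * M ^ 2) := by
    have h2 : (L + N) ^ 2 ≤ 4 * (μ.re ^ 2 + μ.im ^ 2) * ((L - N) ^ 2 + 4 * M ^ 2) := by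
      rw [key]
      nlinarith [sq_nonneg (μ.re * (2 * M) - μ.im * (L - N))]
    have h3 : 0 ≤ (L - N) ^ 2 + 4 * M ^ 2 := by positivity
    nlinarith
  nlinarith [sq_nonneg M, sq_nonneg (L - N)]

end Pool.Agent.HSP
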