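import Pool.Agent.HSP.Targets2

set_option autoImplicit false

open scoped Classical ENNReal

noncomputable section

namespace Pool.Agent.HSP

/-- The weighted supremum of the term `i` on the window `l`. -/
def SER_B {I : Type} (α : I → ℝ) (f : I → ℂ → ℂ) (l : ℤ) (i : I) : ℝ≥0∞ :=
  ⨆ y ∈ W l, ENNReal.ofReal (‖f i y‖ * Real.exp (|α i| * ‖y‖ / 2))

theorem SER_le {I : Type} (α : I → ℝ) (f : I → ℂ → ℂ) (l : ℤ) (i : I) {y : ℂ} (hy : y ∈ W l) :
    ENNReal.ofReal (‖f i y‖ * Real.exp (|α i| * ‖y‖ / 2)) ≤ SER_B α f l i :=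
  le_iSup₂ (f := fun (y : ℂ) (_ : y ∈ W l) =>
    ENNReal.ofReal (‖f i y‖ * Real.exp (|α i| * ‖y‖ / 2))) y hy

theorem SER_norm_le {I : Type} (α : I → ℝ) (f : I → ℂ → ℂ) (l : ℤ) (i : I) {y : ℂ}
    (hy : y ∈ W l) (hB : SER_B α f l i ≠ ⊤) : ‖f i y‖ ≤ (SER_B α f l i).toReal := by
  have h1 := SER_le α f l i hy
  have h2 : ‖f i y‖ ≤ ‖f i y‖ * Real.exp (|α i| * ‖y‖ / 2) := by
    have : (1 : ℝ) ≤ Real.exp (|α i| * ‖y‖ / 2) := Real.one_le_exp (by positivity)
    exact le_mul_of_one_le_right (norm_nonneg _) this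
  have h3 : ‖f i y‖ * Real.exp (|α i| * ‖y‖ / 2) ≤ (SER_B α f l i).toReal := by
    have := (ENNReal.ofReal_le_iff_le_toReal hB).1 h1
    exact this
  linarith

theorem SER_A {I : Type} (α : I → ℝ) (f : I → ℂ → ℂ) (l : ℤ) (t : ℝ) :
    A l (ser α f) t ≤ ∑' i, (if t = α i then SER_B α f l i else 0) := by
  unfold A
  refine iSup₂_le fun y hy => ?_
  have hyS : y ∈ S := hy.1
  have e1 : ser α f t y = ∑' i, (if t = α i then f i y else 0) := by
    unfold ser
    rw [if_pos hyS]
  rw [e1, ENNReal.ofReal_mul (norm_nonneg _), ofReal_norm]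
  calc ‖∑' i, (if t = α i then f i y else 0)‖ₑ * ENNReal.ofReal (Real.exp (|t| * ‖y‖ / 2))
      ≤ (∑' i, ‖(if t = α i then f i y else 0)‖ₑ) * ENNReal.ofReal (Real.exp (|t| * ‖y‖ / 2)) := by
        gcongr
        exact enorm_tsum_le_tsum_enorm
    _ = ∑' i, ‖(if t = α i then f i y else 0)‖ₑ * ENNReal.ofReal (Real.exp (|t| * ‖y‖ / 2)) := by
        rw [ENNReal.tsum_mul_right]
    _ ≤ ∑' i, (if t = α i then SER_B α f l i else 0) := by
        refine ENNReal.tsum_le_tsum fun i => ?_
        by_cases h : t = α i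
        · rw [if_pos h, if_pos h, h, ← ofReal_norm, ← ENNReal.ofReal_mul (norm_nonneg _)]
          exact SER_le α f l i hy
        · rw [if_neg h, if_neg h]
          simp

theorem SER_N {I : Type} (α : I → ℝ) (f : I → ℂ → ℂ) (l : ℤ) :
    N l (ser α f) ≤ ∑' i, SER_B α f l i := by
  unfold N
  calc ∑' t, A l (ser α f) t ≤ ∑' t, ∑' i, (if t = α i then SER_B α f l i else 0) :=
        ENNReal.tsum_le_tsum fun t => SER_A α f l t
    _ = ∑' i, ∑' t, (if t = α i then SER_B α f l i else 0) := ENNReal.tsum_comm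
    _ = ∑' i, SER_B α f l i := by
        refine tsum_congr fun i => ?_
        exact tsum_ite_eq (α i) fun _ => SER_B α f l i

theorem SER_summable {I : Type} (α : I → ℝ) (f : I → ℂ → ℂ) (C : ℝ)
    (hC : ∀ l, ∑' i, SER_B α f l i ≤ ENNReal.ofReal C) (h_PTW : T_PTW) {y : ℂ} (hy : y ∈ S) :
    Summable (fun i => ‖f i y‖) := by
  obtain ⟨l, hl⟩ := h_PTW.1 y hy
  have hfin : ∑' i, SER_B α f l i ≠ ⊤ := ne_top_of_le_ne_top ENNReal.ofReal_ne_top (hC l)
  refine Summable.of_nonneg_of_le (fun i => norm_nonneg _) (fun i => ?_)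
    (ENNReal.summable_toReal hfin)
  exact SER_norm_le α f l i hl (ENNReal.ne_top_of_tsum_ne_top hfin i)

theorem SER_hol {I : Type} (α : I → ℝ) (f : I → ℂ → ℂ) (C : ℝ)
    (hf : ∀ i, DifferentiableOn ℂ (f i) S)
    (hC : ∀ l, ∑' i, SER_B α f l i ≤ ENNReal.ofReal C) (h_PTW : T_PTW) (t : ℝ) :
    DifferentiableOn ℂ (ser α f t) S := by
  have hopen : IsOpen S := h_PTW.2.2.2.1
  have hfin : ∀ l, ∑' i, SER_B α f l i ≠ ⊤ := fun l =>
    ne_top_of_le_ne_top ENNReal.ofReal_ne_top (hC l)
  intro y hy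
  obtain ⟨l, hl⟩ := h_PTW.1 y hy
  set U : Set ℂ := S ∩ {w | (2 : ℝ) ^ (l - 1) < ‖w‖ ∧ ‖w‖ < (2 : ℝ) ^ (l + 2)} with hU
  have hUo : IsOpen U := by
    refine hopen.inter ?_
    exact (isOpen_lt continuous_const continuous_norm).inter
      (isOpen_lt continuous_norm continuous_const)
  have hp : ∀ m : ℤ, (2 : ℝ) ^ (m + 1) = 2 * 2 ^ m := fun m => by
    rw [zpow_add_one₀ (by norm_num)]; ring
  have hpos : ∀ m : ℤ, (0 : ℝ) < 2 ^ m := fun m => by positivity
  have hyU : y ∈ U := by
    refine ⟨hy, ?_, ?_⟩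
    · have h1 := hl.2.1
      have h2 := hp (l - 1)
      rw [sub_add_cancel] at h2
      have h3 := hpos (l - 1)
      linarith
    · have h1 := hl.2.2
      have h2 := hp (l + 1)
      have h3 := hpos (l + 1)
      have e : l + 2 = l + 1 + 1 := by ring
      rw [e]
      linarith
  have hbound : ∀ i, ∀ w ∈ U, ‖(if t = α i then f i w else 0)‖ ≤
      (SER_B α f (l - 1) i).toReal + (SER_B α f l i).toReal + (SER_B α f (l + 1) i).toReal := by
    intro i w hw
    have n1 : 0 ≤ (SER_B α f (l - 1) i).toReal := ENNReal.toReal_nonneg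
    have n2 : 0 ≤ (SER_B α f l i).toReal := ENNReal.toReal_nonneg
    have n3 : 0 ≤ (SER_B α f (l + 1) i).toReal := ENNReal.toReal_nonneg
    by_cases h : t = α i
    · rw [if_pos h]
      rcases le_total ‖w‖ ((2 : ℝ) ^ l) with h1 | h1
      · have hw' : w ∈ W (l - 1) := ⟨hw.1, hw.2.1.le, by rw [sub_add_cancel]; exact h1⟩
        have := SER_norm_le α f (l - 1) i hw' (ENNReal.ne_top_of_tsum_ne_top (hfin _) i)
        linarith
      · rcases le_total ‖w‖ ((2 : ℝ) ^ (l + 1)) with h2 | h2
        · have hw' : w ∈ W l := ⟨hw.1, h1, h2⟩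
          have := SER_norm_le α f l i hw' (ENNReal.ne_top_of_tsum_ne_top (hfin _) i)
          linarith
        · have hw' : w ∈ W (l + 1) := by
            refine ⟨hw.1, h2, ?_⟩
            have e : l + 1 + 1 = l + 2 := by ring
            rw [e]
            exact hw.2.2.le
          have := SER_norm_le α f (l + 1) i hw' (ENNReal.ne_top_of_tsum_ne_top (hfin _) i)
          linarith
    · rw [if_neg h, norm_zero]
      linarith
  have hsum : Summable fun i => (SER_B α f (l - 1) i).toReal + (SER_B α f l i).toReal +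
      (SER_B α f (l + 1) i).toReal :=
    ((ENNReal.summable_toReal (hfin _)).add (ENNReal.summable_toReal (hfin _))).add
      (ENNReal.summable_toReal (hfin _))
  have hterm : ∀ i, DifferentiableOn ℂ (fun w => (if t = α i then f i w else 0)) U := by
    intro i
    by_cases h : t = α i
    · simp only [if_pos h]
      exact (hf i).mono Set.inter_subset_left
    · simp only [if_neg h]
      exact differentiableOn_const _
  have hd := Complex.differentiableOn_tsum_of_summable_norm hsum hterm hUo hbound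
  have hd2 : DifferentiableOn ℂ (ser α f t) U := by
    refine hd.congr fun w hw => ?_
    unfold ser
    rw [if_pos hw.1]
  exact ((hd2 y hyU).differentiableAt (hUo.mem_nhds hyU)).differentiableWithinAt

theorem SER_ev {I : Type} (α : I → ℝ) (f : I → ℂ → ℂ) (x : ℝ) {y : ℂ} (hy : y ∈ S)
    (hs : Summable (fun i => ‖f i y‖)) :
    ev (ser α f) x y = ∑' i, f i y * ex (α i) x := by
  have hex : ∀ t, ‖ex t x‖ = 1 := fun t => by
    unfold ex
    exact Complex.norm_exp_ofReal_mul_I _
  unfold ev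
  have e1 : ∀ t, ser α f t y * ex t x = ∑' i, (if t = α i then f i y * ex t x else 0) := by
    intro t
    unfold ser
    rw [if_pos hy, ← tsum_mul_right]
    refine tsum_congr fun i => ?_
    by_cases h : t = α i
    · rw [if_pos h, if_pos h]
    · rw [if_neg h, if_neg h, zero_mul]
  have hsum : Summable (Function.uncurry fun (i : I) (t : ℝ) =>
      (if t = α i then f i y * ex t x else 0)) := by
    have hinj : Function.Injective (fun i : I => (i, α i)) := fun i j h => (Prod.ext_iff.1 h).1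
    refine (hinj.summable_iff ?_).1 ?_
    · rintro ⟨i, t⟩ hit
      have : t ≠ α i := fun h => hit ⟨i, by rw [h]⟩
      simp only [Function.uncurry]
      rw [if_neg this]
    · have : (Function.uncurry fun (i : I) (t : ℝ) => (if t = α i then f i y * ex t x else 0)) ∘
          (fun i : I => (i, α i)) = fun i => f i y * ex (α i) x := by
        funext i
        simp [Function.comp, Function.uncurry]
      rw [this]
      refine Summable.of_norm_bounded hs fun i => ?_
      rw [norm_mul, hex, mul_one]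
  calc ∑' t, ser α f t y * ex t x = ∑' t, ∑' i, (if t = α i then f i y * ex t x else 0) :=
        tsum_congr e1
    _ = ∑' i, ∑' t, (if t = α i then f i y * ex t x else 0) := hsum.tsum_comm
    _ = ∑' i, f i y * ex (α i) x := by
        refine tsum_congr fun i => ?_
        exact tsum_ite_eq (α i) fun t => f i y * ex t x

/-- Target `SER`. -/
theorem p_SER (h_PTW : T_PTW) : T_SER := by
  intro I α f C hf hC
  have hC' : ∀ l, ∑' i, SER_B α f l i ≤ ENNReal.ofReal C := hC
  have hNN : NN (ser α f) ≤ ENNReal.ofReal C := by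
    unfold NN
    exact iSup_le fun l => (SER_N α f l).trans (hC' l)
  refine ⟨⟨SER_hol α f C hf hC' h_PTW, ?_, lt_of_le_of_lt hNN ENNReal.ofReal_lt_top⟩, hNN,
    fun y hy => SER_summable α f C hC' h_PTW hy,
    fun x y hy => SER_ev α f x hy (SER_summable α f C hC' h_PTW hy)⟩
  intro t y hy
  unfold ser
  rw [if_neg hy]

end Pool.Agent.HSP
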