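import Pool.Agent.HSP.Targets2

set_option autoImplicit false

/-!
# HSP: target SMO (smoothness)
-/

open scoped Classical ENNReal

noncomputable section

namespace Pool.Agent.HSP

namespace SMO_

theorem isOpen_Hp : IsOpen Hp := isOpen_lt continuous_const Complex.continuous_im

theorem clm_eq (L : ℂ →L[ℝ] ℂ) : L = (ContinuousLinearMap.smulRightL ℝ ℂ ℂ Complex.reCLM) (L 1) +
    (ContinuousLinearMap.smulRightL ℝ ℂ ℂ Complex.imCLM) (L Complex.I) := by
  refine ContinuousLinearMap.ext fun x => ?_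
  have h : L x = L ((x.re : ℝ) • (1 : ℂ) + (x.im : ℝ) • Complex.I) := by
    congr 1
    rw [Complex.real_smul, Complex.real_smul, mul_one]
    exact (Complex.re_add_im x).symm
  rw [h, map_add, map_smul, map_smul]
  simp

theorem step (h_CLD : T_CLD) (h_FND : T_FND) :
    ∀ (n : ℕ) (a : Fam), Cls a → ContDiffOn ℝ n (fn a) Hp
  | 0, a, ha => by
    have h0 : ((0 : ℕ) : WithTop ℕ∞) = 0 := rfl
    rw [h0, contDiffOn_zero]
    intro z hz
    obtain ⟨L, hL, -, -⟩ := h_FND a ha z hz
    exact hL.continuousAt.continuousWithinAt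
  | n + 1, a, ha => by
    have h0 : ((n + 1 : ℕ) : WithTop ℕ∞) = (n : WithTop ℕ∞) + 1 := rfl
    rw [h0, contDiffOn_succ_iff_fderiv_of_isOpen isOpen_Hp]
    refine ⟨?_, ?_, ?_⟩
    · intro z hz
      obtain ⟨L, hL, -, -⟩ := h_FND a ha z hz
      exact hL.differentiableAt.differentiableWithinAt
    · intro h
      exact absurd h (by simp)
    · obtain ⟨h1, h2⟩ := h_CLD a ha
      have e1 := step h_CLD h_FND n _ h1
      have e2 := step h_CLD h_FND n _ h2
      have e3 := ((ContinuousLinearMap.smulRightL ℝ ℂ ℂ Complex.reCLM).contDiff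
        (n := (n : WithTop ℕ∞))).comp_contDiffOn e1
      have e4 := ((ContinuousLinearMap.smulRightL ℝ ℂ ℂ Complex.imCLM).contDiff
        (n := (n : WithTop ℕ∞))).comp_contDiffOn e2
      refine (e3.add e4).congr fun z hz => ?_
      obtain ⟨L, hL, hL1, hL2⟩ := h_FND a ha z hz
      rw [hL.fderiv, clm_eq L, hL1, hL2]
      rfl

end SMO_

theorem p_SMO (h_CLD : T_CLD) (h_FND : T_FND) : T_SMO := by
  intro a ha
  unfold Smo
  rw [contDiffOn_infty]
  intro n
  exact SMO_.step h_CLD h_FND n a ha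

end Pool.Agent.HSP
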