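import Pool.Agent.HSP.Targets3

set_option autoImplicit false

open scoped Classical ENNReal

noncomputable section

namespace Pool.Agent.HSP.SOL_

variable {C : ℝ} {R E : Type} [NormedCommRing R] [StarRing R] [NormedAddCommGroup E] [Module R E]

lemma ip_add_right (s : Sys C R E) (u v w : E) : s.ip u (v + w) = s.ip u v + s.ip u w := by
  rw [← s.star_ip (v + w) u, s.ip_add, star_add, s.star_ip, s.star_ip]

lemma gram_mono (s : Sys C R E) {a b : ℝ} (hab : a ≤ b) (h : s.Gram a) : s.Gram b :=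
  ⟨h.g11.trans hab, h.g21.trans hab, h.g22.trans hab, h.g31.trans hab, h.g32.trans hab⟩

end Pool.Agent.HSP.SOL_

namespace Pool.Agent.HSP

theorem p_SOL (h_FIX : T_FIX) : T_SOL := by
  intro C hC
  have hC0 : 0 < C := by linarith
  have hC3 : 0 < C ^ 3 := by positivity
  obtain ⟨e0, he0, hfix⟩ := h_FIX C hC (1 / (64 * C ^ 3)) (by positivity)
  refine ⟨min e0 (1 / 8), by positivity, ?_⟩
  intro R E _ _ _ _ _ _ s hg
  obtain ⟨k, ψ, hk, hkn, hψn, hψ, hps⟩ := hfix R E s (SOL_.gram_mono s (min_le_left _ _) hg)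
  have hη : (64 * C ^ 3) * (1 / (64 * C ^ 3)) = 1 := by
    field_simp
  set η : ℝ := 1 / (64 * C ^ 3) with hηd
  have hη0 : 0 < η := by
    rw [hηd]; positivity
  have hmq : ‖s.mq k‖ ≤ C * η := (s.norm_mq k).trans (mul_le_mul_of_nonneg_left hkn hC0.le)
  have hbq : ‖s.bq k‖ ≤ C * η := (s.norm_bq k).trans (mul_le_mul_of_nonneg_left hkn hC0.le)
  have hu1 : ‖s.u1 ψ‖ ≤ C * η := (s.norm_u1 ψ).trans (mul_le_mul_of_nonneg_left hψn hC0.le)
  have hF2 := s.norm_F2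
  have hF1 := s.norm_F1
  -- powers of C
  have hC1 : 1 ≤ C ^ 2 := by nlinarith
  have hCC2 : C ≤ C ^ 2 := by nlinarith
  have hCC3 : C ^ 2 ≤ C ^ 3 := by nlinarith
  have hCη : C * η ≤ 1 / 64 := by
    have : C * η ≤ C ^ 3 * η := mul_le_mul_of_nonneg_right (by linarith) hη0.le
    linarith
  have hC2η : C ^ 2 * η ≤ 1 / 64 := by
    have : C ^ 2 * η ≤ C ^ 3 * η := mul_le_mul_of_nonneg_right (by linarith) hη0.le
    linarith
  have hC3η : C ^ 3 * η = 1 / 64 := by linarith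
  have hz2 : ‖s.z2 k ψ‖ ≤ 2 * (C ^ 2 * η) := by
    unfold Sys.z2
    have h1 : ‖s.mq k • s.F2‖ ≤ (C * η) * C :=
      (s.norm_smul _ _).trans (mul_le_mul hmq hF2 (norm_nonneg _) (by positivity))
    have h2 := norm_add_le ψ (s.mq k • s.F2)
    have h3 : η ≤ C ^ 2 * η := by nlinarith
    have h4 : (C * η) * C = C ^ 2 * η := by ring
    linarith
  have hv1 : ‖s.v1 k ψ‖ ≤ 1 / 32 := by
    unfold Sys.v1
    have h1 := s.norm_t1 (s.z2 k ψ)
    have h2 : C * ‖s.z2 k ψ‖ ≤ C * (2 * (C ^ 2 * η)) := mul_le_mul_of_nonneg_left hz2 hC0.le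
    have h3 : C * (2 * (C ^ 2 * η)) = 2 * (C ^ 3 * η) := by ring
    linarith
  refine ⟨k, ψ, hk, by linarith, ?_, hps, ?_, ?_⟩
  · have h1 : s.z2 k ψ = s.nx k ψ + s.mq k • s.F2 := by
      show ψ + s.mq k • s.F2 = s.nx k ψ + s.mq k • s.F2
      rw [← hψ]
    rw [h1]
    unfold Sys.nx
    rw [smul_sub]
    abel
  · obtain ⟨e, he⟩ : ∃ e : E, e = s.bq k • s.F2 + s.u1 ψ := ⟨_, rfl⟩
    have hp1 : s.p1 k ψ = s.F1 + e := by
      unfold Sys.p1
      rw [he, add_assoc]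
    have hen : ‖e‖ ≤ 2 * (C ^ 2 * η) := by
      have h1 : ‖s.bq k • s.F2‖ ≤ (C * η) * C :=
        (s.norm_smul _ _).trans (mul_le_mul hbq hF2 (norm_nonneg _) (by positivity))
      have h2 := norm_add_le (s.bq k • s.F2) (s.u1 ψ)
      have h3 : C * η ≤ C ^ 2 * η := mul_le_mul_of_nonneg_right hCC2 hη0.le
      have h4 : (C * η) * C = C ^ 2 * η := by ring
      rw [← he] at h2
      linarith
    rw [hp1, s.ip_add, SOL_.ip_add_right s s.F1 s.F1 e, SOL_.ip_add_right s e s.F1 e]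
    have hrew : s.ip s.F1 s.F1 + s.ip s.F1 e + (s.ip e s.F1 + s.ip e e) - 1 =
        (s.ip s.F1 s.F1 - 1) + s.ip s.F1 e + s.ip e s.F1 + s.ip e e := by ring
    rw [hrew]
    have g1 : ‖s.ip s.F1 s.F1 - 1‖ ≤ 1 / 8 := hg.g11.trans (min_le_right _ _)
    have g2 : ‖s.ip s.F1 e‖ ≤ C * (2 * (C ^ 2 * η)) :=
      (s.norm_ip _ _).trans (mul_le_mul hF1 hen (norm_nonneg _) hC0.le)
    have g3 : ‖s.ip e s.F1‖ ≤ (2 * (C ^ 2 * η)) * C :=
      (s.norm_ip _ _).trans (mul_le_mul hen hF1 (norm_nonneg _) (by positivity))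
    have g4 : ‖s.ip e e‖ ≤ (2 * (C ^ 2 * η)) * (2 * (C ^ 2 * η)) :=
      (s.norm_ip _ _).trans (mul_le_mul hen hen (norm_nonneg _) (by positivity))
    have g5 : (2 * (C ^ 2 * η)) * (2 * (C ^ 2 * η)) ≤ (1 / 32) * (1 / 32) :=
      mul_le_mul (by linarith) (by linarith) (by positivity) (by norm_num)
    have g6 : C * (2 * (C ^ 2 * η)) = 1 / 32 := by
      have : C * (2 * (C ^ 2 * η)) = 2 * (C ^ 3 * η) := by ring
      rw [this, hC3η]; norm_num
    have g7 : (2 * (C ^ 2 * η)) * C = 1 / 32 := by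
      have : (2 * (C ^ 2 * η)) * C = 2 * (C ^ 3 * η) := by ring
      rw [this, hC3η]; norm_num
    have n1 := norm_add_le ((s.ip s.F1 s.F1 - 1) + s.ip s.F1 e + s.ip e s.F1) (s.ip e e)
    have n2 := norm_add_le ((s.ip s.F1 s.F1 - 1) + s.ip s.F1 e) (s.ip e s.F1)
    have n3 := norm_add_le (s.ip s.F1 s.F1 - 1) (s.ip s.F1 e)
    linarith
  · have h1 := s.norm_ip (s.v1 k ψ) (s.v1 k ψ)
    have h2 : ‖s.v1 k ψ‖ * ‖s.v1 k ψ‖ ≤ (1 / 32) * (1 / 32) :=
      mul_le_mul hv1 hv1 (norm_nonneg _) (by norm_num)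
    linarith

end Pool.Agent.HSP
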