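import Pool.Agent.HSP.Base
import Pool.Agent.HSP.P_CLD
import Pool.Agent.HSP.P_FND
import Pool.Agent.HSP.P_SMO
import Pool.Agent.HSP.P_ODB
import Pool.Agent.HSP.P_ODV
import Pool.Agent.HSP.P_FBA
import Pool.Agent.HSP.P_REA
import Pool.Agent.HSP.Nxt0
import Pool.Agent.HSP.Low0
import Pool.Agent.HSP.P_LIP
import Pool.Agent.HSP.P_BRI
import Pool.Agent.HSP.P_PSI
import Pool.Agent.HSP.P_DER
import Pool.Agent.HSP.P_DTV
import Pool.Agent.HSP.P_SER
import Pool.Agent.HSP.P_WIN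
import Pool.Agent.HSP.P_DTF
import Pool.Agent.HSP.P_DIA
import Pool.Agent.HSP.P_OFF
import Pool.Agent.HSP.P_GRM
import Pool.Agent.HSP.P_FIX
import Pool.Agent.HSP.P_SOL
import Pool.Agent.HSP.P_POI
import Pool.Agent.HSP.P_SAD
import Pool.Agent.HSP.P_HYC
import Pool.Agent.HSP.P_GEO

set_option autoImplicit false

/-!
# HSP: all proved targets, collected
-/

noncomputable section

namespace Pool.Agent.HSP

theorem q_CLA : T_CLA := p_CLA q_PTW
theorem q_CLD : T_CLD := p_CLD q_PTW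
theorem q_FND : T_FND := p_FND q_CLD
theorem q_SMO : T_SMO := p_SMO q_CLD q_FND
theorem q_ODV : T_ODV := p_ODV q_PTW
theorem q_ODB : T_ODB := p_ODB q_OPS q_PTW
theorem q_DTV : T_DTV := p_DTV q_OPS q_CLA q_CLD q_FND q_ODV q_PTW
theorem q_DTB : T_DTB := p_DTB q_OPS q_CLA q_CLD q_FND q_ODB q_PTW
theorem q_SER : T_SER := p_SER q_PTW
theorem q_WIN : T_WIN := p_WIN
theorem q_FQI : T_FQI := p_FQI
theorem q_FBA : T_FBA := p_FBA q_SER q_WIN q_FQI
theorem q_DTF : T_DTF := p_DTF q_FBA q_CLA q_CLD q_FND q_PTW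
theorem q_DIA : T_DIA := p_DIA q_WIN q_FQI q_PTW
theorem q_OFF : T_OFF := p_OFF q_SER q_WIN q_FQI
theorem q_GRM : T_GRM := p_GRM q_DIA q_OFF q_FBA q_SER q_LIN
theorem q_REA : T_REA := p_REA
theorem q_NXT : T_NXT := my_NXT
theorem q_LIP : T_LIP := p_LIP
theorem q_FIX : T_FIX := p_FIX q_REA q_NXT q_LIP
theorem q_SOL : T_SOL := p_SOL q_FIX
theorem q_BRI : T_BRI := p_BRI
theorem q_PSI : T_PSI := p_PSI
theorem q_DER : T_DER := p_DER
theorem q_LOW : T_LOW := my_LOW q_PSI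
theorem q_GEO : T_GEO := p_GEO p_POI q_BRI q_PSI p_SAD p_HYC q_DER q_LOW

end Pool.Agent.HSP
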