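import Pool.Agent.HSP.SysI
import Pool.Agent.HSP.Base2

set_option autoImplicit false

/-!
# HSP: assembly
-/

open scoped Classical ENNReal

noncomputable section

namespace Pool.Agent.HSP

open SysI

/-! ## The system of the base curve -/

/-- The bound of the base vectors. -/
def FbC (C : ℝ) : Prop := ∀ J M p : ℕ, 1 ≤ J → 1 ≤ M → 1 ≤ p → p ≤ 3 → (∀ r, Adm (Fb J M p r)) ∧ NV (Fb J M p) ≤ ENNReal.ofReal C

theorem exF : ∃ C : ℝ, 1 ≤ C ∧ FbC C := q_FBA.1

/-- The constant of the base vectors. -/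
def C2 : ℝ := Classical.choose exF
theorem C2_ge : 1 ≤ C2 := (Classical.choose_spec exF).1
theorem C2_spec : FbC C2 := (Classical.choose_spec exF).2

/-- The constant of the system. -/
def C0 : ℝ := max (3 * C1) C2
theorem C0_ge : 1 ≤ C0 := C2_ge.trans (le_max_right _ _)

/-- The base vectors. -/
def FF (J M : ℕ) (hJ : 1 ≤ J) (hM : 1 ≤ M) (p : ℕ) (h1 : 1 ≤ p) (h3 : p ≤ 3) : Ve (Fin J × Fin M) := fun r => ⟨Fb J M p r, (C2_spec J M p hJ hM h1 h3).1 r⟩

theorem norm_FF (J M : ℕ) (hJ : 1 ≤ J) (hM : 1 ≤ M) (p : ℕ) (h1 : 1 ≤ p) (h3 : p ≤ 3) : ‖FF J M hJ hM p h1 h3‖ ≤ C0 := by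
  refine le_trans ?_ (le_max_right _ _)
  rw [Ve.norm_le_iff _ (zero_le_one.trans C2_ge)]
  exact (C2_spec J M p hJ hM h1 h3).2

theorem op_le {a b : ℝ} (ha : a ≤ 3 * C1 * b) (hb : 0 ≤ b) : a ≤ C0 * b := ha.trans (mul_le_mul_of_nonneg_right (le_max_left _ _) hb)

theorem C1_nn : 0 ≤ C1 := zero_le_one.trans C1_ge

theorem cst_two : Al.cst 2 = 2 := map_ofNat cstH 2

theorem cst_three : Al.cst 3 = 3 := map_ofNat cstH 3

theorem hfA_two : 2 * hfA = 1 := by
  rw [hfA, ← cst_two, ← cst_mul, show (2 : ℂ) * (1 / 2) = 1 by norm_num, cst_one]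

theorem iiA_sq : iiA * iiA = -1 := by
  rw [iiA, cstH_val, ← map_mul, Complex.I_mul_I, map_neg, map_one]

theorem star_iiA : star iiA = -iiA := by
  rw [iiA, star_cst, Complex.conj_I, cst_neg]

theorem norm_hfA : ‖hfA‖ ≤ 1 := (Al.norm_cst _).trans (by norm_num)

theorem norm_iiA : ‖iiA‖ ≤ 1 := (Al.norm_cst _).trans (by simp)

theorem kp_real (k : Al) (hk : star k = k) : oK k + star (oK k) = k := by
  refine Al.ext fun t y => ?_
  have h : st k.1 = k.1 := by
    have := congrArg Al.val hk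
    exact this
  exact q_KSA k.1 h t y

/-- The system. -/
def sy (J M : ℕ) (hJ : 1 ≤ J) (hM : 1 ≤ M) : Sys C0 Al (Ve (Fin J × Fin M)) where
  ip := ipA
  hf := hfA
  ii := iiA
  kp := oK
  mq := oM
  bq := oB
  t1 := opv oT1
  t2 := opv oT2
  u1 := opc oT1
  u2 := opc oT2
  F1 := FF J M hJ hM 1 le_rfl (by norm_num)
  F2 := FF J M hJ hM 2 (by norm_num) (by norm_num)
  F3 := FF J M hJ hM 3 (by norm_num) le_rfl
  two_hf := hfA_two
  ii_ii := iiA_sq
  star_ii := star_iiA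
  norm_one := Al.norm_one'
  norm_hf := norm_hfA
  norm_ii := norm_iiA
  norm_star := Al.norm_star'
  norm_smul := norm_smulA
  ip_add := ipA_add
  ip_smul := ipA_smul
  star_ip := star_ipA
  norm_ip := norm_ipA
  norm_kp := fun a => op_le (norm_op C1_nn bK a) (norm_nonneg _)
  norm_mq := fun a => op_le (norm_op C1_nn bM a) (norm_nonneg _)
  norm_bq := fun a => op_le (norm_op C1_nn bB a) (norm_nonneg _)
  norm_t1 := fun u => op_le (norm_opv C1_nn bT1 u) (norm_nonneg _)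
  norm_t2 := fun u => op_le (norm_opv C1_nn bT2 u) (norm_nonneg _)
  norm_u1 := fun u => op_le (norm_opc C1_nn bT1 u) (norm_nonneg _)
  norm_u2 := fun u => op_le (norm_opc C1_nn bT2 u) (norm_nonneg _)
  kp_real := kp_real
  norm_F1 := norm_FF J M hJ hM 1 _ _
  norm_F2 := norm_FF J M hJ hM 2 _ _
  norm_F3 := norm_FF J M hJ hM 3 _ _

theorem e_sum {ι : Type} (s : Finset ι) (a : ι → Al) (x : ℝ) {y : ℂ} (hy : y ∈ S) : Al.e (∑ r ∈ s, a r) x y = ∑ r ∈ s, Al.e (a r) x y := by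
  induction s using Finset.induction_on with
  | empty => simp [Al.e_zero]
  | insert r s hr ih => rw [Finset.sum_insert hr, Finset.sum_insert hr, Al.e_add _ _ x hy, ih]

theorem e_ipA {ι : Type} [Fintype ι] (u v : Ve ι) (x : ℝ) {y : ℂ} (hy : y ∈ S) : Al.e (ipA u v) x y = ∑ r, Al.e (u r) x y * (starRingEnd ℂ) (Al.e (v r) x ((starRingEnd ℂ) y)) := by
  unfold ipA
  rw [e_sum _ _ x hy]
  exact Finset.sum_congr rfl fun r _ => by rw [Al.e_mul _ _ x hy, Al.e_star]

theorem exGram (ε : ℝ) (hε : 0 < ε) : ∃ (J M : ℕ) (hJ : 1 ≤ J) (hM : 1 ≤ M), (sy J M hJ hM).Gram ε := by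
  obtain ⟨J, M, hJ, hM, h⟩ := q_GRM ε hε
  refine ⟨J, M, hJ, hM, ?_⟩
  have key : ∀ (p q : ℕ) (p1 : 1 ≤ p) (p3 : p ≤ 3) (q1 : 1 ≤ q) (q3 : q ≤ 3), ‖ipA (FF J M hJ hM p p1 p3) (FF J M hJ hM q q1 q3) - Al.cst (gm p q)‖ ≤ ε := by
    intro p q p1 p3 q1 q3
    obtain ⟨R, hR, hR1, hR2⟩ := h p q p1 p3 q1 q3
    have he : ipA (FF J M hJ hM p p1 p3) (FF J M hJ hM q q1 q3) - Al.cst (gm p q) = ⟨R, hR⟩ := by
      refine Al.ext_e fun x y hy => ?_
      rw [Al.e_sub _ _ x hy, e_ipA _ _ x hy, Al.e_cst _ x hy]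
      have := hR2 x y hy
      change ∑ r, ev (Fb J M p r) x y * (starRingEnd ℂ) (ev (Fb J M q r) x ((starRingEnd ℂ) y)) - gm p q = ev R x y
      rw [this]; ring
    rw [he, Al.norm_le_iff _ hε.le]
    exact hR1
  have g11 : Al.cst (gm 1 1) = 1 := by
    rw [show gm 1 1 = 1 by unfold gm; norm_num [Nat.factorial], cst_one]
  have g21 : Al.cst (gm 2 1) = iiA := by
    rw [show gm 2 1 = Complex.I by unfold gm; norm_num [Nat.factorial], iiA]
  have g22 : Al.cst (gm 2 2) = 3 * hfA := by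
    rw [show gm 2 2 = 3 * (1 / 2) by unfold gm; norm_num [Nat.factorial], cst_mul, hfA, cst_three]
  have g31 : Al.cst (gm 3 1) = -(3 * hfA) := by
    rw [show gm 3 1 = -(3 * (1 / 2)) by
      unfold gm
      rw [show Complex.I ^ 3 = -Complex.I by rw [pow_succ, Complex.I_sq]; ring]
      norm_num [Nat.factorial], cst_neg, cst_mul, hfA, cst_three]
  have g32 : Al.cst (gm 3 2) = 3 * iiA := by
    rw [show gm 3 2 = 3 * Complex.I by
      unfold gm
      rw [show Complex.I ^ 3 = -Complex.I by rw [pow_succ, Complex.I_sq]; ring]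
      norm_num [Nat.factorial]
      ring_nf, cst_mul, iiA, cst_three]
  constructor
  · have := key 1 1 le_rfl (by norm_num) le_rfl (by norm_num)
    rw [g11] at this; exact this
  · have := key 2 1 (by norm_num) (by norm_num) le_rfl (by norm_num)
    rw [g21] at this; exact this
  · have := key 2 2 (by norm_num) (by norm_num) (by norm_num) (by norm_num)
    rw [g22] at this; exact this
  · have := key 3 1 (by norm_num) le_rfl le_rfl (by norm_num)
    rw [g31, sub_neg_eq_add] at this; exact this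
  · have := key 3 2 (by norm_num) le_rfl (by norm_num) (by norm_num)
    rw [g32] at this; exact this

end Pool.Agent.HSP
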