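import Pool.Agent.HSP.Asm

set_option autoImplicit false

/-!
# HSP: assembly 2, the data on the half plane
-/

open scoped Classical ENNReal

noncomputable section

namespace Pool.Agent.HSP

open SysI

/-! ## Evaluation -/

theorem memS {z : ℂ} (hz : z ∈ Hp) : ((z.im : ℝ) : ℂ) ∈ S := by
  have h : 0 < z.im := hz
  change |((z.im : ℝ) : ℂ).im| < ((z.im : ℝ) : ℂ).re / 4
  simp only [Complex.ofReal_im, abs_zero, Complex.ofReal_re]
  positivity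

/-- The evaluation at a point of the half plane. -/
def vz (z : ℂ) (hz : z ∈ Hp) : Al →+* ℂ where
  toFun a := Al.e a z.re (z.im : ℂ)
  map_one' := Al.e_one _ (memS hz)
  map_mul' a b := Al.e_mul a b _ (memS hz)
  map_zero' := Al.e_zero _ _
  map_add' a b := Al.e_add a b _ (memS hz)

theorem vz_val (z : ℂ) (hz : z ∈ Hp) (a : Al) : vz z hz a = fn a.1 z := rfl

theorem vz_star (z : ℂ) (hz : z ∈ Hp) (a : Al) : vz z hz (star a) = star (vz z hz a) := by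
  change Al.e (star a) z.re (z.im : ℂ) = _
  rw [Al.e_star, Complex.conj_ofReal]; rfl

theorem norm_vz (z : ℂ) (hz : z ∈ Hp) (a : Al) : ‖vz z hz a‖ ≤ ‖a‖ := Al.norm_e_le a _ (memS hz)

theorem vz_ipA {ι : Type} [Fintype ι] (z : ℂ) (hz : z ∈ Hp) (u v : Ve ι) : vz z hz (ipA u v) = hp (fun r => vz z hz (u r)) (fun r => vz z hz (v r)) := by
  unfold ipA hp
  rw [map_sum]
  exact Finset.sum_congr rfl fun r _ => by rw [map_mul, vz_star]

theorem vz_hf (z : ℂ) (hz : z ∈ Hp) : vz z hz hfA = 1 / 2 := Al.e_cst _ _ (memS hz)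

theorem Psi_map {R E ι : Type} [CommRing R] [StarRing R] [Fintype ι] (φ : R →+* ℂ) (hφ : ∀ a, φ (star a) = star (φ a)) (ip : E → E → R) (g : E → ι → ℂ) (hip : ∀ u v, φ (ip u v) = hp (g u) (g v)) (h : R) (P1 P2 V1 W2 Z2 : E) :
    φ (Psi h ip P1 P2 V1 W2 Z2) = Psi (φ h) hp (g P1) (g P2) (g V1) (g W2) (g Z2) := by
  unfold Psi
  simp only [map_sub, map_add, map_mul, map_pow, hφ, hip, map_ofNat]

theorem hp_smul {ι : Type} [Fintype ι] (s t : ℝ) (u v : ι → ℂ) : hp (fun r => (s : ℂ) * u r) (fun r => (t : ℂ) * v r) = (s : ℂ) * t * hp u v := by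
  unfold hp
  rw [Finset.mul_sum]
  refine Finset.sum_congr rfl fun r _ => ?_
  rw [star_mul, Complex.star_def, Complex.conj_ofReal]
  ring

theorem Psi_scale {ι : Type} [Fintype ι] (s : ℝ) (P A V B Z : ι → ℂ) :
    Psi (1 / 2 : ℂ) hp (fun r => (s : ℂ) * P r) (fun r => ((s ^ 2 : ℝ) : ℂ) * A r) (fun r => (s : ℂ) * V r) (fun r => ((s ^ 2 : ℝ) : ℂ) * B r) (fun r => ((s ^ 2 : ℝ) : ℂ) * Z r) =
      (s : ℂ) ^ 8 * Psi (1 / 2 : ℂ) hp P A V B Z := by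
  unfold Psi
  simp only [hp_smul]
  simp only [star_add, star_mul, Complex.star_def, map_pow, Complex.conj_ofReal, Complex.ofReal_pow, map_div₀, map_one, map_ofNat]
  ring

/-! ## Derivatives -/

theorem HasW.congr {g g' : ℂ → ℂ} {u v z : ℂ} (h : HasW g u v z) (hz : z ∈ Hp) (e : ∀ w ∈ Hp, g' w = g w) : HasW g' u v z := by
  refine HasFDerivAt.congr_of_eventuallyEq h ?_
  have ho : IsOpen Hp := isOpen_lt continuous_const Complex.continuous_im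
  exact Filter.eventuallyEq_of_mem (ho.mem_nhds hz) e

theorem HasW.add {g g' : ℂ → ℂ} {u v u' v' z : ℂ} (h : HasW g u v z) (h' : HasW g' u' v' z) : HasW (fun w => g w + g' w) (u + u') (v + v') z := by
  have := HasFDerivAt.add h h'
  refine this.congr_fderiv ?_
  ext <;> simp <;> ring

theorem HasW.mul {g g' : ℂ → ℂ} {u v u' v' z : ℂ} (h : HasW g u v z) (h' : HasW g' u' v' z) : HasW (fun w => g w * g' w) (u * g' z + g z * u') (v * g' z + g z * v') z := by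
  have := HasFDerivAt.mul h h'
  refine this.congr_fderiv ?_
  ext <;> simp <;> ring

theorem HasW.conj {g : ℂ → ℂ} {u v z : ℂ} (h : HasW g u v z) : HasW (fun w => (starRingEnd ℂ) (g w)) ((starRingEnd ℂ) v) ((starRingEnd ℂ) u) z := by
  have := (Complex.conjCLE.toContinuousLinearMap.hasFDerivAt (x := g z)).comp z h
  refine this.congr_fderiv ?_
  ext <;> simp <;> ring

/-! ## The data -/

section data

variable {J M : ℕ} (hJ : 1 ≤ J) (hM : 1 ≤ M) (k : Al) (ψ : Ve (Fin J × Fin M))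

/-- `Φ_w` -/
def dP (r : Fin J × Fin M) (z : ℂ) : ℂ := (z.im : ℂ)⁻¹ * fn ((sy J M hJ hM).p1 k ψ r).1 z
/-- `Φ_w̄` -/
def dV (r : Fin J × Fin M) (z : ℂ) : ℂ := (z.im : ℂ)⁻¹ * fn ((sy J M hJ hM).v1 k ψ r).1 z
/-- `Φ_ww` -/
def dA (r : Fin J × Fin M) (z : ℂ) : ℂ := (z.im : ℂ)⁻¹ ^ 2 * fn ((sy J M hJ hM).p2 k ψ r).1 z
/-- `Φ_w̄w̄` -/
def dB (r : Fin J × Fin M) (z : ℂ) : ℂ := (z.im : ℂ)⁻¹ ^ 2 * fn ((sy J M hJ hM).w2 k ψ r).1 z
/-- `Φ_ww̄` -/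
def dZ (r : Fin J × Fin M) (z : ℂ) : ℂ := (z.im : ℂ)⁻¹ ^ 2 * fn ((sy J M hJ hM).z2 k ψ r).1 z
/-- `μ` -/
def dM (z : ℂ) : ℂ := fn ((sy J M hJ hM).mq k).1 z

theorem Smo.inv_mul (a : Al) : Smo fun z => (z.im : ℂ)⁻¹ * fn a.1 z := by
  have h1 : Smo (fn a.1) := q_SMO a.1 (q_CLA a.1 a.2)
  refine ContDiffOn.mul ?_ h1
  refine ContDiffOn.inv ?_ fun z hz => ?_
  · exact (Complex.ofRealCLM.contDiff.comp Complex.imCLM.contDiff).contDiffOn
  · have : 0 < z.im := hz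
    exact_mod_cast this.ne'

theorem dV_has (r : Fin J × Fin M) (z : ℂ) (hz : z ∈ Hp) : HasW (dV hJ hM k ψ r) (dZ hJ hM k ψ r z) (dB hJ hM k ψ r z) z :=
  q_DTV ((sy J M hJ hM).z2 k ψ r).1 ((sy J M hJ hM).z2 k ψ r).2 z hz

theorem dP_has (r : Fin J × Fin M) (z : ℂ) (hz : z ∈ Hp) : HasW (dP hJ hM k ψ r) (dA hJ hM k ψ r z) (dZ hJ hM k ψ r z) z := by
  have hzp : ∀ w ∈ Hp, (w.im : ℂ) ≠ 0 := fun w hw => by
    have : 0 < w.im := hw
    exact_mod_cast this.ne'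
  have h1 := q_DTF J M 1 hJ hM le_rfl (by norm_num) r z hz
  have h2 := q_DTF J M 2 hJ hM (by norm_num) le_rfl r z hz
  have h3 := q_DTB k.1 k.2 z hz
  have h4 := (q_DTV (star (ψ r)).1 (star (ψ r)).2 z hz).conj
  have h5 := (h1.add (h3.mul h2)).add h4
  refine HasW.congr (u := dA hJ hM k ψ r z) (v := dZ hJ hM k ψ r z) ?_ hz (fun w hw => ?_) (g := fun w => ((w.im : ℂ)⁻¹ ^ 1 * fn (Fb J M 1 r) w + (w.im : ℂ) * fn (Bq k.1) w * ((w.im : ℂ)⁻¹ ^ 2 * fn (Fb J M 2 r) w)) +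
      (starRingEnd ℂ) ((w.im : ℂ)⁻¹ * fn (T1 (star (ψ r)).1) w))
  · convert h5 using 1
    · change (z.im : ℂ)⁻¹ ^ 2 * fn ((sy J M hJ hM).p2 k ψ r).1 z = _
      have e1 : fn ((sy J M hJ hM).p2 k ψ r).1 z = fn (Fb J M 2 r) z + fn (kap k.1) z * fn (Fb J M 2 r) z + fn (Bq k.1) z * fn (Fb J M 3 r) z + (starRingEnd ℂ) (fn (T2 (star (ψ r)).1) z) := by
        rw [← vz_val z hz]
        have : (sy J M hJ hM).p2 k ψ r = (sy J M hJ hM).F2 r + oK k * (sy J M hJ hM).F2 r + oB k * (sy J M hJ hM).F3 r + star (oT2 (star (ψ r))) := rfl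
        rw [this, map_add, map_add, map_add, map_mul, map_mul, vz_star]
        rfl
      rw [e1]
      simp only [map_mul, map_pow, map_inv₀, Complex.conj_ofReal]
      have hy : (z.im : ℂ) * (z.im : ℂ)⁻¹ = 1 := mul_inv_cancel₀ (hzp z hz)
      linear_combination -((z.im : ℂ)⁻¹ ^ 2 * fn (Bq k.1) z * fn (Fb J M 3 r) z) * hy
    · change (z.im : ℂ)⁻¹ ^ 2 * fn ((sy J M hJ hM).z2 k ψ r).1 z = _
      have e1 : fn ((sy J M hJ hM).z2 k ψ r).1 z = fn (ψ r).1 z + fn (Mq k.1) z * fn (Fb J M 2 r) z := by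
        rw [← vz_val z hz]
        have : (sy J M hJ hM).z2 k ψ r = ψ r + oM k * (sy J M hJ hM).F2 r := rfl
        rw [this, map_add, map_mul]
        rfl
      have e2 : fn (star (ψ r)).1 z = (starRingEnd ℂ) (fn (ψ r).1 z) := by
        rw [← vz_val z hz, vz_star]; rfl
      rw [e1, e2]
      simp only [map_mul, map_pow, map_inv₀, Complex.conj_ofReal, Complex.conj_conj]
      ring
  · change (w.im : ℂ)⁻¹ * fn ((sy J M hJ hM).p1 k ψ r).1 w = _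
    have e1 : fn ((sy J M hJ hM).p1 k ψ r).1 w = fn (Fb J M 1 r) w + fn (Bq k.1) w * fn (Fb J M 2 r) w + (starRingEnd ℂ) (fn (T1 (star (ψ r)).1) w) := by
      rw [← vz_val w hw]
      have : (sy J M hJ hM).p1 k ψ r = (sy J M hJ hM).F1 r + oB k * (sy J M hJ hM).F2 r + star (oT1 (star (ψ r))) := rfl
      rw [this, map_add, map_add, map_mul, vz_star]
      rfl
    rw [e1]
    simp only [map_mul, map_inv₀, Complex.conj_ofReal]
    have hy : (w.im : ℂ) * (w.im : ℂ)⁻¹ = 1 := mul_inv_cancel₀ (hzp w hw)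
    linear_combination -((w.im : ℂ)⁻¹ * fn (Bq k.1) w * fn (Fb J M 2 r) w) * hy

theorem hp_self {ι : Type} [Fintype ι] (u : ι → ℂ) : hp u u = ((∑ r, ‖u r‖ ^ 2 : ℝ) : ℂ) := by
  unfold hp
  push_cast
  refine Finset.sum_congr rfl fun r _ => ?_
  rw [Complex.star_def, Complex.mul_conj, Complex.normSq_eq_norm_sq]
  push_cast; rfl

theorem sum_scale {ι : Type} [Fintype ι] {y : ℝ} (hy : 0 < y) (u : ι → ℂ) : y ^ 2 * ∑ r, ‖(y : ℂ)⁻¹ * u r‖ ^ 2 = ∑ r, ‖u r‖ ^ 2 := by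
  rw [Finset.mul_sum]
  refine Finset.sum_congr rfl fun r _ => ?_
  rw [norm_mul, norm_inv, Complex.norm_real, Real.norm_of_nonneg hy.le, mul_pow, inv_pow, ← mul_assoc, mul_inv_cancel₀ (by positivity), one_mul]

theorem dat (h1 : ‖(sy J M hJ hM).mq k‖ ≤ 1 / 4) (h2 : (sy J M hJ hM).z2 k ψ = (sy J M hJ hM).mq k • (sy J M hJ hM).p2 k ψ + star ((sy J M hJ hM).mq k) • (sy J M hJ hM).w2 k ψ)
    (h3 : (sy J M hJ hM).ps k ψ = 0) (h4 : ‖(sy J M hJ hM).ip ((sy J M hJ hM).p1 k ψ) ((sy J M hJ hM).p1 k ψ) - 1‖ ≤ 1 / 4) (h5 : ‖(sy J M hJ hM).ip ((sy J M hJ hM).v1 k ψ) ((sy J M hJ hM).v1 k ψ)‖ ≤ 1 / 64) :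
    Dat (dP hJ hM k ψ) (dV hJ hM k ψ) (dA hJ hM k ψ) (dB hJ hM k ψ) (dZ hJ hM k ψ) (dM hJ hM k) where
  smP r := Smo.inv_mul _
  smV r := Smo.inv_mul _
  dP := dP_has hJ hM k ψ
  dV := dV_has hJ hM k ψ
  mu z hz := (norm_vz z hz _).trans h1
  rel r z hz := by
    have e := congrArg (fun u : Ve (Fin J × Fin M) => vz z hz (u r)) h2
    rw [Ve.add_val, Ve.smul_val, Ve.smul_val, map_add, map_mul, map_mul, vz_star] at e
    change (z.im : ℂ)⁻¹ ^ 2 * vz z hz ((sy J M hJ hM).z2 k ψ r) = vz z hz ((sy J M hJ hM).mq k) * ((z.im : ℂ)⁻¹ ^ 2 * vz z hz ((sy J M hJ hM).p2 k ψ r)) +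
      star (vz z hz ((sy J M hJ hM).mq k)) * ((z.im : ℂ)⁻¹ ^ 2 * vz z hz ((sy J M hJ hM).w2 k ψ r))
    rw [e]; ring
  crv z hz := by
    have e := Psi_map (vz z hz) (vz_star z hz) ipA (fun u : Ve (Fin J × Fin M) => fun r => vz z hz (u r)) (vz_ipA z hz) hfA ((sy J M hJ hM).p1 k ψ) ((sy J M hJ hM).p2 k ψ) ((sy J M hJ hM).v1 k ψ) ((sy J M hJ hM).w2 k ψ) ((sy J M hJ hM).z2 k ψ)
    have e0 : Psi hfA ipA ((sy J M hJ hM).p1 k ψ) ((sy J M hJ hM).p2 k ψ) ((sy J M hJ hM).v1 k ψ) ((sy J M hJ hM).w2 k ψ) ((sy J M hJ hM).z2 k ψ) = 0 := h3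
    rw [e0, map_zero, vz_hf] at e
    have e1 := Psi_scale (z.im)⁻¹ (fun r => vz z hz ((sy J M hJ hM).p1 k ψ r)) (fun r => vz z hz ((sy J M hJ hM).p2 k ψ r)) (fun r => vz z hz ((sy J M hJ hM).v1 k ψ r)) (fun r => vz z hz ((sy J M hJ hM).w2 k ψ r)) (fun r => vz z hz ((sy J M hJ hM).z2 k ψ r))
    rw [← e, mul_zero] at e1
    rw [← e1]
    simp only [dP, dV, dA, dB, dZ, Complex.ofReal_inv, Complex.ofReal_pow, vz_val]
  big z hz := by
    have hz' : 0 < z.im := hz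
    have e : z.im ^ 2 * ∑ r, ‖dP hJ hM k ψ r z‖ ^ 2 = ∑ r, ‖vz z hz ((sy J M hJ hM).p1 k ψ r)‖ ^ 2 := sum_scale hz' _
    rw [e]
    have h := (norm_vz z hz _).trans h4
    have h' : vz z hz ((sy J M hJ hM).ip ((sy J M hJ hM).p1 k ψ) ((sy J M hJ hM).p1 k ψ)) = ((∑ r, ‖vz z hz ((sy J M hJ hM).p1 k ψ r)‖ ^ 2 : ℝ) : ℂ) := by
      rw [← hp_self]; exact vz_ipA z hz _ _
    rw [map_sub, map_one, h', ← Complex.ofReal_one, ← Complex.ofReal_sub, Complex.norm_real, Real.norm_eq_abs, abs_le] at h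
    linarith [h.1]
  sml z hz := by
    have hz' : 0 < z.im := hz
    have e : z.im ^ 2 * ∑ r, ‖dV hJ hM k ψ r z‖ ^ 2 = ∑ r, ‖vz z hz ((sy J M hJ hM).v1 k ψ r)‖ ^ 2 := sum_scale hz' _
    rw [e]
    have h := (norm_vz z hz _).trans h5
    have h' : vz z hz ((sy J M hJ hM).ip ((sy J M hJ hM).v1 k ψ) ((sy J M hJ hM).v1 k ψ)) = ((∑ r, ‖vz z hz ((sy J M hJ hM).v1 k ψ r)‖ ^ 2 : ℝ) : ℂ) := by
      rw [← hp_self]; exact vz_ipA z hz _ _
    rw [h', Complex.norm_real, Real.norm_eq_abs, abs_le] at h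
    exact h.2

end data

theorem goal : Goal := by
  obtain ⟨ε, hε, h⟩ := q_SOL C0 C0_ge
  obtain ⟨J, M, hJ, hM, hG⟩ := exGram ε hε
  obtain ⟨k, ψ, -, h1, h2, h3, h4, h5⟩ := h Al (Ve (Fin J × Fin M)) (sy J M hJ hM) hG
  exact q_GEO (Fin J × Fin M) _ _ _ _ _ _ (dat hJ hM k ψ h1 h2 h3 h4 h5)

end Pool.Agent.HSP
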