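import Pool.Agent.HSP.Targets1

set_option autoImplicit false

/-!
# HSP: proof of T_CPL, completeness of the space of admissible families
-/

open scoped Classical ENNReal Topology

noncomputable section

namespace Pool.Agent.HSP

namespace CPL_

open Filter MeasureTheory

/-- Fatou for sums. -/
lemma tsum_liminf (f : ℕ → ℝ → ℝ≥0∞) :
    ∑' t, liminf (fun m => f m t) atTop ≤ liminf (fun m => ∑' t, f m t) atTop := by
  let _ : MeasurableSpace ℝ := ⊤
  have hs : MeasurableSingletonClass ℝ := ⟨fun _ => trivial⟩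
  have h := lintegral_liminf_le (μ := Measure.count) (f := f) (u := atTop)
    (fun n => measurable_from_top)
  rw [lintegral_count] at h
  simp only [lintegral_count] at h
  exact h

/-- The weight dominates one. -/
lemma pt_le (l : ℤ) (b : Fam) (t : ℝ) (y : ℂ) (hy : y ∈ W l) :
    ENNReal.ofReal (‖b t y‖ * Real.exp (|t| * ‖y‖ / 2)) ≤ A l b t := by
  unfold A
  exact le_iSup₂ (f := fun (y : ℂ) (_ : y ∈ W l) =>
    ENNReal.ofReal (‖b t y‖ * Real.exp (|t| * ‖y‖ / 2))) y hy

lemma A_le (l : ℤ) (b : Fam) (t : ℝ) : A l b t ≤ N l b := by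
  unfold N
  exact ENNReal.le_tsum t

lemma N_le (l : ℤ) (b : Fam) : N l b ≤ NN b := by
  unfold NN
  exact le_iSup (fun l => N l b) l

lemma nrm_le (hW : ∀ y ∈ S, ∃ l, y ∈ W l) (b : Fam) (t : ℝ) (y : ℂ) (hy : y ∈ S) (ε : ℝ)
    (hε : 0 ≤ ε) (h : NN b ≤ ENNReal.ofReal ε) : ‖b t y‖ ≤ ε := by
  obtain ⟨l, hl⟩ := hW y hy
  have h1 := (pt_le l b t y hl).trans ((A_le l b t).trans ((N_le l b).trans h))
  rw [ENNReal.ofReal_le_ofReal_iff hε] at h1
  refine le_trans ?_ h1
  have h2 : (1 : ℝ) ≤ Real.exp (|t| * ‖y‖ / 2) := by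
    apply Real.one_le_exp
    positivity
  calc ‖b t y‖ = ‖b t y‖ * 1 := by ring
    _ ≤ ‖b t y‖ * Real.exp (|t| * ‖y‖ / 2) := mul_le_mul_of_nonneg_left h2 (norm_nonneg _)

lemma A_liminf (l : ℤ) (u : ℕ → Fam) (a b : Fam)
    (hlim : ∀ t y, Tendsto (fun n => u n t y) atTop (𝓝 (a t y))) (t : ℝ) :
    A l (fun t y => b t y - a t y) t ≤
      liminf (fun m => A l (fun t y => b t y - u m t y) t) atTop := by
  conv_lhs => unfold A
  refine iSup₂_le ?_
  intro y hy
  have h1 : Tendsto (fun m => ENNReal.ofReal (‖b t y - u m t y‖ * Real.exp (|t| * ‖y‖ / 2)))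
      atTop (𝓝 (ENNReal.ofReal (‖b t y - a t y‖ * Real.exp (|t| * ‖y‖ / 2)))) := by
    refine ENNReal.tendsto_ofReal ?_
    exact ((tendsto_const_nhds.sub (hlim t y)).norm).mul_const _
  rw [← h1.liminf_eq]
  refine liminf_le_liminf ?_
  exact Eventually.of_forall fun m => pt_le l (fun t y => b t y - u m t y) t y hy

lemma NN_limit (u : ℕ → Fam) (a b : Fam)
    (hlim : ∀ t y, Tendsto (fun n => u n t y) atTop (𝓝 (a t y))) (e : ℝ≥0∞)
    (h : ∀ᶠ m in atTop, NN (fun t y => b t y - u m t y) ≤ e) :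
    NN (fun t y => b t y - a t y) ≤ e := by
  conv_lhs => unfold NN
  refine iSup_le ?_
  intro l
  have h1 : N l (fun t y => b t y - a t y) ≤
      liminf (fun m => N l (fun t y => b t y - u m t y)) atTop := by
    conv_lhs => unfold N
    refine (ENNReal.tsum_le_tsum fun t => A_liminf l u a b hlim t).trans ?_
    exact tsum_liminf (fun m t => A l (fun t y => b t y - u m t y) t)
  refine h1.trans ?_
  refine liminf_le_of_frequently_le' ?_
  exact (h.mono fun m hm => (N_le l _).trans hm).frequently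

end CPL_

open CPL_ Filter

theorem p_CPL (h_NRM : T_NRM) (h_PTW : T_PTW) : T_CPL := by
  intro u hu hC
  obtain ⟨hW, -, -, hS, -, -, -⟩ := h_PTW
  -- uniform closeness
  have hclose : ∀ ε : ℝ, 0 < ε → ∃ n₀, ∀ m ≥ n₀, ∀ n ≥ n₀, ∀ t y,
      ‖u m t y - u n t y‖ ≤ ε := by
    intro ε hε
    obtain ⟨n₀, h⟩ := hC ε hε
    refine ⟨n₀, fun m hm n hn t y => ?_⟩
    by_cases hy : y ∈ S
    · exact nrm_le hW (fun t y => u m t y - u n t y) t y hy ε hε.le (h m hm n hn)
    · rw [(hu m).off t y hy, (hu n).off t y hy]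
      simpa using hε.le
  -- pointwise limit
  have hex : ∀ t y, ∃ z : ℂ, Tendsto (fun n => u n t y) atTop (𝓝 z) := by
    intro t y
    apply cauchySeq_tendsto_of_complete
    rw [Metric.cauchySeq_iff]
    intro ε hε
    obtain ⟨n₀, h⟩ := hclose (ε / 2) (by linarith)
    refine ⟨n₀, fun m hm n hn => ?_⟩
    rw [dist_eq_norm]
    exact lt_of_le_of_lt (h m hm n hn t y) (by linarith)
  choose a ha using hex
  have hunif : ∀ ε : ℝ, 0 < ε → ∃ n₀, ∀ n ≥ n₀, ∀ t y, ‖u n t y - a t y‖ ≤ ε := by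
    intro ε hε
    obtain ⟨n₀, h⟩ := hclose ε hε
    refine ⟨n₀, fun n hn t y => ?_⟩
    have h1 : Tendsto (fun m => ‖u n t y - u m t y‖) atTop (𝓝 ‖u n t y - a t y‖) :=
      (tendsto_const_nhds.sub (ha t y)).norm
    refine le_of_tendsto h1 ?_
    filter_upwards [eventually_ge_atTop n₀] with m hm
    exact h n hn m hm t y
  have hNN : ∀ ε : ℝ, 0 < ε → ∃ n₀, ∀ n ≥ n₀,
      NN (fun t y => u n t y - a t y) ≤ ENNReal.ofReal ε := by
    intro ε hε
    obtain ⟨n₀, h⟩ := hC ε hε
    refine ⟨n₀, fun n hn => ?_⟩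
    refine NN_limit u a (u n) ha _ ?_
    filter_upwards [eventually_ge_atTop n₀] with m hm
    exact h n hn m hm
  refine ⟨a, ⟨?_, ?_, ?_⟩, hNN⟩
  · intro t
    have hT : TendstoUniformlyOn (fun n => u n t) (a t) atTop S := by
      rw [Metric.tendstoUniformlyOn_iff]
      intro ε hε
      obtain ⟨n₀, h⟩ := hunif (ε / 2) (by linarith)
      filter_upwards [eventually_ge_atTop n₀] with n hn
      intro y _
      rw [dist_comm, dist_eq_norm]
      exact lt_of_le_of_lt (h n hn t y) (by linarith)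
    exact hT.tendstoLocallyUniformlyOn.differentiableOn
      (Eventually.of_forall fun n => (hu n).hol t) hS
  · intro t y hy
    refine tendsto_nhds_unique (ha t y) ?_
    have : (fun n => u n t y) = fun _ => (0 : ℂ) := by
      funext n
      exact (hu n).off t y hy
    rw [this]
    exact tendsto_const_nhds
  · obtain ⟨n₀, h⟩ := hNN 1 one_pos
    have h1 : NN a ≤ NN (u n₀) + NN (fun t y => u n₀ t y - a t y) := by
      conv_lhs => unfold NN
      refine iSup_le ?_
      intro l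
      have e1 : a = fun t y => u n₀ t y + (-1) * (u n₀ t y - a t y) := by
        funext t y
        ring
      have h2 := (h_NRM l (u n₀) (fun t y => (-1) * (u n₀ t y - a t y)) 0 0).2.2.1
      rw [← e1] at h2
      have h3 := (h_NRM l (fun t y => u n₀ t y - a t y) 0 (-1) 0).2.2.2
      rw [h3] at h2
      refine h2.trans ?_
      have h4 : ENNReal.ofReal ‖(-1 : ℂ)‖ = 1 := by simp
      rw [h4, one_mul]
      exact add_le_add (N_le l _) (N_le l _)
    refine lt_of_le_of_lt h1 ?_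
    exact ENNReal.add_lt_top.mpr ⟨(hu n₀).fin,
      lt_of_le_of_lt (h n₀ le_rfl) ENNReal.ofReal_lt_top⟩

end Pool.Agent.HSP
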