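import Pool.Agent.HSP.Targets1

set_option autoImplicit false

/-!
# HSP: proof of CVA (products of families)
-/

open scoped Classical ENNReal

noncomputable section

namespace Pool.Agent.HSP

namespace CVA_

theorem norm_ex (t x : ℝ) : ‖ex t x‖ = 1 := by
  unfold ex
  exact Complex.norm_exp_ofReal_mul_I _

theorem ex_mul (s u x : ℝ) : ex s x * ex u x = ex (s + u) x := by
  unfold ex
  rw [← Complex.exp_add]
  congr 1
  push_cast
  ring

/-- The pointwise bound by the supremum. -/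
theorem le_A {l : ℤ} (a : Fam) (t : ℝ) {y : ℂ} (hy : y ∈ W l) :
    ENNReal.ofReal (‖a t y‖ * Real.exp (|t| * ‖y‖ / 2)) ≤ A l a t := by
  unfold A
  exact le_iSup₂ (f := fun (y : ℂ) (_ : y ∈ W l) => ENNReal.ofReal (‖a t y‖ * Real.exp (|t| * ‖y‖ / 2))) y hy

theorem enorm_le_A {l : ℤ} (a : Fam) (t : ℝ) {y : ℂ} (hy : y ∈ W l) :
    ‖a t y‖ₑ ≤ A l a t := by
  refine le_trans ?_ (le_A a t hy)
  rw [← ofReal_norm_eq_enorm]
  apply ENNReal.ofReal_le_ofReal
  have h1 : (1 : ℝ) ≤ Real.exp (|t| * ‖y‖ / 2) := Real.one_le_exp (by positivity)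
  nlinarith [norm_nonneg (a t y)]

theorem enorm_tsum_le (f : ℝ → ℂ) : ‖∑' s, f s‖ₑ ≤ ∑' s, ‖f s‖ₑ := by
  by_cases h : (∑' s, ‖f s‖ₑ) = ⊤
  · rw [h]; exact le_top
  · have hs : Summable (fun s => ‖f s‖) := by
      have h2 := ENNReal.summable_toReal h
      refine h2.congr (fun s => ?_)
      simp
    have h3 := norm_tsum_le_tsum_norm hs
    rw [← ofReal_norm_eq_enorm]
    calc ENNReal.ofReal ‖∑' s, f s‖ ≤ ENNReal.ofReal (∑' s, ‖f s‖) := ENNReal.ofReal_le_ofReal h3
      _ = ∑' s, ENNReal.ofReal ‖f s‖ := ENNReal.ofReal_tsum_of_nonneg (fun s => norm_nonneg _) hs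
      _ = ∑' s, ‖f s‖ₑ := by simp only [ofReal_norm_eq_enorm]

theorem A_cv (l : ℤ) (a b : Fam) (t : ℝ) :
    A l (cv a b) t ≤ ∑' s, A l a s * A l b (t - s) := by
  unfold A
  refine iSup₂_le (fun y hy => ?_)
  have e1 : ENNReal.ofReal (‖cv a b t y‖ * Real.exp (|t| * ‖y‖ / 2))
      = ‖∑' s, a s y * b (t - s) y‖ₑ * ENNReal.ofReal (Real.exp (|t| * ‖y‖ / 2)) := by
    rw [ENNReal.ofReal_mul (norm_nonneg _), ofReal_norm_eq_enorm]
    rfl
  rw [e1]
  calc ‖∑' s, a s y * b (t - s) y‖ₑ * ENNReal.ofReal (Real.exp (|t| * ‖y‖ / 2))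
      ≤ (∑' s, ‖a s y * b (t - s) y‖ₑ) * ENNReal.ofReal (Real.exp (|t| * ‖y‖ / 2)) :=
        mul_le_mul_left (enorm_tsum_le _) _
    _ = ∑' s, ‖a s y * b (t - s) y‖ₑ * ENNReal.ofReal (Real.exp (|t| * ‖y‖ / 2)) := by
        rw [ENNReal.tsum_mul_right]
    _ ≤ ∑' s, A l a s * A l b (t - s) := by
        refine ENNReal.tsum_le_tsum (fun s => ?_)
        have h1 := le_A (l := l) a s hy
        have h2 := le_A (l := l) b (t - s) hy
        refine le_trans ?_ (mul_le_mul' h1 h2)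
        rw [← ofReal_norm_eq_enorm, ← ENNReal.ofReal_mul (norm_nonneg _), ← ENNReal.ofReal_mul (by positivity)]
        apply ENNReal.ofReal_le_ofReal
        rw [norm_mul]
        have h3 : |t| ≤ |s| + |t - s| := by
          have := abs_add_le s (t - s)
          simpa using this
        have h4 : Real.exp (|t| * ‖y‖ / 2) ≤ Real.exp (|s| * ‖y‖ / 2) * Real.exp (|t - s| * ‖y‖ / 2) := by
          rw [← Real.exp_add]
          apply Real.exp_le_exp.mpr
          nlinarith [norm_nonneg y]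
        calc ‖a s y‖ * ‖b (t - s) y‖ * Real.exp (|t| * ‖y‖ / 2)
            ≤ ‖a s y‖ * ‖b (t - s) y‖ * (Real.exp (|s| * ‖y‖ / 2) * Real.exp (|t - s| * ‖y‖ / 2)) :=
              mul_le_mul_of_nonneg_left h4 (by positivity)
          _ = ‖a s y‖ * Real.exp (|s| * ‖y‖ / 2) * (‖b (t - s) y‖ * Real.exp (|t - s| * ‖y‖ / 2)) := by ring
    _ = _ := rfl

theorem N_cv (l : ℤ) (a b : Fam) : N l (cv a b) ≤ N l a * N l b := by
  unfold N
  calc ∑' t, A l (cv a b) t ≤ ∑' t, ∑' s, A l a s * A l b (t - s) :=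
        ENNReal.tsum_le_tsum (fun t => A_cv l a b t)
    _ = ∑' s, ∑' t, A l a s * A l b (t - s) := ENNReal.tsum_comm
    _ = ∑' s, A l a s * ∑' t, A l b t := by
        congr 1
        ext s
        rw [ENNReal.tsum_mul_left]
        congr 1
        exact (Equiv.subRight s).tsum_eq (fun u => A l b u)
    _ = (∑' s, A l a s) * ∑' t, A l b t := by rw [ENNReal.tsum_mul_right]

theorem N_le_NN (l : ℤ) (a : Fam) : N l a ≤ NN a := by
  unfold NN
  exact le_iSup (fun l => N l a) l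

theorem A_le_N (l : ℤ) (a : Fam) (t : ℝ) : A l a t ≤ N l a := by
  unfold N
  exact ENNReal.le_tsum t

/-- The product is holomorphic. -/
theorem hol_cv (hP : T_PTW) (a b : Fam) (ha : Adm a) (hb : Adm b) (t : ℝ) :
    DifferentiableOn ℂ (cv a b t) S := by
  obtain ⟨p1, p2, p3, p4, p5, p6, p7⟩ := hP
  intro y₀ hy₀
  obtain ⟨l, hl⟩ := p1 y₀ hy₀
  obtain ⟨hl0, hl1, hl2⟩ := hl
  set U : Set ℂ := S ∩ {y | (2 : ℝ) ^ (l - 1) < ‖y‖ ∧ ‖y‖ < (2 : ℝ) ^ (l + 2)} with hU
  have hUo : IsOpen U := by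
    apply p4.inter
    apply IsOpen.inter
    · exact isOpen_lt continuous_const continuous_norm
    · exact isOpen_lt continuous_norm continuous_const
  have h2 : (2 : ℝ) ^ (l - 1) < (2 : ℝ) ^ l := zpow_lt_zpow_right₀ (by norm_num) (by omega)
  have h3 : (2 : ℝ) ^ (l + 1) < (2 : ℝ) ^ (l + 2) := zpow_lt_zpow_right₀ (by norm_num) (by omega)
  have hyU : y₀ ∈ U := ⟨hy₀, lt_of_lt_of_le h2 hl1, lt_of_le_of_lt hl2 h3⟩
  have hcov : ∀ y ∈ U, y ∈ W (l - 1) ∨ y ∈ W l ∨ y ∈ W (l + 1) := by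
    intro y hy
    obtain ⟨hyS, hy1, hy2⟩ := hy
    rcases le_total ‖y‖ ((2 : ℝ) ^ l) with h | h
    · left
      refine ⟨hyS, le_of_lt hy1, ?_⟩
      rw [show l - 1 + 1 = l by ring]
      exact h
    · right
      rcases le_total ‖y‖ ((2 : ℝ) ^ (l + 1)) with h' | h'
      · left
        exact ⟨hyS, h, h'⟩
      · right
        refine ⟨hyS, h', ?_⟩
        rw [show l + 1 + 1 = l + 2 by ring]
        exact le_of_lt hy2
  set α : ℝ → ℝ≥0∞ := fun s => A (l - 1) a s + A l a s + A (l + 1) a s with hα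
  have hαs : (∑' s, α s) ≠ ⊤ := by
    have e : (∑' s, α s) = N (l - 1) a + N l a + N (l + 1) a := by
      simp only [hα]
      rw [ENNReal.tsum_add, ENNReal.tsum_add]
      rfl
    rw [e]
    have q : ∀ m : ℤ, N m a ≠ ⊤ := fun m => ne_top_of_le_ne_top ha.fin.ne (N_le_NN m a)
    exact ENNReal.add_ne_top.mpr ⟨ENNReal.add_ne_top.mpr ⟨q _, q _⟩, q _⟩
  have hsum : Summable (fun s => (α s).toReal * (NN b).toReal) :=
    (ENNReal.summable_toReal hαs).mul_right _
  have hαt : ∀ s, α s ≠ ⊤ := fun s => ENNReal.ne_top_of_tsum_ne_top hαs s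
  have hd : DifferentiableOn ℂ (fun y => ∑' s, a s y * b (t - s) y) U := by
    apply Complex.differentiableOn_tsum_of_summable_norm hsum
    · intro s
      exact ((ha.hol s).mul (hb.hol (t - s))).mono Set.inter_subset_left
    · exact hUo
    · intro s y hy
      rw [norm_mul]
      have hyS : y ∈ S := hy.1
      have hb1 : ‖b (t - s) y‖ ≤ (NN b).toReal := by
        have h := (p7 b hb).2 y hyS (t - s)
        have h1 : (1 : ℝ) ≤ Real.exp (|t - s| * ‖y‖ / 2) := Real.one_le_exp (by positivity)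
        nlinarith [norm_nonneg (b (t - s) y)]
      have ha1 : ‖a s y‖ ≤ (α s).toReal := by
        have h1 : ‖a s y‖ₑ ≤ α s := by
          simp only [hα]
          rcases hcov y hy with h | h | h
          · exact le_trans (enorm_le_A a s h) (le_trans le_self_add le_self_add)
          · exact le_trans (enorm_le_A a s h) (le_trans le_add_self le_self_add)
          · exact le_trans (enorm_le_A a s h) le_add_self
        have h2 := ENNReal.toReal_mono (hαt s) h1
        simpa using h2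
      exact mul_le_mul ha1 hb1 (norm_nonneg _) ENNReal.toReal_nonneg
  have : DifferentiableAt ℂ (cv a b t) y₀ :=
    (hd.differentiableAt (hUo.mem_nhds hyU))
  exact this.differentiableWithinAt

theorem ev_cv (hP : T_PTW) (a b : Fam) (ha : Adm a) (hb : Adm b) (x : ℝ) (y : ℂ) (hy : y ∈ S) :
    ev (cv a b) x y = ev a x y * ev b x y := by
  obtain ⟨p1, p2, p3, p4, p5, p6, p7⟩ := hP
  have sa := ((p7 a ha).1 y hy).2.1
  have sb := ((p7 b hb).1 y hy).2.1
  set f : ℝ → ℂ := fun s => a s y * ex s x with hf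
  set g : ℝ → ℂ := fun u => b u y * ex u x with hg
  have hfs : Summable (fun s => ‖f s‖) := by
    refine sa.congr (fun s => ?_)
    simp [hf, norm_ex]
  have hgs : Summable (fun s => ‖g s‖) := by
    refine sb.congr (fun s => ?_)
    simp [hg, norm_ex]
  have hprod : Summable (fun z : ℝ × ℝ => f z.1 * g z.2) := summable_mul_of_summable_norm hfs hgs
  let e : ℝ × ℝ ≃ ℝ × ℝ :=
    { toFun := fun p => (p.2, p.1 - p.2)
      invFun := fun q => (q.1 + q.2, q.1)
      left_inv := by intro p; ext <;> simp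
      right_inv := by intro q; ext <;> simp }
  have hprod2 : Summable (fun p : ℝ × ℝ => f p.2 * g (p.1 - p.2)) := by
    have := (e.summable_iff (f := fun z : ℝ × ℝ => f z.1 * g z.2)).mpr hprod
    exact this
  have h1 : ev (cv a b) x y = ∑' t, ∑' s, f s * g (t - s) := by
    unfold ev cv
    apply tsum_congr
    intro t
    rw [← tsum_mul_right]
    apply tsum_congr
    intro s
    simp only [hf, hg]
    have := ex_mul s (t - s) x
    rw [show s + (t - s) = t by ring] at this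
    rw [← this]
    ring
  have h2 : ∑' t, ∑' s, f s * g (t - s) = ∑' p : ℝ × ℝ, f p.2 * g (p.1 - p.2) :=
    (hprod2.tsum_prod).symm
  have h3 : ∑' p : ℝ × ℝ, f p.2 * g (p.1 - p.2) = ∑' z : ℝ × ℝ, f z.1 * g z.2 :=
    e.tsum_eq (fun z : ℝ × ℝ => f z.1 * g z.2)
  have h4 : (∑' s, f s) * ∑' u, g u = ∑' z : ℝ × ℝ, f z.1 * g z.2 :=
    tsum_mul_tsum_of_summable_norm hfs hgs
  rw [h1, h2, h3, ← h4]
  rfl

end CVA_

open CVA_ in
/-- CVA. -/
theorem p_CVA (h_PTW : T_PTW) : T_CVA := by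
  intro a b ha hb
  refine ⟨⟨?_, ?_, ?_⟩, fun l => N_cv l a b, fun x y hy => ev_cv h_PTW a b ha hb x y hy⟩
  · intro t
    exact hol_cv h_PTW a b ha hb t
  · intro t y hy
    unfold cv
    have : ∀ s, a s y * b (t - s) y = 0 := fun s => by rw [ha.off s y hy, zero_mul]
    simp only [this, tsum_zero]
  · have h : NN (cv a b) ≤ NN a * NN b := by
      unfold NN
      refine iSup_le (fun l => ?_)
      refine le_trans (N_cv l a b) ?_
      exact mul_le_mul' (le_iSup (fun l => N l a) l) (le_iSup (fun l => N l b) l)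
    exact lt_of_le_of_lt h (ENNReal.mul_lt_top ha.fin hb.fin)

end Pool.Agent.HSP
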