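import Pool.Agent.HSP.Targets1

set_option autoImplicit false

/-!
# HSP: KI, KZ, the good kernels `Ki` and `K0` (helper21)
-/

open scoped Classical ENNReal
open MeasureTheory Set

noncomputable section

namespace Pool.Agent.HSP

namespace KI_

theorem lint_le (n : ℤ) (f : ℝ → ℝ) (c : ℝ) (hc : 0 ≤ c)
    (h : ∀ s ∈ Icc ((2 : ℝ) ^ n) ((2 : ℝ) ^ (n + 1)), f s ≤ c) :
    ∫⁻ s in Icc ((2 : ℝ) ^ n) ((2 : ℝ) ^ (n + 1)), ENNReal.ofReal (f s) ≤
      ENNReal.ofReal (c * (2 : ℝ) ^ n) := by
  calc ∫⁻ s in Icc ((2 : ℝ) ^ n) ((2 : ℝ) ^ (n + 1)), ENNReal.ofReal (f s)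
      ≤ ∫⁻ _ in Icc ((2 : ℝ) ^ n) ((2 : ℝ) ^ (n + 1)), ENNReal.ofReal c :=
        setLIntegral_mono' measurableSet_Icc fun s hs => ENNReal.ofReal_le_ofReal (h s hs)
    _ = ENNReal.ofReal (c * (2 : ℝ) ^ n) := by
        rw [setLIntegral_const, Real.volume_Icc, ← ENNReal.ofReal_mul hc]
        congr 2
        rw [zpow_add_one₀ (by norm_num)]
        ring

theorem lint_exp1 (u k a b : ℝ) (hu : 0 ≤ u) (hk : 0 < k) (hab : a ≤ b) :
    ∫⁻ s in Icc a b, ENNReal.ofReal (u * Real.exp (-(k * u * (s - a)))) ≤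
      ENNReal.ofReal (1 / k) := by
  have hcont : Continuous fun s : ℝ => u * Real.exp (-(k * u * (s - a))) := by fun_prop
  rw [← ofReal_integral_eq_lintegral_ofReal hcont.integrableOn_Icc
    (Filter.Eventually.of_forall fun s => mul_nonneg hu (Real.exp_pos _).le)]
  refine ENNReal.ofReal_le_ofReal ?_
  rw [integral_Icc_eq_integral_Ioc, ← intervalIntegral.integral_of_le hab]
  have hF : ∀ s ∈ uIcc a b, HasDerivAt (fun s : ℝ => -(Real.exp (-(k * u * (s - a)))) / k)
      (u * Real.exp (-(k * u * (s - a)))) s := by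
    intro s _
    have h0 := ((hasDerivAt_id s).sub_const a).const_mul (-(k * u))
    have h1 : HasDerivAt (fun s : ℝ => -(k * u * (s - a))) (-(k * u)) s := by
      refine (h0.congr_deriv (by ring)).congr_of_eventuallyEq
        (Filter.Eventually.of_forall fun y => ?_)
      simp only [id]
      ring
    have h2 := (h1.exp.fun_neg).div_const k
    refine h2.congr_deriv ?_
    field_simp
  rw [intervalIntegral.integral_eq_sub_of_hasDerivAt hF (hcont.intervalIntegrable _ _)]
  have h3 := Real.exp_pos (-(k * u * (b - a)))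
  simp only [sub_self, mul_zero, neg_zero, Real.exp_zero]
  rw [← sub_div]
  exact div_le_div_of_nonneg_right (by linarith) hk.le

theorem lint_exp2 (u k a b : ℝ) (hu : 0 ≤ u) (hk : 0 < k) (hab : a ≤ b) :
    ∫⁻ s in Icc a b, ENNReal.ofReal (u * Real.exp (-(k * u * (b - s)))) ≤
      ENNReal.ofReal (1 / k) := by
  have hcont : Continuous fun s : ℝ => u * Real.exp (-(k * u * (b - s))) := by fun_prop
  rw [← ofReal_integral_eq_lintegral_ofReal hcont.integrableOn_Icc
    (Filter.Eventually.of_forall fun s => mul_nonneg hu (Real.exp_pos _).le)]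
  refine ENNReal.ofReal_le_ofReal ?_
  rw [integral_Icc_eq_integral_Ioc, ← intervalIntegral.integral_of_le hab]
  have hF : ∀ s ∈ uIcc a b, HasDerivAt (fun s : ℝ => Real.exp (-(k * u * (b - s))) / k)
      (u * Real.exp (-(k * u * (b - s)))) s := by
    intro s _
    have h0 := ((hasDerivAt_id s).const_sub b).const_mul (-(k * u))
    have h1 : HasDerivAt (fun s : ℝ => -(k * u * (b - s))) (k * u) s := by
      refine (h0.congr_deriv (by ring)).congr_of_eventuallyEq
        (Filter.Eventually.of_forall fun y => ?_)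
      simp only [id]
      ring
    have h2 := (h1.exp).div_const k
    refine h2.congr_deriv ?_
    field_simp
  rw [intervalIntegral.integral_eq_sub_of_hasDerivAt hF (hcont.intervalIntegrable _ _)]
  have h3 := Real.exp_pos (-(k * u * (b - a)))
  simp only [sub_self, mul_zero, neg_zero, Real.exp_zero]
  rw [← sub_div]
  exact div_le_div_of_nonneg_right (by linarith) hk.le

theorem re_ge (h_PTW : T_PTW) (v : ℂ) (hv : v = 0 ∨ v ∈ S) : (9 / 10 : ℝ) * ‖v‖ ≤ v.re := by
  rcases hv with rfl | hv
  · simp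
  · exact (h_PTW.2.1 v hv).2.1

/-- The weighted kernel `Ki`. -/
theorem Ki_le (v : ℂ) (hv : (9 / 10 : ℝ) * ‖v‖ ≤ v.re) (s : ℝ) (hs : 1 < s) :
    ‖Ki v s‖ * Real.exp (‖v‖ * (1 - s) / 2) ≤
      Real.exp (-(14 / 10 * ‖v‖ * (s - 1))) / s ^ 2 := by
  have h1 : ‖Ki v s‖ = Real.exp (-(v.re * (s - 1))) / s ^ 2 := by
    rw [Ki, if_pos hs, norm_div, Complex.norm_exp, norm_pow, Complex.norm_real,
      Real.norm_of_nonneg (by linarith)]
    congr 2
    simp
  rw [h1, div_mul_eq_mul_div, ← Real.exp_add]
  refine div_le_div_of_nonneg_right (Real.exp_le_exp.2 ?_) (sq_nonneg _)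
  have h2 : 0 ≤ (v.re - 9 / 10 * ‖v‖) * (s - 1) := mul_nonneg (by linarith) (by linarith)
  nlinarith

/-- The weighted kernel `K0`. -/
theorem K0_le (v : ℂ) (hv : (9 / 10 : ℝ) * ‖v‖ ≤ v.re) (s : ℝ) (hs : s < 1) :
    ‖K0 v s‖ * Real.exp (‖v‖ * (1 - s) / 2) ≤ Real.exp (-(4 / 10 * ‖v‖ * (1 - s))) := by
  have h1 : ‖K0 v s‖ = Real.exp (-(v.re * (1 - s))) := by
    rw [K0, if_pos hs, Complex.norm_exp]
    congr 1
    simp
  rw [h1, ← Real.exp_add]
  refine Real.exp_le_exp.2 ?_
  have h2 : 0 ≤ (v.re - 9 / 10 * ‖v‖) * (1 - s) := mul_nonneg (by linarith) (by linarith)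
  nlinarith

theorem mul_exp_le (u k : ℝ) (hk : 0 < k) : u * Real.exp (-(k * u)) ≤ 1 / k := by
  have h1 := Real.add_one_le_exp (k * u)
  have h2 := Real.exp_pos (k * u)
  rw [Real.exp_neg, ← div_eq_mul_inv, div_le_div_iff₀ h2 hk]
  linarith

theorem two_zpow_ge_one {n : ℤ} (hn : 0 ≤ n) : (1 : ℝ) ≤ (2 : ℝ) ^ n :=
  one_le_zpow₀ (by norm_num) hn

theorem two_zpow_le_one {n : ℤ} (hn : n ≤ 0) : (2 : ℝ) ^ n ≤ 1 :=
  zpow_le_one_of_nonpos₀ (by norm_num) hn

end KI_

open KI_

/-- `Ki` is a good kernel. -/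
theorem p_KI (h_PTW : T_PTW) : T_KI := by
  refine ⟨1, one_pos, ?_⟩
  refine ⟨?_, ?_, ?_, ?_, ?_⟩
  · intro s hs
    by_cases h1 : 1 < s
    · have : (fun v => Ki v s) = fun v => Complex.exp (-(v * (s - 1))) / s ^ 2 := by
        funext v
        rw [Ki, if_pos h1]
      rw [this]
      fun_prop
    · have : (fun v => Ki v s) = fun _ => 0 := by
        funext v
        rw [Ki, if_neg h1]
      rw [this]
      fun_prop
  · intro v
    refine Measurable.ite (measurableSet_Ioi (a := (1 : ℝ))) ?_ measurable_const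
    fun_prop
  · intro R
    refine ⟨(Ioi (1 : ℝ)).indicator fun s => s ^ (-2 : ℝ), ?_, ?_⟩
    · rw [integrableOn_indicator_iff measurableSet_Ioi]
      exact (integrableOn_Ioi_rpow_of_lt (by norm_num) one_pos).mono_set inter_subset_left
    · intro v hv _ s hs
      by_cases h1 : 1 < s
      · rw [indicator_of_mem (mem_Ioi.2 h1)]
        refine (Ki_le v (re_ge h_PTW v hv) s h1).trans ?_
        rw [Real.rpow_neg hs.le, Real.rpow_two, div_eq_mul_inv]
        refine mul_le_of_le_one_left (inv_nonneg.2 (sq_nonneg s)) (Real.exp_le_one_iff.2 ?_)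
        have : 0 ≤ 14 / 10 * ‖v‖ * (s - 1) :=
          mul_nonneg (mul_nonneg (by norm_num) (norm_nonneg v)) (by linarith)
        linarith
      · rw [indicator_of_notMem (by simpa using h1), Ki, if_neg h1]
        simp
  · intro v hv n
    rcases lt_or_ge n 0 with hn | hn
    · refine (lint_le n _ 0 le_rfl ?_).trans (by simp)
      intro s hs
      have h2 : (2 : ℝ) ^ (n + 1) ≤ 1 := two_zpow_le_one (by omega)
      rw [Ki, if_neg (by linarith [hs.2])]
      simp
    · rcases lt_or_ge n 1 with hn1 | hn1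
      all_goals
        have h0 := two_zpow_ge_one hn
        refine (lint_le n _ (((2 : ℝ) ^ n) ^ 2)⁻¹ (by positivity) ?_).trans ?_
        · intro s hs
          by_cases h1 : 1 < s
          · refine (Ki_le v (re_ge h_PTW v hv) s h1).trans ?_
            have h3 : Real.exp (-(14 / 10 * ‖v‖ * (s - 1))) ≤ 1 := by
              refine Real.exp_le_one_iff.2 ?_
              have : 0 ≤ 14 / 10 * ‖v‖ * (s - 1) :=
                mul_nonneg (mul_nonneg (by norm_num) (norm_nonneg v)) (by linarith)
              linarith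
            rw [div_eq_mul_inv]
            refine (mul_le_of_le_one_left (inv_nonneg.2 (sq_nonneg s)) h3).trans ?_
            refine inv_anti₀ (by positivity) ?_
            exact pow_le_pow_left₀ (by positivity) hs.1 2
          · rw [Ki, if_neg h1]
            simp only [norm_zero, zero_mul]
            positivity
        · refine ENNReal.ofReal_le_ofReal (le_of_eq ?_)
          rw [abs_of_nonneg hn, zpow_neg, one_mul]
          field_simp
  · intro v hv n
    rcases lt_or_ge n 0 with hn | hn
    · refine (lint_le n _ 0 le_rfl ?_).trans (by simp)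
      intro s hs
      have h2 : (2 : ℝ) ^ (n + 1) ≤ 1 := two_zpow_le_one (by omega)
      rw [Ki, if_neg (by linarith [hs.2])]
      simp
    · rcases lt_or_ge n 1 with hn1 | hn1
      · have hn0 : n = 0 := by omega
        subst hn0
        refine le_trans ?_ ((lint_exp1 ‖v‖ (14 / 10) 1 2 (norm_nonneg v) (by norm_num)
          (by norm_num)).trans (ENNReal.ofReal_le_ofReal (by norm_num)))
        have e1 : (2 : ℝ) ^ (0 : ℤ) = 1 := by norm_num
        have e2 : (2 : ℝ) ^ ((0 : ℤ) + 1) = 2 := by norm_num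
        rw [e1, e2]
        refine setLIntegral_mono' measurableSet_Icc fun s hs => ENNReal.ofReal_le_ofReal ?_
        refine mul_le_mul_of_nonneg_left ?_ (norm_nonneg v)
        by_cases h1 : 1 < s
        · refine (Ki_le v (re_ge h_PTW v hv) s h1).trans (div_le_self (Real.exp_pos _).le ?_)
          nlinarith
        · rw [Ki, if_neg h1]
          simp only [norm_zero, zero_mul]
          exact (Real.exp_pos _).le
      · have h0 := two_zpow_ge_one hn
        have h0' : (2 : ℝ) ≤ (2 : ℝ) ^ n := by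
          have := zpow_le_zpow_right₀ (show (1 : ℝ) ≤ 2 by norm_num) hn1
          simpa using this
        refine (lint_le n _ (((2 : ℝ) ^ n) ^ 2)⁻¹ (by positivity) ?_).trans ?_
        · intro s hs
          have h1 : 1 < s := by linarith [hs.1]
          have h4 : ‖v‖ * (‖Ki v s‖ * Real.exp (‖v‖ * (1 - s) / 2)) ≤
              ‖v‖ * (Real.exp (-(14 / 10 * ‖v‖ * (s - 1))) / s ^ 2) :=
            mul_le_mul_of_nonneg_left (Ki_le v (re_ge h_PTW v hv) s h1) (norm_nonneg v)
          refine h4.trans ?_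
          have h3 : ‖v‖ * Real.exp (-(14 / 10 * ‖v‖ * (s - 1))) ≤ 1 := by
            refine le_trans ?_ ((mul_exp_le ‖v‖ (14 / 10) (by norm_num)).trans (by norm_num))
            refine mul_le_mul_of_nonneg_left (Real.exp_le_exp.2 ?_) (norm_nonneg v)
            nlinarith [norm_nonneg v, hs.1]
          rw [← mul_div_assoc, div_eq_mul_inv]
          refine (mul_le_of_le_one_left (inv_nonneg.2 (sq_nonneg s)) h3).trans ?_
          refine inv_anti₀ (by positivity) ?_
          exact pow_le_pow_left₀ (by positivity) hs.1 2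
        · refine ENNReal.ofReal_le_ofReal (le_of_eq ?_)
          rw [abs_of_nonneg hn, zpow_neg, one_mul]
          field_simp

/-- `K0` is a good kernel. -/
theorem p_KZ (h_PTW : T_PTW) : T_KZ := by
  refine ⟨5, by norm_num, ?_⟩
  refine ⟨?_, ?_, ?_, ?_, ?_⟩
  · intro s hs
    by_cases h1 : s < 1
    · have : (fun v => K0 v s) = fun v => Complex.exp (-(v * (1 - s))) := by
        funext v
        rw [K0, if_pos h1]
      rw [this]
      fun_prop
    · have : (fun v => K0 v s) = fun _ => 0 := by
        funext v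
        rw [K0, if_neg h1]
      rw [this]
      fun_prop
  · intro v
    refine Measurable.ite (measurableSet_Iio (a := (1 : ℝ))) ?_ measurable_const
    fun_prop
  · intro R
    refine ⟨(Iio (1 : ℝ)).indicator fun _ => 1, ?_, ?_⟩
    · rw [integrableOn_indicator_iff measurableSet_Iio]
      refine integrableOn_const ?_
      have : Iio (1 : ℝ) ∩ Ioi 0 = Ioo 0 1 := by
        ext x
        simp [and_comm]
      rw [this, Real.volume_Ioo]
      exact ENNReal.ofReal_ne_top
    · intro v hv _ s hs
      by_cases h1 : s < 1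
      · rw [indicator_of_mem (mem_Iio.2 h1)]
        refine (K0_le v (re_ge h_PTW v hv) s h1).trans (Real.exp_le_one_iff.2 ?_)
        have : 0 ≤ 4 / 10 * ‖v‖ * (1 - s) :=
          mul_nonneg (mul_nonneg (by norm_num) (norm_nonneg v)) (by linarith)
        linarith
      · rw [indicator_of_notMem (by simpa using h1), K0, if_neg h1]
        simp
  · intro v hv n
    rcases lt_or_ge n 0 with hn | hn
    · refine (lint_le n _ 1 zero_le_one ?_).trans ?_
      · intro s hs
        by_cases h1 : s < 1
        · refine (K0_le v (re_ge h_PTW v hv) s h1).trans (Real.exp_le_one_iff.2 ?_)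
          have : 0 ≤ 4 / 10 * ‖v‖ * (1 - s) :=
            mul_nonneg (mul_nonneg (by norm_num) (norm_nonneg v)) (by linarith)
          linarith
        · rw [K0, if_neg h1]
          simp
      · refine ENNReal.ofReal_le_ofReal ?_
        rw [abs_of_neg hn, neg_neg]
        have : (0 : ℝ) < (2 : ℝ) ^ n := by positivity
        linarith
    · refine (lint_le n _ 0 le_rfl ?_).trans (by simp)
      intro s hs
      have h0 := two_zpow_ge_one hn
      rw [K0, if_neg (by linarith [hs.1])]
      simp
  · intro v hv n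
    rcases lt_or_ge n 0 with hn | hn
    · rcases lt_or_ge n (-1) with hn1 | hn1
      · refine (lint_le n _ 5 (by norm_num) ?_).trans ?_
        · intro s hs
          have h2 : (2 : ℝ) ^ (n + 1) ≤ 1 / 2 := by
            have := zpow_le_zpow_right₀ (show (1 : ℝ) ≤ 2 by norm_num)
              (show n + 1 ≤ -1 by omega)
            refine this.trans ?_
            norm_num
          have h1 : s < 1 := by linarith [hs.2]
          have h4 : ‖v‖ * (‖K0 v s‖ * Real.exp (‖v‖ * (1 - s) / 2)) ≤
              ‖v‖ * Real.exp (-(4 / 10 * ‖v‖ * (1 - s))) :=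
            mul_le_mul_of_nonneg_left (K0_le v (re_ge h_PTW v hv) s h1) (norm_nonneg v)
          refine h4.trans (le_trans ?_ ((mul_exp_le ‖v‖ (2 / 10) (by norm_num)).trans
            (by norm_num)))
          refine mul_le_mul_of_nonneg_left (Real.exp_le_exp.2 ?_) (norm_nonneg v)
          nlinarith [norm_nonneg v, hs.2]
        · refine ENNReal.ofReal_le_ofReal ?_
          rw [abs_of_neg hn, neg_neg]
      · have hn0 : n = -1 := by omega
        subst hn0
        refine le_trans ?_ ((lint_exp2 ‖v‖ (4 / 10) (1 / 2) 1 (norm_nonneg v) (by norm_num)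
          (by norm_num)).trans (ENNReal.ofReal_le_ofReal (by norm_num)))
        have e1 : (2 : ℝ) ^ (-1 : ℤ) = 1 / 2 := by norm_num
        have e2 : (2 : ℝ) ^ ((-1 : ℤ) + 1) = 1 := by norm_num
        rw [e1, e2]
        refine setLIntegral_mono' measurableSet_Icc fun s hs => ENNReal.ofReal_le_ofReal ?_
        refine mul_le_mul_of_nonneg_left ?_ (norm_nonneg v)
        by_cases h1 : s < 1
        · exact K0_le v (re_ge h_PTW v hv) s h1
        · rw [K0, if_neg h1]
          simp only [norm_zero, zero_mul]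
          exact (Real.exp_pos _).le
    · refine (lint_le n _ 0 le_rfl ?_).trans (by simp)
      intro s hs
      have h0 := two_zpow_ge_one hn
      rw [K0, if_neg (by linarith [hs.1])]
      simp

end Pool.Agent.HSP
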