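import Pool.Agent.HSP.Targets1

set_option autoImplicit false

/-!
# HSP: the kernel `Kp` is good (target T_KP)
-/

open scoped Classical ENNReal

noncomputable section

namespace Pool.Agent.HSP

namespace KP_

theorem re_ge (v : ℂ) (hv : v = 0 ∨ v ∈ S) : (9 / 10 : ℝ) * ‖v‖ ≤ v.re := by
  rcases hv with rfl | hv
  · simp
  · have h1 : |v.im| < v.re / 4 := hv
    have h2 : 0 ≤ |v.im| := abs_nonneg _
    have hsq : ‖v‖ ^ 2 = v.re ^ 2 + v.im ^ 2 := by
      rw [← Complex.normSq_eq_norm_sq, Complex.normSq_apply]; ring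
    have h3 : v.im ^ 2 ≤ v.re ^ 2 / 16 := by
      have : |v.im| ^ 2 ≤ (v.re / 4) ^ 2 := pow_le_pow_left₀ h2 h1.le 2
      rw [sq_abs] at this
      nlinarith
    by_contra h
    push Not at h
    have h4 : v.re ^ 2 < ((9 / 10 : ℝ) * ‖v‖) ^ 2 :=
      pow_lt_pow_left₀ h (by linarith) (by norm_num)
    nlinarith [sq_nonneg v.re]

theorem chi_le (w : ℂ) (hw : (9 / 10 : ℝ) * ‖w‖ ≤ w.re) : ‖chi w‖ ≤ 2 := by
  unfold chi
  rw [norm_mul, Complex.norm_exp]
  have h1 : ‖1 + 2 * w‖ ≤ 1 + 2 * ‖w‖ := by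
    refine (norm_add_le _ _).trans ?_
    rw [norm_one, norm_mul]
    simp
  have h2 : (-(2 * w)).re = -(2 * w.re) := by simp
  rw [h2]
  have hn := norm_nonneg w
  have h3 : Real.exp (-(2 * w.re)) ≤ Real.exp (-(9 / 5 * ‖w‖)) := by
    apply Real.exp_le_exp.2; linarith
  have h4 : 1 + 2 * ‖w‖ ≤ 2 * Real.exp (9 / 5 * ‖w‖) := by
    have := Real.add_one_le_exp (9 / 5 * ‖w‖)
    linarith
  calc ‖1 + 2 * w‖ * Real.exp (-(2 * w.re))
      ≤ (2 * Real.exp (9 / 5 * ‖w‖)) * Real.exp (-(9 / 5 * ‖w‖)) :=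
        mul_le_mul (h1.trans h4) h3 (Real.exp_pos _).le (by positivity)
    _ = 2 := by
        rw [mul_assoc, ← Real.exp_add]
        simp

theorem one_sub_le (w : ℂ) (hw : 0 ≤ w.re) : ‖1 - chi w‖ ≤ 4 * ‖w‖ ^ 2 := by
  have hder : ∀ x ∈ Set.Icc (0 : ℝ) 1, HasDerivWithinAt (fun x : ℝ => 1 - chi (x * w))
      (4 * (x : ℂ) * w ^ 2 * Complex.exp (-(2 * (x * w)))) (Set.Icc (0 : ℝ) 1) x := by
    intro x _
    apply HasDerivAt.hasDerivWithinAt
    have h0 : HasDerivAt (fun z : ℂ => z * w) w (x : ℂ) := by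
      simpa using (hasDerivAt_id (x : ℂ)).mul_const w
    have h1 : HasDerivAt (fun z : ℂ => 2 * (z * w)) (2 * w) (x : ℂ) := h0.const_mul 2
    have h2 : HasDerivAt (fun z : ℂ => 1 - (1 + 2 * (z * w)) * Complex.exp (-(2 * (z * w))))
        (4 * (x : ℂ) * w ^ 2 * Complex.exp (-(2 * (x * w)))) (x : ℂ) := by
      have := ((h1.const_add 1).mul (h1.neg.cexp)).const_sub 1
      refine this.congr_deriv ?_
      simp only [Pi.neg_apply]
      ring
    exact h2.comp_ofReal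
  have hb : ∀ x ∈ Set.Ico (0 : ℝ) 1,
      ‖4 * (x : ℂ) * w ^ 2 * Complex.exp (-(2 * (x * w)))‖ ≤ 4 * ‖w‖ ^ 2 := by
    intro x hx
    rw [norm_mul, norm_mul, norm_mul, norm_pow, Complex.norm_exp, Complex.norm_real,
      Real.norm_eq_abs, abs_of_nonneg hx.1]
    have h1 : (-(2 * ((x : ℂ) * w))).re = -(2 * (x * w.re)) := by simp
    rw [h1]
    have h2 : Real.exp (-(2 * (x * w.re))) ≤ 1 := by
      apply Real.exp_le_one_iff.2
      have := mul_nonneg hx.1 hw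
      linarith
    have h3 : ‖(4 : ℂ)‖ = 4 := by simp
    rw [h3]
    have hn : 0 ≤ ‖w‖ ^ 2 := by positivity
    calc 4 * x * ‖w‖ ^ 2 * Real.exp (-(2 * (x * w.re)))
        ≤ 4 * 1 * ‖w‖ ^ 2 * 1 := by
          apply mul_le_mul _ h2 (Real.exp_pos _).le (by positivity)
          apply mul_le_mul_of_nonneg_right _ hn
          linarith [hx.2]
      _ = 4 * ‖w‖ ^ 2 := by ring
  have := norm_image_sub_le_of_norm_deriv_le_segment_01' hder hb
  have h0 : chi 0 = 1 := by simp [chi]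
  simpa [h0] using this

theorem re_mul (v : ℂ) (s : ℝ) (hs : 0 < s) (hv : (9 / 10 : ℝ) * ‖v‖ ≤ v.re) :
    (9 / 10 : ℝ) * ‖v * (s : ℂ)‖ ≤ (v * (s : ℂ)).re := by
  rw [norm_mul, Complex.norm_real, Real.norm_eq_abs, abs_of_pos hs, Complex.re_mul_ofReal]
  nlinarith

theorem norm_mul_s (v : ℂ) (s : ℝ) (hs : 0 < s) : ‖v * (s : ℂ)‖ = ‖v‖ * s := by
  rw [norm_mul, Complex.norm_real, Real.norm_eq_abs, abs_of_pos hs]

theorem lt_bd (v : ℂ) (s : ℝ) (hs : 0 < s) (hs1 : s < 1) (hv : (9 / 10 : ℝ) * ‖v‖ ≤ v.re) :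
    ‖Kp v s‖ * Real.exp (‖v‖ * (1 - s) / 2) ≤
      Real.exp (-(2 / 5 * ‖v‖ * (1 - s))) * (‖1 - chi (v * s)‖ / s ^ 2) := by
  unfold Kp
  rw [if_pos hs1, norm_div, norm_mul, Complex.norm_exp, norm_pow, Complex.norm_real,
    Real.norm_eq_abs, abs_of_pos hs]
  have h1 : (-(v * (1 - (s : ℂ)))).re = -(v.re * (1 - s)) := by
    simp
  rw [h1]
  have h2 : Real.exp (-(v.re * (1 - s))) * Real.exp (‖v‖ * (1 - s) / 2) ≤
      Real.exp (-(2 / 5 * ‖v‖ * (1 - s))) := by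
    rw [← Real.exp_add]
    apply Real.exp_le_exp.2
    nlinarith
  have h3 : 0 ≤ ‖1 - chi (v * s)‖ / s ^ 2 := by positivity
  calc Real.exp (-(v.re * (1 - s))) * ‖1 - chi (v * s)‖ / s ^ 2 *
        Real.exp (‖v‖ * (1 - s) / 2)
      = (Real.exp (-(v.re * (1 - s))) * Real.exp (‖v‖ * (1 - s) / 2)) *
        (‖1 - chi (v * s)‖ / s ^ 2) := by ring
    _ ≤ _ := mul_le_mul_of_nonneg_right h2 h3

theorem ge_bd (v : ℂ) (s : ℝ) (hs1 : 1 ≤ s) (hv : (9 / 10 : ℝ) * ‖v‖ ≤ v.re) :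
    ‖Kp v s‖ * Real.exp (‖v‖ * (1 - s) / 2) ≤
      (1 + 2 * (‖v‖ * s)) * Real.exp (-(‖v‖ * s)) / s ^ 2 := by
  have hs : 0 < s := by linarith
  unfold Kp
  rw [if_neg (not_lt.2 hs1), norm_neg, norm_div, norm_mul, norm_pow, Complex.norm_real,
    Real.norm_eq_abs, abs_of_pos hs]
  unfold chi
  rw [norm_mul, Complex.norm_exp, Complex.norm_exp]
  have h0 : (v * ((s : ℂ) - 1)).re = v.re * (s - 1) := by simp
  have h1 : (-(2 * (v * (s : ℂ)))).re = -(2 * (v.re * s)) := by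
    simp
  rw [h0, h1]
  have hn := norm_nonneg v
  have h2 : ‖1 + 2 * (v * (s : ℂ))‖ ≤ 1 + 2 * (‖v‖ * s) := by
    refine (norm_add_le _ _).trans ?_
    rw [norm_one, norm_mul, norm_mul_s v s hs]
    simp
  have h3 : Real.exp (v.re * (s - 1)) * Real.exp (-(2 * (v.re * s))) *
      Real.exp (‖v‖ * (1 - s) / 2) ≤ Real.exp (-(‖v‖ * s)) := by
    rw [← Real.exp_add, ← Real.exp_add]
    apply Real.exp_le_exp.2
    nlinarith
  have h4 : 0 ≤ 1 + 2 * (‖v‖ * s) := by positivity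
  calc Real.exp (v.re * (s - 1)) * (‖1 + 2 * (v * (s : ℂ))‖ * Real.exp (-(2 * (v.re * s)))) /
        s ^ 2 * Real.exp (‖v‖ * (1 - s) / 2)
      = ‖1 + 2 * (v * (s : ℂ))‖ * (Real.exp (v.re * (s - 1)) * Real.exp (-(2 * (v.re * s))) *
        Real.exp (‖v‖ * (1 - s) / 2)) / s ^ 2 := by ring
    _ ≤ (1 + 2 * (‖v‖ * s)) * Real.exp (-(‖v‖ * s)) / s ^ 2 := by
        apply div_le_div_of_nonneg_right _ (by positivity)
        exact mul_le_mul h2 h3 (by positivity) h4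

/-- For `s ≥ 1`. -/
theorem ge_bd1 (v : ℂ) (s : ℝ) (hs1 : 1 ≤ s) (hv : (9 / 10 : ℝ) * ‖v‖ ≤ v.re) :
    ‖Kp v s‖ * Real.exp (‖v‖ * (1 - s) / 2) ≤ 2 / s ^ 2 := by
  refine (ge_bd v s hs1 hv).trans ?_
  have hs : 0 < s := by linarith
  apply div_le_div_of_nonneg_right _ (by positivity)
  have hx : 0 ≤ ‖v‖ * s := by positivity
  have h4 : 1 + 2 * (‖v‖ * s) ≤ 2 * Real.exp (‖v‖ * s) := by
    have := Real.add_one_le_exp (‖v‖ * s)
    linarith
  calc (1 + 2 * (‖v‖ * s)) * Real.exp (-(‖v‖ * s))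
      ≤ (2 * Real.exp (‖v‖ * s)) * Real.exp (-(‖v‖ * s)) :=
        mul_le_mul_of_nonneg_right h4 (Real.exp_pos _).le
    _ = 2 := by rw [mul_assoc, ← Real.exp_add]; simp

theorem x_exp (x : ℝ) (hx : 0 ≤ x) : x * (1 + 2 * x) * Real.exp (-x) ≤ 5 := by
  have h1 := Real.quadratic_le_exp_of_nonneg hx
  have h2 : x * (1 + 2 * x) ≤ 5 * Real.exp x := by nlinarith
  calc x * (1 + 2 * x) * Real.exp (-x) ≤ (5 * Real.exp x) * Real.exp (-x) :=
        mul_le_mul_of_nonneg_right h2 (Real.exp_pos _).le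
    _ = 5 := by rw [mul_assoc, ← Real.exp_add]; simp

theorem ge_bd2 (v : ℂ) (s : ℝ) (hs1 : 1 ≤ s) (hv : (9 / 10 : ℝ) * ‖v‖ ≤ v.re) :
    ‖v‖ * (‖Kp v s‖ * Real.exp (‖v‖ * (1 - s) / 2)) ≤ 5 / s ^ 2 := by
  have hs : 0 < s := by linarith
  have hn := norm_nonneg v
  refine (mul_le_mul_of_nonneg_left (ge_bd v s hs1 hv) hn).trans ?_
  have hx : 0 ≤ ‖v‖ * s := by positivity
  have h1 := x_exp (‖v‖ * s) hx
  have h2 : ‖v‖ ≤ ‖v‖ * s := by nlinarith
  have h3 : 0 ≤ (1 + 2 * (‖v‖ * s)) * Real.exp (-(‖v‖ * s)) := by positivity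
  calc ‖v‖ * ((1 + 2 * (‖v‖ * s)) * Real.exp (-(‖v‖ * s)) / s ^ 2)
      = (‖v‖ * ((1 + 2 * (‖v‖ * s)) * Real.exp (-(‖v‖ * s)))) / s ^ 2 := by ring
    _ ≤ 5 / s ^ 2 := by
        apply div_le_div_of_nonneg_right _ (by positivity)
        have := mul_le_mul_of_nonneg_right h2 h3
        nlinarith

/-- For `s < 1`. -/
theorem lt_bd1 (v : ℂ) (s : ℝ) (hs : 0 < s) (hs1 : s < 1)
    (hv : (9 / 10 : ℝ) * ‖v‖ ≤ v.re) :
    ‖Kp v s‖ * Real.exp (‖v‖ * (1 - s) / 2) ≤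
      4 * ‖v‖ ^ 2 * Real.exp (-(2 / 5 * ‖v‖ * (1 - s))) := by
  refine (lt_bd v s hs hs1 hv).trans ?_
  have h0 : 0 ≤ (v * (s : ℂ)).re := by
    refine le_trans ?_ (re_mul v s hs hv)
    positivity
  have h1 := one_sub_le (v * s) h0
  rw [norm_mul_s v s hs] at h1
  have h2 : ‖1 - chi (v * s)‖ / s ^ 2 ≤ 4 * ‖v‖ ^ 2 := by
    rw [div_le_iff₀ (by positivity)]
    nlinarith
  have h3 := (Real.exp_pos (-(2 / 5 * ‖v‖ * (1 - s)))).le
  nlinarith [mul_le_mul_of_nonneg_left h2 h3]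

theorem lt_bd2 (v : ℂ) (s : ℝ) (hs : 1 / 2 ≤ s) (hs1 : s < 1)
    (hv : (9 / 10 : ℝ) * ‖v‖ ≤ v.re) :
    ‖Kp v s‖ * Real.exp (‖v‖ * (1 - s) / 2) ≤
      12 * Real.exp (-(2 / 5 * ‖v‖ * (1 - s))) := by
  have hs0 : 0 < s := by linarith
  refine (lt_bd v s hs0 hs1 hv).trans ?_
  have h1 : ‖1 - chi (v * s)‖ ≤ 3 := by
    refine (norm_sub_le _ _).trans ?_
    rw [norm_one]
    have := chi_le (v * s) (re_mul v s hs0 hv)
    linarith
  have h2 : ‖1 - chi (v * s)‖ / s ^ 2 ≤ 12 := by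
    rw [div_le_iff₀ (by positivity)]
    nlinarith
  have h3 := (Real.exp_pos (-(2 / 5 * ‖v‖ * (1 - s)))).le
  nlinarith [mul_le_mul_of_nonneg_left h2 h3]

theorem exp_cub (x : ℝ) (hx : 0 ≤ x) : x ^ 3 / 6 ≤ Real.exp x := by
  have := Real.pow_div_factorial_le_exp x hx 3
  simpa [Nat.factorial] using this

theorem exp_sqd (x : ℝ) (hx : 0 ≤ x) : x ^ 2 / 2 ≤ Real.exp x := by
  have := Real.pow_div_factorial_le_exp x hx 2
  simpa [Nat.factorial] using this

/-- For `s ≤ 1/2`. -/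
theorem lt_bd3 (v : ℂ) (s : ℝ) (hs : 0 < s) (hs1 : s ≤ 1 / 2)
    (hv : (9 / 10 : ℝ) * ‖v‖ ≤ v.re) :
    ‖Kp v s‖ * Real.exp (‖v‖ * (1 - s) / 2) ≤ 200 ∧
      ‖v‖ * (‖Kp v s‖ * Real.exp (‖v‖ * (1 - s) / 2)) ≤ 3000 := by
  have h1 := lt_bd1 v s hs (by linarith) hv
  have hn := norm_nonneg v
  have h2 : Real.exp (-(2 / 5 * ‖v‖ * (1 - s))) ≤ Real.exp (-(‖v‖ / 5)) := by
    apply Real.exp_le_exp.2
    nlinarith
  have hp := Real.exp_pos (-(‖v‖ / 5))
  have hx : 0 ≤ ‖v‖ / 5 := by positivity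
  have he : Real.exp (‖v‖ / 5) * Real.exp (-(‖v‖ / 5)) = 1 := by
    rw [← Real.exp_add]; simp
  have h3 : ‖v‖ ^ 2 * Real.exp (-(‖v‖ / 5)) ≤ 50 := by
    have := exp_sqd (‖v‖ / 5) hx
    nlinarith [mul_le_mul_of_nonneg_right this hp.le]
  have h4 : ‖v‖ ^ 3 * Real.exp (-(‖v‖ / 5)) ≤ 750 := by
    have := exp_cub (‖v‖ / 5) hx
    nlinarith [mul_le_mul_of_nonneg_right this hp.le]
  have h5 : 4 * ‖v‖ ^ 2 * Real.exp (-(2 / 5 * ‖v‖ * (1 - s))) ≤
      4 * ‖v‖ ^ 2 * Real.exp (-(‖v‖ / 5)) :=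
    mul_le_mul_of_nonneg_left h2 (by positivity)
  constructor
  · nlinarith
  · calc ‖v‖ * (‖Kp v s‖ * Real.exp (‖v‖ * (1 - s) / 2))
        ≤ ‖v‖ * (4 * ‖v‖ ^ 2 * Real.exp (-(‖v‖ / 5))) :=
          mul_le_mul_of_nonneg_left (h1.trans h5) hn
      _ = 4 * (‖v‖ ^ 3 * Real.exp (-(‖v‖ / 5))) := by ring
      _ ≤ 3000 := by linarith

/-- A lower integral over a window bounded by a constant times the length. -/
theorem lint_const (f : ℝ → ℝ) (n : ℤ) (B : ℝ)
    (hf : ∀ s ∈ Set.Icc ((2 : ℝ) ^ n) ((2 : ℝ) ^ (n + 1)), f s ≤ B) (hB : 0 ≤ B) :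
    ∫⁻ s in Set.Icc ((2 : ℝ) ^ n) ((2 : ℝ) ^ (n + 1)), ENNReal.ofReal (f s) ≤
      ENNReal.ofReal (B * (2 : ℝ) ^ n) := by
  calc ∫⁻ s in Set.Icc ((2 : ℝ) ^ n) ((2 : ℝ) ^ (n + 1)), ENNReal.ofReal (f s)
      ≤ ∫⁻ _ in Set.Icc ((2 : ℝ) ^ n) ((2 : ℝ) ^ (n + 1)), ENNReal.ofReal B :=
        MeasureTheory.setLIntegral_mono measurable_const fun s hs =>
          ENNReal.ofReal_le_ofReal (hf s hs)
    _ = ENNReal.ofReal B * ENNReal.ofReal ((2 : ℝ) ^ n) := by
        rw [MeasureTheory.setLIntegral_const, Real.volume_Icc]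
        congr 2
        rw [zpow_add₀ (by norm_num : (2 : ℝ) ≠ 0)]
        ring
    _ = ENNReal.ofReal (B * (2 : ℝ) ^ n) := by
        rw [ENNReal.ofReal_mul hB]

theorem zpow_abs_ge (n : ℤ) (hn : 0 ≤ n) : (2 : ℝ) ^ (-|n|) = (2 : ℝ) ^ (-n) := by
  rw [abs_of_nonneg hn]

/-- The general estimate. -/
theorem win (_v : ℂ) (f : ℝ → ℝ) (B : ℝ) (hB : 0 ≤ B)
    (h1 : ∀ s, 1 ≤ s → f s ≤ B / s ^ 2) (h2 : ∀ s, 0 < s → s ≤ 1 / 2 → f s ≤ B)
    (h3 : ∫⁻ s in Set.Icc (1 / 2 : ℝ) 1, ENNReal.ofReal (f s) ≤ ENNReal.ofReal (B / 2))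
    (n : ℤ) :
    ∫⁻ s in Set.Icc ((2 : ℝ) ^ n) ((2 : ℝ) ^ (n + 1)), ENNReal.ofReal (f s) ≤
      ENNReal.ofReal (B * (2 : ℝ) ^ (-|n|)) := by
  rcases le_or_gt 0 n with hn | hn
  · have hp : (0 : ℝ) < (2 : ℝ) ^ n := by positivity
    have h1n : (1 : ℝ) ≤ (2 : ℝ) ^ n := one_le_zpow₀ (by norm_num) hn
    have := lint_const f n (B / ((2 : ℝ) ^ n) ^ 2) (fun s hs => by
      refine (h1 s (h1n.trans hs.1)).trans ?_
      apply div_le_div_of_nonneg_left hB (by positivity)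
      exact pow_le_pow_left₀ hp.le hs.1 2) (by positivity)
    refine this.trans (ENNReal.ofReal_le_ofReal ?_)
    rw [abs_of_nonneg hn, zpow_neg]
    apply le_of_eq
    field_simp
  · rcases eq_or_ne n (-1) with rfl | hne
    · have e1 : (2 : ℝ) ^ (-1 : ℤ) = 1 / 2 := by norm_num
      have e2 : (2 : ℝ) ^ (-1 + 1 : ℤ) = 1 := by norm_num
      rw [e1, e2]
      refine h3.trans (ENNReal.ofReal_le_ofReal ?_)
      apply le_of_eq
      norm_num
      ring
    · have hn2 : n ≤ -2 := by omega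
      have := lint_const f n B (fun s hs => by
        refine h2 s (lt_of_lt_of_le (by positivity) hs.1) (hs.2.trans ?_)
        calc (2 : ℝ) ^ (n + 1) ≤ (2 : ℝ) ^ (-1 : ℤ) :=
              zpow_le_zpow_right₀ (by norm_num) (by omega)
          _ = 1 / 2 := by norm_num) hB
      refine this.trans (ENNReal.ofReal_le_ofReal ?_)
      rw [abs_of_neg hn, neg_neg]

theorem exp_lint (u : ℝ) (hu : 0 ≤ u) :
    ∫⁻ s in Set.Icc (1 / 2 : ℝ) 1, ENNReal.ofReal (u * Real.exp (-(2 / 5 * u * (1 - s)))) ≤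
      ENNReal.ofReal (5 / 2) := by
  have hc : Continuous (fun s : ℝ => u * Real.exp (-(2 / 5 * u * (1 - s)))) := by
    fun_prop
  have hint : MeasureTheory.IntegrableOn (fun s : ℝ => u * Real.exp (-(2 / 5 * u * (1 - s))))
      (Set.Icc (1 / 2 : ℝ) 1) := hc.continuousOn.integrableOn_Icc
  rw [← MeasureTheory.ofReal_integral_eq_lintegral_ofReal hint
    (Filter.Eventually.of_forall fun s => by positivity)]
  apply ENNReal.ofReal_le_ofReal
  rw [MeasureTheory.integral_Icc_eq_integral_Ioc, ← intervalIntegral.integral_of_le (by norm_num)]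
  have hF : ∀ s ∈ Set.uIcc (1 / 2 : ℝ) 1,
      HasDerivAt (fun s : ℝ => 5 / 2 * Real.exp (-(2 / 5 * u * (1 - s))))
        (u * Real.exp (-(2 / 5 * u * (1 - s)))) s := by
    intro s _
    have h1 : HasDerivAt (fun s : ℝ => -(2 / 5 * u * (1 - s))) (2 / 5 * u) s := by
      have := (((hasDerivAt_id s).const_sub 1).const_mul (2 / 5 * u)).neg
      refine this.congr_deriv ?_
      ring
    have h2 := (h1.exp).const_mul (5 / 2)
    refine h2.congr_deriv ?_
    ring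
  rw [intervalIntegral.integral_eq_sub_of_hasDerivAt hF (hc.intervalIntegrable _ _)]
  have h1 : Real.exp (-(2 / 5 * u * (1 - 1))) = 1 := by simp
  rw [h1]
  have := (Real.exp_pos (-(2 / 5 * u * (1 - 1 / 2)))).le
  linarith

end KP_

theorem p_KP : T_KP := by
  refine ⟨3000, by norm_num, ?_, ?_, ?_, ?_, ?_⟩
  · intro s hs
    have hs0 : (s : ℂ) ≠ 0 := by exact_mod_cast hs.ne'
    unfold Kp chi
    by_cases h : s < 1
    · simp only [if_pos h]
      fun_prop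
    · simp only [if_neg h]
      fun_prop
  · intro v
    unfold Kp chi
    refine Measurable.ite measurableSet_Iio ?_ ?_
    · fun_prop
    · fun_prop
  · intro R
    refine ⟨fun s => if s < 1 then 4 * R ^ 2 else 2 / s ^ 2, ?_, ?_⟩
    · have hU : Set.Ioi (0 : ℝ) = Set.Ioo 0 1 ∪ Set.Ici 1 := by
        ext x
        simp only [Set.mem_Ioi, Set.mem_union, Set.mem_Ioo, Set.mem_Ici]
        constructor
        · intro hx
          rcases lt_or_ge x 1 with h | h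
          · exact Or.inl ⟨hx, h⟩
          · exact Or.inr h
        · rintro (h | h)
          · exact h.1
          · linarith
      rw [hU]
      apply MeasureTheory.IntegrableOn.union
      · have : MeasureTheory.IntegrableOn (fun _ : ℝ => 4 * R ^ 2) (Set.Ioo (0 : ℝ) 1) := by
          have hfin : MeasureTheory.volume (Set.Ioo (0 : ℝ) 1) ≠ ⊤ := by simp
          exact MeasureTheory.integrableOn_const hfin enorm_ne_top
        refine this.congr_fun (fun s hs => ?_) measurableSet_Ioo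
        simp only [if_pos hs.2]
      · have h0 : MeasureTheory.IntegrableOn (fun s : ℝ => s ^ (-2 : ℝ)) (Set.Ioi (1 : ℝ)) :=
          integrableOn_Ioi_rpow_of_lt (by norm_num) (by norm_num)
        have h0' : MeasureTheory.IntegrableOn (fun s : ℝ => s ^ (-2 : ℝ)) (Set.Ici (1 : ℝ)) := by
          rw [integrableOn_Ici_iff_integrableOn_Ioi]
          exact h0
        have h1 := h0'.const_mul 2
        refine MeasureTheory.IntegrableOn.congr_fun h1 (fun s hs => ?_) measurableSet_Ici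
        have hs1 : (1 : ℝ) ≤ s := hs
        have hs0 : (0 : ℝ) < s := by linarith
        simp only [if_neg (not_lt.2 hs1)]
        rw [Real.rpow_neg hs0.le]
        norm_num
        rfl
    · intro v hv hR s hs
      have hv' := KP_.re_ge v hv
      simp only
      split_ifs with h
      · refine (KP_.lt_bd1 v s hs h hv').trans ?_
        have hn := norm_nonneg v
        have h1 : Real.exp (-(2 / 5 * ‖v‖ * (1 - s))) ≤ 1 := by
          apply Real.exp_le_one_iff.2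
          have : 0 ≤ ‖v‖ * (1 - s) := mul_nonneg hn (by linarith)
          linarith
        have h2 : ‖v‖ ^ 2 ≤ R ^ 2 := pow_le_pow_left₀ hn hR 2
        have h3 := (Real.exp_pos (-(2 / 5 * ‖v‖ * (1 - s)))).le
        calc 4 * ‖v‖ ^ 2 * Real.exp (-(2 / 5 * ‖v‖ * (1 - s)))
            ≤ 4 * R ^ 2 * 1 := mul_le_mul (by linarith) h1 h3 (by positivity)
          _ = 4 * R ^ 2 := by ring
      · exact KP_.ge_bd1 v s (not_lt.1 h) hv'
  · intro v hv n
    have hv' := KP_.re_ge v hv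
    refine KP_.win v _ 3000 (by norm_num) ?_ ?_ ?_ n
    · intro s hs
      refine (KP_.ge_bd1 v s hs hv').trans ?_
      apply div_le_div_of_nonneg_right (by norm_num) (by positivity)
    · intro s hs hs2
      exact ((KP_.lt_bd3 v s hs hs2 hv').1).trans (by norm_num)
    · have h := KP_.lint_const
        (fun s => ‖Kp v s‖ * Real.exp (‖v‖ * (1 - s) / 2)) (-1) 12 (fun s hs => by
        have e1 : (2 : ℝ) ^ (-1 : ℤ) = 1 / 2 := by norm_num
        have e2 : (2 : ℝ) ^ (-1 + 1 : ℤ) = 1 := by norm_num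
        rw [e1, e2] at hs
        rcases lt_or_ge s 1 with h | h
        · refine (KP_.lt_bd2 v s hs.1 h hv').trans ?_
          have h1 : Real.exp (-(2 / 5 * ‖v‖ * (1 - s))) ≤ 1 := by
            apply Real.exp_le_one_iff.2
            have : 0 ≤ ‖v‖ * (1 - s) := mul_nonneg (norm_nonneg v) (by linarith)
            linarith
          linarith
        · refine (KP_.ge_bd1 v s h hv').trans ?_
          have hs1 : s = 1 := le_antisymm hs.2 h
          rw [hs1]; norm_num) (by norm_num)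
      have e1 : (2 : ℝ) ^ (-1 : ℤ) = 1 / 2 := by norm_num
      have e2 : (2 : ℝ) ^ (-1 + 1 : ℤ) = 1 := by norm_num
      rw [e1, e2] at h
      exact h.trans (ENNReal.ofReal_le_ofReal (by norm_num))
  · intro v hv n
    have hv' := KP_.re_ge v hv
    have hn := norm_nonneg v
    refine KP_.win v _ 3000 (by norm_num) ?_ ?_ ?_ n
    · intro s hs
      refine (KP_.ge_bd2 v s hs hv').trans ?_
      apply div_le_div_of_nonneg_right (by norm_num) (by positivity)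
    · intro s hs hs2
      exact (KP_.lt_bd3 v s hs hs2 hv').2
    · calc ∫⁻ s in Set.Icc (1 / 2 : ℝ) 1,
            ENNReal.ofReal (‖v‖ * (‖Kp v s‖ * Real.exp (‖v‖ * (1 - s) / 2)))
          ≤ ∫⁻ s in Set.Icc (1 / 2 : ℝ) 1, (ENNReal.ofReal 12 *
            ENNReal.ofReal (‖v‖ * Real.exp (-(2 / 5 * ‖v‖ * (1 - s)))) +
              ENNReal.ofReal 5) := by
            refine MeasureTheory.setLIntegral_mono (by fun_prop) fun s hs => ?_
            rw [← ENNReal.ofReal_mul (by norm_num), ← ENNReal.ofReal_add (by positivity)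
              (by norm_num)]
            apply ENNReal.ofReal_le_ofReal
            rcases lt_or_ge s 1 with h | h
            · have := mul_le_mul_of_nonneg_left (KP_.lt_bd2 v s hs.1 h hv') hn
              linarith
            · have h1 := KP_.ge_bd2 v s h hv'
              have hs1 : s = 1 := le_antisymm hs.2 h
              have h2 : 0 ≤ 12 * (‖v‖ * Real.exp (-(2 / 5 * ‖v‖ * (1 - s)))) := by positivity
              rw [hs1] at h1 h2 ⊢
              norm_num at h1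
              norm_num at h2 ⊢
              linarith
        _ = ENNReal.ofReal 12 * (∫⁻ s in Set.Icc (1 / 2 : ℝ) 1,
            ENNReal.ofReal (‖v‖ * Real.exp (-(2 / 5 * ‖v‖ * (1 - s))))) +
              ENNReal.ofReal 5 * ENNReal.ofReal (1 / 2) := by
            rw [MeasureTheory.lintegral_add_right _ measurable_const,
              MeasureTheory.lintegral_const_mul _ (by fun_prop),
              MeasureTheory.setLIntegral_const, Real.volume_Icc]
            norm_num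
        _ ≤ ENNReal.ofReal 12 * ENNReal.ofReal (5 / 2) +
              ENNReal.ofReal 5 * ENNReal.ofReal (1 / 2) := by
            gcongr
            exact KP_.exp_lint ‖v‖ hn
        _ = ENNReal.ofReal (65 / 2) := by
            rw [← ENNReal.ofReal_mul (by norm_num), ← ENNReal.ofReal_mul (by norm_num),
              ← ENNReal.ofReal_add (by norm_num) (by norm_num)]
            norm_num
        _ ≤ ENNReal.ofReal (3000 / 2) := ENNReal.ofReal_le_ofReal (by norm_num)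

end Pool.Agent.HSP
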