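import Pool.Agent.HSP.Targets1

set_option autoImplicit false

/-!
# HSP: linear combinations of admissible families, and the unit
-/

open scoped Classical ENNReal

noncomputable section

namespace Pool.Agent.HSP

namespace LIN_

lemma norm_ex (t x : ℝ) : ‖ex t x‖ = 1 := by
  unfold ex
  exact Complex.norm_exp_ofReal_mul_I (t * x)

lemma summable_ev {a : Fam} {y : ℂ} (h : Summable (fun t => ‖a t y‖)) (x : ℝ) :
    Summable (fun t => a t y * ex t x) := by
  apply Summable.of_norm
  have : (fun t => ‖a t y * ex t x‖) = fun t => ‖a t y‖ := by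
    funext t
    rw [norm_mul, norm_ex, mul_one]
  rw [this]
  exact h

lemma nn_add (h_NRM : T_NRM) (a b : Fam) : NN (fun t y => a t y + b t y) ≤ NN a + NN b := by
  refine iSup_le fun l => ?_
  exact (h_NRM l a b 0 0).2.2.1.trans
    (add_le_add (le_iSup (fun l => N l a) l) (le_iSup (fun l => N l b) l))

lemma nn_smul (h_NRM : T_NRM) (a : Fam) (c : ℂ) :
    NN (fun t y => c * a t y) = ENNReal.ofReal ‖c‖ * NN a := by
  unfold NN
  rw [ENNReal.mul_iSup]
  refine iSup_congr fun l => ?_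
  exact (h_NRM l a a c 0).2.2.2

lemma A_zero (l : ℤ) (t : ℝ) : A l (fun _ _ => 0) t = 0 := by
  unfold A
  simp

lemma NN_zero : NN (fun _ _ => 0) = 0 := by
  unfold NN N
  simp [A_zero]

lemma un_of_ne {t : ℝ} (ht : t ≠ 0) (y : ℂ) : un t y = 0 := by
  unfold un
  rw [if_neg]
  exact fun h => ht h.1

lemma un_zero_of_mem {y : ℂ} (hy : y ∈ S) : un 0 y = 1 := by
  unfold un
  rw [if_pos ⟨rfl, hy⟩]

lemma A_un_ne (l : ℤ) {t : ℝ} (ht : t ≠ 0) : A l un t = 0 := by
  unfold A
  simp [un_of_ne ht]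

lemma A_un_zero (h_PTW : T_PTW) (l : ℤ) : A l un 0 = 1 := by
  have h1 : ∀ y ∈ W l, ENNReal.ofReal (‖un 0 y‖ * Real.exp (|(0 : ℝ)| * ‖y‖ / 2)) = 1 := by
    intro y hy
    rw [un_zero_of_mem hy.1]
    simp
  have hmem : ((2 : ℝ) ^ l : ℂ) ∈ W l := h_PTW.2.2.2.2.2.1 l
  unfold A
  apply le_antisymm
  · refine iSup₂_le fun y hy => ?_
    rw [h1 y hy]
  · have h2 := le_iSup₂ (f := fun (y : ℂ) (_ : y ∈ W l) =>
      ENNReal.ofReal (‖un 0 y‖ * Real.exp (|(0 : ℝ)| * ‖y‖ / 2))) _ hmem
    rw [h1 _ hmem] at h2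
    exact h2

lemma N_un (h_PTW : T_PTW) (l : ℤ) : N l un = 1 := by
  unfold N
  rw [tsum_eq_single 0]
  · exact A_un_zero h_PTW l
  · intro t ht
    exact A_un_ne l ht

lemma NN_un (h_PTW : T_PTW) : NN un = 1 := by
  unfold NN
  simp [N_un h_PTW]

end LIN_

open LIN_ in
/-- LIN. -/
theorem p_LIN (h_NRM : T_NRM) (h_PTW : T_PTW) : T_LIN := by
  refine ⟨?_, ?_, ?_, ?_, NN_zero, ?_⟩
  · intro a b ha hb
    refine ⟨⟨?_, ?_, ?_⟩, nn_add h_NRM a b, ?_⟩
    · intro t
      exact (ha.hol t).add (hb.hol t)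
    · intro t y hy
      simp only [ha.off t y hy, hb.off t y hy, add_zero]
    · exact (nn_add h_NRM a b).trans_lt (ENNReal.add_lt_top.2 ⟨ha.fin, hb.fin⟩)
    · intro x y hy
      have hsa := (((h_PTW.2.2.2.2.2.2 a ha).1 y hy).2).1
      have hsb := (((h_PTW.2.2.2.2.2.2 b hb).1 y hy).2).1
      unfold ev
      rw [← (summable_ev hsa x).tsum_add (summable_ev hsb x)]
      refine tsum_congr fun t => ?_
      ring
  · intro a c ha
    refine ⟨⟨?_, ?_, ?_⟩, nn_smul h_NRM a c, ?_⟩
    · intro t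
      exact (ha.hol t).const_mul c
    · intro t y hy
      simp only [ha.off t y hy, mul_zero]
    · rw [nn_smul h_NRM a c]
      exact ENNReal.mul_lt_top ENNReal.ofReal_lt_top ha.fin
    · intro x y _
      unfold ev
      rw [← tsum_mul_left]
      refine tsum_congr fun t => ?_
      ring
  · intro a ha h0 t y
    by_cases hy : y ∈ S
    · have h1 := (h_PTW.2.2.2.2.2.2 a ha).2 y hy t
      rw [h0, ENNReal.toReal_zero] at h1
      have h2 : 0 < Real.exp (|t| * ‖y‖ / 2) := Real.exp_pos _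
      have h3 : ‖a t y‖ ≤ 0 := by
        by_contra hcon
        push Not at hcon
        exact absurd h1 (not_le.2 (mul_pos hcon h2))
      exact norm_le_zero_iff.1 h3
    · exact ha.off t y hy
  · refine ⟨?_, ?_, ?_⟩
    · intro t
      exact differentiableOn_const _
    · intro t y _
      rfl
    · rw [NN_zero]
      exact ENNReal.zero_lt_top
  · intro a ha h0 hinj t y
    by_cases hy : y ∈ S
    · have hsa := (((h_PTW.2.2.2.2.2.2 a ha).1 y hy).2).1
      exact hinj (fun t => a t y) hsa (fun x => h0 x y hy) t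
    · exact ha.off t y hy

open LIN_ in
/-- UNA. -/
theorem p_UNA (h_PTW : T_PTW) : T_UNA := by
  refine ⟨⟨?_, ?_, ?_⟩, N_un h_PTW, NN_un h_PTW, ?_⟩
  · intro t
    by_cases ht : t = 0
    · subst ht
      refine (differentiableOn_const (1 : ℂ)).congr ?_
      intro y hy
      exact un_zero_of_mem hy
    · refine (differentiableOn_const (0 : ℂ)).congr ?_
      intro y _
      exact un_of_ne ht y
  · intro t y hy
    unfold un
    rw [if_neg]
    exact fun h => hy h.2
  · rw [NN_un h_PTW]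
    exact ENNReal.one_lt_top
  · intro x y hy
    unfold ev
    rw [tsum_eq_single 0]
    · rw [un_zero_of_mem hy]
      unfold ex
      simp
    · intro t ht
      rw [un_of_ne ht y, zero_mul]

end Pool.Agent.HSP
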