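import Pool.Agent.HSP.Targets1

set_option autoImplicit false

/-!
# HSP: the norm of vectors (target T_NVB)
-/

open scoped Classical ENNReal

noncomputable section

namespace Pool.Agent.HSP

namespace NVB_

/-- The Euclidean norm. -/
def el {ι : Type} [Fintype ι] (x : ι → ℝ≥0∞) : ℝ≥0∞ := (∑ r, (x r) ^ 2) ^ (1 / 2 : ℝ)

variable {ι : Type} [Fintype ι]

theorem el_rpow (x : ι → ℝ≥0∞) : el x = (∑ r, (x r) ^ (2 : ℝ)) ^ (1 / 2 : ℝ) := by
  unfold el
  simp only [ENNReal.rpow_two]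

theorem sq_rt (x : ℝ≥0∞) : (x ^ 2) ^ (1 / 2 : ℝ) = x := by
  rw [← ENNReal.rpow_two, ← ENNReal.rpow_mul]
  norm_num

theorem el_mono {x y : ι → ℝ≥0∞} (h : ∀ r, x r ≤ y r) : el x ≤ el y := by
  unfold el
  exact ENNReal.rpow_le_rpow (Finset.sum_le_sum fun r _ => pow_le_pow_left' (h r) 2) (by norm_num)

theorem el_add (x y : ι → ℝ≥0∞) : el (fun r => x r + y r) ≤ el x + el y := by
  rw [el_rpow, el_rpow, el_rpow]
  have h := ENNReal.Lp_add_le (s := Finset.univ) x y (p := 2) (by norm_num)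
  exact h

theorem single_le (x : ι → ℝ≥0∞) (r : ι) : x r ≤ el x := by
  rw [← sq_rt (x r)]
  unfold el
  exact ENNReal.rpow_le_rpow
    (Finset.single_le_sum (f := fun r => (x r) ^ 2) (fun _ _ => zero_le) (Finset.mem_univ r))
    (by norm_num)

theorem el_le_sum (x : ι → ℝ≥0∞) : el x ≤ ∑ r, x r := by
  rw [← sq_rt (∑ r, x r)]
  unfold el
  refine ENNReal.rpow_le_rpow ?_ (by norm_num)
  rw [sq, Finset.sum_mul]
  refine Finset.sum_le_sum fun r _ => ?_
  rw [sq]
  exact mul_le_mul_right (Finset.single_le_sum (fun _ _ => zero_le) (Finset.mem_univ r)) _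

theorem el_mul (x : ι → ℝ≥0∞) (c : ℝ≥0∞) : el (fun r => c * x r) = c * el x := by
  unfold el
  simp only [mul_pow]
  rw [← Finset.mul_sum, ENNReal.mul_rpow_of_nonneg _ _ (by norm_num), sq_rt]

theorem el_inner (x y : ι → ℝ≥0∞) : ∑ r, x r * y r ≤ el x * el y := by
  rw [el_rpow, el_rpow]
  exact ENNReal.inner_le_Lp_mul_Lq (s := Finset.univ) x y Real.HolderConjugate.two_two

theorem NV_eq (u : ι → Fam) : NV u = ⨆ l, el (fun r => N l (u r)) := rfl

theorem le_NV (u : ι → Fam) (l : ℤ) : el (fun r => N l (u r)) ≤ NV u := by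
  rw [NV_eq]
  exact le_iSup (fun l => el (fun r => N l (u r))) l

theorem N_add (l : ℤ) (a b : Fam) : N l (fun t y => a t y + b t y) ≤ N l a + N l b := by
  unfold N
  rw [← ENNReal.tsum_add]
  refine ENNReal.tsum_le_tsum fun t => ?_
  refine iSup₂_le fun y hy => ?_
  have he : 0 ≤ Real.exp (|t| * ‖y‖ / 2) := (Real.exp_pos _).le
  have h1 : ‖a t y + b t y‖ * Real.exp (|t| * ‖y‖ / 2) ≤
      ‖a t y‖ * Real.exp (|t| * ‖y‖ / 2) + ‖b t y‖ * Real.exp (|t| * ‖y‖ / 2) := by
    rw [← add_mul]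
    exact mul_le_mul_of_nonneg_right (norm_add_le _ _) he
  refine (ENNReal.ofReal_le_ofReal h1).trans ?_
  rw [ENNReal.ofReal_add (mul_nonneg (norm_nonneg _) he) (mul_nonneg (norm_nonneg _) he)]
  exact add_le_add
    (le_iSup₂ (f := fun y (_ : y ∈ W l) =>
      ENNReal.ofReal (‖a t y‖ * Real.exp (|t| * ‖y‖ / 2))) y hy)
    (le_iSup₂ (f := fun y (_ : y ∈ W l) =>
      ENNReal.ofReal (‖b t y‖ * Real.exp (|t| * ‖y‖ / 2))) y hy)

end NVB_

open NVB_

theorem p_NVB : T_NVB := by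
  intro ι _
  refine ⟨?_, ?_, ?_, ?_, ?_⟩
  · intro u v
    rw [NV_eq]
    refine iSup_le fun l => ?_
    refine (el_mono fun r => N_add l (u r) (v r)).trans ?_
    exact (el_add _ _).trans (add_le_add (le_NV u l) (le_NV v l))
  · intro u r
    unfold NN
    refine iSup_le fun l => ?_
    exact (single_le (fun r => N l (u r)) r).trans (le_NV u l)
  · intro u
    rw [NV_eq]
    refine iSup_le fun l => ?_
    refine (el_le_sum _).trans ?_
    exact Finset.sum_le_sum fun r _ => le_iSup (fun l => N l (u r)) l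
  · intro u w c h
    rw [NV_eq]
    refine iSup_le fun l => ?_
    refine (el_mono fun r => h l r).trans ?_
    rw [el_mul]
    exact mul_le_mul_right (le_NV u l) _
  · intro u v g h
    unfold NN
    refine iSup_le fun l => ?_
    refine (h l).trans ((el_inner _ _).trans ?_)
    exact mul_le_mul' (le_NV u l) (le_NV v l)

end Pool.Agent.HSP
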