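import Pool.Agent.HSP.Targets1

set_option autoImplicit false

open scoped Classical ENNReal

noncomputable section

namespace Pool.Agent.HSP

namespace NVS_

/-- weighted Cauchy-Schwarz for finite sums -/
theorem cs_fin (s : Finset ℤ) (w x : ℤ → ℝ≥0∞) :
    (∑ n ∈ s, w n * x n) ^ 2 ≤ (∑ n ∈ s, w n) * ∑ n ∈ s, w n * (x n) ^ 2 := by
  have h := ENNReal.inner_le_weight_mul_Lp_of_nonneg s (p := 2) (by norm_num) w x
  have e1 : (1 - (2 : ℝ)⁻¹) = (1 / 2 : ℝ) := by norm_num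
  have e2 : (2 : ℝ)⁻¹ = (1 / 2 : ℝ) := by norm_num
  rw [e1, e2, ← ENNReal.mul_rpow_of_nonneg _ _ (by norm_num : (0 : ℝ) ≤ 1 / 2)] at h
  have h2 := pow_le_pow_left' h 2
  have e3 : ∀ z : ℝ≥0∞, (z ^ (1 / 2 : ℝ)) ^ 2 = z := by
    intro z
    rw [← ENNReal.rpow_natCast, ← ENNReal.rpow_mul]
    norm_num
  rw [e3] at h2
  simpa only [ENNReal.rpow_ofNat] using h2

/-- weighted Cauchy-Schwarz -/
theorem cs (w x : ℤ → ℝ≥0∞) :
    (∑' n, w n * x n) ^ 2 ≤ (∑' n, w n) * ∑' n, w n * (x n) ^ 2 := by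
  have h1 : ∀ s : Finset ℤ,
      (∑ n ∈ s, w n * x n) ^ 2 ≤ (∑' n, w n) * ∑' n, w n * (x n) ^ 2 := by
    intro s
    refine le_trans (cs_fin s w x) ?_
    exact mul_le_mul' (ENNReal.sum_le_tsum s) (ENNReal.sum_le_tsum s)
  have h2 : Filter.Tendsto (fun s : Finset ℤ => (∑ n ∈ s, w n * x n) ^ 2) Filter.atTop
      (nhds ((∑' n, w n * x n) ^ 2)) := by
    have h3 : Filter.Tendsto (fun s : Finset ℤ => ∑ n ∈ s, w n * x n) Filter.atTop
        (nhds (∑' n, w n * x n)) := ENNReal.summable.hasSum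
    exact (ENNReal.continuous_pow 2).continuousAt.tendsto.comp h3
  exact le_of_tendsto' h2 h1

theorem sum_w (C : ℝ) (hC : 0 ≤ C) :
    ∑' n : ℤ, ENNReal.ofReal (C * (2 : ℝ) ^ (-|n|)) = ENNReal.ofReal (3 * C) := by
  have h1 : HasSum (fun n : ℕ => C * (2 : ℝ) ^ (-|(n : ℤ)|)) (2 * C) := by
    have h := (hasSum_geometric_two).mul_left C
    have e : (fun n : ℕ => C * (2 : ℝ) ^ (-|(n : ℤ)|)) = fun n : ℕ => C * (1 / 2 : ℝ) ^ n := by
      funext n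
      rw [Nat.abs_cast, zpow_neg, zpow_natCast, one_div, inv_pow]
    rw [e, mul_comm 2 C]
    exact h
  have h2 : HasSum (fun n : ℕ => C * (2 : ℝ) ^ (-|(-((n : ℤ) + 1))|)) C := by
    have h := (hasSum_geometric_two).mul_left (C / 2)
    have e : (fun n : ℕ => C * (2 : ℝ) ^ (-|(-((n : ℤ) + 1))|))
        = fun n : ℕ => C / 2 * (1 / 2 : ℝ) ^ n := by
      funext n
      have h3 : |(-((n : ℤ) + 1))| = ((n + 1 : ℕ) : ℤ) := by
        rw [abs_neg]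
        push_cast
        rw [abs_of_nonneg (by positivity)]
      rw [h3, zpow_neg, zpow_natCast, pow_succ, one_div, inv_pow, mul_inv]
      ring
    rw [e]
    have e4 : C / 2 * 2 = C := by ring
    rw [e4] at h
    exact h
  have h3 : HasSum (fun n : ℤ => C * (2 : ℝ) ^ (-|n|)) (2 * C + C) :=
    HasSum.of_nat_of_neg_add_one h1 h2
  have h4 : ∀ n : ℤ, 0 ≤ C * (2 : ℝ) ^ (-|n|) := fun n => by positivity
  rw [← ENNReal.ofReal_tsum_of_nonneg h4 h3.summable, h3.tsum_eq]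
  congr 1
  ring

end NVS_

theorem p_NVS : T_NVS := by
  intro ι _ C u w hC hw
  have hsq : ∀ z : ℝ≥0∞, (z ^ (1 / 2 : ℝ)) ^ 2 = z := by
    intro z
    rw [← ENNReal.rpow_natCast, ← ENNReal.rpow_mul]
    norm_num
  have hsq2 : ∀ z : ℝ≥0∞, (z ^ 2) ^ (1 / 2 : ℝ) = z := by
    intro z
    rw [← ENNReal.rpow_natCast, ← ENNReal.rpow_mul]
    norm_num
  have hNV : ∀ l : ℤ, ∑ r, (N l (u r)) ^ 2 ≤ (NV u) ^ 2 := by
    intro l
    have h := le_iSup (fun l => (∑ r, (N l (u r)) ^ 2) ^ (1 / 2 : ℝ)) l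
    have h2 := pow_le_pow_left' h 2
    simp only [hsq] at h2
    exact h2
  refine iSup_le fun l => ?_
  have key : ∑ r, (N l (w r)) ^ 2 ≤ (ENNReal.ofReal (3 * C) * NV u) ^ 2 := by
    calc ∑ r, (N l (w r)) ^ 2
        ≤ ∑ r, (∑' n : ℤ, ENNReal.ofReal (C * (2 : ℝ) ^ (-|n|)) * N (l + n) (u r)) ^ 2 :=
          Finset.sum_le_sum fun r _ => pow_le_pow_left' (hw l r) 2
      _ ≤ ∑ r, (∑' n : ℤ, ENNReal.ofReal (C * (2 : ℝ) ^ (-|n|))) *
            ∑' n : ℤ, ENNReal.ofReal (C * (2 : ℝ) ^ (-|n|)) * (N (l + n) (u r)) ^ 2 :=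
          Finset.sum_le_sum fun r _ => NVS_.cs _ _
      _ = (∑' n : ℤ, ENNReal.ofReal (C * (2 : ℝ) ^ (-|n|))) *
            ∑' n : ℤ, ENNReal.ofReal (C * (2 : ℝ) ^ (-|n|)) * ∑ r, (N (l + n) (u r)) ^ 2 := by
          rw [← Finset.mul_sum]
          congr 1
          rw [← Summable.tsum_finsetSum (fun _ _ => ENNReal.summable)]
          simp only [Finset.mul_sum]
      _ ≤ (∑' n : ℤ, ENNReal.ofReal (C * (2 : ℝ) ^ (-|n|))) *
            ∑' n : ℤ, ENNReal.ofReal (C * (2 : ℝ) ^ (-|n|)) * (NV u) ^ 2 := by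
          refine mul_le_mul' le_rfl ?_
          exact ENNReal.tsum_le_tsum fun n => mul_le_mul' le_rfl (hNV (l + n))
      _ = (ENNReal.ofReal (3 * C) * NV u) ^ 2 := by
          rw [ENNReal.tsum_mul_right, NVS_.sum_w C hC]
          ring
  calc (∑ r, (N l (w r)) ^ 2) ^ (1 / 2 : ℝ)
      ≤ ((ENNReal.ofReal (3 * C) * NV u) ^ 2) ^ (1 / 2 : ℝ) :=
        ENNReal.rpow_le_rpow key (by norm_num)
    _ = ENNReal.ofReal (3 * C) * NV u := hsq2 _

end Pool.Agent.HSP
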