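import Pool.Agent.HSP.Targets1

set_option autoImplicit false

/-!
# HSP, target OPB: bounds of the integral operator
-/

open scoped Classical ENNReal

noncomputable section

namespace Pool.Agent.HSP

namespace OPB_

open MeasureTheory

theorem A_ge {a : Fam} {l : ℤ} {t : ℝ} {y : ℂ} (hy : y ∈ W l) :
    ENNReal.ofReal (‖a t y‖ * Real.exp (|t| * ‖y‖ / 2)) ≤ A l a t := by
  unfold A
  exact le_iSup₂ (f := fun y (_ : y ∈ W l) =>
    ENNReal.ofReal (‖a t y‖ * Real.exp (|t| * ‖y‖ / 2))) y hy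

theorem A_ne_top {a : Fam} (ha : Adm a) (l : ℤ) (t : ℝ) : A l a t ≠ ⊤ := by
  have h1 : A l a t ≤ N l a := ENNReal.le_tsum t
  have h2 : N l a ≤ NN a := le_iSup (fun l => N l a) l
  exact ((h1.trans h2).trans_lt ha.fin).ne

theorem two_pow (n : ℤ) : (2 : ℝ) ^ (-|n - 1|) ≤ 2 * (2 : ℝ) ^ (-|n|) := by
  have h : (2 : ℝ) * (2 : ℝ) ^ (-|n|) = (2 : ℝ) ^ (1 + -|n|) := by
    rw [zpow_add₀ (by norm_num), zpow_one]
  rw [h]
  apply zpow_le_zpow_right₀ (by norm_num)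
  have h2 := abs_sub_abs_le_abs_sub n 1
  rw [abs_one] at h2
  linarith

theorem sum_shift (C : ℝ) (hC : 0 ≤ C) (g : ℤ → ℝ≥0∞) :
    ∑' n : ℤ, ENNReal.ofReal (C * (2 : ℝ) ^ (-|n|)) * (g n + g (n + 1)) ≤
      ∑' n : ℤ, ENNReal.ofReal (3 * C * (2 : ℝ) ^ (-|n|)) * g n := by
  have h1 : ∑' n : ℤ, ENNReal.ofReal (C * (2 : ℝ) ^ (-|n|)) * g (n + 1) =
      ∑' n : ℤ, ENNReal.ofReal (C * (2 : ℝ) ^ (-|n - 1|)) * g n := by
    rw [← (Equiv.addRight (1 : ℤ)).tsum_eq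
      (fun n => ENNReal.ofReal (C * (2 : ℝ) ^ (-|n - 1|)) * g n)]
    simp
  simp_rw [mul_add]
  rw [ENNReal.tsum_add, h1, ← ENNReal.tsum_add]
  refine ENNReal.tsum_le_tsum fun n => ?_
  rw [← add_mul]
  gcongr
  rw [← ENNReal.ofReal_add (by positivity) (by positivity)]
  apply ENNReal.ofReal_le_ofReal
  have h3 := mul_le_mul_of_nonneg_left (two_pow n) hC
  linarith

theorem cover : Set.Ioi (0 : ℝ) ⊆ ⋃ n : ℤ, Set.Icc ((2 : ℝ) ^ n) ((2 : ℝ) ^ (n + 1)) := by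
  intro s hs
  obtain ⟨n, hn⟩ := exists_mem_Ico_zpow (Set.mem_Ioi.1 hs) (one_lt_two)
  exact Set.mem_iUnion.2 ⟨n, hn.1, hn.2.le⟩

theorem point (K : ℂ → ℝ → ℂ) (a : Fam) (t : ℝ) (y : ℂ) (w : ℝ) (hw : 0 ≤ w) (s : ℝ)
    (hs : 0 < s) :
    ENNReal.ofReal w * ‖K (|t| * y) s * a t (s * y)‖ₑ *
        ENNReal.ofReal (Real.exp (|t| * ‖y‖ / 2)) =
      ENNReal.ofReal (w * (‖K (|t| * y) s‖ * Real.exp (‖(|t| * y : ℂ)‖ * (1 - s) / 2))) *
        ENNReal.ofReal (‖a t (s * y)‖ * Real.exp (|t| * ‖(s * y : ℂ)‖ / 2)) := by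
  rw [← ofReal_norm, ← ENNReal.ofReal_mul hw, ← ENNReal.ofReal_mul (by positivity),
    ← ENNReal.ofReal_mul (by positivity)]
  congr 1
  have h1 : ‖(|t| * y : ℂ)‖ = |t| * ‖y‖ := by
    rw [norm_mul, Complex.norm_real, Real.norm_eq_abs, abs_abs]
  have h2 : ‖(s * y : ℂ)‖ = s * ‖y‖ := by
    rw [norm_mul, Complex.norm_real, Real.norm_eq_abs, abs_of_pos hs]
  have h3 : Real.exp (|t| * ‖y‖ / 2) =
      Real.exp (|t| * ‖y‖ * (1 - s) / 2) * Real.exp (|t| * (s * ‖y‖) / 2) := by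
    rw [← Real.exp_add]
    congr 1
    ring
  rw [h1, h2, norm_mul, h3]
  ring

theorem main (h_PTW : T_PTW) (K : ℂ → ℝ → ℂ) (C : ℝ) (hC : 0 ≤ C) (a : Fam) (ha : Adm a)
    (l : ℤ) (t : ℝ) (y : ℂ) (hy : y ∈ W l) (w : ℝ) (hw : 0 ≤ w)
    (hb : ∀ n : ℤ, ∫⁻ s in Set.Icc ((2 : ℝ) ^ n) ((2 : ℝ) ^ (n + 1)),
      ENNReal.ofReal (w * (‖K (|t| * y) s‖ * Real.exp (‖(|t| * y : ℂ)‖ * (1 - s) / 2))) ≤
        ENNReal.ofReal (C * (2 : ℝ) ^ (-|n|))) :
    ENNReal.ofReal (w * ‖opK K a t y‖ * Real.exp (|t| * ‖y‖ / 2)) ≤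
      ∑' n : ℤ, ENNReal.ofReal (3 * C * (2 : ℝ) ^ (-|n|)) * A (l + n) a t := by
  obtain ⟨-, -, -, -, hwin, -, -⟩ := h_PTW
  have hyS : y ∈ S := hy.1
  have e1 : opK K a t y = ∫ s in Set.Ioi (0 : ℝ), K (|t| * y) s * a t (s * y) := by
    simp [opK, hyS]
  rw [ENNReal.ofReal_mul (by positivity), ENNReal.ofReal_mul hw, ofReal_norm, e1]
  calc ENNReal.ofReal w * ‖∫ s in Set.Ioi (0 : ℝ), K (|t| * y) s * a t (s * y)‖ₑ *
        ENNReal.ofReal (Real.exp (|t| * ‖y‖ / 2))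
      ≤ ENNReal.ofReal w * (∫⁻ s in Set.Ioi (0 : ℝ), ‖K (|t| * y) s * a t (s * y)‖ₑ) *
        ENNReal.ofReal (Real.exp (|t| * ‖y‖ / 2)) := by
        gcongr
        exact enorm_integral_le_lintegral_enorm _
    _ = ∫⁻ s in Set.Ioi (0 : ℝ), ENNReal.ofReal w * ‖K (|t| * y) s * a t (s * y)‖ₑ *
        ENNReal.ofReal (Real.exp (|t| * ‖y‖ / 2)) := by
        rw [lintegral_mul_const' _ _ ENNReal.ofReal_ne_top,
          lintegral_const_mul' _ _ ENNReal.ofReal_ne_top]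
    _ ≤ ∫⁻ s in ⋃ n : ℤ, Set.Icc ((2 : ℝ) ^ n) ((2 : ℝ) ^ (n + 1)),
        ENNReal.ofReal w * ‖K (|t| * y) s * a t (s * y)‖ₑ *
          ENNReal.ofReal (Real.exp (|t| * ‖y‖ / 2)) := lintegral_mono_set cover
    _ ≤ ∑' n : ℤ, ∫⁻ s in Set.Icc ((2 : ℝ) ^ n) ((2 : ℝ) ^ (n + 1)),
        ENNReal.ofReal w * ‖K (|t| * y) s * a t (s * y)‖ₑ *
          ENNReal.ofReal (Real.exp (|t| * ‖y‖ / 2)) := lintegral_iUnion_le _ _
    _ ≤ ∑' n : ℤ, ENNReal.ofReal (C * (2 : ℝ) ^ (-|n|)) *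
        (A (l + n) a t + A (l + (n + 1)) a t) := by
        refine ENNReal.tsum_le_tsum fun n => ?_
        have hne : A (l + n) a t + A (l + (n + 1)) a t ≠ ⊤ :=
          ENNReal.add_ne_top.2 ⟨A_ne_top ha _ _, A_ne_top ha _ _⟩
        calc ∫⁻ s in Set.Icc ((2 : ℝ) ^ n) ((2 : ℝ) ^ (n + 1)),
              ENNReal.ofReal w * ‖K (|t| * y) s * a t (s * y)‖ₑ *
                ENNReal.ofReal (Real.exp (|t| * ‖y‖ / 2))
            ≤ ∫⁻ s in Set.Icc ((2 : ℝ) ^ n) ((2 : ℝ) ^ (n + 1)),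
              ENNReal.ofReal (w * (‖K (|t| * y) s‖ *
                Real.exp (‖(|t| * y : ℂ)‖ * (1 - s) / 2))) *
                (A (l + n) a t + A (l + (n + 1)) a t) := by
              refine setLIntegral_mono' measurableSet_Icc fun s hs => ?_
              have hs0 : 0 < s := lt_of_lt_of_le (by positivity) hs.1
              rw [point K a t y w hw s hs0]
              refine mul_le_mul_right ?_ _
              rcases hwin l n s y hy hs.1 hs.2 with h | h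
              · exact (A_ge h).trans le_self_add
              · rw [← add_assoc]
                exact (A_ge h).trans le_add_self
          _ = (∫⁻ s in Set.Icc ((2 : ℝ) ^ n) ((2 : ℝ) ^ (n + 1)),
              ENNReal.ofReal (w * (‖K (|t| * y) s‖ *
                Real.exp (‖(|t| * y : ℂ)‖ * (1 - s) / 2)))) *
                (A (l + n) a t + A (l + (n + 1)) a t) := lintegral_mul_const' _ _ hne
          _ ≤ _ := by
              gcongr
              exact hb n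
    _ ≤ _ := sum_shift C hC (fun n => A (l + n) a t)

end OPB_

theorem p_OPB (h_PTW : T_PTW) : T_OPB := by
  intro K C hC hK a ha l t
  have hv : ∀ y ∈ W l, (|t| * y : ℂ) = 0 ∨ (|t| * y : ℂ) ∈ S := by
    intro y hy
    rcases eq_or_ne t 0 with h | h
    · left
      simp [h]
    · right
      have h3 := h_PTW.2.2.1 y hy.1 |t| (abs_pos.2 h)
      exact h3
  constructor
  · unfold A
    refine iSup₂_le fun y hy => ?_
    have h := OPB_.main h_PTW K C hC a ha l t y hy 1 zero_le_one (fun n => by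
      have h2 := hK.bd _ (hv y hy) n
      simpa using h2)
    simpa [A] using h
  · unfold A
    refine iSup₂_le fun y hy => ?_
    have h := OPB_.main h_PTW K C hC a ha l t y hy ‖(|t| * y : ℂ)‖ (norm_nonneg _)
      (fun n => hK.bdv _ (hv y hy) n)
    have h4 : ‖((|t| : ℝ) : ℂ) * y * opK K a t y‖ = ‖(|t| * y : ℂ)‖ * ‖opK K a t y‖ :=
      norm_mul _ _
    rw [h4]
    exact h

end Pool.Agent.HSP
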