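import Pool.Agent.HSP.Targets1

set_option autoImplicit false

open Complex MeasureTheory Set Filter Topology

namespace Pool.Agent.HSP

namespace OPH_

/-- an integral of holomorphic functions with a locally uniform integrable bound is holomorphic -/
theorem diff_integral {F : ℂ → ℝ → ℂ} {U : Set ℂ} {μ : Measure ℝ} (hU : IsOpen U)
    (hmeas : ∀ d ∈ U, AEStronglyMeasurable (F d) μ)
    (hdiff : ∀ᵐ u ∂μ, DifferentiableOn ℂ (fun d => F d u) U)
    (hdom : ∀ d₀ ∈ U, ∃ r > 0, Metric.closedBall d₀ r ⊆ U ∧ ∃ g : ℝ → ℝ, Integrable g μ ∧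
      ∀ᵐ u ∂μ, ∀ d ∈ Metric.closedBall d₀ r, ‖F d u‖ ≤ g u) :
    DifferentiableOn ℂ (fun d => ∫ u, F d u ∂μ) U := by
  intro d₀ hd₀
  obtain ⟨r, hr, hball, g, hg, hb⟩ := hdom d₀ hd₀
  have hdat : ∀ᵐ u ∂μ, ∀ d ∈ Metric.closedBall d₀ r, DifferentiableAt ℂ (fun d => F d u) d := by
    filter_upwards [hdiff] with u hu d hd
    exact hu.differentiableAt (hU.mem_nhds (hball hd))
  have hd₀' : d₀ ∈ Metric.closedBall d₀ r := Metric.mem_closedBall_self hr.le
  -- measurability of the derivative
  have hmd : AEStronglyMeasurable (fun u => deriv (fun d => F d u) d₀) μ := by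
    set h : ℕ → ℂ := fun n => ((r / (n + 1) : ℝ) : ℂ) with hh
    have hne : ∀ n, h n ≠ 0 := by
      intro n
      rw [hh]
      simp only [ne_eq, ofReal_eq_zero]
      positivity
    have hlim : Tendsto h atTop (𝓝[≠] 0) := by
      rw [tendsto_nhdsWithin_iff]
      refine ⟨?_, Eventually.of_forall hne⟩
      have : Tendsto (fun n : ℕ => r / ((n : ℝ) + 1)) atTop (𝓝 0) :=
        tendsto_const_div_atTop_nhds_zero_nat r |>.comp (tendsto_add_atTop_nat 1) |>.congr
          (fun n => by simp)
      have h2 := (continuous_ofReal.tendsto (0 : ℝ)).comp this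
      simpa [hh, Function.comp_def] using h2
    refine aestronglyMeasurable_of_tendsto_ae (u := atTop)
      (f := fun (n : ℕ) (u : ℝ) => (h n)⁻¹ • (F (d₀ + h n) u - F d₀ u)) ?_ ?_
    · intro n
      have hmem : d₀ + h n ∈ Metric.closedBall d₀ r := by
        rw [Metric.mem_closedBall, dist_eq_norm, add_sub_cancel_left, hh]
        simp only [norm_real, Real.norm_eq_abs]
        rw [abs_of_pos (by positivity)]
        apply div_le_self hr.le
        have : (0 : ℝ) ≤ n := by positivity
        linarith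
      have hm1 : AEStronglyMeasurable (fun u => F (d₀ + h n) u - F d₀ u) μ :=
          (hmeas _ (hball hmem)).sub (hmeas _ hd₀)
      exact hm1.const_smul ((h n)⁻¹)
    · filter_upwards [hdat] with u hu
      have h1 := (hu d₀ hd₀').hasDerivAt
      rw [hasDerivAt_iff_tendsto_slope_zero] at h1
      exact h1.comp hlim
  have hr2 : 0 < r / 2 := by positivity
  have key := hasDerivAt_integral_of_dominated_loc_of_deriv_le
    (μ := μ) (F := F) (F' := fun d u => deriv (fun d => F d u) d)
    (x₀ := d₀) (s := Metric.ball d₀ (r / 2)) (bound := fun u => g u / (r / 2))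
    (Metric.ball_mem_nhds d₀ hr2)
    (by
      filter_upwards [Metric.ball_mem_nhds d₀ hr] with d hd
      exact hmeas d (hball (Metric.ball_subset_closedBall hd)))
    (Integrable.mono' hg (hmeas d₀ hd₀) (hb.mono fun u hu => hu d₀ hd₀'))
    hmd
    (by
      filter_upwards [hdat, hb] with u hu hbu d hd
      have hsub : Metric.closedBall d (r / 2) ⊆ Metric.closedBall d₀ r := by
        apply Metric.closedBall_subset_closedBall'
        rw [Metric.mem_ball] at hd
        linarith
      refine Complex.norm_deriv_le_of_forall_mem_sphere_norm_le hr2 ?_ ?_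
      · refine DifferentiableOn.diffContOnCl ?_
        rw [closure_ball _ hr2.ne']
        exact fun z hz => (hu z (hsub hz)).differentiableWithinAt
      · intro z hz
        exact hbu z (hsub (Metric.sphere_subset_closedBall hz)))
    (hg.div_const _)
    (by
      filter_upwards [hdat] with u hu d hd
      exact (hu d (Metric.ball_subset_closedBall
        (Metric.ball_subset_ball (by linarith) hd))).hasDerivAt)
  exact key.2.differentiableAt.differentiableWithinAt

end OPH_

open OPH_

theorem p_OPH (h_PTW : T_PTW) : T_OPH := by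
  intro K C hK a ha t
  obtain ⟨-, hS1, hS2, hSo, -, -, hpt⟩ := h_PTW
  obtain ⟨-, hbd⟩ := hpt a ha
  set M : ℝ := (NN a).toReal with hM
  have hM0 : 0 ≤ M := ENNReal.toReal_nonneg
  -- membership of the argument
  have harg : ∀ y ∈ S, ((|t| : ℝ) * y : ℂ) = 0 ∨ ((|t| : ℝ) * y : ℂ) ∈ S := by
    intro y hy
    rcases (abs_nonneg t).eq_or_lt with h | h
    · left; rw [← h]; simp
    · right; exact hS2 y hy _ h
  -- pointwise bound
  have hbound : ∀ (g : ℝ → ℝ) (R : ℝ), (∀ v, (v = 0 ∨ v ∈ S) → ‖v‖ ≤ R → ∀ s, 0 < s →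
      ‖K v s‖ * Real.exp (‖v‖ * (1 - s) / 2) ≤ g s) → ∀ y ∈ S, |t| * ‖y‖ ≤ R → ∀ s, 0 < s →
      ‖K (|t| * y) s * a t (s * y)‖ ≤ g s * M := by
    intro g R hg y hy hR s hs
    have hv : ‖((|t| : ℝ) * y : ℂ)‖ = |t| * ‖y‖ := by
      rw [norm_mul, Complex.norm_real, Real.norm_eq_abs, abs_abs]
    have h1 := hg _ (harg y hy) (by rw [hv]; exact hR) s hs
    have h2 := hbd (s * y) (hS2 y hy s hs) t
    have hsy : ‖(s * y : ℂ)‖ = s * ‖y‖ := by
      rw [norm_mul, Complex.norm_real, Real.norm_eq_abs, abs_of_pos hs]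
    rw [hsy] at h2
    rw [hv] at h1
    have hg0 : 0 ≤ g s := le_trans (by positivity) h1
    have h3 : (‖K ((|t| : ℝ) * y) s‖ * Real.exp (|t| * ‖y‖ * (1 - s) / 2)) *
        (‖a t (s * y)‖ * Real.exp (|t| * (s * ‖y‖) / 2)) ≤ g s * M :=
      mul_le_mul h1 h2 (by positivity) hg0
    have h4 : (‖K ((|t| : ℝ) * y) s‖ * Real.exp (|t| * ‖y‖ * (1 - s) / 2)) *
        (‖a t (s * y)‖ * Real.exp (|t| * (s * ‖y‖) / 2)) =
        ‖K ((|t| : ℝ) * y) s * a t (s * y)‖ * Real.exp (|t| * ‖y‖ / 2) := by
      rw [norm_mul]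
      have : Real.exp (|t| * ‖y‖ / 2) = Real.exp (|t| * ‖y‖ * (1 - s) / 2) *
          Real.exp (|t| * (s * ‖y‖) / 2) := by
        rw [← Real.exp_add]; congr 1; ring
      rw [this]; ring
    rw [h4] at h3
    refine le_trans ?_ h3
    have h5 : (1 : ℝ) ≤ Real.exp (|t| * ‖y‖ / 2) := Real.one_le_exp (by positivity)
    calc ‖K ((|t| : ℝ) * y) s * a t (s * y)‖ = ‖K ((|t| : ℝ) * y) s * a t (s * y)‖ * 1 := by ring
      _ ≤ _ := mul_le_mul_of_nonneg_left h5 (norm_nonneg _)
  -- measurability
  have hmeas : ∀ y ∈ S, AEStronglyMeasurable (fun s : ℝ => K (|t| * y) s * a t (s * y))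
      (volume.restrict (Ioi (0 : ℝ))) := by
    intro y hy
    refine AEStronglyMeasurable.mul (hK.meas _).aestronglyMeasurable ?_
    refine ContinuousOn.aestronglyMeasurable ?_ measurableSet_Ioi
    refine (ha.hol t).continuousOn.comp (by fun_prop) ?_
    intro s hs
    exact hS2 y hy s hs
  have hdiff : ∀ s : ℝ, 0 < s → DifferentiableOn ℂ (fun y => K (|t| * y) s * a t (s * y)) S := by
    intro s hs
    refine DifferentiableOn.mul ?_ ?_
    · exact ((hK.hol s hs).comp (by fun_prop : Differentiable ℂ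
        (fun y : ℂ => ((|t| : ℝ) : ℂ) * y))).differentiableOn
    · exact (ha.hol t).comp (by fun_prop) (fun y hy => hS2 y hy s hs)
  constructor
  · have key : DifferentiableOn ℂ (fun y => ∫ s in Ioi (0 : ℝ), K (|t| * y) s * a t (s * y)) S := by
      refine diff_integral (F := fun y s => K (|t| * y) s * a t (s * y)) hSo hmeas ?_ ?_
      · refine (ae_restrict_iff' measurableSet_Ioi).2 (Eventually.of_forall fun s hs => ?_)
        exact hdiff s hs
      · intro y₀ hy₀
        obtain ⟨r, hr, hball⟩ := Metric.isOpen_iff.1 hSo y₀ hy₀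
        obtain ⟨g, hg1, hg2⟩ := hK.dom (|t| * (‖y₀‖ + r / 2))
        refine ⟨r / 2, by positivity, ?_, fun s => g s * M, ?_, ?_⟩
        · exact (Metric.closedBall_subset_ball (by linarith)).trans hball
        · exact hg1.mul_const M
        · refine (ae_restrict_iff' measurableSet_Ioi).2 (Eventually.of_forall fun s hs => ?_)
          intro y hy
          have hyS : y ∈ S := hball (Metric.closedBall_subset_ball (by linarith) hy)
          refine hbound g _ hg2 y hyS ?_ s hs
          refine mul_le_mul_of_nonneg_left ?_ (abs_nonneg t)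
          rw [Metric.mem_closedBall, dist_eq_norm] at hy
          have := norm_sub_norm_le y y₀
          linarith
    refine key.congr ?_
    intro y hy
    simp only [opK, if_pos hy]
  · intro y hy
    obtain ⟨g, hg1, hg2⟩ := hK.dom (|t| * ‖y‖)
    refine Integrable.mono' (hg1.mul_const M) (hmeas y hy) ?_
    refine (ae_restrict_iff' measurableSet_Ioi).2 (Eventually.of_forall fun s hs => ?_)
    exact hbound g _ hg2 y hy le_rfl s hs

end Pool.Agent.HSP
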