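import Pool.Agent.HSP.Targets1

set_option autoImplicit false

/-!
# HSP: linearity of the operators (target OPL)
-/

open scoped Classical ENNReal

noncomputable section

namespace Pool.Agent.HSP

namespace OPL_

/-- linearity of an operator with a good kernel -/
theorem opK_lin (hOPH : T_OPH) {K : ℂ → ℝ → ℂ} {C : ℝ} (hK : GK K C) {a b : Fam} (ha : Adm a)
    (hb : Adm b) (c : ℂ) (t : ℝ) (y : ℂ) :
    opK K (fun t y => a t y + c * b t y) t y = opK K a t y + c * opK K b t y := by
  by_cases hy : y ∈ S
  · have h1 := (hOPH K C hK a ha t).2 y hy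
    have h2 := (hOPH K C hK b hb t).2 y hy
    have e1 : opK K (fun t y => a t y + c * b t y) t y =
        ∫ s in Set.Ioi (0 : ℝ), (K (|t| * y) s * a t (s * y) + c * (K (|t| * y) s * b t (s * y))) := by
      unfold opK
      rw [if_pos hy]
      refine MeasureTheory.integral_congr_ae (Filter.Eventually.of_forall fun s => ?_)
      simp only
      ring
    have e2 : opK K a t y = ∫ s in Set.Ioi (0 : ℝ), K (|t| * y) s * a t (s * y) := by
      unfold opK
      rw [if_pos hy]
    have e3 : opK K b t y = ∫ s in Set.Ioi (0 : ℝ), K (|t| * y) s * b t (s * y) := by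
      unfold opK
      rw [if_pos hy]
    rw [e1, e2, e3, MeasureTheory.integral_add h1 (h2.const_mul c),
      MeasureTheory.integral_const_mul]
  · unfold opK
    simp [hy]

end OPL_

theorem p_OPL (h_KI : T_KI) (h_KZ : T_KZ) (h_KP : T_KP) (h_OPH : T_OPH) (h_OPS : T_OPS) :
    T_OPL := by
  obtain ⟨C1, -, hKI⟩ := h_KI
  obtain ⟨C2, -, hKZ⟩ := h_KZ
  obtain ⟨C3, -, hKP⟩ := h_KP
  obtain ⟨C4, -, hOPS⟩ := h_OPS
  intro a b ha hb c
  have hT1 : T1 (fun t y => a t y + c * b t y) = (fun t y => T1 a t y + c * T1 b t y) := by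
    funext t y
    unfold T1
    split_ifs with ht
    · rw [OPL_.opK_lin h_OPH hKI ha hb]
      ring
    · rw [OPL_.opK_lin h_OPH hKP ha hb]
      ring
  have hkap : kap (fun t y => a t y + c * b t y) = (fun t y => kap a t y + c * kap b t y) := by
    funext t y
    unfold kap
    split_ifs
    · ring
    · ring
    · ring
  have ka : Adm (kap a) := (hOPS a ha).2.2.1
  have kb : Adm (kap b) := (hOPS b hb).2.2.1
  have hBq : Bq (fun t y => a t y + c * b t y) = (fun t y => Bq a t y + c * Bq b t y) := by
    funext t y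
    unfold Bq
    rw [hkap, OPL_.opK_lin h_OPH hKZ ka kb]
    ring
  refine ⟨hT1, ?_, hkap, hBq, ?_⟩
  · funext t y
    unfold T2
    rw [hT1]
    ring
  · funext t y
    unfold Mq
    rw [hBq, hkap]
    ring

end Pool.Agent.HSP
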