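import Pool.Agent.HSP.Targets1

set_option autoImplicit false

/-!
# HSP, OPS: the five operators
-/

open scoped Classical ENNReal

noncomputable section

namespace Pool.Agent.HSP

namespace OPS_

/-- the majorant -/
def SS (c : ℝ) (l : ℤ) (a : Fam) (t : ℝ) : ℝ≥0∞ :=
  ∑' n : ℤ, ENNReal.ofReal (c * (2 : ℝ) ^ (-|n|)) * A (l + n) a t

theorem A_le {l : ℤ} {a b : Fam} {t c : ℝ} (hc : 0 ≤ c)
    (h : ∀ y ∈ W l, ‖a t y‖ ≤ c * ‖b t y‖) : A l a t ≤ ENNReal.ofReal c * A l b t := by
  refine iSup₂_le fun y hy => ?_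
  have h1 : ‖a t y‖ * Real.exp (|t| * ‖y‖ / 2) ≤ c * (‖b t y‖ * Real.exp (|t| * ‖y‖ / 2)) := by
    rw [← mul_assoc]
    exact mul_le_mul_of_nonneg_right (h y hy) (Real.exp_pos _).le
  refine (ENNReal.ofReal_le_ofReal h1).trans ?_
  rw [ENNReal.ofReal_mul hc]
  gcongr
  exact le_iSup₂ (f := fun y (_ : y ∈ W l) =>
    ENNReal.ofReal (‖b t y‖ * Real.exp (|t| * ‖y‖ / 2))) y hy

theorem A_add {l : ℤ} {a b c : Fam} {t : ℝ}
    (h : ∀ y ∈ W l, ‖a t y‖ ≤ ‖b t y‖ + ‖c t y‖) : A l a t ≤ A l b t + A l c t := by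
  refine iSup₂_le fun y hy => ?_
  have h1 : ‖a t y‖ * Real.exp (|t| * ‖y‖ / 2) ≤ ‖b t y‖ * Real.exp (|t| * ‖y‖ / 2) +
      ‖c t y‖ * Real.exp (|t| * ‖y‖ / 2) := by
    rw [← add_mul]
    exact mul_le_mul_of_nonneg_right (h y hy) (Real.exp_pos _).le
  refine (ENNReal.ofReal_le_ofReal h1).trans ?_
  rw [ENNReal.ofReal_add (by positivity) (by positivity)]
  refine add_le_add ?_ ?_
  · exact le_iSup₂ (f := fun y (_ : y ∈ W l) =>
      ENNReal.ofReal (‖b t y‖ * Real.exp (|t| * ‖y‖ / 2))) y hy
  · exact le_iSup₂ (f := fun y (_ : y ∈ W l) =>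
      ENNReal.ofReal (‖c t y‖ * Real.exp (|t| * ‖y‖ / 2))) y hy

theorem SS_mul {k c : ℝ} (hk : 0 ≤ k) (l : ℤ) (a : Fam) (t : ℝ) :
    ENNReal.ofReal k * SS c l a t = SS (k * c) l a t := by
  unfold SS
  rw [← ENNReal.tsum_mul_left]
  refine tsum_congr fun n => ?_
  rw [mul_assoc k c, ENNReal.ofReal_mul hk, mul_assoc]

theorem SS_add {c c' : ℝ} (hc : 0 ≤ c) (hc' : 0 ≤ c') (l : ℤ) (a : Fam) (t : ℝ) :
    SS c l a t + SS c' l a t = SS (c + c') l a t := by
  unfold SS
  rw [← ENNReal.tsum_add]
  refine tsum_congr fun n => ?_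
  rw [add_mul c c', ENNReal.ofReal_add (by positivity) (by positivity), add_mul]

theorem SS_mono {c c' : ℝ} (h : c ≤ c') (l : ℤ) (a : Fam) (t : ℝ) :
    SS c l a t ≤ SS c' l a t := by
  refine ENNReal.tsum_le_tsum fun n => ?_
  gcongr

theorem SS_one (l : ℤ) (a : Fam) (t : ℝ) : A l a t ≤ SS 1 l a t := by
  have h := ENNReal.le_tsum (f := fun n : ℤ =>
    ENNReal.ofReal (1 * (2 : ℝ) ^ (-|n|)) * A (l + n) a t) 0
  refine le_trans (le_of_eq ?_) h
  simp

theorem SS_le {c : ℝ} {l : ℤ} {a b : Fam} {t : ℝ} (h : ∀ l, A l a t ≤ A l b t) :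
    SS c l a t ≤ SS c l b t := by
  refine ENNReal.tsum_le_tsum fun n => ?_
  gcongr
  exact h _

theorem N_le {c : ℝ} {l : ℤ} {a b : Fam} (h : ∀ t, A l b t ≤ SS c l a t) :
    N l b ≤ ∑' n : ℤ, ENNReal.ofReal (c * (2 : ℝ) ^ (-|n|)) * N (l + n) a := by
  have h1 : N l b ≤ ∑' t, SS c l a t := ENNReal.tsum_le_tsum h
  refine h1.trans (le_of_eq ?_)
  unfold SS
  rw [ENNReal.tsum_comm]
  refine tsum_congr fun n => ?_
  rw [ENNReal.tsum_mul_left]
  rfl

theorem summ : Summable (fun n : ℤ => (2 : ℝ) ^ (-|n|)) := by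
  have h : Summable (fun n : ℕ => (1 / 2 : ℝ) ^ n) := summable_geometric_two
  refine Summable.of_nat_of_neg ?_ ?_
  · refine h.congr fun n => ?_
    rw [Nat.abs_cast, zpow_neg, zpow_natCast, one_div, inv_pow]
  · refine h.congr fun n => ?_
    rw [abs_neg, Nat.abs_cast, zpow_neg, zpow_natCast, one_div, inv_pow]

theorem NN_fin {c : ℝ} {a b : Fam} (ha : NN a < ⊤)
    (h : ∀ l, N l b ≤ ∑' n : ℤ, ENNReal.ofReal (c * (2 : ℝ) ^ (-|n|)) * N (l + n) a) :
    NN b < ⊤ := by
  have h1 : NN b ≤ (∑' n : ℤ, ENNReal.ofReal (c * (2 : ℝ) ^ (-|n|))) * NN a := by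
    refine iSup_le fun l => (h l).trans ?_
    rw [← ENNReal.tsum_mul_right]
    refine ENNReal.tsum_le_tsum fun n => ?_
    gcongr
    exact le_iSup (fun l => N l a) (l + n)
  refine h1.trans_lt (ENNReal.mul_lt_top ?_ ha)
  exact (summ.mul_left c).tsum_ofReal_lt_top

end OPS_

open OPS_ in
theorem p_OPS (h_KI : T_KI) (h_KZ : T_KZ) (h_KP : T_KP) (h_OPH : T_OPH) (h_OPB : T_OPB) :
    T_OPS := by
  obtain ⟨C1, hC1, g1⟩ := h_KI
  obtain ⟨C2, hC2, g2⟩ := h_KZ
  obtain ⟨C3, hC3, g3⟩ := h_KP
  obtain ⟨C, hC⟩ : ∃ C : ℝ, C = 6 * (C1 + C2 + C3) + 2 := ⟨_, rfl⟩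
  refine ⟨C, by rw [hC]; linarith, fun a ha => ?_⟩
  have hWS : ∀ l : ℤ, ∀ y ∈ W l, y ∈ S := fun l y hy => hy.1
  -- the first operator
  have hT : ∀ l t, A l (T1 a) t ≤ SS C l a t ∧
      A l (fun t y => Complex.I * t * y * T1 a t y) t ≤ SS (6 * (C1 + C3)) l a t := by
    intro l t
    by_cases ht : 0 ≤ t
    · obtain ⟨b1, b2⟩ := h_OPB Ki C1 hC1.le g1 a ha l t
      constructor
      · have h1 : A l (T1 a) t ≤ ENNReal.ofReal 2 * A l (opK Ki a) t := by
          refine A_le (by norm_num) fun y _ => ?_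
          simp only [T1, if_pos ht, norm_neg, norm_mul, Complex.norm_I]
          norm_num
        refine h1.trans ?_
        refine (mul_le_mul_right b1 _).trans ?_
        change ENNReal.ofReal 2 * SS (3 * C1) l a t ≤ _
        rw [SS_mul (by norm_num)]
        exact SS_mono (by rw [hC]; linarith) l a t
      · have h1 : A l (fun t y => Complex.I * t * y * T1 a t y) t ≤
            ENNReal.ofReal 2 * A l (fun t y => |t| * y * opK Ki a t y) t := by
          refine A_le (by norm_num) fun y _ => ?_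
          simp only [T1, if_pos ht, norm_neg, norm_mul, Complex.norm_I, Complex.norm_real,
            Real.norm_eq_abs, abs_abs]
          norm_num
          apply le_of_eq
          ring
        refine h1.trans ?_
        refine (mul_le_mul_right b2 _).trans ?_
        change ENNReal.ofReal 2 * SS (3 * C1) l a t ≤ _
        rw [SS_mul (by norm_num)]
        exact SS_mono (by linarith) l a t
    · obtain ⟨b1, b2⟩ := h_OPB Kp C3 hC3.le g3 a ha l t
      constructor
      · have h1 : A l (T1 a) t ≤ ENNReal.ofReal 2 * A l (opK Kp a) t := by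
          refine A_le (by norm_num) fun y _ => ?_
          simp only [T1, if_neg ht, norm_mul, Complex.norm_I]
          norm_num
        refine h1.trans ?_
        refine (mul_le_mul_right b1 _).trans ?_
        change ENNReal.ofReal 2 * SS (3 * C3) l a t ≤ _
        rw [SS_mul (by norm_num)]
        exact SS_mono (by rw [hC]; linarith) l a t
      · have h1 : A l (fun t y => Complex.I * t * y * T1 a t y) t ≤
            ENNReal.ofReal 2 * A l (fun t y => |t| * y * opK Kp a t y) t := by
          refine A_le (by norm_num) fun y _ => ?_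
          simp only [T1, if_neg ht, norm_mul, Complex.norm_I, Complex.norm_real,
            Real.norm_eq_abs, abs_abs]
          norm_num
          apply le_of_eq
          ring
        refine h1.trans ?_
        refine (mul_le_mul_right b2 _).trans ?_
        change ENNReal.ofReal 2 * SS (3 * C3) l a t ≤ _
        rw [SS_mul (by norm_num)]
        exact SS_mono (by linarith) l a t
  have hT2 : ∀ l t, A l (T2 a) t ≤ SS C l a t := by
    intro l t
    have h1 : A l (T2 a) t ≤ A l (fun t y => Complex.I * t * y * T1 a t y) t + A l a t :=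
      A_add fun y _ => norm_sub_le _ _
    refine h1.trans ?_
    refine (add_le_add (hT l t).2 (SS_one l a t)).trans ?_
    rw [SS_add (by linarith) (by norm_num)]
    exact SS_mono (by rw [hC]; linarith) l a t
  -- the negative modes
  have hk : ∀ l t, A l (kap a) t ≤ A l a t := by
    intro l t
    have h1 : A l (kap a) t ≤ ENNReal.ofReal 1 * A l a t := by
      refine A_le (by norm_num) fun y _ => ?_
      simp only [kap]
      split_ifs
      · simp
      · rw [norm_div]
        norm_num
      · simp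
    simpa using h1
  have hkC : ∀ l t, A l (kap a) t ≤ SS C l a t := fun l t =>
    ((hk l t).trans (SS_one l a t)).trans (SS_mono (by rw [hC]; linarith) l a t)
  have hkad : Adm (kap a) := by
    refine ⟨fun t => ?_, fun t y hy => ?_, NN_fin ha.fin fun l => N_le (hkC l)⟩
    · by_cases h1 : t < 0
      · have : kap a t = a t := by
          funext y
          simp [kap, h1]
        rw [this]
        exact ha.hol t
      · by_cases h2 : t = 0
        · have : kap a t = fun y => a t y / 2 := by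
            funext y
            simp [kap, h2]
          rw [this]
          exact (ha.hol t).div_const 2
        · have : kap a t = fun y => 0 := by
            funext y
            simp [kap, h1, h2]
          rw [this]
          exact differentiableOn_const 0
    · simp [kap, ha.off t y hy]
  -- the operator `Bq`
  have hB : ∀ l t, A l (Bq a) t ≤ SS C l a t ∧
      A l (fun t y => Complex.I * t * y * Bq a t y) t ≤ SS (6 * C2) l a t := by
    intro l t
    obtain ⟨b1, b2⟩ := h_OPB K0 C2 hC2.le g2 (kap a) hkad l t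
    constructor
    · have h1 : A l (Bq a) t ≤ ENNReal.ofReal 2 * A l (opK K0 (kap a)) t := by
        refine A_le (by norm_num) fun y _ => ?_
        simp only [Bq, norm_mul, Complex.norm_I]
        norm_num
      refine h1.trans ?_
      refine (mul_le_mul_right b1 _).trans ?_
      change ENNReal.ofReal 2 * SS (3 * C2) l (kap a) t ≤ _
      rw [SS_mul (by norm_num)]
      exact (SS_le (hk · t)).trans (SS_mono (by rw [hC]; linarith) l a t)
    · have h1 : A l (fun t y => Complex.I * t * y * Bq a t y) t ≤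
          ENNReal.ofReal 2 * A l (fun t y => |t| * y * opK K0 (kap a) t y) t := by
        refine A_le (by norm_num) fun y _ => ?_
        simp only [Bq, norm_mul, Complex.norm_I, Complex.norm_real, Real.norm_eq_abs, abs_abs]
        norm_num
        apply le_of_eq
        ring
      refine h1.trans ?_
      refine (mul_le_mul_right b2 _).trans ?_
      change ENNReal.ofReal 2 * SS (3 * C2) l (kap a) t ≤ _
      rw [SS_mul (by norm_num)]
      exact (SS_le (hk · t)).trans (SS_mono (by linarith) l a t)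
  have hM : ∀ l t, A l (Mq a) t ≤ SS C l a t := by
    intro l t
    have h1 : A l (Mq a) t ≤ A l (fun t y => Complex.I * t * y * Bq a t y) t +
        A l (kap a) t := A_add fun y _ => norm_sub_le _ _
    refine h1.trans ?_
    refine (add_le_add (hB l t).2 ((hk l t).trans (SS_one l a t))).trans ?_
    rw [SS_add (by linarith) (by norm_num)]
    exact SS_mono (by rw [hC]; linarith) l a t
  -- holomorphy
  have hT1h : ∀ t, DifferentiableOn ℂ (T1 a t) S := by
    intro t
    by_cases ht : 0 ≤ t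
    · have : T1 a t = fun y => -(2 * Complex.I * opK Ki a t y) := by
        funext y
        simp [T1, ht]
      rw [this]
      exact ((h_OPH Ki C1 g1 a ha t).1.const_mul _).neg
    · have : T1 a t = fun y => 2 * Complex.I * opK Kp a t y := by
        funext y
        simp only [T1, if_neg ht]
      rw [this]
      exact (h_OPH Kp C3 g3 a ha t).1.const_mul _
  have hT1o : ∀ t, ∀ y ∉ S, T1 a t y = 0 := by
    intro t y hy
    simp [T1, opK, hy]
  have hBh : ∀ t, DifferentiableOn ℂ (Bq a t) S := fun t =>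
    (h_OPH K0 C2 g2 (kap a) hkad t).1.const_mul _
  have hBo : ∀ t, ∀ y ∉ S, Bq a t y = 0 := by
    intro t y hy
    simp [Bq, opK, hy]
  refine ⟨⟨hT1h, hT1o, NN_fin ha.fin fun l => N_le fun t => (hT l t).1⟩,
    ⟨fun t => ?_, fun t y hy => ?_, NN_fin ha.fin fun l => N_le fun t => hT2 l t⟩, hkad,
    ⟨hBh, hBo, NN_fin ha.fin fun l => N_le fun t => (hB l t).1⟩,
    ⟨fun t => ?_, fun t y hy => ?_, NN_fin ha.fin fun l => N_le fun t => hM l t⟩, fun l =>
    ⟨N_le fun t => (hT l t).1, N_le fun t => hT2 l t, N_le fun t => hkC l t,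
      N_le fun t => (hB l t).1, N_le fun t => hM l t⟩⟩
  · have h1 : DifferentiableOn ℂ (fun y : ℂ => Complex.I * (t : ℂ) * y) S := by fun_prop
    exact (h1.mul (hT1h t)).sub (ha.hol t)
  · simp [T2, hT1o t y hy, ha.off t y hy]
  · have h1 : DifferentiableOn ℂ (fun y : ℂ => Complex.I * (t : ℂ) * y) S := by fun_prop
    exact (h1.mul (hBh t)).sub (hkad.hol t)
  · simp [Mq, hBo t y hy, hkad.off t y hy]

end Pool.Agent.HSP
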