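import Pool.Agent.HSP.Targets1

set_option autoImplicit false

/-!
# HSP: pointwise bounds, windows (target T_PTW)
-/

open scoped Classical ENNReal

noncomputable section

namespace Pool.Agent.HSP

lemma PTW_re_pos {y : ℂ} (hy : y ∈ S) : 0 < y.re := by
  have h : |y.im| < y.re / 4 := hy
  have h0 := abs_nonneg y.im
  linarith

lemma PTW_norm_pos {y : ℂ} (hy : y ∈ S) : 0 < ‖y‖ :=
  lt_of_lt_of_le (PTW_re_pos hy) (Complex.re_le_norm y)

lemma PTW_window : ∀ y ∈ S, ∃ l, y ∈ W l := by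
  intro y hy
  obtain ⟨n, hn⟩ := exists_mem_Ico_zpow (PTW_norm_pos hy) (by norm_num : (1 : ℝ) < 2)
  exact ⟨n, hy, hn.1, hn.2.le⟩

lemma PTW_smul {y : ℂ} (hy : y ∈ S) {s : ℝ} (hs : 0 < s) : (s * y : ℂ) ∈ S := by
  have h : |y.im| < y.re / 4 := hy
  change |((s : ℂ) * y).im| < ((s : ℂ) * y).re / 4
  rw [Complex.im_ofReal_mul, Complex.re_ofReal_mul, abs_mul, abs_of_pos hs]
  nlinarith [mul_lt_mul_of_pos_left h hs]

lemma PTW_nine {y : ℂ} (hy : y ∈ S) : (9 / 10 : ℝ) * ‖y‖ ≤ y.re := by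
  have h : |y.im| < y.re / 4 := hy
  have hr := PTW_re_pos hy
  have h1 : ‖y‖ ^ 2 = y.re ^ 2 + y.im ^ 2 := by
    rw [Complex.sq_norm, Complex.normSq_apply]
    ring
  have h2 : y.im ^ 2 ≤ (y.re / 4) ^ 2 := by
    rw [← sq_abs y.im]
    exact pow_le_pow_left₀ (abs_nonneg _) h.le 2
  have h3 : ((9 / 10 : ℝ) * ‖y‖) ^ 2 ≤ y.re ^ 2 := by
    rw [mul_pow, h1]
    nlinarith [sq_nonneg y.re]
  exact le_of_sq_le_sq h3 hr.le

lemma PTW_open : IsOpen S := by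
  have h1 : Continuous fun y : ℂ => |y.im| := Complex.continuous_im.abs
  have h2 : Continuous fun y : ℂ => y.re / 4 := Complex.continuous_re.div_const 4
  exact isOpen_lt h1 h2

lemma PTW_scale (l n : ℤ) (s : ℝ) (y : ℂ) (hy : y ∈ W l) (h1 : (2 : ℝ) ^ n ≤ s)
    (h2 : s ≤ (2 : ℝ) ^ (n + 1)) : (s * y : ℂ) ∈ W (l + n) ∨ (s * y : ℂ) ∈ W (l + n + 1) := by
  obtain ⟨hS, ha, hb⟩ := hy
  have hp : (0 : ℝ) < (2 : ℝ) ^ n := zpow_pos (by norm_num) n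
  have hs : 0 < s := lt_of_lt_of_le hp h1
  have hSS := PTW_smul hS hs
  have hn : ‖((s : ℂ) * y)‖ = s * ‖y‖ := by
    rw [norm_mul, Complex.norm_real, Real.norm_eq_abs, abs_of_pos hs]
  have h3 : (2 : ℝ) ^ (l + n) ≤ s * ‖y‖ := by
    rw [zpow_add₀ (by norm_num : (2 : ℝ) ≠ 0), mul_comm]
    exact mul_le_mul h1 ha (zpow_pos (by norm_num) l).le hs.le
  have h4 : s * ‖y‖ ≤ (2 : ℝ) ^ (l + n + 1 + 1) := by
    have h5 : l + n + 1 + 1 = (n + 1) + (l + 1) := by ring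
    rw [h5, zpow_add₀ (by norm_num : (2 : ℝ) ≠ 0)]
    exact mul_le_mul h2 hb (norm_nonneg _) (zpow_pos (by norm_num) (n + 1)).le
  rcases le_total (s * ‖y‖) ((2 : ℝ) ^ (l + n + 1)) with h | h
  · left
    exact ⟨hSS, by rw [hn]; exact h3, by rw [hn]; exact h⟩
  · right
    exact ⟨hSS, by rw [hn]; exact h, by rw [hn]; exact h4⟩

lemma PTW_real (l : ℤ) : ((2 : ℝ) ^ l : ℂ) ∈ W l := by
  have h0 : ((2 : ℝ) ^ l : ℂ) = (((2 : ℝ) ^ l : ℝ) : ℂ) := by push_cast; rfl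
  rw [h0]
  have hp : (0 : ℝ) < (2 : ℝ) ^ l := zpow_pos (by norm_num) l
  have hn : ‖((((2 : ℝ) ^ l : ℝ)) : ℂ)‖ = (2 : ℝ) ^ l := by
    rw [Complex.norm_real, Real.norm_eq_abs, abs_of_pos hp]
  refine ⟨?_, by rw [hn], ?_⟩
  · change |((((2 : ℝ) ^ l : ℝ)) : ℂ).im| < ((((2 : ℝ) ^ l : ℝ)) : ℂ).re / 4
    rw [Complex.ofReal_im, Complex.ofReal_re, abs_zero]
    positivity
  · rw [hn]
    exact zpow_le_zpow_right₀ (by norm_num) (by omega)

lemma PTW_tsum (a : Fam) (y : ℂ) (hy : y ∈ S) :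
    ∑' t, ENNReal.ofReal (‖a t y‖ * Real.exp (|t| * ‖y‖ / 2)) ≤ NN a := by
  obtain ⟨l, hl⟩ := PTW_window y hy
  have h1 : ∀ t, ENNReal.ofReal (‖a t y‖ * Real.exp (|t| * ‖y‖ / 2)) ≤ A l a t := by
    intro t
    exact le_iSup₂ (f := fun y (_ : y ∈ W l) =>
      ENNReal.ofReal (‖a t y‖ * Real.exp (|t| * ‖y‖ / 2))) y hl
  have h2 : ∑' t, ENNReal.ofReal (‖a t y‖ * Real.exp (|t| * ‖y‖ / 2)) ≤ N l a :=
    ENNReal.tsum_le_tsum h1
  exact h2.trans (le_iSup (fun l => N l a) l)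

lemma PTW_summable (a : Fam) (ha : Adm a) (y : ℂ) (hy : y ∈ S) :
    Summable (fun t => ‖a t y‖ * Real.exp (|t| * ‖y‖ / 2)) := by
  have h1 : ∑' t, ENNReal.ofReal (‖a t y‖ * Real.exp (|t| * ‖y‖ / 2)) ≠ ⊤ :=
    ne_top_of_le_ne_top ha.fin.ne (PTW_tsum a y hy)
  have h2 := ENNReal.summable_toReal h1
  refine h2.congr ?_
  intro t
  exact ENNReal.toReal_ofReal (by positivity)

theorem p_PTW : T_PTW := by
  refine ⟨PTW_window, ?_, ?_, PTW_open, PTW_scale, PTW_real, ?_⟩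
  · intro y hy
    refine ⟨PTW_re_pos hy, PTW_nine hy, ?_⟩
    have h : |y.im| < y.re / 4 := hy
    change |((starRingEnd ℂ) y).im| < ((starRingEnd ℂ) y).re / 4
    rw [Complex.conj_im, Complex.conj_re, abs_neg]
    exact h
  · intro y hy s hs
    exact PTW_smul hy hs
  · intro a ha
    refine ⟨?_, ?_⟩
    · intro y hy
      have hs := PTW_summable a ha y hy
      refine ⟨PTW_tsum a y hy, ?_, hs⟩
      refine Summable.of_nonneg_of_le (fun t => norm_nonneg _) ?_ hs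
      intro t
      have h1 : 1 ≤ Real.exp (|t| * ‖y‖ / 2) := Real.one_le_exp (by positivity)
      nlinarith [norm_nonneg (a t y)]
    · intro y hy t
      have h1 : ENNReal.ofReal (‖a t y‖ * Real.exp (|t| * ‖y‖ / 2)) ≤ NN a :=
        (ENNReal.le_tsum t).trans (PTW_tsum a y hy)
      exact (ENNReal.ofReal_le_iff_le_toReal ha.fin.ne).1 h1

end Pool.Agent.HSP
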