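import Pool.Agent.HSP.Targets1

set_option autoImplicit false

open scoped Classical ENNReal

noncomputable section

namespace Pool.Agent.HSP

namespace STA_

lemma conj_mem_S (y : ℂ) : (starRingEnd ℂ) y ∈ S ↔ y ∈ S := by
  simp [S]

lemma conj_mem_W (l : ℤ) (y : ℂ) : (starRingEnd ℂ) y ∈ W l ↔ y ∈ W l := by
  unfold W
  simp only [Set.mem_ofPred_eq, conj_mem_S, RCLike.norm_conj]

lemma open_S : IsOpen S := by
  have : IsOpen {y : ℂ | |y.im| < y.re / 4} :=
    isOpen_lt (Complex.continuous_im.abs) (Complex.continuous_re.div_const 4)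
  exact this

lemma A_st (l : ℤ) (a : Fam) (t : ℝ) : A l (st a) t = A l a (-t) := by
  unfold A
  have key : ∀ y : ℂ, (⨆ _ : y ∈ W l, ENNReal.ofReal (‖st a t y‖ * Real.exp (|t| * ‖y‖ / 2))) =
      ⨆ _ : (starRingEnd ℂ) y ∈ W l, ENNReal.ofReal (‖a (-t) ((starRingEnd ℂ) y)‖ *
        Real.exp (|(-t)| * ‖(starRingEnd ℂ) y‖ / 2)) := by
    intro y
    rw [conj_mem_W]
    unfold st
    simp only [RCLike.norm_conj, abs_neg]
  rw [iSup_congr key]
  have hs : Function.Surjective (starRingEnd ℂ : ℂ → ℂ) := fun z => ⟨(starRingEnd ℂ) z, by simp⟩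
  exact hs.iSup_comp (g := fun y => ⨆ _ : y ∈ W l, ENNReal.ofReal (‖a (-t) y‖ *
        Real.exp (|(-t)| * ‖y‖ / 2)))

lemma N_st (l : ℤ) (a : Fam) : N l (st a) = N l a := by
  unfold N
  rw [← (Equiv.neg ℝ).tsum_eq (fun t => A l a t)]
  refine tsum_congr fun t => ?_
  rw [A_st]
  rfl

lemma conj_ex (t x : ℝ) : (starRingEnd ℂ) (ex t x) = ex (-t) x := by
  unfold ex
  rw [← Complex.exp_conj]
  congr 1
  simp

lemma adm_st (a : Fam) (ha : Adm a) : Adm (st a) := by
  refine ⟨?_, ?_, ?_⟩
  · intro t y hy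
    have h1 : DifferentiableAt ℂ (a (-t)) ((starRingEnd ℂ) y) :=
      (ha.hol (-t)).differentiableAt (open_S.mem_nhds ((conj_mem_S y).2 hy))
    have h2 := h1.conj_conj
    have h3 : DifferentiableAt ℂ (st a t) y := by
      have : st a t = (starRingEnd ℂ : ℂ → ℂ) ∘ a (-t) ∘ (starRingEnd ℂ : ℂ → ℂ) := by
        funext z
        rfl
      rw [this]
      simpa using h2
    exact h3.differentiableWithinAt
  · intro t y hy
    unfold st
    rw [ha.off (-t) _ (fun h => hy ((conj_mem_S y).1 h))]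
    simp
  · have : NN (st a) = NN a := by
      unfold NN
      exact iSup_congr fun l => N_st l a
    rw [this]
    exact ha.fin

end STA_

open STA_ in
/-- Conjugation of families. -/
theorem p_STA : T_STA := by
  intro a ha
  refine ⟨adm_st a ha, fun l => N_st l a, ?_⟩
  intro x y
  unfold ev
  rw [Complex.conj_tsum]
  rw [← (Equiv.neg ℝ).tsum_eq (fun t => (starRingEnd ℂ) (a t ((starRingEnd ℂ) y) * ex t x))]
  refine tsum_congr fun t => ?_
  simp only [Equiv.neg_apply, map_mul, conj_ex, neg_neg]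
  rfl

/-- The real part of the cut family. -/
theorem p_KSA : T_KSA := by
  intro k hk t y
  have h : (starRingEnd ℂ) (k (-t) ((starRingEnd ℂ) y)) = k t y := by
    have := congrFun (congrFun hk t) y
    exact this
  unfold kap
  simp only [st]
  rcases lt_trichotomy t 0 with ht | ht | ht
  · have h1 : ¬ (-t < 0) := by linarith
    have h2 : ¬ (-t = 0) := by linarith
    simp [ht, h1, h2]
  · subst ht
    simp only [neg_zero, lt_irrefl, if_false, if_true, map_div₀]
    rw [neg_zero] at h
    rw [h]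
    simp only [map_ofNat]
    ring
  · have h1 : ¬ (t < 0) := by linarith
    have h2 : ¬ (t = 0) := by linarith
    have h3 : -t < 0 := by linarith
    simp [h1, h2, h3, h]

end Pool.Agent.HSP
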