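import Pool.Agent.HSP.P_NRM
import Pool.Agent.HSP.P_PTW
import Pool.Agent.HSP.P_INJ
import Pool.Agent.HSP.P_LIN
import Pool.Agent.HSP.P_CVA
import Pool.Agent.HSP.P_STA
import Pool.Agent.HSP.P_CPL
import Pool.Agent.HSP.P_NVB
import Pool.Agent.HSP.P_NVS
import Pool.Agent.HSP.P_KI
import Pool.Agent.HSP.P_KP
import Pool.Agent.HSP.P_OPH
import Pool.Agent.HSP.P_OPB
import Pool.Agent.HSP.P_OPS
import Pool.Agent.HSP.P_OPL

set_option autoImplicit false

/-!
# HSP: the proved facts on families of modes, collected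
-/

noncomputable section

namespace Pool.Agent.HSP

theorem q_NRM : T_NRM := p_NRM
theorem q_PTW : T_PTW := p_PTW
theorem q_INJ : T_INJ := p_INJ
theorem q_LIN : T_LIN := p_LIN q_NRM q_PTW
theorem q_CVA : T_CVA := p_CVA q_PTW
theorem q_STA : T_STA := p_STA
theorem q_KSA : T_KSA := p_KSA
theorem q_UNA : T_UNA := p_UNA q_PTW
theorem q_CPL : T_CPL := p_CPL q_NRM q_PTW
theorem q_NVB : T_NVB := p_NVB
theorem q_NVS : T_NVS := p_NVS
theorem q_KI : T_KI := p_KI q_PTW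
theorem q_KZ : T_KZ := p_KZ q_PTW
theorem q_KP : T_KP := p_KP
theorem q_OPH : T_OPH := p_OPH q_PTW
theorem q_OPB : T_OPB := p_OPB q_PTW
theorem q_OPS : T_OPS := p_OPS q_KI q_KZ q_KP q_OPH q_OPB
theorem q_OPL : T_OPL := p_OPL q_KI q_KZ q_KP q_OPH q_OPS

end Pool.Agent.HSP
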