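import Mathlib

set_option autoImplicit false

/-!
# HSP (MP_1662c5_gt): a saddle isometric immersion of the hyperbolic plane: definitions

Modes: a function `∑ a t y * exp (i t x)` of `x` real and `y` in a sector is described by the family `a`.
-/

open scoped Classical ENNReal

noncomputable section

namespace Pool.Agent.HSP

/-! ## Families of modes -/

/-- The sector `|Im y| < Re y / 4`. -/
def S : Set ℂ := {y | |y.im| < y.re / 4}

/-- The window `2^l ≤ |y| ≤ 2^(l+1)` of the sector. -/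
def W (l : ℤ) : Set ℂ := {y | y ∈ S ∧ (2 : ℝ) ^ l ≤ ‖y‖ ∧ ‖y‖ ≤ (2 : ℝ) ^ (l + 1)}

/-- Families of modes: frequency `t`, height `y`. -/
abbrev Fam : Type := ℝ → ℂ → ℂ

/-- The weighted supremum of a mode on a window. -/
def A (l : ℤ) (a : Fam) (t : ℝ) : ℝ≥0∞ := ⨆ y ∈ W l, ENNReal.ofReal (‖a t y‖ * Real.exp (|t| * ‖y‖ / 2))

/-- The Wiener norm on a window. -/
def N (l : ℤ) (a : Fam) : ℝ≥0∞ := ∑' t, A l a t

/-- The norm. -/
def NN (a : Fam) : ℝ≥0∞ := ⨆ l, N l a

/-- Admissible families: holomorphic modes, extended by zero, of finite norm. -/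
structure Adm (a : Fam) : Prop where
  hol : ∀ t, DifferentiableOn ℂ (a t) S
  off : ∀ t, ∀ y ∉ S, a t y = 0
  fin : NN a < ⊤

/-- `exp (i t x)` -/
def ex (t x : ℝ) : ℂ := Complex.exp (((t * x : ℝ) : ℂ) * Complex.I)

/-- The function with the modes `a`. -/
def ev (a : Fam) (x : ℝ) (y : ℂ) : ℂ := ∑' t, a t y * ex t x

/-- The product of families (convolution). -/
def cv (a b : Fam) : Fam := fun t y => ∑' s, a s y * b (t - s) y

/-- The unit. -/
def un : Fam := fun t y => if t = 0 ∧ y ∈ S then 1 else 0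

/-- Complex conjugation. -/
def st (a : Fam) : Fam := fun t y => (starRingEnd ℂ) (a (-t) ((starRingEnd ℂ) y))

/-- The norm of a vector of families. -/
def NV {ι : Type} [Fintype ι] (u : ι → Fam) : ℝ≥0∞ := ⨆ l, (∑ r, (N l (u r)) ^ 2) ^ (1 / 2 : ℝ)

/-! ## Integral operators -/

/-- Cut-off function. -/
def chi (v : ℂ) : ℂ := (1 + 2 * v) * Complex.exp (-(2 * v))

/-- Integration from infinity. -/
def Ki (v : ℂ) (s : ℝ) : ℂ := if 1 < s then Complex.exp (-(v * (s - 1))) / s ^ 2 else 0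

/-- Integration from `1 / |t|`, smoothed. -/
def Kp (v : ℂ) (s : ℝ) : ℂ :=
  if s < 1 then Complex.exp (-(v * (1 - s))) * (1 - chi (v * s)) / s ^ 2
  else -(Complex.exp (v * (s - 1)) * chi (v * s) / s ^ 2)

/-- Integration from zero. -/
def K0 (v : ℂ) (s : ℝ) : ℂ := if s < 1 then Complex.exp (-(v * (1 - s))) else 0

/-- The operator with kernel `K`. -/
def opK (K : ℂ → ℝ → ℂ) (a : Fam) : Fam := fun t y =>
  if y ∈ S then ∫ s in Set.Ioi (0 : ℝ), K (|t| * y) s * a t (s * y) else 0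

/-- `T1`: if `V = y⁻¹ (T1 a)` then `∂_w V = y⁻² a`. -/
def T1 (a : Fam) : Fam := fun t y => if 0 ≤ t then -(2 * Complex.I * opK Ki a t y) else 2 * Complex.I * opK Kp a t y

/-- `T2`: `∂_w̄ V = y⁻² (T2 a)`. -/
def T2 (a : Fam) : Fam := fun t y => Complex.I * t * y * T1 a t y - a t y

/-- The negative modes and half of the zero mode. -/
def kap (k : Fam) : Fam := fun t y => if t < 0 then k t y else if t = 0 then k t y / 2 else 0

/-- `Bq`: if `b = y (Bq k)` then `∂_w b = kap k`. -/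
def Bq (k : Fam) : Fam := fun t y => 2 * Complex.I * opK K0 (kap k) t y

/-- `Mq`: `∂_w̄ b = Mq k`. -/
def Mq (k : Fam) : Fam := fun t y => Complex.I * t * y * Bq k t y - kap k t y

/-! ## Functions on the half plane -/

/-- The upper half plane. -/
def Hp : Set ℂ := {z | 0 < z.im}

/-- The function on the half plane with the modes `a`. -/
def fn (a : Fam) (z : ℂ) : ℂ := ev a z.re (z.im : ℂ)

/-- `∂_w g (z) = u`, `∂_w̄ g (z) = v`: the real derivative of `g` at `z` is `h ↦ u h + v conj h`. -/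
def HasW (g : ℂ → ℂ) (u v : ℂ) (z : ℂ) : Prop :=
  HasFDerivAt g ((u • (ContinuousLinearMap.id ℝ ℂ) : ℂ →L[ℝ] ℂ) + (v • (Complex.conjCLE : ℂ →L[ℝ] ℂ))) z

/-- Smooth functions on the half plane. -/
def Smo (g : ℂ → ℂ) : Prop := ContDiffOn ℝ ((⊤ : ℕ∞) : WithTop ℕ∞) g Hp

/-- Locally summable families. -/
structure Cls (a : Fam) : Prop where
  hol : ∀ t, DifferentiableOn ℂ (a t) S
  sum : ∀ K ⊆ S, IsCompact K → ∃ r > 0, ∑' t, (⨆ y ∈ K, ENNReal.ofReal (‖a t y‖ * Real.exp (r * |t|))) < ⊤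

/-! ## The base curve -/

/-- The frequency `2^n (1 + i / M)`. -/
def fq (M : ℕ) (i : Fin M) (n : ℤ) : ℝ := 2 ^ n * (1 + (i : ℝ) / M)

/-- The coefficient `2 / √(M (1 + i / M))`. -/
def cf (M : ℕ) (i : Fin M) : ℝ := 2 / Real.sqrt (M + i)

/-- `y^p F^(p)`, the component `r = (j₀, i)`: frequencies `fq M i (j₀ + J n)`. -/
def Fb (J M : ℕ) (p : ℕ) (r : Fin J × Fin M) : Fam := fun t y =>
  if y ∈ S ∧ ∃ n : ℤ, t = fq M r.2 (r.1 + J * n) then cf M r.2 * (Complex.I * t * y) ^ p * Complex.exp (-(t * y)) else 0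

/-- A series of modes. -/
def ser {I : Type} (α : I → ℝ) (f : I → ℂ → ℂ) : Fam := fun t y => if y ∈ S then ∑' i, (if t = α i then f i y else 0) else 0

end Pool.Agent.HSP
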