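import Pool.Agent.HSP.Defs

set_option autoImplicit false

/-!
# HSP (MP_1662c5_gt): definitions 2 (surfaces, the curvature expression)
-/

open scoped Classical ENNReal

noncomputable section

namespace Pool.Agent.HSP

/-! ## The curvature expression in a commutative ring with conjugation -/

/-- The curvature expression. `h` is one half, `ip` the product of vectors; `P1, P2, V1, W2, Z2` are (multiples of) `Φ_w, Φ_ww, Φ_w̄, Φ_w̄w̄, Φ_ww̄`. -/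
def Psi {R E : Type} [CommRing R] [StarRing R] (h : R) (ip : E → E → R) (P1 P2 V1 W2 Z2 : E) : R :=
  let be := h * (ip P1 P1 + ip V1 V1)
  let al := ip P1 V1
  let u1 := h * (ip P2 V1 + ip P1 W2)
  let u2 := h * (ip P2 P1 + ip V1 W2)
  let c1 := h * (ip P2 P2 + ip W2 W2)
  let c2 := ip Z2 Z2
  let t1 := h * (ip Z2 V1 + ip P1 Z2)
  let D := be ^ 2 - al * star al
  D * (c1 - c2) + (star al * u1 * star u2 - be * (u1 * star u1 + u2 * star u2) + al * u2 * star u1) - (star al * t1 ^ 2 - 2 * (be * t1 * star t1) + al * star t1 ^ 2) - D ^ 2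

/-! ## Surfaces -/

/-- `∂_x g`. -/
def dx {X : Type} [NormedAddCommGroup X] [NormedSpace ℝ X] (g : ℂ → X) (z : ℂ) : X := fderiv ℝ g z 1

/-- `∂_y g`. -/
def dy {X : Type} [NormedAddCommGroup X] [NormedSpace ℝ X] (g : ℂ → X) (z : ℂ) : X := fderiv ℝ g z Complex.I

/-- The coefficient `E` of the induced metric `E dx² + 2 F dx dy + G dy²`. -/
def mE {n : ℕ} (f : ℂ → EuclideanSpace ℝ (Fin n)) (z : ℂ) : ℝ := inner ℝ (dx f z) (dx f z)

/-- The coefficient `F` of the induced metric. -/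
def mF {n : ℕ} (f : ℂ → EuclideanSpace ℝ (Fin n)) (z : ℂ) : ℝ := inner ℝ (dx f z) (dy f z)

/-- The coefficient `G` of the induced metric. -/
def mG {n : ℕ} (f : ℂ → EuclideanSpace ℝ (Fin n)) (z : ℂ) : ℝ := inner ℝ (dy f z) (dy f z)

/-- The numerator of Brioschi's formula for the Gauss curvature of `E dx² + 2 F dx dy + G dy²`. -/
def bnum (E F G : ℂ → ℝ) (z : ℂ) : ℝ :=
  Matrix.det !![-(dy (dy E) z) / 2 + dx (dy F) z - dx (dx G) z / 2, dx E z / 2, dx F z - dy E z / 2;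
    dy F z - dx G z / 2, E z, F z; dy G z / 2, F z, G z] -
  Matrix.det !![0, dy E z / 2, dx G z / 2; dy E z / 2, E z, F z; dx G z / 2, F z, G z]

/-- The Gauss curvature of the metric `E dx² + 2 F dx dy + G dy²` (Brioschi's formula). -/
def gaussK (E F G : ℂ → ℝ) (z : ℂ) : ℝ := bnum E F G z / (E z * G z - F z ^ 2) ^ 2

/-- The metric induced by `f` on the half plane is complete: every `C¹` curve in the half plane that leaves all compact sets has infinite length. -/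
def Compl {n : ℕ} (f : ℂ → EuclideanSpace ℝ (Fin n)) : Prop :=
  ∀ γ : ℝ → ℂ, ContDiffOn ℝ 1 γ (Set.Ico 0 1) → (∀ t ∈ Set.Ico (0 : ℝ) 1, γ t ∈ Hp) →
    (∀ K : Set ℂ, K ⊆ Hp → IsCompact K → ∃ s < (1 : ℝ), ∀ t ∈ Set.Ioo s 1, γ t ∉ K) →
    ∫⁻ t in Set.Ioo (0 : ℝ) 1, ENNReal.ofReal ‖fderiv ℝ f (γ t) (deriv γ t)‖ = ⊤

/-- The surface `f` is saddle: in no normal direction the second fundamental form is definite. -/
def Saddle {n : ℕ} (f : ℂ → EuclideanSpace ℝ (Fin n)) : Prop :=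
  ∀ z ∈ Hp, ∀ ν : EuclideanSpace ℝ (Fin n), inner ℝ (dx f z) ν = 0 → inner ℝ (dy f z) ν = 0 →
    inner ℝ (dx (dx f) z) ν * inner ℝ (dy (dy f) z) ν - inner ℝ (dy (dx f) z) ν ^ 2 ≤ 0

/-- The conclusion. -/
def Goal : Prop := ∃ n : ℕ, ∃ f : ℂ → EuclideanSpace ℝ (Fin n), ContDiffOn ℝ ((⊤ : ℕ∞) : WithTop ℕ∞) f Hp ∧
  (∀ z ∈ Hp, 0 < mE f z ∧ 0 < mE f z * mG f z - mF f z ^ 2) ∧ (∀ z ∈ Hp, gaussK (mE f) (mF f) (mG f) z = -1) ∧ Compl f ∧ Saddle f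

/-- The hermitian product of complex vectors. -/
def hp {ι : Type} [Fintype ι] (u v : ι → ℂ) : ℂ := ∑ r, u r * star (v r)

/-- The real vector of a complex vector. -/
def cr {ι : Type} (v : ι → ℂ) : EuclideanSpace ℝ (ι ⊕ ι) := WithLp.toLp 2 (Sum.elim (fun r => (v r).re) (fun r => (v r).im))

/-- The data of the surface on the half plane: `P = Φ_w`, `V = Φ_w̄`, `A = Φ_ww`, `B = Φ_w̄w̄`, `Z = Φ_ww̄`. -/
structure Dat {ι : Type} [Fintype ι] (P V A B Z : ι → ℂ → ℂ) (μ : ℂ → ℂ) : Prop where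
  smP : ∀ r, Smo (P r)
  smV : ∀ r, Smo (V r)
  dP : ∀ r, ∀ z ∈ Hp, HasW (P r) (A r z) (Z r z) z
  dV : ∀ r, ∀ z ∈ Hp, HasW (V r) (Z r z) (B r z) z
  mu : ∀ z ∈ Hp, ‖μ z‖ ≤ 1 / 4
  rel : ∀ r, ∀ z ∈ Hp, Z r z = μ z * A r z + (starRingEnd ℂ) (μ z) * B r z
  crv : ∀ z ∈ Hp, Psi (1 / 2 : ℂ) hp (fun r => P r z) (fun r => A r z) (fun r => V r z) (fun r => B r z) (fun r => Z r z) = 0
  big : ∀ z ∈ Hp, 1 / 2 ≤ z.im ^ 2 * ∑ r, ‖P r z‖ ^ 2
  sml : ∀ z ∈ Hp, z.im ^ 2 * ∑ r, ‖V r z‖ ^ 2 ≤ 1 / 64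

end Pool.Agent.HSP
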