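import Pool.Agent.HSP.Targets5
import Pool.Agent.HSP.P_BRI

set_option autoImplicit false

/-!
# HSP: the isometric immersion of the hyperbolic disc
-/

noncomputable section

namespace Pool.Agent.HSP

namespace Iso0_

theorem openHp : IsOpen Hp := isOpen_lt continuous_const Complex.continuous_im

variable {n : ℕ} {f : ℂ → EuclideanSpace ℝ (Fin n)}

theorem fd_split (z h : ℂ) : fderiv ℝ f z h = h.re • dx f z + h.im • dy f z := by
  have e : h = h.re • (1 : ℂ) + h.im • Complex.I := by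
    apply Complex.ext <;> simp
  conv_lhs => rw [e]
  rw [map_add, map_smul, map_smul]
  rfl

theorem norm_fd (z h : ℂ) : ‖fderiv ℝ f z h‖ ^ 2 = mE f z * h.re ^ 2 + 2 * mF f z * h.re * h.im + mG f z * h.im ^ 2 := by
  rw [fd_split, ← real_inner_self_eq_norm_sq]
  simp only [inner_add_left, inner_add_right, real_inner_smul_left, real_inner_smul_right]
  rw [real_inner_comm (dx f z) (dy f z)]
  unfold mE mF mG
  ring

theorem liso (hf : ContDiffOn ℝ ((⊤ : ℕ∞) : WithTop ℕ∞) f Hp) (hpos : ∀ z ∈ Hp, 0 < mE f z ∧ 0 < mE f z * mG f z - mF f z ^ 2)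
    (hc : Compl f) {dev : ℂ → ℂ} (hd : Smo dev) (hm : ∀ z ∈ Hp, dev z ∈ Hp)
    (hi : ∀ z ∈ Hp, ∀ h : ℂ, ‖fderiv ℝ dev z h‖ ^ 2 = (dev z).im ^ 2 * (mE f z * h.re ^ 2 + 2 * mF f z * h.re * h.im + mG f z * h.im ^ 2)) : LIso f dev where
  smf := hf
  sm := hd
  mem := hm
  iso z hz h := by
    have h0 : 0 < (dev z).im := hm z hz
    have h1 := hi z hz h
    rw [← norm_fd, ← mul_pow] at h1
    exact (sq_eq_sq₀ (norm_nonneg _) (by positivity)).1 h1
  inj z hz h h0 := by
    obtain ⟨p1, p2⟩ := hpos z hz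
    have h1 := norm_fd (f := f) z h
    rw [h0, norm_zero] at h1
    have h2 : (mE f z * h.re + mF f z * h.im) ^ 2 + (mE f z * mG f z - mF f z ^ 2) * h.im ^ 2 = 0 := by
      linear_combination (-mE f z) * h1
    have h3 : h.im = 0 := by
      have : (mE f z * mG f z - mF f z ^ 2) * h.im ^ 2 = 0 := by nlinarith [sq_nonneg (mE f z * h.re + mF f z * h.im), mul_nonneg p2.le (sq_nonneg h.im)]
      rcases mul_eq_zero.1 this with h | h
      · exact absurd h p2.ne'
      · exact pow_eq_zero_iff (two_ne_zero) |>.1 h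
    rw [h3] at h2
    have h4 : h.re = 0 := by
      have : (mE f z * h.re) ^ 2 = 0 := by linear_combination h2
      have := pow_eq_zero_iff (two_ne_zero) |>.1 this
      rcases mul_eq_zero.1 this with h | h
      · exact absurd h p1.ne'
      · exact h
    exact Complex.ext h4 h3
  com := hc

/-- The Cayley map. -/
def C (z : ℂ) : ℂ := Complex.I * (1 + z) / (1 - z)

theorem one_sub_ne {z : ℂ} (hz : z ∈ Metric.ball (0 : ℂ) 1) : 1 - z ≠ 0 := by
  intro h
  have h1 : z = 1 := by linear_combination -h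
  rw [h1] at hz
  simp at hz

theorem C_im {z : ℂ} (hz : z ∈ Metric.ball (0 : ℂ) 1) : (C z).im = (1 - ‖z‖ ^ 2) / ‖1 - z‖ ^ 2 := by
  have h := one_sub_ne hz
  have h2 : Complex.normSq (1 - z) ≠ 0 := by simpa using h
  unfold C
  rw [← Complex.normSq_eq_norm_sq, ← Complex.normSq_eq_norm_sq, Complex.div_im]
  rw [← sub_div]
  congr 1
  simp only [Complex.mul_im, Complex.mul_re, Complex.I_re, Complex.I_im, Complex.add_re, Complex.add_im, Complex.sub_re, Complex.sub_im, Complex.one_re, Complex.one_im, Complex.normSq_apply]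
  ring

theorem ball_pos {z : ℂ} (hz : z ∈ Metric.ball (0 : ℂ) 1) : 0 < 1 - ‖z‖ ^ 2 := by
  have : ‖z‖ < 1 := by simpa using hz
  nlinarith [norm_nonneg z]

theorem C_mem {z : ℂ} (hz : z ∈ Metric.ball (0 : ℂ) 1) : C z ∈ Hp := by
  change 0 < (C z).im
  rw [C_im hz]
  have h := norm_pos_iff.2 (one_sub_ne hz)
  have := ball_pos hz
  positivity

theorem C_deriv {z : ℂ} (hz : z ∈ Metric.ball (0 : ℂ) 1) : HasDerivAt C (2 * Complex.I / (1 - z) ^ 2) z := by
  have h := one_sub_ne hz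
  have h1 : HasDerivAt (fun z : ℂ => Complex.I * (1 + z)) (Complex.I * 1) z := ((hasDerivAt_id z).const_add 1).const_mul _
  have h2 : HasDerivAt (fun z : ℂ => 1 - z) (-1) z := by simpa using (hasDerivAt_id z).const_sub 1
  have h3 := h1.div h2 h
  refine h3.congr_deriv ?_
  field_simp
  ring

theorem C_smooth : ContDiffOn ℝ ((⊤ : ℕ∞) : WithTop ℕ∞) C (Metric.ball (0 : ℂ) 1) := by
  have h : ContDiffOn ℝ ((⊤ : ℕ∞) : WithTop ℕ∞) (fun z : ℂ => Complex.I * (1 + z)) (Metric.ball (0 : ℂ) 1) :=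
    (contDiff_const.mul (contDiff_const.add contDiff_id)).contDiffOn
  have h2 : ContDiffOn ℝ ((⊤ : ℕ∞) : WithTop ℕ∞) (fun z : ℂ => 1 - z) (Metric.ball (0 : ℂ) 1) :=
    (contDiff_const.sub contDiff_id).contDiffOn
  exact (h.mul (h2.inv fun z hz => one_sub_ne hz)).congr fun z _ => div_eq_mul_inv _ _

theorem C_scale {z : ℂ} (hz : z ∈ Metric.ball (0 : ℂ) 1) : ‖2 * Complex.I / (1 - z) ^ 2‖ / (C z).im = 2 / (1 - ‖z‖ ^ 2) := by
  have h := norm_pos_iff.2 (one_sub_ne hz)
  have := ball_pos hz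
  rw [C_im hz, norm_div, norm_mul, norm_pow, Complex.norm_I, Complex.norm_ofNat]
  field_simp

/-- inner products from norms -/
theorem conf {X : Type} [NormedAddCommGroup X] [InnerProductSpace ℝ X] (L : ℂ →L[ℝ] X) (r : ℝ) (h : ∀ v, ‖L v‖ = r * ‖v‖) :
    inner ℝ (L 1) (L 1) = r ^ 2 ∧ inner ℝ (L Complex.I) (L Complex.I) = r ^ 2 ∧ inner ℝ (L 1) (L Complex.I) = 0 := by
  have h1 := h 1
  have h2 := h Complex.I
  have h3 := h (1 + Complex.I)
  rw [norm_one, mul_one] at h1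
  rw [Complex.norm_I, mul_one] at h2
  have e1 : inner ℝ (L 1) (L 1) = r ^ 2 := by rw [real_inner_self_eq_norm_sq, h1]
  have e2 : inner ℝ (L Complex.I) (L Complex.I) = r ^ 2 := by rw [real_inner_self_eq_norm_sq, h2]
  refine ⟨e1, e2, ?_⟩
  have e3 : ‖L (1 + Complex.I)‖ ^ 2 = r ^ 2 * 2 := by
    rw [h3, mul_pow, ← Complex.normSq_eq_norm_sq]
    simp [Complex.normSq_apply]
    left; norm_num
  rw [← real_inner_self_eq_norm_sq, map_add] at e3
  simp only [inner_add_left, inner_add_right] at e3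
  rw [e1, e2, real_inner_comm (L 1) (L Complex.I)] at e3
  linarith

end Iso0_

open Iso0_

theorem my_ISO (h_DEV : T_DEV) (h_SEC : T_SEC) (h_SRP : T_SRP) : T_ISO := by
  rintro ⟨n, f, hf, hpos, hK, hcom, hsad⟩
  have sx := BRI_.sm_D (u := f) hf 1
  have sy := BRI_.sm_D (u := f) hf Complex.I
  obtain ⟨dev, hd, hmem, hiso⟩ := h_DEV (mE f) (mF f) (mG f) (BRI_.sm_inner sx sx) (BRI_.sm_inner sx sy) (BRI_.sm_inner sy sy) hpos hK
  have L := liso hf hpos hcom hd hmem hiso
  obtain ⟨τ, hτ, hτ2⟩ := h_SEC n f dev L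
  have hφs : ContDiffOn ℝ ((⊤ : ℕ∞) : WithTop ℕ∞) (fun z => τ (C z)) (Metric.ball (0 : ℂ) 1) := ContDiffOn.comp hτ C_smooth fun z hz => C_mem hz
  have hgs : ContDiffOn ℝ ((⊤ : ℕ∞) : WithTop ℕ∞) (fun z => f (τ (C z))) (Metric.ball (0 : ℂ) 1) := ContDiffOn.comp hf hφs fun z hz => (hτ2 _ (C_mem hz)).1
  -- the derivative
  have key : ∀ z ∈ Metric.ball (0 : ℂ) 1, ∀ h : ℂ, ‖fderiv ℝ (fun z => f (τ (C z))) z h‖ = 2 / (1 - ‖z‖ ^ 2) * ‖h‖ ∧
      fderiv ℝ (fun z => f (τ (C z))) z h = fderiv ℝ f (τ (C z)) (fderiv ℝ (fun z => τ (C z)) z h) := by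
    intro z hz h
    have hq := C_mem hz
    obtain ⟨hp, hdτ⟩ := hτ2 _ hq
    have dC : HasFDerivAt C ((ContinuousLinearMap.toSpanSingleton ℂ (2 * Complex.I / (1 - z) ^ 2)).restrictScalars ℝ) z := (C_deriv hz).hasFDerivAt.restrictScalars ℝ
    have dτ : HasFDerivAt τ (fderiv ℝ τ (C z)) (C z) := ((hτ.contDiffAt (openHp.mem_nhds hq)).differentiableAt (by simp)).hasFDerivAt
    have df : HasFDerivAt f (fderiv ℝ f (τ (C z))) (τ (C z)) := ((hf.contDiffAt (openHp.mem_nhds hp)).differentiableAt (by simp)).hasFDerivAt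
    have dd : HasFDerivAt dev (fderiv ℝ dev (τ (C z))) (τ (C z)) := ((hd.contDiffAt (openHp.mem_nhds hp)).differentiableAt (by simp)).hasFDerivAt
    have d1 := dτ.comp z dC
    have d2 := df.comp z d1
    have e1 : fderiv ℝ (fun z => τ (C z)) z = (fderiv ℝ τ (C z)).comp ((ContinuousLinearMap.toSpanSingleton ℂ (2 * Complex.I / (1 - z) ^ 2)).restrictScalars ℝ) := d1.fderiv
    have e2 : fderiv ℝ (fun z => f (τ (C z))) z = (fderiv ℝ f (τ (C z))).comp ((fderiv ℝ τ (C z)).comp ((ContinuousLinearMap.toSpanSingleton ℂ (2 * Complex.I / (1 - z) ^ 2)).restrictScalars ℝ)) := d2.fderiv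
    rw [e1, e2]
    simp only [ContinuousLinearMap.comp_apply, ContinuousLinearMap.coe_restrictScalars', ContinuousLinearMap.toSpanSingleton_apply, smul_eq_mul, and_true]
    -- dev o tau = id
    have d3 := dd.comp (C z) dτ
    have d4 : HasFDerivAt (fun q => q) ((fderiv ℝ dev (τ (C z))).comp (fderiv ℝ τ (C z))) (C z) := by
      refine d3.congr_of_eventuallyEq ?_
      exact Filter.eventuallyEq_of_mem (openHp.mem_nhds hq) fun q hq => ((hτ2 q hq).2).symm
    have d5 := d4.unique (hasFDerivAt_id (C z))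
    have h6 : ∀ v, fderiv ℝ dev (τ (C z)) (fderiv ℝ τ (C z) v) = v := fun v => congrArg (fun L => L v) d5
    have h7 := L.iso _ hp (fderiv ℝ τ (C z) (h * (2 * Complex.I / (1 - z) ^ 2)))
    rw [h6, hdτ] at h7
    have hq' : 0 < (C z).im := hq
    rw [← C_scale hz]
    rw [norm_mul] at h7
    have aux : ∀ N c k i : ℝ, 0 < i → k * c = i * N → N = c / i * k := by
      intro N c k i hi e
      field_simp
      linarith
    exact aux _ _ _ _ hq' h7
  have hsurj : ∀ z ∈ Metric.ball (0 : ℂ) 1, Function.Surjective (fderiv ℝ (fun z => τ (C z)) z) := by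
    intro z hz
    have hinj : Function.Injective (fderiv ℝ (fun z => τ (C z)) z : ℂ →ₗ[ℝ] ℂ) := by
      rw [injective_iff_map_eq_zero]
      intro h h0
      obtain ⟨k1, k2⟩ := key z hz h
      have h0' : fderiv ℝ (fun z => τ (C z)) z h = 0 := h0
      rw [h0', map_zero] at k2
      rw [k2, norm_zero] at k1
      have := ball_pos hz
      have h2 : 0 < 2 / (1 - ‖z‖ ^ 2) := by positivity
      rcases mul_eq_zero.1 k1.symm with h | h
      · exact absurd h h2.ne'
      · exact norm_eq_zero.1 h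
    exact LinearMap.injective_iff_surjective.1 hinj
  refine ⟨n, fun z => f (τ (C z)), hgs, fun z hz => conf _ _ fun v => (key z hz v).1, ?_⟩
  exact h_SRP n f (fun z => τ (C z)) _ Metric.isOpen_ball hf hφs (fun z hz => (hτ2 _ (C_mem hz)).1) hsurj hsad

end Pool.Agent.HSP
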