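import Pool.Agent.HSP.Targets5
import Pool.Agent.HSP.P_BRI
set_option autoImplicit false
noncomputable section
namespace Pool.Agent.HSP
namespace BRK_

theorem openHp : IsOpen Hp := isOpen_lt continuous_const Complex.continuous_im

theorem SmX.at {g : ℂ → ℝ} (h : SmX g) {z : ℂ} (hz : z ∈ Hp) : ContDiffAt ℝ ((⊤ : ℕ∞) : WithTop ℕ∞) g z := h.contDiffAt (openHp.mem_nhds hz)

theorem SmX.da {g : ℂ → ℝ} (h : SmX g) {z : ℂ} (hz : z ∈ Hp) : DifferentiableAt ℝ g z := (SmX.at h hz).differentiableAt (by simp)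

theorem SmX.fd {g : ℂ → ℝ} (h : SmX g) (v : ℂ) : SmX (fun z => fderiv ℝ g z v) :=
  (h.fderiv_of_isOpen openHp (by simp)).clm_apply contDiffOn_const

theorem SmX.dx {g : ℂ → ℝ} (h : SmX g) : SmX (dx g) := SmX.fd h 1
theorem SmX.dy {g : ℂ → ℝ} (h : SmX g) : SmX (dy g) := SmX.fd h Complex.I

theorem SmX.mul {g k : ℂ → ℝ} (h : SmX g) (h' : SmX k) : SmX (fun z => g z * k z) := ContDiffOn.mul h h'
theorem SmX.add {g k : ℂ → ℝ} (h : SmX g) (h' : SmX k) : SmX (fun z => g z + k z) := ContDiffOn.add h h'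
theorem SmX.sub {g k : ℂ → ℝ} (h : SmX g) (h' : SmX k) : SmX (fun z => g z - k z) := ContDiffOn.sub h h'

/-- congruence on the half plane -/
theorem fd_congr {g k : ℂ → ℝ} (h : ∀ z ∈ Hp, g z = k z) {z : ℂ} (hz : z ∈ Hp) : fderiv ℝ g z = fderiv ℝ k z :=
  Filter.EventuallyEq.fderiv_eq (Filter.eventuallyEq_of_mem (openHp.mem_nhds hz) h)

theorem fd_mul {g k : ℂ → ℝ} (h : SmX g) (h' : SmX k) {z : ℂ} (hz : z ∈ Hp) (v : ℂ) :
    fderiv ℝ (fun z => g z * k z) z v = fderiv ℝ g z v * k z + g z * fderiv ℝ k z v := by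
  rw [fderiv_fun_mul (SmX.da h hz) (SmX.da h' hz)]
  simp; ring

theorem fd_add {g k : ℂ → ℝ} (h : SmX g) (h' : SmX k) {z : ℂ} (hz : z ∈ Hp) (v : ℂ) :
    fderiv ℝ (fun z => g z + k z) z v = fderiv ℝ g z v + fderiv ℝ k z v := by
  rw [fderiv_fun_add (SmX.da h hz) (SmX.da h' hz)]; simp

theorem fd_sub {g k : ℂ → ℝ} (h : SmX g) (h' : SmX k) {z : ℂ} (hz : z ∈ Hp) (v : ℂ) :
    fderiv ℝ (fun z => g z - k z) z v = fderiv ℝ g z v - fderiv ℝ k z v := by
  rw [fderiv_fun_sub (SmX.da h hz) (SmX.da h' hz)]; simp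

theorem fd_comm {g : ℂ → ℝ} (h : SmX g) {z : ℂ} (hz : z ∈ Hp) : dx (dy g) z = dy (dx g) z :=
  BRI_.D_comm (u := g) h 1 Complex.I hz

end BRK_
open BRK_

theorem p_BRK : T_BRK := by
  intro a b c ha hb hc ha0 hc0 hK p q hp hq z hz
  have hz0 := hK z hz
  have haz := ha0 z hz
  have hcz := hc0 z hz
  -- p * c and q * a
  have hpc : ∀ w ∈ Hp, p w * c w = dx b w - dy a w := fun w hw => by
    rw [hp w]; field_simp [(hc0 w hw).ne']
  have hqa : ∀ w ∈ Hp, q w * a w = dx c w + p w * b w := fun w hw => by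
    rw [hq w]; field_simp [(ha0 w hw).ne']
  have sp : SmX p := by
    have : p = fun w => (dx b w - dy a w) / c w := funext hp
    rw [this]
    exact ContDiffOn.div (SmX.sub (SmX.dx hb) (SmX.dy ha)) hc fun w hw => (hc0 w hw).ne'
  have sq : SmX q := by
    have : q = fun w => (dx c w + p w * b w) / a w := funext hq
    rw [this]
    exact ContDiffOn.div (SmX.add (SmX.dx hc) (SmX.mul sp hb)) ha fun w hw => (ha0 w hw).ne'
  -- derivatives of these
  have hp2 : dy p z * c z + p z * dy c z = dy (dx b) z - dy (dy a) z := by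
    have h := fd_congr hpc hz
    have h1 := congrArg (fun L => L Complex.I) h
    rw [fd_mul sp hc hz, fd_sub (SmX.dx hb) (SmX.dy ha) hz] at h1
    exact h1
  have hq2 : dx q z * a z + q z * dx a z = dx (dx c) z + (dx p z * b z + p z * dx b z) := by
    have h := fd_congr hqa hz
    have h1 := congrArg (fun L => L 1) h
    rw [fd_mul sq ha hz, fd_add (SmX.dx hc) (SmX.mul sp hb) hz, fd_mul sp hb hz] at h1
    exact h1
  have hp3 : dx p z * c z + p z * dx c z = dx (dx b) z - dx (dy a) z := by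
    have h := fd_congr hpc hz
    have h1 := congrArg (fun L => L 1) h
    rw [fd_mul sp hc hz, fd_sub (SmX.dx hb) (SmX.dy ha) hz] at h1
    exact h1
  have sq2 : (fun z => a z ^ 2) = fun z => a z * a z := by funext w; ring
  have sq3 : (fun z => b z ^ 2 + c z ^ 2) = fun z => b z * b z + c z * c z := by funext w; ring
  rw [sq2, sq3] at hz0
  have sE : SmX fun z => a z * a z := SmX.mul ha ha
  have sF : SmX fun z => a z * b z := SmX.mul ha hb
  have sG : SmX fun z => b z * b z + c z * c z := SmX.add (SmX.mul hb hb) (SmX.mul hc hc)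
  have Ex : ∀ w ∈ Hp, dx (fun z => a z * a z) w = dx a w * a w + a w * dx a w := fun w hw => fd_mul ha ha hw 1
  have Ey : ∀ w ∈ Hp, dy (fun z => a z * a z) w = dy a w * a w + a w * dy a w := fun w hw => fd_mul ha ha hw _
  have Fx : ∀ w ∈ Hp, dx (fun z => a z * b z) w = dx a w * b w + a w * dx b w := fun w hw => fd_mul ha hb hw 1
  have Fy : ∀ w ∈ Hp, dy (fun z => a z * b z) w = dy a w * b w + a w * dy b w := fun w hw => fd_mul ha hb hw _
  have Gx : ∀ w ∈ Hp, dx (fun z => b z * b z + c z * c z) w = (dx b w * b w + b w * dx b w) + (dx c w * c w + c w * dx c w) := fun w hw => by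
    unfold dx
    rw [fd_add (SmX.mul hb hb) (SmX.mul hc hc) hw, fd_mul hb hb hw, fd_mul hc hc hw]
  have Gy : ∀ w ∈ Hp, dy (fun z => b z * b z + c z * c z) w = (dy b w * b w + b w * dy b w) + (dy c w * c w + c w * dy c w) := fun w hw => by
    unfold dy
    rw [fd_add (SmX.mul hb hb) (SmX.mul hc hc) hw, fd_mul hb hb hw, fd_mul hc hc hw]
  have Eyy : dy (dy (fun z => a z * a z)) z = (dy (dy a) z * a z + dy a z * dy a z) + (dy a z * dy a z + a z * dy (dy a) z) := by
    have h := congrArg (fun L => L Complex.I) (fd_congr Ey hz)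
    rw [fd_add (SmX.mul (SmX.dy ha) ha) (SmX.mul ha (SmX.dy ha)) hz, fd_mul (SmX.dy ha) ha hz, fd_mul ha (SmX.dy ha) hz] at h
    exact h
  have Fxy : dx (dy (fun z => a z * b z)) z = (dx (dy a) z * b z + dy a z * dx b z) + (dx a z * dy b z + a z * dx (dy b) z) := by
    have h := congrArg (fun L => L 1) (fd_congr Fy hz)
    rw [fd_add (SmX.mul (SmX.dy ha) hb) (SmX.mul ha (SmX.dy hb)) hz, fd_mul (SmX.dy ha) hb hz, fd_mul ha (SmX.dy hb) hz] at h
    exact h
  have Gxx : dx (dx (fun z => b z * b z + c z * c z)) z = ((dx (dx b) z * b z + dx b z * dx b z) + (dx b z * dx b z + b z * dx (dx b) z)) +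
      ((dx (dx c) z * c z + dx c z * dx c z) + (dx c z * dx c z + c z * dx (dx c) z)) := by
    have h := congrArg (fun L => L 1) (fd_congr Gx hz)
    rw [fd_add (SmX.add (SmX.mul (SmX.dx hb) hb) (SmX.mul hb (SmX.dx hb))) (SmX.add (SmX.mul (SmX.dx hc) hc) (SmX.mul hc (SmX.dx hc))) hz,
      fd_add (SmX.mul (SmX.dx hb) hb) (SmX.mul hb (SmX.dx hb)) hz, fd_add (SmX.mul (SmX.dx hc) hc) (SmX.mul hc (SmX.dx hc)) hz,
      fd_mul (SmX.dx hb) hb hz, fd_mul hb (SmX.dx hb) hz, fd_mul (SmX.dx hc) hc hz, fd_mul hc (SmX.dx hc) hz] at h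
    exact h
  have hcomm := fd_comm hb hz
  have hpz := hpc z hz
  have hqz := hqa z hz
  unfold gaussK bnum at hz0
  rw [Ex z hz, Ey z hz, Fx z hz, Fy z hz, Gx z hz, Gy z hz, Eyy, Fxy, Gxx, Matrix.det_fin_three, Matrix.det_fin_three] at hz0
  simp only [Matrix.of_apply, Matrix.cons_val', Matrix.cons_val_zero, Matrix.cons_val_one, Matrix.cons_val, Matrix.cons_val_fin_one] at hz0
  have hD : (a z * a z * (b z * b z + c z * c z) - (a z * b z) ^ 2) = (a z * c z) ^ 2 := by ring
  rw [hD, div_eq_iff (by positivity)] at hz0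
  rw [← hcomm] at hp2
  generalize dx (dx b) z = bxx at *
  generalize dx (dx c) z = cxx at *
  generalize dx (dy b) z = bxy at *
  generalize dx (dy a) z = axy at *
  generalize dy (dy a) z = ayy at *
  generalize dx p z = px at *
  generalize dy p z = py at *
  generalize dx q z = qx at *
  generalize dx a z = ax at *
  generalize dy a z = ay at *
  generalize dx b z = bx at *
  generalize dy b z = bby at *
  generalize dx c z = cx at *
  generalize dy c z = cy at *
  generalize a z = A at *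
  generalize b z = B at *
  generalize c z = Cc at *
  generalize p z = P at *
  generalize q z = Q at *
  have hA : A ≠ 0 := haz.ne'
  have hC : Cc ≠ 0 := hcz.ne'
  have e1 : bx = ay + P * Cc := by linarith
  have e2 : cx = Q * A - P * B := by linarith
  have e3 : bxy = ayy + py * Cc + P * cy := by linarith
  have e4 : bxx = axy + px * Cc + P * cx := by linarith
  have e5 : cxx = qx * A + Q * ax - px * B - P * bx := by linarith
  clear hcomm hpz hp3 hp2 hq2 hqz Eyy Fxy Gxx
  subst e3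
  subst e4
  subst e5
  subst e2
  subst e1
  have key : (A * Cc) ^ 3 * ((qx - py) - A * Cc) = 0 := by linear_combination (-1) * hz0
  rcases mul_eq_zero.1 key with h | h
  · exact absurd h (by positivity)
  · linarith

end Pool.Agent.HSP
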