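import Pool.Agent.HSP.Targets5

set_option autoImplicit false

/-!
# HSP: DEV, the developing map
-/

open scoped Classical ENNReal

noncomputable section

namespace Pool.Agent.HSP

namespace DEV_

variable {X : Type} [NormedAddCommGroup X] [NormedSpace ℝ X]

lemma isOpen_Hp : IsOpen Hp := isOpen_lt continuous_const Complex.continuous_im

lemma sm_fd {u : ℂ → X} (hu : SmX u) : SmX (fderiv ℝ u) :=
  ContDiffOn.fderiv_of_isOpen hu isOpen_Hp (by simp)

lemma sm_dx {u : ℂ → X} (hu : SmX u) : SmX (dx u) := (sm_fd hu).clm_apply contDiffOn_const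

lemma sm_dy {u : ℂ → X} (hu : SmX u) : SmX (dy u) := (sm_fd hu).clm_apply contDiffOn_const

lemma sm_diff {u : ℂ → X} (hu : SmX u) {z : ℂ} (hz : z ∈ Hp) : DifferentiableAt ℝ u z :=
  (ContDiffOn.contDiffAt hu (isOpen_Hp.mem_nhds hz)).differentiableAt (by simp)

lemma dx_congr {u v : ℂ → X} (h : ∀ z ∈ Hp, u z = v z) : ∀ z ∈ Hp, dx u z = dx v z := by
  intro z hz
  have : u =ᶠ[nhds z] v := by
    filter_upwards [isOpen_Hp.mem_nhds hz] with y hy using h y hy
  show fderiv ℝ u z 1 = fderiv ℝ v z 1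
  rw [this.fderiv_eq]

lemma dy_congr {u v : ℂ → X} (h : ∀ z ∈ Hp, u z = v z) : ∀ z ∈ Hp, dy u z = dy v z := by
  intro z hz
  have : u =ᶠ[nhds z] v := by
    filter_upwards [isOpen_Hp.mem_nhds hz] with y hy using h y hy
  show fderiv ℝ u z Complex.I = fderiv ℝ v z Complex.I
  rw [this.fderiv_eq]

lemma gaussK_congr {E F G E' F' G' : ℂ → ℝ} (hE : ∀ z ∈ Hp, E z = E' z)
    (hF : ∀ z ∈ Hp, F z = F' z) (hG : ∀ z ∈ Hp, G z = G' z) (z : ℂ) (hz : z ∈ Hp) :
    gaussK E F G z = gaussK E' F' G' z := by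
  unfold gaussK bnum
  rw [hE z hz, hF z hz, hG z hz, dx_congr hE z hz, dx_congr hF z hz, dx_congr hG z hz,
    dy_congr hE z hz, dy_congr hF z hz, dy_congr hG z hz, dy_congr (dy_congr hE) z hz,
    dx_congr (dy_congr hF) z hz, dx_congr (dx_congr hG) z hz]

/-- Multiplication by `u`, as a function of `u`. -/
def L1 : ℂ →L[ℝ] (ℂ →L[ℝ] ℂ) := ContinuousLinearMap.mul ℝ ℂ

/-- Multiplication by `v` after conjugation, as a function of `v`. -/
def L2 : ℂ →L[ℝ] (ℂ →L[ℝ] ℂ) :=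
  ((ContinuousLinearMap.compL ℝ ℂ ℂ ℂ).flip (Complex.conjCLE : ℂ →L[ℝ] ℂ)).comp L1

lemma L1_apply (u N : ℂ) : L1 u N = u * N := rfl

lemma L2_apply (v N : ℂ) : L2 v N = v * (starRingEnd ℂ) N := rfl

lemma sm_op {u v : ℂ → ℂ} (hu : SmX u) (hv : SmX v) : SmX (fun z => L1 (u z) + L2 (v z)) :=
  (L1.contDiff.comp_contDiffOn hu).add (L2.contDiff.comp_contDiffOn hv)

lemma fd_op {u v : ℂ → ℂ} (hu : SmX u) (hv : SmX v) {z : ℂ} (hz : z ∈ Hp) (w : ℂ) :
    fderiv ℝ (fun z => L1 (u z) + L2 (v z)) z w = L1 (fderiv ℝ u z w) + L2 (fderiv ℝ v z w) := by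
  have h1 : HasFDerivAt (fun z => L1 (u z)) (L1.comp (fderiv ℝ u z)) z :=
    L1.hasFDerivAt.comp z (sm_diff hu hz).hasFDerivAt
  have h2 : HasFDerivAt (fun z => L2 (v z)) (L2.comp (fderiv ℝ v z)) z :=
    L2.hasFDerivAt.comp z (sm_diff hv hz).hasFDerivAt
  have h3 : HasFDerivAt (fun z => L1 (u z) + L2 (v z))
      (L1.comp (fderiv ℝ u z) + L2.comp (fderiv ℝ v z)) z := h1.add h2
  rw [h3.fderiv]
  rfl

/-- Multiplication of reals by a complex number. -/
def Lr (w : ℂ) : ℝ →L[ℝ] ℂ := (L1 w).comp Complex.ofRealCLM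

lemma Lr_apply (w : ℂ) (t : ℝ) : Lr w t = w * t := rfl

lemma sm_re {g : ℂ → ℝ} (hg : SmX g) (w : ℂ) : SmX (fun z => w * (g z : ℂ)) :=
  (Lr w).contDiff.comp_contDiffOn hg

lemma fd_re {g : ℂ → ℝ} (hg : SmX g) (w : ℂ) {z : ℂ} (hz : z ∈ Hp) (h : ℂ) :
    fderiv ℝ (fun z => w * (g z : ℂ)) z h = w * ((fderiv ℝ g z h : ℝ) : ℂ) := by
  have h1 : HasFDerivAt (fun z => w * (g z : ℂ)) ((Lr w).comp (fderiv ℝ g z)) z :=
    (Lr w).hasFDerivAt.comp z (sm_diff hg hz).hasFDerivAt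
  rw [h1.fderiv]
  rfl

lemma fd_re2 {g k : ℂ → ℝ} (hg : SmX g) (hk : SmX k) (w v : ℂ) {z : ℂ} (hz : z ∈ Hp) (h : ℂ) :
    fderiv ℝ (fun z => w * (g z : ℂ) + v * (k z : ℂ)) z h =
      w * ((fderiv ℝ g z h : ℝ) : ℂ) + v * ((fderiv ℝ k z h : ℝ) : ℂ) := by
  have h1 : HasFDerivAt (fun z => w * (g z : ℂ)) ((Lr w).comp (fderiv ℝ g z)) z :=
    (Lr w).hasFDerivAt.comp z (sm_diff hg hz).hasFDerivAt
  have h2 : HasFDerivAt (fun z => v * (k z : ℂ)) ((Lr v).comp (fderiv ℝ k z)) z :=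
    (Lr v).hasFDerivAt.comp z (sm_diff hk hz).hasFDerivAt
  have h3 : HasFDerivAt (fun z => w * (g z : ℂ) + v * (k z : ℂ))
      ((Lr w).comp (fderiv ℝ g z) + (Lr v).comp (fderiv ℝ k z)) z := h1.add h2
  rw [h3.fderiv]
  rfl

lemma fd_split (T : ℂ →L[ℝ] X) (h : ℂ) : T h = h.re • T 1 + h.im • T Complex.I := by
  rw [← map_smul, ← map_smul, ← map_add]
  congr 1
  simp

end DEV_

open DEV_ in
/-- DEV. The developing map. -/
theorem p_DEV (h_BRK : T_BRK) (h_FLT : T_FLT) : T_DEV := by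
  intro E F G hE hF hG hpos hK
  set a : ℂ → ℝ := fun z => Real.sqrt (E z) with ha
  set b : ℂ → ℝ := fun z => F z / a z with hb
  set c : ℂ → ℝ := fun z => Real.sqrt (E z * G z - F z ^ 2) / a z with hc
  have hapos : ∀ z ∈ Hp, 0 < a z := fun z hz => Real.sqrt_pos.2 (hpos z hz).1
  have hcpos : ∀ z ∈ Hp, 0 < c z := fun z hz =>
    div_pos (Real.sqrt_pos.2 (hpos z hz).2) (hapos z hz)
  have sa : SmX a := ContDiffOn.sqrt hE fun z hz => (hpos z hz).1.ne'
  have sb : SmX b := ContDiffOn.div hF sa fun z hz => (hapos z hz).ne'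
  have sc : SmX c := ContDiffOn.div
    (ContDiffOn.sqrt ((ContDiffOn.mul hE hG).sub (ContDiffOn.pow hF 2))
      fun z hz => (hpos z hz).2.ne') sa fun z hz => (hapos z hz).ne'
  have eE : ∀ z ∈ Hp, E z = a z ^ 2 := fun z hz => (Real.sq_sqrt (hpos z hz).1.le).symm
  have eF : ∀ z ∈ Hp, F z = a z * b z := by
    intro z hz
    have := (hapos z hz).ne'
    rw [hb]
    field_simp
  have eG : ∀ z ∈ Hp, G z = b z ^ 2 + c z ^ 2 := by
    intro z hz
    have h1 := (hapos z hz).ne'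
    have h2 : Real.sqrt (E z * G z - F z ^ 2) ^ 2 = E z * G z - F z ^ 2 :=
      Real.sq_sqrt (hpos z hz).2.le
    rw [hb, hc]
    simp only
    rw [div_pow, div_pow, h2, ← eE z hz]
    have h3 := (hpos z hz).1.ne'
    field_simp
    ring
  set p : ℂ → ℝ := fun z => (dx b z - dy a z) / c z with hp
  set q : ℂ → ℝ := fun z => (dx c z + p z * b z) / a z with hq
  have sp : SmX p := ContDiffOn.div ((sm_dx sb).sub (sm_dy sa)) sc fun z hz => (hcpos z hz).ne'
  have sq : SmX q := ContDiffOn.div ((sm_dx sc).add (ContDiffOn.mul sp sb)) sa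
    fun z hz => (hapos z hz).ne'
  have k1 : ∀ z ∈ Hp, dx b z - dy a z = p z * c z := by
    intro z hz
    have := (hcpos z hz).ne'
    rw [hp]
    field_simp
  have k2 : ∀ z ∈ Hp, dx c z = a z * q z - p z * b z := by
    intro z hz
    have := (hapos z hz).ne'
    rw [hq]
    field_simp
    ring
  have k3 : ∀ z ∈ Hp, dx q z - dy p z = a z * c z := by
    refine h_BRK a b c sa sb sc hapos hcpos ?_ p q (fun z => rfl) (fun z => rfl)
    intro z hz
    rw [← hK z hz]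
    exact (gaussK_congr eE eF eG z hz).symm
  -- the operators
  set uA : ℂ → ℂ := fun z => (Complex.I / 2) * (q z : ℂ) with huA
  set vA : ℂ → ℂ := fun z => (-1 / 2 : ℂ) * (b z : ℂ) + (Complex.I / 2) * (c z : ℂ) with hvA
  set uB : ℂ → ℂ := fun z => (Complex.I / 2) * (p z : ℂ) with huB
  set vB : ℂ → ℂ := fun z => (-1 / 2 : ℂ) * (a z : ℂ) with hvB
  have suA : SmX uA := sm_re sq _
  have svA : SmX vA := (sm_re sb _).add (sm_re sc _)
  have suB : SmX uB := sm_re sp _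
  have svB : SmX vB := sm_re sa _
  have hflat : ∀ z ∈ Hp, dx (fun z => L1 (uA z) + L2 (vA z)) z -
      dy (fun z => L1 (uB z) + L2 (vB z)) z +
      (L1 (uA z) + L2 (vA z)).comp (L1 (uB z) + L2 (vB z)) -
      (L1 (uB z) + L2 (vB z)).comp (L1 (uA z) + L2 (vA z)) = 0 := by
    intro z hz
    have e1 : dx (fun z => L1 (uA z) + L2 (vA z)) z = L1 ((Complex.I / 2) * ((dx q z : ℝ) : ℂ)) +
        L2 ((-1 / 2 : ℂ) * ((dx b z : ℝ) : ℂ) + (Complex.I / 2) * ((dx c z : ℝ) : ℂ)) := by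
      unfold dx
      rw [fd_op suA svA hz, fd_re sq _ hz, fd_re2 sb sc _ _ hz]
    have e2 : dy (fun z => L1 (uB z) + L2 (vB z)) z = L1 ((Complex.I / 2) * ((dy p z : ℝ) : ℂ)) +
        L2 ((-1 / 2 : ℂ) * ((dy a z : ℝ) : ℂ)) := by
      unfold dy
      rw [fd_op suB svB hz, fd_re sp _ hz, fd_re sa _ hz]
    rw [e1, e2]
    have q1 : ((dx b z : ℝ) : ℂ) - ((dy a z : ℝ) : ℂ) = (p z : ℂ) * (c z : ℂ) := by
      exact_mod_cast congrArg (fun t : ℝ => (t : ℂ)) (k1 z hz)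
    have q2 : ((dx c z : ℝ) : ℂ) = (a z : ℂ) * (q z : ℂ) - (p z : ℂ) * (b z : ℂ) := by
      exact_mod_cast congrArg (fun t : ℝ => (t : ℂ)) (k2 z hz)
    have q3 : ((dx q z : ℝ) : ℂ) - ((dy p z : ℝ) : ℂ) = (a z : ℂ) * (c z : ℂ) := by
      exact_mod_cast congrArg (fun t : ℝ => (t : ℂ)) (k3 z hz)
    refine ContinuousLinearMap.ext fun N => ?_
    simp only [ContinuousLinearMap.add_apply, ContinuousLinearMap.sub_apply,
      ContinuousLinearMap.comp_apply, L1_apply, L2_apply, ContinuousLinearMap.zero_apply,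
      huA, hvA, huB, hvB, map_add, map_mul, Complex.conj_ofReal, map_div₀, Complex.conj_I,
      map_neg, map_one, map_ofNat, Complex.conj_conj]
    linear_combination (Complex.I / 2 * N) * q3 + (-1 / 2 * (starRingEnd ℂ) N) * q1 +
      (Complex.I / 2 * (starRingEnd ℂ) N) * q2 -
      ((p z : ℂ) * (c z : ℂ) / 2 * (starRingEnd ℂ) N) * Complex.I_sq
  obtain ⟨N, hN0, hNs, hN⟩ := h_FLT _ _ (sm_op suA svA) (sm_op suB svB) hflat Complex.I
  obtain ⟨D, hD0, hDs, hD⟩ := h_FLT _ _ (sm_op suA svA) (sm_op suB svB) hflat 1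
  simp only [ContinuousLinearMap.add_apply, L1_apply, L2_apply, dx, dy] at hN hD
  -- the Wronskian
  have hI : Complex.I ∈ Hp := by
    show 0 < Complex.I.im
    simp
  have hconv : Convex ℝ Hp := convex_halfSpace_im_gt 0
  set W : ℂ → ℝ := fun z => (N z * (starRingEnd ℂ) (D z)).im with hW
  have hWd : ∀ z ∈ Hp, HasFDerivAt W (Complex.imCLM.comp
      (N z • ((Complex.conjCLE : ℂ →L[ℝ] ℂ).comp (fderiv ℝ D z)) +
        (starRingEnd ℂ) (D z) • fderiv ℝ N z)) z := by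
    intro z hz
    have h1 : HasFDerivAt N (fderiv ℝ N z) z := (sm_diff hNs hz).hasFDerivAt
    have h2 : HasFDerivAt (fun z => (starRingEnd ℂ) (D z))
        ((Complex.conjCLE : ℂ →L[ℝ] ℂ).comp (fderiv ℝ D z)) z :=
      (Complex.conjCLE : ℂ →L[ℝ] ℂ).hasFDerivAt.comp z (sm_diff hDs hz).hasFDerivAt
    exact Complex.imCLM.hasFDerivAt.comp z (h1.mul h2)
  have hW0 : ∀ z ∈ Hp, fderiv ℝ W z = 0 := by
    intro z hz
    rw [(hWd z hz).fderiv]
    refine ContinuousLinearMap.ext fun h => ?_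
    rw [fd_split]
    obtain ⟨n1, n2⟩ := hN z hz
    obtain ⟨d1, d2⟩ := hD z hz
    simp only [ContinuousLinearMap.comp_apply, ContinuousLinearMap.add_apply,
      ContinuousLinearMap.smul_apply, n1, n2, d1, d2, huA, hvA, huB, hvB, smul_eq_mul,
      ContinuousLinearMap.zero_apply]
    simp [Complex.mul_im, Complex.mul_re, Complex.div_re, Complex.div_im]
    ring
  have hW1 : ∀ z ∈ Hp, W z = 1 := by
    intro z hz
    have h1 := isOpen_Hp.is_const_of_fderiv_eq_zero hconv.isPreconnected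
      (fun z hz => (hWd z hz).differentiableAt.differentiableWithinAt) hW0 hz hI
    rw [h1, hW]
    simp only
    rw [hN0, hD0]
    simp
  have hDne : ∀ z ∈ Hp, D z ≠ 0 := by
    intro z hz h0
    have := hW1 z hz
    rw [hW] at this
    simp only [h0, map_zero, mul_zero, Complex.zero_im] at this
    norm_num at this
  refine ⟨fun z => N z * (D z)⁻¹, ?_, ?_, ?_⟩
  · exact ContDiffOn.mul hNs (ContDiffOn.inv hDs hDne)
  · intro z hz
    show 0 < (N z * (D z)⁻¹).im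
    have h1 : N z * (D z)⁻¹ = N z * (starRingEnd ℂ) (D z) * ((Complex.normSq (D z))⁻¹ : ℝ) := by
      rw [Complex.inv_def]
      push_cast
      ring
    rw [h1, Complex.im_mul_ofReal]
    have h2 : (N z * (starRingEnd ℂ) (D z)).im = 1 := hW1 z hz
    rw [h2, one_mul]
    exact inv_pos.2 (Complex.normSq_pos.2 (hDne z hz))
  · intro z hz h
    have hds : Smo (fun z => N z * (D z)⁻¹) := ContDiffOn.mul hNs (ContDiffOn.inv hDs hDne)
    set dev : ℂ → ℂ := fun z => N z * (D z)⁻¹ with hdev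
    have h1 : HasFDerivAt dev (fderiv ℝ dev z) z := (sm_diff hds hz).hasFDerivAt
    have h2 : HasFDerivAt D (fderiv ℝ D z) z := (sm_diff hDs hz).hasFDerivAt
    have h3 : fderiv ℝ N z = dev z • fderiv ℝ D z + D z • fderiv ℝ dev z := by
      rw [← (h1.mul h2).fderiv]
      refine Filter.EventuallyEq.fderiv_eq ?_
      filter_upwards [isOpen_Hp.mem_nhds hz] with y hy
      show N y = N y * (D y)⁻¹ * D y
      rw [mul_assoc, inv_mul_cancel₀ (hDne y hy), mul_one]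
    have h4 : fderiv ℝ N z h = dev z * fderiv ℝ D z h + D z * fderiv ℝ dev z h := by
      rw [h3]
      rfl
    have hD' := hDne z hz
    have h5 : fderiv ℝ dev z h = (fderiv ℝ N z h * D z - N z * fderiv ℝ D z h) / D z ^ 2 := by
      rw [h4, hdev]
      simp only
      field_simp
      ring
    obtain ⟨n1, n2⟩ := hN z hz
    obtain ⟨d1, d2⟩ := hD z hz
    have hw : N z * (starRingEnd ℂ) (D z) - (starRingEnd ℂ) (N z) * D z = 2 * Complex.I := by
      have h2 : (N z * (starRingEnd ℂ) (D z)).im = 1 := hW1 z hz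
      apply Complex.ext
      · simp [Complex.mul_re]
      · simp [Complex.mul_im] at h2 ⊢
        linarith
    have h6 : fderiv ℝ N z h * D z - N z * fderiv ℝ D z h =
        ((c z * h.im : ℝ) : ℂ) + ((a z * h.re + b z * h.im : ℝ) : ℂ) * Complex.I := by
      rw [fd_split (fderiv ℝ N z) h, fd_split (fderiv ℝ D z) h, n1, n2, d1, d2]
      simp only [huA, hvA, huB, hvB, Complex.real_smul]
      push_cast
      linear_combination ((h.re : ℂ) * (a z : ℂ) / 2 + (h.im : ℂ) * (b z : ℂ) / 2 -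
        (h.im : ℂ) * (c z : ℂ) * Complex.I / 2) * hw - ((h.im : ℂ) * (c z : ℂ)) * Complex.I_sq
    have h7 : (dev z).im = (Complex.normSq (D z))⁻¹ := by
      have h1 : dev z = N z * (starRingEnd ℂ) (D z) * ((Complex.normSq (D z))⁻¹ : ℝ) := by
        rw [hdev]
        simp only
        rw [Complex.inv_def]
        push_cast
        ring
      rw [h1, Complex.im_mul_ofReal]
      have h2 : (N z * (starRingEnd ℂ) (D z)).im = 1 := hW1 z hz
      rw [h2, one_mul]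
    have h8 : ‖((c z * h.im : ℝ) : ℂ) + ((a z * h.re + b z * h.im : ℝ) : ℂ) * Complex.I‖ ^ 2 =
        (c z * h.im) ^ 2 + (a z * h.re + b z * h.im) ^ 2 := by
      rw [← Complex.normSq_eq_norm_sq, Complex.normSq_add_mul_I]
    rw [h5, h6, norm_div, div_pow, h8, norm_pow, h7, eE z hz, eF z hz, eG z hz,
      Complex.normSq_eq_norm_sq]
    have h9 : ‖D z‖ ≠ 0 := norm_ne_zero_iff.2 hD'
    field_simp
    ring

end Pool.Agent.HSP
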