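import Pool.Agent.HSP.Targets5

set_option autoImplicit false

/-!
# HSP: flat linear systems on the half plane
-/

open scoped Classical ENNReal Topology

noncomputable section

namespace Pool.Agent.HSP

namespace FLT_

lemma isOpen_Hp : IsOpen Hp := by
  unfold Hp
  exact isOpen_lt continuous_const Complex.continuous_im

/-- Gronwall's inequality in both directions. -/
lemma gron (f f' : ℝ → ℂ) (K a b : ℝ) (hd : ∀ t ∈ Set.uIcc a b, HasDerivAt f (f' t) t)
    (hb : ∀ t ∈ Set.uIcc a b, ‖f' t‖ ≤ K * ‖f t‖) : ‖f b‖ ≤ ‖f a‖ * Real.exp (K * |b - a|) := by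
  rcases le_total a b with h | h
  · rw [Set.uIcc_of_le h] at hd hb
    have := norm_le_gronwallBound_of_norm_deriv_right_le (f := f) (f' := f') (δ := ‖f a‖) (K := K)
      (ε := 0) (a := a) (b := b) (fun t ht => (hd t ht).continuousAt.continuousWithinAt)
      (fun t ht => (hd t ⟨ht.1, ht.2.le⟩).hasDerivWithinAt) le_rfl
      (fun t ht => by simpa using hb t ⟨ht.1, ht.2.le⟩) b ⟨h, le_rfl⟩
    rw [gronwallBound_ε0] at this
    rw [abs_of_nonneg (sub_nonneg.2 h)]
    exact this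
  · rw [Set.uIcc_of_ge h] at hd hb
    have hd' : ∀ t ∈ Set.Icc (-a) (-b), HasDerivAt (fun s => f (-s)) (-(f' (-t))) t := by
      intro t ht
      have h1 := hd (-t) ⟨by linarith [ht.2], by linarith [ht.1]⟩
      have h2 := HasDerivAt.scomp (g₁ := f) (h := fun s : ℝ => -s) t h1 (hasDerivAt_neg t)
      simpa [Function.comp_def] using h2
    have := norm_le_gronwallBound_of_norm_deriv_right_le (f := fun s => f (-s))
      (f' := fun t => -(f' (-t))) (δ := ‖f a‖) (K := K)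
      (ε := 0) (a := -a) (b := -b) (fun t ht => (hd' t ht).continuousAt.continuousWithinAt)
      (fun t ht => (hd' t ⟨ht.1, ht.2.le⟩).hasDerivWithinAt) (by simp)
      (fun t ht => by
        have := hb (-t) ⟨by linarith [ht.2], by linarith [ht.1]⟩
        simpa using this) (-b) ⟨by linarith, le_rfl⟩
    rw [gronwallBound_ε0] at this
    rw [abs_of_nonpos (by linarith)]
    simp only [neg_neg] at this
    convert this using 3
    ring

/-- The mean value inequality in both directions. -/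
lemma mvt (f f' : ℝ → ℂ) (M a b : ℝ) (hd : ∀ t ∈ Set.uIcc a b, HasDerivAt f (f' t) t)
    (hb : ∀ t ∈ Set.uIcc a b, ‖f' t‖ ≤ M) : ‖f b - f a‖ ≤ M * |b - a| := by
  have := Convex.norm_image_sub_le_of_norm_hasDerivWithin_le (f := f) (f' := f') (s := Set.uIcc a b)
    (C := M) (x := a) (y := b) (fun t ht => (hd t ht).hasDerivWithinAt) hb (convex_uIcc a b)
    Set.left_mem_uIcc Set.right_mem_uIcc
  simpa [Real.norm_eq_abs] using this

/-- The derivatives in both variables. -/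
structure Sys (A B : ℂ → ℂ →L[ℝ] ℂ) (F : ℝ → ℝ → ℂ) : Prop where
  hx : ∀ x y : ℝ, 0 < y → HasDerivAt (fun s => F s y) (B (x + y * Complex.I) (F x y)) x
  hy : ∀ x y : ℝ, 0 < y → HasDerivAt (fun t => F x t) (A (x + y * Complex.I) (F x y)) y

lemma mem_Hp (x y : ℝ) (hy : 0 < y) : ((x : ℂ) + y * Complex.I) ∈ Hp := by
  unfold Hp
  simpa using hy

lemma cont {A B : ℂ → ℂ →L[ℝ] ℂ} {F : ℝ → ℝ → ℂ} (hF : Sys A B F) (hA : ContinuousOn A Hp)
    (hB : ContinuousOn B Hp) (x₀ y₀ : ℝ) (hy₀ : 0 < y₀) :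
    ContinuousAt (fun p : ℝ × ℝ => F p.1 p.2) (x₀, y₀) := by
  set r : ℝ := y₀ / 2 with hr
  have hr0 : 0 < r := by positivity
  have hcomp : IsCompact (Set.Icc (x₀ - r) (x₀ + r) ×ℂ Set.Icc (y₀ - r) (y₀ + r)) :=
    isCompact_Icc.reProdIm isCompact_Icc
  set R : Set ℂ := Set.Icc (x₀ - r) (x₀ + r) ×ℂ Set.Icc (y₀ - r) (y₀ + r) with hR
  have hRH : R ⊆ Hp := by
    intro z hz
    have h1 := (Complex.mem_reProdIm.1 hz).2.1
    unfold Hp
    simp only [Set.mem_ofPred_eq]
    linarith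
  obtain ⟨K₁, hK₁⟩ := hcomp.exists_bound_of_continuousOn (hA.mono hRH)
  obtain ⟨K₂, hK₂⟩ := hcomp.exists_bound_of_continuousOn (hB.mono hRH)
  set K : ℝ := max (max K₁ K₂) 0 with hK
  have hK0 : 0 ≤ K := le_max_right _ _
  have hAK : ∀ z ∈ R, ‖A z‖ ≤ K := fun z hz => (hK₁ z hz).trans ((le_max_left _ _).trans (le_max_left _ _))
  have hBK : ∀ z ∈ R, ‖B z‖ ≤ K := fun z hz => (hK₂ z hz).trans ((le_max_right _ _).trans (le_max_left _ _))
  have hmem : ∀ x y : ℝ, |x - x₀| ≤ r → |y - y₀| ≤ r → ((x : ℂ) + y * Complex.I) ∈ R := by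
    intro x y hx hy
    rw [abs_le] at hx hy
    refine Complex.mem_reProdIm.2 ⟨?_, ?_⟩
    · simp only [Complex.add_re, Complex.ofReal_re, Complex.mul_re, Complex.I_re, Complex.ofReal_im,
        Complex.I_im, mul_zero, zero_mul, sub_zero, add_zero, Set.mem_Icc]
      constructor <;> linarith
    · simp only [Complex.add_im, Complex.ofReal_re, Complex.mul_im, Complex.I_re, Complex.ofReal_im,
        Complex.I_im, mul_zero, zero_add, mul_one, add_zero, Set.mem_Icc]
      constructor <;> linarith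
  have hsub : ∀ a b c : ℝ, |b - a| ≤ r → c ∈ Set.uIcc a b → |c - a| ≤ r := by
    intro a b c hab hc
    exact (Set.abs_sub_left_of_mem_uIcc hc).trans hab
  have hposy : ∀ y : ℝ, |y - y₀| ≤ r → 0 < y := by
    intro y hy
    rw [abs_le] at hy
    linarith
  have hxb : ∀ x y : ℝ, |x - x₀| ≤ r → |y - y₀| ≤ r → ‖B (x + y * Complex.I) (F x y)‖ ≤ K * ‖F x y‖ := by
    intro x y hx hy
    exact ((B _).le_opNorm _).trans (mul_le_mul_of_nonneg_right (hBK _ (hmem x y hx hy)) (norm_nonneg _))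
  have hyb : ∀ x y : ℝ, |x - x₀| ≤ r → |y - y₀| ≤ r → ‖A (x + y * Complex.I) (F x y)‖ ≤ K * ‖F x y‖ := by
    intro x y hx hy
    exact ((A _).le_opNorm _).trans (mul_le_mul_of_nonneg_right (hAK _ (hmem x y hx hy)) (norm_nonneg _))
  have hr0' : |y₀ - y₀| ≤ r := by simpa using hr0.le
  -- the bound on the horizontal segment
  have b1 : ∀ x : ℝ, |x - x₀| ≤ r → ‖F x y₀‖ ≤ ‖F x₀ y₀‖ * Real.exp (K * r) := by
    intro x hx
    have := gron (fun s => F s y₀) (fun s => B (s + y₀ * Complex.I) (F s y₀)) K x₀ x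
      (fun s hs => hF.hx s y₀ hy₀) (fun s hs => hxb s y₀ (hsub _ _ _ hx hs) hr0')
    refine this.trans (mul_le_mul_of_nonneg_left (Real.exp_le_exp.2 ?_) (norm_nonneg _))
    exact mul_le_mul_of_nonneg_left hx hK0
  set M : ℝ := ‖F x₀ y₀‖ * Real.exp (K * r) * Real.exp (K * r) with hM
  have b2 : ∀ x y : ℝ, |x - x₀| ≤ r → |y - y₀| ≤ r → ‖F x y‖ ≤ M := by
    intro x y hx hy
    have := gron (fun t => F x t) (fun t => A (x + t * Complex.I) (F x t)) K y₀ y
      (fun t ht => hF.hy x t (hposy t (hsub _ _ _ hy ht))) (fun t ht => hyb x t hx (hsub _ _ _ hy ht))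
    refine this.trans (mul_le_mul (b1 x hx) (Real.exp_le_exp.2 ?_) (Real.exp_nonneg _) (by positivity))
    exact mul_le_mul_of_nonneg_left hy hK0
  have b3 : ∀ x y : ℝ, |x - x₀| ≤ r → |y - y₀| ≤ r → ‖F x y - F x₀ y₀‖ ≤ K * M * |y - y₀| + K * M * |x - x₀| := by
    intro x y hx hy
    have h1 := mvt (fun s => F s y₀) (fun s => B (s + y₀ * Complex.I) (F s y₀)) (K * M) x₀ x
      (fun s hs => hF.hx s y₀ hy₀) (fun s hs => (hxb s y₀ (hsub _ _ _ hx hs) hr0').trans
        (mul_le_mul_of_nonneg_left (b2 s y₀ (hsub _ _ _ hx hs) hr0') hK0))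
    have h2 := mvt (fun t => F x t) (fun t => A (x + t * Complex.I) (F x t)) (K * M) y₀ y
      (fun t ht => hF.hy x t (hposy t (hsub _ _ _ hy ht))) (fun t ht => (hyb x t hx (hsub _ _ _ hy ht)).trans
        (mul_le_mul_of_nonneg_left (b2 x t hx (hsub _ _ _ hy ht)) hK0))
    calc ‖F x y - F x₀ y₀‖ = ‖(F x y - F x y₀) + (F x y₀ - F x₀ y₀)‖ := by congr 1; ring
      _ ≤ ‖F x y - F x y₀‖ + ‖F x y₀ - F x₀ y₀‖ := norm_add_le _ _
      _ ≤ _ := add_le_add h2 h1
  -- conclusion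
  rw [ContinuousAt, tendsto_iff_norm_sub_tendsto_zero]
  have hlim : Filter.Tendsto (fun p : ℝ × ℝ => K * M * |p.2 - y₀| + K * M * |p.1 - x₀|) (𝓝 (x₀, y₀)) (𝓝 0) := by
    have : Continuous (fun p : ℝ × ℝ => K * M * |p.2 - y₀| + K * M * |p.1 - x₀|) := by fun_prop
    have h := this.tendsto (x₀, y₀)
    simpa using h
  refine squeeze_zero' (Filter.Eventually.of_forall fun p => norm_nonneg _) ?_ hlim
  have e1 : ∀ᶠ p : ℝ × ℝ in 𝓝 (x₀, y₀), |p.1 - x₀| ≤ r := by
    have : Continuous (fun p : ℝ × ℝ => |p.1 - x₀|) := by fun_prop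
    have h := this.tendsto (x₀, y₀)
    simp only [sub_self, abs_zero] at h
    exact (h.eventually (gt_mem_nhds hr0)).mono fun p hp => hp.le
  have e2 : ∀ᶠ p : ℝ × ℝ in 𝓝 (x₀, y₀), |p.2 - y₀| ≤ r := by
    have : Continuous (fun p : ℝ × ℝ => |p.2 - y₀|) := by fun_prop
    have h := this.tendsto (x₀, y₀)
    simp only [sub_self, abs_zero] at h
    exact (h.eventually (gt_mem_nhds hr0)).mono fun p hp => hp.le
  filter_upwards [e1, e2] with p h1 h2
  exact b3 p.1 p.2 h1 h2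

/-- The function on the half plane. -/
def fz (F : ℝ → ℝ → ℂ) (z : ℂ) : ℂ := F z.re z.im

lemma fder {A B : ℂ → ℂ →L[ℝ] ℂ} {F : ℝ → ℝ → ℂ} (hF : Sys A B F) (hA : ContinuousOn A Hp)
    (hB : ContinuousOn B Hp) (z : ℂ) (hz : z ∈ Hp) :
    HasFDerivAt (fz F) (Complex.reCLM.smulRight (B z (fz F z)) + Complex.imCLM.smulRight (A z (fz F z))) z := by
  have hy₀ : 0 < z.im := hz
  have hFc : ContinuousAt (fun p : ℝ × ℝ => F p.1 p.2) (z.re, z.im) := cont hF hA hB z.re z.im hy₀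
  have hc : Continuous (fun p : ℝ × ℝ => ((p.1 : ℂ) + p.2 * Complex.I)) := by fun_prop
  have hAc : ContinuousAt (fun p : ℝ × ℝ => A ((p.1 : ℂ) + p.2 * Complex.I)) (z.re, z.im) := by
    have h1 : ContinuousAt A (((z.re, z.im) : ℝ × ℝ).1 + ((z.re, z.im) : ℝ × ℝ).2 * Complex.I) := by
      refine hA.continuousAt (isOpen_Hp.mem_nhds ?_)
      exact mem_Hp _ _ hy₀
    exact ContinuousAt.comp (f := fun p : ℝ × ℝ => ((p.1 : ℂ) + p.2 * Complex.I)) h1 hc.continuousAt
  have hBc : ContinuousAt (fun p : ℝ × ℝ => B ((p.1 : ℂ) + p.2 * Complex.I)) (z.re, z.im) := by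
    have h1 : ContinuousAt B (((z.re, z.im) : ℝ × ℝ).1 + ((z.re, z.im) : ℝ × ℝ).2 * Complex.I) := by
      refine hB.continuousAt (isOpen_Hp.mem_nhds ?_)
      exact mem_Hp _ _ hy₀
    exact ContinuousAt.comp (f := fun p : ℝ × ℝ => ((p.1 : ℂ) + p.2 * Complex.I)) h1 hc.continuousAt
  have hev : ∀ᶠ v : ℝ × ℝ in 𝓝 (z.re, z.im), 0 < v.2 :=
    (continuous_snd.tendsto ((z.re, z.im) : ℝ × ℝ)).eventually (lt_mem_nhds hy₀)
  have key := hasStrictFDerivAt_uncurry_coprod (𝕜 := ℝ) (u := (z.re, z.im)) (f := F)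
    (f₁ := fun x y => ContinuousLinearMap.toSpanSingleton ℝ (B ((x : ℂ) + y * Complex.I) (F x y)))
    (f₂ := fun x y => ContinuousLinearMap.toSpanSingleton ℝ (A ((x : ℂ) + y * Complex.I) (F x y)))
    (hev.mono fun v hv => (hF.hx v.1 v.2 hv).hasFDerivAt)
    (hev.mono fun v hv => (hF.hy v.1 v.2 hv).hasFDerivAt)
    (by
      have h1 : ContinuousAt (fun p : ℝ × ℝ => B ((p.1 : ℂ) + p.2 * Complex.I) (F p.1 p.2)) (z.re, z.im) :=
        hBc.clm_apply hFc
      have h2 : Continuous (fun v : ℂ => ContinuousLinearMap.toSpanSingleton ℝ v) :=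
        (ContinuousLinearMap.toSpanSingletonCLE (𝕜 := ℝ) (E := ℂ)).continuous
      exact h2.continuousAt.comp h1)
    (by
      have h1 : ContinuousAt (fun p : ℝ × ℝ => A ((p.1 : ℂ) + p.2 * Complex.I) (F p.1 p.2)) (z.re, z.im) :=
        hAc.clm_apply hFc
      have h2 : Continuous (fun v : ℂ => ContinuousLinearMap.toSpanSingleton ℝ v) :=
        (ContinuousLinearMap.toSpanSingletonCLE (𝕜 := ℝ) (E := ℂ)).continuous
      exact h2.continuousAt.comp h1)
  have key2 := key.hasFDerivAt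
  have hE : HasFDerivAt (fun w : ℂ => (w.re, w.im)) (Complex.reCLM.prod Complex.imCLM) z :=
    Complex.reCLM.hasFDerivAt.prodMk Complex.imCLM.hasFDerivAt
  have key3 := HasFDerivAt.comp (g := (Function.HasUncurry.uncurry F)) (f := fun w : ℂ => (w.re, w.im)) z key2 hE
  have hfun : (Function.HasUncurry.uncurry F) ∘ (fun w : ℂ => (w.re, w.im)) = fz F := by
    funext w
    rfl
  rw [hfun] at key3
  have heq : (Complex.reCLM.smulRight (B z (fz F z)) + Complex.imCLM.smulRight (A z (fz F z)) : ℂ →L[ℝ] ℂ) =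
      ((ContinuousLinearMap.toSpanSingleton ℝ (B ((z.re : ℂ) + z.im * Complex.I) (F z.re z.im))).coprod
        (ContinuousLinearMap.toSpanSingleton ℝ (A ((z.re : ℂ) + z.im * Complex.I) (F z.re z.im)))).comp
      (Complex.reCLM.prod Complex.imCLM) := by
    refine ContinuousLinearMap.ext fun w => ?_
    simp [fz, Complex.re_add_im]
  rw [heq]
  exact key3

lemma smooth {A B : ℂ → ℂ →L[ℝ] ℂ} {F : ℝ → ℝ → ℂ} (hF : Sys A B F) (hA : SmX A) (hB : SmX B) : Smo (fz F) := by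
  have hd : ∀ z ∈ Hp, HasFDerivAt (fz F)
      (Complex.reCLM.smulRight (B z (fz F z)) + Complex.imCLM.smulRight (A z (fz F z))) z :=
    fder hF hA.continuousOn hB.continuousOn
  unfold Smo
  rw [contDiffOn_infty]
  intro n
  induction n with
  | zero =>
    rw [Nat.cast_zero, contDiffOn_zero]
    exact fun z hz => (hd z hz).continuousAt.continuousWithinAt
  | succ n ih =>
    rw [Nat.cast_succ, contDiffOn_succ_iff_fderiv_of_isOpen isOpen_Hp]
    refine ⟨fun z hz => (hd z hz).differentiableAt.differentiableWithinAt, ?_, ?_⟩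
    · intro h
      exact absurd h (by simp)
    · have hAn : ContDiffOn ℝ (n : WithTop ℕ∞) A Hp := hA.of_le (by exact_mod_cast le_top)
      have hBn : ContDiffOn ℝ (n : WithTop ℕ∞) B Hp := hB.of_le (by exact_mod_cast le_top)
      have h1 : ContDiffOn ℝ (n : WithTop ℕ∞) (fun z => B z (fz F z)) Hp := hBn.clm_apply ih
      have h2 : ContDiffOn ℝ (n : WithTop ℕ∞) (fun z => A z (fz F z)) Hp := hAn.clm_apply ih
      have h3 : ContDiffOn ℝ (n : WithTop ℕ∞) (fun z => (Complex.reCLM.smulRight (B z (fz F z)) : ℂ →L[ℝ] ℂ)) Hp :=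
        contDiffOn_const.smulRight h1
      have h4 : ContDiffOn ℝ (n : WithTop ℕ∞) (fun z => (Complex.imCLM.smulRight (A z (fz F z)) : ℂ →L[ℝ] ℂ)) Hp :=
        contDiffOn_const.smulRight h2
      exact (h3.add h4).congr fun z hz => (hd z hz).fderiv

end FLT_

theorem p_FLT (h_LOD : T_LOD) (h_PDF : T_PDF) : T_FLT := by
  intro A B hA hB hflat N₀
  have hcI : Continuous (fun t : ℝ => ((t : ℂ) + Complex.I)) := by fun_prop
  obtain ⟨N1, hN1, hN1d⟩ := h_LOD ℂ Set.univ (fun t : ℝ => B ((t : ℂ) + Complex.I)) isOpen_univ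
    Set.ordConnected_univ (hB.continuousOn.comp hcI.continuousOn (fun t _ => by
      have := FLT_.mem_Hp t 1 one_pos
      simpa using this)) 0 (Set.mem_univ _) N₀
  have hx : ∀ x : ℝ, ∃ g : ℝ → ℂ, g 1 = N1 x ∧ ∀ t ∈ Set.Ioi (0 : ℝ),
      HasDerivAt g (A ((x : ℂ) + t * Complex.I) (g t)) t := by
    intro x
    have hcx : Continuous (fun t : ℝ => ((x : ℂ) + t * Complex.I)) := by fun_prop
    exact h_LOD ℂ (Set.Ioi 0) (fun t : ℝ => A ((x : ℂ) + t * Complex.I)) isOpen_Ioi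
      Set.ordConnected_Ioi (hA.continuousOn.comp hcx.continuousOn (fun t ht => FLT_.mem_Hp x t ht))
      1 (Set.mem_Ioi.2 one_pos) (N1 x)
  choose F hF1 hFd using hx
  have hzz : ∀ z : ℂ, ((z.re : ℂ) + z.im * Complex.I) = z := fun z => Complex.re_add_im z
  -- the derivative in the direction of the imaginary axis
  have hNy : ∀ z ∈ Hp, HasDerivAt (fun y : ℝ => FLT_.fz F (z.re + y * Complex.I)) (A z (FLT_.fz F z)) z.im := by
    intro z hz
    have h1 := hFd z.re z.im hz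
    rw [hzz] at h1
    have h2 : (fun y : ℝ => FLT_.fz F (z.re + y * Complex.I)) = F z.re := by
      funext y
      simp [FLT_.fz]
    rw [h2]
    exact h1
  have hUy : ∀ z ∈ Hp, HasDerivAt (fun y : ℝ => (fun w => B w (FLT_.fz F w)) (z.re + y * Complex.I))
      (A z (B z (FLT_.fz F z)) + dx A z (FLT_.fz F z)) z.im := by
    intro z hz
    have hBd : HasFDerivAt B (fderiv ℝ B z) z :=
      ((hB.contDiffAt (FLT_.isOpen_Hp.mem_nhds hz)).differentiableAt (by simp)).hasFDerivAt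
    have hl : HasDerivAt (fun y : ℝ => ((z.re : ℂ) + y * Complex.I)) Complex.I z.im := by
      have h0 : HasDerivAt (fun y : ℝ => (y : ℂ)) 1 z.im := Complex.ofRealCLM.hasDerivAt
      have h1 := (h0.mul_const Complex.I).const_add (z.re : ℂ)
      simpa using h1
    have hB1 : HasDerivAt (fun y : ℝ => B ((z.re : ℂ) + y * Complex.I)) (dy B z) z.im := by
      have hBd' : HasFDerivAt B (fderiv ℝ B z) ((z.re : ℂ) + z.im * Complex.I) := by
        rw [hzz]; exact hBd
      exact hBd'.comp_hasDerivAt z.im hl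
    have h3 := hB1.clm_apply (hNy z hz)
    rw [hzz] at h3
    have hfl := hflat z hz
    have hdy : dy B z = dx A z + (A z).comp (B z) - (B z).comp (A z) := by
      have : dx A z - dy B z + (A z).comp (B z) - (B z).comp (A z) + dy B z = 0 + dy B z := by rw [hfl]
      rw [zero_add] at this
      rw [← this]
      abel
    have hval : (dy B z) (FLT_.fz F z) + (B z) (A z (FLT_.fz F z)) =
        A z (B z (FLT_.fz F z)) + dx A z (FLT_.fz F z) := by
      rw [hdy]
      simp only [sub_apply, add_apply, ContinuousLinearMap.comp_apply]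
      ring
    rw [← hval]
    exact h3
  have hN1' : ∀ x : ℝ, HasDerivAt (fun x : ℝ => FLT_.fz F (x + Complex.I))
      ((fun w => B w (FLT_.fz F w)) (x + Complex.I)) x := by
    intro x
    have h2 : ∀ x : ℝ, FLT_.fz F ((x : ℂ) + Complex.I) = N1 x := by
      intro x
      simp [FLT_.fz, hF1]
    have h3 : (fun x : ℝ => FLT_.fz F (x + Complex.I)) = N1 := funext h2
    rw [h3]
    change HasDerivAt N1 (B ((x : ℂ) + Complex.I) (FLT_.fz F ((x : ℂ) + Complex.I))) x
    rw [h2 x]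
    exact hN1d x (Set.mem_univ _)
  have hNx := h_PDF A (FLT_.fz F) (fun w => B w (FLT_.fz F w)) hA hNy hUy hN1'
  have hsys : FLT_.Sys A B F := by
    refine ⟨fun x y hy => ?_, fun x y hy => hFd x y hy⟩
    have h1 := hNx ((x : ℂ) + y * Complex.I) (FLT_.mem_Hp x y hy)
    simpa [FLT_.fz] using h1
  have hfd := FLT_.fder hsys hA.continuousOn hB.continuousOn
  refine ⟨FLT_.fz F, ?_, FLT_.smooth hsys hA hB, fun z hz => ⟨?_, ?_⟩⟩
  · simp [FLT_.fz, hF1, hN1]
  · unfold dx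
    rw [(hfd z hz).fderiv]
    simp
  · unfold dy
    rw [(hfd z hz).fderiv]
    simp

end Pool.Agent.HSP
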