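import Pool.Agent.HSP.Targets5

set_option autoImplicit false

open scoped Classical ENNReal

noncomputable section

namespace Pool.Agent.HSP

namespace LCI_

theorem isOpen_Hp : IsOpen Hp := isOpen_lt continuous_const Complex.continuous_im

/-- the derivative of `dev` as an equivalence -/
theorem exEquiv {n : ℕ} {f : ℂ → EuclideanSpace ℝ (Fin n)} {dev : ℂ → ℂ} (h : LIso f dev) (z : ℂ)
    (hz : z ∈ Hp) : ∃ L : ℂ ≃L[ℝ] ℂ, HasFDerivAt dev (L : ℂ →L[ℝ] ℂ) z := by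
  have hc : ContDiffAt ℝ ((⊤ : ℕ∞) : WithTop ℕ∞) dev z :=
    (h.sm).contDiffAt (isOpen_Hp.mem_nhds hz)
  have hd : DifferentiableAt ℝ dev z := hc.differentiableAt (by simp)
  have hinj : Function.Injective (fderiv ℝ dev z) := by
    rw [injective_iff_map_eq_zero]
    intro v hv
    have h1 := h.iso z hz v
    rw [hv, norm_zero] at h1
    have h2 : (dev z).im ≠ 0 := ne_of_gt (h.mem z hz)
    have h3 : ‖fderiv ℝ f z v‖ = 0 := by
      rcases mul_eq_zero.1 h1.symm with h4 | h4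
      · exact absurd h4 h2
      · exact h4
    exact h.inj z hz v (norm_eq_zero.1 h3)
  have hinj' : Function.Injective ((fderiv ℝ dev z : ℂ →L[ℝ] ℂ) : ℂ →ₗ[ℝ] ℂ) := hinj
  refine ⟨(LinearEquiv.ofInjectiveEndo _ hinj').toContinuousLinearEquiv, ?_⟩
  have h5 : (((LinearEquiv.ofInjectiveEndo _ hinj').toContinuousLinearEquiv : ℂ ≃L[ℝ] ℂ) :
      ℂ →L[ℝ] ℂ) = fderiv ℝ dev z := by
    ext; rfl
  rw [h5]
  exact hd.hasFDerivAt

end LCI_

open LCI_ in
theorem p_LCI : T_LCI := by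
  intro n f dev h z hz
  have hcd : ∀ x ∈ Hp, ContDiffAt ℝ ((⊤ : ℕ∞) : WithTop ℕ∞) dev x := fun x hx =>
    (h.sm).contDiffAt (isOpen_Hp.mem_nhds hx)
  obtain ⟨L, hL⟩ := exEquiv h z hz
  set e := (hcd z hz).toOpenPartialHomeomorph dev hL (by simp) with he
  have hcoe : (e : ℂ → ℂ) = dev := rfl
  have hzs : z ∈ e.source := (hcd z hz).mem_toOpenPartialHomeomorph_source hL (by simp)
  have hsymz : e.symm (dev z) = z := by
    rw [← hcoe]
    exact e.left_inv hzs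
  have hV : IsOpen (e.target ∩ e.symm ⁻¹' Hp) := e.symm.isOpen_inter_preimage isOpen_Hp
  have hzV : dev z ∈ (e.target ∩ e.symm ⁻¹' Hp) ∩ Hp := by
    refine ⟨⟨?_, ?_⟩, h.mem z hz⟩
    · rw [← hcoe]
      exact e.map_source hzs
    · rw [Set.mem_preimage, hsymz]
      exact hz
  obtain ⟨r, hr, hrV⟩ := Metric.isOpen_iff.1 (hV.inter isOpen_Hp) (dev z) hzV
  refine ⟨r, hr, e.symm, e.source ∩ dev ⁻¹' (Metric.ball (dev z) r) ∩ Hp, ?_, ?_, ?_, ?_, ?_, ?_,
    ?_⟩
  · have := e.isOpen_inter_preimage (Metric.isOpen_ball (x := dev z) (ε := r))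
    rw [hcoe] at this
    exact this.inter isOpen_Hp
  · exact ⟨⟨hzs, Metric.mem_ball_self hr⟩, hz⟩
  · exact Set.inter_subset_right
  · exact fun w hw => (hrV hw).2
  · intro w hw
    have h1 := (hrV hw).1
    obtain ⟨L', hL'⟩ := exEquiv h (e.symm w) h1.2
    exact (e.contDiffAt_symm h1.1 (by rw [hcoe]; exact hL') (by
      rw [hcoe]; exact hcd _ h1.2)).contDiffWithinAt
  · intro w hw
    have h1 := (hrV hw).1
    have h2 : dev (e.symm w) = w := by
      rw [← hcoe]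
      exact e.right_inv h1.1
    refine ⟨⟨⟨e.map_target h1.1, ?_⟩, h1.2⟩, h2⟩
    rw [Set.mem_preimage, h2]
    exact hw
  · intro x hx
    refine ⟨hx.1.2, ?_⟩
    rw [← hcoe]
    exact e.left_inv hx.1.1

end Pool.Agent.HSP
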