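import Pool.Agent.HSP.Targets5

set_option autoImplicit false

open scoped Classical ENNReal Topology

noncomputable section

namespace Pool.Agent.HSP.LFT_

/-- The segment. -/
def cc (dev : ℂ → ℂ) (q : ℂ) (t : ℝ) : ℂ := dev Complex.I + t * (q - dev Complex.I)

/-- A lift of the segment on `[0, T]`. -/
structure Lft (dev : ℂ → ℂ) (q : ℂ) (T : ℝ) (γ : ℝ → ℂ) : Prop where
  cont : ContinuousOn γ (Set.Icc 0 T)
  zero : γ 0 = Complex.I
  mem : ∀ t ∈ Set.Icc (0 : ℝ) T, γ t ∈ Hp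
  eq : ∀ t ∈ Set.Icc (0 : ℝ) T, dev (γ t) = cc dev q t

lemma Lft.restrict {dev : ℂ → ℂ} {q : ℂ} {T T' : ℝ} {γ : ℝ → ℂ} (h : Lft dev q T γ)
    (hT : T' ≤ T) : Lft dev q T' γ :=
  ⟨h.cont.mono (Set.Icc_subset_Icc_right hT), h.zero, fun t ht => h.mem t ⟨ht.1, ht.2.trans hT⟩,
    fun t ht => h.eq t ⟨ht.1, ht.2.trans hT⟩⟩

lemma isOpen_Hp : IsOpen Hp := isOpen_lt continuous_const Complex.continuous_im

lemma I_mem : Complex.I ∈ Hp := by
  show 0 < Complex.I.im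
  simp

lemma cc_zero (dev : ℂ → ℂ) (q : ℂ) : cc dev q 0 = dev Complex.I := by
  simp [cc]

lemma cc_cont (dev : ℂ → ℂ) (q : ℂ) : Continuous (cc dev q) := by
  unfold cc
  fun_prop

lemma cc_contDiff (dev : ℂ → ℂ) (q : ℂ) : ContDiff ℝ ((⊤ : ℕ∞) : WithTop ℕ∞) (cc dev q) := by
  unfold cc
  exact contDiff_const.add (Complex.ofRealCLM.contDiff.mul contDiff_const)

lemma cc_im (dev : ℂ → ℂ) (q : ℂ) (t : ℝ) :
    (cc dev q t).im = (1 - t) * (dev Complex.I).im + t * q.im := by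
  simp [cc]
  ring

lemma cc_im_ge (dev : ℂ → ℂ) (q : ℂ) {t : ℝ} (h0 : 0 ≤ t) (h1 : t ≤ 1) :
    min (dev Complex.I).im q.im ≤ (cc dev q t).im := by
  rw [cc_im]
  have e1 := min_le_left (dev Complex.I).im q.im
  have e2 := min_le_right (dev Complex.I).im q.im
  nlinarith

/-- Lifts are unique. -/
lemma uniq (hL : T_LCI) {n : ℕ} {f : ℂ → EuclideanSpace ℝ (Fin n)} {dev : ℂ → ℂ}
    (L : LIso f dev) {J : Set ℝ} (hJ : IsPreconnected J) {γ₁ γ₂ : ℝ → ℂ}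
    (h1 : ContinuousOn γ₁ J) (h2 : ContinuousOn γ₂ J) (m1 : ∀ t ∈ J, γ₁ t ∈ Hp)
    (m2 : ∀ t ∈ J, γ₂ t ∈ Hp) (e : ∀ t ∈ J, dev (γ₁ t) = dev (γ₂ t)) {a : ℝ} (ha : a ∈ J)
    (hea : γ₁ a = γ₂ a) : ∀ t ∈ J, γ₁ t = γ₂ t := by
  have : PreconnectedSpace J := isPreconnected_iff_preconnectedSpace.1 hJ
  let g₁ : J → Hp := fun t => ⟨γ₁ t, m1 t t.2⟩
  let g₂ : J → Hp := fun t => ⟨γ₂ t, m2 t t.2⟩
  let p : Hp → ℂ := fun x => dev x
  have hc1 : Continuous g₁ := Continuous.subtype_mk h1.domRestrict _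
  have hc2 : Continuous g₂ := Continuous.subtype_mk h2.domRestrict _
  have hsep : IsSeparatedMap p := T2Space.isSeparatedMap p
  have hinj : IsLocallyInjective p := by
    intro x
    obtain ⟨r, hr, τ, U, hU, hzU, -, -, -, -, hτ⟩ := hL n f dev L x x.2
    refine ⟨Subtype.val ⁻¹' U, hU.preimage continuous_subtype_val, hzU, ?_⟩
    intro y hy z hz hyz
    apply Subtype.ext
    have e1 := (hτ y hy).2
    have e2 := (hτ z hz).2
    have e3 : dev y = dev z := hyz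
    rw [← e1, ← e2, e3]
  have he : p ∘ g₁ = p ∘ g₂ := funext fun t => e t t.2
  have h3 := hsep.eq_of_comp_eq hinj hc1 hc2 he ⟨a, ha⟩ (Subtype.ext hea)
  intro t ht
  exact congrArg Subtype.val (congrFun h3 ⟨t, ht⟩)

lemma uniq' (hL : T_LCI) {n : ℕ} {f : ℂ → EuclideanSpace ℝ (Fin n)} {dev : ℂ → ℂ}
    (L : LIso f dev) {q : ℂ} {T : ℝ} {γ₁ γ₂ : ℝ → ℂ} (h1 : Lft dev q T γ₁)
    (h2 : Lft dev q T γ₂) : ∀ t ∈ Set.Icc 0 T, γ₁ t = γ₂ t := by
  intro t ht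
  have h0 : (0 : ℝ) ∈ Set.Icc 0 T := ⟨le_rfl, ht.1.trans ht.2⟩
  exact uniq hL L isPreconnected_Icc h1.cont h2.cont h1.mem h2.mem
    (fun s hs => by rw [h1.eq s hs, h2.eq s hs]) h0 (by rw [h1.zero, h2.zero]) t ht

/-- Extension of lifts. -/
lemma ext {dev : ℂ → ℂ} {q : ℂ} {a b : ℝ} {γ : ℝ → ℂ} (h : Lft dev q a γ)
    (ha : 0 ≤ a) (hab : a ≤ b) {w : ℂ} {r : ℝ} {τ : ℂ → ℂ} {U : Set ℂ} (hUH : U ⊆ Hp)
    (hτs : ContDiffOn ℝ ((⊤ : ℕ∞) : WithTop ℕ∞) τ (Metric.ball w r))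
    (hτ : ∀ x ∈ Metric.ball w r, τ x ∈ U ∧ dev (τ x) = x)
    (hU : ∀ x ∈ U, dev x ∈ Metric.ball w r ∧ τ (dev x) = x) (haU : γ a ∈ U)
    (hball : ∀ t ∈ Set.Icc a b, cc dev q t ∈ Metric.ball w r) : ∃ γ' : ℝ → ℂ, Lft dev q b γ' := by
  have haa : a ∈ Set.Icc 0 a := ⟨ha, le_rfl⟩
  have hglue : τ (cc dev q a) = γ a := by
    rw [← h.eq a haa]
    exact (hU _ haU).2
  let γ' : ℝ → ℂ := fun t => if t ≤ a then γ t else τ (cc dev q t)
  have e1 : ∀ t, t ≤ a → γ' t = γ t := fun t ht => if_pos ht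
  have e2 : ∀ t, a ≤ t → γ' t = τ (cc dev q t) := by
    intro t ht
    rcases eq_or_lt_of_le ht with h1 | h1
    · rw [← h1, e1 a le_rfl, hglue]
    · exact if_neg (not_le.mpr h1)
  have c1 : ContinuousOn γ' (Set.Icc 0 a) := h.cont.congr fun t ht => e1 t ht.2
  have c2 : ContinuousOn γ' (Set.Icc a b) := by
    refine ContinuousOn.congr (f := fun t => τ (cc dev q t)) ?_ fun t ht => e2 t ht.1
    exact hτs.continuousOn.comp (cc_cont dev q).continuousOn hball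
  refine ⟨γ', ?_, ?_, ?_, ?_⟩
  · have := c1.union_of_isClosed c2 isClosed_Icc isClosed_Icc
    rwa [Set.Icc_union_Icc_eq_Icc ha hab] at this
  · rw [e1 0 ha, h.zero]
  · intro t ht
    rcases le_total t a with h1 | h1
    · rw [e1 t h1]
      exact h.mem t ⟨ht.1, h1⟩
    · rw [e2 t h1]
      exact hUH (hτ _ (hball t ⟨h1, ht.2⟩)).1
  · intro t ht
    rcases le_total t a with h1 | h1
    · rw [e1 t h1]
      exact h.eq t ⟨ht.1, h1⟩
    · rw [e2 t h1]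
      exact (hτ _ (hball t ⟨h1, ht.2⟩)).2

/-- The lift on a half open interval. -/
lemma half (hL : T_LCI) {n : ℕ} {f : ℂ → EuclideanSpace ℝ (Fin n)} {dev : ℂ → ℂ}
    (L : LIso f dev) {q : ℂ} {T : ℝ} (h : ∀ T', 0 ≤ T' → T' < T → ∃ γ, Lft dev q T' γ) :
    ∃ γ : ℝ → ℂ, ∀ T', 0 ≤ T' → T' < T → Lft dev q T' γ := by
  have h' : ∀ t : ℝ, ∃ γ : ℝ → ℂ, 0 ≤ t → t < T → Lft dev q t γ := by
    intro t
    by_cases ht : 0 ≤ t ∧ t < T
    · obtain ⟨γ, hγ⟩ := h t ht.1 ht.2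
      exact ⟨γ, fun _ _ => hγ⟩
    · exact ⟨fun _ => 0, fun h1 h2 => absurd ⟨h1, h2⟩ ht⟩
  choose G hG using h'
  have key : ∀ T', 0 ≤ T' → T' < T → ∀ t ∈ Set.Icc 0 T', G t t = G T' t := by
    intro T' h0 h1 t ht
    have g1 := hG t ht.1 (ht.2.trans_lt h1)
    have g2 := (hG T' h0 h1).restrict ht.2
    exact uniq' hL L g1 g2 t ⟨ht.1, le_rfl⟩
  refine ⟨fun t => G t t, fun T' h0 h1 => ?_⟩
  have g := hG T' h0 h1
  refine ⟨g.cont.congr fun t ht => key T' h0 h1 t ht, ?_, ?_, ?_⟩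
  · show G 0 0 = Complex.I
    rw [key T' h0 h1 0 ⟨le_rfl, h0⟩, g.zero]
  · intro t ht
    show G t t ∈ Hp
    rw [key T' h0 h1 t ht]
    exact g.mem t ht
  · intro t ht
    show dev (G t t) = _
    rw [key T' h0 h1 t ht]
    exact g.eq t ht

/-- The lift extends to the closed interval, by completeness. -/
lemma step (hL : T_LCI) {n : ℕ} {f : ℂ → EuclideanSpace ℝ (Fin n)} {dev : ℂ → ℂ}
    (L : LIso f dev) {q : ℂ} (hq : q ∈ Hp) {T : ℝ} (hT : 0 < T) (hT1 : T ≤ 1) {γ : ℝ → ℂ}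
    (h : ∀ T', 0 ≤ T' → T' < T → Lft dev q T' γ) : ∃ γ' : ℝ → ℂ, Lft dev q T γ' := by
  have memγ : ∀ u ∈ Set.Ico 0 T, γ u ∈ Hp := fun u hu => (h u hu.1 hu.2).mem u ⟨hu.1, le_rfl⟩
  have eqγ : ∀ u ∈ Set.Ico 0 T, dev (γ u) = cc dev q u :=
    fun u hu => (h u hu.1 hu.2).eq u ⟨hu.1, le_rfl⟩
  have contγ : ContinuousOn γ (Set.Ico 0 T) := by
    intro u hu
    have hu2 : u < (u + T) / 2 := by linarith [hu.2]
    have h1 := (h ((u + T) / 2) (by linarith [hu.1]) (by linarith [hu.2])).cont u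
      ⟨hu.1, hu2.le⟩
    refine h1.mono_of_mem_nhdsWithin ?_
    refine Filter.mem_of_superset (inter_mem_nhdsWithin (Set.Ico 0 T) (Iio_mem_nhds hu2)) ?_
    intro v hv
    exact ⟨hv.1.1, (Set.mem_Iio.1 hv.2).le⟩
  obtain ⟨g, hg⟩ : ∃ g : ℝ → ℂ, g = fun t => γ (T * t) := ⟨_, rfl⟩
  have hgt : ∀ t, g t = γ (T * t) := fun t => by rw [hg]
  have mapT : ∀ t ∈ Set.Ico (0 : ℝ) 1, T * t ∈ Set.Ico 0 T := by
    intro t ht
    exact ⟨mul_nonneg hT.le ht.1, by nlinarith [ht.2]⟩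
  have memg : ∀ t ∈ Set.Ico (0 : ℝ) 1, g t ∈ Hp := by
    intro t ht
    rw [hgt]
    exact memγ _ (mapT t ht)
  have eqg : ∀ t ∈ Set.Ico (0 : ℝ) 1, dev (g t) = cc dev q (T * t) := by
    intro t ht
    rw [hgt]
    exact eqγ _ (mapT t ht)
  have contg : ContinuousOn g (Set.Ico 0 1) := by
    rw [hg]
    exact contγ.comp (continuous_const.mul continuous_id).continuousOn mapT
  have hgC : ContDiffOn ℝ 1 g (Set.Ico 0 1) := by
    intro t ht
    obtain ⟨r, hr, τ, U, hUo, hzU, hUH, hball, hτs, hτ, hU⟩ := hL n f dev L (g t) (memg t ht)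
    have hct : cc dev q (T * t) ∈ Metric.ball (dev (g t)) r := by
      rw [← eqg t ht]
      exact Metric.mem_ball_self hr
    have h1 : ContDiffAt ℝ ((⊤ : ℕ∞) : WithTop ℕ∞) τ (cc dev q (T * t)) :=
      hτs.contDiffAt (Metric.isOpen_ball.mem_nhds hct)
    have h2 : ContDiff ℝ ((⊤ : ℕ∞) : WithTop ℕ∞) (fun s : ℝ => cc dev q (T * s)) :=
      (cc_contDiff dev q).comp (contDiff_const.mul contDiff_id)
    have h3 : ContDiffAt ℝ ((⊤ : ℕ∞) : WithTop ℕ∞) (fun s : ℝ => τ (cc dev q (T * s))) t :=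
      ContDiffAt.comp (g := τ) (f := fun s : ℝ => cc dev q (T * s)) t h1 h2.contDiffAt
    have h4 : ContDiffAt ℝ 1 (fun s : ℝ => τ (cc dev q (T * s))) t :=
      h3.of_le (by exact_mod_cast le_top)
    have h5 : ∀ᶠ s in 𝓝[Set.Ico 0 1] t, g s ∈ U := contg t ht (hUo.mem_nhds hzU)
    have h6 : ∀ s ∈ Set.Ico (0 : ℝ) 1, g s ∈ U → g s = τ (cc dev q (T * s)) := by
      intro s hs hsU
      rw [← eqg s hs, (hU _ hsU).2]
    refine h4.contDiffWithinAt.congr_of_eventuallyEq ?_ (h6 t ht hzU)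
    filter_upwards [h5, self_mem_nhdsWithin] with s hs hs'
    exact h6 s hs' hs
  have hm : 0 < min (dev Complex.I).im q.im := lt_min (L.mem _ I_mem) hq
  have hbound : ∀ t ∈ Set.Ioo (0 : ℝ) 1, ‖fderiv ℝ f (g t) (deriv g t)‖ ≤
      ‖q - dev Complex.I‖ / min (dev Complex.I).im q.im := by
    intro t ht
    have ht' : t ∈ Set.Ico (0 : ℝ) 1 := ⟨ht.1.le, ht.2⟩
    have hgd : HasDerivAt g (deriv g t) t :=
      (((hgC t ht').contDiffAt (Ico_mem_nhds ht.1 ht.2)).differentiableAt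
        (by norm_num)).hasDerivAt
    have hdev : HasFDerivAt dev (fderiv ℝ dev (g t)) (g t) :=
      ((L.sm.contDiffAt (isOpen_Hp.mem_nhds (memg t ht'))).differentiableAt
        (by simp)).hasFDerivAt
    have hcomp : HasDerivAt (fun s => dev (g s)) (fderiv ℝ dev (g t) (deriv g t)) t :=
      hdev.comp_hasDerivAt t hgd
    have hc : HasDerivAt (fun s : ℝ => cc dev q (T * s)) ((T : ℂ) * (q - dev Complex.I)) t := by
      have h1 : HasDerivAt (fun s : ℝ => T * s) T t := by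
        simpa using (hasDerivAt_id t).const_mul T
      have h2 : HasDerivAt (fun s : ℝ => ((T * s : ℝ) : ℂ)) (T : ℂ) t := h1.ofReal_comp
      have h3 := (h2.mul_const (q - dev Complex.I)).const_add (dev Complex.I)
      exact h3
    have heq : (fun s => dev (g s)) =ᶠ[𝓝 t] fun s => cc dev q (T * s) := by
      filter_upwards [Ioo_mem_nhds ht.1 ht.2] with s hs
      exact eqg s ⟨hs.1.le, hs.2⟩
    have hval : fderiv ℝ dev (g t) (deriv g t) = (T : ℂ) * (q - dev Complex.I) :=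
      hcomp.unique (hc.congr_of_eventuallyEq heq)
    have hiso := L.iso (g t) (memg t ht') (deriv g t)
    rw [hval, eqg t ht', norm_mul, Complex.norm_real, Real.norm_of_nonneg hT.le] at hiso
    have him := cc_im_ge dev q (t := T * t) (by nlinarith [ht.1]) (by nlinarith [ht.1, ht.2])
    rw [le_div_iff₀ hm]
    have h0 := norm_nonneg (fderiv ℝ f (g t) (deriv g t))
    have h1 := norm_nonneg (q - dev Complex.I)
    nlinarith
  have hK : ∃ K : Set ℂ, K ⊆ Hp ∧ IsCompact K ∧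
      ∀ s < (1 : ℝ), ∃ t ∈ Set.Ioo s 1, g t ∈ K := by
    by_contra hcon
    have hall : ∀ K : Set ℂ, K ⊆ Hp → IsCompact K →
        ∃ s < (1 : ℝ), ∀ t ∈ Set.Ioo s 1, g t ∉ K := by
      intro K h1 h2
      by_contra h3
      apply hcon
      refine ⟨K, h1, h2, fun s hs => ?_⟩
      by_contra h4
      apply h3
      refine ⟨s, hs, fun t ht htK => h4 ⟨t, ht, htK⟩⟩
    have h1 := L.com g hgC memg hall
    have h2 : ∫⁻ t in Set.Ioo (0 : ℝ) 1, ENNReal.ofReal ‖fderiv ℝ f (g t) (deriv g t)‖ ≤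
        ENNReal.ofReal (‖q - dev Complex.I‖ / min (dev Complex.I).im q.im) := by
      calc ∫⁻ t in Set.Ioo (0 : ℝ) 1, ENNReal.ofReal ‖fderiv ℝ f (g t) (deriv g t)‖
          ≤ ∫⁻ _ in Set.Ioo (0 : ℝ) 1,
              ENNReal.ofReal (‖q - dev Complex.I‖ / min (dev Complex.I).im q.im) :=
            MeasureTheory.setLIntegral_mono' measurableSet_Ioo
              fun t ht => ENNReal.ofReal_le_ofReal (hbound t ht)
        _ = _ := by
            rw [MeasureTheory.setLIntegral_const, Real.volume_Ioo]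
            simp
    rw [h1] at h2
    exact ENNReal.ofReal_ne_top (top_le_iff.1 h2)
  obtain ⟨K, hKH, hKc, hKf⟩ := hK
  have hfreq : ∃ᶠ t in 𝓝[<] (1 : ℝ), g t ∈ K := by
    refine Filter.frequently_iff.2 fun {V} hV => ?_
    obtain ⟨l, hl, hlV⟩ := mem_nhdsLT_iff_exists_Ioo_subset.1 hV
    obtain ⟨t, ht, htK⟩ := hKf l hl
    exact ⟨t, hlV ht, htK⟩
  obtain ⟨p, hpK, hp⟩ := hKc.exists_mapClusterPt_of_frequently hfreq
  obtain ⟨r, hr, τ, U, hUo, hzU, hUH, hball, hτs, hτ, hU⟩ := hL n f dev L p (hKH hpK)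
  have hdevp : ContinuousAt dev p :=
    (L.sm.contDiffAt (isOpen_Hp.mem_nhds (hKH hpK))).continuousAt
  have hW : ∀ᶠ x in 𝓝 p, x ∈ U ∧ dist (dev x) (dev p) < r / 2 := by
    have w1 : ∀ᶠ x in 𝓝 p, x ∈ U := hUo.mem_nhds hzU
    have w2 : ∀ᶠ x in 𝓝 p, dist (dev x) (dev p) < r / 2 :=
      hdevp (Metric.ball_mem_nhds _ (half_pos hr))
    exact Filter.Eventually.and w1 w2
  have hf2 : ∃ᶠ t in 𝓝[<] (1 : ℝ), g t ∈ U ∧ dist (dev (g t)) (dev p) < r / 2 :=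
    mapClusterPt_iff_frequently.1 hp _ hW
  have hI : ∀ᶠ t in 𝓝[<] (1 : ℝ), t ∈ Set.Ioo (0 : ℝ) 1 := Ioo_mem_nhdsLT zero_lt_one
  have hct : Filter.Tendsto (fun t : ℝ => cc dev q (T * t)) (𝓝[<] 1) (𝓝 (cc dev q T)) := by
    have h1 : Continuous fun t : ℝ => cc dev q (T * t) :=
      (cc_cont dev q).comp (continuous_const.mul continuous_id)
    have h2 : Filter.Tendsto (fun t : ℝ => cc dev q (T * t)) (𝓝 1) (𝓝 (cc dev q (T * 1))) :=
      h1.tendsto 1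
    rw [mul_one] at h2
    exact h2.mono_left nhdsWithin_le_nhds
  have hev : ∀ᶠ t in 𝓝[<] (1 : ℝ), dist (cc dev q (T * t)) (cc dev q T) < r / 2 :=
    hct (Metric.ball_mem_nhds _ (half_pos hr))
  have hcT : cc dev q T ∈ Metric.ball (dev p) r := by
    obtain ⟨t, ⟨⟨-, h1⟩, h2⟩, h3⟩ := ((hf2.and_eventually hev).and_eventually hI).exists
    rw [eqg t ⟨h3.1.le, h3.2⟩] at h1
    rw [Metric.mem_ball]
    have h4 := dist_triangle_left (cc dev q T) (dev p) (cc dev q (T * t))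
    linarith
  have hnb : ∀ᶠ u in 𝓝 T, cc dev q u ∈ Metric.ball (dev p) r :=
    (cc_cont dev q).continuousAt (Metric.isOpen_ball.mem_nhds hcT)
  obtain ⟨ε, hε, hεb⟩ := Metric.eventually_nhds_iff.1 hnb
  have hev2 : ∀ᶠ t in 𝓝[<] (1 : ℝ), T - ε < T * t := by
    have h1 : Continuous fun t : ℝ => T * t := continuous_const.mul continuous_id
    have h2 : Filter.Tendsto (fun t : ℝ => T * t) (𝓝 1) (𝓝 (T * 1)) := h1.tendsto 1
    rw [mul_one] at h2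
    exact (h2.mono_left nhdsWithin_le_nhds) (Ioi_mem_nhds (by linarith))
  obtain ⟨t, ⟨⟨h1, -⟩, h2⟩, h3⟩ := ((hf2.and_eventually hev2).and_eventually hI).exists
  have h4 : T * t < T := by nlinarith [h3.2]
  have h5 : 0 ≤ T * t := mul_nonneg hT.le h3.1.le
  refine ext (h (T * t) h5 h4) h5 h4.le hUH hτs hτ hU ?_ ?_
  · rw [← hgt]
    exact h1
  · intro u hu
    apply hεb
    rw [Real.dist_eq, abs_lt]
    constructor
    · linarith [hu.1]
    · linarith [hu.2]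

end Pool.Agent.HSP.LFT_

namespace Pool.Agent.HSP

open LFT_

theorem p_LFT (h_LCI : T_LCI) : T_LFT := by
  intro n f dev L q hq
  obtain ⟨S, hS⟩ : ∃ S : Set ℝ, S = {T : ℝ | 0 ≤ T ∧ T ≤ 1 ∧ ∃ γ, Lft dev q T γ} := ⟨_, rfl⟩
  have mS : ∀ T : ℝ, T ∈ S ↔ 0 ≤ T ∧ T ≤ 1 ∧ ∃ γ, Lft dev q T γ := by
    intro T
    rw [hS]
    exact Iff.rfl
  have h0 : Lft dev q 0 fun _ => Complex.I := by
    refine ⟨continuousOn_const, rfl, fun _ _ => I_mem, fun t ht => ?_⟩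
    have : t = 0 := le_antisymm ht.2 ht.1
    rw [this, cc_zero]
  have h0S : (0 : ℝ) ∈ S := (mS 0).2 ⟨le_rfl, zero_le_one, _, h0⟩
  have hbdd : BddAbove S := ⟨1, fun T hT => ((mS T).1 hT).2.1⟩
  obtain ⟨T, hTd⟩ : ∃ T : ℝ, T = sSup S := ⟨_, rfl⟩
  have hT0 : 0 ≤ T := by
    rw [hTd]
    exact le_csSup hbdd h0S
  have hT1 : T ≤ 1 := by
    rw [hTd]
    exact csSup_le ⟨0, h0S⟩ fun T hT => ((mS T).1 hT).2.1
  have hlt : ∀ T', 0 ≤ T' → T' < T → ∃ γ, Lft dev q T' γ := by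
    intro T' _ h2
    rw [hTd] at h2
    obtain ⟨T'', h3, h4⟩ := exists_lt_of_lt_csSup ⟨0, h0S⟩ h2
    obtain ⟨-, -, γ, hγ⟩ := (mS T'').1 h3
    exact ⟨γ, hγ.restrict h4.le⟩
  have hTS : ∃ γ, Lft dev q T γ := by
    rcases eq_or_lt_of_le hT0 with h1 | h1
    · rw [← h1]
      exact ⟨_, h0⟩
    · obtain ⟨γ, hγ⟩ := half h_LCI L hlt
      exact step h_LCI L hq h1 hT1 hγ
  obtain ⟨γ, hγ⟩ := hTS
  have hTone : T = 1 := by
    by_contra hne
    have hT1' : T < 1 := lt_of_le_of_ne hT1 hne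
    have hTT : T ∈ Set.Icc 0 T := ⟨hT0, le_rfl⟩
    obtain ⟨r, hr, τ, U, hUo, hzU, hUH, hball, hτs, hτ, hU⟩ :=
      h_LCI n f dev L (γ T) (hγ.mem T hTT)
    have hcT : cc dev q T ∈ Metric.ball (dev (γ T)) r := by
      rw [← hγ.eq T hTT]
      exact Metric.mem_ball_self hr
    have hnb : ∀ᶠ u in 𝓝 T, cc dev q u ∈ Metric.ball (dev (γ T)) r :=
      (cc_cont dev q).continuousAt (Metric.isOpen_ball.mem_nhds hcT)
    obtain ⟨ε, hε, hεb⟩ := Metric.eventually_nhds_iff.1 hnb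
    have hb : T < min 1 (T + ε / 2) := lt_min hT1' (by linarith)
    obtain ⟨γ', hγ'⟩ := ext (b := min 1 (T + ε / 2)) hγ hT0 hb.le hUH hτs hτ hU hzU (by
      intro u hu
      apply hεb
      have h1 := hu.1
      have h2 := hu.2.trans (min_le_right _ _)
      rw [Real.dist_eq, abs_lt]
      constructor
      · linarith
      · linarith)
    have h3 : min 1 (T + ε / 2) ∈ S := (mS _).2 ⟨by linarith, min_le_left _ _, γ', hγ'⟩
    have h4 := le_csSup hbdd h3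
    rw [← hTd] at h4
    linarith
  rw [hTone] at hγ
  exact ⟨γ, hγ.cont, hγ.zero, fun t ht => ⟨hγ.mem t ht, hγ.eq t ht⟩⟩

end Pool.Agent.HSP
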