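import Pool.Agent.HSP.Targets5

set_option autoImplicit false

/-!
# HSP job LOD: global solutions of linear differential equations

The solution is the sum of the iterated integrals.
-/

open scoped Classical ENNReal Interval
open MeasureTheory Set

noncomputable section

namespace Pool.Agent.HSP

/-- Iterated integrals. -/
def LOD_u {E : Type} [NormedAddCommGroup E] [NormedSpace ℝ E] (A : ℝ → E →L[ℝ] E) (t₀ : ℝ) (x₀ : E) : ℕ → ℝ → E
  | 0, _ => x₀
  | n + 1, t => ∫ τ in t₀..t, A τ (LOD_u A t₀ x₀ n τ)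

theorem LOD_deriv {E : Type} [NormedAddCommGroup E] [NormedSpace ℝ E] [CompleteSpace E] {s : Set ℝ} {g : ℝ → E}
    (hs : IsOpen s) (hc : s.OrdConnected) (hg : ContinuousOn g s) {t₀ t : ℝ} (h₀ : t₀ ∈ s) (ht : t ∈ s) :
    HasDerivAt (fun r => ∫ τ in t₀..r, g τ) (g t) t := by
  apply intervalIntegral.integral_hasDerivAt_right
  · exact (hg.mono (hc.uIcc_subset h₀ ht)).intervalIntegrable
  · exact hg.stronglyMeasurableAtFilter hs t ht
  · exact hg.continuousAt (hs.mem_nhds ht)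

theorem LOD_cont {E : Type} [NormedAddCommGroup E] [NormedSpace ℝ E] [CompleteSpace E] {s : Set ℝ} {A : ℝ → E →L[ℝ] E}
    (hs : IsOpen s) (hc : s.OrdConnected) (hA : ContinuousOn A s) {t₀ : ℝ} (h₀ : t₀ ∈ s) (x₀ : E) (n : ℕ) :
    ContinuousOn (LOD_u A t₀ x₀ n) s := by
  induction n with
  | zero => exact continuousOn_const
  | succ n ih =>
    intro t ht
    exact (LOD_deriv hs hc (hA.clm_apply ih) h₀ ht).continuousAt.continuousWithinAt

theorem LOD_hd {E : Type} [NormedAddCommGroup E] [NormedSpace ℝ E] [CompleteSpace E] {s : Set ℝ} {A : ℝ → E →L[ℝ] E}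
    (hs : IsOpen s) (hc : s.OrdConnected) (hA : ContinuousOn A s) {t₀ t : ℝ} (h₀ : t₀ ∈ s) (ht : t ∈ s) (x₀ : E) (n : ℕ) :
    HasDerivAt (LOD_u A t₀ x₀ (n + 1)) (A t (LOD_u A t₀ x₀ n t)) t :=
  LOD_deriv hs hc (hA.clm_apply (LOD_cont hs hc hA h₀ x₀ n)) h₀ ht

theorem LOD_bd {E : Type} [NormedAddCommGroup E] [NormedSpace ℝ E] {A : ℝ → E →L[ℝ] E} {t₀ : ℝ} (x₀ : E)
    {a b K : ℝ} (h₀ : t₀ ∈ Icc a b) (hK0 : 0 ≤ K) (hK : ∀ t ∈ Icc a b, ‖A t‖ ≤ K) (n : ℕ) :
    ∀ t ∈ Icc a b, ‖LOD_u A t₀ x₀ n t‖ ≤ (K ^ n / n.factorial * ‖x₀‖) * |t - t₀| ^ n := by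
  induction n with
  | zero => intro t _; simp [LOD_u]
  | succ n ih =>
    intro t ht
    have hsub : ∀ τ ∈ Ι t₀ t, τ ∈ Icc a b := by
      intro τ hτ
      exact (ordConnected_Icc (a := a) (b := b)).uIcc_subset h₀ ht (uIoc_subset_uIcc hτ)
    have h1 : ‖LOD_u A t₀ x₀ (n + 1) t‖ ≤ ∫ τ in Ι t₀ t, K * ((K ^ n / n.factorial * ‖x₀‖) * |τ - t₀| ^ n) := by
      rw [LOD_u, intervalIntegral.norm_integral_eq_norm_integral_uIoc]
      apply norm_integral_le_of_norm_le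
      · have : Continuous fun τ : ℝ => K * ((K ^ n / n.factorial * ‖x₀‖) * |τ - t₀| ^ n) := by fun_prop
        exact (this.integrableOn_Icc (a := min t₀ t) (b := max t₀ t)).mono_set Ioc_subset_Icc_self
      · rw [ae_restrict_iff' measurableSet_uIoc]
        refine Filter.Eventually.of_forall fun τ hτ => ?_
        calc ‖A τ (LOD_u A t₀ x₀ n τ)‖ ≤ ‖A τ‖ * ‖LOD_u A t₀ x₀ n τ‖ := (A τ).le_opNorm _
          _ ≤ K * ((K ^ n / n.factorial * ‖x₀‖) * |τ - t₀| ^ n) :=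
            mul_le_mul (hK τ (hsub τ hτ)) (ih τ (hsub τ hτ)) (norm_nonneg _) hK0
    refine h1.trans (le_of_eq ?_)
    rw [integral_const_mul, integral_const_mul, integral_pow_abs_sub_uIoc, Nat.factorial_succ, pow_succ K]
    have : (n.factorial : ℝ) ≠ 0 := by positivity
    push_cast
    field_simp

theorem LOD_sum (K d c : ℝ) : Summable fun n : ℕ => (K ^ n / n.factorial * c) * d ^ n := by
  have h := (Real.summable_pow_div_factorial (K * d)).mul_right c
  refine h.congr fun n => ?_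
  rw [mul_pow]
  ring

/-- LOD. -/
theorem p_LOD : T_LOD := by
  intro E _ _ _ s A hs hc hA t₀ h₀ x₀
  refine ⟨fun t => ∑' n, LOD_u A t₀ x₀ n t, ?_, ?_⟩
  · show ∑' n, LOD_u A t₀ x₀ n t₀ = x₀
    rw [tsum_eq_single 0]
    · rfl
    · intro n hn
      obtain ⟨m, rfl⟩ := Nat.exists_eq_succ_of_ne_zero hn
      simp [LOD_u]
  intro t ht
  obtain ⟨ε, hε, hb⟩ := Metric.isOpen_iff.1 hs t ht
  obtain ⟨ε', hε', hb'⟩ := Metric.isOpen_iff.1 hs t₀ h₀
  have mem : ∀ r : ℝ, ∀ w : ℝ, ∀ e : ℝ, 0 < e → |w - r| ≤ e / 2 → w ∈ Metric.ball r e := by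
    intro r w e he hw
    rw [Metric.mem_ball, Real.dist_eq]
    linarith
  -- endpoints
  obtain ⟨a, ha, hat, hat₀⟩ : ∃ a ∈ s, a < t ∧ a < t₀ := by
    rcases le_total t t₀ with h | h
    · exact ⟨t - ε / 2, hb (mem _ _ _ hε (by rw [sub_sub_cancel_left, abs_neg, abs_of_pos (by positivity)])), by linarith, by linarith⟩
    · exact ⟨t₀ - ε' / 2, hb' (mem _ _ _ hε' (by rw [sub_sub_cancel_left, abs_neg, abs_of_pos (by positivity)])), by linarith, by linarith⟩
  obtain ⟨b, hbs, hbt, hbt₀⟩ : ∃ b ∈ s, t < b ∧ t₀ < b := by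
    rcases le_total t t₀ with h | h
    · exact ⟨t₀ + ε' / 2, hb' (mem _ _ _ hε' (by rw [add_sub_cancel_left, abs_of_pos (by positivity)])), by linarith, by linarith⟩
    · exact ⟨t + ε / 2, hb (mem _ _ _ hε (by rw [add_sub_cancel_left, abs_of_pos (by positivity)])), by linarith, by linarith⟩
  have hI : Icc a b ⊆ s := hc.out ha hbs
  obtain ⟨K, hK⟩ := (isCompact_Icc (a := a) (b := b)).exists_bound_of_continuousOn (hA.mono hI)
  have hK0 : 0 ≤ K := (norm_nonneg _).trans (hK a ⟨le_rfl, by linarith⟩)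
  have h₀I : t₀ ∈ Icc a b := ⟨hat₀.le, hbt₀.le⟩
  have bd := LOD_bd (A := A) x₀ h₀I hK0 hK
  have hd : ∀ r ∈ Icc a b, |r - t₀| ≤ b - a := by
    intro r hr
    rw [abs_le]
    constructor <;> linarith [hr.1, hr.2, h₀I.1, h₀I.2]
  have bd' : ∀ n, ∀ r ∈ Icc a b, ‖LOD_u A t₀ x₀ n r‖ ≤ (K ^ n / n.factorial * ‖x₀‖) * (b - a) ^ n := by
    intro n r hr
    refine (bd n r hr).trans ?_
    gcongr
    exact hd r hr
  let g' : ℕ → ℝ → E := fun n r => match n with
    | 0 => 0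
    | m + 1 => A r (LOD_u A t₀ x₀ m r)
  let v : ℕ → ℝ := fun n => match n with
    | 0 => 0
    | m + 1 => K * ((K ^ m / m.factorial * ‖x₀‖) * (b - a) ^ m)
  have hv : Summable v := (summable_nat_add_iff 1).1 ((LOD_sum K (b - a) ‖x₀‖).mul_left K)
  have hS : ∀ r ∈ Icc a b, Summable fun n => LOD_u A t₀ x₀ n r := fun r hr =>
    Summable.of_norm_bounded (LOD_sum K (b - a) ‖x₀‖) fun n => bd' n r hr
  have key := hasDerivAt_tsum_of_isPreconnected (g := LOD_u A t₀ x₀) (g' := g') (u := v) (t := Ioo a b) (y := t) (y₀ := t₀)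
    hv isOpen_Ioo isPreconnected_Ioo ?_ ?_ ⟨hat₀, hbt₀⟩ (hS t₀ h₀I) ⟨hat, hbt⟩
  · have e : ∑' n, g' n t = A t (∑' n, LOD_u A t₀ x₀ n t) := by
      have hsum := (hS t ⟨hat.le, hbt.le⟩)
      rw [ContinuousLinearMap.map_tsum _ hsum]
      have hg' : Summable fun n => g' n t := by
        refine (summable_nat_add_iff 1).1 ?_
        exact (A t).summable hsum
      rw [hg'.tsum_eq_zero_add]
      simp only [g', zero_add]
    rw [← e]
    exact key
  · intro n r hr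
    cases n with
    | zero => exact hasDerivAt_const _ _
    | succ m => exact LOD_hd hs hc hA h₀ (hI ⟨hr.1.le, hr.2.le⟩) x₀ m
  · intro n r hr
    cases n with
    | zero => simp [g', v]
    | succ m =>
      have hr' : r ∈ Icc a b := ⟨hr.1.le, hr.2.le⟩
      exact ((A r).le_opNorm _).trans (mul_le_mul (hK r hr') (bd' m r hr') (norm_nonneg _) hK0)

end Pool.Agent.HSP
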