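import Pool.Agent.HSP.Targets5

set_option autoImplicit false

/-!
# HSP: parameter derivative of a linear differential equation (target T_PDF)
-/

open scoped Classical ENNReal Topology

noncomputable section

namespace Pool.Agent.HSP

namespace PDF_

open Set

/-- A simple form of the inequality of Gronwall. -/
theorem gw {E : Type} [NormedAddCommGroup E] [NormedSpace ℝ E] {f f' : ℝ → E} {K ε δ : ℝ}
    (hK : 1 ≤ K) (hε : 0 ≤ ε) (hδ : 0 ≤ δ)
    (hf : ∀ t ∈ Icc (0 : ℝ) 1, HasDerivAt f (f' t) t) (h0 : ‖f 0‖ ≤ δ)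
    (hb : ∀ t ∈ Icc (0 : ℝ) 1, ‖f' t‖ ≤ K * ‖f t‖ + ε) :
    ∀ t ∈ Icc (0 : ℝ) 1, ‖f t‖ ≤ (δ + ε) * Real.exp K := by
  intro t ht
  have h := norm_le_gronwallBound_of_norm_deriv_right_le
    (fun s hs => (hf s hs).continuousAt.continuousWithinAt)
    (fun s hs => (hf s ⟨hs.1, hs.2.le⟩).hasDerivWithinAt) h0
    (fun s hs => hb s ⟨hs.1, hs.2.le⟩) t ht
  rw [gronwallBound_of_K_ne_0 (by linarith)] at h
  have h1 : Real.exp (K * (t - 0)) ≤ Real.exp K := by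
    apply Real.exp_le_exp.mpr
    have := ht.2
    nlinarith
  have h2 : ε / K ≤ ε := div_le_self hε hK
  have h3 : 0 ≤ ε / K := div_nonneg hε (by linarith)
  have h4 : 0 < Real.exp K := Real.exp_pos K
  have h5 : δ * Real.exp (K * (t - 0)) ≤ δ * Real.exp K := mul_le_mul_of_nonneg_left h1 hδ
  have h6 : ε / K * (Real.exp (K * (t - 0)) - 1) ≤ ε / K * Real.exp K :=
    mul_le_mul_of_nonneg_left (by linarith) h3
  have h7 : ε / K * Real.exp K ≤ ε * Real.exp K := mul_le_mul_of_nonneg_right h2 h4.le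
  calc ‖f t‖ ≤ δ * Real.exp (K * (t - 0)) + ε / K * (Real.exp (K * (t - 0)) - 1) := h
    _ ≤ (δ + ε) * Real.exp K := by linarith

theorem core {E : Type} [NormedAddCommGroup E] [NormedSpace ℝ E] (x₀ : ℝ)
    (a : ℝ → ℝ → E →L[ℝ] E) (ax : ℝ → E →L[ℝ] E) (n : ℝ → ℝ → E) (u : ℝ → E) (K L M B : ℝ)
    (hK : 1 ≤ K) (hL : 0 ≤ L) (hM : 0 ≤ M) (hB : 0 ≤ B)
    (hn : ∀ h : ℝ, |h| ≤ 1 → ∀ t ∈ Icc (0 : ℝ) 1,
      HasDerivAt (n (x₀ + h)) (a (x₀ + h) t (n (x₀ + h) t)) t)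
    (hu : ∀ t ∈ Icc (0 : ℝ) 1, HasDerivAt u (a x₀ t (u t) + ax t (n x₀ t)) t)
    (haK : ∀ h : ℝ, |h| ≤ 1 → ∀ t ∈ Icc (0 : ℝ) 1, ‖a (x₀ + h) t‖ ≤ K)
    (haL : ∀ t ∈ Icc (0 : ℝ) 1, ‖ax t‖ ≤ L)
    (hd1 : ∀ h : ℝ, |h| ≤ 1 → ∀ t ∈ Icc (0 : ℝ) 1, ‖a (x₀ + h) t - a x₀ t‖ ≤ L * |h|)
    (hd2 : ∀ h : ℝ, |h| ≤ 1 → ∀ t ∈ Icc (0 : ℝ) 1,
      ‖a (x₀ + h) t - a x₀ t - h • ax t‖ ≤ M * h ^ 2)
    (hnB : ∀ h : ℝ, |h| ≤ 1 → ‖n (x₀ + h) 0‖ ≤ B)
    (h0 : HasDerivAt (fun x => n x 0) (u 0) x₀) :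
    HasDerivAt (fun x => n x 1) (u 1) x₀ := by
  have hn0 : ∀ t ∈ Icc (0 : ℝ) 1, HasDerivAt (n x₀) (a x₀ t (n x₀ t)) t := by
    intro t ht
    have := hn 0 (by simp) t ht
    simpa using this
  have haK0 : ∀ t ∈ Icc (0 : ℝ) 1, ‖a x₀ t‖ ≤ K := by
    intro t ht
    have := haK 0 (by simp) t ht
    simpa using this
  set e : ℝ := Real.exp K with he
  have he0 : 0 < e := Real.exp_pos K
  set C₀ : ℝ := B * e with hC₀
  have hC₀0 : 0 ≤ C₀ := by positivity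
  have hC : ∀ h : ℝ, |h| ≤ 1 → ∀ t ∈ Icc (0 : ℝ) 1, ‖n (x₀ + h) t‖ ≤ C₀ := by
    intro h hh t ht
    have h1 := gw hK le_rfl hB (hn h hh) (hnB h hh) (fun s hs => by
      rw [add_zero]
      exact ((a (x₀ + h) s).le_opNorm _).trans
        (mul_le_mul_of_nonneg_right (haK h hh s hs) (norm_nonneg _))) t ht
    rwa [add_zero] at h1
  rw [hasDerivAt_iff_isLittleO_nhds_zero] at h0 ⊢
  set c₁ : ℝ := (1 + L * e) * e with hc₁
  set c₂ : ℝ := (M * C₀ + L * ((‖u 0‖ + L * C₀) * e)) * e with hc₂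
  have hlit : (fun h : ℝ => c₁ * ‖n (x₀ + h) 0 - n x₀ 0 - h • u 0‖ + c₂ * h ^ 2) =o[𝓝 0]
      fun h => h :=
    (h0.norm_left.const_mul_left c₁).add
      ((Asymptotics.isLittleO_pow_id one_lt_two).const_mul_left c₂)
  refine Asymptotics.IsBigO.trans_isLittleO (Asymptotics.IsBigO.of_bound 1 ?_) hlit
  have hev : ∀ᶠ h : ℝ in 𝓝 0, |h| ≤ 1 := by
    have : Metric.closedBall (0 : ℝ) 1 ∈ 𝓝 (0 : ℝ) := Metric.closedBall_mem_nhds 0 one_pos
    filter_upwards [this] with h hh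
    rwa [mem_closedBall_zero_iff, Real.norm_eq_abs] at hh
  filter_upwards [hev] with h hh
  set D0 : ℝ := ‖n (x₀ + h) 0 - n x₀ 0 - h • u 0‖ with hD0
  have hD00 : 0 ≤ D0 := norm_nonneg _
  have hh0 : 0 ≤ |h| := abs_nonneg h
  -- the difference
  have hdd : ∀ t ∈ Icc (0 : ℝ) 1, ‖n (x₀ + h) t - n x₀ t‖ ≤
      (D0 + |h| * ‖u 0‖ + L * |h| * C₀) * e := by
    refine gw (f := fun t => n (x₀ + h) t - n x₀ t)
      (f' := fun t => a (x₀ + h) t (n (x₀ + h) t) - a x₀ t (n x₀ t)) hK (by positivity)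
      (by positivity) (fun t ht => (hn h hh t ht).sub (hn0 t ht)) ?_ ?_
    · have h1 : n (x₀ + h) 0 - n x₀ 0 = (n (x₀ + h) 0 - n x₀ 0 - h • u 0) + h • u 0 := by
        abel
      show ‖n (x₀ + h) 0 - n x₀ 0‖ ≤ _
      rw [h1]
      refine (norm_add_le _ _).trans ?_
      rw [norm_smul, Real.norm_eq_abs]
    · intro t ht
      have h1 : a (x₀ + h) t (n (x₀ + h) t) - a x₀ t (n x₀ t) =
          a x₀ t (n (x₀ + h) t - n x₀ t) + (a (x₀ + h) t - a x₀ t) (n (x₀ + h) t) := by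
        simp only [map_sub, sub_apply]
        abel
      show ‖a (x₀ + h) t (n (x₀ + h) t) - a x₀ t (n x₀ t)‖ ≤ _
      rw [h1]
      refine (norm_add_le _ _).trans (add_le_add ?_ ?_)
      · exact ((a x₀ t).le_opNorm _).trans
          (mul_le_mul_of_nonneg_right (haK0 t ht) (norm_nonneg _))
      · exact ((a (x₀ + h) t - a x₀ t).le_opNorm _).trans
          (mul_le_mul (hd1 h hh t ht) (hC h hh t ht) (norm_nonneg _) (by positivity))
  set d1 : ℝ := (D0 + |h| * ‖u 0‖ + L * |h| * C₀) * e with hd1'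
  have hd10 : 0 ≤ d1 := by positivity
  have hD : ‖n (x₀ + h) 1 - n x₀ 1 - h • u 1‖ ≤
      (D0 + (M * h ^ 2 * C₀ + |h| * (L * d1))) * e := by
    refine gw (f := fun t => n (x₀ + h) t - n x₀ t - h • u t)
      (f' := fun t => a (x₀ + h) t (n (x₀ + h) t) - a x₀ t (n x₀ t) -
        h • (a x₀ t (u t) + ax t (n x₀ t))) hK (by positivity) hD00
      (fun t ht => ((hn h hh t ht).sub (hn0 t ht)).sub ((hu t ht).const_smul h))
      le_rfl ?_ 1 (by simp)
    intro t ht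
    have h1 : a (x₀ + h) t (n (x₀ + h) t) - a x₀ t (n x₀ t) -
        h • (a x₀ t (u t) + ax t (n x₀ t)) =
        a x₀ t (n (x₀ + h) t - n x₀ t - h • u t) +
        ((a (x₀ + h) t - a x₀ t - h • ax t) (n (x₀ + h) t) +
          h • ax t (n (x₀ + h) t - n x₀ t)) := by
      simp only [map_sub, map_smul, sub_apply,
        smul_apply, smul_add, smul_sub]
      abel
    show ‖a (x₀ + h) t (n (x₀ + h) t) - a x₀ t (n x₀ t) -
        h • (a x₀ t (u t) + ax t (n x₀ t))‖ ≤ _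
    rw [h1]
    refine (norm_add_le _ _).trans (add_le_add ?_ ((norm_add_le _ _).trans
      (add_le_add ?_ ?_)))
    · exact ((a x₀ t).le_opNorm _).trans
        (mul_le_mul_of_nonneg_right (haK0 t ht) (norm_nonneg _))
    · exact ((a (x₀ + h) t - a x₀ t - h • ax t).le_opNorm _).trans
        (mul_le_mul (hd2 h hh t ht) (hC h hh t ht) (norm_nonneg _) (by positivity))
    · rw [norm_smul, Real.norm_eq_abs]
      refine mul_le_mul_of_nonneg_left ?_ hh0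
      exact ((ax t).le_opNorm _).trans
        (mul_le_mul (haL t ht) (hdd t ht) (norm_nonneg _) hL)
  have habs : |h| * |h| = h ^ 2 := by
    rw [← sq, sq_abs]
  have hfin : (D0 + (M * h ^ 2 * C₀ + |h| * (L * d1))) * e ≤ c₁ * D0 + c₂ * h ^ 2 := by
    have h1 : |h| * (L * d1) = L * (|h| * D0) * e + L * ((‖u 0‖ + L * C₀) * e) * h ^ 2 := by
      rw [hd1', ← habs]
      ring
    have h2 : L * (|h| * D0) * e ≤ L * D0 * e := by
      have : |h| * D0 ≤ 1 * D0 := mul_le_mul_of_nonneg_right hh hD00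
      rw [one_mul] at this
      exact mul_le_mul_of_nonneg_right (mul_le_mul_of_nonneg_left this hL) he0.le
    rw [h1]
    have h3 : (D0 + (M * h ^ 2 * C₀ + (L * (|h| * D0) * e +
        L * ((‖u 0‖ + L * C₀) * e) * h ^ 2))) ≤
        D0 + (M * h ^ 2 * C₀ + (L * D0 * e + L * ((‖u 0‖ + L * C₀) * e) * h ^ 2)) := by
      linarith
    refine (mul_le_mul_of_nonneg_right h3 he0.le).trans (le_of_eq ?_)
    rw [hc₁, hc₂]
    ring
  rw [one_mul, Real.norm_of_nonneg (by positivity)]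
  exact hD.trans hfin

/-- The points on the vertical line. -/
def zz (σ x t : ℝ) : ℂ := (x : ℂ) + ((1 + t * σ : ℝ) : ℂ) * Complex.I

theorem zz_re (σ x t : ℝ) : (zz σ x t).re = x := by simp [zz]
theorem zz_im (σ x t : ℝ) : (zz σ x t).im = 1 + t * σ := by simp [zz]

theorem zz_mem {σ : ℝ} (hσ : 0 < 1 + σ) (x : ℝ) {t : ℝ} (ht : t ∈ Icc (0 : ℝ) 1) :
    zz σ x t ∈ Hp := by
  show 0 < (zz σ x t).im
  rw [zz_im]
  have h1 := ht.1
  have h2 := ht.2
  have h3 : 0 ≤ t * (1 + σ) := mul_nonneg h1 hσ.le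
  rcases eq_or_lt_of_le h2 with h | h
  · rw [h, one_mul]
    exact hσ
  · nlinarith

theorem Hp_open : IsOpen Hp := isOpen_lt continuous_const Complex.continuous_im

theorem smX_dx {X : Type} [NormedAddCommGroup X] [NormedSpace ℝ X] {g : ℂ → X} (h : SmX g) :
    SmX (dx g) := by
  have h1 : ContDiffOn ℝ ((⊤ : ℕ∞) : WithTop ℕ∞) (fderiv ℝ g) Hp :=
    h.fderiv_of_isOpen Hp_open (by simp)
  exact h1.clm_apply contDiffOn_const

theorem hasDeriv_x {X : Type} [NormedAddCommGroup X] [NormedSpace ℝ X] {g : ℂ → X}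
    (h : SmX g) {σ : ℝ} (hσ : 0 < 1 + σ) {t : ℝ} (ht : t ∈ Icc (0 : ℝ) 1) (x : ℝ) :
    HasDerivAt (fun x => g (zz σ x t)) (dx g (zz σ x t)) x := by
  have h1 : DifferentiableAt ℝ g (zz σ x t) :=
    (h.differentiableOn (by simp)).differentiableAt (Hp_open.mem_nhds (zz_mem hσ x ht))
  have h2 : HasDerivAt (fun x : ℝ => zz σ x t) 1 x := by
    have h3 : HasDerivAt (fun x : ℝ => (x : ℂ)) 1 x := Complex.ofRealCLM.hasDerivAt
    exact h3.add_const _
  exact h1.hasFDerivAt.comp_hasDerivAt x h2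

end PDF_

open PDF_ Set

theorem p_PDF : T_PDF := by
  intro A N U hA hN hU hN1 z₀ hz₀
  set x₀ : ℝ := z₀.re with hx₀
  set σ : ℝ := z₀.im - 1 with hσdef
  have hσ : 0 < 1 + σ := by
    have : 0 < z₀.im := hz₀
    rw [hσdef]
    linarith
  -- compactness
  let Q : Set ℂ := (fun p : ℝ × ℝ => zz σ p.1 p.2) '' (Icc (x₀ - 1) (x₀ + 1) ×ˢ Icc (0 : ℝ) 1)
  have hQc : IsCompact Q := by
    refine (isCompact_Icc.prod isCompact_Icc).image ?_
    unfold zz
    fun_prop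
  have hQH : Q ⊆ Hp := by
    rintro _ ⟨⟨x, t⟩, hp, rfl⟩
    exact zz_mem hσ x hp.2
  have hQm : ∀ x ∈ Icc (x₀ - 1) (x₀ + 1), ∀ t ∈ Icc (0 : ℝ) 1, zz σ x t ∈ Q :=
    fun x hx t ht => ⟨(x, t), ⟨hx, ht⟩, rfl⟩
  obtain ⟨K₀, hK₀⟩ := hQc.exists_bound_of_continuousOn (hA.continuousOn.mono hQH)
  obtain ⟨L₀, hL₀⟩ := hQc.exists_bound_of_continuousOn ((smX_dx hA).continuousOn.mono hQH)
  obtain ⟨M₀, hM₀⟩ := hQc.exists_bound_of_continuousOn
    ((smX_dx (smX_dx hA)).continuousOn.mono hQH)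
  have hx₀Q : zz σ x₀ 0 ∈ Q := hQm x₀ (by constructor <;> linarith) 0 (by simp)
  have hL₀0 : 0 ≤ L₀ := (norm_nonneg _).trans (hL₀ _ hx₀Q)
  have hM₀0 : 0 ≤ M₀ := (norm_nonneg _).trans (hM₀ _ hx₀Q)
  have hcont : Continuous fun x : ℝ => N (x + Complex.I) :=
    continuous_iff_continuousAt.mpr fun x => (hN1 x).continuousAt
  obtain ⟨B, hB⟩ := (isCompact_Icc (a := x₀ - 1) (b := x₀ + 1)).exists_bound_of_continuousOn
    hcont.continuousOn
  have hB0 : 0 ≤ B := (norm_nonneg _).trans (hB x₀ (by constructor <;> linarith))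
  have hmem : ∀ h : ℝ, |h| ≤ 1 → x₀ + h ∈ Icc (x₀ - 1) (x₀ + 1) := by
    intro h hh
    have := abs_le.mp hh
    constructor <;> linarith
  have hx₀m : x₀ ∈ Icc (x₀ - 1) (x₀ + 1) := by constructor <;> linarith
  have hNt : ∀ x : ℝ, ∀ t ∈ Icc (0 : ℝ) 1, HasDerivAt (fun t => N (zz σ x t))
      (σ • (A (zz σ x t) (N (zz σ x t)))) t := by
    intro x t ht
    have h1 := hN (zz σ x t) (zz_mem hσ x ht)
    rw [zz_im, zz_re] at h1
    have h2 : HasDerivAt (fun t : ℝ => 1 + t * σ) σ t := by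
      simpa using ((hasDerivAt_id t).mul_const σ).const_add 1
    exact HasDerivAt.scomp (h := fun t : ℝ => 1 + t * σ) t h1 h2
  have hUt : ∀ t ∈ Icc (0 : ℝ) 1, HasDerivAt (fun t => U (zz σ x₀ t))
      (σ • (A (zz σ x₀ t) (U (zz σ x₀ t)) + dx A (zz σ x₀ t) (N (zz σ x₀ t)))) t := by
    intro t ht
    have h1 := hU (zz σ x₀ t) (zz_mem hσ x₀ ht)
    rw [zz_im, zz_re] at h1
    have h2 : HasDerivAt (fun t : ℝ => 1 + t * σ) σ t := by
      simpa using ((hasDerivAt_id t).mul_const σ).const_add 1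
    exact HasDerivAt.scomp (h := fun t : ℝ => 1 + t * σ) t h1 h2
  -- first and second differences
  have hA1 : ∀ h : ℝ, |h| ≤ 1 → ∀ t ∈ Icc (0 : ℝ) 1,
      ‖A (zz σ (x₀ + h) t) - A (zz σ x₀ t)‖ ≤ L₀ * |h| := by
    intro h hh t ht
    have h1 := Convex.norm_image_sub_le_of_norm_hasDerivWithin_le
      (f := fun x => A (zz σ x t)) (f' := fun x => dx A (zz σ x t)) (C := L₀)
      (s := Icc (x₀ - 1) (x₀ + 1)) (x := x₀) (y := x₀ + h)
      (fun x _ => (hasDeriv_x hA hσ ht x).hasDerivWithinAt)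
      (fun x hx => hL₀ _ (hQm x hx t ht)) (convex_Icc _ _) hx₀m (hmem h hh)
    rw [add_sub_cancel_left, Real.norm_eq_abs] at h1
    exact h1
  have hA2 : ∀ h : ℝ, |h| ≤ 1 → ∀ t ∈ Icc (0 : ℝ) 1,
      ‖dx A (zz σ (x₀ + h) t) - dx A (zz σ x₀ t)‖ ≤ M₀ * |h| := by
    intro h hh t ht
    have h1 := Convex.norm_image_sub_le_of_norm_hasDerivWithin_le
      (f := fun x => dx A (zz σ x t)) (f' := fun x => dx (dx A) (zz σ x t)) (C := M₀)
      (s := Icc (x₀ - 1) (x₀ + 1)) (x := x₀) (y := x₀ + h)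
      (fun x _ => (hasDeriv_x (smX_dx hA) hσ ht x).hasDerivWithinAt)
      (fun x hx => hM₀ _ (hQm x hx t ht)) (convex_Icc _ _) hx₀m (hmem h hh)
    rw [add_sub_cancel_left, Real.norm_eq_abs] at h1
    exact h1
  have hA3 : ∀ h : ℝ, |h| ≤ 1 → ∀ t ∈ Icc (0 : ℝ) 1,
      ‖A (zz σ (x₀ + h) t) - A (zz σ x₀ t) - h • dx A (zz σ x₀ t)‖ ≤ M₀ * h ^ 2 := by
    intro h hh t ht
    have h1 := Convex.norm_image_sub_le_of_norm_hasDerivWithin_le
      (f := fun x => A (zz σ x t) - (x - x₀) • dx A (zz σ x₀ t))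
      (f' := fun x => dx A (zz σ x t) - dx A (zz σ x₀ t)) (C := M₀ * |h|)
      (s := uIcc x₀ (x₀ + h)) (x := x₀) (y := x₀ + h)
      (fun x _ => by
        have h2 := (hasDeriv_x hA hσ ht x).sub
          (((hasDerivAt_id x).sub_const x₀).smul_const (dx A (zz σ x₀ t)))
        rw [one_smul] at h2
        exact h2.hasDerivWithinAt)
      (fun x hx => by
        have hxh : |x - x₀| ≤ |h| := by
          have h3 := Set.abs_sub_left_of_mem_uIcc hx
          simpa using h3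
        have h4 := hA2 (x - x₀) (hxh.trans hh) t ht
        rw [add_sub_cancel] at h4
        exact h4.trans (mul_le_mul_of_nonneg_left hxh hM₀0))
      (convex_uIcc _ _) left_mem_uIcc right_mem_uIcc
    rw [add_sub_cancel_left, Real.norm_eq_abs] at h1
    have h5 : A (zz σ (x₀ + h) t) - h • dx A (zz σ x₀ t) -
        (A (zz σ x₀ t) - (x₀ - x₀) • dx A (zz σ x₀ t)) =
        A (zz σ (x₀ + h) t) - A (zz σ x₀ t) - h • dx A (zz σ x₀ t) := by
      have h6 : (x₀ - x₀) • dx A (zz σ x₀ t) = 0 := by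
        rw [sub_self x₀]
        exact zero_smul ℝ (dx A (zz σ x₀ t))
      rw [h6, sub_zero]
      abel
    rw [h5] at h1
    refine h1.trans (le_of_eq ?_)
    rw [mul_assoc, ← sq, sq_abs]
  have key := core x₀ (fun x t => σ • A (zz σ x t)) (fun t => σ • dx A (zz σ x₀ t))
    (fun x t => N (zz σ x t)) (fun t => U (zz σ x₀ t)) (max 1 (|σ| * K₀)) (|σ| * L₀)
    (|σ| * M₀) B (le_max_left _ _) (by positivity) (by positivity) hB0
    (fun h _ t ht => by simpa using hNt (x₀ + h) t ht)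
    (fun t ht => by simpa [smul_add] using hUt t ht)
    (fun h hh t ht => by
      rw [norm_smul, Real.norm_eq_abs]
      exact (mul_le_mul_of_nonneg_left (hK₀ _ (hQm _ (hmem h hh) t ht))
        (abs_nonneg σ)).trans (le_max_right _ _))
    (fun t ht => by
      rw [norm_smul, Real.norm_eq_abs]
      exact mul_le_mul_of_nonneg_left (hL₀ _ (hQm _ hx₀m t ht)) (abs_nonneg σ))
    (fun h hh t ht => by
      rw [← smul_sub, norm_smul, Real.norm_eq_abs, mul_assoc]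
      exact mul_le_mul_of_nonneg_left (hA1 h hh t ht) (abs_nonneg σ))
    (fun h hh t ht => by
      have h1 : σ • A (zz σ (x₀ + h) t) - σ • A (zz σ x₀ t) - h • σ • dx A (zz σ x₀ t) =
          σ • (A (zz σ (x₀ + h) t) - A (zz σ x₀ t) - h • dx A (zz σ x₀ t)) := by
        rw [smul_sub, smul_sub, smul_comm h σ]
      rw [h1, norm_smul, Real.norm_eq_abs, mul_assoc]
      exact mul_le_mul_of_nonneg_left (hA3 h hh t ht) (abs_nonneg σ))
    (fun h hh => by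
      have h1 := hB (x₀ + h) (hmem h hh)
      simpa [zz] using h1)
    (by
      have h1 := hN1 x₀
      simpa [zz] using h1)
  have hz : ∀ x : ℝ, zz σ x 1 = (x : ℂ) + (z₀.im : ℂ) * Complex.I := by
    intro x
    simp [zz, hσdef]
  have hz0 : zz σ x₀ 1 = z₀ := by
    rw [hz, hx₀]
    exact Complex.re_add_im z₀
  simp only [hz] at key
  have hz1 : (x₀ : ℂ) + (z₀.im : ℂ) * Complex.I = z₀ := by
    rw [hx₀]
    exact Complex.re_add_im z₀
  rw [hz1] at key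
  exact key

end Pool.Agent.HSP
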