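import Pool.Agent.HSP.Targets5

set_option autoImplicit false

/-!
# HSP: the smooth section `T_SEC`
-/

open scoped Classical ENNReal Topology

noncomputable section

namespace Pool.Agent.HSP

namespace SEC_

/-- A predicate which is locally constant on a preconnected set is constant. -/
lemma locConst {s : Set ℝ} (hs : IsPreconnected s) (Q : ℝ → Prop)
    (h : ∀ x ∈ s, ∀ᶠ y in 𝓝[s] x, (Q x ↔ Q y)) {x y : ℝ} (hx : x ∈ s) (hy : y ∈ s) :
    Q x ↔ Q y :=
  hs.induction₂ (fun a b => (Q a ↔ Q b)) h (fun _ _ _ _ _ _ h1 h2 => h1.trans h2)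
    (fun _ _ _ _ h1 => h1.symm) hx hy

/-- Two lifts: `γ` is a continuous lift of the curve `c` on the preconnected set `s`, `τ` is a
continuous local section defined on a ball containing `c s`. -/
lemma agree {dev : ℂ → ℂ} {s : Set ℝ} (hs : IsPreconnected s) {γ c : ℝ → ℂ}
    (hγ : ContinuousOn γ s) (hc : Continuous c) (hd : ∀ u ∈ s, dev (γ u) = c u)
    {B U : Set ℂ} {τ : ℂ → ℂ} (hU : IsOpen U) (hτ : ContinuousOn τ B)
    (hB : ∀ u ∈ s, c u ∈ B) (h1 : ∀ w ∈ B, τ w ∈ U) (h2 : ∀ x ∈ U, τ (dev x) = x)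
    {a b : ℝ} (ha : a ∈ s) (hb : b ∈ s) (hab : γ a = τ (c a)) : γ b = τ (c b) := by
  have hτc : ContinuousOn (fun u => τ (c u)) s := hτ.comp hc.continuousOn hB
  refine (locConst hs (fun u => γ u = τ (c u)) ?_ ha hb).1 hab
  intro x hx
  by_cases hq : γ x = τ (c x)
  · have hxU : γ x ∈ U := by
      rw [hq]; exact h1 _ (hB x hx)
    have h3 : ∀ᶠ y in 𝓝[s] x, γ y ∈ U := (hγ x hx) (hU.mem_nhds hxU)
    filter_upwards [h3, self_mem_nhdsWithin] with y hy hys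
    refine ⟨fun _ => ?_, fun _ => hq⟩
    rw [← hd y hys]
    exact (h2 _ hy).symm
  · have h3 : ∀ᶠ y in 𝓝[s] x, γ y - τ (c y) ≠ 0 := by
      have h4 : ContinuousWithinAt (fun y => γ y - τ (c y)) s x :=
        (hγ x hx).sub (hτc x hx)
      exact h4.eventually_ne (sub_ne_zero.2 hq)
    filter_upwards [h3] with y hy
    exact ⟨fun h => absurd h hq, fun h => absurd h (sub_ne_zero.1 hy)⟩

end SEC_

open SEC_ in
theorem p_SEC (h_LCI : T_LCI) (h_LFT : T_LFT) : T_SEC := by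
  intro n f dev hL
  have hloc := h_LCI n f dev hL
  have hlift := h_LFT n f dev hL
  choose! γ hγc hγ0 hγ using hlift
  set c : ℂ → ℝ → ℂ := fun q t => dev Complex.I + t * (q - dev Complex.I) with hcdef
  have hc_t : ∀ q, Continuous (c q) := by
    intro q
    exact continuous_const.add ((Complex.continuous_ofReal).mul continuous_const)
  have hc_q : ∀ t, Continuous (fun q => c q t) := by
    intro t
    exact continuous_const.add (continuous_const.mul (continuous_id.sub continuous_const))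
  have hHp : IsOpen Hp := isOpen_lt continuous_const Complex.continuous_im
  -- the transfer lemma
  have trans : ∀ q₀ ∈ Hp, ∀ z ∈ Hp, ∀ a ∈ Set.Icc (0 : ℝ) 1, ∀ b ∈ Set.Icc (0 : ℝ) 1,
      ∀ (r : ℝ) (τ : ℂ → ℂ) (U : Set ℂ), IsOpen U →
      ContDiffOn ℝ ((⊤ : ℕ∞) : WithTop ℕ∞) τ (Metric.ball (dev z) r) →
      (∀ w ∈ Metric.ball (dev z) r, τ w ∈ U ∧ dev (τ w) = w) →
      (∀ x ∈ U, dev x ∈ Metric.ball (dev z) r ∧ τ (dev x) = x) →
      (∀ u ∈ Set.uIcc a b, γ q₀ u ∈ U) →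
      Filter.Tendsto (fun q => γ q a) (𝓝 q₀) (𝓝 (γ q₀ a)) →
      Filter.Tendsto (fun q => γ q b) (𝓝 q₀) (𝓝 (γ q₀ b)) := by
    intro q₀ hq₀ z hz a ha b hb r τ U hU hτ h1 h2 hγU hta
    have hsub : Set.uIcc a b ⊆ Set.Icc (0 : ℝ) 1 := by
      intro u hu
      rw [Set.mem_uIcc] at hu
      rcases hu with hu | hu
      · exact ⟨ha.1.trans hu.1, hu.2.trans hb.2⟩
      · exact ⟨hb.1.trans hu.1, hu.2.trans ha.2⟩
    have haU : γ q₀ a ∈ U := hγU a Set.left_mem_uIcc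
    have hbU : γ q₀ b ∈ U := hγU b Set.right_mem_uIcc
    have e1 : ∀ᶠ q in 𝓝 q₀, q ∈ Hp := hHp.mem_nhds hq₀
    have e2 : ∀ᶠ q in 𝓝 q₀, γ q a ∈ U := hta (hU.mem_nhds haU)
    have hcb : c q₀ b ∈ Metric.ball (dev z) r := by
      have := (h2 _ hbU).1
      rwa [(hγ q₀ hq₀ b hb).2] at this
    have e3 : ∀ᶠ q in 𝓝 q₀, c q b ∈ Metric.ball (dev z) r :=
      (hc_q b).continuousAt (Metric.isOpen_ball.mem_nhds hcb)
    have key : ∀ q, q ∈ Hp → γ q a ∈ U → c q b ∈ Metric.ball (dev z) r →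
        γ q b = τ (c q b) := by
      intro q hq hqa hqb
      have hca : c q a ∈ Metric.ball (dev z) r := by
        have := (h2 _ hqa).1
        rwa [(hγ q hq a ha).2] at this
      refine agree (dev := dev) (s := Set.uIcc a b) isPreconnected_uIcc (γ := γ q) (c := c q)
        ((hγc q hq).mono hsub) (hc_t q) (fun u hu => (hγ q hq u (hsub hu)).2)
        (B := Metric.ball (dev z) r) hU hτ.continuousOn ?_ (fun w hw => (h1 w hw).1)
        (fun x hx => (h2 x hx).2) Set.left_mem_uIcc Set.right_mem_uIcc ?_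
      · intro u hu
        have hconv := convex_ball (dev z) r
        have hseg := hconv.segment_subset hca hqb
        apply hseg
        rw [← segment_eq_uIcc] at hu
        obtain ⟨α, β, hα, hβ, hαβ, rfl⟩ := hu
        refine ⟨α, β, hα, hβ, hαβ, ?_⟩
        have hαβ' : (α : ℂ) + (β : ℂ) = 1 := by exact_mod_cast hαβ
        simp only [hcdef, Complex.real_smul, smul_eq_mul, Complex.ofReal_add, Complex.ofReal_mul]
        linear_combination (dev Complex.I) * hαβ'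
      · have := (h2 _ hqa).2
        rw [(hγ q hq a ha).2] at this
        exact this.symm
    have e4 : (fun q => γ q b) =ᶠ[𝓝 q₀] fun q => τ (c q b) := by
      filter_upwards [e1, e2, e3] with q h3 h4 h5
      exact key q h3 h4 h5
    have h6 : γ q₀ b = τ (c q₀ b) := key q₀ hq₀ haU hcb
    rw [h6]
    refine Filter.Tendsto.congr' e4.symm ?_
    have h7 : ContinuousAt τ (c q₀ b) :=
      hτ.continuousOn.continuousAt (Metric.isOpen_ball.mem_nhds hcb)
    exact Filter.Tendsto.comp h7 (hc_q b).continuousAt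
  -- continuity of all the lifts in the endpoint
  have cont : ∀ q₀ ∈ Hp, ∀ t ∈ Set.Icc (0 : ℝ) 1,
      Filter.Tendsto (fun q => γ q t) (𝓝 q₀) (𝓝 (γ q₀ t)) := by
    intro q₀ hq₀ t ht
    have h0 : Filter.Tendsto (fun q => γ q 0) (𝓝 q₀) (𝓝 (γ q₀ 0)) := by
      rw [hγ0 q₀ hq₀]
      refine tendsto_const_nhds.congr' ?_
      filter_upwards [hHp.mem_nhds hq₀] with q hq
      exact (hγ0 q hq).symm
    refine (locConst (s := Set.Icc (0 : ℝ) 1) isPreconnected_Icc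
      (fun t => Filter.Tendsto (fun q => γ q t) (𝓝 q₀) (𝓝 (γ q₀ t))) ?_
      (Set.left_mem_Icc.2 zero_le_one) ht).1 h0
    intro x hx
    obtain ⟨r, hr, τ, U, hU, hzU, hUHp, hball, hτ, h1, h2⟩ := hloc (γ q₀ x) (hγ q₀ hq₀ x hx).1
    have e1 : ∀ᶠ y in 𝓝[Set.Icc (0 : ℝ) 1] x, γ q₀ y ∈ U :=
      (hγc q₀ hq₀ x hx) (hU.mem_nhds hzU)
    rw [Filter.Eventually, Metric.mem_nhdsWithin_iff] at e1
    obtain ⟨ε, hε, hsub⟩ := e1
    have e2 : ∀ᶠ y in 𝓝[Set.Icc (0 : ℝ) 1] x, y ∈ Metric.ball x ε :=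
      mem_nhdsWithin_of_mem_nhds (Metric.ball_mem_nhds x hε)
    filter_upwards [e2, self_mem_nhdsWithin] with y hy hys
    have hall : ∀ u ∈ Set.uIcc x y, γ q₀ u ∈ U := by
      intro u hu
      refine hsub ⟨?_, ?_⟩
      · have h3 := (convex_ball x ε).segment_subset (Metric.mem_ball_self hε) hy
        rw [segment_eq_uIcc] at h3
        exact h3 hu
      · rw [Set.mem_uIcc] at hu
        rcases hu with hu | hu
        · exact ⟨hx.1.trans hu.1, hu.2.trans hys.2⟩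
        · exact ⟨hys.1.trans hu.1, hu.2.trans hx.2⟩
    constructor
    · exact trans q₀ hq₀ _ (hγ q₀ hq₀ x hx).1 x hx y hys r τ U hU hτ h1 h2 hall
    · refine trans q₀ hq₀ _ (hγ q₀ hq₀ x hx).1 y hys x hx r τ U hU hτ h1 h2 ?_
      rwa [Set.uIcc_comm]
  have h1m : (1 : ℝ) ∈ Set.Icc (0 : ℝ) 1 := Set.right_mem_Icc.2 zero_le_one
  have hend : ∀ q ∈ Hp, dev (γ q 1) = q := by
    intro q hq
    rw [(hγ q hq 1 h1m).2]
    push_cast
    ring
  refine ⟨fun q => γ q 1, ?_, fun q hq => ⟨(hγ q hq 1 h1m).1, hend q hq⟩⟩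
  intro q₀ hq₀
  apply ContDiffAt.contDiffWithinAt
  obtain ⟨r, hr, τ, U, hU, hzU, hUHp, hball, hτ, h1, h2⟩ := hloc (γ q₀ 1) (hγ q₀ hq₀ 1 h1m).1
  rw [hend q₀ hq₀] at hτ h1 h2 hball
  have h3 : ContDiffAt ℝ ((⊤ : ℕ∞) : WithTop ℕ∞) τ q₀ :=
    hτ.contDiffAt (Metric.ball_mem_nhds q₀ hr)
  refine h3.congr_of_eventuallyEq ?_
  have e1 : ∀ᶠ q in 𝓝 q₀, γ q 1 ∈ U := (cont q₀ hq₀ 1 h1m) (hU.mem_nhds hzU)
  filter_upwards [e1, hHp.mem_nhds hq₀] with q hq hqH
  have h4 := (h2 _ hq).2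
  rw [hend q hqH] at h4
  exact h4.symm

end Pool.Agent.HSP
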