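import Pool.Agent.HSP.Targets5

set_option autoImplicit false

/-!
# HSP: the saddle property does not depend on the coordinates (target SRP)
-/

open scoped Classical ENNReal Topology

noncomputable section

namespace Pool.Agent.HSP

namespace SRP_

section
variable {X : Type} [NormedAddCommGroup X] [NormedSpace ℝ X]

theorem hp_open : IsOpen Hp := isOpen_lt continuous_const Complex.continuous_im

theorem cda {g : ℂ → X} {D : Set ℂ} (hD : IsOpen D)
    (hg : ContDiffOn ℝ ((⊤ : ℕ∞) : WithTop ℕ∞) g D) {z : ℂ} (hz : z ∈ D) :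
    ContDiffAt ℝ ((⊤ : ℕ∞) : WithTop ℕ∞) g z := hg.contDiffAt (hD.mem_nhds hz)

theorem da {g : ℂ → X} {z : ℂ} (hg : ContDiffAt ℝ ((⊤ : ℕ∞) : WithTop ℕ∞) g z) :
    DifferentiableAt ℝ g z := hg.differentiableAt (by simp)

theorem dfa {g : ℂ → X} {z : ℂ} (hg : ContDiffAt ℝ ((⊤ : ℕ∞) : WithTop ℕ∞) g z) :
    DifferentiableAt ℝ (fderiv ℝ g) z := by
  have h : ContDiffAt ℝ ((⊤ : ℕ∞) : WithTop ℕ∞) (fderiv ℝ g) z := hg.fderiv_right (by simp)
  exact h.differentiableAt (by simp)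

/-- the derivative of a directional derivative -/
theorem snd_dir {g : ℂ → X} {z : ℂ} (hg : ContDiffAt ℝ ((⊤ : ℕ∞) : WithTop ℕ∞) g z) (h k : ℂ) :
    fderiv ℝ (fun w => fderiv ℝ g w h) z k = fderiv ℝ (fderiv ℝ g) z k h := by
  have h1 := (dfa hg).hasFDerivAt.clm_apply (hasFDerivAt_const h z)
  rw [h1.fderiv]
  simp

/-- the second derivative of a composition -/
theorem snd_comp {f : ℂ → X} {φ : ℂ → ℂ} {D : Set ℂ} (hD : IsOpen D)
    (hf : ContDiffOn ℝ ((⊤ : ℕ∞) : WithTop ℕ∞) f Hp)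
    (hφ : ContDiffOn ℝ ((⊤ : ℕ∞) : WithTop ℕ∞) φ D) (hm : ∀ z ∈ D, φ z ∈ Hp) {z : ℂ} (hz : z ∈ D)
    (h k : ℂ) : ∃ e : ℂ, fderiv ℝ (fun w => fderiv ℝ (fun w => f (φ w)) w h) z k =
      fderiv ℝ f (φ z) e + fderiv ℝ (fderiv ℝ f) (φ z) (fderiv ℝ φ z k) (fderiv ℝ φ z h) := by
  have e1 : (fun w => fderiv ℝ (fun w => f (φ w)) w h) =ᶠ[𝓝 z]
      fun w => fderiv ℝ f (φ w) (fderiv ℝ φ w h) := by
    filter_upwards [hD.mem_nhds hz] with w hw
    have h1 := (da (cda hp_open hf (hm w hw))).hasFDerivAt.comp w (da (cda hD hφ hw)).hasFDerivAt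
    have h2 : fderiv ℝ (fun w => f (φ w)) w = _ := h1.fderiv
    rw [h2]
    rfl
  rw [e1.fderiv_eq]
  have h1 : HasFDerivAt (fun w => fderiv ℝ f (φ w)) _ z :=
    (dfa (cda hp_open hf (hm z hz))).hasFDerivAt.comp z (da (cda hD hφ hz)).hasFDerivAt
  have h2 : HasFDerivAt (fun w => fderiv ℝ φ w h) _ z :=
    (dfa (cda hD hφ hz)).hasFDerivAt.clm_apply (hasFDerivAt_const h z)
  have h3 := h1.clm_apply h2
  rw [h3.fderiv]
  exact ⟨_, rfl⟩

theorem fst_comp {f : ℂ → X} {φ : ℂ → ℂ} {D : Set ℂ} (hD : IsOpen D)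
    (hf : ContDiffOn ℝ ((⊤ : ℕ∞) : WithTop ℕ∞) f Hp)
    (hφ : ContDiffOn ℝ ((⊤ : ℕ∞) : WithTop ℕ∞) φ D) (hm : ∀ z ∈ D, φ z ∈ Hp) {z : ℂ} (hz : z ∈ D)
    (h : ℂ) : fderiv ℝ (fun w => f (φ w)) z h = fderiv ℝ f (φ z) (fderiv ℝ φ z h) := by
  have h1 := (da (cda hp_open hf (hm z hz))).hasFDerivAt.comp z (da (cda hD hφ hz)).hasFDerivAt
  have h2 : fderiv ℝ (fun w => f (φ w)) z = _ := h1.fderiv
  rw [h2]
  rfl

end

theorem decomp (h : ℂ) : h = (h.re : ℝ) • (1 : ℂ) + (h.im : ℝ) • Complex.I := by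
  apply Complex.ext <;> simp

end SRP_

open SRP_ in
theorem p_SRP : T_SRP := by
  intro n f φ D hD hf hφ hm hs hsad z hz ν h1 hI
  set y := φ z with hy
  have hyH : y ∈ Hp := hm z hz
  set A := fderiv ℝ φ z with hA
  rw [fst_comp hD hf hφ hm hz] at h1 hI
  -- all first derivatives of `f` are orthogonal to `ν`
  have hL : ∀ k : ℂ, inner ℝ (fderiv ℝ f y k) ν = 0 := by
    intro k
    obtain ⟨h, rfl⟩ := hs z hz k
    conv_lhs => rw [decomp h]
    rw [map_add, map_smul, map_smul, map_add, map_smul, map_smul, inner_add_left,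
      inner_smul_left, inner_smul_left]
    have e1 : inner ℝ (fderiv ℝ f y ((fderiv ℝ φ z) 1)) ν = 0 := h1
    have e2 : inner ℝ (fderiv ℝ f y ((fderiv ℝ φ z) Complex.I)) ν = 0 := hI
    rw [e1, e2]
    simp
  -- the second derivative
  set F := fderiv ℝ (fderiv ℝ f) y with hF
  have hfy : ContDiffAt ℝ ((⊤ : ℕ∞) : WithTop ℕ∞) f y := cda hp_open hf hyH
  have hsymm : ∀ h k : ℂ, F h k = F k h := by
    intro h k
    have h2 : IsSymmSndFDerivAt ℝ f y := by
      refine hfy.isSymmSndFDerivAt ?_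
      rw [minSmoothness_of_isRCLikeNormedField]
      exact WithTop.coe_le_coe.2 (le_top (a := (2 : ℕ∞)))
    exact h2 h k
  have hsaddle := hsad y hyH ν (hL 1) (hL Complex.I)
  have d1 : dx (dx f) y = F 1 1 := snd_dir hfy 1 1
  have d2 : dy (dy f) y = F Complex.I Complex.I := snd_dir hfy Complex.I Complex.I
  have d3 : dy (dx f) y = F Complex.I 1 := snd_dir hfy 1 Complex.I
  rw [d1, d2, d3] at hsaddle
  have key : ∀ h k : ℂ, inner ℝ (fderiv ℝ (fun w => fderiv ℝ (fun w => f (φ w)) w h) z k) ν =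
      inner ℝ (F (A k) (A h)) ν := by
    intro h k
    obtain ⟨e, he⟩ := snd_comp hD hf hφ hm hz h k
    rw [he, inner_add_left, hL e, zero_add]
  rw [key, key, key]
  -- bilinearity
  have bil : ∀ h k : ℂ, inner ℝ (F h k) ν = h.re * k.re * inner ℝ (F 1 1) ν +
      (h.re * k.im + h.im * k.re) * inner ℝ (F Complex.I 1) ν +
      h.im * k.im * inner ℝ (F Complex.I Complex.I) ν := by
    intro h k
    conv_lhs => rw [decomp h, decomp k]
    simp only [map_add, map_smul, add_apply, smul_apply,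
      inner_add_left, inner_smul_left]
    rw [hsymm 1 Complex.I]
    simp
    ring
  rw [bil (A 1) (A 1), bil (A Complex.I) (A Complex.I), bil (A Complex.I) (A 1)]
  set p := inner ℝ (F 1 1) ν
  set q := inner ℝ (F Complex.I 1) ν
  set r := inner ℝ (F Complex.I Complex.I) ν
  have e : ((A 1).re * (A 1).re * p + ((A 1).re * (A 1).im + (A 1).im * (A 1).re) * q +
      (A 1).im * (A 1).im * r) * ((A Complex.I).re * (A Complex.I).re * p +
      ((A Complex.I).re * (A Complex.I).im + (A Complex.I).im * (A Complex.I).re) * q +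
      (A Complex.I).im * (A Complex.I).im * r) -
      ((A Complex.I).re * (A 1).re * p + ((A Complex.I).re * (A 1).im +
        (A Complex.I).im * (A 1).re) * q + (A Complex.I).im * (A 1).im * r) ^ 2 =
      ((A 1).re * (A Complex.I).im - (A 1).im * (A Complex.I).re) ^ 2 * (p * r - q ^ 2) := by
    ring
  rw [e]
  exact mul_nonpos_of_nonneg_of_nonpos (sq_nonneg _) hsaddle

end Pool.Agent.HSP
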