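import Pool.Agent.HSP.Asm2
import Pool.Agent.HSP.Iso0
import Pool.Agent.HSP.P_BRK
import Pool.Agent.HSP.P_LOD
import Pool.Agent.HSP.P_PDF
import Pool.Agent.HSP.P_FLT
import Pool.Agent.HSP.P_DEV
import Pool.Agent.HSP.P_LCI
import Pool.Agent.HSP.P_LFT
import Pool.Agent.HSP.P_SEC
import Pool.Agent.HSP.P_SRP

set_option autoImplicit false

/-!
# HSP: the hyperbolic disc
-/

namespace Pool.Agent.HSP

theorem goal2 : Goal2 :=
  my_ISO (p_DEV p_BRK (p_FLT p_LOD p_PDF)) (p_SEC p_LCI (p_LFT p_LCI)) p_SRP goal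

end Pool.Agent.HSP
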