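import Pool.Agent.HSP.Targets1

set_option autoImplicit false

/-!
# HSP: norms on a window (target T_NRM)
-/

open scoped Classical ENNReal

noncomputable section

namespace Pool.Agent.HSP

namespace NRM_

theorem A_add (l : ℤ) (a b : Fam) (t : ℝ) :
    A l (fun t y => a t y + b t y) t ≤ A l a t + A l b t := by
  refine iSup₂_le fun y hy => ?_
  have he : 0 ≤ Real.exp (|t| * ‖y‖ / 2) := (Real.exp_pos _).le
  have h1 : ‖a t y + b t y‖ * Real.exp (|t| * ‖y‖ / 2) ≤
      ‖a t y‖ * Real.exp (|t| * ‖y‖ / 2) + ‖b t y‖ * Real.exp (|t| * ‖y‖ / 2) := by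
    rw [← add_mul]
    exact mul_le_mul_of_nonneg_right (norm_add_le _ _) he
  refine (ENNReal.ofReal_le_ofReal h1).trans ?_
  rw [ENNReal.ofReal_add (mul_nonneg (norm_nonneg _) he) (mul_nonneg (norm_nonneg _) he)]
  exact add_le_add
    (le_iSup₂ (f := fun y (_ : y ∈ W l) =>
      ENNReal.ofReal (‖a t y‖ * Real.exp (|t| * ‖y‖ / 2))) y hy)
    (le_iSup₂ (f := fun y (_ : y ∈ W l) =>
      ENNReal.ofReal (‖b t y‖ * Real.exp (|t| * ‖y‖ / 2))) y hy)

theorem A_mul (l : ℤ) (a : Fam) (c : ℂ) (t : ℝ) :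
    A l (fun t y => c * a t y) t = ENNReal.ofReal ‖c‖ * A l a t := by
  unfold A
  simp only [ENNReal.mul_iSup]
  refine iSup_congr fun y => iSup_congr fun _ => ?_
  rw [← ENNReal.ofReal_mul (norm_nonneg c), norm_mul, mul_assoc]

end NRM_

open NRM_

theorem p_NRM : T_NRM := by
  intro l a b c t
  refine ⟨A_add l a b t, A_mul l a c t, ?_, ?_⟩
  · unfold N
    rw [← ENNReal.tsum_add]
    exact ENNReal.tsum_le_tsum fun s => A_add l a b s
  · unfold N
    rw [← ENNReal.tsum_mul_left]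
    exact tsum_congr fun s => A_mul l a c s

end Pool.Agent.HSP
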