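import Pool.Agent.HSP.Targets2

set_option autoImplicit false

/-!
# HSP: proofs of WIN and FQI
-/

open scoped Classical ENNReal

noncomputable section

namespace Pool.Agent.HSP

namespace WIN_

theorem fq_ge (M : ℕ) (i : Fin M) (n : ℤ) : (2 : ℝ) ^ n ≤ fq M i n := by
  unfold fq
  have h1 : (0 : ℝ) < 2 ^ n := by positivity
  have h2 : (0 : ℝ) ≤ (i : ℝ) / M := by positivity
  nlinarith

theorem fq_lt (M : ℕ) (i : Fin M) (n : ℤ) : fq M i n < (2 : ℝ) ^ (n + 1) := by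
  unfold fq
  have h1 : (0 : ℝ) < 2 ^ n := by positivity
  have hM : 0 < M := lt_of_le_of_lt (Nat.zero_le _) i.2
  have hM' : (0 : ℝ) < M := by exact_mod_cast hM
  have h2 : (i : ℝ) / M < 1 := by
    rw [div_lt_one hM']
    exact_mod_cast i.2
  rw [zpow_add₀ (by norm_num : (2 : ℝ) ≠ 0), zpow_one]
  nlinarith

theorem fq_pos (M : ℕ) (i : Fin M) (n : ℤ) : 0 < fq M i n :=
  lt_of_lt_of_le (by positivity) (fq_ge M i n)

theorem re_ge {y : ℂ} (hy : y ∈ S) : (9 / 10 : ℝ) * ‖y‖ ≤ y.re := by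
  have h1 : |y.im| < y.re / 4 := hy
  have h0 : 0 ≤ |y.im| := abs_nonneg _
  have hre : 0 < y.re := by linarith
  have h2 : ‖y‖ ^ 2 = y.re ^ 2 + y.im ^ 2 := by
    rw [Complex.sq_norm, Complex.normSq_apply]
    ring
  have h3 : y.im ^ 2 ≤ (y.re / 4) ^ 2 := by
    rw [← sq_abs y.im]
    exact pow_le_pow_left₀ h0 h1.le 2
  have h4 : 0 ≤ ‖y‖ := norm_nonneg y
  by_contra hc
  push Not at hc
  have h5 : y.re ^ 2 < ((9 / 10 : ℝ) * ‖y‖) ^ 2 := pow_lt_pow_left₀ hc hre.le (by norm_num)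
  nlinarith

theorem main_bound (p : ℕ) (hp : 1 ≤ p) (m : ℤ) (u : ℝ) (h1 : (2 : ℝ) ^ m ≤ u) (h2 : u ≤ 4 * (2 : ℝ) ^ m) :
    u ^ p * Real.exp (-(2 / 5 * u)) ≤ (4 ^ p + ((p + 1).factorial : ℝ) * (5 / 2) ^ (p + 1)) * (2 : ℝ) ^ (-|m|) := by
  have hm : (0 : ℝ) < 2 ^ m := by positivity
  have hu : 0 < u := lt_of_lt_of_le hm h1
  have hf : (0 : ℝ) ≤ ((p + 1).factorial : ℝ) * (5 / 2) ^ (p + 1) := by positivity
  have h4 : (0 : ℝ) ≤ 4 ^ p := by positivity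
  rcases le_total m 0 with hm0 | hm0
  · have e1 : (2 : ℝ) ^ (-|m|) = 2 ^ m := by
      rw [abs_of_nonpos hm0, neg_neg]
    rw [e1]
    have h3 : (2 : ℝ) ^ m ≤ 1 := by
      calc (2 : ℝ) ^ m ≤ 2 ^ (0 : ℤ) := zpow_le_zpow_right₀ (by norm_num) hm0
        _ = 1 := zpow_zero _
    have h5 : Real.exp (-(2 / 5 * u)) ≤ 1 := Real.exp_le_one_iff.mpr (by linarith)
    have h6 : u ^ p ≤ (4 * (2 : ℝ) ^ m) ^ p := pow_le_pow_left₀ hu.le h2 p
    have h7 : ((2 : ℝ) ^ m) ^ p ≤ 2 ^ m := by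
      calc ((2 : ℝ) ^ m) ^ p ≤ ((2 : ℝ) ^ m) ^ 1 := pow_le_pow_of_le_one hm.le h3 hp
        _ = 2 ^ m := pow_one _
    calc u ^ p * Real.exp (-(2 / 5 * u)) ≤ u ^ p * 1 := mul_le_mul_of_nonneg_left h5 (by positivity)
      _ = u ^ p := mul_one _
      _ ≤ (4 * (2 : ℝ) ^ m) ^ p := h6
      _ = 4 ^ p * ((2 : ℝ) ^ m) ^ p := mul_pow _ _ _
      _ ≤ 4 ^ p * 2 ^ m := mul_le_mul_of_nonneg_left h7 h4
      _ ≤ (4 ^ p + ((p + 1).factorial : ℝ) * (5 / 2) ^ (p + 1)) * 2 ^ m :=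
          mul_le_mul_of_nonneg_right (by linarith) hm.le
  · have e1 : (2 : ℝ) ^ (-|m|) = (2 ^ m)⁻¹ := by
      rw [abs_of_nonneg hm0, zpow_neg]
    rw [e1]
    have h3 := Real.pow_div_factorial_le_exp (2 / 5 * u) (by positivity) (p + 1)
    have hfac : (0 : ℝ) < ((p + 1).factorial : ℝ) := by positivity
    have h5 : (2 / 5 * u) ^ (p + 1) ≤ ((p + 1).factorial : ℝ) * Real.exp (2 / 5 * u) := by
      rw [div_le_iff₀ hfac] at h3
      linarith
    have h6 : u ^ (p + 1) * Real.exp (-(2 / 5 * u)) ≤ ((p + 1).factorial : ℝ) * (5 / 2) ^ (p + 1) := by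
      have e2 : u ^ (p + 1) = (5 / 2) ^ (p + 1) * (2 / 5 * u) ^ (p + 1) := by
        rw [← mul_pow]
        congr 1
        ring
      calc u ^ (p + 1) * Real.exp (-(2 / 5 * u))
          = (5 / 2) ^ (p + 1) * (2 / 5 * u) ^ (p + 1) * Real.exp (-(2 / 5 * u)) := by rw [e2]
        _ ≤ (5 / 2) ^ (p + 1) * (((p + 1).factorial : ℝ) * Real.exp (2 / 5 * u)) * Real.exp (-(2 / 5 * u)) := by
            apply mul_le_mul_of_nonneg_right _ (Real.exp_pos _).le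
            exact mul_le_mul_of_nonneg_left h5 (by positivity)
        _ = ((p + 1).factorial : ℝ) * (5 / 2) ^ (p + 1) * (Real.exp (2 / 5 * u) * Real.exp (-(2 / 5 * u))) := by ring
        _ = ((p + 1).factorial : ℝ) * (5 / 2) ^ (p + 1) := by
            rw [← Real.exp_add, add_neg_cancel, Real.exp_zero, mul_one]
    have h7 : u ^ p * Real.exp (-(2 / 5 * u)) ≤ ((p + 1).factorial : ℝ) * (5 / 2) ^ (p + 1) * u⁻¹ := by
      rw [← div_eq_mul_inv, le_div_iff₀ hu]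
      calc u ^ p * Real.exp (-(2 / 5 * u)) * u = u ^ (p + 1) * Real.exp (-(2 / 5 * u)) := by ring
        _ ≤ _ := h6
    have h8 : u⁻¹ ≤ (2 ^ m : ℝ)⁻¹ := inv_anti₀ hm h1
    calc u ^ p * Real.exp (-(2 / 5 * u)) ≤ ((p + 1).factorial : ℝ) * (5 / 2) ^ (p + 1) * u⁻¹ := h7
      _ ≤ ((p + 1).factorial : ℝ) * (5 / 2) ^ (p + 1) * (2 ^ m : ℝ)⁻¹ := mul_le_mul_of_nonneg_left h8 hf
      _ ≤ (4 ^ p + ((p + 1).factorial : ℝ) * (5 / 2) ^ (p + 1)) * (2 ^ m : ℝ)⁻¹ :=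
          mul_le_mul_of_nonneg_right (by linarith) (by positivity)

end WIN_

open WIN_ in
theorem p_WIN : T_WIN := by
  intro p hp
  refine ⟨4 ^ p + ((p + 1).factorial : ℝ) * (5 / 2) ^ (p + 1), by positivity, ?_⟩
  intro M i n l y hy
  obtain ⟨hS, hl, hr⟩ := hy
  have hf := fq_pos M i n
  have hre := re_ge hS
  have hy0 : 0 < ‖y‖ := lt_of_lt_of_le (by positivity) hl
  have e1 : ‖((fq M i n : ℂ) * y) ^ p * Complex.exp (-(fq M i n * y))‖
      = (fq M i n * ‖y‖) ^ p * Real.exp (-(fq M i n * y.re)) := by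
    rw [norm_mul, norm_pow, norm_mul, Complex.norm_real, Real.norm_of_nonneg hf.le, Complex.norm_exp]
    congr 2
    simp
  rw [e1, mul_assoc, ← Real.exp_add]
  have h1 : (2 : ℝ) ^ (n + l) ≤ fq M i n * ‖y‖ := by
    rw [zpow_add₀ (by norm_num : (2 : ℝ) ≠ 0)]
    exact mul_le_mul (fq_ge M i n) hl (by positivity) hf.le
  have h2 : fq M i n * ‖y‖ ≤ 4 * (2 : ℝ) ^ (n + l) := by
    calc fq M i n * ‖y‖ ≤ (2 : ℝ) ^ (n + 1) * (2 : ℝ) ^ (l + 1) :=
          mul_le_mul (fq_lt M i n).le hr hy0.le (by positivity)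
      _ = 4 * (2 : ℝ) ^ (n + l) := by
          rw [zpow_add₀ (by norm_num : (2 : ℝ) ≠ 0), zpow_add₀ (by norm_num : (2 : ℝ) ≠ 0),
            zpow_add₀ (by norm_num : (2 : ℝ) ≠ 0)]
          ring
  refine le_trans ?_ (main_bound p hp (n + l) _ h1 h2)
  apply mul_le_mul_of_nonneg_left _ (by positivity)
  apply Real.exp_le_exp.mpr
  nlinarith [mul_le_mul_of_nonneg_left hre hf.le]

open WIN_ in
theorem p_FQI : T_FQI := by
  intro M hM
  have hM' : (0 : ℝ) < M := by exact_mod_cast hM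
  have hc : ∀ i : Fin M, 0 < cf M i ∧ cf M i ^ 2 = 4 / (M + i) := by
    intro i
    have h0 : (0 : ℝ) < (M : ℝ) + i := by positivity
    unfold cf
    refine ⟨by positivity, ?_⟩
    rw [div_pow, Real.sq_sqrt h0.le]
    norm_num
  refine ⟨fun i n => ⟨fq_ge M i n, fq_lt M i n⟩, fun i => ?_, hc, ?_⟩
  · intro m n hmn
    unfold fq at hmn
    have h2 : (0 : ℝ) < 1 + (i : ℝ) / M := by positivity
    have h3 : (2 : ℝ) ^ m = 2 ^ n := mul_right_cancel₀ h2.ne' hmn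
    exact zpow_right_injective₀ (by norm_num) (by norm_num) h3
  · calc ∑ i : Fin M, cf M i ^ 2 ≤ ∑ _i : Fin M, (4 : ℝ) / M := by
          apply Finset.sum_le_sum
          intro i _
          rw [(hc i).2]
          apply div_le_div_of_nonneg_left (by norm_num) hM'
          have : (0 : ℝ) ≤ (i : ℝ) := by positivity
          linarith
      _ = 4 := by
          rw [Finset.sum_const, Finset.card_univ, Fintype.card_fin, nsmul_eq_mul]
          field_simp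

end Pool.Agent.HSP
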