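import Pool.Agent.HSP.Targets1

set_option autoImplicit false

/-!
# HSP targets 2: functions on the half plane, the base curve

Every target has its proof in the docstring.
-/

open scoped Classical ENNReal

noncomputable section

namespace Pool.Agent.HSP

/-! ## Smoothness -/

/-- CLA. Admissible families are locally summable (uses T_PTW). PROOF. A compact `K ⊆ S` is covered by finitely many windows (`‖y‖` is bounded below and above on `K`) and `‖y‖ ≥ m > 0` there: take `r = m / 2`. -/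
def T_CLA : Prop := ∀ a, Adm a → Cls a

/-- CLD. Derivatives of locally summable families. PROOF. `|t| exp (r/2 |t|) ≤ C exp (r |t|)`. For the derivative: Cauchy estimate `‖deriv (a t) y‖ ≤ ρ⁻¹ sup_{K'} ‖a t‖` with `K' = cthickening ρ K ⊆ S` compact. -/
def T_CLD : Prop := ∀ a, Cls a → Cls (fun t y => Complex.I * t * a t y) ∧ Cls (fun t y => deriv (a t) y)

/-- FND. Termwise differentiation. PROOF. `hasFDerivAt_tsum_of_isPreconnected` (or `hasFDerivAt_tsum`) on a small ball around `z` in the half plane: the terms `z ↦ a t z.im * ex t z.re` have the derivative `h ↦ h.re * (i t a t y ex) + h.im * (deriv (a t) y * ex)`,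
bounded by a summable sequence on the ball (T_CLD for the compact set `K = {y real}`). -/
def T_FND : Prop := ∀ a, Cls a → ∀ z ∈ Hp, ∃ L : ℂ →L[ℝ] ℂ, HasFDerivAt (fn a) L z ∧ L 1 = fn (fun t y => Complex.I * t * a t y) z ∧ L Complex.I = fn (fun t y => deriv (a t) y) z

/-- SMO. Smoothness (uses T_CLD, T_FND). PROOF. By induction on `n`: `∀ a, Cls a → ContDiffOn ℝ n (fn a) Hp` (`contDiffOn_succ_iff_fderiv_of_isOpen`, `fderiv (fn a) z` is a fixed linear combination of the two values `fn (..) z`). -/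
def T_SMO : Prop := ∀ a, Cls a → Smo (fn a)

/-! ## Derivatives of the operators -/

/-- DTV. (uses T_OPS, T_CLA, T_FND, T_ODV, T_PTW). PROOF. `V = (z.im)⁻¹ * fn (T1 a) z = fn b z` for `b t y = y⁻¹ * T1 a t y` (locally summable as `T1 a` is admissible). `deriv (b t) y` for real `y` is the real derivative, given by T_ODV. So with `L` of T_FND `L 1 = fn (i t b)`, `L I = fn (t b + 2 i y⁻² a)`;
`∂_w = (L 1 - i L I) / 2 = fn (y⁻² a)`, `∂_w̄ = (L 1 + i L I) / 2 = fn (i t b - y⁻² a) = fn (y⁻² T2 a)`; every real-linear `L : ℂ → ℂ` is `u h + v conj h` with these `u, v`. -/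
def T_DTV : Prop := ∀ a, Adm a → ∀ z ∈ Hp, HasW (fun z => (z.im : ℂ)⁻¹ * fn (T1 a) z) ((z.im : ℂ)⁻¹ ^ 2 * fn a z) ((z.im : ℂ)⁻¹ ^ 2 * fn (T2 a) z) z

/-- DTB. As T_DTV with T_ODB. -/
def T_DTB : Prop := ∀ k, Adm k → ∀ z ∈ Hp, HasW (fun z => (z.im : ℂ) * fn (Bq k) z) (fn (kap k) z) (fn (Mq k) z) z

/-! ## The base curve -/

/-- SER. Series of modes (uses T_PTW). PROOF. `A l (ser α f) t ≤ ∑' i, if t = α i then (..) else 0`, sum over `t`. Holomorphic: for fixed `t` the series over `{i | α i = t}` converges uniformly on windows. `ev`: exchange the sums over `t` and `i` (absolutely convergent). -/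
def T_SER : Prop := ∀ (I : Type) (α : I → ℝ) (f : I → ℂ → ℂ) (C : ℝ), (∀ i, DifferentiableOn ℂ (f i) S) → (∀ l, ∑' i, (⨆ y ∈ W l, ENNReal.ofReal (‖f i y‖ * Real.exp (|α i| * ‖y‖ / 2))) ≤ ENNReal.ofReal C) →
  Adm (ser α f) ∧ NN (ser α f) ≤ ENNReal.ofReal C ∧ (∀ y ∈ S, Summable (fun i => ‖f i y‖)) ∧ ∀ x : ℝ, ∀ y ∈ S, ev (ser α f) x y = ∑' i, f i y * ex (α i) x

/-- WIN. The size of a single mode on a window. PROOF. `u = fq M i n * ‖y‖ ∈ [2^(n+l), 2^(n+l+2)]` (`1 ≤ 1 + i/M < 2`), `Re y ≥ 9/10 ‖y‖` (T_PTW): the left side is `≤ u^p exp (-(4/10) u)`. If `n + l ≤ 0`: `u^p ≤ u * 4^(p-1) ≤ 4^p 2^(n+l)`; if `n + l ≥ 0`: `u^p exp (-(4/10) u) ≤ C / u`. -/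
def T_WIN : Prop := ∀ p : ℕ, 1 ≤ p → ∃ C : ℝ, 0 < C ∧ ∀ (M : ℕ) (i : Fin M) (n l : ℤ), ∀ y ∈ W l,
  ‖((fq M i n : ℂ) * y) ^ p * Complex.exp (-(fq M i n * y))‖ * Real.exp (fq M i n * ‖y‖ / 2) ≤ C * (2 : ℝ) ^ (-|n + l|)

/-- FQI. Elementary facts on frequencies and coefficients. -/
def T_FQI : Prop := ∀ (M : ℕ), 1 ≤ M → (∀ i n, (2 : ℝ) ^ n ≤ fq M i n ∧ fq M i n < (2 : ℝ) ^ (n + 1)) ∧ (∀ i : Fin M, Function.Injective (fq M i)) ∧ (∀ i : Fin M, 0 < cf M i ∧ cf M i ^ 2 = 4 / (M + i)) ∧ ∑ i : Fin M, cf M i ^ 2 ≤ 4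

/-- FBA. The base vectors (uses T_SER, T_WIN, T_FQI, T_PTW). PROOF. `Fb J M p (j₀, i) = ser (fun n : ℤ => fq M i (j₀ + J n)) (fun n y => cf (i ξ y)^p exp (-ξ y))`, since `fq M i` is injective and `J ≥ 1`. `N l ≤ cf C ∑' n, 2^(-|j₀ + J n + l|)`, so
`∑_r (N l)² ≤ (∑_i cf²) C² ∑_{j₀} (∑' n, 2^(-|j₀ + J n + l|))² ≤ 4 C² (∑' j, 2^(-|j|))² = 36 C²`. The last claim: the derivative of `∑ cf (i ξ)^p exp (i ξ w)`; use `Cls`, T_CLA, T_FND as in T_DTV with the differential equation `b' = -t b + i t ..`; more directly: with `b t y = y^(-p) Fb p t y = cf (i t)^p exp (-t y)`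
one has `deriv (b t) y = -t b t y` and `i t b t y = y^(-p-1) Fb (p+1) t y`, so `∂_w = (i t b + i t b)/2`, `∂_w̄ = 0`. -/
def T_FBA : Prop := (∃ C : ℝ, 1 ≤ C ∧ ∀ J M p : ℕ, 1 ≤ J → 1 ≤ M → 1 ≤ p → p ≤ 3 → (∀ r, Adm (Fb J M p r)) ∧ NV (Fb J M p) ≤ ENNReal.ofReal C) ∧
  (∀ J M p : ℕ, 1 ≤ J → 1 ≤ M → 1 ≤ p → ∀ r : Fin J × Fin M, ∀ x : ℝ, ∀ y ∈ S, Summable (fun n : ℤ => ‖(cf M r.2 : ℂ) * (Complex.I * fq M r.2 (r.1 + J * n) * y) ^ p * Complex.exp (-(fq M r.2 (r.1 + J * n) * y))‖) ∧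
    ev (Fb J M p r) x y = ∑' n : ℤ, (cf M r.2 : ℂ) * (Complex.I * fq M r.2 (r.1 + J * n) * y) ^ p * Complex.exp (-(fq M r.2 (r.1 + J * n) * y)) * ex (fq M r.2 (r.1 + J * n)) x)

/-- DTF. Derivatives of the base curve (uses T_FBA, T_CLA, T_FND; see the end of the docstring of T_FBA). -/
def T_DTF : Prop := ∀ J M p : ℕ, 1 ≤ J → 1 ≤ M → 1 ≤ p → p ≤ 2 → ∀ r : Fin J × Fin M, ∀ z ∈ Hp, HasW (fun z => (z.im : ℂ)⁻¹ ^ p * fn (Fb J M p r) z) ((z.im : ℂ)⁻¹ ^ (p + 1) * fn (Fb J M (p + 1) r) z) 0 z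

/-- The limit of the Gram products. -/
def gm (p q : ℕ) : ℂ := Complex.I ^ p * (-Complex.I) ^ q * (4 * (p + q - 1).factorial / 2 ^ (p + q))

/-- The diagonal part of the Gram products: `∑ cf² (i ξ y)^p (-i ξ y)^q exp (-2 ξ y)`. -/
def gd (M p q : ℕ) (y : ℂ) : ℂ := ∑ i : Fin M, ∑' n : ℤ, (cf M i : ℂ) ^ 2 * (Complex.I * fq M i n * y) ^ p * (-(Complex.I * fq M i n * y)) ^ q * Complex.exp (-(2 * fq M i n * y))

/-- DIA. The diagonal part is close to its limit. PROOF. `m = p + q ≥ 2`. Up to the factor `i^p (-i)^q` the sum is `∑_{i,n} 4 y^m ξ^(m-1) exp (-2 ξ y) Δξ`, `Δξ = 2^n / M` (`cf² ξ² = 4 ξ Δξ`, i.e. `cf² = 4 / (M ω_i)`, `ξ = 2^n ω_i`): a Riemann sum (left end points, intervals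
`[2^n (1 + i/M), 2^n (1 + (i+1)/M))` partition `(0, ∞)`) of `g s = 4 y^m s^(m-1) exp (-2 s y)`, and `∫_0^∞ g = 4 (m-1)! / 2^m` (`Complex.integral_cpow_mul_exp_neg_mul_Ioi` or the real Gamma integral and analytic continuation). With `ξ s` the left end point of the interval of `s`:
`0 ≤ s - ξ s ≤ s / M`, `ξ s ≥ s / 2`, `‖g s - g (ξ s)‖ ≤ (s / M) sup_{[s/2, s]} ‖g'‖ ≤ (1 / M) C ‖y‖ (s ‖y‖)^(m-1) (1 + s ‖y‖) exp (-(9/10) s ‖y‖)`; integrate over `s`. Holomorphic: locally uniform convergence (T_WIN-like bounds). -/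
def T_DIA : Prop := ∀ p q : ℕ, 1 ≤ p → 1 ≤ q → (∀ M, 1 ≤ M → DifferentiableOn ℂ (gd M p q) S) ∧ ∃ C : ℝ, 0 < C ∧ ∀ M, 1 ≤ M → ∀ y ∈ S, ‖gd M p q y - gm p q‖ ≤ C / M

/-- OFF. The off-diagonal part (uses T_SER, T_WIN, T_FQI). PROOF. `R = ser` over `I = (Fin J × Fin M) × {(n, n') : ℤ × ℤ // n ≠ n'}` with frequencies `ξ - ξ'`. With `a = j₀ + J n + l`, `a' = j₀ + J n' + l` the terms are `≤ cf² C C' 2^(-|a|-|a'|)` on `W l` (`|ξ - ξ'| ≤ ξ + ξ'`), and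
`|a| + |a'| ≥ |a - a'| ≥ J`, so `2^(-|a|-|a'|) ≤ 2^(-J/2) 2^(-|a|/2) 2^(-|a'|/2)`; the sum over `j₀, n, n'` is `≤ 2^(-J/2) (∑' a, 2^(-|a|/2))²`, the sum over `i` of `cf²` is `≤ 4`. -/
def T_OFF : Prop := ∀ p q : ℕ, 1 ≤ p → 1 ≤ q → ∃ C : ℝ, 0 < C ∧ ∀ J M : ℕ, 1 ≤ J → 1 ≤ M → ∃ R : Fam, Adm R ∧ NN R ≤ ENNReal.ofReal (C * (2 : ℝ) ^ (-(J : ℝ) / 2)) ∧ ∀ x : ℝ, ∀ y ∈ S,
  Summable (fun i : (Fin J × Fin M) × {n : ℤ × ℤ // n.1 ≠ n.2} => ‖(cf M i.1.2 : ℂ) ^ 2 * (Complex.I * fq M i.1.2 (i.1.1 + J * i.2.1.1) * y) ^ p * (-(Complex.I * fq M i.1.2 (i.1.1 + J * i.2.1.2) * y)) ^ q *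
    Complex.exp (-((fq M i.1.2 (i.1.1 + J * i.2.1.1) + fq M i.1.2 (i.1.1 + J * i.2.1.2)) * y))‖) ∧
  ev R x y = ∑' i : (Fin J × Fin M) × {n : ℤ × ℤ // n.1 ≠ n.2}, (cf M i.1.2 : ℂ) ^ 2 * (Complex.I * fq M i.1.2 (i.1.1 + J * i.2.1.1) * y) ^ p * (-(Complex.I * fq M i.1.2 (i.1.1 + J * i.2.1.2) * y)) ^ q *
    Complex.exp (-((fq M i.1.2 (i.1.1 + J * i.2.1.1) + fq M i.1.2 (i.1.1 + J * i.2.1.2)) * y)) * ex (fq M i.1.2 (i.1.1 + J * i.2.1.1) - fq M i.1.2 (i.1.1 + J * i.2.1.2)) x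

/-- GRM. The Gram products of the base vectors (uses T_DIA, T_OFF, T_FBA, T_SER, T_LIN). PROOF. Take `M` large with `C / M ≤ ε / 2` and `J` large with `C 2^(-J/2) ≤ ε / 2` for the nine pairs `(p, q)`. `ev (Fb p r) x y * conj (ev (Fb q r) x (conj y)) = ∑_n ∑_n' (..)`
(T_FBA, `conj ((i ξ conj y)^q exp (-ξ conj y) ex ξ x) = (-i ξ y)^q exp (-ξ y) ex (-ξ) x`), product of absolutely convergent series; split `n = n'` and `n ≠ n'`; the diagonal terms over `r` and `n` are all frequencies once (`(j₀, n) ↦ j₀ + J n` is a bijection of `Fin J × ℤ` with `ℤ`).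
`R = R_off + ser` of one mode of frequency `0` with `f y = gd M p q y - gm p q`. -/
def T_GRM : Prop := ∀ ε : ℝ, 0 < ε → ∃ J M : ℕ, 1 ≤ J ∧ 1 ≤ M ∧ ∀ p q : ℕ, 1 ≤ p → p ≤ 3 → 1 ≤ q → q ≤ 3 → ∃ R : Fam, Adm R ∧ NN R ≤ ENNReal.ofReal ε ∧
  ∀ x : ℝ, ∀ y ∈ S, ∑ r, ev (Fb J M p r) x y * (starRingEnd ℂ) (ev (Fb J M q r) x ((starRingEnd ℂ) y)) = gm p q + ev R x y

end Pool.Agent.HSP
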