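import Pool.Agent.HSP.Defs2

set_option autoImplicit false

/-!
# HSP targets 3: the abstract contraction

Every target has its proof in the docstring.
-/

open scoped Classical ENNReal

noncomputable section

namespace Pool.Agent.HSP

/-- An abstract system: a normed commutative ring `R` with conjugation, a normed module `E` with a sesquilinear product, bounded additive operators. -/
structure Sys (C : ℝ) (R E : Type) [NormedCommRing R] [StarRing R] [NormedAddCommGroup E] [Module R E] where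
  ip : E → E → R
  hf : R
  ii : R
  kp : R →+ R
  mq : R →+ R
  bq : R →+ R
  t1 : E →+ E
  t2 : E →+ E
  u1 : E →+ E
  u2 : E →+ E
  F1 : E
  F2 : E
  F3 : E
  two_hf : 2 * hf = 1
  ii_ii : ii * ii = -1
  star_ii : star ii = -ii
  norm_one : ‖(1 : R)‖ ≤ 1
  norm_hf : ‖hf‖ ≤ 1
  norm_ii : ‖ii‖ ≤ 1
  norm_star : ∀ a : R, ‖star a‖ = ‖a‖
  norm_smul : ∀ (a : R) (u : E), ‖a • u‖ ≤ ‖a‖ * ‖u‖
  ip_add : ∀ u v w, ip (u + v) w = ip u w + ip v w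
  ip_smul : ∀ (a : R) (u w : E), ip (a • u) w = a * ip u w
  star_ip : ∀ u v, star (ip u v) = ip v u
  norm_ip : ∀ u v, ‖ip u v‖ ≤ ‖u‖ * ‖v‖
  norm_kp : ∀ a, ‖kp a‖ ≤ C * ‖a‖
  norm_mq : ∀ a, ‖mq a‖ ≤ C * ‖a‖
  norm_bq : ∀ a, ‖bq a‖ ≤ C * ‖a‖
  norm_t1 : ∀ u, ‖t1 u‖ ≤ C * ‖u‖
  norm_t2 : ∀ u, ‖t2 u‖ ≤ C * ‖u‖
  norm_u1 : ∀ u, ‖u1 u‖ ≤ C * ‖u‖
  norm_u2 : ∀ u, ‖u2 u‖ ≤ C * ‖u‖
  kp_real : ∀ k, star k = k → kp k + star (kp k) = k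
  norm_F1 : ‖F1‖ ≤ C
  norm_F2 : ‖F2‖ ≤ C
  norm_F3 : ‖F3‖ ≤ C

namespace Sys

variable {C : ℝ} {R E : Type} [NormedCommRing R] [StarRing R] [NormedAddCommGroup E] [Module R E] (s : Sys C R E)

/-- `y² Φ_ww̄` -/
def z2 (k : R) (ψ : E) : E := ψ + s.mq k • s.F2

/-- `y Φ_w̄` -/
def v1 (k : R) (ψ : E) : E := s.t1 (s.z2 k ψ)

/-- `y² Φ_w̄w̄` -/
def w2 (k : R) (ψ : E) : E := s.t2 (s.z2 k ψ)

/-- `y Φ_w` -/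
def p1 (k : R) (ψ : E) : E := s.F1 + s.bq k • s.F2 + s.u1 ψ

/-- `y² Φ_ww` -/
def p2 (k : R) (ψ : E) : E := s.F2 + s.kp k • s.F2 + s.bq k • s.F3 + s.u2 ψ

/-- The right side of (E1). -/
def nx (k : R) (ψ : E) : E := s.mq k • (s.p2 k ψ - s.F2) + star (s.mq k) • s.w2 k ψ

/-- The curvature expression. -/
def ps (k : R) (ψ : E) : R := Psi s.hf s.ip (s.p1 k ψ) (s.p2 k ψ) (s.v1 k ψ) (s.w2 k ψ) (s.z2 k ψ)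

/-- The Gram products of `F1, F2, F3` are close to those of the base curve. -/
structure Gram (ε : ℝ) : Prop where
  g11 : ‖s.ip s.F1 s.F1 - 1‖ ≤ ε
  g21 : ‖s.ip s.F2 s.F1 - s.ii‖ ≤ ε
  g22 : ‖s.ip s.F2 s.F2 - 3 * s.hf‖ ≤ ε
  g31 : ‖s.ip s.F3 s.F1 + 3 * s.hf‖ ≤ ε
  g32 : ‖s.ip s.F3 s.F2 - 3 * s.ii‖ ≤ ε

end Sys

/-- REA. The curvature expression is real. PROOF. `star h = h` follows from `2 h = 1` (`star h = star h * (2 h) = (2 star h) h = h`). `be`, `c1`, `c2` are real, `star (star al * u1 * star u2) = al * u2 * star u1`, etc. -/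
def T_REA : Prop := ∀ (R E : Type) [CommRing R] [StarRing R] (h : R) (ip : E → E → R) (P1 P2 V1 W2 Z2 : E), 2 * h = 1 → (∀ u v, star (ip u v) = ip v u) → star (Psi h ip P1 P2 V1 W2 Z2) = Psi h ip P1 P2 V1 W2 Z2

/-- NXT. The map `nx` is quadratic. PROOF. `p2 - F2 = kp k • F2 + bq k • F3 + u2 ψ` and `w2 = t2 (ψ + mq k • F2)` are additive in `(k, ψ)` and bounded by `K (‖k‖ + ‖ψ‖)`, so are their differences; `a b - a' b' = a (b - b') + (a - a') b'`. -/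
def T_NXT : Prop := ∀ C : ℝ, 1 ≤ C → ∃ K : ℝ, 1 ≤ K ∧ ∀ (R E : Type) [NormedCommRing R] [StarRing R] [NormedAddCommGroup E] [Module R E] (s : Sys C R E) (ρ : ℝ), 0 ≤ ρ → ρ ≤ 1 → ∀ (k k' : R) (ψ ψ' : E), ‖k‖ ≤ ρ → ‖k'‖ ≤ ρ → ‖ψ‖ ≤ ρ → ‖ψ'‖ ≤ ρ →
  ‖s.nx k ψ‖ ≤ K * ρ * ρ ∧ ‖s.nx k ψ - s.nx k' ψ'‖ ≤ K * ρ * (‖k - k'‖ + ‖ψ - ψ'‖)

/-- LIP. The curvature expression is `k / 16` up to terms of small Lipschitz constant: with `ψ = nx k φ` (T_NXT: of size `K ρ²`). Let `h = ρ + ε`, `d = ‖k - k'‖ + ‖φ - φ'‖`. Classes of pairs (values at the two points): `Sl`: `‖a‖, ‖a'‖ ≤ K ρ`, `‖a - a'‖ ≤ K d`; `Er`: `‖a‖, ‖a'‖ ≤ K h`, `‖a - a'‖ ≤ K h d`; `Bd`: `‖a‖, ‖a'‖ ≤ K`, `‖a - a'‖ ≤ K d`.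
`Sl, Er ⊂ Bd`, sums, `Sl * Sl ⊂ Er`, `Er * Bd ⊂ Er`, constants of size `ε` are in `Er`, `star` preserves the classes. The same classes for vectors (`ψ, u1 ψ, u2 ψ ∈ Er`, `v1, w2, z2 ∈ Sl`, `p1, p2 ∈ Bd`) with `ip`.
Modulo `Er`, with `b = bq k`, `κ = kp k` (`κ + star κ = k`): `ip v1 v1, ip w2 w2, ip v1 w2, ip z2 z2 ∈ Er`; `al, u1, t1 ∈ Sl`, so `Psi ≡ h³ (g11² g22 - g11 g21 g12) - h⁴ g11⁴` with
`g11 = ip p1 p1 ≡ 1 + s1`, `s1 = i b - i b*`; `g21 = ip p2 p1 ≡ i + s2`, `s2 = i κ - (3/2) b + (3/2) b*`; `g12 = star g21`; `g22 = ip p2 p2 ≡ 3/2 + s3`, `s3 = (3/2) k + 3 i b - 3 i b*`.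
`16 Psi ≡ 2 g11² g22 - 2 g11 g21 g12 - g11⁴ ≡ 0 + (6 - 2 - 4) s1 + 2 s3 + 2 i (s2 - star s2) = k`. -/
def T_LIP : Prop := ∀ C : ℝ, 1 ≤ C → ∃ K : ℝ, 1 ≤ K ∧ ∀ (R E : Type) [NormedCommRing R] [StarRing R] [NormedAddCommGroup E] [Module R E] (s : Sys C R E) (ρ ε : ℝ), 0 ≤ ρ → ρ ≤ 1 → 0 ≤ ε → ε ≤ 1 → s.Gram ε →
  ∀ (k k' : R) (φ φ' : E), star k = k → star k' = k' → ‖k‖ ≤ ρ → ‖k'‖ ≤ ρ → ‖φ‖ ≤ ρ → ‖φ'‖ ≤ ρ →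
  ‖k - 16 * s.ps k (s.nx k φ)‖ ≤ K * (ρ + ε) ∧ ‖(k - 16 * s.ps k (s.nx k φ)) - (k' - 16 * s.ps k' (s.nx k' φ'))‖ ≤ K * (ρ + ε) * (‖k - k'‖ + ‖φ - φ'‖)

/-- FIX. The fixed point (uses T_REA, T_NXT, T_LIP). PROOF. Let `K` be the maximum of the two constants, `ρ` small (`ρ ≤ η`, `16 K ρ ≤ 1`), `ε` small (`16 K ε ≤ ρ`). The map `(k, ψ) ↦ (k - 16 ps k (nx k ψ), nx k ψ)` on `{(k, ψ) | star k = k, ‖k‖ ≤ ρ, ‖ψ‖ ≤ ρ}` (closed in the complete space `R × E`: `star` is an isometry) is a contraction: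
the first component has Lipschitz constant `≤ 2 K (ρ + ε) ≤ 1/4`, its value at `(0, 0)` is `≤ 2 K ε ≤ ρ / 8` (T_LIP with `ρ = ε`; or with `ρ = 0`), the second one is `≤ K ρ² ≤ ρ`. `ContractingWith.exists_fixedPoint'` or Picard iteration. The fixed point has `ψ = nx k ψ` and `16 ps k ψ = 0`, so `ps k ψ = 0` (`16 * hf ^ 4 = 1`). -/
def T_FIX : Prop := ∀ C : ℝ, 1 ≤ C → ∀ η : ℝ, 0 < η → ∃ ε : ℝ, 0 < ε ∧ ∀ (R E : Type) [NormedCommRing R] [StarRing R] [NormedAddCommGroup E] [Module R E] [CompleteSpace R] [CompleteSpace E] (s : Sys C R E), s.Gram ε →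
  ∃ (k : R) (ψ : E), star k = k ∧ ‖k‖ ≤ η ∧ ‖ψ‖ ≤ η ∧ ψ = s.nx k ψ ∧ s.ps k ψ = 0

/-- SOL. The solution with the estimates (uses T_FIX). PROOF. `‖ip (p1) (p1) - ip F1 F1‖ ≤ K η`, `‖v1‖ ≤ K η`, `‖mq k‖ ≤ C η`: take `η` and `ε` small. Also `z2 = mq k • p2 + star (mq k) • w2` from `ψ = nx k ψ`. -/
def T_SOL : Prop := ∀ C : ℝ, 1 ≤ C → ∃ ε : ℝ, 0 < ε ∧ ∀ (R E : Type) [NormedCommRing R] [StarRing R] [NormedAddCommGroup E] [Module R E] [CompleteSpace R] [CompleteSpace E] (s : Sys C R E), s.Gram ε →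
  ∃ (k : R) (ψ : E), star k = k ∧ ‖s.mq k‖ ≤ 1 / 4 ∧ s.z2 k ψ = s.mq k • s.p2 k ψ + star (s.mq k) • s.w2 k ψ ∧ s.ps k ψ = 0 ∧ ‖s.ip (s.p1 k ψ) (s.p1 k ψ) - 1‖ ≤ 1 / 4 ∧ ‖s.ip (s.v1 k ψ) (s.v1 k ψ)‖ ≤ 1 / 64

end Pool.Agent.HSP
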