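import Pool.Agent.HSP.Alg
import Pool.Agent.HSP.Targets2
import Pool.Agent.HSP.Targets3

set_option autoImplicit false

/-!
# HSP: the system of the base curve
-/

open scoped Classical ENNReal

noncomputable section

namespace Pool.Agent.HSP

namespace SysI

/-- An operator on the algebra. -/
def op (T : Fam → Fam) (hA : ∀ a, Adm a → Adm (T a)) (hL : ∀ a b, Adm a → Adm b → ∀ c : ℂ, T (fun t y => a t y + c * b t y) = fun t y => T a t y + c * T b t y) : Al →+ Al :=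
  AddMonoidHom.mk' (fun a => ⟨T a.1, hA a.1 a.2⟩) (fun a b => Al.ext fun t y => by
    have h := congrFun (congrFun (hL a.1 b.1 a.2 b.2 1) t) y
    simp only [one_mul] at h
    exact h)

/-- An operator on vectors. -/
def opv {ι : Type} (f : Al →+ Al) : Ve ι →+ Ve ι := AddMonoidHom.mk' (fun u r => f (u r)) (fun u v => Ve.ext fun r => by
  change f ((u + v) r) = f (u r) + f (v r)
  rw [Ve.add_val, map_add])

/-- The conjugate of an operator on vectors. -/
def opc {ι : Type} (f : Al →+ Al) : Ve ι →+ Ve ι := AddMonoidHom.mk' (fun u r => star (f (star (u r)))) (fun u v => Ve.ext fun r => by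
  change star (f (star ((u + v) r))) = star (f (star (u r))) + star (f (star (v r)))
  rw [Ve.add_val, star_add, map_add, star_add])

theorem opv_val {ι : Type} (f : Al →+ Al) (u : Ve ι) (r : ι) : opv f u r = f (u r) := rfl
theorem opc_val {ι : Type} (f : Al →+ Al) (u : Ve ι) (r : ι) : opc f u r = star (f (star (u r))) := rfl

/-- The bound of an operator. -/
def Bdd (C : ℝ) (f : Al →+ Al) : Prop := ∀ a l, N l (f a).1 ≤ ∑' n : ℤ, ENNReal.ofReal (C * (2 : ℝ) ^ (-|n|)) * N (l + n) a.1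

theorem norm_opv {ι : Type} [Fintype ι] {C : ℝ} (hC : 0 ≤ C) {f : Al →+ Al} (h : Bdd C f) (u : Ve ι) : ‖opv f u‖ ≤ 3 * C * ‖u‖ := by
  rw [Ve.norm_le_iff _ (by positivity), ENNReal.ofReal_mul (by positivity), Ve.ofReal_norm]
  exact q_NVS ι C (Ve.fam u) (Ve.fam (opv f u)) hC fun l r => h (u r) l

theorem N_star (a : Al) (l : ℤ) : N l (star a).1 = N l a.1 := (q_STA a.1 a.2).2.1 l

theorem norm_opc {ι : Type} [Fintype ι] {C : ℝ} (hC : 0 ≤ C) {f : Al →+ Al} (h : Bdd C f) (u : Ve ι) : ‖opc f u‖ ≤ 3 * C * ‖u‖ := by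
  rw [Ve.norm_le_iff _ (by positivity), ENNReal.ofReal_mul (by positivity), Ve.ofReal_norm]
  refine q_NVS ι C (Ve.fam u) (Ve.fam (opc f u)) hC fun l r => ?_
  change N l (star (f (star (u r)))).1 ≤ _
  rw [N_star]
  refine (h (star (u r)) l).trans (le_of_eq ?_)
  refine tsum_congr fun n => ?_
  rw [N_star]; rfl

theorem norm_op {C : ℝ} (hC : 0 ≤ C) {f : Al →+ Al} (h : Bdd C f) (a : Al) : ‖f a‖ ≤ 3 * C * ‖a‖ := by
  have h1 := norm_opv (ι := Unit) hC h (fun _ => a)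
  have h2 := Ve.norm_comp_le (opv (ι := Unit) f (fun _ => a)) ()
  have h3 := Ve.norm_le_sum (ι := Unit) (fun _ => a)
  simp only [Finset.univ_unique, Finset.sum_singleton] at h3
  rw [opv_val] at h2
  calc ‖f a‖ ≤ _ := h2
    _ ≤ _ := h1
    _ ≤ 3 * C * ‖a‖ := mul_le_mul_of_nonneg_left h3 (by positivity)

/-- The bounds of the operators with the constant `C`. -/
def OpsC (C : ℝ) : Prop := ∀ a, Adm a → Adm (T1 a) ∧ Adm (T2 a) ∧ Adm (kap a) ∧ Adm (Bq a) ∧ Adm (Mq a) ∧ ∀ l, N l (T1 a) ≤ ∑' n : ℤ, ENNReal.ofReal (C * (2 : ℝ) ^ (-|n|)) * N (l + n) a ∧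
  N l (T2 a) ≤ ∑' n : ℤ, ENNReal.ofReal (C * (2 : ℝ) ^ (-|n|)) * N (l + n) a ∧ N l (kap a) ≤ ∑' n : ℤ, ENNReal.ofReal (C * (2 : ℝ) ^ (-|n|)) * N (l + n) a ∧
  N l (Bq a) ≤ ∑' n : ℤ, ENNReal.ofReal (C * (2 : ℝ) ^ (-|n|)) * N (l + n) a ∧ N l (Mq a) ≤ ∑' n : ℤ, ENNReal.ofReal (C * (2 : ℝ) ^ (-|n|)) * N (l + n) a

theorem exC : ∃ C : ℝ, 1 ≤ C ∧ OpsC C := q_OPS

/-- The constant of the operators. -/
def C1 : ℝ := Classical.choose exC
theorem C1_ge : 1 ≤ C1 := (Classical.choose_spec exC).1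
theorem C1_spec : OpsC C1 := (Classical.choose_spec exC).2

def oT1 : Al →+ Al := op T1 (fun a ha => (C1_spec a ha).1) (fun a b ha hb c => (q_OPL a b ha hb c).1)
def oT2 : Al →+ Al := op T2 (fun a ha => (C1_spec a ha).2.1) (fun a b ha hb c => (q_OPL a b ha hb c).2.1)
def oK : Al →+ Al := op kap (fun a ha => (C1_spec a ha).2.2.1) (fun a b ha hb c => (q_OPL a b ha hb c).2.2.1)
def oB : Al →+ Al := op Bq (fun a ha => (C1_spec a ha).2.2.2.1) (fun a b ha hb c => (q_OPL a b ha hb c).2.2.2.1)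
def oM : Al →+ Al := op Mq (fun a ha => (C1_spec a ha).2.2.2.2.1) (fun a b ha hb c => (q_OPL a b ha hb c).2.2.2.2)

theorem bT1 : Bdd C1 oT1 := fun a l => ((C1_spec a.1 a.2).2.2.2.2.2 l).1
theorem bT2 : Bdd C1 oT2 := fun a l => ((C1_spec a.1 a.2).2.2.2.2.2 l).2.1
theorem bK : Bdd C1 oK := fun a l => ((C1_spec a.1 a.2).2.2.2.2.2 l).2.2.1
theorem bB : Bdd C1 oB := fun a l => ((C1_spec a.1 a.2).2.2.2.2.2 l).2.2.2.1
theorem bM : Bdd C1 oM := fun a l => ((C1_spec a.1 a.2).2.2.2.2.2 l).2.2.2.2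

/-! ## The product of vectors -/

/-- The product. -/
def ipA {ι : Type} [Fintype ι] (u v : Ve ι) : Al := ∑ r, u r * star (v r)

theorem N_add (a b : Al) (l : ℤ) : N l (a + b).1 ≤ N l a.1 + N l b.1 := (q_NRM l a.1 b.1 0 0).2.2.1

theorem N_sum {ι : Type} (s : Finset ι) (a : ι → Al) (l : ℤ) : N l (∑ r ∈ s, a r).1 ≤ ∑ r ∈ s, N l (a r).1 := by
  induction s using Finset.induction_on with
  | empty =>
    simp only [Finset.sum_empty, nonpos_iff_eq_zero]
    have h : NN (0 : Al).1 = 0 := q_LIN.2.2.2.2.1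
    exact le_antisymm (h ▸ le_iSup (fun l => N l (0 : Al).1) l) bot_le
  | insert r s hr ih =>
    rw [Finset.sum_insert hr, Finset.sum_insert hr]
    exact (N_add _ _ l).trans (add_le_add le_rfl ih)

theorem norm_ipA {ι : Type} [Fintype ι] (u v : Ve ι) : ‖ipA u v‖ ≤ ‖u‖ * ‖v‖ := by
  rw [Al.norm_le_iff _ (by positivity), ENNReal.ofReal_mul (norm_nonneg _), Ve.ofReal_norm, Ve.ofReal_norm]
  refine (q_NVB ι).2.2.2.2 (Ve.fam u) (Ve.fam v) _ fun l => ?_
  refine (N_sum _ _ l).trans (Finset.sum_le_sum fun r _ => ?_)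
  refine ((q_CVA (u r).1 (star (v r)).1 (u r).2 (star (v r)).2).2.1 l).trans ?_
  rw [N_star]; rfl

theorem ipA_add {ι : Type} [Fintype ι] (u v w : Ve ι) : ipA (u + v) w = ipA u w + ipA v w := by
  unfold ipA
  rw [← Finset.sum_add_distrib]
  exact Finset.sum_congr rfl fun r _ => by rw [Ve.add_val, add_mul]

theorem ipA_smul {ι : Type} [Fintype ι] (a : Al) (u w : Ve ι) : ipA (a • u) w = a * ipA u w := by
  unfold ipA
  rw [Finset.mul_sum]
  exact Finset.sum_congr rfl fun r _ => by rw [Ve.smul_val, mul_assoc]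

theorem star_ipA {ι : Type} [Fintype ι] (u v : Ve ι) : star (ipA u v) = ipA v u := by
  unfold ipA
  rw [star_sum]
  exact Finset.sum_congr rfl fun r _ => by rw [star_mul, star_star]

theorem norm_smulA {ι : Type} [Fintype ι] (a : Al) (u : Ve ι) : ‖a • u‖ ≤ ‖a‖ * ‖u‖ := by
  rw [Ve.norm_le_iff _ (by positivity), ENNReal.ofReal_mul (norm_nonneg _), Ve.ofReal_norm, Al.ofReal_norm]
  refine (q_NVB ι).2.2.2.1 (Ve.fam u) (Ve.fam (a • u)) _ fun l r => ?_
  refine ((q_CVA a.1 (u r).1 a.2 (u r).2).2.1 l).trans ?_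
  exact mul_le_mul' (le_iSup (fun l => N l a.1) l) le_rfl

/-! ## Constants -/

theorem cst_one : Al.cst 1 = 1 := Al.ext_e fun x y hy => by rw [Al.e_cst _ x hy, Al.e_one x hy]
theorem cst_mul (a b : ℂ) : Al.cst (a * b) = Al.cst a * Al.cst b := Al.ext_e fun x y hy => by
  rw [Al.e_mul _ _ x hy, Al.e_cst _ x hy, Al.e_cst _ x hy, Al.e_cst _ x hy]
theorem cst_add (a b : ℂ) : Al.cst (a + b) = Al.cst a + Al.cst b := Al.ext_e fun x y hy => by
  rw [Al.e_add _ _ x hy, Al.e_cst _ x hy, Al.e_cst _ x hy, Al.e_cst _ x hy]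
theorem cst_neg (a : ℂ) : Al.cst (-a) = -Al.cst a := Al.ext_e fun x y hy => by
  rw [Al.e_neg _ x hy, Al.e_cst _ x hy, Al.e_cst _ x hy]
theorem star_cst (a : ℂ) : star (Al.cst a) = Al.cst ((starRingEnd ℂ) a) := Al.ext_e fun x y hy => by
  rw [Al.e_star, Al.e_cst _ x (q_PTW.2.1 y hy).2.2, Al.e_cst _ x hy]

/-- Constants as a ring homomorphism. -/
def cstH : ℂ →+* Al where
  toFun := Al.cst
  map_one' := cst_one
  map_mul' := cst_mul
  map_zero' := by
    have h := cst_add 0 0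
    rw [add_zero] at h
    exact left_eq_add.1 h
  map_add' := cst_add

theorem cstH_val (a : ℂ) : Al.cst a = cstH a := rfl

/-- One half. -/
def hfA : Al := Al.cst (1 / 2)

/-- The imaginary unit. -/
def iiA : Al := Al.cst Complex.I

end SysI

end Pool.Agent.HSP
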