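import Pool.Agent.HSP.Defs

set_option autoImplicit false

/-!
# HSP targets 1: the algebra of families of modes and the integral operators

Every target has its proof in the docstring.
-/

open scoped Classical ENNReal

noncomputable section

namespace Pool.Agent.HSP

/-! ## The norm -/

/-- NRM. Sublinearity of the norm on a window (from the definitions; `ENNReal.tsum_add`, `ENNReal.tsum_mul_left`). -/
def T_NRM : Prop := ∀ (l : ℤ) (a b : Fam) (c : ℂ) (t : ℝ), A l (fun t y => a t y + b t y) t ≤ A l a t + A l b t ∧ A l (fun t y => c * a t y) t = ENNReal.ofReal ‖c‖ * A l a t ∧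
  N l (fun t y => a t y + b t y) ≤ N l a + N l b ∧ N l (fun t y => c * a t y) = ENNReal.ofReal ‖c‖ * N l a

/-- PTW. Pointwise bounds. PROOF. Every `y ∈ S` has `0 < ‖y‖` (`0 < y.re`), so it lies in some window `W l` (`exists_mem_Ico_zpow` for `‖y‖`). -/
def T_PTW : Prop := (∀ y ∈ S, ∃ l, y ∈ W l) ∧ (∀ y ∈ S, 0 < y.re ∧ (9 / 10 : ℝ) * ‖y‖ ≤ y.re ∧ (starRingEnd ℂ) y ∈ S) ∧ (∀ y ∈ S, ∀ s : ℝ, 0 < s → (s * y : ℂ) ∈ S) ∧ IsOpen S ∧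
  (∀ (l n : ℤ) (s : ℝ) (y : ℂ), y ∈ W l → (2 : ℝ) ^ n ≤ s → s ≤ (2 : ℝ) ^ (n + 1) → (s * y : ℂ) ∈ W (l + n) ∨ (s * y : ℂ) ∈ W (l + n + 1)) ∧
  (∀ l, ((2 : ℝ) ^ l : ℂ) ∈ W l) ∧
  ∀ a, Adm a → (∀ y ∈ S, ∑' t, ENNReal.ofReal (‖a t y‖ * Real.exp (|t| * ‖y‖ / 2)) ≤ NN a ∧ Summable (fun t => ‖a t y‖) ∧ Summable (fun t => ‖a t y‖ * Real.exp (|t| * ‖y‖ / 2))) ∧
    ∀ y ∈ S, ∀ t, ‖a t y‖ * Real.exp (|t| * ‖y‖ / 2) ≤ (NN a).toReal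

/-- INJ. The coefficients of an absolutely convergent series of characters are determined by the function. PROOF. Fix `s`. For `T > 0` the mean `(1 / 2T) ∫_{-T}^{T} exp (-i s x) ∑ c t exp (i t x) dx` is `c s + ∑_{t ≠ s} c t * sinc ((t - s) T)`
(exchange: `MeasureTheory.hasSum_integral_of_summable_norm` / `integral_tsum`); for `T → ∞` every term with `t ≠ s` tends to `0` and is bounded by `‖c t‖`: `tendsto_tsum_of_dominated_convergence`. -/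
def T_INJ : Prop := ∀ c : ℝ → ℂ, Summable (fun t => ‖c t‖) → (∀ x : ℝ, ∑' t, c t * ex t x = 0) → ∀ t, c t = 0

/-- LIN. Linear combinations of admissible families; the norm vanishes only for `0`; `NN`, `ev` and linear operations (T_NRM, T_PTW). -/
def T_LIN : Prop := (∀ a b, Adm a → Adm b → Adm (fun t y => a t y + b t y) ∧ NN (fun t y => a t y + b t y) ≤ NN a + NN b ∧ ∀ x, ∀ y ∈ S, ev (fun t y => a t y + b t y) x y = ev a x y + ev b x y) ∧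
  (∀ a (c : ℂ), Adm a → Adm (fun t y => c * a t y) ∧ NN (fun t y => c * a t y) = ENNReal.ofReal ‖c‖ * NN a ∧ ∀ x, ∀ y ∈ S, ev (fun t y => c * a t y) x y = c * ev a x y) ∧
  (∀ a, Adm a → NN a = 0 → ∀ t y, a t y = 0) ∧ Adm (fun _ _ => 0) ∧ NN (fun _ _ => 0) = 0 ∧
  ∀ a, Adm a → (∀ x : ℝ, ∀ y ∈ S, ev a x y = 0) → (∀ c : ℝ → ℂ, Summable (fun t => ‖c t‖) → (∀ x : ℝ, ∑' t, c t * ex t x = 0) → ∀ t, c t = 0) → ∀ t y, a t y = 0

/-- CVA. Products. PROOF (uses T_PTW). `A l (cv a b) t ≤ ∑' s, A l a s * A l b (t - s)` since `|t| ≤ |s| + |t - s|`; sum over `t` (`ENNReal.tsum_comm`, translation invariance `Equiv.tsum_eq`). Holomorphic: the series `∑' s, a s y * b (t - s) y` converges uniformly on every window (dominated by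
`A l a s * A l b (t-s)`), windows cover neighbourhoods (`y ∈ S` has a neighbourhood in `W l ∪ W (l+1)` or so); `differentiableOn_tsum_of_summable_norm` on small open subsets. `ev`: `ex (t) x = ex s x * ex (t - s) x`, product of absolutely convergent series, `tsum_mul_tsum_of_summable_norm`, reindex `(s, u) ↦ (s, s + u)`. -/
def T_CVA : Prop := ∀ a b, Adm a → Adm b → Adm (cv a b) ∧ (∀ l, N l (cv a b) ≤ N l a * N l b) ∧ ∀ x, ∀ y ∈ S, ev (cv a b) x y = ev a x y * ev b x y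

/-- STA. Conjugation. PROOF. `W l` is invariant under conjugation; `Equiv.neg` in the sum over `t`; `conj (ex (-t) x) = ex t x`; `z ↦ conj (g (conj z))` is holomorphic (`DifferentiableAt.star_star` / `HasDerivAt.conj_conj`). -/
def T_STA : Prop := ∀ a, Adm a → Adm (st a) ∧ (∀ l, N l (st a) = N l a) ∧ ∀ (x : ℝ) (y : ℂ), ev (st a) x y = (starRingEnd ℂ) (ev a x ((starRingEnd ℂ) y))

/-- UNA. The unit. -/
def T_UNA : Prop := Adm un ∧ (∀ l, N l un = 1) ∧ NN un = 1 ∧ ∀ (x : ℝ), ∀ y ∈ S, ev un x y = 1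

/-- CPL. Completeness. PROOF. The sequence converges pointwise (`‖u m t y - u n t y‖ ≤ NN`), locally uniformly on `S`, so the limit is holomorphic (`TendstoLocallyUniformlyOn.differentiableOn`); `NN (u n - a) ≤ ε`: for finitely many `t` and points `y_t ∈ W l` let `m → ∞` (lower semicontinuity;
`ENNReal.tsum_eq_iSup_sum`, `iSup` of sums; or `lintegral_liminf_le` for the counting measure and `iSup` inside). -/
def T_CPL : Prop := ∀ u : ℕ → Fam, (∀ n, Adm (u n)) → (∀ ε : ℝ, 0 < ε → ∃ n₀, ∀ m ≥ n₀, ∀ n ≥ n₀, NN (fun t y => u m t y - u n t y) ≤ ENNReal.ofReal ε) →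
  ∃ a, Adm a ∧ ∀ ε : ℝ, 0 < ε → ∃ n₀, ∀ n ≥ n₀, NN (fun t y => u n t y - a t y) ≤ ENNReal.ofReal ε

/-! ## Vectors -/

/-- NVB. The norm of vectors (Minkowski and Cauchy-Schwarz for finite sums in `ℝ≥0∞`: `ENNReal.Lp_add_le`, `ENNReal.inner_le_Lp_mul_Lq`). -/
def T_NVB : Prop := ∀ (ι : Type) [Fintype ι], (∀ u v : ι → Fam, NV (fun r t y => u r t y + v r t y) ≤ NV u + NV v) ∧ (∀ u : ι → Fam, ∀ r, NN (u r) ≤ NV u) ∧ (∀ u : ι → Fam, NV u ≤ ∑ r, NN (u r)) ∧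
  (∀ (u w : ι → Fam) (c : ℝ≥0∞), (∀ l r, N l (w r) ≤ c * N l (u r)) → NV w ≤ c * NV u) ∧
  ∀ (u v : ι → Fam) (g : Fam), (∀ l, N l g ≤ ∑ r, N l (u r) * N l (v r)) → NN g ≤ NV u * NV v

/-- NVS. Operators acting on the components of a vector. PROOF. `w n = C 2^(-|n|)`, `∑ w n = 3 C`. `(∑ n, w n * x n)² ≤ (∑ w n) ∑ w n * (x n)²` (Cauchy-Schwarz for `tsum` in `ℝ≥0∞`), sum over `r`: `∑ r, (N l (w r))² ≤ 3 C * ∑ n, w n * (NV u)² = (3 C)² (NV u)²`. -/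
def T_NVS : Prop := ∀ (ι : Type) [Fintype ι] (C : ℝ) (u w : ι → Fam), 0 ≤ C → (∀ l r, N l (w r) ≤ ∑' n : ℤ, ENNReal.ofReal (C * (2 : ℝ) ^ (-|n|)) * N (l + n) (u r)) → NV w ≤ ENNReal.ofReal (3 * C) * NV u

/-! ## Integral operators -/

/-- Good kernels. -/
structure GK (K : ℂ → ℝ → ℂ) (C : ℝ) : Prop where
  hol : ∀ s, 0 < s → Differentiable ℂ (fun v => K v s)
  meas : ∀ v, Measurable (K v)
  dom : ∀ R : ℝ, ∃ g : ℝ → ℝ, MeasureTheory.IntegrableOn g (Set.Ioi 0) ∧ ∀ v, (v = 0 ∨ v ∈ S) → ‖v‖ ≤ R → ∀ s, 0 < s → ‖K v s‖ * Real.exp (‖v‖ * (1 - s) / 2) ≤ g s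
  bd : ∀ v, (v = 0 ∨ v ∈ S) → ∀ n : ℤ, ∫⁻ s in Set.Icc ((2 : ℝ) ^ n) ((2 : ℝ) ^ (n + 1)), ENNReal.ofReal (‖K v s‖ * Real.exp (‖v‖ * (1 - s) / 2)) ≤ ENNReal.ofReal (C * (2 : ℝ) ^ (-|n|))
  bdv : ∀ v, (v = 0 ∨ v ∈ S) → ∀ n : ℤ, ∫⁻ s in Set.Icc ((2 : ℝ) ^ n) ((2 : ℝ) ^ (n + 1)), ENNReal.ofReal (‖v‖ * (‖K v s‖ * Real.exp (‖v‖ * (1 - s) / 2))) ≤ ENNReal.ofReal (C * (2 : ℝ) ^ (-|n|))

/-- KI. `Ki` is good. PROOF. `u = ‖v‖`, `Re v ≥ 9/10 u`: weighted kernel `≤ exp (-(14/10) u (s - 1)) s⁻² ≤ s⁻²` for `s > 1`. With the factor `u`: `n = 0`: `∫ u exp (-(14/10) u (s-1)) ≤ 1`; `n ≥ 1`: `u exp (-(14/10) u (s-1)) ≤ 1 / (s - 1) ≤ 1`. -/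
def T_KI : Prop := ∃ C : ℝ, 0 < C ∧ GK Ki C

/-- KZ. `K0` is good. PROOF. Weighted kernel `≤ exp (-(4/10) u (1 - s)) ≤ 1`, `s < 1`. With the factor `u`: `n = -1`: `∫ ≤ 10/4`; `n ≤ -2`: `s ≤ 1/2`, `u exp (-(2/10) u) ≤ 5`, length `2^n`. -/
def T_KZ : Prop := ∃ C : ℝ, 0 < C ∧ GK K0 C

/-- KP. `Kp` is good. PROOF. `1 - chi v = ∫_0^1 4 v² τ exp (-2 v τ) dτ`, so `‖1 - chi v‖ ≤ 2 ‖v‖²` for `0 ≤ Re v`; also `‖1 - chi v‖ ≤ 3` in the sector. `s < 1`: weighted kernel `≤ exp (-(4/10) u (1 - s)) ‖1 - chi (v s)‖ / s²`; for `s ∈ [1/2, 1]` use `≤ 12 exp (-(4/10) u (1-s))`, for `s ≤ 1/2` use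
`≤ 2 u² exp (-(2/10) u)`, both also with a factor `u`. `s > 1`: `‖exp (v (s-1)) chi (v s)‖ exp (u (1-s)/2) ≤ (1 + 2 u s) exp (u (s-1)/2 - (18/10) u s) ≤ (1 + 2 u s) exp (-u s)`, times `s⁻²`; `u (1 + 2 u s) exp (-u s) ≤ C`. `dom`: `g s = 2 R²` for `s < 1`, `C s⁻²` for `s > 1`. -/
def T_KP : Prop := ∃ C : ℝ, 0 < C ∧ GK Kp C

/-- OPH. The integral is holomorphic. PROOF. For `y` in a small closed ball in `S` the integrand `K (|t| y) s * a t (s y)` is holomorphic in `y`, bounded by `g s * (NN a).toReal` (T_PTW: `‖a t (s y)‖ ≤ NN a * exp (-|t| s ‖y‖ / 2)`; `GK.dom` with `R = |t| (‖y₀‖ + 1)`);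
its derivative is bounded by `g s * (NN a).toReal / ρ` (Cauchy, `Complex.norm_deriv_le_of_forall_mem_sphere_norm_le`): `hasDerivAt_integral_of_dominated_loc_of_deriv_le`. -/
def T_OPH : Prop := ∀ (K : ℂ → ℝ → ℂ) (C : ℝ), GK K C → ∀ a, Adm a → ∀ t, DifferentiableOn ℂ (opK K a t) S ∧ ∀ y ∈ S, MeasureTheory.IntegrableOn (fun s : ℝ => K (|t| * y) s * a t (s * y)) (Set.Ioi 0)

/-- OPB. Bounds. PROOF. For `y ∈ W l`: `‖opK K a t y‖ exp (|t| ‖y‖ / 2) ≤ ∑ n, ∫_{[2^n, 2^(n+1)]} (‖K‖ exp (|t| ‖y‖ (1 - s)/2)) (‖a t (s y)‖ exp (|t| s ‖y‖/2)) ds ≤ ∑ n, C 2^(-|n|) (A (l+n) a t + A (l+n+1) a t)` (T_PTW; `enorm_integral_le_lintegral_enorm`; `Ioi 0 = ⋃ n, Icc (2^n) (2^(n+1))`,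
`lintegral_iUnion_le`); shift the second sum: `2^(-|n-1|) ≤ 2 * 2^(-|n|)`. The same for `‖(|t| y) opK‖` with `GK.bdv`. -/
def T_OPB : Prop := ∀ (K : ℂ → ℝ → ℂ) (C : ℝ), 0 ≤ C → GK K C → ∀ a, Adm a → ∀ l t, A l (opK K a) t ≤ ∑' n : ℤ, ENNReal.ofReal (3 * C * (2 : ℝ) ^ (-|n|)) * A (l + n) a t ∧
  A l (fun t y => |t| * y * opK K a t y) t ≤ ∑' n : ℤ, ENNReal.ofReal (3 * C * (2 : ℝ) ^ (-|n|)) * A (l + n) a t

/-- OPS. The operators (uses T_KI, T_KZ, T_KP, T_OPH, T_OPB, T_NRM, T_LIN, T_PTW). PROOF. Combine; `A l a t ≤ ∑' n, 2^(-|n|) A (l+n) a t` (term `n = 0`), `‖t y X‖ = ‖|t| y X‖`; `∑ t`, `ENNReal.tsum_comm`; `NN X ≤ 3 C NN a < ⊤`. -/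
def T_OPS : Prop := ∃ C : ℝ, 1 ≤ C ∧ ∀ a, Adm a → Adm (T1 a) ∧ Adm (T2 a) ∧ Adm (kap a) ∧ Adm (Bq a) ∧ Adm (Mq a) ∧ ∀ l, N l (T1 a) ≤ ∑' n : ℤ, ENNReal.ofReal (C * (2 : ℝ) ^ (-|n|)) * N (l + n) a ∧
  N l (T2 a) ≤ ∑' n : ℤ, ENNReal.ofReal (C * (2 : ℝ) ^ (-|n|)) * N (l + n) a ∧ N l (kap a) ≤ ∑' n : ℤ, ENNReal.ofReal (C * (2 : ℝ) ^ (-|n|)) * N (l + n) a ∧
  N l (Bq a) ≤ ∑' n : ℤ, ENNReal.ofReal (C * (2 : ℝ) ^ (-|n|)) * N (l + n) a ∧ N l (Mq a) ≤ ∑' n : ℤ, ENNReal.ofReal (C * (2 : ℝ) ^ (-|n|)) * N (l + n) a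

/-- OPL. Linearity of the operators (uses T_KI, T_KZ, T_KP, T_OPH for integrability). -/
def T_OPL : Prop := ∀ a b, Adm a → Adm b → ∀ c : ℂ, T1 (fun t y => a t y + c * b t y) = (fun t y => T1 a t y + c * T1 b t y) ∧ T2 (fun t y => a t y + c * b t y) = (fun t y => T2 a t y + c * T2 b t y) ∧
  kap (fun t y => a t y + c * b t y) = (fun t y => kap a t y + c * kap b t y) ∧ Bq (fun t y => a t y + c * b t y) = (fun t y => Bq a t y + c * Bq b t y) ∧ Mq (fun t y => a t y + c * b t y) = (fun t y => Mq a t y + c * Mq b t y)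

/-- KSA. `kap k + st (kap k) = k` if `st k = k`. -/
def T_KSA : Prop := ∀ k : Fam, st k = k → ∀ t y, kap k t y + st (kap k) t y = k t y

/-- ODV. The differential equation of `T1` (uses T_KI, T_KP, T_OPH, T_PTW). PROOF. `h r = r⁻² a t r` for real `r > 0`. `t ≥ 0`: substitution `r = s y` gives `y⁻¹ T1 a t y = -2 i exp (t y) ∫_y^∞ exp (-t r) h r dr`. `t < 0`: `y⁻¹ T1 a t y = 2 i (exp (-|t| y) ∫_0^y exp (|t| r) (1 - chi (|t| r)) h r dr - exp (-|t| y) ∫_y^∞ exp (|t| r) chi (|t| r) h r dr)`.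
Differentiate (fundamental theorem of calculus on `(0, y]` and `[y, ∞)`, the integrands are continuous and integrable). -/
def T_ODV : Prop := ∀ a, Adm a → ∀ (t y : ℝ), 0 < y → HasDerivAt (fun y : ℝ => (y : ℂ)⁻¹ * T1 a t y) (t * ((y : ℂ)⁻¹ * T1 a t y) + 2 * Complex.I * ((y : ℂ)⁻¹ ^ 2 * a t y)) y

/-- ODB. The differential equation of `Bq` (uses T_KZ, T_OPH, T_PTW). PROOF. `y Bq k t y = 2 i exp (-|t| y) ∫_0^y exp (|t| r) kap k t r dr`, and `kap k t = 0` for `t > 0`. -/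
def T_ODB : Prop := ∀ k, Adm k → ∀ (t y : ℝ), 0 < y → HasDerivAt (fun y : ℝ => (y : ℂ) * Bq k t y) (t * ((y : ℂ) * Bq k t y) + 2 * Complex.I * kap k t y) y

end Pool.Agent.HSP
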