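import Pool.Agent.HSP.Defs2

set_option autoImplicit false

/-!
# HSP targets 4: surfaces

Every target has its proof in the docstring.
-/

open scoped Classical ENNReal

noncomputable section

namespace Pool.Agent.HSP

/-- POI. A closed form has a primitive. PROOF. `Convex.exists_forall_hasFDerivAt_of_fderiv_symmetric` (Mathlib.MeasureTheory.Integral.CurveIntegral.Poincare) for `ω z = P z • id + V z • conj` on the convex open set `Hp`: `fderiv ω z h k = (A h + Z conj h) k + (Z h + B conj h) conj k` is symmetric.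
The primitive is smooth since its derivative `ω` is (`contDiffOn_infty_iff_fderiv_of_isOpen` or by `ContDiffOn` of order `n + 1`). -/
def T_POI : Prop := ∀ P V A B Z : ℂ → ℂ, Smo P → Smo V → (∀ z ∈ Hp, HasW P (A z) (Z z) z) → (∀ z ∈ Hp, HasW V (Z z) (B z) z) → ∃ Φ : ℂ → ℂ, Smo Φ ∧ ∀ z ∈ Hp, HasW Φ (P z) (V z) z

/-- BRI. Brioschi's numerator by the second derivatives. PROOF. On `Hp` (open): `E_x = 2 ⟨f_xx, f_x⟩`, `E_y = 2 ⟨f_xy, f_x⟩`, `G_x = 2 ⟨f_xy, f_y⟩`, `G_y = 2 ⟨f_yy, f_y⟩`, `F_x = ⟨f_xx, f_y⟩ + ⟨f_x, f_xy⟩`, `F_y = ⟨f_xy, f_y⟩ + ⟨f_x, f_yy⟩`,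
`-E_yy / 2 + F_xy - G_xx / 2 = ⟨f_xx, f_yy⟩ - ⟨f_xy, f_xy⟩` (the third derivatives cancel; `dx (dy g) = dy (dx g)` for smooth `g`: `ContDiffAt.isSymmSndFDerivAt` or `second_derivative_symmetric`). Then the two determinants (the entry `⟨f_xy, f_xy⟩ * (E G - F²)` moves between them). -/
def T_BRI : Prop := ∀ (n : ℕ) (f : ℂ → EuclideanSpace ℝ (Fin n)), ContDiffOn ℝ ((⊤ : ℕ∞) : WithTop ℕ∞) f Hp → ∀ z ∈ Hp, dx (dy f) z = dy (dx f) z ∧ bnum (mE f) (mF f) (mG f) z =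
  Matrix.det !![inner ℝ (dx (dx f) z) (dy (dy f) z), inner ℝ (dx (dx f) z) (dx f z), inner ℝ (dx (dx f) z) (dy f z); inner ℝ (dx f z) (dy (dy f) z), inner ℝ (dx f z) (dx f z), inner ℝ (dx f z) (dy f z);
    inner ℝ (dy f z) (dy (dy f) z), inner ℝ (dx f z) (dy f z), inner ℝ (dy f z) (dy f z)] -
  Matrix.det !![inner ℝ (dy (dx f) z) (dy (dx f) z), inner ℝ (dy (dx f) z) (dx f z), inner ℝ (dy (dx f) z) (dy f z); inner ℝ (dx f z) (dy (dx f) z), inner ℝ (dx f z) (dx f z), inner ℝ (dx f z) (dy f z);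
    inner ℝ (dy f z) (dy (dx f) z), inner ℝ (dx f z) (dy f z), inner ℝ (dy f z) (dy f z)]

/-- PSI. The algebraic identity (checked numerically). `f_x = P + V`, `f_y = i (P - V)`, `f_xx = A + 2 Z + B`, `f_xy = i (A - B)`, `f_yy = -A + 2 Z - B`. PROOF. `Re hp = (hp + star hp) / 2`, `hp` is sesquilinear and `star (hp u v) = hp v u`: a polynomial identity in the products of `P, V, A, B, Z`.
First part: `inner (cr u) (cr v) = Re (hp u v)`. -/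
def T_PSI : Prop := ∀ (ι : Type) [Fintype ι], (∀ u v : ι → ℂ, inner ℝ (cr u) (cr v) = (hp u v).re) ∧ ∀ P V A B Z : ι → ℂ, ∀ x y xx xy yy : ι → ℂ, (∀ r, x r = P r + V r) → (∀ r, y r = Complex.I * (P r - V r)) →
  (∀ r, xx r = A r + 2 * Z r + B r) → (∀ r, xy r = Complex.I * (A r - B r)) → (∀ r, yy r = -A r + 2 * Z r - B r) →
  ((Matrix.det !![(hp xx yy).re, (hp xx x).re, (hp xx y).re; (hp x yy).re, (hp x x).re, (hp x y).re; (hp y yy).re, (hp x y).re, (hp y y).re] -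
    Matrix.det !![(hp xy xy).re, (hp xy x).re, (hp xy y).re; (hp x xy).re, (hp x x).re, (hp x y).re; (hp y xy).re, (hp x y).re, (hp y y).re] +
    ((hp x x).re * (hp y y).re - (hp x y).re ^ 2) ^ 2 : ℝ) : ℂ) = -16 * Psi (1 / 2 : ℂ) hp P A V B Z

/-- SAD. The saddle property. PROOF. With `μ = p + i q`: `f_xx + f_yy = 2 p (f_xx - f_yy) + 4 q f_xy`, i.e. `(1 - 2 p) f_xx - 4 q f_xy + (1 + 2 p) f_yy = 0` (as vectors). So with `L, M, N` the products with `ν`: `(1 - 2 p) L - 4 q M + (1 + 2 p) N = 0`, `(1 - 2p)(1 + 2p) > (2q)²`, `1 - 2p > 0`;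
if `L N > M²` then `L, N` have the same sign and `(1 - 2p) |L| + (1 + 2p) |N| ≥ 2 sqrt ((1 - 4p²) L N) > 4 |q| |M|`, a contradiction. -/
def T_SAD : Prop := ∀ (ι : Type) [Fintype ι] (μ : ℂ) (A B Z : ι → ℂ) (ν : EuclideanSpace ℝ (ι ⊕ ι)), ‖μ‖ ≤ 1 / 4 → (∀ r, Z r = μ * A r + (starRingEnd ℂ) μ * B r) →
  inner ℝ (cr (fun r => A r + 2 * Z r + B r)) ν * inner ℝ (cr (fun r => -A r + 2 * Z r - B r)) ν - inner ℝ (cr (fun r => Complex.I * (A r - B r))) ν ^ 2 ≤ 0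

/-- HYC. The hyperbolic metric of the half plane is complete. PROOF. Otherwise `L = ∫ ‖γ'‖ / Im γ < ∞`; `|log (Im γ t) - log (Im γ 0)| ≤ L` so `e^{-L} y₀ ≤ Im γ t ≤ e^L y₀`, and `‖γ t - γ 0‖ ≤ ∫ ‖γ'‖ ≤ e^L y₀ L`: the curve stays in a compact subset of `Hp`. -/
def T_HYC : Prop := ∀ γ : ℝ → ℂ, ContDiffOn ℝ 1 γ (Set.Ico 0 1) → (∀ t ∈ Set.Ico (0 : ℝ) 1, γ t ∈ Hp) →
  (∀ K : Set ℂ, K ⊆ Hp → IsCompact K → ∃ s < (1 : ℝ), ∀ t ∈ Set.Ioo s 1, γ t ∉ K) → ∫⁻ t in Set.Ioo (0 : ℝ) 1, ENNReal.ofReal (‖deriv γ t‖ / (γ t).im) = ⊤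

/-- DER. The derivatives of the surface `f = e (cr Φ)`, `e` a linear isometry. PROOF. `HasW` says that `fderiv (Φ r) z h = P r z * h + V r z * conj h`; `cr` is real linear. On the open set `Hp` these are equalities of functions, so they can be differentiated again. -/
def T_DER : Prop := ∀ (ι : Type) [Fintype ι] (n : ℕ) (e : EuclideanSpace ℝ (ι ⊕ ι) ≃ₗᵢ[ℝ] EuclideanSpace ℝ (Fin n)) (Φ P V A B Z : ι → ℂ → ℂ) (μ : ℂ → ℂ), Dat P V A B Z μ → (∀ r, Smo (Φ r)) → (∀ r, ∀ z ∈ Hp, HasW (Φ r) (P r z) (V r z) z) →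
  ContDiffOn ℝ ((⊤ : ℕ∞) : WithTop ℕ∞) (fun z => e (cr fun r => Φ r z)) Hp ∧ ∀ z ∈ Hp, (∀ h, fderiv ℝ (fun z => e (cr fun r => Φ r z)) z h = e (cr fun r => P r z * h + V r z * (starRingEnd ℂ) h)) ∧
    dx (fun z => e (cr fun r => Φ r z)) z = e (cr fun r => P r z + V r z) ∧ dy (fun z => e (cr fun r => Φ r z)) z = e (cr fun r => Complex.I * (P r z - V r z)) ∧
    dx (dx (fun z => e (cr fun r => Φ r z))) z = e (cr fun r => A r z + 2 * Z r z + B r z) ∧ dy (dx (fun z => e (cr fun r => Φ r z))) z = e (cr fun r => Complex.I * (A r z - B r z)) ∧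
    dy (dy (fun z => e (cr fun r => Φ r z))) z = e (cr fun r => -A r z + 2 * Z r z - B r z)

/-- LOW. The lower bound of the metric. PROOF. `‖cr u‖² = ∑ ‖u r‖²`. Minkowski: `‖cr (P h + V conj h)‖ ≥ (sqrt ∑ ‖P r‖² - sqrt ∑ ‖V r‖²) ‖h‖ ≥ (1/2 - 1/8) ‖h‖ / y`. Positivity of `E G - F²`: `E G - F² = 4 (β² - |α|²)` with `β = (|P|² + |V|²)/2`, `α = hp P V`, `|α| ≤ |P| |V| < |P|² / 2`. -/
def T_LOW : Prop := ∀ (ι : Type) [Fintype ι] (P V : ι → ℂ) (y : ℝ), 0 < y → 1 / 2 ≤ y ^ 2 * ∑ r, ‖P r‖ ^ 2 → y ^ 2 * ∑ r, ‖V r‖ ^ 2 ≤ 1 / 64 → (∀ h : ℂ, 1 / 4 * (‖h‖ / y) ≤ ‖cr fun r => P r * h + V r * (starRingEnd ℂ) h‖) ∧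
  0 < (inner ℝ (cr fun r => P r + V r) (cr fun r => P r + V r) : ℝ) ∧
  0 < (inner ℝ (cr fun r => P r + V r) (cr fun r => P r + V r) : ℝ) * inner ℝ (cr fun r => Complex.I * (P r - V r)) (cr fun r => Complex.I * (P r - V r)) - inner ℝ (cr fun r => P r + V r) (cr fun r => Complex.I * (P r - V r)) ^ 2

/-- GEO. The surface (uses T_POI, T_BRI, T_PSI, T_SAD, T_HYC, T_DER, T_LOW). PROOF. Primitives `Φ r` (T_POI), `n = 2 card ι`, `e` from `LinearIsometryEquiv.piLpCongrLeft 2 ℝ ℝ`; `f z = e (cr fun r => Φ r z)`. Curvature: T_BRI, T_DER, `e` preserves `inner`, T_PSI and `Dat.crv`, so `bnum = -(E G - F²)²`.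
Completeness: `‖fderiv f (γ t) (γ' t)‖ ≥ ‖γ' t‖ / (4 Im γ t)`, T_HYC. Saddle: T_SAD with `e.symm ν`. -/
def T_GEO : Prop := ∀ (ι : Type) [Fintype ι] (P V A B Z : ι → ℂ → ℂ) (μ : ℂ → ℂ), Dat P V A B Z μ → Goal

end Pool.Agent.HSP
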