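import Pool.Agent.HSP.Defs2

set_option autoImplicit false

/-!
# HSP targets 5: the isometry with the hyperbolic disc

Every target has its proof in the docstring. A complete metric of curvature `-1` on the half plane is the image of the hyperbolic disc under a local isometry.
-/

open scoped Classical ENNReal

noncomputable section

namespace Pool.Agent.HSP

/-- Smooth functions with values in a normed space. -/
def SmX {X : Type} [NormedAddCommGroup X] [NormedSpace ℝ X] (g : ℂ → X) : Prop := ContDiffOn ℝ ((⊤ : ℕ∞) : WithTop ℕ∞) g Hp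

/-- BRK. Brioschi's formula in an orthonormal frame: `θ₁ = a dx + b dy`, `θ₂ = c dy`, `ω = p dx + q dy`, `dω = θ₁ ∧ θ₂`. PROOF. Expand the derivatives of `E = a²`, `F = a b`, `G = b² + c²` and of `p, q` (on the open set `Hp` all functions are smooth; mixed second derivatives are symmetric); `EG - F² = a² c²`; the claim is
`bnum = -(a c)³ (q_x - p_y)`, a polynomial identity after multiplication by powers of `a, c` (`field_simp; ring`). -/
def T_BRK : Prop := ∀ a b c : ℂ → ℝ, SmX a → SmX b → SmX c → (∀ z ∈ Hp, 0 < a z) → (∀ z ∈ Hp, 0 < c z) →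
  (∀ z ∈ Hp, gaussK (fun z => a z ^ 2) (fun z => a z * b z) (fun z => b z ^ 2 + c z ^ 2) z = -1) →
  ∀ p q : ℂ → ℝ, (∀ z, p z = (dx b z - dy a z) / c z) → (∀ z, q z = (dx c z + p z * b z) / a z) → ∀ z ∈ Hp, dx q z - dy p z = a z * c z

/-- LOD. Linear ordinary differential equations have global solutions on open intervals. PROOF. On a compact interval `[α, β] ∋ t₀` with `‖A‖ ≤ K`: Picard iteration in the complete space of continuous functions with the norm `sup e^{-2K|t - t₀|} ‖x t‖` (contraction with factor `1/2`), or a fixed number of steps of length `1/(2K)` with the contraction principle;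
solutions are unique (Gronwall, `ODE_solution_unique`), so the solutions on an exhausting sequence of compact intervals fit together. -/
def T_LOD : Prop := ∀ (E : Type) [NormedAddCommGroup E] [NormedSpace ℝ E] [CompleteSpace E] (s : Set ℝ) (A : ℝ → E →L[ℝ] E), IsOpen s → s.OrdConnected → ContinuousOn A s → ∀ t₀ ∈ s, ∀ x₀ : E, ∃ x : ℝ → E, x t₀ = x₀ ∧ ∀ t ∈ s, HasDerivAt x (A t (x t)) t

/-- PDF. Derivative in the parameter `x` of the solution `N (x + i y)` of `∂_y N = A N`. PROOF. Fix `x₀, y₁ > 0`, let `J` be the closed interval between `1` and `y₁`. For small `h` let `D_h y = (N (x₀ + h, y) - N (x₀, y)) / h`. Then `∂_y (D_h - U) = A (x₀, y) (D_h - U) + r_h`, `r_h = ((A (x₀ + h, y) - A (x₀, y)) / h) N (x₀ + h, y) - (∂_x A)(x₀, y) N (x₀, y)`.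
By Gronwall `N (x₀ + h, y)` is bounded for `y ∈ J`, `|h| ≤ h₀`, and tends to `N (x₀, y)` uniformly, so `r_h → 0` uniformly on `J` (mean value inequality, uniform continuity of `∂_x A` on compact sets), `(D_h - U) 1 → 0`, and by Gronwall `D_h - U → 0` at `y₁`. -/
def T_PDF : Prop := ∀ (A : ℂ → ℂ →L[ℝ] ℂ) (N U : ℂ → ℂ), SmX A → (∀ z ∈ Hp, HasDerivAt (fun y : ℝ => N (z.re + y * Complex.I)) (A z (N z)) z.im) →
  (∀ z ∈ Hp, HasDerivAt (fun y : ℝ => U (z.re + y * Complex.I)) (A z (U z) + dx A z (N z)) z.im) → (∀ x : ℝ, HasDerivAt (fun x : ℝ => N (x + Complex.I)) (U (x + Complex.I)) x) →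
  ∀ z ∈ Hp, HasDerivAt (fun x : ℝ => N (x + z.im * Complex.I)) (U z) z.re

/-- FLT. Flat linear systems on the half plane (uses T_LOD, T_PDF). PROOF. Solve `∂_x N = B N` on the line `y = 1` with `N I = N₀` (T_LOD), then `∂_y N = A N` on every vertical half line (T_LOD on `Ioi 0`). `U = B N` satisfies `∂_y U = (∂_y B) N + B A N = A B N + (∂_x A) N = A U + (∂_x A) N` by flatness, so `∂_x N = B N` everywhere (T_PDF).
The two derivatives are locally bounded, so `N` is continuous (locally Lipschitz in each variable with local constants: `N` is locally bounded by Gronwall), then they are continuous and `N` is `C¹` (`HasStrictFDerivAt` from continuous derivatives in both variables), and then smooth by induction since `fderiv N z h = h.re • B z (N z) + h.im • A z (N z)`. -/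
def T_FLT : Prop := ∀ A B : ℂ → ℂ →L[ℝ] ℂ, SmX A → SmX B → (∀ z ∈ Hp, dx A z - dy B z + (A z).comp (B z) - (B z).comp (A z) = 0) → ∀ N₀ : ℂ, ∃ N : ℂ → ℂ, N Complex.I = N₀ ∧ Smo N ∧ ∀ z ∈ Hp, dx N z = B z (N z) ∧ dy N z = A z (N z)

/-- DEV. The developing map (uses T_BRK, T_FLT). PROOF. `a = sqrt E`, `b = F / a`, `c = sqrt (E G - F²) / a`, `p, q` as in T_BRK: `b_x - a_y = p c`, `c_x = a q - p b`, `q_x - p_y = a c`. `B z N = (-(a N*) + i p N) / 2`, `A z N = ((-b + i c) N* + i q N) / 2` (`N*` the conjugate) is flat by these three equations.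
Let `N, D` be the solutions with `N I = i`, `D I = 1`. `Im (N D*) = 1` (its derivatives vanish; `Hp` is convex), so `D ≠ 0`. `dev = N / D`: `dx dev = (i a) / D²`, `dy dev = (i b + c) / D²`, `Im dev = 1 / |D|²`. -/
def T_DEV : Prop := ∀ E F G : ℂ → ℝ, SmX E → SmX F → SmX G → (∀ z ∈ Hp, 0 < E z ∧ 0 < E z * G z - F z ^ 2) → (∀ z ∈ Hp, gaussK E F G z = -1) →
  ∃ dev : ℂ → ℂ, Smo dev ∧ (∀ z ∈ Hp, dev z ∈ Hp) ∧ ∀ z ∈ Hp, ∀ h : ℂ, ‖fderiv ℝ dev z h‖ ^ 2 = (dev z).im ^ 2 * (E z * h.re ^ 2 + 2 * F z * h.re * h.im + G z * h.im ^ 2)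

/-- A local isometry onto the half plane, from a complete metric. -/
structure LIso {n : ℕ} (f : ℂ → EuclideanSpace ℝ (Fin n)) (dev : ℂ → ℂ) : Prop where
  smf : ContDiffOn ℝ ((⊤ : ℕ∞) : WithTop ℕ∞) f Hp
  sm : Smo dev
  mem : ∀ z ∈ Hp, dev z ∈ Hp
  iso : ∀ z ∈ Hp, ∀ h : ℂ, ‖fderiv ℝ dev z h‖ = (dev z).im * ‖fderiv ℝ f z h‖
  inj : ∀ z ∈ Hp, ∀ h : ℂ, fderiv ℝ f z h = 0 → h = 0
  com : Compl f

/-- LCI. Local inverses. PROOF. Inverse function theorem: `fderiv ℝ dev z` is injective (`iso`, `inj`), so bijective; `ContDiffAt.toOpenPartialHomeomorph`; `τ` is smooth near `dev z` (`ContDiffAt.to_localInverse`); shrink to a ball. -/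
def T_LCI : Prop := ∀ (n : ℕ) (f : ℂ → EuclideanSpace ℝ (Fin n)) (dev : ℂ → ℂ), LIso f dev → ∀ z ∈ Hp, ∃ r : ℝ, 0 < r ∧ ∃ τ : ℂ → ℂ, ∃ U : Set ℂ, IsOpen U ∧ z ∈ U ∧ U ⊆ Hp ∧ Metric.ball (dev z) r ⊆ Hp ∧
  ContDiffOn ℝ ((⊤ : ℕ∞) : WithTop ℕ∞) τ (Metric.ball (dev z) r) ∧ (∀ w ∈ Metric.ball (dev z) r, τ w ∈ U ∧ dev (τ w) = w) ∧ ∀ x ∈ U, dev x ∈ Metric.ball (dev z) r ∧ τ (dev x) = x

/-- LFT. Lifting of segments (uses T_LCI). PROOF. `c t = dev I + t (q - dev I)`, a segment in the convex set `Hp`. The set of `T ∈ [0, 1]` such that there is a continuous lift on `[0, T]` is an interval containing `0`, open in `[0, 1]` (T_LCI at `γ T`). Lifts are unique (T_LCI: the set where two lifts agree is open and closed), and `C¹`.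
If `T` is its supremum, the lifts fit together to a `C¹` curve `γ` on `[0, T)`; `‖fderiv f (γ t) (γ' t)‖ = ‖c' t‖ / Im (c t)` (`iso`), so its length is finite; by completeness (`com` for `t ↦ γ (T t)`, `T > 0`) there is a compact `K ⊆ Hp` with `γ t ∈ K` for `t` arbitrarily close to `T`. Let `p ∈ K` be a limit point of `γ t_j`, `t_j → T`.
With `r, τ, U` of T_LCI at `p`: for large `j`, `γ t_j ∈ U` and `c t ∈ ball (dev p) r` for `t ∈ [t_j, T]` (`dev p = c T`); `t ↦ τ (c t)` is a lift that agrees with `γ` at `t_j`, hence on `[t_j, T)`, and it extends `γ` to `[0, T]` (and beyond if `T < 1`). -/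
def T_LFT : Prop := ∀ (n : ℕ) (f : ℂ → EuclideanSpace ℝ (Fin n)) (dev : ℂ → ℂ), LIso f dev → ∀ q ∈ Hp, ∃ γ : ℝ → ℂ, ContinuousOn γ (Set.Icc 0 1) ∧ γ 0 = Complex.I ∧ ∀ t ∈ Set.Icc (0 : ℝ) 1, γ t ∈ Hp ∧ dev (γ t) = dev Complex.I + t * (q - dev Complex.I)

/-- SEC. The section (uses T_LCI, T_LFT). PROOF. `τ q = γ_q 1` (lifts are unique). Smoothness near `q₀`: the compact curve `γ_{q₀} [0, 1]` is covered by finitely many sets of T_LCI, `0 = t_0 < ... < t_m = 1` with `γ_{q₀} [t_j, t_{j+1}] ⊆ U_j`; by induction on `j` the map `q ↦ γ_q t_j` is smooth near `q₀` and close to `γ_{q₀} t_j`: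
for `q` near `q₀` one has `γ_q t = τ_j (c_q t)` on `[t_j, t_{j+1}]`. Or use `IsLocalHomeomorph.continuous_lift` (Mathlib.Topology.Homotopy.Lifting) for the map `(t, q) ↦ c_q t` to get continuity of `(t, q) ↦ γ_q t`, and then T_LCI at `τ q₀` for smoothness. -/
def T_SEC : Prop := ∀ (n : ℕ) (f : ℂ → EuclideanSpace ℝ (Fin n)) (dev : ℂ → ℂ), LIso f dev → ∃ τ : ℂ → ℂ, Smo τ ∧ ∀ q ∈ Hp, τ q ∈ Hp ∧ dev (τ q) = q

/-- SRP. The saddle property does not depend on the coordinates. PROOF. `g = f ∘ φ`: `fderiv g z h = fderiv f (φ z) (fderiv φ z h)`; `ν ⊥ g_x, g_y` and `fderiv φ z` surjective (`hφ`) gives `ν ⊥ f_x, f_y` at `φ z`. The second derivatives: `⟨D² g (h, k), ν⟩ = ⟨D² f (φ z) (Dφ h, Dφ k), ν⟩`, a quadratic form composed with a linear map: its determinant is multiplied by `det (Dφ)²`. -/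
def T_SRP : Prop := ∀ (n : ℕ) (f : ℂ → EuclideanSpace ℝ (Fin n)) (φ : ℂ → ℂ) (D : Set ℂ), IsOpen D → ContDiffOn ℝ ((⊤ : ℕ∞) : WithTop ℕ∞) f Hp → ContDiffOn ℝ ((⊤ : ℕ∞) : WithTop ℕ∞) φ D → (∀ z ∈ D, φ z ∈ Hp) → (∀ z ∈ D, Function.Surjective (fderiv ℝ φ z)) → Saddle f →
  ∀ z ∈ D, ∀ ν : EuclideanSpace ℝ (Fin n), inner ℝ (fderiv ℝ (fun w => f (φ w)) z 1) ν = 0 → inner ℝ (fderiv ℝ (fun w => f (φ w)) z Complex.I) ν = 0 →
    inner ℝ (fderiv ℝ (fun w => fderiv ℝ (fun w => f (φ w)) w 1) z 1) ν * inner ℝ (fderiv ℝ (fun w => fderiv ℝ (fun w => f (φ w)) w Complex.I) z Complex.I) ν -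
      (inner ℝ (fderiv ℝ (fun w => fderiv ℝ (fun w => f (φ w)) w 1) z Complex.I) ν) ^ 2 ≤ 0

/-- The hyperbolic disc as a saddle surface. -/
def Goal2 : Prop := ∃ n : ℕ, ∃ f : ℂ → EuclideanSpace ℝ (Fin n), ContDiffOn ℝ ((⊤ : ℕ∞) : WithTop ℕ∞) f (Metric.ball (0 : ℂ) 1) ∧
  (∀ z ∈ Metric.ball (0 : ℂ) 1, inner ℝ (fderiv ℝ f z 1) (fderiv ℝ f z 1) = (2 / (1 - ‖z‖ ^ 2)) ^ 2 ∧ inner ℝ (fderiv ℝ f z Complex.I) (fderiv ℝ f z Complex.I) = (2 / (1 - ‖z‖ ^ 2)) ^ 2 ∧
    inner ℝ (fderiv ℝ f z 1) (fderiv ℝ f z Complex.I) = 0) ∧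
  ∀ z ∈ Metric.ball (0 : ℂ) 1, ∀ ν : EuclideanSpace ℝ (Fin n), inner ℝ (fderiv ℝ f z 1) ν = 0 → inner ℝ (fderiv ℝ f z Complex.I) ν = 0 →
    inner ℝ (fderiv ℝ (fun w => fderiv ℝ f w 1) z 1) ν * inner ℝ (fderiv ℝ (fun w => fderiv ℝ f w Complex.I) z Complex.I) ν - (inner ℝ (fderiv ℝ (fun w => fderiv ℝ f w 1) z Complex.I) ν) ^ 2 ≤ 0

/-- ISO. The isometric immersion (uses T_DEV, T_SEC, T_SRP). PROOF. `E = mE f` etc. are smooth; `dev` of T_DEV; `LIso f dev`: `‖fderiv f z h‖² = E h.re² + 2 F h.re h.im + G h.im²`. `τ` of T_SEC, `C z = i (1 + z) / (1 - z)` from the unit disc to `Hp`, `φ = τ ∘ C`, `g = f ∘ φ`.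
`fderiv dev (τ q) (fderiv τ q h) = h`, so `‖fderiv (f ∘ τ) q h‖ = ‖h‖ / Im q`, `‖fderiv g z h‖ = |C'(z)| ‖h‖ / Im C(z) = 2 ‖h‖ / (1 - |z|²)`; polarisation gives the three inner products. `fderiv φ z` is injective, so surjective; T_SRP. -/
def T_ISO : Prop := Goal → Goal2

end Pool.Agent.HSP
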